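import Mathlib

/-!
BA: a saturated subgroup of `ℤⁿ` in adapted coordinates.

PROOF. `Q = (Fin n → ℤ) ⧸ A` is finitely generated and torsion free (`hA`), so free
(`Module.free_of_finite_type_torsion_free'` or its current name), so there is a linear section of
the projection, and `A` (as a `ℤ`-submodule, `AddSubgroup.toIntSubmodule`) has a complement `C`
(`Submodule.exists_isCompl...`, `Module.projective_lifting_property`). Take bases of `A`
(`r` elements; a submodule of a free finite `ℤ`-module is free) and of `C` (`n - r` elements);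
together they form a basis `e` of `ℤⁿ` indexed by `Fin n`, the first `r` elements spanning `A`
(`Submodule.prodEquivOfIsCompl`, `Module.Basis.prod`, reindex with `finSumFinEquiv`; the total number is `n`
by `Module.finrank`). `U i = e i`, `U'` = the coordinates of the standard basis
(`Module.Basis.toMatrix`, `Module.Basis.toMatrix_mul_toMatrix_flip`). `∑ b i U i ∈ A` iff the coordinates `b i`,
`i ≥ r`, vanish.
-/

namespace XA

theorem adapted_basis {n : ℕ} (A : AddSubgroup (Fin n → ℤ))
    (hA : ∀ (m : ℤ) (a : Fin n → ℤ), m ≠ 0 → m • a ∈ A → a ∈ A) :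
    ∃ (U U' : Matrix (Fin n) (Fin n) ℤ) (r : ℕ), U' * U = 1 ∧ U * U' = 1 ∧ r ≤ n ∧
      ∀ b : Fin n → ℤ, (fun j => ∑ i, b i * U i j) ∈ A ↔ ∀ i : Fin n, r ≤ (i : ℕ) → b i = 0 := by
  classical
  obtain ⟨N, hN⟩ : ∃ N : Submodule ℤ (Fin n → ℤ), N = AddSubgroup.toIntSubmodule A := ⟨_, rfl⟩
  have hNA : ∀ x, x ∈ N ↔ x ∈ A := by
    intro x
    rw [hN]
    exact Iff.rfl
  obtain ⟨r, snf⟩ := N.smithNormalForm (Pi.basisFun ℤ (Fin n))
  have hr : r ≤ n := by
    have := Fintype.card_le_of_embedding snf.f
    simpa using this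
  -- the basis vectors `bM (f i)` are in `A`
  have hmem : ∀ i, snf.bM (snf.f i) ∈ N := by
    intro i
    have h1 := snf.snf i
    have h2 : snf.a i ≠ 0 := by
      intro h0
      rw [h0, zero_smul] at h1
      exact snf.bN.ne_zero i (Subtype.ext h1)
    rw [hNA]
    refine hA (snf.a i) _ h2 ?_
    rw [← hNA, ← h1]
    exact (snf.bN i).2
  -- membership in coordinates
  have hcoord : ∀ x : Fin n → ℤ, x ∈ N ↔ ∀ i, i ∉ Set.range snf.f → snf.bM.repr x i = 0 := by
    intro x
    constructor
    · intro hx i hi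
      exact snf.repr_eq_zero_of_notMem_range ⟨x, hx⟩ hi
    · intro h
      rw [← snf.bM.sum_repr x]
      refine Submodule.sum_mem _ fun i _ => ?_
      by_cases hi : i ∈ Set.range snf.f
      · obtain ⟨j, rfl⟩ := hi
        exact Submodule.smul_mem _ _ (hmem j)
      · rw [h i hi, zero_smul]
        exact Submodule.zero_mem _
  -- the permutation
  obtain ⟨e⟩ : Nonempty ({i : Fin n // (i : ℕ) < r} ≃ {x : Fin n // x ∈ Set.range snf.f}) := by
    have c1 : Fintype.card {i : Fin n // (i : ℕ) < r} = r := by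
      have : Fintype.card {i : Fin n // (i : ℕ) < r} = Fintype.card (Fin r) :=
        Fintype.card_congr
          { toFun := fun i => ⟨i.1, i.2⟩
            invFun := fun i => ⟨⟨i.1, lt_of_lt_of_le i.2 hr⟩, i.2⟩
            left_inv := fun _ => rfl
            right_inv := fun _ => rfl }
      rw [this, Fintype.card_fin]
    have c2 : Fintype.card {x : Fin n // x ∈ Set.range snf.f} = r := by
      have : Fintype.card {x : Fin n // x ∈ Set.range snf.f} = Fintype.card (Fin r) :=
        (Fintype.card_congr (Equiv.ofInjective snf.f snf.f.injective)).symm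
      rw [this, Fintype.card_fin]
    exact ⟨Fintype.equivOfCardEq (c1.trans c2.symm)⟩
  obtain ⟨σ, hσ⟩ : ∃ σ : Equiv.Perm (Fin n), ∀ i : Fin n, σ i ∈ Set.range snf.f ↔ (i : ℕ) < r := by
    refine ⟨e.extendSubtype, fun i => ⟨fun h => ?_, fun h => e.extendSubtype_mem i h⟩⟩
    by_contra hc
    exact e.extendSubtype_not_mem i hc h
  obtain ⟨b', hb'⟩ : ∃ b' : Module.Basis (Fin n) ℤ (Fin n → ℤ), b' = snf.bM.reindex σ.symm := ⟨_, rfl⟩
  have hrepr : ∀ x i, b'.repr x i = snf.bM.repr x (σ i) := by
    intro x i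
    rw [hb', Module.Basis.repr_reindex_apply]
    simp
  refine ⟨((Pi.basisFun ℤ (Fin n)).toMatrix b').transpose,
    (b'.toMatrix (Pi.basisFun ℤ (Fin n))).transpose, r, ?_, ?_, hr, ?_⟩
  · rw [← Matrix.transpose_mul, Module.Basis.toMatrix_mul_toMatrix_flip, Matrix.transpose_one]
  · rw [← Matrix.transpose_mul, Module.Basis.toMatrix_mul_toMatrix_flip, Matrix.transpose_one]
  · intro b
    have hx : (fun j => ∑ i, b i * ((Pi.basisFun ℤ (Fin n)).toMatrix b').transpose i j) =
        ∑ i, b i • b' i := by
      funext j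
      rw [Finset.sum_apply]
      refine Finset.sum_congr rfl fun i _ => ?_
      rw [Matrix.transpose_apply, Module.Basis.toMatrix_apply, Pi.basisFun_repr, Pi.smul_apply,
        smul_eq_mul]
    rw [hx, ← hNA, hcoord]
    have hb : ∀ i, b'.repr (∑ i, b i • b' i) i = b i := by
      intro i
      rw [Module.Basis.repr_sum_self]
    constructor
    · intro h i hi
      rw [← hb i, hrepr]
      refine h _ ?_
      rw [hσ]
      exact not_lt.2 hi
    · intro h i hi
      obtain ⟨j, rfl⟩ := σ.surjective i
      rw [← hrepr, hb]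
      refine h j ?_
      rw [hσ] at hi
      exact not_lt.1 hi

end XA
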