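import Pool.Agent.Lib.MP_228259_lc.A.CL2
import Pool.Agent.Lib.MP_228259_lc.F2b

/-!
HM: points of `Loc x y` and homomorphisms of the Laurent subring `BL x y = ℂ[x, y, y⁻¹] ⊆ F`.

PROOF. `vanish_loc`: the kernel `P` of `aeval (Sum.elim x y)` is prime. If `f` vanishes on
`Loc x y` then `f * ∏ j, X (inr j)` vanishes on `zeroLocus P`, so it is in `P` (Nullstellensatz
`MvPolynomial.vanishingIdeal_zeroLocus_eq_radical`, see the proof of `vanish_mem` in F2b.lean), and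
`∏ j, X (inr j) ∉ P` as `y j ≠ 0`.
`loc_hom`: for `z ∈ Loc x y` the set `Γ = {(b, w) ∈ F × ℂ | ∃ N f, (∏ y_j)^N b = aeval (x, y) f and
(∏ z.2 j)^N w = eval z f}` is a subalgebra of `F × ℂ` (as `c4bGraph` in C4b.lean), it contains
`(x_j, z.1 j)`, `(y_j, z.2 j)`, `(y_j⁻¹, (z.2 j)⁻¹)`, and `(0, w) ∈ Γ` implies `w = 0`. So the first
projection `Γ → F` is injective with image containing `BL x y`; compose its inverse with the second
projection. (Or: `BL x y` is the localization of `ℂ[x, y]` at `∏ y_j`, `IsLocalization.lift`.)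
`hom_loc`: take `z = (ψ x, ψ y)`; `ψ (y_j) ψ (y_j⁻¹) = 1` so `z.2 j ≠ 0`.
`hom_sep`: if `g ≠ 0` then `(∏ y_j)^N g = aeval (x, y) f ≠ 0` for some `N, f` (induction on
`Algebra.adjoin`), so by `vanish_loc` there is `z ∈ Loc x y` with `eval z f ≠ 0`; take `ψ` of
`loc_hom`: `(∏ z.2 j)^N ψ g = eval z f ≠ 0`.
`sp_mo`, `sp_li`: `ψ` maps `y j ^ b j` to `z.2 j ^ b j` (for negative `b j` multiply with
`y j ^ |b j|`).
-/

namespace XA

open MvPolynomial

variable {F : Type*} [Field F] [Algebra ℂ F] {n : ℕ}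

/-- the Laurent subring -/
def BL (x y : Fin n → F) : Subalgebra ℂ F :=
  Algebra.adjoin ℂ (Set.range x ∪ Set.range y ∪ Set.range fun j => (y j)⁻¹)

/-- `ψ` has the values `z` at `x, y` -/
def IsSp (x y : Fin n → F) (ψ : BL x y →ₐ[ℂ] ℂ) (z : (Fin n → ℂ) × (Fin n → ℂ)) : Prop :=
  ∀ (b : BL x y) (j : Fin n), ((b : F) = x j → ψ b = z.1 j) ∧ ((b : F) = y j → ψ b = z.2 j)

theorem vanish_loc {x y : Fin n → F} (hy : ∀ j, y j ≠ 0) (f : MvPolynomial (Fin n ⊕ Fin n) ℂ)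
    (hf : ∀ z ∈ Loc x y, eval (Sum.elim z.1 z.2) f = 0) : aeval (Sum.elim x y) f = 0 := by
  classical
  set P : Ideal (MvPolynomial (Fin n ⊕ Fin n) ℂ) :=
    RingHom.ker (aeval (Sum.elim x y) : MvPolynomial (Fin n ⊕ Fin n) ℂ →ₐ[ℂ] F) with hPdef
  have hP : P.IsPrime := RingHom.ker_isPrime _
  have hPm : ∀ q, q ∈ P ↔ aeval (Sum.elim x y) q = 0 := fun q => RingHom.mem_ker
  have h1 : f * ∏ j : Fin n, X (Sum.inr j) ∈ vanishingIdeal ℂ (zeroLocus ℂ P) := by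
    rw [mem_vanishingIdeal_iff]
    intro w hw
    rw [mem_zeroLocus_iff] at hw
    have e : ∀ q : MvPolynomial (Fin n ⊕ Fin n) ℂ, aeval w q = eval w q := fun q => by
      rw [← coe_aeval_eq_eval]
      rfl
    simp only [e] at hw ⊢
    rw [map_mul, map_prod]
    simp only [eval_X]
    by_cases h : ∀ j : Fin n, w (Sum.inr j) ≠ 0
    · have h2 : ((fun j => w (Sum.inl j), fun j => w (Sum.inr j)) :
          (Fin n → ℂ) × (Fin n → ℂ)) ∈ Loc x y := by
        refine ⟨?_, h⟩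
        intro q hq
        have h3 : (Sum.elim (fun j => w (Sum.inl j)) fun j => w (Sum.inr j)) = w := by
          funext i
          cases i <;> rfl
        rw [h3]
        exact hw q ((hPm q).2 hq)
      have h4 := hf _ h2
      have h3 : (Sum.elim (fun j => w (Sum.inl j)) fun j => w (Sum.inr j)) = w := by
        funext i
        cases i <;> rfl
      simp only [h3] at h4
      rw [h4, zero_mul]
    · push Not at h
      obtain ⟨j, hj0⟩ := h
      rw [Finset.prod_eq_zero (Finset.mem_univ j) hj0, mul_zero]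
  rw [vanishingIdeal_zeroLocus_eq_radical, hP.radical, hPm, map_mul, map_prod] at h1
  rcases mul_eq_zero.1 h1 with h | h
  · exact h
  · exfalso
    rw [Finset.prod_eq_zero_iff] at h
    obtain ⟨j, -, hj⟩ := h
    rw [aeval_X] at hj
    exact hy j hj

theorem mem_BL_x (x y : Fin n → F) (j : Fin n) : x j ∈ BL x y :=
  Algebra.subset_adjoin (Or.inl (Or.inl ⟨j, rfl⟩))

theorem mem_BL_y (x y : Fin n → F) (j : Fin n) : y j ∈ BL x y :=
  Algebra.subset_adjoin (Or.inl (Or.inr ⟨j, rfl⟩))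

theorem mem_BL_yinv (x y : Fin n → F) (j : Fin n) : (y j)⁻¹ ∈ BL x y :=
  Algebra.subset_adjoin (Or.inr ⟨j, rfl⟩)

theorem mem_BL_mo (x y : Fin n → F) (b : Fin n → ℤ) : mo b y ∈ BL x y := by
  refine prod_mem fun j _ => ?_
  rcases Int.le_total 0 (b j) with h | h
  · obtain ⟨m, hm⟩ := Int.eq_ofNat_of_zero_le h
    rw [hm, zpow_natCast]
    exact pow_mem (mem_BL_y x y j) m
  · obtain ⟨m, hm⟩ := Int.eq_ofNat_of_zero_le (neg_nonneg.2 h)
    have h1 : b j = -(m : ℤ) := by omega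
    rw [h1, zpow_neg, zpow_natCast, ← inv_pow]
    exact pow_mem (mem_BL_yinv x y j) m

/-- the graph of the evaluation on the Laurent ring -/
noncomputable def hmGraph (x y : Fin n → F) (z : (Fin n → ℂ) × (Fin n → ℂ)) :
    Subalgebra ℂ (F × ℂ) where
  carrier := {b | ∃ (N : ℕ) (G : MvPolynomial (Fin n ⊕ Fin n) ℂ),
    (∏ j, y j) ^ N * b.1 = aeval (Sum.elim x y) G ∧
      (∏ j, z.2 j) ^ N * b.2 = eval (Sum.elim z.1 z.2) G}
  mul_mem' := by
    rintro ⟨b, w⟩ ⟨b', w'⟩ ⟨N, G, h1, h2⟩ ⟨N', G', h1', h2'⟩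
    refine ⟨N + N', G * G', ?_, ?_⟩
    · rw [map_mul, ← h1, ← h1', pow_add]
      change _ * (b * b') = _
      ring
    · rw [map_mul, ← h2, ← h2', pow_add]
      change _ * (w * w') = _
      ring
  add_mem' := by
    rintro ⟨b, w⟩ ⟨b', w'⟩ ⟨N, G, h1, h2⟩ ⟨N', G', h1', h2'⟩
    refine ⟨N + N', (∏ j : Fin n, X (Sum.inr j)) ^ N' * G +
      (∏ j : Fin n, X (Sum.inr j)) ^ N * G', ?_, ?_⟩
    · rw [map_add, map_mul, map_mul, map_pow, map_pow, map_prod, ← h1, ← h1', pow_add]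
      simp only [aeval_X, Sum.elim_inr]
      change _ * (b + b') = _
      ring
    · rw [map_add, map_mul, map_mul, map_pow, map_pow, map_prod, ← h2, ← h2', pow_add]
      simp only [eval_X, Sum.elim_inr]
      change _ * (w + w') = _
      ring
  algebraMap_mem' := by
    intro c
    refine ⟨0, C c, ?_, ?_⟩
    · rw [pow_zero, one_mul, aeval_C]
      rfl
    · rw [pow_zero, one_mul, eval_C]
      rfl

theorem loc_hom {x y : Fin n → F} (hy : ∀ j, y j ≠ 0) {z : (Fin n → ℂ) × (Fin n → ℂ)}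
    (hz : z ∈ Loc x y) : ∃ ψ : BL x y →ₐ[ℂ] ℂ, IsSp x y ψ z := by
  classical
  let Γ := hmGraph x y z
  let p : Γ →ₐ[ℂ] F := (AlgHom.fst ℂ F ℂ).comp Γ.val
  let q : Γ →ₐ[ℂ] ℂ := (AlgHom.snd ℂ F ℂ).comp Γ.val
  have hxΓ : ∀ j, (x j, z.1 j) ∈ Γ := by
    intro j
    refine ⟨0, X (Sum.inl j), ?_, ?_⟩
    · rw [pow_zero, one_mul, aeval_X]
      rfl
    · rw [pow_zero, one_mul, eval_X]
      rfl
  have hyΓ : ∀ j, (y j, z.2 j) ∈ Γ := by
    intro j
    refine ⟨0, X (Sum.inr j), ?_, ?_⟩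
    · rw [pow_zero, one_mul, aeval_X]
      rfl
    · rw [pow_zero, one_mul, eval_X]
      rfl
  have hiΓ : ∀ j, ((y j)⁻¹, (z.2 j)⁻¹) ∈ Γ := by
    intro j
    refine ⟨1, ∏ i ∈ Finset.univ.erase j, X (Sum.inr i), ?_, ?_⟩
    · rw [pow_one, map_prod, ← Finset.mul_prod_erase Finset.univ y (Finset.mem_univ j)]
      simp only [aeval_X, Sum.elim_inr]
      rw [mul_comm (y j), mul_assoc, mul_inv_cancel₀ (hy j), mul_one]
    · rw [pow_one, map_prod, ← Finset.mul_prod_erase Finset.univ z.2 (Finset.mem_univ j)]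
      simp only [eval_X, Sum.elim_inr]
      rw [mul_comm (z.2 j), mul_assoc, mul_inv_cancel₀ (hz.2 j), mul_one]
  have hinj : Function.Injective p := by
    rw [injective_iff_map_eq_zero]
    rintro ⟨⟨b, w⟩, N, G, h1, h2⟩ h3
    have hb : b = 0 := h3
    subst hb
    change (∏ j, y j) ^ N * 0 = _ at h1
    change (∏ j, z.2 j) ^ N * w = _ at h2
    rw [mul_zero] at h1
    rw [hz.1 G h1.symm] at h2
    have hz' : w = 0 := (mul_eq_zero.1 h2).resolve_left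
      (pow_ne_zero _ (Finset.prod_ne_zero_iff.2 fun j _ => hz.2 j))
    subst hz'
    rfl
  have hle : BL x y ≤ p.range := by
    apply Algebra.adjoin_le
    rintro _ ((⟨j, rfl⟩ | ⟨j, rfl⟩) | ⟨j, rfl⟩)
    · exact ⟨⟨_, hxΓ j⟩, rfl⟩
    · exact ⟨⟨_, hyΓ j⟩, rfl⟩
    · exact ⟨⟨_, hiΓ j⟩, rfl⟩
  let e : Γ ≃ₐ[ℂ] p.range := AlgEquiv.ofInjective p hinj
  let ψ : BL x y →ₐ[ℂ] ℂ :=
    (q.comp (e.symm : p.range →ₐ[ℂ] Γ)).comp (Subalgebra.inclusion hle)
  have hψ : ∀ (b : BL x y) (c : Γ), p c = b → ψ b = q c := by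
    intro b c hc
    change q (e.symm (Subalgebra.inclusion hle b)) = q c
    congr 1
    rw [AlgEquiv.symm_apply_eq]
    apply Subtype.ext
    exact hc.symm
  refine ⟨ψ, ?_⟩
  intro b j
  refine ⟨fun hb => ?_, fun hb => ?_⟩
  · exact hψ b ⟨_, hxΓ j⟩ hb.symm
  · exact hψ b ⟨_, hyΓ j⟩ hb.symm

/-- the units `y j` of the Laurent ring -/
def uy (x : Fin n → F) {y : Fin n → F} (hy : ∀ j, y j ≠ 0) (j : Fin n) : (BL x y)ˣ where
  val := ⟨y j, mem_BL_y x y j⟩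
  inv := ⟨(y j)⁻¹, mem_BL_yinv x y j⟩
  val_inv := Subtype.ext (mul_inv_cancel₀ (hy j))
  inv_val := Subtype.ext (inv_mul_cancel₀ (hy j))

theorem uy_zpow {x y : Fin n → F} (hy : ∀ j, y j ≠ 0) (j : Fin n) (m : ℤ) :
    (((uy x hy j ^ m : (BL x y)ˣ) : BL x y) : F) = y j ^ m := by
  have h1 : (Units.map ((BL x y).val : BL x y →* F)) (uy x hy j ^ m) =
      (Units.map ((BL x y).val : BL x y →* F)) (uy x hy j) ^ m := map_zpow _ _ _
  have h2 := congrArg (Units.val) h1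
  rw [Units.val_zpow_eq_zpow_val] at h2
  exact h2

theorem map_uy_zpow {x y : Fin n → F} (hy : ∀ j, y j ≠ 0) (ψ : BL x y →ₐ[ℂ] ℂ) (j : Fin n)
    (m : ℤ) : ψ ((uy x hy j ^ m : (BL x y)ˣ) : BL x y) = ψ (uy x hy j) ^ m := by
  have h1 : (Units.map (ψ : BL x y →* ℂ)) (uy x hy j ^ m) =
      (Units.map (ψ : BL x y →* ℂ)) (uy x hy j) ^ m := map_zpow _ _ _
  have h2 := congrArg (Units.val) h1
  rw [Units.val_zpow_eq_zpow_val] at h2
  exact h2

theorem hom_loc {x y : Fin n → F} (hy : ∀ j, y j ≠ 0) (ψ : BL x y →ₐ[ℂ] ℂ) :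
    ∃ z ∈ Loc x y, IsSp x y ψ z := by
  classical
  refine ⟨(fun j => ψ ⟨x j, mem_BL_x x y j⟩, fun j => ψ ⟨y j, mem_BL_y x y j⟩), ⟨?_, ?_⟩, ?_⟩
  · intro f hf
    have h1 : ψ (aeval (Sum.elim (fun j => (⟨x j, mem_BL_x x y j⟩ : BL x y))
        (fun j => ⟨y j, mem_BL_y x y j⟩)) f) =
        eval (Sum.elim (fun j => ψ ⟨x j, mem_BL_x x y j⟩) fun j => ψ ⟨y j, mem_BL_y x y j⟩) f := by
      rw [MvPolynomial.comp_aeval_apply, ← coe_aeval_eq_eval]
      change _ = aeval _ f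
      congr 2
      funext i
      cases i <;> rfl
    have h2 : aeval (Sum.elim (fun j => (⟨x j, mem_BL_x x y j⟩ : BL x y))
        (fun j => ⟨y j, mem_BL_y x y j⟩)) f = 0 := by
      apply Subtype.ext
      have h3 : ((aeval (Sum.elim (fun j => (⟨x j, mem_BL_x x y j⟩ : BL x y))
          (fun j => ⟨y j, mem_BL_y x y j⟩)) f : BL x y) : F) =
          (BL x y).val (aeval (Sum.elim (fun j => (⟨x j, mem_BL_x x y j⟩ : BL x y))
          (fun j => ⟨y j, mem_BL_y x y j⟩)) f) := rfl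
      rw [h3, MvPolynomial.comp_aeval_apply]
      have h4 : (fun i => (BL x y).val (Sum.elim (fun j => (⟨x j, mem_BL_x x y j⟩ : BL x y))
          (fun j => ⟨y j, mem_BL_y x y j⟩) i)) = Sum.elim x y := by
        funext i
        cases i <;> rfl
      change aeval (fun i => (BL x y).val (Sum.elim (fun j => (⟨x j, mem_BL_x x y j⟩ : BL x y))
          (fun j => ⟨y j, mem_BL_y x y j⟩) i)) f = _
      rw [h4, hf]
      rfl
    rw [h2, map_zero] at h1
    exact h1.symm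
  · intro j h0
    have h1 : ψ (uy x hy j : BL x y) ≠ 0 := by
      have h2 := ((uy x hy j).isUnit.map (ψ : BL x y →* ℂ)).ne_zero
      exact h2
    exact h1 h0
  · intro b j
    refine ⟨fun hb => ?_, fun hb => ?_⟩
    · have h1 : b = ⟨x j, mem_BL_x x y j⟩ := Subtype.ext hb
      rw [h1]
    · have h1 : b = ⟨y j, mem_BL_y x y j⟩ := Subtype.ext hb
      rw [h1]

theorem clear_den {x y : Fin n → F} (hy : ∀ j, y j ≠ 0) {g : F} (hg : g ∈ BL x y) :
    ∃ (N : ℕ) (G : MvPolynomial (Fin n ⊕ Fin n) ℂ),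
      (∏ j, y j) ^ N * g = aeval (Sum.elim x y) G := by
  classical
  refine Algebra.adjoin_induction (p := fun g _ => ∃ (N : ℕ)
    (G : MvPolynomial (Fin n ⊕ Fin n) ℂ), (∏ j, y j) ^ N * g = aeval (Sum.elim x y) G)
    ?_ ?_ ?_ ?_ hg
  · rintro _ ((⟨j, rfl⟩ | ⟨j, rfl⟩) | ⟨j, rfl⟩)
    · exact ⟨0, X (Sum.inl j), by rw [pow_zero, one_mul, aeval_X]; rfl⟩
    · exact ⟨0, X (Sum.inr j), by rw [pow_zero, one_mul, aeval_X]; rfl⟩
    · refine ⟨1, ∏ i ∈ Finset.univ.erase j, X (Sum.inr i), ?_⟩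
      rw [pow_one, map_prod, ← Finset.mul_prod_erase Finset.univ y (Finset.mem_univ j)]
      simp only [aeval_X, Sum.elim_inr]
      rw [mul_comm (y j), mul_assoc, mul_inv_cancel₀ (hy j), mul_one]
  · intro c
    exact ⟨0, C c, by rw [pow_zero, one_mul, aeval_C]⟩
  · rintro b b' _ _ ⟨N, G, h1⟩ ⟨N', G', h1'⟩
    refine ⟨N + N', (∏ j : Fin n, X (Sum.inr j)) ^ N' * G +
      (∏ j : Fin n, X (Sum.inr j)) ^ N * G', ?_⟩
    rw [map_add, map_mul, map_mul, map_pow, map_pow, map_prod, ← h1, ← h1', pow_add]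
    simp only [aeval_X, Sum.elim_inr]
    ring
  · rintro b b' _ _ ⟨N, G, h1⟩ ⟨N', G', h1'⟩
    refine ⟨N + N', G * G', ?_⟩
    rw [map_mul, ← h1, ← h1', pow_add]
    ring

theorem hom_sep {x y : Fin n → F} (hy : ∀ j, y j ≠ 0) (g : BL x y) (hg : g ≠ 0) :
    ∃ ψ : BL x y →ₐ[ℂ] ℂ, ψ g ≠ 0 := by
  classical
  obtain ⟨N, G, hG⟩ := clear_den hy g.2
  by_contra hcon
  push Not at hcon
  have h1 : aeval (Sum.elim x y) G = 0 := by
    apply vanish_loc hy
    intro z hz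
    obtain ⟨ψ, hψ⟩ := loc_hom hy hz
    have h2 : aeval (Sum.elim (fun j => (⟨x j, mem_BL_x x y j⟩ : BL x y))
        (fun j => ⟨y j, mem_BL_y x y j⟩)) G =
        (∏ j, (⟨y j, mem_BL_y x y j⟩ : BL x y)) ^ N * g := by
      apply Subtype.ext
      have h3 : ((aeval (Sum.elim (fun j => (⟨x j, mem_BL_x x y j⟩ : BL x y))
          (fun j => ⟨y j, mem_BL_y x y j⟩)) G : BL x y) : F) =
          (BL x y).val (aeval (Sum.elim (fun j => (⟨x j, mem_BL_x x y j⟩ : BL x y))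
          (fun j => ⟨y j, mem_BL_y x y j⟩)) G) := rfl
      have h4 : (fun i => (BL x y).val (Sum.elim (fun j => (⟨x j, mem_BL_x x y j⟩ : BL x y))
          (fun j => ⟨y j, mem_BL_y x y j⟩) i)) = Sum.elim x y := by
        funext i
        cases i <;> rfl
      rw [h3, MvPolynomial.comp_aeval_apply]
      change aeval (fun i => (BL x y).val (Sum.elim (fun j => (⟨x j, mem_BL_x x y j⟩ : BL x y))
          (fun j => ⟨y j, mem_BL_y x y j⟩) i)) G = _
      rw [h4, ← hG]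
      have h5 : (((∏ j, (⟨y j, mem_BL_y x y j⟩ : BL x y)) ^ N * g : BL x y) : F) =
          (BL x y).val ((∏ j, (⟨y j, mem_BL_y x y j⟩ : BL x y)) ^ N * g) := rfl
      rw [h5, map_mul, map_pow, map_prod]
      rfl
    have h6 := congrArg ψ h2
    rw [map_mul, hcon ψ, mul_zero, MvPolynomial.comp_aeval_apply] at h6
    rw [← coe_aeval_eq_eval]
    change aeval _ G = 0
    rw [← h6]
    congr 2
    funext i
    cases i with
    | inl j => exact ((hψ ⟨x j, mem_BL_x x y j⟩ j).1 rfl).symm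
    | inr j => exact ((hψ ⟨y j, mem_BL_y x y j⟩ j).2 rfl).symm
  rw [h1] at hG
  rcases mul_eq_zero.1 hG with h | h
  · exact (pow_ne_zero _ (Finset.prod_ne_zero_iff.2 fun j _ => hy j)) h
  · exact hg (Subtype.ext h)

theorem sp_mo {x y : Fin n → F} (hy : ∀ j, y j ≠ 0) {ψ : BL x y →ₐ[ℂ] ℂ}
    {z : (Fin n → ℂ) × (Fin n → ℂ)} (h : IsSp x y ψ z) (b : Fin n → ℤ) (g : BL x y)
    (hg : (g : F) = mo b y) : ψ g = mo b z.2 := by
  classical
  have h1 : g = ∏ j, ((uy x hy j ^ b j : (BL x y)ˣ) : BL x y) := by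
    apply Subtype.ext
    rw [hg]
    have h2 : ((∏ j, ((uy x hy j ^ b j : (BL x y)ˣ) : BL x y) : BL x y) : F) =
        (BL x y).val (∏ j, ((uy x hy j ^ b j : (BL x y)ˣ) : BL x y)) := rfl
    rw [h2, map_prod]
    refine Finset.prod_congr rfl fun j _ => ?_
    exact (uy_zpow hy j (b j)).symm
  rw [h1, map_prod]
  refine Finset.prod_congr rfl fun j _ => ?_
  rw [map_uy_zpow, (h (uy x hy j) j).2 rfl]

theorem sp_li {x y : Fin n → F} {ψ : BL x y →ₐ[ℂ] ℂ}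
    {z : (Fin n → ℂ) × (Fin n → ℂ)} (h : IsSp x y ψ z) (b : Fin n → ℤ) (g : BL x y)
    (hg : (g : F) = li b x) : ψ g = li b z.1 := by
  classical
  have h1 : g = ∑ j, ((b j : ℤ) : BL x y) * ⟨x j, mem_BL_x x y j⟩ := by
    apply Subtype.ext
    rw [hg]
    have h2 : ((∑ j, ((b j : ℤ) : BL x y) * ⟨x j, mem_BL_x x y j⟩ : BL x y) : F) =
        (BL x y).val (∑ j, ((b j : ℤ) : BL x y) * ⟨x j, mem_BL_x x y j⟩) := rfl
    rw [h2, map_sum]
    refine Finset.sum_congr rfl fun j _ => ?_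
    rw [map_mul, map_intCast]
    rfl
  rw [h1, map_sum]
  refine Finset.sum_congr rfl fun j _ => ?_
  rw [map_mul, map_intCast, (h ⟨x j, mem_BL_x x y j⟩ j).1 rfl]

end XA
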