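import Pool.Agent.Lib.MP_228259_lc.A.TR2
import Pool.Agent.Lib.MP_228259_lc.A.BA
import Pool.Agent.Lib.MP_228259_lc.A.HM

/-!
AB: adapted coordinates for `(x, y)`: the monomials algebraic over `ℂ(x)` are those in the first `r`
coordinates.

PROOF. `A = {b | mo b y ∈ cl (range x)}` is a subgroup (`mo_add`, `mo_smul` with `-1`, `cl_field`) and
saturated: if `mo (k • b) y = mo b y ^ k ∈ cl S` with `k ≠ 0` then `mo b y` is a root of
`T ^ |k| - c`, `c ∈ cl S` (`cl_root`; for negative `k` invert). `adapted_basis` gives `U, U', r`;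
`mo b (y ^ U) = mo (b U) y` (`mo_mo`) and `cl (range (U x)) = cl (range x)` (`cl_unimod`), which gives
the second property. `r < n`: if `r = n` then all `mo b y ∈ cl (range x)`, so
`range y ⊆ cl (range x)` (`mo_single`) and `rk (range x ∪ range y) ≤ rk (range x)`, a
contradiction to `rkx`, `rkv` (`rk_mono`).
-/

namespace XA

open MvPolynomial

variable {F : Type*} [Field F] [Algebra ℂ F] {n : ℕ}

private theorem ab_natPow {S : Set F} {a : F} {k : ℕ} (hk : 0 < k) (h : a ^ k ∈ cl S) :
    a ∈ cl S := by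
  obtain ⟨K, hK⟩ := cl_field S
  have hmem : ∀ a : F, a ∈ K ↔ a ∈ cl S := fun a => by rw [← hK]; rfl
  refine cl_root S (Polynomial.X ^ k - Polynomial.C (a ^ k)) ?_ ?_ a ?_
  · exact (Polynomial.monic_X_pow_sub_C (a ^ k) hk.ne').ne_zero
  · intro i
    rw [← hmem] at h ⊢
    rw [Polynomial.coeff_sub, Polynomial.coeff_X_pow, Polynomial.coeff_C]
    refine sub_mem ?_ ?_
    · split_ifs
      · exact one_mem K
      · exact zero_mem K
    · split_ifs
      · exact h
      · exact zero_mem K
  · simp

private theorem ab_zpow {S : Set F} {a : F} {k : ℤ} (hk : k ≠ 0) (h : a ^ k ∈ cl S) :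
    a ∈ cl S := by
  obtain ⟨K, hK⟩ := cl_field S
  have hmem : ∀ a : F, a ∈ K ↔ a ∈ cl S := fun a => by rw [← hK]; rfl
  have h1 : a ^ k.natAbs ∈ cl S := by
    rcases Int.natAbs_eq k with h2 | h2
    · rw [h2, zpow_natCast] at h
      exact h
    · rw [h2, zpow_neg, zpow_natCast] at h
      rw [← hmem] at h ⊢
      have h3 := inv_mem h
      rwa [inv_inv] at h3
  exact ab_natPow (Int.natAbs_pos.2 hk) h1

theorem adapted {x y : Fin n → F} (h : FD x y) :
    ∃ (U U' : Matrix (Fin n) (Fin n) ℤ) (r : ℕ), U' * U = 1 ∧ U * U' = 1 ∧ r < n ∧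
      ∀ b : Fin n → ℤ, mo b (fun i => mo (U i) y) ∈ cl (Set.range (fun i => li (U i) x)) ↔
        ∀ i : Fin n, r ≤ (i : ℕ) → b i = 0 := by
  obtain ⟨K, hK⟩ := cl_field (Set.range x)
  have hmem : ∀ a : F, a ∈ K ↔ a ∈ cl (Set.range x) := fun a => by rw [← hK]; rfl
  let A : AddSubgroup (Fin n → ℤ) :=
    { carrier := {b | mo b y ∈ cl (Set.range x)}
      add_mem' := by
        intro a b ha hb
        change mo (a + b) y ∈ cl (Set.range x)
        rw [mo_add h.nz, ← hmem]
        exact mul_mem ((hmem _).2 ha) ((hmem _).2 hb)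
      zero_mem' := by
        change mo (0 : Fin n → ℤ) y ∈ cl (Set.range x)
        rw [← hmem]
        have : mo (0 : Fin n → ℤ) y = 1 := by
          unfold mo
          simp
        rw [this]
        exact one_mem K
      neg_mem' := by
        intro b hb
        change mo (-b) y ∈ cl (Set.range x)
        have h1 : mo (-b) y = (mo b y)⁻¹ := by
          have := mo_smul (y := y) b (-1)
          rw [zpow_neg_one] at this
          rw [← this]
          congr 1
          funext j
          simp
        rw [h1, ← hmem]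
        exact inv_mem ((hmem _).2 hb) }
  have hA : ∀ b : Fin n → ℤ, b ∈ A ↔ mo b y ∈ cl (Set.range x) := fun b => Iff.rfl
  obtain ⟨U, U', r, h1, h2, hr, hb⟩ := adapted_basis A (by
    intro m a hm ha
    rw [hA] at ha ⊢
    rw [mo_smul] at ha
    exact ab_zpow hm ha)
  refine ⟨U, U', r, h1, h2, ?_, ?_⟩
  · refine lt_of_le_of_ne hr ?_
    rintro rfl
    have hall : ∀ j, y j ∈ cl (Set.range x) := by
      intro j
      have h3 := (hb (fun i => U' j i)).2 (fun i hi => absurd i.2 (not_lt.2 hi))
      rw [hA] at h3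
      have h4 : (fun l => ∑ i, U' j i * U i l) = Pi.single j (1 : ℤ) := by
        funext l
        have h5 := congrFun (congrFun h1 j) l
        rw [Matrix.mul_apply] at h5
        rw [h5, Matrix.one_apply, Pi.single_apply]
        simp only [eq_comm]
      rw [h4, mo_single] at h3
      exact h3
    have h5 : Set.range x ∪ Set.range y ⊆ cl (Set.range x) := by
      refine Set.union_subset (subset_cl _) ?_
      rintro _ ⟨j, rfl⟩
      exact hall j
    have h6 := rk_mono h5
    have h7 := h.rkx
    rw [h.rkv] at h6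
    have h8 : rk (Set.range x) + 1 ≤ rk (Set.range x) := by
      rw [h7]
      exact h6
    have h9 : rk (Set.range x) ≠ ⊤ := by
      intro h10
      rw [h10] at h7
      simp at h7
    exact absurd h8 (not_le.2 ((ENat.lt_add_one_iff' h9).2 le_rfl))
  · intro b
    obtain ⟨e1, -⟩ := cl_unimod (x := x) h.nz U U' h1 h2
    rw [e1, mo_mo h.nz, ← hb b, hA]

end XA
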