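import Pool.Agent.Lib.MP_228259_lc.V.Defs

/-!
Definitions for the algebraic part of the exponential closedness theorem (MP_228259_lc):
tuples `x, y` in a field `F ⊇ ℂ` instead of a variety.
-/

namespace XA

open MvPolynomial

/-- the elements of `F` which are algebraic over `ℂ(S)` -/
def cl {F : Type*} [Field F] [Algebra ℂ F] (S : Set F) : Set F :=
  {a | IsAlgebraic (Algebra.adjoin ℂ S) a}

/-- the transcendence degree of `ℂ(S)` over `ℂ` -/
noncomputable def rk {F : Type*} [Field F] [Algebra ℂ F] (S : Set F) : ℕ∞ :=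
  (AlgebraicIndependent.matroid ℂ F).eRk S

/-- the monomial `y ^ b` with integer exponents -/
def mo {F : Type*} [Field F] {n : ℕ} (b : Fin n → ℤ) (y : Fin n → F) : F := ∏ j, y j ^ b j

/-- the linear form `b · x` -/
def li {F : Type*} [Field F] {n : ℕ} (b : Fin n → ℤ) (x : Fin n → F) : F := ∑ j, (b j : F) * x j

/-- `p` is a specialisation of the family `u`: every polynomial relation over `ℂ` between the
`u i` holds between the `p i` -/
def IsPt {F : Type*} [Field F] [Algebra ℂ F] {ι : Type*} (u : ι → F) (p : ι → ℂ) : Prop :=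
  ∀ f : MvPolynomial ι ℂ, aeval u f = 0 → eval p f = 0

/-- the points with non-zero multiplicative coordinates of the locus of `(x, y)` over `ℂ` -/
def Loc {F : Type*} [Field F] [Algebra ℂ F] {n : ℕ} (x y : Fin n → F) :
    Set ((Fin n → ℂ) × (Fin n → ℂ)) :=
  {z | IsPt (Sum.elim x y) (Sum.elim z.1 z.2) ∧ ∀ j, z.2 j ≠ 0}

/-- the hypotheses on `(x, y)`: additively and multiplicatively free, of transcendence degree `n`,
and `ℂ(x)` of transcendence degree `n - 1` -/
structure FD {F : Type*} [Field F] [Algebra ℂ F] {n : ℕ} (x y : Fin n → F) : Prop where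
  nz : ∀ j, y j ≠ 0
  af : ∀ m : Fin n → ℤ, m ≠ 0 → ∀ c : ℂ, li m x ≠ algebraMap ℂ F c
  mf : ∀ m : Fin n → ℤ, m ≠ 0 → ∀ c : ℂ, mo m y ≠ algebraMap ℂ F c
  rkx : rk (Set.range x) + 1 = n
  rkv : rk (Set.range x ∪ Set.range y) = n

/-- rotundity of `(x, y)` -/
def Rot {F : Type*} [Field F] [Algebra ℂ F] {n : ℕ} (x y : Fin n → F) : Prop :=
  ∀ (k : ℕ) (M : Matrix (Fin k) (Fin n) ℤ), 1 ≤ k → k ≤ n →
    ((M.map (Int.cast : ℤ → ℚ)).rank : ℕ∞) ≤
      rk (Set.range (fun i => li (M i) x) ∪ Set.range (fun i => mo (M i) y))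

/-- the existence of an exponential point on the locus of `(x, y)` -/
def HasExp {F : Type*} [Field F] [Algebra ℂ F] {n : ℕ} (x y : Fin n → F) : Prop :=
  ∃ z : Fin n → ℂ, (z, fun j => Complex.exp (z j)) ∈ Loc x y

end XA
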