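import Pool.Agent.Lib.MP_228259_lc.A.EV

/-!
AL: `Alg` and `rel`.

PROOF. `alg_iff`: by `ev1_iff`, `Alg (Loc x y) P b` says that there is `G ∈ ℂ[x][F]` with
`ev1F x (mo b y) G = 0` and some coefficient not divisible by `P`, that is, with `G.map (aeval x) ≠ 0`
in `F[T]`. `(→)` the coefficients `aeval x (G.coeff i)` are in `adjoin ℂ (range x)`, so `cl_root`
(or directly the definition). `(←)` `mo b y` is a root of a non-zero polynomial with coefficients
in `adjoin ℂ (range x) = range (aeval x)` (`Algebra.adjoin_range_eq_range_aeval`), lift the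
coefficients.
`rel_exists`: if `mo b y ∈ cl (range x)` take `R = Polynomial.C G` with the `G` of `alg_iff`.
Otherwise `h` says that `mo c y` is algebraic over `adjoin ℂ (insert (mo b y) (range x))`, which is
the image of `ev1F x (mo b y)`; lift the coefficients of the equation: `R` with
`R.map (ev1F x (mo b y)) ≠ 0` and `ev2F x (mo b y) (mo c y) R = 0`; some coefficient `R.coeff j` has
`ev1F x (mo b y) (R.coeff j) ≠ 0`, so some `aeval x ((R.coeff j).coeff i) ≠ 0`. Use `ev2_iff`.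
-/

namespace XA

open MvPolynomial

variable {F : Type*} [Field F] [Algebra ℂ F] {n : ℕ}

private theorem al_adj_mem {S : Set F} {a : F} (h : a ∈ Algebra.adjoin ℂ S) : a ∈ cl S :=
  isAlgebraic_algebraMap (⟨a, h⟩ : Algebra.adjoin ℂ S)

private theorem al_aeval_mem (x : Fin n → F) (f : MvPolynomial (Fin n) ℂ) :
    aeval x f ∈ Algebra.adjoin ℂ (Set.range x) := by
  rw [Algebra.adjoin_range_eq_range_aeval]
  exact ⟨f, rfl⟩

private theorem al_ev1F (x : Fin n → F) (f : F) (G : XV.R1 n) :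
    ev1F x f G = (G.map (aeval x : MvPolynomial (Fin n) ℂ →ₐ[ℂ] F).toRingHom).eval f := by
  rw [Polynomial.eval_map]
  rfl

private theorem al_ev2F (x : Fin n → F) (f θ : F) (R : XV.R2 n) :
    ev2F x f θ R = (R.map (ev1F x f)).eval θ := by
  rw [Polynomial.eval_map]
  rfl

/-- lifting the coefficients of a polynomial equation -/
private theorem al_lift {A : Type*} [CommRing A] (φ : A →+* F) (S : Set F)
    (hφ : ∀ a ∈ Algebra.adjoin ℂ S, a ∈ Set.range φ) {θ : F} (h : θ ∈ cl S) :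
    ∃ G : Polynomial A, G.map φ ≠ 0 ∧ (G.map φ).eval θ = 0 := by
  obtain ⟨p, hp, hp0⟩ := h
  have hl : p.map (algebraMap (Algebra.adjoin ℂ S) F) ∈ Polynomial.lifts φ := by
    rw [Polynomial.lifts_iff_coeff_lifts]
    intro k
    rw [Polynomial.coeff_map]
    exact hφ _ (p.coeff k).2
  obtain ⟨G, hG⟩ := Polynomial.mem_lifts _ |>.1 hl
  refine ⟨G, ?_, ?_⟩
  · rw [hG]
    exact (Polynomial.map_ne_zero_iff (FaithfulSMul.algebraMap_injective _ _)).2 hp
  · rw [hG, Polynomial.eval_map, ← Polynomial.aeval_def]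
    exact hp0

private theorem al_range1 (x : Fin n → F) : ∀ a ∈ Algebra.adjoin ℂ (Set.range x),
    a ∈ Set.range (aeval x : MvPolynomial (Fin n) ℂ →ₐ[ℂ] F).toRingHom := by
  intro a ha
  rw [Algebra.adjoin_range_eq_range_aeval] at ha
  obtain ⟨f, hf⟩ := ha
  exact ⟨f, hf⟩

private theorem al_range2 (x : Fin n → F) (f : F) :
    ∀ a ∈ Algebra.adjoin ℂ (insert f (Set.range x)), a ∈ Set.range (ev1F x f) := by
  intro a ha
  induction ha using Algebra.adjoin_induction with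
  | mem a ha =>
    rcases ha with rfl | ⟨j, rfl⟩
    · exact ⟨Polynomial.X, by simp [al_ev1F]⟩
    · refine ⟨Polynomial.C (X j), ?_⟩
      rw [al_ev1F, Polynomial.map_C, Polynomial.eval_C]
      exact aeval_X x j
  | algebraMap c =>
    refine ⟨Polynomial.C (C c), ?_⟩
    rw [al_ev1F, Polynomial.map_C, Polynomial.eval_C]
    exact aeval_C x c
  | add a b _ _ ha hb =>
    obtain ⟨g, hg⟩ := ha
    obtain ⟨g', hg'⟩ := hb
    exact ⟨g + g', by rw [map_add, hg, hg']⟩
  | mul a b _ _ ha hb =>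
    obtain ⟨g, hg⟩ := ha
    obtain ⟨g', hg'⟩ := hb
    exact ⟨g * g', by rw [map_mul, hg, hg']⟩

omit [Algebra ℂ F] in
private theorem al_coeff {A : Type*} [CommRing A] (φ : A →+* F) {G : Polynomial A}
    (h : G.map φ ≠ 0) : ∃ i, φ (G.coeff i) ≠ 0 := by
  by_contra hcon
  push Not at hcon
  refine h (Polynomial.ext fun i => ?_)
  rw [Polynomial.coeff_map, hcon i, Polynomial.coeff_zero]

theorem alg_iff {x y : Fin n → F} (hy : ∀ j, y j ≠ 0) {P : MvPolynomial (Fin n) ℂ}
    (hP : ∀ G : MvPolynomial (Fin n) ℂ, aeval x G = 0 ↔ P ∣ G) (b : Fin n → ℤ) :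
    XV.Alg (Loc x y) P b ↔ mo b y ∈ cl (Set.range x) := by
  constructor
  · rintro ⟨G, ⟨i, hi⟩, hG⟩
    rw [ev1_iff hy b G, al_ev1F] at hG
    refine cl_root _ _ ?_ (fun k => ?_) _ hG
    · intro h0
      apply hi
      rw [← hP]
      have := congrArg (fun q => Polynomial.coeff q i) h0
      simp only [Polynomial.coeff_map, Polynomial.coeff_zero] at this
      exact this
    · rw [Polynomial.coeff_map]
      exact al_adj_mem (al_aeval_mem x _)
  · intro h
    obtain ⟨G, hG0, hG⟩ := al_lift (aeval x : MvPolynomial (Fin n) ℂ →ₐ[ℂ] F).toRingHom _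
      (al_range1 x) h
    obtain ⟨i, hi⟩ := al_coeff _ hG0
    refine ⟨G, ⟨i, fun hd => hi ((hP _).2 hd)⟩, ?_⟩
    rw [ev1_iff hy b G, al_ev1F]
    exact hG

theorem rel_exists {x y : Fin n → F} (hy : ∀ j, y j ≠ 0) {P : MvPolynomial (Fin n) ℂ}
    (hP : ∀ G : MvPolynomial (Fin n) ℂ, aeval x G = 0 ↔ P ∣ G) (b c : Fin n → ℤ)
    (h : mo b y ∉ cl (Set.range x) → mo c y ∈ cl (insert (mo b y) (Set.range x))) :
    ∃ R : XV.R2 n, XV.IsRel (Loc x y) P b c R := by
  by_cases hb : mo b y ∈ cl (Set.range x)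
  · obtain ⟨G, ⟨i, hi⟩, hG⟩ := (alg_iff hy hP b).2 hb
    refine ⟨Polynomial.C G, ⟨i, 0, ?_⟩, fun z hz => ?_⟩
    · rw [Polynomial.coeff_C_zero]
      exact hi
    · unfold XV.e2
      rw [Polynomial.map_C, Polynomial.eval_C]
      exact hG z hz
  · obtain ⟨R, hR0, hR⟩ := al_lift (ev1F x (mo b y)) _ (al_range2 x (mo b y)) (h hb)
    obtain ⟨j, hj⟩ := al_coeff _ hR0
    rw [al_ev1F] at hj
    have hj' : (R.coeff j).map (aeval x : MvPolynomial (Fin n) ℂ →ₐ[ℂ] F).toRingHom ≠ 0 := by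
      intro h0
      rw [h0, Polynomial.eval_zero] at hj
      exact hj rfl
    obtain ⟨i, hi⟩ := al_coeff _ hj'
    refine ⟨R, ⟨i, j, fun hd => hi ((hP _).2 hd)⟩, ?_⟩
    rw [ev2_iff hy b c R, al_ev2F]
    exact hR

end XA
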