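import Pool.Agent.Lib.MP_228259_lc.A.CL2

/-!
BE: choice of `β`.

PROOF. Suppose not. Take `m + 2` distinct values `β_i ∈ ℂ` (natural numbers): for each there are
`a_i ∈ ℤᵐ`, `c_i ≠ 0` with `g_i = mo a_i y * (b0 (w - β_i)) ^ c_i ∈ cl T` (`w ≠ β_i` since
`w ∉ cl T`). The `m + 2` vectors `(a_i, c_i) ∈ ℤ^(m + 1)` are linearly dependent: integers `μ_i`, not all
zero, with `∑ μ_i a_i = 0` and `∑ μ_i c_i = 0`. Then
`∏ g_i ^ μ_i = ∏ (w - β_i) ^ (μ_i c_i) ∈ cl T` (`mo_smul`, `mo_add`; the powers of `b0` cancel;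
`cl_field`). The exponents `μ_i c_i` are not all zero, so moving the negative exponents to the other
side gives `P₁(w) = g P₂(w)`, `g ∈ cl T`, with
`P₁ = ∏_{e_i > 0} (X - β_i) ^ e_i`, `P₂ = ∏_{e_i < 0} (X - β_i) ^ (-e_i)` coprime monic polynomials, not
both `1`: `P₁ - g P₂ ≠ 0` (if `P₁ = g P₂` then they have the same roots, but they have no
common root and one of them has a root). By `cl_root` `w ∈ cl T`, a contradiction.
-/

namespace XA

open MvPolynomial

variable {F : Type*} [Field F] [Algebra ℂ F]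

omit [Algebra ℂ F] in
private theorem prod_zpow_aux {ι : Type*} [Fintype ι] {x : F} (hx : x ≠ 0) (f : ι → ℤ) :
    ∏ i, x ^ f i = x ^ ∑ i, f i := by
  classical
  induction (Finset.univ : Finset ι) using Finset.induction_on with
  | empty => simp
  | insert i s hi ih => rw [Finset.prod_insert hi, Finset.sum_insert hi, ih, zpow_add₀ hx]

theorem exists_beta {m : ℕ} {T : Set F} {y : Fin m → F} (hy : ∀ j, y j ≠ 0) {b0 : F}
    (hb0 : b0 ≠ 0) {w : F} (hw : w ∉ cl T) :
    ∃ β : ℂ, ∀ (a : Fin m → ℤ) (c : ℤ), c ≠ 0 →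
      mo a y * (b0 * (w - algebraMap ℂ F β)) ^ c ∉ cl T := by
  classical
  by_contra hcon
  push Not at hcon
  choose a c hc hg using hcon
  obtain ⟨K, hK⟩ := cl_field T
  -- the values of `β`
  obtain ⟨β, hβ⟩ : ∃ β : Fin (m + 2) → ℂ, Function.Injective β :=
    ⟨fun i => (i : ℕ), fun i j h => Fin.ext (Nat.cast_injective (R := ℂ) h)⟩
  have hwβ : ∀ i, w - algebraMap ℂ F (β i) ≠ 0 := by
    intro i h
    apply hw
    rw [sub_eq_zero.1 h]
    exact cl_const _ _
  -- a relation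
  obtain ⟨μ, hμ0, hμ, -⟩ := Int.Matrix.exists_ne_zero_int_vec_norm_le
    (Matrix.of fun (j : Option (Fin m)) (i : Fin (m + 2)) =>
      (j.elim (c (β i)) (fun j => a (β i) j) : ℤ)) (by simp) (by simp)
  have hμc : ∑ i, c (β i) * μ i = 0 := by
    have := congrFun hμ none
    simpa [Matrix.mulVec, dotProduct] using this
  have hμa : ∀ j, ∑ i, a (β i) j * μ i = 0 := by
    intro j
    have := congrFun hμ (some j)
    simpa [Matrix.mulVec, dotProduct] using this
  obtain ⟨e, he⟩ : ∃ e : Fin (m + 2) → ℤ, ∀ i, e i = c (β i) * μ i := ⟨_, fun _ => rfl⟩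
  obtain ⟨i0, hi0⟩ : ∃ i, e i ≠ 0 := by
    obtain ⟨i, hi⟩ := Function.ne_iff.1 hμ0
    exact ⟨i, by rw [he]; exact mul_ne_zero (hc _) hi⟩
  obtain ⟨g, hgdef⟩ : ∃ g : F, g = ∏ i, (w - algebraMap ℂ F (β i)) ^ e i := ⟨_, rfl⟩
  have hg0 : g ≠ 0 := by
    rw [hgdef]
    exact Finset.prod_ne_zero_iff.2 fun i _ => zpow_ne_zero _ (hwβ i)
  have hprod : g = ∏ i, (mo (a (β i)) y * (b0 * (w - algebraMap ℂ F (β i))) ^ c (β i)) ^ μ i := by
    have h1 : ∀ i, (mo (a (β i)) y * (b0 * (w - algebraMap ℂ F (β i))) ^ c (β i)) ^ μ i =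
        (∏ j, y j ^ (a (β i) j * μ i)) * (b0 ^ (c (β i) * μ i) *
          (w - algebraMap ℂ F (β i)) ^ e i) := by
      intro i
      rw [mul_zpow, ← zpow_mul, mul_zpow, he, mo, ← Finset.prod_zpow]
      congr 1
      exact Finset.prod_congr rfl fun j _ => (zpow_mul _ _ _).symm
    rw [Finset.prod_congr rfl fun i _ => h1 i, Finset.prod_mul_distrib, Finset.prod_mul_distrib,
      Finset.prod_comm, ← hgdef]
    have h2 : ∏ j, ∏ i, y j ^ (a (β i) j * μ i) = 1 := by
      refine Finset.prod_eq_one fun j _ => ?_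
      rw [prod_zpow_aux (hy j), hμa, zpow_zero]
    rw [h2, prod_zpow_aux hb0, hμc, zpow_zero, one_mul, one_mul]
  have hgK : g ∈ K := by
    rw [hprod]
    refine prod_mem fun i _ => zpow_mem ?_ _
    have := hg (β i)
    rw [← hK] at this
    exact this
  have hwK : ∀ i, w - algebraMap ℂ F (β i) ≠ 0 := hwβ
  -- the polynomials over `K`
  obtain ⟨Q, hQ⟩ : ∃ Q : (Fin (m + 2) → ℕ) → Polynomial K,
      ∀ f, Q f = ∏ i, (Polynomial.X - Polynomial.C (algebraMap ℂ K (β i))) ^ f i := ⟨_, fun _ => rfl⟩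
  have hQe : ∀ f (x : F), ((Q f).map (algebraMap K F)).eval x =
      ∏ i, (x - algebraMap ℂ F (β i)) ^ f i := by
    intro f x
    rw [hQ, Polynomial.map_prod, Polynomial.eval_prod]
    refine Finset.prod_congr rfl fun i _ => ?_
    rw [Polynomial.map_pow, Polynomial.map_sub, Polynomial.map_X, Polynomial.map_C,
      Polynomial.eval_pow, Polynomial.eval_sub, Polynomial.eval_X, Polynomial.eval_C,
      ← IsScalarTower.algebraMap_apply]
  obtain ⟨G, hG⟩ : ∃ G : Polynomial K, G = Q (fun i => (e i).toNat) -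
      Polynomial.C (⟨g, hgK⟩ : K) * Q (fun i => (-e i).toNat) := ⟨_, rfl⟩
  have hGe : ∀ x : F, (G.map (algebraMap K F)).eval x =
      ∏ i, (x - algebraMap ℂ F (β i)) ^ (e i).toNat -
        g * ∏ i, (x - algebraMap ℂ F (β i)) ^ (-e i).toNat := by
    intro x
    rw [hG, Polynomial.map_sub, Polynomial.map_mul, Polynomial.map_C, Polynomial.eval_sub,
      Polynomial.eval_mul, Polynomial.eval_C, hQe, hQe]
    rfl
  have hne : ∀ i i', i' ≠ i → algebraMap ℂ F (β i) - algebraMap ℂ F (β i') ≠ 0 := by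
    intro i i' hii h
    exact hii (hβ ((algebraMap ℂ F).injective (sub_eq_zero.1 h))).symm
  apply hw
  refine cl_root T (G.map (algebraMap K F)) ?_ ?_ w ?_
  · intro h0
    have h1 := hGe (algebraMap ℂ F (β i0))
    rw [h0, Polynomial.eval_zero] at h1
    rcases lt_or_gt_of_ne hi0 with h | h
    · have h2 : ∏ i, (algebraMap ℂ F (β i0) - algebraMap ℂ F (β i)) ^ (-e i).toNat = 0 := by
        refine Finset.prod_eq_zero (Finset.mem_univ i0) ?_
        rw [sub_self, zero_pow]
        omega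
      have h3 : ∏ i, (algebraMap ℂ F (β i0) - algebraMap ℂ F (β i)) ^ (e i).toNat ≠ 0 := by
        refine Finset.prod_ne_zero_iff.2 fun i _ => ?_
        by_cases hi : i = i0
        · rw [hi, Int.toNat_of_nonpos h.le, pow_zero]
          exact one_ne_zero
        · exact pow_ne_zero _ (hne _ _ hi)
      rw [h2, mul_zero, sub_zero] at h1
      exact h3 h1.symm
    · have h2 : ∏ i, (algebraMap ℂ F (β i0) - algebraMap ℂ F (β i)) ^ (e i).toNat = 0 := by
        refine Finset.prod_eq_zero (Finset.mem_univ i0) ?_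
        rw [sub_self, zero_pow]
        omega
      have h3 : ∏ i, (algebraMap ℂ F (β i0) - algebraMap ℂ F (β i)) ^ (-e i).toNat ≠ 0 := by
        refine Finset.prod_ne_zero_iff.2 fun i _ => ?_
        by_cases hi : i = i0
        · rw [hi, Int.toNat_of_nonpos (by omega), pow_zero]
          exact one_ne_zero
        · exact pow_ne_zero _ (hne _ _ hi)
      rw [h2, zero_sub, zero_eq_neg] at h1
      exact (mul_ne_zero hg0 h3) h1
  · intro i
    rw [Polynomial.coeff_map, ← hK]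
    exact (G.coeff i).2
  · rw [hGe, sub_eq_zero, hgdef, ← Finset.prod_mul_distrib]
    refine Finset.prod_congr rfl fun i _ => ?_
    rw [← zpow_natCast, ← zpow_natCast, ← zpow_add₀ (hwβ i)]
    congr 1
    omega

end XA
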