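import Mathlib

/-!
Branch lemma, first part: for monic polynomials whose coefficients are continuous functions on a
space `X`, the map `(t, T) ↦ (t, χ t T)` is closed with finite fibres.
-/

namespace XA

open Filter Topology

/-- monic polynomial of degree `d` with coefficients `a i t` -/
noncomputable def mp {X : Type*} {d : ℕ} (a : Fin d → X → ℂ) (t : X) (T : ℂ) : ℂ :=
  T ^ d + ∑ i, a i t * T ^ (i : ℕ)

/-- derivative of `mp` in `T` -/
noncomputable def mp' {X : Type*} {d : ℕ} (a : Fin d → X → ℂ) (t : X) (T : ℂ) : ℂ :=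
  (d : ℂ) * T ^ (d - 1) + ∑ i, a i t * ((i : ℕ) * T ^ ((i : ℕ) - 1))

theorem mp_continuous {X : Type*} [TopologicalSpace X] {d : ℕ} {a : Fin d → X → ℂ}
    (ha : ∀ i, Continuous (a i)) : Continuous (fun p : X × ℂ => mp a p.1 p.2) := by
  unfold mp
  refine (continuous_snd.pow d).add (continuous_finsetSum _ fun i _ => ?_)
  exact ((ha i).comp continuous_fst).mul (continuous_snd.pow _)

/-- the roots of a monic polynomial are bounded by its coefficients and its value -/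
theorem mp_bound {X : Type*} {d : ℕ} (hd : 0 < d) (a : Fin d → X → ℂ) (t : X) (T : ℂ) :
    ‖T‖ ≤ 1 + ‖mp a t T‖ + ∑ i, ‖a i t‖ := by
  by_contra hcon
  push Not at hcon
  have hs : 0 ≤ ∑ i, ‖a i t‖ := Finset.sum_nonneg fun i _ => norm_nonneg _
  have h1 : 1 ≤ ‖T‖ := by linarith [norm_nonneg (mp a t T)]
  have h2 : T ^ d = mp a t T - ∑ i, a i t * T ^ (i : ℕ) := by unfold mp; ring
  have h3 : ‖T‖ ^ d ≤ ‖mp a t T‖ + ∑ i, ‖a i t‖ * ‖T‖ ^ (d - 1) := by
    rw [← norm_pow, h2]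
    refine (norm_sub_le _ _).trans (add_le_add le_rfl ((norm_sum_le _ _).trans ?_))
    refine Finset.sum_le_sum fun i _ => ?_
    rw [norm_mul, norm_pow]
    refine mul_le_mul_of_nonneg_left ?_ (norm_nonneg _)
    exact pow_le_pow_right₀ h1 (by have := i.2; omega)
  have h4 : ‖T‖ ^ d = ‖T‖ * ‖T‖ ^ (d - 1) := by
    rw [← pow_succ']; congr 1; omega
  have h5 : 1 ≤ ‖T‖ ^ (d - 1) := one_le_pow₀ h1
  rw [← Finset.sum_mul] at h3
  rw [h4] at h3
  have h6 : ‖mp a t T‖ ≤ ‖mp a t T‖ * ‖T‖ ^ (d - 1) := by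
    nlinarith [norm_nonneg (mp a t T)]
  have h7 : (‖T‖ - ‖mp a t T‖ - ∑ i, ‖a i t‖) * ‖T‖ ^ (d - 1) ≤ 0 := by nlinarith
  have h8 : 0 < (‖T‖ - ‖mp a t T‖ - ∑ i, ‖a i t‖) * ‖T‖ ^ (d - 1) := by
    apply mul_pos <;> linarith
  linarith

theorem mp_isClosedMap {X : Type*} [TopologicalSpace X] [FirstCountableTopology X] [T2Space X]
    {d : ℕ} (hd : 0 < d)
    {a : Fin d → X → ℂ} (ha : ∀ i, Continuous (a i)) :
    IsClosedMap (fun p : X × ℂ => ((p.1, mp a p.1 p.2) : X × ℂ)) := by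
  intro C hC
  apply IsSeqClosed.isClosed
  rintro q ⟨t, w⟩ hq hqt
  choose p hpC hpq using hq
  have h1 : Tendsto (fun n => (p n).1) atTop (𝓝 t) := by
    have := (continuous_fst.tendsto (t, w)).comp hqt
    refine this.congr fun n => ?_
    simp [← hpq n]
  have h2 : Tendsto (fun n => mp a (p n).1 (p n).2) atTop (𝓝 w) := by
    have := (continuous_snd.tendsto (t, w)).comp hqt
    refine this.congr fun n => ?_
    simp [← hpq n]
  have h3 : Tendsto (fun n => 1 + ‖mp a (p n).1 (p n).2‖ + ∑ i, ‖a i (p n).1‖) atTop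
      (𝓝 (1 + ‖w‖ + ∑ i, ‖a i t‖)) := by
    refine (tendsto_const_nhds.add h2.norm).add (tendsto_finsetSum _ fun i _ => ?_)
    exact (((ha i).tendsto t).comp h1).norm
  obtain ⟨M, hM⟩ := h3.bddAbove_range
  have h4 : ∀ n, (p n).2 ∈ Metric.closedBall (0 : ℂ) M := fun n => by
    rw [mem_closedBall_zero_iff]
    exact (mp_bound hd a _ _).trans (hM ⟨n, rfl⟩)
  obtain ⟨T, -, φ, hφ, hT⟩ := (isCompact_closedBall (0 : ℂ) M).tendsto_subseq h4
  have h5 : Tendsto (fun n => p (φ n)) atTop (𝓝 (t, T)) := by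
    rw [nhds_prod_eq]
    exact (h1.comp hφ.tendsto_atTop).prodMk hT
  have h6 : (t, T) ∈ C := hC.mem_of_tendsto h5 (Eventually.of_forall fun n => hpC _)
  refine ⟨(t, T), h6, ?_⟩
  have h7 : Tendsto (fun n => mp a (p (φ n)).1 (p (φ n)).2) atTop (𝓝 (mp a t T)) :=
    ((mp_continuous ha).tendsto (t, T)).comp h5
  have h8 := tendsto_nhds_unique h7 (h2.comp hφ.tendsto_atTop)
  simp [h8]

theorem mp_finite {X : Type*} {d : ℕ} (hd : 0 < d) (a : Fin d → X → ℂ) (q : X × ℂ) :
    ((fun p : X × ℂ => ((p.1, mp a p.1 p.2) : X × ℂ)) ⁻¹' {q}).Finite := by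
  classical
  obtain ⟨t, w⟩ := q
  let P : Polynomial ℂ := Polynomial.X ^ d + (∑ i : Fin d, Polynomial.C (a i t) *
    Polynomial.X ^ (i : ℕ) - Polynomial.C w)
  have hdeg : (∑ i : Fin d, Polynomial.C (a i t) * Polynomial.X ^ (i : ℕ) -
      Polynomial.C w).degree < (d : WithBot ℕ) := by
    refine lt_of_le_of_lt (Polynomial.degree_sub_le _ _) (max_lt ?_ ?_)
    · exact Polynomial.degree_sum_fin_lt (fun i => a i t)
    · refine lt_of_le_of_lt Polynomial.degree_C_le ?_
      exact_mod_cast hd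
  have hP : P.Monic := Polynomial.monic_X_pow_add hdeg
  have h1 : {T : ℂ | mp a t T = w}.Finite := by
    refine (P.roots.toFinset.finite_toSet).subset ?_
    intro T hT
    rw [Finset.mem_coe, Multiset.mem_toFinset, Polynomial.mem_roots hP.ne_zero]
    have hT' : mp a t T = w := hT
    simp only [Polynomial.IsRoot, P, Polynomial.eval_add, Polynomial.eval_sub, Polynomial.eval_pow,
      Polynomial.eval_X, Polynomial.eval_C, Polynomial.eval_finsetSum, Polynomial.eval_mul]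
    rw [← hT']
    unfold mp
    ring
  refine (h1.image (fun T => (t, T))).subset ?_
  rintro ⟨t', T⟩ h
  have h2 : ((t', mp a t' T) : X × ℂ) = (t, w) := h
  have h3 : t' = t := congrArg Prod.fst h2
  subst h3
  exact ⟨T, congrArg Prod.snd h2, rfl⟩

end XA
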