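import Pool.Agent.Lib.MP_228259_lc.A.BR1

/-!
Branch lemma: on a convex open set over which all roots are simple, every root of a monic
polynomial with holomorphic coefficients extends to a holomorphic root.
-/

namespace XA

open Filter Topology

variable {E : Type*} [NormedAddCommGroup E] [NormedSpace ℂ E] [FiniteDimensional ℂ E]

theorem mp_hasDerivAt {X : Type*} {d : ℕ} (a : Fin d → X → ℂ) (t : X) (T : ℂ) :
    HasDerivAt (fun T => mp a t T) (mp' a t T) T := by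
  unfold mp mp'
  have h1 : HasDerivAt (fun T : ℂ => T ^ d) ((d : ℂ) * T ^ (d - 1)) T := hasDerivAt_pow d T
  have h2 : HasDerivAt (fun T : ℂ => ∑ i : Fin d, a i t * T ^ (i : ℕ))
      (∑ i : Fin d, a i t * ((i : ℕ) * T ^ ((i : ℕ) - 1))) T := by
    apply HasDerivAt.fun_sum
    intro i _
    exact (hasDerivAt_pow (i : ℕ) T).const_mul (a i t)
  exact h1.add h2

omit [FiniteDimensional ℂ E] in
theorem mp_contDiffAt {d : ℕ} {a : Fin d → E → ℂ} {t : E} (ha : ∀ i, ContDiffAt ℂ 1 (a i) t)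
    (T : ℂ) : ContDiffAt ℂ 1 (fun p : E × ℂ => mp a p.1 p.2) (t, T) := by
  unfold mp
  refine (contDiffAt_snd.pow d).add (ContDiffAt.sum fun i _ => ?_)
  exact (ContDiffAt.comp (t, T) (ha i) contDiffAt_fst).mul (contDiffAt_snd.pow _)

/-- the map `(t, T) ↦ (t, χ t T)` has invertible derivative at simple roots -/
theorem mp_local {d : ℕ} {a : Fin d → E → ℂ} {t : E} (ha : ∀ i, ContDiffAt ℂ 1 (a i) t)
    {T : ℂ} (hT : mp' a t T ≠ 0) :
    ∃ φ : OpenPartialHomeomorph (E × ℂ) (E × ℂ), (t, T) ∈ φ.source ∧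
      (φ : E × ℂ → E × ℂ) = (fun p => (p.1, mp a p.1 p.2)) ∧
      ContDiffAt ℂ 1 φ.symm (t, mp a t T) := by
  set F : E × ℂ → E × ℂ := fun p => (p.1, mp a p.1 p.2) with hF
  have hFc : ContDiffAt ℂ 1 F (t, T) := contDiffAt_fst.prodMk (mp_contDiffAt ha T)
  have hFd : HasFDerivAt F (fderiv ℂ F (t, T)) (t, T) :=
    (hFc.differentiableAt (by norm_num)).hasFDerivAt
  set D := fderiv ℂ F (t, T) with hD
  have h1 : ∀ q, (D q).1 = q.1 := by
    intro q
    have h2 : HasFDerivAt (fun p : E × ℂ => (F p).1) ((ContinuousLinearMap.fst ℂ E ℂ).comp D)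
        (t, T) := by
      have h5 : HasFDerivAt (ContinuousLinearMap.fst ℂ E ℂ) (ContinuousLinearMap.fst ℂ E ℂ)
          (F (t, T)) := (ContinuousLinearMap.fst ℂ E ℂ).hasFDerivAt
      exact h5.comp (t, T) hFd
    have h3 : HasFDerivAt (fun p : E × ℂ => (F p).1) (ContinuousLinearMap.fst ℂ E ℂ)
        (t, T) := (ContinuousLinearMap.fst ℂ E ℂ).hasFDerivAt
    have h4 := h2.unique h3
    exact congrArg (fun L : E × ℂ →L[ℂ] E => L q) h4
  have h2 : ∀ w : ℂ, (D (0, w)).2 = mp' a t T * w := by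
    intro w
    have h3 : HasDerivAt (fun s : ℂ => ((t, T + s * w) : E × ℂ)) (0, w) 0 := by
      have h4 : HasDerivAt (fun s : ℂ => T + s * w) w 0 := by
        simpa using ((hasDerivAt_id (0 : ℂ)).mul_const w).const_add T
      exact (hasDerivAt_const (0 : ℂ) t).prodMk h4
    have h5 : HasDerivAt (fun s : ℂ => F (t, T + s * w)) (D (0, w)) 0 := by
      have hFd' : HasFDerivAt F D (t, T + 0 * w) := by simpa using hFd
      exact hFd'.comp_hasDerivAt (0 : ℂ) h3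
    have h6 : HasDerivAt (fun s : ℂ => (F (t, T + s * w)).2) (D (0, w)).2 0 :=
      (ContinuousLinearMap.snd ℂ E ℂ).hasFDerivAt.comp_hasDerivAt (0 : ℂ) h5
    have h7 : HasDerivAt (fun s : ℂ => mp a t (T + s * w)) (mp' a t T * w) 0 := by
      have h8 : HasDerivAt (fun s : ℂ => T + s * w) w 0 := by
        simpa using ((hasDerivAt_id (0 : ℂ)).mul_const w).const_add T
      have h9 := mp_hasDerivAt a t (T + 0 * w)
      have h10 := HasDerivAt.comp (0 : ℂ) h9 h8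
      simpa [Function.comp_def] using h10
    exact h6.unique h7
  have hinj : Function.Injective D := by
    rw [injective_iff_map_eq_zero]
    rintro ⟨v, w⟩ hvw
    have hv : v = 0 := by
      have := h1 (v, w)
      rw [hvw] at this
      exact this.symm
    subst hv
    have hw := h2 w
    rw [hvw] at hw
    have : w = 0 := by
      have h3 : mp' a t T * w = 0 := hw.symm
      exact (mul_eq_zero.1 h3).resolve_left hT
    simp [this]
  let D' : (E × ℂ) ≃L[ℂ] (E × ℂ) :=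
    (LinearEquiv.ofInjectiveEndo (D : (E × ℂ) →ₗ[ℂ] (E × ℂ)) hinj).toContinuousLinearEquiv
  have hD' : (D' : (E × ℂ) →L[ℂ] (E × ℂ)) = D := by
    ext q <;> rfl
  have hFd' : HasFDerivAt F (D' : (E × ℂ) →L[ℂ] (E × ℂ)) (t, T) := by rw [hD']; exact hFd
  refine ⟨hFc.toOpenPartialHomeomorph F hFd' (by norm_num),
    hFc.mem_toOpenPartialHomeomorph_source hFd' (by norm_num),
    hFc.toOpenPartialHomeomorph_coe hFd' (by norm_num), ?_⟩
  exact hFc.to_localInverse hFd' (by norm_num)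

theorem branch {Ω : Set E} (hΩ : IsOpen Ω) (hc : Convex ℝ Ω) {d : ℕ} (hd : 0 < d)
    {a : Fin d → E → ℂ} (ha : ∀ i, ContDiffOn ℂ 1 (a i) Ω)
    (hs : ∀ t ∈ Ω, ∀ T, mp a t T = 0 → mp' a t T ≠ 0)
    {t₀ : E} (ht₀ : t₀ ∈ Ω) {T₀ : ℂ} (hT₀ : mp a t₀ T₀ = 0) :
    ∃ θ : E → ℂ, ContDiffOn ℂ 1 θ Ω ∧ θ t₀ = T₀ ∧ ∀ t ∈ Ω, mp a t (θ t) = 0 := by
  classical
  have haat : ∀ t ∈ Ω, ∀ i, ContDiffAt ℂ 1 (a i) t := fun t ht i =>
    (ha i).contDiffAt (hΩ.mem_nhds ht)
  -- the map over `Ω`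
  let a' : Fin d → Ω → ℂ := fun i t => a i t
  have ha' : ∀ i, Continuous (a' i) := fun i => (ha i).continuousOn.domRestrict
  let Φ : Ω × ℂ → Ω × ℂ := fun p => (p.1, mp a' p.1 p.2)
  have hΦc : Continuous Φ := continuous_fst.prodMk (mp_continuous ha')
  let S : Set (Ω × ℂ) := {q | q.2 = 0}
  have hcl : IsClosedMap Φ := mp_isClosedMap hd ha'
  have hfin : ∀ q ∈ S, (Φ ⁻¹' {q}).Finite := fun q _ => mp_finite hd a' q
  let ι : Ω × ℂ → E × ℂ := fun p => ((p.1 : E), p.2)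
  have hι : IsOpenEmbedding ι := hΩ.isOpenEmbedding_subtypeVal.prodMap IsOpenEmbedding.id
  have hloc : IsLocalHomeomorphOn Φ (Φ ⁻¹' S) := by
    have hcomp : ι ∘ Φ = (fun p : E × ℂ => ((p.1, mp a p.1 p.2) : E × ℂ)) ∘ ι := rfl
    have h1 : IsLocalHomeomorphOn (ι ∘ Φ) (Φ ⁻¹' S) := by
      rw [hcomp]
      refine IsLocalHomeomorphOn.comp (t := ι '' (Φ ⁻¹' S)) ?_ ?_ (Set.mapsTo_image _ _)
      · rintro _ ⟨⟨t, T⟩, htT, rfl⟩
        have htT' : mp a t T = 0 := htT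
        obtain ⟨φ, hφ1, hφ2, -⟩ := mp_local (haat t t.2) (hs t t.2 T htT')
        exact ⟨φ, hφ1, hφ2.symm⟩
      · exact hι.isLocalHomeomorph.isLocalHomeomorphOn
    exact h1.of_comp_left (hι.isLocalHomeomorph.isLocalHomeomorphOn) fun x _ => hΦc.continuousAt
  have hcov : IsCoveringMapOn Φ S := hcl.isCoveringMapOn_of_isLocalHomeomorphOn hfin hloc
  -- lift
  have hsc : SimplyConnectedSpace Ω := by
    have : ContractibleSpace Ω := hc.contractibleSpace ⟨t₀, ht₀⟩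
    infer_instance
  have hlp : LocallyPathConnectedSpace Ω := hΩ.locallyPathConnectedSpace
  let f : C(Ω, Ω × ℂ) := ⟨fun t => (t, 0), by fun_prop⟩
  obtain ⟨F, ⟨hF0, hF⟩, -⟩ := hcov.existsUnique_continuousMap_lifts f (a₀ := ⟨t₀, ht₀⟩)
    (e₀ := (⟨t₀, ht₀⟩, T₀)) (by
      change ((⟨t₀, ht₀⟩ : Ω), mp a t₀ T₀) = (⟨t₀, ht₀⟩, 0)
      rw [hT₀]) (fun _ => rfl)
  have hF1 : ∀ t : Ω, (F t).1 = t := fun t => congrArg Prod.fst (congrFun hF t)
  have hF2 : ∀ t : Ω, mp a t (F t).2 = 0 := by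
    intro t
    have h1 : mp a' (F t).1 (F t).2 = 0 := congrArg Prod.snd (congrFun hF t)
    rw [hF1 t] at h1
    exact h1
  let θ : E → ℂ := fun t => if h : t ∈ Ω then (F ⟨t, h⟩).2 else 0
  have hθ : ∀ t : Ω, θ t = (F t).2 := fun t => by
    simp only [θ, Subtype.coe_prop, dite_true]
  have hθc : ContinuousOn θ Ω := by
    rw [continuousOn_iff_continuous_domRestrict]
    have : Ω.domRestrict θ = fun t => (F t).2 := by
      funext t
      exact hθ t
    rw [this]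
    exact continuous_snd.comp F.continuous
  refine ⟨θ, ?_, ?_, ?_⟩
  · intro t ht
    apply ContDiffAt.contDiffWithinAt
    have h0 : mp a t (θ t) = 0 := by
      rw [hθ ⟨t, ht⟩]
      exact hF2 ⟨t, ht⟩
    obtain ⟨φ, hφ1, hφ2, hφ3⟩ := mp_local (haat t ht) (hs t ht _ h0)
    rw [h0] at hφ3
    have h1 : ContDiffAt ℂ 1 (fun t' => (φ.symm (t', 0)).2) t := by
      have h2 : ContDiffAt ℂ 1 (fun t' : E => ((t', 0) : E × ℂ)) t :=
        contDiffAt_id.prodMk contDiffAt_const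
      exact (contDiffAt_snd.comp t (hφ3.comp t h2))
    refine h1.congr_of_eventuallyEq ?_
    have h3 : ContinuousAt (fun t' => ((t', θ t') : E × ℂ)) t :=
      continuousAt_id.prodMk (hθc.continuousAt (hΩ.mem_nhds ht))
    have h4 : ∀ᶠ t' in 𝓝 t, ((t', θ t') : E × ℂ) ∈ φ.source :=
      h3.eventually (φ.open_source.mem_nhds hφ1)
    filter_upwards [h4, hΩ.mem_nhds ht] with t' h5 h6
    have h7 : φ (t', θ t') = (t', 0) := by
      rw [hφ2]
      change (t', mp a t' (θ t')) = (t', 0)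
      rw [hθ ⟨t', h6⟩, hF2 ⟨t', h6⟩]
    rw [← h7, φ.left_inv h5]
  · rw [hθ ⟨t₀, ht₀⟩, hF0]
  · intro t ht
    rw [hθ ⟨t, ht⟩]
    exact hF2 ⟨t, ht⟩

end XA
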