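import Pool.Agent.Lib.MP_228259_lc.A.CL2

/-!
MB: ranks of families of monomials and of linear forms.

PROOF of `span_mo`. The vectors `v l` (`l : Fin k`) and the unit vectors `e_j` (`j ∈ J`) span `ℚⁿ`; so for
every `i` there are an integer `N ≠ 0` and integers `c_l`, `d_j` with
`N • e_i = ∑ c_l • v l + ∑ d_j • e_j` (clear denominators). Hence
`(y i) ^ N = ∏ mo (v l) y ^ c_l * ∏ y j ^ d_j` (`mo_add`, `mo_smul`, `mo_single`), an element of the field
`cl (..)`, and `y i` is algebraic over this field (`cl_root` with `X ^ N - C ..` for `N > 0`; for `N < 0`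
take the inverse), so `y i ∈ cl (..)`. `span_li`: the same, additively, `N * x i = ∑ ..`, divide by `N`.

PROOF of `exists_compl`. The rows of `M` span a subspace of `ℚⁿ` of dimension `q = rank M`
(`Matrix.rank_eq_finrank_span_row`); extend by unit vectors to `ℚⁿ`
(`exists_linearIndependent..`, basis extension `LinearIndependent.extend`/Steinitz, e.g.
`exists_isBasis`): `n - q` unit vectors suffice.

PROOF of `rk_mono_bound`. `exists_compl`, `span_mo` and
`rk (S ∪ range (y ^ M) ∪ {y j | j ∈ J}) ≤ rk (S ∪ range (y ^ M)) + J.card` (matroid: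
`Matroid.eRk_union_le_eRk_add_encard`).
-/

set_option autoImplicit false

namespace XA

open MvPolynomial

variable {F : Type*} [Field F] [Algebra ℂ F] {n : ℕ}

private theorem mb_root {S : Set F} {a : F} {N : ℤ} (hN : N ≠ 0) (h : a ^ N ∈ cl S) :
    a ∈ cl S := by
  obtain ⟨K, hK⟩ := cl_field S
  have hmem : ∀ a : F, a ∈ K ↔ a ∈ cl S := fun a => by rw [← hK]; rfl
  have h1 : a ^ N.natAbs ∈ K := by
    rw [← hmem] at h
    rcases Int.natAbs_eq N with h2 | h2
    · rw [h2, zpow_natCast] at h
      exact h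
    · rw [h2, zpow_neg, zpow_natCast] at h
      have h3 := inv_mem h
      rwa [inv_inv] at h3
  have hM : N.natAbs ≠ 0 := Int.natAbs_ne_zero.mpr hN
  refine cl_root S (Polynomial.X ^ N.natAbs - Polynomial.C (a ^ N.natAbs))
    (Polynomial.X_pow_sub_C_ne_zero (Nat.pos_of_ne_zero hM) _) ?_ a ?_
  · intro i
    rw [← hmem, Polynomial.coeff_sub, Polynomial.coeff_X_pow, Polynomial.coeff_C]
    apply sub_mem
    · split_ifs
      · exact one_mem _
      · exact zero_mem _
    · split_ifs
      · exact h1
      · exact zero_mem _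
  · simp

theorem span_mo {y : Fin n → F} (hy : ∀ j, y j ≠ 0) {k : ℕ} (v : Fin k → Fin n → ℤ)
    (J : Finset (Fin n))
    (hs : Submodule.span ℚ (Set.range (fun l => (fun j => (v l j : ℚ) : Fin n → ℚ)) ∪
      ((fun j : Fin n => (Pi.single j 1 : Fin n → ℚ)) '' (J : Set (Fin n)))) = ⊤) (i : Fin n) :
    y i ∈ cl (Set.range (fun l => mo (v l) y) ∪ y '' (J : Set (Fin n))) := by
  obtain ⟨K, hK⟩ := cl_field (Set.range (fun l => mo (v l) y) ∪ y '' (J : Set (Fin n)))
  have hmem : ∀ a : F, a ∈ K ↔ a ∈ cl (Set.range (fun l => mo (v l) y) ∪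
    y '' (J : Set (Fin n))) := fun a => by rw [← hK]; rfl
  have key : ∀ q : Fin n → ℚ, q ∈ Submodule.span ℚ
      (Set.range (fun l => (fun j => (v l j : ℚ) : Fin n → ℚ)) ∪
      ((fun j : Fin n => (Pi.single j 1 : Fin n → ℚ)) '' (J : Set (Fin n)))) →
      ∃ (N : ℤ) (b : Fin n → ℤ), N ≠ 0 ∧ (∀ j, (b j : ℚ) = N * q j) ∧ mo b y ∈ K := by
    intro q hq
    induction hq using Submodule.span_induction with
    | mem q hq =>
      rcases hq with ⟨l, rfl⟩ | ⟨j, hj, rfl⟩
      · refine ⟨1, v l, one_ne_zero, fun j => by simp, ?_⟩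
        rw [hmem]
        exact subset_cl _ (Or.inl ⟨l, rfl⟩)
      · refine ⟨1, Pi.single j 1, one_ne_zero, fun j' => ?_, ?_⟩
        · simp only [Int.cast_one, one_mul]
          by_cases hjj : j' = j
          · subst hjj
            simp
          · simp [Pi.single_eq_of_ne hjj]
        · rw [mo_single, hmem]
          exact subset_cl _ (Or.inr ⟨j, hj, rfl⟩)
    | zero =>
      refine ⟨1, 0, one_ne_zero, fun j => by simp, ?_⟩
      have h1 : mo (0 : Fin n → ℤ) y = 1 := by simp [mo]
      rw [h1]
      exact one_mem _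
    | add q q' _ _ h h' =>
      obtain ⟨N, b, hN, hb, hm⟩ := h
      obtain ⟨N', b', hN', hb', hm'⟩ := h'
      refine ⟨N * N', N' • b + N • b', mul_ne_zero hN hN', fun j => ?_, ?_⟩
      · simp only [Pi.add_apply, Pi.smul_apply, smul_eq_mul]
        push_cast
        rw [hb, hb']
        ring
      · rw [mo_add hy, mo_smul, mo_smul]
        exact mul_mem (zpow_mem hm _) (zpow_mem hm' _)
    | smul r q _ h =>
      obtain ⟨N, b, hN, hb, hm⟩ := h
      refine ⟨N * r.den, r.num • b, mul_ne_zero hN (by exact_mod_cast r.den_ne_zero),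
        fun j => ?_, ?_⟩
      · simp only [Pi.smul_apply, smul_eq_mul]
        push_cast
        rw [hb]
        have h1 : (r.num : ℚ) = r * r.den := (Rat.mul_den_eq_num r).symm
        rw [h1]
        ring
      · rw [mo_smul]
        exact zpow_mem hm _
  obtain ⟨N, b, hN, hb, hm⟩ := key (Pi.single i 1) (by rw [hs]; trivial)
  have hb2 : b = N • Pi.single i 1 := by
    funext j
    have h1 := hb j
    rw [Pi.smul_apply, smul_eq_mul]
    by_cases hij : j = i
    · subst hij
      rw [Pi.single_eq_same, mul_one] at h1 ⊢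
      exact_mod_cast h1
    · rw [Pi.single_eq_of_ne hij, mul_zero] at h1 ⊢
      exact_mod_cast h1
  rw [hb2, mo_smul, mo_single, hmem] at hm
  exact mb_root hN hm

theorem span_li (x : Fin n → F) {k : ℕ} (v : Fin k → Fin n → ℤ) (J : Finset (Fin n))
    (hs : Submodule.span ℚ (Set.range (fun l => (fun j => (v l j : ℚ) : Fin n → ℚ)) ∪
      ((fun j : Fin n => (Pi.single j 1 : Fin n → ℚ)) '' (J : Set (Fin n)))) = ⊤) (i : Fin n) :
    x i ∈ cl (Set.range (fun l => li (v l) x) ∪ x '' (J : Set (Fin n))) := by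
  obtain ⟨K, hK⟩ := cl_field (Set.range (fun l => li (v l) x) ∪ x '' (J : Set (Fin n)))
  have hmem : ∀ a : F, a ∈ K ↔ a ∈ cl (Set.range (fun l => li (v l) x) ∪
    x '' (J : Set (Fin n))) := fun a => by rw [← hK]; rfl
  have key : ∀ q : Fin n → ℚ, q ∈ Submodule.span ℚ
      (Set.range (fun l => (fun j => (v l j : ℚ) : Fin n → ℚ)) ∪
      ((fun j : Fin n => (Pi.single j 1 : Fin n → ℚ)) '' (J : Set (Fin n)))) →
      ∃ (N : ℤ) (b : Fin n → ℤ), N ≠ 0 ∧ (∀ j, (b j : ℚ) = N * q j) ∧ li b x ∈ K := by
    intro q hq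
    induction hq using Submodule.span_induction with
    | mem q hq =>
      rcases hq with ⟨l, rfl⟩ | ⟨j, hj, rfl⟩
      · refine ⟨1, v l, one_ne_zero, fun j => by simp, ?_⟩
        rw [hmem]
        exact subset_cl _ (Or.inl ⟨l, rfl⟩)
      · refine ⟨1, Pi.single j 1, one_ne_zero, fun j' => ?_, ?_⟩
        · simp only [Int.cast_one, one_mul]
          by_cases hjj : j' = j
          · subst hjj
            simp
          · simp [Pi.single_eq_of_ne hjj]
        · rw [li_single, hmem]
          exact subset_cl _ (Or.inr ⟨j, hj, rfl⟩)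
    | zero =>
      refine ⟨1, 0, one_ne_zero, fun j => by simp, ?_⟩
      have h1 : li (0 : Fin n → ℤ) x = 0 := by simp [li]
      rw [h1]
      exact zero_mem _
    | add q q' _ _ h h' =>
      obtain ⟨N, b, hN, hb, hm⟩ := h
      obtain ⟨N', b', hN', hb', hm'⟩ := h'
      refine ⟨N * N', N' • b + N • b', mul_ne_zero hN hN', fun j => ?_, ?_⟩
      · simp only [Pi.add_apply, Pi.smul_apply, smul_eq_mul]
        push_cast
        rw [hb, hb']
        ring
      · have h1 : li (N' • b + N • b') x = (N' : F) * li b x + (N : F) * li b' x := by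
          unfold li
          rw [Finset.mul_sum, Finset.mul_sum, ← Finset.sum_add_distrib]
          refine Finset.sum_congr rfl fun j _ => ?_
          simp only [Pi.add_apply, Pi.smul_apply, smul_eq_mul]
          push_cast
          ring
        rw [h1]
        exact add_mem (mul_mem (intCast_mem K _) hm) (mul_mem (intCast_mem K _) hm')
    | smul r q _ h =>
      obtain ⟨N, b, hN, hb, hm⟩ := h
      refine ⟨N * r.den, r.num • b, mul_ne_zero hN (by exact_mod_cast r.den_ne_zero),
        fun j => ?_, ?_⟩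
      · simp only [Pi.smul_apply, smul_eq_mul]
        push_cast
        rw [hb]
        have h1 : (r.num : ℚ) = r * r.den := (Rat.mul_den_eq_num r).symm
        rw [h1]
        ring
      · have h1 : li (r.num • b) x = (r.num : F) * li b x := by
          unfold li
          rw [Finset.mul_sum]
          refine Finset.sum_congr rfl fun j _ => ?_
          simp only [Pi.smul_apply, smul_eq_mul]
          push_cast
          ring
        rw [h1]
        exact mul_mem (intCast_mem K _) hm
  obtain ⟨N, b, hN, hb, hm⟩ := key (Pi.single i 1) (by rw [hs]; trivial)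
  have hli : li b x = (N : F) * x i := by
    unfold li
    rw [Finset.sum_eq_single i]
    · have h1 := hb i
      rw [Pi.single_eq_same, mul_one] at h1
      have h2 : b i = N := by exact_mod_cast h1
      rw [h2]
    · intro j _ hj
      have h1 := hb j
      rw [Pi.single_eq_of_ne hj, mul_zero] at h1
      have h2 : b j = 0 := by exact_mod_cast h1
      rw [h2, Int.cast_zero, zero_mul]
    · intro h
      exact absurd (Finset.mem_univ i) h
  haveI : CharZero F := charZero_of_injective_algebraMap (algebraMap ℂ F).injective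
  have hNF : (N : F) ≠ 0 := by exact_mod_cast hN
  rw [← hmem]
  have h3 : x i = (N : F)⁻¹ * li b x := by
    rw [hli, inv_mul_cancel_left₀ hNF]
  rw [h3]
  exact mul_mem (inv_mem (intCast_mem K _)) hm

theorem exists_compl {k : ℕ} (M : Matrix (Fin k) (Fin n) ℤ) :
    ∃ J : Finset (Fin n), J.card + (M.map (Int.cast : ℤ → ℚ)).rank = n ∧
      Submodule.span ℚ (Set.range (fun l => (fun j => (M l j : ℚ) : Fin n → ℚ)) ∪
        ((fun j : Fin n => (Pi.single j 1 : Fin n → ℚ)) '' (J : Set (Fin n)))) = ⊤ := by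
  classical
  set w : Fin k → Fin n → ℚ := fun l => (fun j => (M l j : ℚ)) with hw
  set u : Fin n → Fin n → ℚ := fun j => Pi.single j 1 with hu
  obtain ⟨b0, hb0, hsp, hli⟩ := exists_linearIndependent ℚ (Set.range w)
  have hli' : LinearIndepOn ℚ id b0 := hli
  obtain ⟨b, hb1, hb2, hb3, hb4⟩ := exists_linearIndepOn_id_extension hli'
    (Set.subset_union_left : b0 ⊆ b0 ∪ Set.range u)
  have hfin0 : b0.Finite := (Set.finite_range w).subset hb0
  have hfin : b.Finite := (hfin0.union (Set.finite_range u)).subset hb1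
  have htop : Submodule.span ℚ b = ⊤ := by
    rw [eq_top_iff, ← (Pi.basisFun ℚ (Fin n)).span_eq]
    apply Submodule.span_le.mpr
    rintro _ ⟨j, rfl⟩
    rw [Pi.basisFun_apply]
    exact hb3 (Or.inr ⟨j, rfl⟩)
  haveI := hfin0.fintype
  haveI := hfin.fintype
  have c0 : Module.finrank ℚ (Submodule.span ℚ b0) = b0.toFinset.card :=
    finrank_span_set_eq_card hli'
  have c1 : Module.finrank ℚ (Submodule.span ℚ b) = b.toFinset.card :=
    finrank_span_set_eq_card hb4
  have hrank : (M.map (Int.cast : ℤ → ℚ)).rank = b0.toFinset.card := by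
    rw [Matrix.rank_eq_finrank_span_row, ← c0, hsp]
    rfl
  rw [htop, finrank_top, Module.finrank_fin_fun] at c1
  have huinj : Function.Injective u := by
    intro j j' h
    by_contra hne
    have h1 := congrFun h j
    simp only [hu, Pi.single_eq_same, Pi.single_eq_of_ne hne] at h1
    exact one_ne_zero h1
  refine ⟨Finset.univ.filter (fun j => u j ∈ b ∧ u j ∉ b0), ?_, ?_⟩
  · have hun : b.toFinset = b0.toFinset ∪
        (Finset.univ.filter (fun j => u j ∈ b ∧ u j ∉ b0)).image u := by
      ext q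
      simp only [Set.mem_toFinset, Finset.mem_union, Finset.mem_image, Finset.mem_filter,
        Finset.mem_univ, true_and]
      constructor
      · intro hq
        by_cases hq0 : q ∈ b0
        · exact Or.inl hq0
        · rcases hb1 hq with h | ⟨j, rfl⟩
          · exact absurd h hq0
          · exact Or.inr ⟨j, ⟨hq, hq0⟩, rfl⟩
      · rintro (h | ⟨j, ⟨h1, _⟩, rfl⟩)
        · exact hb2 h
        · exact h1
    have hdis : Disjoint b0.toFinset
        ((Finset.univ.filter (fun j => u j ∈ b ∧ u j ∉ b0)).image u) := by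
      rw [Finset.disjoint_left]
      intro q hq hq'
      simp only [Set.mem_toFinset, Finset.mem_image, Finset.mem_filter,
        Finset.mem_univ, true_and] at hq hq'
      obtain ⟨j, ⟨_, h2⟩, rfl⟩ := hq'
      exact h2 hq
    rw [hun, Finset.card_union_of_disjoint hdis, Finset.card_image_of_injective _ huinj] at c1
    rw [hrank]
    omega
  · rw [eq_top_iff, ← htop]
    apply Submodule.span_le.mpr
    intro q hq
    by_cases hq0 : q ∈ b0
    · exact Submodule.subset_span (Or.inl (hb0 hq0))
    · rcases hb1 hq with h | ⟨j, rfl⟩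
      · exact absurd h hq0
      · refine Submodule.subset_span (Or.inr ⟨j, ?_, rfl⟩)
        simp only [Finset.coe_filter, Finset.mem_univ, true_and, Set.mem_setOf_eq]
        exact ⟨hq, hq0⟩

private theorem mb_img (x : Fin n → F) (J : Finset (Fin n)) :
    (x '' (J : Set (Fin n))).encard ≤ J.card := by
  refine (Set.encard_image_le _ _).trans (le_of_eq ?_)
  exact Set.encard_coe_eq_coe_finsetCard J

theorem rk_mono_bound {y : Fin n → F} (hy : ∀ j, y j ≠ 0) (S : Set F) {k : ℕ}
    (M : Matrix (Fin k) (Fin n) ℤ) :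
    rk (S ∪ Set.range y) + ((M.map (Int.cast : ℤ → ℚ)).rank : ℕ∞) ≤
      rk (S ∪ Set.range (fun i => mo (M i) y)) + n := by
  obtain ⟨J, hJ, hs⟩ := exists_compl M
  have h1 : S ∪ Set.range y ⊆ cl ((S ∪ Set.range (fun i => mo (M i) y)) ∪
      y '' (J : Set (Fin n))) := by
    rintro a (ha | ⟨i, rfl⟩)
    · exact subset_cl _ (Or.inl (Or.inl ha))
    · refine cl_mono ?_ (span_mo hy (fun l => M l) J hs i)
      rintro b (hb | hb)
      · exact Or.inl (Or.inr hb)
      · exact Or.inr hb
  have h2 : rk (S ∪ Set.range y) ≤ rk (S ∪ Set.range (fun i => mo (M i) y)) + J.card := by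
    refine (rk_mono h1).trans ?_
    refine ((AlgebraicIndependent.matroid ℂ F).eRk_union_le_eRk_add_encard _ _).trans ?_
    exact add_le_add le_rfl (mb_img y J)
  calc rk (S ∪ Set.range y) + ((M.map (Int.cast : ℤ → ℚ)).rank : ℕ∞)
      ≤ (rk (S ∪ Set.range (fun i => mo (M i) y)) + J.card) +
          ((M.map (Int.cast : ℤ → ℚ)).rank : ℕ∞) := add_le_add h2 le_rfl
    _ = rk (S ∪ Set.range (fun i => mo (M i) y)) + n := by
        rw [add_assoc]
        congr 1
        exact_mod_cast hJ

/-- for `rk (range x) = n - 1` at most one more linear form is algebraic over `x 0` -/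
theorem q_rank {m : ℕ} {x : Fin (m + 2) → F} (hx : rk (Set.range x) = ((m + 1 : ℕ) : ℕ∞))
    (q q' : Fin (m + 2) → ℤ) (h0 : q 0 = 0) (h0' : q' 0 = 0) (hq : li q x ∈ cl {x 0})
    (hq' : li q' x ∈ cl {x 0}) : ∃ k k' : ℤ, (k ≠ 0 ∨ k' ≠ 0) ∧ k • q + k' • q' = 0 := by
  classical
  set M : Matrix (Fin 3) (Fin (m + 2)) ℤ := Matrix.of ![q, q', Pi.single 0 1] with hM
  have hM0 : M 0 = q := rfl
  have hM1 : M 1 = q' := rfl
  have hM2 : M 2 = Pi.single 0 1 := rfl
  by_cases hli : LinearIndependent ℚ (M.map (Int.cast : ℤ → ℚ)).row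
  · exfalso
    have hr : (M.map (Int.cast : ℤ → ℚ)).rank = 3 := by
      rw [hli.rank_matrix, Fintype.card_fin]
    obtain ⟨J, hJ, hs⟩ := exists_compl M
    rw [hr] at hJ
    have h1 : Set.range x ⊆ cl ({x 0} ∪ x '' (J : Set (Fin (m + 2)))) := by
      rintro _ ⟨i, rfl⟩
      refine cl_subset ?_ (span_li x (fun l => M l) J hs i)
      rintro a (⟨l, rfl⟩ | ha)
      · have h2 : ∀ l : Fin 3, li (M l) x ∈ cl {x 0} := by
          intro l
          fin_cases l
          · exact hq
          · exact hq'
          · change li (M 2) x ∈ cl {x 0}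
            rw [hM2, li_single]
            exact subset_cl _ rfl
        exact cl_mono Set.subset_union_left (h2 l)
      · exact subset_cl _ (Or.inr ha)
    have h2 : rk (Set.range x) ≤ rk ({x 0} : Set F) + J.card := by
      refine (rk_mono h1).trans ?_
      refine ((AlgebraicIndependent.matroid ℂ F).eRk_union_le_eRk_add_encard _ _).trans ?_
      exact add_le_add le_rfl (mb_img x J)
    have h3 : rk ({x 0} : Set F) ≤ 1 := by
      refine ((AlgebraicIndependent.matroid ℂ F).eRk_le_encard _).trans ?_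
      rw [Set.encard_singleton]
    rw [hx] at h2
    have h4 : ((m + 1 : ℕ) : ℕ∞) ≤ ((1 + J.card : ℕ) : ℕ∞) := by
      refine h2.trans ?_
      push_cast
      exact add_le_add h3 le_rfl
    have h5 : m + 1 ≤ 1 + J.card := by exact_mod_cast h4
    omega
  · obtain ⟨g, hg, i, hi⟩ := Fintype.not_linearIndependent_iff.mp hli
    have hrow : ∀ l j, (M.map (Int.cast : ℤ → ℚ)).row l j = (M l j : ℚ) := fun l j => rfl
    have hc : ∀ j, g 0 * (q j : ℚ) + g 1 * (q' j : ℚ) +
        g 2 * (((Pi.single 0 1 : Fin (m + 2) → ℤ) j : ℤ) : ℚ) = 0 := by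
      intro j
      have h1 := congrFun hg j
      rw [Fin.sum_univ_three] at h1
      simp only [Pi.add_apply, Pi.smul_apply, smul_eq_mul, hrow, hM0, hM1, hM2,
        Pi.zero_apply] at h1
      exact h1
    have hg2 : g 2 = 0 := by
      have h1 := hc 0
      rw [h0, h0', Pi.single_eq_same] at h1
      simpa using h1
    have hc2 : ∀ j, g 0 * (q j : ℚ) + g 1 * (q' j : ℚ) = 0 := by
      intro j
      have h1 := hc j
      rw [hg2, zero_mul, add_zero] at h1
      exact h1
    refine ⟨(g 0).num * (g 1).den, (g 1).num * (g 0).den, ?_, ?_⟩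
    · have hd0 : ((g 0).den : ℤ) ≠ 0 := by exact_mod_cast (g 0).den_ne_zero
      have hd1 : ((g 1).den : ℤ) ≠ 0 := by exact_mod_cast (g 1).den_ne_zero
      fin_cases i
      · exact Or.inl (mul_ne_zero (Rat.num_ne_zero.mpr hi) hd1)
      · exact Or.inr (mul_ne_zero (Rat.num_ne_zero.mpr hi) hd0)
      · exact absurd hg2 hi
    · funext j
      have h1 := hc2 j
      have e0 : ((g 0).num : ℚ) = g 0 * (g 0).den := (Rat.mul_den_eq_num _).symm
      have e1 : ((g 1).num : ℚ) = g 1 * (g 1).den := (Rat.mul_den_eq_num _).symm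
      have h2 : (((((g 0).num * (g 1).den) • q + ((g 1).num * (g 0).den) • q') j : ℤ) : ℚ) =
          0 := by
        simp only [Pi.add_apply, Pi.smul_apply, smul_eq_mul]
        push_cast
        rw [e0, e1]
        linear_combination ((g 0).den : ℚ) * (g 1).den * h1
      have h3 : (((g 0).num * (g 1).den) • q + ((g 1).num * (g 0).den) • q') j = 0 := by
        exact_mod_cast h2
      rw [h3]
      rfl

end XA
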