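import Pool.Agent.Lib.MP_228259_lc.A.FU
import Pool.Agent.Lib.MP_228259_lc.A.MB

/-!
CC: coordinates in which `x_1` is algebraic over `ℂ(x_0)`.

PROOF. Let `Q = {p : Fin (m + 1) → ℤ | li (Fin.cons 0 p) x ∈ cl {x 0}}`, a subgroup (`cl {x 0}` is a field), saturated
(`N • p ∈ Q`, `N ≠ 0` implies `p ∈ Q`). `adapted_basis` (BA.lean) gives unimodular `V, V'` of size `m + 1` and `r` with
`(p V ∈ Q ↔ p i = 0 for i ≥ r)`. As `Q ≠ 0` (`q = Fin.cons 0 p₀`, `p₀ ≠ 0`), `r ≥ 1`, so the first row `V 0 ∈ Q`
(`p = Pi.single 0 1`). Let `U = Matrix.of (Fin.cons (Pi.single 0 1) (fun i => Fin.cons 0 (V i)))` and `U'` the same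
with `V'`: `U' * U = 1 = U * U'` (block matrices). `U 0 = Pi.single 0 1`, `U (i+1) 0 = 0`,
`li (U 1) x = li (Fin.cons 0 (V 0)) x ∈ cl {x 0}`.
The last statement: `(∑ i, b i * U i j)_j` with `U' * U = 1`: if it vanishes for all `j ≠ 0` then, because
`U' j 0 = 0` for `j ≠ 0`, `b l = ∑ j, (∑ i, b i * U i j) * U' j l`, for `l ≠ 0` the term `j = 0` has `U' 0 l = 0`.
-/

set_option autoImplicit false

namespace XA

open MvPolynomial

private theorem cc_mul {m : ℕ} (V W : Matrix (Fin (m + 1)) (Fin (m + 1)) ℤ) (h : W * V = 1) :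
    (Matrix.of (Fin.cons (Pi.single 0 1) (fun i => Fin.cons 0 (W i)) :
      Fin (m + 2) → Fin (m + 2) → ℤ)) *
    (Matrix.of (Fin.cons (Pi.single 0 1) (fun i => Fin.cons 0 (V i)) :
      Fin (m + 2) → Fin (m + 2) → ℤ)) = 1 := by
  ext i j
  rw [Matrix.mul_apply, Fin.sum_univ_succ]
  refine Fin.cases ?_ (fun i => ?_) i
  · simp only [Matrix.of_apply, Fin.cons_zero, Pi.single_eq_same, one_mul]
    have h0 : ∀ k : Fin (m + 1), (Pi.single 0 1 : Fin (m + 2) → ℤ) k.succ = 0 := fun k =>
      Pi.single_eq_of_ne (Fin.succ_ne_zero k) 1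
    simp only [h0, zero_mul, Finset.sum_const_zero, add_zero]
    rw [Matrix.one_apply]
    by_cases hj : j = 0
    · subst hj
      simp
    · rw [Pi.single_eq_of_ne hj, if_neg (fun h => hj h.symm)]
  · simp only [Matrix.of_apply, Fin.cons_succ, Fin.cons_zero, zero_mul, zero_add]
    refine Fin.cases ?_ (fun j => ?_) j
    · simp only [Fin.cons_zero, mul_zero, Finset.sum_const_zero]
      rw [Matrix.one_apply_ne (Fin.succ_ne_zero i)]
    · simp only [Fin.cons_succ]
      have h1 := congrFun (congrFun h i) j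
      rw [Matrix.mul_apply] at h1
      rw [h1, Matrix.one_apply, Matrix.one_apply]
      simp only [Fin.succ_inj]

theorem coord_b3 {F : Type*} [Field F] [Algebra ℂ F] {m : ℕ} (x : Fin (m + 2) → F)
    {q : Fin (m + 2) → ℤ} (h0 : q 0 = 0) (hq : q ≠ 0) (hqx : li q x ∈ cl {x 0}) :
    ∃ U U' : Matrix (Fin (m + 2)) (Fin (m + 2)) ℤ, U' * U = 1 ∧ U * U' = 1 ∧
      U 0 = Pi.single 0 1 ∧ li (U 1) x ∈ cl {x 0} ∧
      ∀ b : Fin (m + 2) → ℤ, (∀ j, j ≠ 0 → ∑ i, b i * U i j = 0) → ∀ j, j ≠ 0 → b j = 0 := by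
  obtain ⟨K, hK⟩ := cl_field {x 0}
  have hmem : ∀ a : F, a ∈ K ↔ a ∈ cl {x 0} := fun a => by rw [← hK]; rfl
  have hli : ∀ p : Fin (m + 1) → ℤ, li (Fin.cons 0 p : Fin (m + 2) → ℤ) x =
      ∑ j, (p j : F) * x j.succ := by
    intro p
    unfold li
    rw [Fin.sum_univ_succ]
    simp
  let Q : AddSubgroup (Fin (m + 1) → ℤ) :=
    { carrier := {p | ∑ j, (p j : F) * x j.succ ∈ K}
      add_mem' := by
        intro a b ha hb
        have h1 := K.add_mem ha hb
        rw [← Finset.sum_add_distrib] at h1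
        show ∑ j, ((a + b) j : F) * x j.succ ∈ K
        convert h1 using 2
        rw [Pi.add_apply]
        push_cast
        ring
      zero_mem' := by
        show ∑ j, (((0 : Fin (m + 1) → ℤ) j : ℤ) : F) * x j.succ ∈ K
        simp only [Pi.zero_apply, Int.cast_zero, zero_mul, Finset.sum_const_zero]
        exact K.zero_mem
      neg_mem' := by
        intro a ha
        have h1 := K.neg_mem ha
        rw [← Finset.sum_neg_distrib] at h1
        show ∑ j, ((-a) j : F) * x j.succ ∈ K
        convert h1 using 2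
        rw [Pi.neg_apply]
        push_cast
        ring }
  have hQ : ∀ p, p ∈ Q ↔ ∑ j, (p j : F) * x j.succ ∈ K := fun p => Iff.rfl
  obtain ⟨V, V', r, h1, h2, hr, hb⟩ := adapted_basis Q (by
    intro c a hc ha
    rw [hQ] at ha ⊢
    have h3 : ∑ j, ((c • a) j : F) * x j.succ = (c : F) * ∑ j, (a j : F) * x j.succ := by
      rw [Finset.mul_sum]
      refine Finset.sum_congr rfl fun j _ => ?_
      rw [Pi.smul_apply, smul_eq_mul]
      push_cast
      ring
    rw [h3] at ha
    have : CharZero F := charZero_of_injective_algebraMap (algebraMap ℂ F).injective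
    have hc' : (c : F) ≠ 0 := Int.cast_ne_zero.2 hc
    have h4 : ((c : F))⁻¹ ∈ K := K.inv_mem (intCast_mem K c)
    have h5 := K.mul_mem h4 ha
    rwa [← mul_assoc, inv_mul_cancel₀ hc', one_mul] at h5)
  have hr0 : 0 < r := by
    rcases Nat.eq_zero_or_pos r with h3 | h3
    · exfalso
      apply hq
      -- `q` is in `Q`
      have h4 : (fun j : Fin (m + 1) => q j.succ) ∈ Q := by
        rw [hQ, hmem]
        have h5 : li q x = ∑ j, (((fun j : Fin (m + 1) => q j.succ) j : ℤ) : F) * x j.succ := by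
          unfold li
          rw [Fin.sum_univ_succ, h0, Int.cast_zero, zero_mul, zero_add]
        rw [← h5]
        exact hqx
      have h5 : (fun j => ∑ i, (∑ l, q l.succ * V' l i) * V i j) =
          (fun j : Fin (m + 1) => q j.succ) := by
        funext j
        have h6 : ∀ l : Fin (m + 1), ∑ i, V' l i * V i j = (1 : Matrix _ _ ℤ) l j := by
          intro l
          rw [← h1, Matrix.mul_apply]
        calc ∑ i, (∑ l, q l.succ * V' l i) * V i j
            = ∑ l, q l.succ * ∑ i, V' l i * V i j := by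
              simp only [Finset.sum_mul, Finset.mul_sum]
              rw [Finset.sum_comm]
              refine Finset.sum_congr rfl fun l _ => Finset.sum_congr rfl fun i _ => ?_
              ring
          _ = q j.succ := by
              simp only [h6, Matrix.one_apply, mul_ite, mul_one, mul_zero]
              rw [Finset.sum_ite_eq' Finset.univ j]
              simp
      rw [← h5, hb] at h4
      funext j
      refine Fin.cases h0 (fun j => ?_) j
      have h7 := congrFun h5 j
      rw [← h7]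
      refine Finset.sum_eq_zero fun i _ => ?_
      rw [h4 i (by rw [h3]; exact Nat.zero_le _), zero_mul]
    · exact h3
  have hV0 : V 0 ∈ Q := by
    have h3 := (hb (Pi.single 0 1)).2 (by
      intro i hi
      refine Pi.single_eq_of_ne ?_ 1
      rintro rfl
      simp at hi
      omega)
    convert h3 using 1
    funext j
    rw [Finset.sum_eq_single 0]
    · simp
    · intro i _ hi
      rw [Pi.single_eq_of_ne hi, zero_mul]
    · intro h
      exact absurd (Finset.mem_univ _) h
  refine ⟨Matrix.of (Fin.cons (Pi.single 0 1) (fun i => Fin.cons 0 (V i)) :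
      Fin (m + 2) → Fin (m + 2) → ℤ), Matrix.of (Fin.cons (Pi.single 0 1)
      (fun i => Fin.cons 0 (V' i)) : Fin (m + 2) → Fin (m + 2) → ℤ), cc_mul V V' h1,
      cc_mul V' V h2, rfl, ?_, ?_⟩
  · have h3 : (Matrix.of (Fin.cons (Pi.single 0 1) (fun i => Fin.cons 0 (V i)) :
      Fin (m + 2) → Fin (m + 2) → ℤ)) 1 = (Fin.cons 0 (V 0) : Fin (m + 2) → ℤ) := rfl
    rw [h3, hli, ← hmem]
    exact hV0
  · intro b hbj j hj
    obtain ⟨l, rfl⟩ := Fin.exists_succ_eq.2 hj
    have h3 : ∀ j : Fin (m + 1), ∑ i, b i.succ * V i j = 0 := by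
      intro j
      have h4 := hbj j.succ (Fin.succ_ne_zero j)
      rw [Fin.sum_univ_succ] at h4
      simp only [Matrix.of_apply, Fin.cons_zero, Fin.cons_succ] at h4
      rw [Pi.single_eq_of_ne (Fin.succ_ne_zero j), mul_zero, zero_add] at h4
      exact h4
    have h5 : b l.succ = ∑ j, (∑ i, b i.succ * V i j) * V' j l := by
      have h6 : ∀ i : Fin (m + 1), ∑ j, V i j * V' j l = (1 : Matrix _ _ ℤ) i l := by
        intro i
        rw [← h2, Matrix.mul_apply]
      calc b l.succ = ∑ i, b i.succ * ∑ j, V i j * V' j l := by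
              simp only [h6, Matrix.one_apply, mul_ite, mul_one, mul_zero]
              rw [Finset.sum_ite_eq' Finset.univ l]
              simp
        _ = ∑ j, (∑ i, b i.succ * V i j) * V' j l := by
              simp only [Finset.sum_mul, Finset.mul_sum]
              rw [Finset.sum_comm]
              refine Finset.sum_congr rfl fun l _ => Finset.sum_congr rfl fun i _ => ?_
              ring
    rw [h5]
    refine Finset.sum_eq_zero fun j _ => ?_
    rw [h3, zero_mul]

end XA
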