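import Pool.Agent.Lib.MP_228259_lc.A.PG0

/-!
PG1: the same for a ring homomorphism `ρ : S → F` which need not be injective.

PROOF. Apply `pres0` to `R = ρ.range` (a subring of the field `F`, so a domain, of characteristic
zero; `Algebra R F` by inclusion), to the images of the polynomials in `halg`; lift all
the coefficients of `δ, χ, A i, U, W` to `S` along the surjection `ρ.rangeRestrict : S → R`
(`Polynomial.map_surjective`; for the monic `χ` use `Polynomial.lifts_and_degree_eq_and_monic` /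
`Polynomial.lifts_and_natDegree_eq_and_monic`). An identity over `R` means that the difference of the lifts
is mapped to `0` by `ρ`. For `quot`: `χ̄ ∣ Ḡ` over `R`, lift the quotient.
-/

namespace XA

/-- a presentation of the family `u` over the ring `S` -/
structure PG {S F : Type*} [CommRing S] [Field F] (ρ : S →+* F) {N : ℕ} (u : Fin N → F)
    (θ : F) (δ : S) (χ : Polynomial S) (A : Fin N → Polynomial S) : Prop where
  ne : ρ δ ≠ 0
  monic : χ.Monic
  pos : 0 < χ.natDegree
  root : χ.eval₂ ρ θ = 0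
  gen : ∀ i, (A i).eval₂ ρ θ = ρ δ * u i
  quot : ∀ G : Polynomial S, G.eval₂ ρ θ = 0 → ∃ Q : Polynomial S, (G - χ * Q).map ρ = 0
  bez : ∃ U W : Polynomial S,
    (U * χ + W * Polynomial.derivative χ - Polynomial.C δ).map ρ = 0

theorem pres1 {S F : Type*} [CommRing S] [Field F] [CharZero F] (ρ : S →+* F) {N : ℕ}
    (u : Fin N → F) (halg : ∀ i, ∃ G : Polynomial S, G.map ρ ≠ 0 ∧ G.eval₂ ρ (u i) = 0) :
    ∃ (θ : F) (δ : S) (χ : Polynomial S) (A : Fin N → Polynomial S), PG ρ u θ δ χ A := by
  have hσ : Function.Surjective ρ.rangeRestrict := ρ.rangeRestrict_surjective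
  have hcomp : (algebraMap ρ.range F).comp ρ.rangeRestrict = ρ := by
    ext x
    rfl
  have hinj : Function.Injective (algebraMap ρ.range F) := Subtype.val_injective
  have hf : FaithfulSMul ρ.range F := (faithfulSMul_iff_algebraMap_injective _ _).2 hinj
  have hc : CharZero ρ.range := (algebraMap ρ.range F).charZero
  have hmap : ∀ G : Polynomial S,
      (G.map ρ.rangeRestrict).map (algebraMap ρ.range F) = G.map ρ := by
    intro G
    rw [Polynomial.map_map, hcomp]
  have hev : ∀ (G : Polynomial S) (x : F),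
      Polynomial.aeval x (G.map ρ.rangeRestrict) = G.eval₂ ρ x := by
    intro G x
    rw [Polynomial.aeval_def, Polynomial.eval₂_map, hcomp]
  have hz : ∀ G : Polynomial S, G.map ρ.rangeRestrict = 0 → G.map ρ = 0 := by
    intro G hG
    rw [← hmap, hG, Polynomial.map_zero]
  have halg' : ∀ i, IsAlgebraic ρ.range (u i) := by
    intro i
    obtain ⟨G, h1, h2⟩ := halg i
    refine ⟨G.map ρ.rangeRestrict, fun h => h1 (hz G h), ?_⟩
    rw [hev, h2]
  obtain ⟨θ, δ', χ', A', U', W', h1, h2, h3, h4, h5, h6, h7⟩ := pres0 u halg'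
  have hs := Polynomial.map_surjective ρ.rangeRestrict hσ
  obtain ⟨δ, rfl⟩ := hσ δ'
  obtain ⟨χ, hχ, hχd, hχm⟩ := Polynomial.lifts_and_natDegree_eq_and_monic
    (f := ρ.rangeRestrict) ((Polynomial.mem_lifts _).2 (hs χ')) h2
  subst hχ
  choose A hA using fun i => hs (A' i)
  obtain ⟨U, rfl⟩ := hs U'
  obtain ⟨W, rfl⟩ := hs W'
  refine ⟨θ, δ, χ, A, ?_, hχm, ?_, ?_, ?_, ?_, ⟨U, W, ?_⟩⟩
  · intro h
    apply h1
    apply hinj
    rw [map_zero]
    exact h
  · rw [hχd]
    exact h3
  · rw [← hev, h4]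
  · intro i
    rw [← hev, hA, h5]
    rfl
  · intro G hG
    rw [← hev] at hG
    obtain ⟨Q', hQ'⟩ := h6 _ hG
    obtain ⟨Q, rfl⟩ := hs Q'
    refine ⟨Q, hz _ ?_⟩
    rw [Polynomial.map_sub, Polynomial.map_mul, hQ', sub_self]
  · apply hz
    rw [Polynomial.map_sub, Polynomial.map_add, Polynomial.map_mul, Polynomial.map_mul,
      ← Polynomial.derivative_map, h7, Polynomial.map_C, sub_self]

end XA
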