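import Pool.Agent.Lib.MP_228259_lc.A.CL2
import Pool.Agent.Lib.MP_228259_lc.A.PG1

/-!
DR: definitions for the reduction of the dimension by specialisation.
-/

namespace XA

open MvPolynomial

/-- every polynomial relation over `ℂ` of the family `v` holds for the family `v'` -/
def IsSpec {F F' : Type*} [Field F] [Algebra ℂ F] [Field F'] [Algebra ℂ F'] {ι : Type*}
    (v : ι → F) (v' : ι → F') : Prop :=
  ∀ f : MvPolynomial ι ℂ, aeval v f = 0 → aeval v' f = 0

/-- the hypotheses on `(x, y)` without conditions on the dimensions -/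
structure FR0 {F : Type*} [Field F] [Algebra ℂ F] {n : ℕ} (x y : Fin n → F) : Prop where
  nz : ∀ j, y j ≠ 0
  af : ∀ m : Fin n → ℤ, m ≠ 0 → ∀ c : ℂ, li m x ≠ algebraMap ℂ F c
  mf : ∀ m : Fin n → ℤ, m ≠ 0 → ∀ c : ℂ, mo m y ≠ algebraMap ℂ F c
  rot : Rot x y

end XA
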