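import Pool.Agent.Lib.MP_228259_lc.A.DF
import Pool.Agent.Lib.MP_228259_lc.A.DR

/-!
CS: the cases for `n ≤ 3`.

PROOF. `rk (range x) ≤ n` (`rk_range_le`) and `1 ≤ rk (range x)`: otherwise `rk (range x) = 0`, and
`x 0 ∈ cl ∅` (`subset_cl_of_rk` with `S = ∅`), so `x 0` is a constant (`cl_empty`) against `af` with
`m = Pi.single 0 1` (`li_single`). If `rk (range x) = n` then `x` is algebraically independent
(`rk_eq_iff`) and `hasExp_dominant` applies. If `rk (range x) = 1`: second alternative. Otherwise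
`1 < rk (range x) < n ≤ 3`, so `n = 3` and `rk (range x) = 2`: `FD x y`.
-/

namespace XA

open MvPolynomial

theorem cases3 {F : Type*} [Field F] [Algebra ℂ F] {n : ℕ} (hn : 0 < n) (hn3 : n ≤ 3)
    {x y : Fin n → F} (h : FR0 x y) (hr : rk (Set.range x ∪ Set.range y) = n) :
    HasExp x y ∨ rk (Set.range x) = 1 ∨ (n = 3 ∧ FD x y) := by
  have h1 : rk (Set.range x) ≤ n := by
    have := rk_range_le x
    rwa [Fintype.card_fin] at this
  obtain ⟨r, hr1⟩ : ∃ r : ℕ, rk (Set.range x) = (r : ℕ∞) := by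
    obtain ⟨r, hr1⟩ := ENat.ne_top_iff_exists.1 (ne_top_of_le_ne_top (ENat.natCast_ne_top n) h1)
    exact ⟨r, hr1.symm⟩
  have h2 : r ≤ n := by
    rw [hr1] at h1
    exact_mod_cast h1
  have h3 : r ≠ 0 := by
    intro h0
    rw [h0] at hr1
    have h4 : Set.range x ⊆ cl (∅ : Set F) :=
      subset_cl_of_rk (Set.empty_subset _) (by rw [hr1]; exact ENat.natCast_ne_top 0)
        (by rw [hr1]; exact bot_le)
    obtain ⟨c, hc⟩ := cl_empty (h4 ⟨⟨0, hn⟩, rfl⟩)
    refine h.af (Pi.single ⟨0, hn⟩ 1) ?_ c ?_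
    · intro h5
      have h6 := congrFun h5 ⟨0, hn⟩
      rw [Pi.single_eq_same] at h6
      exact one_ne_zero h6
    · rw [li_single]
      exact hc
  rcases Nat.lt_or_ge r n with h4 | h4
  · by_cases h5 : r = 1
    · right
      left
      rw [hr1, h5]
      rfl
    · right
      right
      have hn' : n = 3 := by omega
      have hr' : r = 2 := by omega
      refine ⟨hn', h.nz, h.af, h.mf, ?_, hr⟩
      rw [hr1, hr', hn']
      rfl
  · left
    have h5 : r = n := le_antisymm h2 h4
    refine hasExp_dominant h.nz ?_ hr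
    rw [← rk_eq_iff, Fintype.card_fin, hr1, h5]

end XA
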