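import Pool.Agent.Lib.MP_228259_lc.A.DR4

/-!
DR5: reduction to dimension `n`.
-/

namespace XA

open MvPolynomial

theorem hasExp_of_spec {F F' : Type*} [Field F] [Algebra ℂ F] [Field F'] [Algebra ℂ F'] {n : ℕ}
    {x y : Fin n → F} {x' y' : Fin n → F'} (h : IsSpec (Sum.elim x y) (Sum.elim x' y'))
    (h' : HasExp x' y') : HasExp x y := by
  obtain ⟨z, hz, hz0⟩ := h'
  exact ⟨z, fun f hf => hz f (h f hf), hz0⟩

private theorem dr5_le_rk {F : Type*} [Field F] [Algebra ℂ F] {n : ℕ} {x y : Fin n → F}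
    (h : Rot x y) : (n : ℕ∞) ≤ rk (Set.range x ∪ Set.range y) := by
  rcases Nat.eq_zero_or_pos n with hn | hn
  · subst hn
    simp
  have h1 := h n 1 hn le_rfl
  have h2 : (fun i => li ((1 : Matrix (Fin n) (Fin n) ℤ) i) x) = x := by
    funext i
    have : (1 : Matrix (Fin n) (Fin n) ℤ) i = Pi.single i 1 := by
      funext j
      rw [Matrix.one_apply, Pi.single_apply]
      simp only [eq_comm]
    rw [this, li_single]
  have h3 : (fun i => mo ((1 : Matrix (Fin n) (Fin n) ℤ) i) y) = y := by
    funext i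
    have : (1 : Matrix (Fin n) (Fin n) ℤ) i = Pi.single i 1 := by
      funext j
      rw [Matrix.one_apply, Pi.single_apply]
      simp only [eq_comm]
    rw [this, mo_single]
  rw [h2, h3] at h1
  have h4 : ((1 : Matrix (Fin n) (Fin n) ℤ).map (Int.cast : ℤ → ℚ)).rank = n := by
    have : ((1 : Matrix (Fin n) (Fin n) ℤ).map (Int.cast : ℤ → ℚ)) = 1 := by
      rw [Matrix.map_one _ Int.cast_zero Int.cast_one]
    rw [this, Matrix.rank_one, Fintype.card_fin]
  rw [h4] at h1
  exact h1

/-- a specialisation does not increase the rank -/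
theorem rk_le_of_spec {F F' : Type*} [Field F] [Algebra ℂ F] [Field F'] [Algebra ℂ F'] {ι : Type*}
    {u : ι → F} {v : ι → F'} (h : IsSpec u v) : rk (Set.range v) ≤ rk (Set.range u) := by
  obtain ⟨I, hI⟩ := (AlgebraicIndependent.matroid ℂ F').exists_isBasis (Set.range v)
    (by rw [AlgebraicIndependent.matroid_e]; exact Set.subset_univ _)
  have h1 : ∀ a : I, ∃ i, v i = a := fun a => hI.subset a.2
  choose e he using h1
  have hinj : Function.Injective e := by
    intro a b hab
    apply Subtype.ext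
    rw [← he a, ← he b, hab]
  have hv : AlgebraicIndependent ℂ (fun a : I => v (e a)) := by
    have h2 : (fun a : I => v (e a)) = (fun a : I => (a : F')) := funext he
    rw [h2]
    exact AlgebraicIndependent.matroid_indep_iff.1 hI.indep
  have hu : AlgebraicIndependent ℂ (fun a : I => u (e a)) := by
    rw [algebraicIndependent_iff]
    intro g hg
    have h2 : aeval u (rename e g) = 0 := by
      rw [aeval_rename]
      exact hg
    have h3 := h _ h2
    rw [aeval_rename] at h3
    exact hv.eq_zero_of_aeval_eq_zero g h3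
  have h4 : (AlgebraicIndependent.matroid ℂ F).Indep (Set.range fun a : I => u (e a)) :=
    AlgebraicIndependent.matroid_indep_iff.2 ((algebraicIndependent_subtype_range hu.injective).2 hu)
  calc rk (Set.range v) = I.encard := hI.encard_eq_eRk.symm
    _ = (Set.range fun a : I => u (e a)).encard := by
        rw [← Set.image_univ, hu.injective.encard_image, Set.encard_univ]
        rfl
    _ = rk (Set.range fun a : I => u (e a)) := h4.eRk_eq_encard.symm
    _ ≤ rk (Set.range u) := rk_mono fun a ha => by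
        obtain ⟨i, rfl⟩ := ha
        exact subset_cl _ ⟨e i, rfl⟩

theorem IsSpec.comp {F F' : Type*} [Field F] [Algebra ℂ F] [Field F'] [Algebra ℂ F'] {ι κ : Type*}
    {u : ι → F} {v : ι → F'} (h : IsSpec u v) (e : κ → ι) : IsSpec (u ∘ e) (v ∘ e) := by
  intro f hf
  rw [← aeval_rename] at hf ⊢
  exact h _ hf

private theorem dr5_ind (n : ℕ) (m : ℕ) : ∀ (F : Type) (_ : Field F) (_ : Algebra ℂ F)
    (x y : Fin n → F), FR0 x y → rk (Set.range x ∪ Set.range y) ≤ (m : ℕ∞) →
    ∃ (K : Type) (_ : Field K) (_ : Algebra ℂ K) (x' y' : Fin n → K), FR0 x' y' ∧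
      rk (Set.range x' ∪ Set.range y') = n ∧ IsSpec (Sum.elim x y) (Sum.elim x' y') ∧
      rk (Set.range x) ≤ rk (Set.range x') ∧ (rk (Set.range x) + 1 ≤ n → ∀ b : Fin n → ℤ,
        rk (insert (mo b y) (Set.range x)) ≤ rk (insert (mo b y') (Set.range x'))) := by
  induction m with
  | zero =>
    intro F _ _ x y h hm
    refine ⟨F, inferInstance, inferInstance, x, y, h, ?_, fun f hf => hf, le_rfl,
      fun _ _ => le_rfl⟩
    refine le_antisymm ?_ (dr5_le_rk h.rot)
    exact hm.trans (by exact_mod_cast Nat.zero_le n)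
  | succ m ih =>
    intro F _ _ x y h hm
    rcases eq_or_lt_of_le (dr5_le_rk h.rot) with h1 | h1
    · exact ⟨F, inferInstance, inferInstance, x, y, h, h1.symm, fun f hf => hf, le_rfl,
        fun _ _ => le_rfl⟩
    · obtain ⟨K, hK1, hK2, x', y', h', hs, hrx, hmo, hlt⟩ := dim_step h h1
      have h2 : rk (Set.range x' ∪ Set.range y') ≤ (m : ℕ∞) := by
        have h3 : rk (Set.range x' ∪ Set.range y') < (m : ℕ∞) + 1 := by
          refine lt_of_lt_of_le hlt ?_
          exact_mod_cast hm
        exact (ENat.lt_add_one_iff (ENat.natCast_ne_top m)).1 h3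
      obtain ⟨L, hL1, hL2, x'', y'', h'', hr, hs', hrx', hmo'⟩ := ih K hK1 hK2 x' y' h' h2
      refine ⟨L, hL1, hL2, x'', y'', h'', hr, fun f hf => hs' f (hs f hf), hrx.trans hrx', ?_⟩
      intro hn b
      have hsx : IsSpec x x' := hs.comp Sum.inl
      have h3 : rk (Set.range x') ≤ rk (Set.range x) := rk_le_of_spec hsx
      have h4 : rk (insert (mo b y) (Set.range x)) ≤ n :=
        ((AlgebraicIndependent.matroid ℂ F).eRk_insert_le_add_one _ _).trans hn
      refine (hmo b h4).trans (hmo' ?_ b)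
      exact (add_le_add_left h3 1).trans hn

/-- reduction to dimension `n` with all relations and the rank of `x` -/
theorem dim_reduction_spec {F : Type} [Field F] [Algebra ℂ F] {n : ℕ} {x y : Fin n → F}
    (h : FR0 x y) :
    ∃ (K : Type) (_ : Field K) (_ : Algebra ℂ K) (x' y' : Fin n → K), FR0 x' y' ∧
      rk (Set.range x' ∪ Set.range y') = n ∧ IsSpec (Sum.elim x y) (Sum.elim x' y') ∧
      rk (Set.range x) ≤ rk (Set.range x') ∧ (rk (Set.range x) + 1 ≤ n → ∀ b : Fin n → ℤ,
        rk (insert (mo b y) (Set.range x)) ≤ rk (insert (mo b y') (Set.range x'))) := by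
  have h0 : rk (Set.range x ∪ Set.range y) ≤ ((Fintype.card (Fin n ⊕ Fin n) : ℕ) : ℕ∞) := by
    rw [← Set.Sum.elim_range]
    exact rk_range_le (Sum.elim x y)
  exact dr5_ind n _ F inferInstance inferInstance x y h h0

theorem dim_reduction {F : Type} [Field F] [Algebra ℂ F] {n : ℕ} {x y : Fin n → F}
    (h : FR0 x y) :
    ∃ (K : Type) (_ : Field K) (_ : Algebra ℂ K) (x' y' : Fin n → K), FR0 x' y' ∧
      rk (Set.range x' ∪ Set.range y') = n ∧ (HasExp x' y' → HasExp x y) := by
  obtain ⟨K, hK1, hK2, x', y', h', hr, hs, -, -⟩ := dim_reduction_spec h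
  exact ⟨K, hK1, hK2, x', y', h', hr, fun he => hasExp_of_spec hs he⟩

end XA
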