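import Pool.Agent.Lib.MP_228259_lc.Defs
import Pool.Agent.Lib.MP_228259_lc.P13b

/-!
ND: the top form is nondegenerate or does not depend on the last coordinates.

PROOF. Let `T = homogeneousComponent P.totalDegree P`, `T ≠ 0`. Suppose the second alternative
fails: `pderiv i T ≠ 0` for some `i ≥ r`. Some irreducible factor `H` of `T` has `pderiv i H ≠ 0`
(otherwise `pderiv i` vanishes on all irreducible factors and on units, so on their product `T`:
`UniqueFactorizationMonoid.induction_on_prime` or
`WfDvdMonoid.induction_on_irreducible`, `Derivation.leibniz`). Let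
`W = {q : Fin n → ℚ | dirD (qc q) H = 0}`, a `ℚ`-subspace (`dirD` is additive and homogeneous in
the vector); `e_i ∉ W` since `dirD (qc e_i) H = pderiv i H`. So there is a linear form `φ` on `ℚⁿ`
vanishing on `W` with `φ(e_i) ≠ 0` (`Submodule.exists_le_ker_of_notMem` or
`Submodule.exists_dual_map_eq_bot_of_notMem`); multiply with a common denominator of the `φ(e_j)`: `a j = N φ(e_j) ∈ ℤ`
(`XW.primitive_vec` in P13b.lean may help).
-/

namespace XA

open MvPolynomial XW

private theorem xaND_factor {n : ℕ} {T : MvPolynomial (Fin n) ℂ} (hT : T ≠ 0) (i : Fin n)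
    (h : pderiv i T ≠ 0) :
    ∃ H : MvPolynomial (Fin n) ℂ, Irreducible H ∧ H ∣ T ∧ pderiv i H ≠ 0 := by
  by_contra hc
  push Not at hc
  obtain ⟨f, hf, u, hu⟩ := WfDvdMonoid.exists_factors T hT
  have h1 : ∀ g : Multiset (MvPolynomial (Fin n) ℂ), (∀ b ∈ g, pderiv i b = 0) →
      pderiv i g.prod = 0 := by
    intro g
    induction g using Multiset.induction_on with
    | empty =>
      intro _
      rw [Multiset.prod_zero, pderiv_one]
    | cons a g ih =>
      intro hg
      rw [Multiset.prod_cons, pderiv_mul, hg a (Multiset.mem_cons_self a g),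
        ih fun b hb => hg b (Multiset.mem_cons_of_mem hb), zero_mul, mul_zero, add_zero]
  have h2 : pderiv i f.prod = 0 := by
    refine h1 f fun b hb => hc b (hf b hb) ?_
    exact (Multiset.dvd_prod hb).trans (Dvd.intro _ hu)
  obtain ⟨c, _, hcu⟩ := isUnit_iff_eq_C_of_isReduced.1 u.isUnit
  apply h
  rw [← hu, pderiv_mul, h2, hcu, pderiv_C, zero_mul, mul_zero, add_zero]

private theorem xaND_dirD_add {n : ℕ} (p q : Fin n → ℚ) (H : MvPolynomial (Fin n) ℂ) :
    dirD (qc (p + q)) H = dirD (qc p) H + dirD (qc q) H := by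
  unfold dirD qc
  rw [← Finset.sum_add_distrib]
  refine Finset.sum_congr rfl fun j _ => ?_
  rw [Pi.add_apply, Rat.cast_add, C_add, add_mul]

private theorem xaND_dirD_smul {n : ℕ} (c : ℚ) (q : Fin n → ℚ) (H : MvPolynomial (Fin n) ℂ) :
    dirD (qc (c • q)) H = C (c : ℂ) * dirD (qc q) H := by
  unfold dirD qc
  rw [Finset.mul_sum]
  refine Finset.sum_congr rfl fun j _ => ?_
  rw [Pi.smul_apply, smul_eq_mul, Rat.cast_mul, C_mul, mul_assoc]

private def xaND_W {n : ℕ} (H : MvPolynomial (Fin n) ℂ) : Submodule ℚ (Fin n → ℚ) where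
  carrier := {q | dirD (qc q) H = 0}
  add_mem' := by
    intro p q hp hq
    rw [Set.mem_ofPred_eq] at hp hq ⊢
    rw [xaND_dirD_add, hp, hq, add_zero]
  zero_mem' := by
    rw [Set.mem_ofPred_eq]
    have h := xaND_dirD_smul 0 (0 : Fin n → ℚ) H
    rwa [smul_zero, Rat.cast_zero, C_0, zero_mul] at h
  smul_mem' := by
    intro c q hq
    rw [Set.mem_ofPred_eq] at hq ⊢
    rw [xaND_dirD_smul, hq, mul_zero]

private theorem xaND_single {n : ℕ} (i : Fin n) (H : MvPolynomial (Fin n) ℂ) :
    dirD (qc (Pi.single i 1)) H = pderiv i H := by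
  unfold dirD qc
  rw [Finset.sum_eq_single i]
  · rw [Pi.single_eq_same, Rat.cast_one, C_1, one_mul]
  · intro j _ hj
    rw [Pi.single_eq_of_ne hj, Rat.cast_zero, C_0, zero_mul]
  · intro h
    exact absurd (Finset.mem_univ i) h

theorem nondeg_or {n : ℕ} (P : MvPolynomial (Fin n) ℂ) (hP : P ≠ 0) (r : ℕ) :
    (∃ H : MvPolynomial (Fin n) ℂ, Irreducible H ∧ H ∣ homogeneousComponent P.totalDegree P ∧
      ∃ a : Fin n → ℤ, (∀ q : Fin n → ℚ, dirD (qc q) H = 0 → ∑ j, (a j : ℚ) * q j = 0) ∧
        ∃ i : Fin n, r ≤ (i : ℕ) ∧ a i ≠ 0) ∨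
    ∀ i : Fin n, r ≤ (i : ℕ) → pderiv i (homogeneousComponent P.totalDegree P) = 0 := by
  by_cases hall : ∀ i : Fin n, r ≤ (i : ℕ) →
      pderiv i (homogeneousComponent P.totalDegree P) = 0
  · exact Or.inr hall
  left
  push Not at hall
  obtain ⟨i, hi, hne⟩ := hall
  have hT : homogeneousComponent P.totalDegree P ≠ 0 := by
    intro h
    apply hne
    rw [h, map_zero]
  obtain ⟨H, hH, hd, hpd⟩ := xaND_factor hT i hne
  refine ⟨H, hH, hd, ?_⟩
  have hi' : (Pi.single i 1 : Fin n → ℚ) ∉ xaND_W H := by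
    intro h
    apply hpd
    rw [← xaND_single]
    exact h
  obtain ⟨φ, hφ, hker⟩ := Submodule.exists_le_ker_of_notMem hi'
  have hq : (fun j => φ (Pi.single j 1)) ≠ 0 := by
    intro h
    exact hφ (congrFun h i)
  obtain ⟨a, q₀, _, hq₀, ha, _⟩ := primitive_vec (fun j => φ (Pi.single j 1)) hq
  refine ⟨a, ?_, i, hi, ?_⟩
  · intro q hq
    have h1 : φ q = 0 := hker hq
    have h2 : φ q = ∑ j, q j * φ (Pi.single j 1) := by
      conv_lhs => rw [← Finset.univ_sum_single q]
      rw [map_sum]
      refine Finset.sum_congr rfl fun j _ => ?_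
      have h3 : (Pi.single j (q j) : Fin n → ℚ) = q j • Pi.single j 1 := by
        rw [← Pi.single_smul, smul_eq_mul, mul_one]
      rw [h3, map_smul, smul_eq_mul]
    have h3 : ∑ j, (a j : ℚ) * q j = q₀ * φ q := by
      rw [h2, Finset.mul_sum]
      refine Finset.sum_congr rfl fun j _ => ?_
      rw [ha j]
      ring
    rw [h3, h1, mul_zero]
  · intro h
    have h1 := ha i
    rw [h, Int.cast_zero] at h1
    rcases mul_eq_zero.1 h1.symm with h2 | h2
    · exact hq₀ h2
    · exact hφ h2

/-- a form in three variables which depends on the first variable only -/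
theorem top_pow {P : MvPolynomial (Fin 3) ℂ} (hP : P ≠ 0)
    (h : ∀ i : Fin 3, 1 ≤ (i : ℕ) → pderiv i (homogeneousComponent P.totalDegree P) = 0) :
    ∃ c : ℂ, c ≠ 0 ∧ homogeneousComponent P.totalDegree P = C c * X 0 ^ P.totalDegree := by
  have hT : homogeneousComponent P.totalDegree P ≠ 0 := by
    have hs : P.support.Nonempty := by
      rw [Finset.nonempty_iff_ne_empty]
      intro h
      exact hP (MvPolynomial.support_eq_empty.1 h)
    obtain ⟨m, hm, hm2⟩ := Finset.exists_mem_eq_sup P.support hs (fun s => s.sum fun _ e => e)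
    intro h
    have h1 : coeff m (homogeneousComponent P.totalDegree P) = coeff m P := by
      rw [coeff_homogeneousComponent, if_pos]
      rw [totalDegree, hm2]
      rfl
    rw [h, coeff_zero] at h1
    exact (mem_support_iff.mp hm) h1.symm
  obtain ⟨T, hTd⟩ : ∃ T, T = homogeneousComponent P.totalDegree P := ⟨_, rfl⟩
  obtain ⟨d, hd⟩ : ∃ d, d = P.totalDegree := ⟨_, rfl⟩
  have hhom : T.IsHomogeneous d := by
    rw [hTd, hd]
    exact homogeneousComponent_isHomogeneous _ P
  rw [← hTd] at hT h ⊢
  rw [← hd]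
  have hz : ∀ m : Fin 3 →₀ ℕ, coeff m T ≠ 0 → m = Finsupp.single 0 d := by
    intro m hm
    have h0 : ∀ i : Fin 3, 1 ≤ (i : ℕ) → m i = 0 := by
      intro i hi
      by_contra hne
      have h1 := congrArg (coeff (m - Finsupp.single i 1)) (h i hi)
      rw [coeff_pderiv, coeff_zero] at h1
      have h2 : m - Finsupp.single i 1 + Finsupp.single i 1 = m := by
        ext j
        rw [Finsupp.add_apply, Finsupp.tsub_apply]
        by_cases hj : i = j
        · subst hj
          rw [Finsupp.single_eq_same]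
          omega
        · rw [Finsupp.single_eq_of_ne (Ne.symm hj)]
          rfl
      rw [h2] at h1
      rcases mul_eq_zero.mp h1 with h3 | h3
      · exact hm h3
      · exact Nat.cast_add_one_ne_zero _ h3
    have hdeg : m.degree = d := by
      have hw := hhom hm
      have he : Finsupp.degree m = Finsupp.weight 1 m := by
        rw [Finsupp.degree_eq_weight_one]
        rfl
      rw [he]
      exact hw
    have h1 := h0 1 (by decide)
    have h2 := h0 2 (by decide)
    have h3 : m 0 = d := by
      rw [← hdeg, Finsupp.degree_eq_sum, Fin.sum_univ_three, h1, h2]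
      rfl
    ext j
    fin_cases j
    · simpa using h3
    · simpa using h1
    · simpa using h2
  refine ⟨coeff (Finsupp.single 0 d) T, ?_, ?_⟩
  · intro h0
    apply hT
    ext m
    rw [coeff_zero]
    by_contra hm
    rw [hz m hm] at hm
    exact hm h0
  · ext m
    rw [C_mul_X_pow_eq_monomial, coeff_monomial]
    split_ifs with hm
    · rw [hm]
    · by_contra hne
      exact hm (hz m hne).symm

end XA
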