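import Pool.Agent.Lib.MP_228259_lc.A.CL2

/-!
CLI: the closure operator under embeddings of fields.

PROOF. `φ` is injective. `φ` maps `Algebra.adjoin ℂ S` onto `Algebra.adjoin ℂ (φ '' S)`
(`AlgHom.map_adjoin`). If `p` is a non-zero polynomial over `adjoin ℂ S` with `aeval a p = 0`, its image
under the isomorphism is a non-zero polynomial over `adjoin ℂ (φ '' S)` killing `φ a`, and conversely
(e.g. write both conditions with polynomials over the big rings: `a ∈ cl S` iff there is a non-zero
`G : Polynomial L` with all coefficients in `adjoin ℂ S` and `G.eval a = 0`; `Polynomial.map`,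
`Polynomial.lifts_iff_coeff_lifts`; for the converse choose preimages of the coefficients).
`indep_coe`: `AlgebraicIndependent.of_comp` or `algebraicIndependent_iff` and
`aeval (φ ∘ v) f = φ (aeval v f)` (`MvPolynomial.comp_aeval_apply`).
-/

set_option autoImplicit false

namespace XA

open MvPolynomial

private theorem cliIff {L : Type*} [Field L] [Algebra ℂ L] (S : Set L) (a : L) :
    a ∈ cl S ↔ ∃ G : Polynomial L, G ≠ 0 ∧ (∀ i, G.coeff i ∈ Algebra.adjoin ℂ S) ∧
      G.eval a = 0 := by
  constructor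
  · rintro ⟨q, hq, hqa⟩
    refine ⟨q.map (algebraMap (Algebra.adjoin ℂ S) L), ?_, ?_, ?_⟩
    · rwa [Ne, Polynomial.map_eq_zero_iff]
      exact Subtype.val_injective
    · intro i
      rw [Polynomial.coeff_map]
      exact (q.coeff i).2
    · rw [Polynomial.eval_map]
      exact hqa
  · rintro ⟨G, hG, hc, ha⟩
    exact cl_root S G hG (fun i => cl_mono subset_rfl (isAlgebraic_algebraMap
      (⟨G.coeff i, hc i⟩ : Algebra.adjoin ℂ S))) a ha

theorem cl_map {L F : Type*} [Field L] [Algebra ℂ L] [Field F] [Algebra ℂ F] (φ : L →ₐ[ℂ] F)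
    (S : Set L) (a : L) : φ a ∈ cl (φ '' S) ↔ a ∈ cl S := by
  have hφ : Function.Injective φ := φ.injective
  have hmap : Algebra.adjoin ℂ (φ '' S) = (Algebra.adjoin ℂ S).map φ :=
    (AlgHom.map_adjoin φ S).symm
  rw [cliIff, cliIff]
  constructor
  · rintro ⟨G, hG, hc, ha⟩
    have h1 : G ∈ Polynomial.lifts ((φ : L →+* F).comp (algebraMap (Algebra.adjoin ℂ S) L)) := by
      rw [Polynomial.lifts_iff_coeff_lifts]
      intro n
      have h2 := hc n
      rw [hmap, Subalgebra.mem_map] at h2
      obtain ⟨x, hx, hx'⟩ := h2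
      exact ⟨⟨x, hx⟩, hx'⟩
    obtain ⟨q, hq⟩ := (Polynomial.mem_lifts G).1 h1
    refine ⟨q.map (algebraMap (Algebra.adjoin ℂ S) L), ?_, ?_, ?_⟩
    · intro h0
      apply hG
      rw [← hq, ← Polynomial.map_map, h0, Polynomial.map_zero]
    · intro i
      rw [Polynomial.coeff_map]
      exact (q.coeff i).2
    · apply hφ
      rw [map_zero, ← ha, ← hq, ← Polynomial.map_map]
      exact (Polynomial.eval_map_apply (φ : L →+* F) a).symm
  · rintro ⟨G, hG, hc, ha⟩
    refine ⟨G.map (φ : L →+* F), ?_, ?_, ?_⟩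
    · rwa [Ne, Polynomial.map_eq_zero_iff]
      exact hφ
    · intro i
      rw [Polynomial.coeff_map, hmap, Subalgebra.mem_map]
      exact ⟨G.coeff i, hc i, rfl⟩
    · have h3 := Polynomial.eval_map_apply (p := G) (φ : L →+* F) a
      exact h3.trans (by rw [ha, map_zero])

theorem indep_map {L F : Type*} [Field L] [Algebra ℂ L] [Field F] [Algebra ℂ F] (φ : L →ₐ[ℂ] F)
    {ι : Type*} (v : ι → L) :
    AlgebraicIndependent ℂ (fun i => φ (v i)) ↔ AlgebraicIndependent ℂ v :=
  φ.algebraicIndependent_iff φ.injective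

end XA
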