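import Pool.Agent.Lib.MP_228259_lc.A.CL2

/-!
EM: embeddings into algebraically closed fields and extension of homomorphisms along integral
extensions.
-/

set_option autoImplicit false

namespace XA

open MvPolynomial

/-- a field algebraic over `ℂ(b)`, `b` algebraically independent, embeds into every algebraically
closed field containing an algebraically independent family `β` of the same size, with `b ↦ β` -/
theorem exists_embedding {L K ι : Type*} [Field L] [Algebra ℂ L] [Field K] [Algebra ℂ K]
    [IsAlgClosed K] {b : ι → L} (hb : AlgebraicIndependent ℂ b)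
    (halg : ∀ a : L, a ∈ cl (Set.range b)) {β : ι → K} (hβ : AlgebraicIndependent ℂ β) :
    ∃ φ : L →ₐ[ℂ] K, ∀ i, φ (b i) = β i := by
  let R := MvPolynomial ι ℂ
  let algL : Algebra R L := (aeval b : MvPolynomial ι ℂ →ₐ[ℂ] L).toRingHom.toAlgebra
  let algK : Algebra R K := (aeval β : MvPolynomial ι ℂ →ₐ[ℂ] K).toRingHom.toAlgebra
  have hL : ∀ r : R, algebraMap R L r = aeval b r := fun r => rfl
  have hK : ∀ r : R, algebraMap R K r = aeval β r := fun r => rfl
  have hLinj : Function.Injective (algebraMap R L) := hb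
  have hKinj : Function.Injective (algebraMap R K) := hβ
  have : FaithfulSMul R L := (faithfulSMul_iff_algebraMap_injective R L).2 hLinj
  have : FaithfulSMul R K := (faithfulSMul_iff_algebraMap_injective R K).2 hKinj
  have hal : Algebra.IsAlgebraic R L := by
    refine ⟨fun a => ?_⟩
    have h1 : IsAlgebraic (Algebra.adjoin ℂ (Set.range b)) a := halg a
    obtain ⟨p, hp, hpa⟩ := h1
    have hsurj : Function.Surjective ((aeval b : MvPolynomial ι ℂ →ₐ[ℂ] L).toRingHom.codRestrict
        (Algebra.adjoin ℂ (Set.range b)).toSubring (fun r => by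
          rw [Algebra.adjoin_range_eq_range_aeval]
          exact ⟨r, rfl⟩)) := by
      rintro ⟨c, hc⟩
      have hc' := hc
      rw [Algebra.adjoin_range_eq_range_aeval] at hc'
      obtain ⟨r, hr⟩ := hc'
      exact ⟨r, Subtype.ext hr⟩
    obtain ⟨q, hq⟩ := Polynomial.map_surjective _ hsurj p
    refine ⟨q, ?_, ?_⟩
    · rintro rfl
      apply hp
      rw [← hq, Polynomial.map_zero]
    · rw [Polynomial.aeval_def] at hpa ⊢
      rw [← hq, Polynomial.eval₂_map] at hpa
      exact hpa
  let φ : L →ₐ[R] K := IsAlgClosed.lift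
  have hφ : ∀ r : R, φ (aeval b r) = aeval β r := fun r => φ.commutes r
  refine ⟨{ φ.toRingHom with commutes' := fun c => ?_ }, fun i => ?_⟩
  · have h1 := hφ (C c)
    rw [aeval_C, aeval_C] at h1
    exact h1
  · have h1 := hφ (X i)
    rw [aeval_X, aeval_X] at h1
    exact h1

private theorem extend_dom {A B K : Type*} [CommRing A] [IsDomain A] [CommRing B] [IsDomain B]
    [Algebra A B] (hinj : Function.Injective (algebraMap A B)) [Algebra.IsAlgebraic A B] [Field K]
    [IsAlgClosed K] (φ : A →+* K) (hφ : Function.Injective φ) :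
    ∃ ψ : B →+* K, ∀ a, ψ (algebraMap A B a) = φ a := by
  let algK : Algebra A K := φ.toAlgebra
  have h1 : FaithfulSMul A B := (faithfulSMul_iff_algebraMap_injective A B).2 hinj
  have h2 : FaithfulSMul A K := (faithfulSMul_iff_algebraMap_injective A K).2 hφ
  let ψ : B →ₐ[A] K := IsAlgClosed.lift
  exact ⟨ψ.toRingHom, fun a => ψ.commutes a⟩

/-- a homomorphism into an algebraically closed field extends along an injective integral
extension -/
theorem extend_integral {A B K : Type*} [CommRing A] [CommRing B] [Algebra A B]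
    [Algebra.IsIntegral A B] (hinj : Function.Injective (algebraMap A B)) [Field K] [IsAlgClosed K]
    (φ : A →+* K) : ∃ ψ : B →+* K, ∀ a, ψ (algebraMap A B a) = φ a := by
  set P : Ideal A := RingHom.ker φ with hP
  have hPp : P.IsPrime := RingHom.ker_isPrime φ
  obtain ⟨Q, -, hQ, hQP⟩ := Ideal.exists_ideal_over_prime_of_isIntegral (R := A) (S := B) P ⊥ (by
    rw [← RingHom.ker_eq_comap_bot, (RingHom.injective_iff_ker_eq_bot _).1 hinj]
    exact bot_le)
  have hA : IsDomain (A ⧸ P) := Ideal.Quotient.isDomain P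
  have hB : IsDomain (B ⧸ Q) := Ideal.Quotient.isDomain Q
  let i : A ⧸ P →+* B ⧸ Q := Ideal.quotientMap Q (algebraMap A B) (by rw [hQP])
  have hi : Function.Injective i := Ideal.quotientMap_injective' (by rw [hQP])
  let algAB : Algebra (A ⧸ P) (B ⧸ Q) := i.toAlgebra
  let φ' : A ⧸ P →+* K := Ideal.Quotient.lift P φ (fun a ha => ha)
  have hφ' : Function.Injective φ' := RingHom.lift_injective_of_ker_le_ideal P _ (by
    rw [hP])
  have halg : Algebra.IsAlgebraic (A ⧸ P) (B ⧸ Q) := by
    refine ⟨fun b => ?_⟩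
    obtain ⟨b, rfl⟩ := Ideal.Quotient.mk_surjective b
    obtain ⟨p, hp, hpb⟩ := Algebra.IsIntegral.isIntegral (R := A) b
    refine ⟨p.map (Ideal.Quotient.mk P), (hp.map _).ne_zero, ?_⟩
    rw [Polynomial.aeval_def, Polynomial.eval₂_map]
    have h1 : (algebraMap (A ⧸ P) (B ⧸ Q)).comp (Ideal.Quotient.mk P) =
        (Ideal.Quotient.mk Q).comp (algebraMap A B) := by
      ext a
      rfl
    rw [h1, ← Polynomial.hom_eval₂, hpb, map_zero]
  obtain ⟨ψ, hψ⟩ := extend_dom hi φ' hφ'
  exact ⟨ψ.comp (Ideal.Quotient.mk Q), fun a => hψ (Ideal.Quotient.mk P a)⟩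

end XA
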