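import Pool.Agent.Lib.MP_228259_lc.A.CL

/-!
CL2: monomials, linear forms and `cl`.
-/

namespace XA

open MvPolynomial

variable {F : Type*} [Field F] [Algebra ℂ F] {n : ℕ}

theorem mo_ne_zero {y : Fin n → F} (hy : ∀ j, y j ≠ 0) (b : Fin n → ℤ) : mo b y ≠ 0 := by
  unfold mo
  exact Finset.prod_ne_zero_iff.2 fun j _ => zpow_ne_zero _ (hy j)

theorem mo_add {y : Fin n → F} (hy : ∀ j, y j ≠ 0) (b c : Fin n → ℤ) :
    mo (b + c) y = mo b y * mo c y := by
  unfold mo
  rw [← Finset.prod_mul_distrib]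
  exact Finset.prod_congr rfl fun j _ => by rw [Pi.add_apply, zpow_add₀ (hy j)]

theorem mo_smul {y : Fin n → F} (b : Fin n → ℤ) (m : ℤ) :
    mo (m • b) y = mo b y ^ m := by
  unfold mo
  rw [← Finset.prod_zpow]
  exact Finset.prod_congr rfl fun j _ => by
    rw [Pi.smul_apply, smul_eq_mul, mul_comm, zpow_mul]

theorem mo_single (y : Fin n → F) (j : Fin n) : mo (Pi.single j 1) y = y j := by
  unfold mo
  rw [Finset.prod_eq_single j]
  · rw [Pi.single_eq_same, zpow_one]
  · intro i _ hi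
    rw [Pi.single_eq_of_ne hi, zpow_zero]
  · intro h
    exact absurd (Finset.mem_univ j) h

theorem li_single (x : Fin n → F) (j : Fin n) : li (Pi.single j 1) x = x j := by
  unfold li
  rw [Finset.sum_eq_single j]
  · rw [Pi.single_eq_same, Int.cast_one, one_mul]
  · intro i _ hi
    rw [Pi.single_eq_of_ne hi, Int.cast_zero, zero_mul]
  · intro h
    exact absurd (Finset.mem_univ j) h

theorem mo_mo {k : ℕ} {y : Fin n → F} (hy : ∀ j, y j ≠ 0) (M : Matrix (Fin k) (Fin n) ℤ)
    (b : Fin k → ℤ) :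
    mo b (fun i => mo (M i) y) = mo (fun j => ∑ i, b i * M i j) y := by
  unfold mo
  have h1 : ∀ i, (∏ j, y j ^ M i j) ^ b i = ∏ j, y j ^ (b i * M i j) := by
    intro i
    rw [← Finset.prod_zpow]
    exact Finset.prod_congr rfl fun j _ => by rw [mul_comm, zpow_mul]
  rw [Finset.prod_congr rfl fun i _ => h1 i, Finset.prod_comm]
  refine Finset.prod_congr rfl fun j _ => ?_
  have h2 : ∀ s : Finset (Fin k), ∏ i ∈ s, y j ^ (b i * M i j) = y j ^ (∑ i ∈ s, b i * M i j) := by
    intro s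
    classical
    induction s using Finset.induction_on with
    | empty => simp
    | insert a s ha ih => rw [Finset.prod_insert ha, Finset.sum_insert ha, ih, zpow_add₀ (hy j)]
  exact h2 Finset.univ

theorem li_li {k : ℕ} (x : Fin n → F) (M : Matrix (Fin k) (Fin n) ℤ) (b : Fin k → ℤ) :
    li b (fun i => li (M i) x) = li (fun j => ∑ i, b i * M i j) x := by
  unfold li
  have h1 : ∀ i, (b i : F) * ∑ j, (M i j : F) * x j = ∑ j, (b i : F) * (M i j : F) * x j := by
    intro i
    rw [Finset.mul_sum]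
    exact Finset.sum_congr rfl fun j _ => by rw [mul_assoc]
  rw [Finset.sum_congr rfl fun i _ => h1 i, Finset.sum_comm]
  refine Finset.sum_congr rfl fun j _ => ?_
  rw [← Finset.sum_mul]
  push_cast
  rfl

theorem mo_mem {y : Fin n → F} {S : Set F} (b : Fin n → ℤ) (h : ∀ j, y j ∈ cl S) :
    mo b y ∈ cl S := by
  obtain ⟨K, hK⟩ := cl_field S
  have hmem : ∀ a : F, a ∈ K ↔ a ∈ cl S := fun a => by rw [← hK]; rfl
  rw [← hmem]
  unfold mo
  exact prod_mem fun j _ => zpow_mem ((hmem _).2 (h j)) _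

theorem li_mem {x : Fin n → F} {S : Set F} (b : Fin n → ℤ) (h : ∀ j, x j ∈ cl S) :
    li b x ∈ cl S := by
  obtain ⟨K, hK⟩ := cl_field S
  have hmem : ∀ a : F, a ∈ K ↔ a ∈ cl S := fun a => by rw [← hK]; rfl
  rw [← hmem]
  unfold li
  exact sum_mem fun j _ => mul_mem (intCast_mem K _) ((hmem _).2 (h j))

theorem cl_const (c : ℂ) (S : Set F) : algebraMap ℂ F c ∈ cl S := by
  obtain ⟨K, hK⟩ := cl_field S
  have hmem : ∀ a : F, a ∈ K ↔ a ∈ cl S := fun a => by rw [← hK]; rfl
  rw [← hmem]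
  exact K.algebraMap_mem c

theorem cl_empty {a : F} (h : a ∈ cl (∅ : Set F)) : ∃ c : ℂ, a = algebraMap ℂ F c := by
  have h1 : IsAlgebraic (Algebra.adjoin ℂ (∅ : Set F)) a := h
  have h2 : IsAlgebraic ℂ a := by
    rw [Algebra.adjoin_empty] at h1
    exact Subalgebra.isAlgebraic_of_isAlgebraic_bot h1
  have h3 : IsIntegral ℂ a := h2.isIntegral
  have h4 := IsAlgClosed.degree_eq_one_of_irreducible ℂ (minpoly.irreducible h3)
  obtain ⟨c, hc⟩ := minpoly.mem_range_of_degree_eq_one ℂ a h4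
  exact ⟨c, hc.symm⟩

/-- a unimodular change of coordinates does not change the generated fields -/
theorem cl_unimod {x y : Fin n → F} (hy : ∀ j, y j ≠ 0) (U U' : Matrix (Fin n) (Fin n) ℤ)
    (h1 : U' * U = 1) (h2 : U * U' = 1) :
    cl (Set.range (fun i => li (U i) x)) = cl (Set.range x) ∧
    cl (Set.range (fun i => li (U i) x) ∪ Set.range (fun i => mo (U i) y)) =
      cl (Set.range x ∪ Set.range y) := by
  have hx : ∀ j, li (U' j) (fun i => li (U i) x) = x j := by
    intro j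
    rw [li_li]
    have h3 : (fun l => ∑ i, U' j i * U i l) = Pi.single j (1 : ℤ) := by
      funext l
      have h4 := congrFun (congrFun h1 j) l
      rw [Matrix.mul_apply] at h4
      rw [h4, Matrix.one_apply, Pi.single_apply]
      simp only [eq_comm]
    rw [h3, li_single]
  have hyy : ∀ j, mo (U' j) (fun i => mo (U i) y) = y j := by
    intro j
    rw [mo_mo hy]
    have h3 : (fun l => ∑ i, U' j i * U i l) = Pi.single j (1 : ℤ) := by
      funext l
      have h4 := congrFun (congrFun h1 j) l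
      rw [Matrix.mul_apply] at h4
      rw [h4, Matrix.one_apply, Pi.single_apply]
      simp only [eq_comm]
    rw [h3, mo_single]
  constructor
  · apply Set.Subset.antisymm
    · apply cl_subset
      rintro _ ⟨i, rfl⟩
      exact li_mem _ fun j => subset_cl _ ⟨j, rfl⟩
    · apply cl_subset
      rintro _ ⟨j, rfl⟩
      rw [← hx j]
      exact li_mem _ fun i => subset_cl _ ⟨i, rfl⟩
  · apply Set.Subset.antisymm
    · apply cl_subset
      rintro _ (⟨i, rfl⟩ | ⟨i, rfl⟩)
      · exact li_mem _ fun j => subset_cl _ (Or.inl ⟨j, rfl⟩)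
      · exact mo_mem _ fun j => subset_cl _ (Or.inr ⟨j, rfl⟩)
    · apply cl_subset
      rintro _ (⟨j, rfl⟩ | ⟨j, rfl⟩)
      · rw [← hx j]
        exact li_mem _ fun i => subset_cl _ (Or.inl ⟨i, rfl⟩)
      · rw [← hyy j]
        exact mo_mem _ fun i => subset_cl _ (Or.inr ⟨i, rfl⟩)

end XA
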