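import Pool.Agent.Lib.MP_228259_lc.A.PT2
import Pool.Agent.Lib.MP_228259_lc.A.CL2

/-!
IND: independence over `cl S`; the ideal of relations over `cl S` of a family of transcendence
degree `m - 1` is principal.

PROOF of `indep_over`. `M = AlgebraicIndependent.matroid ℂ F`. Choose a basis `b` of `S`
(`M.exists_isBasis S`): `b ⊆ S` independent, `S ⊆ cl b`, `cl b = cl S`, `b` finite (`hS`), and
`rk (b ∪ range w) = rk (S ∪ range w)`, `rk b = rk S = b.encard`. If `AlgebraicIndependent L w`, then `w` is
independent over the subring `adjoin ℂ b ⊆ L` (`AlgebraicIndependent.restrictScalars` with the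
injective map `adjoin ℂ b → L`), so the family `Sum.elim (coe : b → F) w` is independent over `ℂ`
(`AlgebraicIndependent.sumElim` / `algebraicIndependent_sumElim`, `AlgebraicIndependent.sumElim_iff`), and `rk_eq_iff` (for the index
type `b ⊕ ι`, `b` finite) gives the rank. Conversely the rank gives the independence of
`Sum.elim coe w` over `ℂ` (`rk_eq_iff`), so `w` is independent over `adjoin ℂ b`, and over its algebraic extension `L`
(every element of `L` is algebraic over `adjoin ℂ b`): `AlgebraicIndependent.extendScalars`,
`AlgebraicIndependent.subalgebraAlgebraicClosure`, or directly: if `aeval w p = 0` with `p ≠ 0` over `L`, then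
the elements `b ∪ coefficients ∪ range w` have rank `rk b + card ι`, but one `w i` is
algebraic over `L` and the other `w j`: use that the matroid rank of `b ∪ range w` is then at most
`rk b + card ι - 1`: by `MvPolynomial`-induction on the number of variables / `cl_root`).

PROOF of `principal_cl`. `M` restricted to `S ∪ range w`: start from a basis `b` of `S` and extend it
by elements of `range w` to a basis of `S ∪ range w` (`Matroid.Indep.subset_isBasis_of_subset`); it has
`rk S + (m - 1)` elements, so there is a `Finset` `J` of indices with `m - 1` elements (choose one index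
for each added element) such that `rk (S ∪ w '' J) = rk (S ∪ range w)`. `indep_over` for the family
`fun j : J => w j` and for `w` gives the hypotheses of `principal_over`.
-/

set_option autoImplicit false

namespace XA

open MvPolynomial

private theorem ind_basis {F : Type*} [Field F] [Algebra ℂ F] {S : Set F} (hS : rk S ≠ ⊤) :
    ∃ b : Set F, b ⊆ S ∧ b.Finite ∧ cl b = cl S ∧ rk S = b.encard ∧
      AlgebraicIndependent ℂ (Subtype.val : b → F) := by
  obtain ⟨b, hb⟩ := (AlgebraicIndependent.matroid ℂ F).exists_isBasis S
  have hrk : rk S = b.encard := by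
    rw [rk]
    exact hb.encard_eq_eRk.symm
  refine ⟨b, hb.subset, ?_, ?_, hrk, hb.indep⟩
  · rw [← Set.encard_ne_top_iff, ← hrk]
    exact hS
  · rw [cl_eq, cl_eq, hb.closure_eq_closure]

private theorem ind_alg {F : Type*} [Field F] [Algebra ℂ F] {T : Set F}
    {L : IntermediateField ℂ F} (hL : (L : Set F) = cl T) {ι : Type*} (w : ι → F) :
    AlgebraicIndependent L w ↔ AlgebraicIndependent (Algebra.adjoin ℂ T) w := by
  have hmem : ∀ a : F, a ∈ Algebra.adjoin ℂ T → a ∈ L := by
    intro a ha
    have h1 : a ∈ (L : Set F) := by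
      rw [hL]
      exact isAlgebraic_algebraMap (⟨a, ha⟩ : Algebra.adjoin ℂ T)
    exact h1
  let f : Algebra.adjoin ℂ T →+* L :=
    { toFun := fun a => ⟨a, hmem a a.2⟩
      map_one' := rfl
      map_mul' := fun _ _ => rfl
      map_zero' := rfl
      map_add' := fun _ _ => rfl }
  let _ : Algebra (Algebra.adjoin ℂ T) L := f.toAlgebra
  have : IsScalarTower (Algebra.adjoin ℂ T) L F := IsScalarTower.of_algebraMap_eq fun x => rfl
  have : FaithfulSMul (Algebra.adjoin ℂ T) L :=
    (faithfulSMul_iff_algebraMap_injective _ _).2 fun x y h =>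
      Subtype.ext (congrArg (fun z : L => (z : F)) h)
  have : Algebra.IsAlgebraic (Algebra.adjoin ℂ T) L := ⟨fun z => by
    have h1 : (z : F) ∈ cl T := by
      rw [← hL]
      exact z.2
    have h2 : IsAlgebraic (Algebra.adjoin ℂ T) (algebraMap L F z) := h1
    exact (isAlgebraic_algebraMap_iff (FaithfulSMul.algebraMap_injective L F)).1 h2⟩
  exact (Algebra.IsAlgebraic.algebraicIndependent_iff (Algebra.adjoin ℂ T) L).symm

theorem indep_over {F : Type*} [Field F] [Algebra ℂ F] {S : Set F} (hS : rk S ≠ ⊤)
    {L : IntermediateField ℂ F} (hL : (L : Set F) = cl S) {ι : Type*} [Fintype ι] (w : ι → F) :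
    AlgebraicIndependent L w ↔ rk (S ∪ Set.range w) = rk S + Fintype.card ι := by
  classical
  obtain ⟨b, hbS, hfin, hcl, hrk, hx⟩ := ind_basis hS
  have hft : Fintype b := hfin.fintype
  have hcard : b.encard = Fintype.card b := by
    rw [Set.encard_eq_coe_toFinset_card, Set.toFinset_card]
  have hrange : Set.range (Subtype.val : b → F) = b := Subtype.range_coe
  have h1 : (L : Set F) = cl (Set.range (Subtype.val : b → F)) := by rw [hL, hrange, hcl]
  have h2 : AlgebraicIndependent ℂ (Sum.elim w (Subtype.val : b → F)) ↔
      AlgebraicIndependent ℂ (Subtype.val : b → F) ∧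
        AlgebraicIndependent (Algebra.adjoin ℂ (Set.range (Subtype.val : b → F))) w :=
    AlgebraicIndependent.sumElim_iff
  have h3 : rk (S ∪ Set.range w) = rk (Set.range (Sum.elim w (Subtype.val : b → F))) := by
    rw [Set.Sum.elim_range, hrange]
    apply le_antisymm
    · apply rk_mono
      apply Set.union_subset
      · refine Set.Subset.trans (subset_cl S) ?_
        rw [← hcl]
        exact cl_mono Set.subset_union_right
      · exact Set.Subset.trans Set.subset_union_left (subset_cl _)
    · apply rk_mono
      refine Set.Subset.trans ?_ (subset_cl _)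
      exact Set.union_subset Set.subset_union_right
        (Set.Subset.trans hbS Set.subset_union_left)
  rw [ind_alg h1 w, h3, hrk, hcard]
  have h4 : ((Fintype.card b : ℕ∞) + Fintype.card ι) = (Fintype.card (ι ⊕ b) : ℕ∞) := by
    rw [Fintype.card_sum]
    push_cast
    rw [add_comm]
  rw [h4, rk_eq_iff, h2]
  exact ⟨fun h => ⟨hx, h⟩, fun h => h.2⟩

private theorem ind_pick {F : Type*} [Field F] [Algebra ℂ F] (S : Set F) {m : ℕ} (w : Fin m → F)
    (T : Finset (Fin m)) : ∃ J : Finset (Fin m), J ⊆ T ∧
      rk (S ∪ w '' (J : Set (Fin m))) = rk S + J.card ∧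
      rk (S ∪ w '' (T : Set (Fin m))) = rk S + J.card := by
  classical
  induction T using Finset.induction_on with
  | empty => exact ⟨∅, subset_rfl, by simp, by simp⟩
  | insert t T ht ih =>
    obtain ⟨J, hJT, h1, h2⟩ := ih
    have hins : ∀ U : Finset (Fin m), S ∪ w '' ((insert t U : Finset (Fin m)) : Set (Fin m)) =
        insert (w t) (S ∪ w '' (U : Set (Fin m))) := by
      intro U
      rw [Finset.coe_insert, Set.image_insert_eq, Set.union_insert]
    by_cases hmem : w t ∈ cl (S ∪ w '' (T : Set (Fin m)))
    · refine ⟨J, hJT.trans (Finset.subset_insert _ _), h1, ?_⟩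
      rw [hins, rk_insert_mem hmem, h2]
    · have hmem2 : w t ∉ cl (S ∪ w '' (J : Set (Fin m))) := by
        intro h
        apply hmem
        refine cl_mono ?_ h
        exact Set.union_subset_union_right _ (Set.image_mono (by exact_mod_cast hJT))
      refine ⟨insert t J, Finset.insert_subset_insert _ hJT, ?_, ?_⟩
      · rw [hins, rk_insert_not hmem2, h1, Finset.card_insert_of_notMem (fun h => ht (hJT h))]
        push_cast
        rw [add_assoc]
      · rw [hins, rk_insert_not hmem, h2, Finset.card_insert_of_notMem (fun h => ht (hJT h))]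
        push_cast
        rw [add_assoc]

theorem principal_cl {F : Type*} [Field F] [Algebra ℂ F] {S : Set F} (hS : rk S ≠ ⊤)
    {L : IntermediateField ℂ F} (hL : (L : Set F) = cl S) {m : ℕ} {w : Fin m → F}
    (h : rk (S ∪ Set.range w) + 1 = rk S + m) :
    ∃ f : MvPolynomial (Fin m) L, Irreducible f ∧ aeval w f = 0 ∧
      ∀ h : MvPolynomial (Fin m) L, aeval w h = 0 → f ∣ h := by
  classical
  obtain ⟨J, -, h1, h2⟩ := ind_pick S w Finset.univ
  rw [Finset.coe_univ, Set.image_univ] at h2
  obtain ⟨r, hr⟩ := ENat.ne_top_iff_exists.1 hS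
  have hJ : J.card + 1 = m := by
    rw [h2, ← hr] at h
    have h3 : r + J.card + 1 = r + m := by exact_mod_cast h
    omega
  refine principal_over J (by omega) ?_ ?_
  · rw [indep_over hS hL]
    have h3 : Set.range (fun j : J => w j) = w '' (J : Set (Fin m)) := by
      ext a
      simp
    rw [h3, h1, Fintype.card_coe]
  · rw [indep_over hS hL, h2, ← hr, Fintype.card_fin]
    intro h3
    have h4 : r + J.card = r + m := by exact_mod_cast h3
    omega

end XA
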