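import Pool.Agent.Lib.MP_228259_lc.A.PT1

/-!
PTE: exponential points of `(x, y)` from zeros of one exponential sum. `L` is a field between `ℂ` and
`F` which contains all `x j` and all `y j` except the `w i = y (e i)`, whose ideal of relations over `L`
is generated by `f`.

PROOF. `pt_exists` with `xL j = ⟨x j, hx j⟩`, `w i = y (e i)` and `Yp j = X i` for some `i` with
`e i = j` if there is one (choose by `Classical.choose`), and `Yp j = C ⟨y j, _⟩` otherwise. It
gives `U, xB, fB, YB`. Let `cB α = coeff α fB` and, for `j ∉ range e`, `yB j = coeff 0 (YB j)` (`YB j` and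
`C (coeff 0 (YB j))` have the same image `C ⟨y j, _⟩` under the injective `map (algebraMap ..)`, so they
are equal; for `j = e i`: `YB j = X i` in the same way). Let `σ` be as in the hypothesis and
`v i = exp (σ (xB (e i)))`. The value
`eval v (map σ fB) = ∑ α ∈ f.support, σ (cB α) * ∏ i, v i ^ α i` (`support fB = support f` because the
inclusion is injective; `MvPolynomial.eval_eq'`) and
`∏ i, v i ^ α i = exp (σ (∑ i, α i • xB (e i)))`, so it is zero, and the point of `pt_exists` is
`(σ (xB j))_j, (exp (σ (xB j)))_j`.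
-/

set_option autoImplicit false

namespace XA

open MvPolynomial

theorem exp_of_sigma {F : Type*} [Field F] [Algebra ℂ F] {n m : ℕ} {x y : Fin n → F}
    (e : Fin m → Fin n) (L : IntermediateField ℂ F) (hx : ∀ j, x j ∈ L)
    (hy : ∀ j, j ∉ Set.range e → y j ∈ L) {f : MvPolynomial (Fin m) L}
    (hf : ∀ h : MvPolynomial (Fin m) L, aeval (fun i => y (e i)) h = 0 → f ∣ h) :
    ∃ (U : Set L) (xB yB : Fin n → Algebra.adjoin ℂ U)
      (cB : (Fin m →₀ ℕ) → Algebra.adjoin ℂ U), U.Finite ∧
      (∀ j, ((xB j : L) : F) = x j) ∧ (∀ j, j ∉ Set.range e → ((yB j : L) : F) = y j) ∧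
      (∀ α, (cB α : L) = coeff α f) ∧
      ∀ σ : Algebra.adjoin ℂ U →ₐ[ℂ] ℂ,
        (∀ j, j ∉ Set.range e → σ (yB j) = Complex.exp (σ (xB j))) →
        ∑ α ∈ f.support, σ (cB α) * Complex.exp (σ (∑ i, α i • xB (e i))) = 0 → HasExp x y := by
  classical
  let xL : Fin n → L := fun j => ⟨x j, hx j⟩
  let Yp : Fin n → MvPolynomial (Fin m) L := fun j =>
    if h : j ∈ Set.range e then X (Classical.choose h) else C ⟨y j, hy j h⟩
  have hYp1 : ∀ j (h : j ∈ Set.range e), Yp j = X (Classical.choose h) := by
    intro j h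
    simp only [Yp, dif_pos h]
  have hYp2 : ∀ j (h : j ∉ Set.range e), Yp j = C ⟨y j, hy j h⟩ := by
    intro j h
    simp only [Yp, dif_neg h]
  have hY : ∀ j, aeval (fun i => y (e i)) (Yp j) = y j := by
    intro j
    by_cases h : j ∈ Set.range e
    · rw [hYp1 j h, aeval_X, Classical.choose_spec h]
    · rw [hYp2 j h, aeval_C]
      rfl
  obtain ⟨U, xB, fB, YB, hU, hxB, hfB, hYB, hpt⟩ := pt_exists (x := x) (y := y) (xL := xL)
    (fun j => rfl) (w := fun i => y (e i)) hf hY
  have hinj : Function.Injective (map (σ := Fin m) (algebraMap (Algebra.adjoin ℂ U) L)) :=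
    map_injective _ Subtype.val_injective
  let cB : (Fin m →₀ ℕ) → Algebra.adjoin ℂ U := fun α => coeff α fB
  let yB : Fin n → Algebra.adjoin ℂ U := fun j => coeff 0 (YB j)
  have hyC : ∀ j (h : j ∉ Set.range e), YB j = C (yB j) ∧ ((yB j : L)) = ⟨y j, hy j h⟩ := by
    intro j h
    have h1 : map (algebraMap (Algebra.adjoin ℂ U) L) (YB j) = C ⟨y j, hy j h⟩ := by
      rw [hYB j, hYp2 j h]
    have h2 : (algebraMap (Algebra.adjoin ℂ U) L) (yB j) = ⟨y j, hy j h⟩ := by
      have h3 : coeff 0 (map (algebraMap (Algebra.adjoin ℂ U) L) (YB j)) =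
          coeff 0 (C ⟨y j, hy j h⟩ : MvPolynomial (Fin m) L) := by rw [h1]
      rw [coeff_map, coeff_C, if_pos rfl] at h3
      exact h3
    refine ⟨hinj ?_, h2⟩
    rw [h1, map_C, h2]
  have hyX : ∀ j (h : j ∈ Set.range e), YB j = X (Classical.choose h) := by
    intro j h
    apply hinj
    rw [hYB j, hYp1 j h, map_X]
  have hcB : ∀ α, (cB α : L) = coeff α f := by
    intro α
    have h3 : coeff α (map (algebraMap (Algebra.adjoin ℂ U) L) fB) = coeff α f := by rw [hfB]
    rw [coeff_map] at h3
    exact h3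
  refine ⟨U, xB, yB, cB, hU, ?_, ?_, hcB, ?_⟩
  · intro j
    rw [hxB j]
  · intro j h
    rw [(hyC j h).2]
  · intro σ hσ hsum
    let v : Fin m → ℂ := fun i => Complex.exp (σ (xB (e i)))
    have hsupp : fB.support = f.support := by
      ext α
      rw [mem_support_iff, mem_support_iff, ← hcB α]
      constructor
      · intro h h1
        apply h
        exact Subtype.val_injective h1
      · intro h h1
        apply h
        show ((coeff α fB : Algebra.adjoin ℂ U) : L) = 0
        rw [h1]
        rfl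
    have hv : eval v (map (σ : Algebra.adjoin ℂ U →+* ℂ) fB) = 0 := by
      rw [eval_map, eval₂_eq', hsupp, ← hsum]
      refine Finset.sum_congr rfl fun α _ => ?_
      congr 1
      have h1 : σ (∑ i, α i • xB (e i)) = ∑ i, (α i : ℂ) * σ (xB (e i)) := by
        rw [map_sum]
        refine Finset.sum_congr rfl fun i _ => ?_
        rw [map_nsmul, nsmul_eq_mul]
      rw [h1, Complex.exp_sum]
      refine Finset.prod_congr rfl fun i _ => ?_
      rw [Complex.exp_nat_mul]
    have h1 := hpt σ v hv
    refine ⟨fun j => σ (xB j), ?_, fun j => Complex.exp_ne_zero _⟩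
    have h2 : (fun j => eval v (map (σ : Algebra.adjoin ℂ U →+* ℂ) (YB j))) =
        fun j => Complex.exp (σ (xB j)) := by
      funext j
      by_cases h : j ∈ Set.range e
      · rw [hyX j h, map_X, eval_X]
        show Complex.exp (σ (xB (e (Classical.choose h)))) = _
        rw [Classical.choose_spec h]
      · rw [(hyC j h).1, map_C, eval_C]
        exact hσ j h
    rw [h2] at h1
    exact h1

end XA
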