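import Pool.Agent.Lib.MP_228259_lc.A.IF
import Pool.Agent.Lib.MP_228259_lc.A.CLI
import Pool.Agent.Lib.MP_228259_lc.A.IND
import Pool.Agent.Lib.MP_228259_lc.A.PTE
import Pool.Agent.Lib.MP_228259_lc.A.EM
import Pool.Agent.Lib.MP_228259_lc.A.DR

/-!
PA: the case `dim π_a = 1`.

PROOF. Let `L` be the intermediate field with carrier `cl (range x)` (`cl_field`). `principal_cl`
(`S = range x`, `w = y`) gives an irreducible `f` over `L` with `aeval y f = 0` which divides all
relations. `f.support` has two different elements `α₀ ≠ β₀` (otherwise `f` is a monomial `c Y^α`,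
`c ≠ 0` as `f ≠ 0`, and `aeval y f ≠ 0` because all `y j ≠ 0`). `exp_of_sigma` with `e = id`
(`range e = univ`) gives `U, xB, yB, cB`. Let `B = adjoin ℂ U` (of finite type:
`Subalgebra.fg_adjoin_of_finite` / `Subalgebra.fg_iff_finiteType`), and `t = ∑ i, (α₀ i - β₀ i) x_i ∈ L`; `t` is
not a constant (`h.af`), so it is transcendental over `ℂ` and (rank one) all elements of `L` are in
`cl {t}` in `F` (`subset_cl_of_rk`: `rk {t} = 1`: `cl_empty`, `rk_insert_not`) and so, by `cl_map` for the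
inclusion `L → F`, in `L`. `lt_field` gives `K, e`; `exists_embedding` (`ι = Unit` or `Fin 1`, `b = t`,
`β = e`; `AlgebraicIndependent` of one element = `Transcendental`, `e` is transcendental because it is not
a constant: `cl_empty`) gives `φ : L →ₐ[ℂ] K` with `φ t = e`. Apply the property of `K`
to `B`, `ψ = φ.comp (Subalgebra.val _)`, `A = f.support`, `c α = cB α`, `P α = ∑ i, α i • xB i`.
`ψ (c α) ≠ 0`: `c α` is the coefficient of `f`. For `α ≠ β` in `A`: `ψ (P α) - ψ (P β) = φ (li q x)`,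
`q = α - β ≠ 0`, is not a constant (`h.af`, `φ` injective). `e = φ t = ψ (P α₀) - ψ (P β₀)` is in the
span. The resulting `σ` satisfies the hypotheses of `exp_of_sigma`.
-/

set_option autoImplicit false

namespace XA

open MvPolynomial

private theorem pa_rk {F : Type*} [Field F] [Algebra ℂ F] {t : F}
    (ht : ∀ k : ℂ, t ≠ algebraMap ℂ F k) : rk ({t} : Set F) = 1 := by
  have h1 : t ∉ cl (∅ : Set F) := by
    intro h
    obtain ⟨c, hc⟩ := cl_empty h
    exact ht c hc
  have h2 := rk_insert_not h1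
  have h3 : rk (∅ : Set F) = 0 := Matroid.eRk_empty _
  rw [h3, zero_add] at h2
  have h4 : (insert t ∅ : Set F) = {t} := by simp
  rw [h4] at h2
  exact h2

private theorem pa_ind {F : Type*} [Field F] [Algebra ℂ F] {t : F}
    (ht : ∀ k : ℂ, t ≠ algebraMap ℂ F k) : AlgebraicIndependent ℂ (fun _ : Unit => t) := by
  rw [← rk_eq_iff, Set.range_const, pa_rk ht]
  simp

private theorem pa_supp {L F : Type*} [Field L] [Field F] [Algebra L F] {n : ℕ} {y : Fin n → F}
    (hy : ∀ j, y j ≠ 0) {f : MvPolynomial (Fin n) L} (hf : f ≠ 0) (hf0 : aeval y f = 0) :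
    ∃ α ∈ f.support, ∃ β ∈ f.support, α ≠ β := by
  obtain ⟨α, hα⟩ := MvPolynomial.support_nonempty.2 hf
  by_contra hcon
  push Not at hcon
  have h1 : f.support = {α} := by
    ext β
    rw [Finset.mem_singleton]
    constructor
    · exact fun h => hcon β h α hα
    · rintro rfl
      exact hα
  have h2 : aeval y f = algebraMap L F (coeff α f) * ∏ i, y i ^ α i := by
    rw [aeval_def, eval₂_eq', h1, Finset.sum_singleton]
  rw [h2] at hf0
  rcases mul_eq_zero.1 hf0 with h3 | h3
  · rw [map_eq_zero_iff _ (algebraMap L F).injective] at h3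
    exact (mem_support_iff.1 hα) h3
  · rw [Finset.prod_eq_zero_iff] at h3
    obtain ⟨i, _, hi⟩ := h3
    exact hy i ((pow_eq_zero_iff (by
      intro h0
      rw [h0, pow_zero] at hi
      exact one_ne_zero hi)).1 hi)

theorem pa1 {F : Type} [Field F] [Algebra ℂ F] {n : ℕ} {x y : Fin n → F} (h : FR0 x y)
    (hx : rk (Set.range x) = 1) (hr : rk (Set.range x ∪ Set.range y) = n) : HasExp x y := by
  classical
  obtain ⟨L, hL⟩ := cl_field (Set.range x)
  have hmem : ∀ a : F, a ∈ L ↔ a ∈ cl (Set.range x) := fun a => by rw [← hL]; rfl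
  have hxL : ∀ j, x j ∈ L := fun j => (hmem _).2 (subset_cl _ ⟨j, rfl⟩)
  obtain ⟨f, hfi, hf0, hfd⟩ := principal_cl (S := Set.range x) (by rw [hx]; exact ENat.one_ne_top)
    hL (m := n) (w := y) (by rw [hr, hx, add_comm])
  obtain ⟨U, xB, yB, cB, hU, hxB, hyB, hcB, hσ⟩ := exp_of_sigma (x := x) (y := y) (id : Fin n → Fin n)
    L hxL (fun j hj => absurd ⟨j, rfl⟩ hj) (f := f) hfd
  obtain ⟨α₀, hα₀, β₀, hβ₀, hab⟩ := pa_supp h.nz hfi.ne_zero hf0
  -- the difference of two exponents
  have hli : ∀ α β : Fin n →₀ ℕ, (((∑ i, α i • xB (id i) - ∑ i, β i • xB (id i) :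
      Algebra.adjoin ℂ U) : L) : F) = li (fun i => (α i : ℤ) - (β i : ℤ)) x := by
    intro α β
    have h1 : ∀ γ : Fin n →₀ ℕ, (((∑ i, γ i • xB (id i) : Algebra.adjoin ℂ U) : L) : F) =
        ∑ i, (γ i : F) * x i := by
      intro γ
      push_cast
      refine Finset.sum_congr rfl fun i _ => ?_
      rw [← hxB i]
      simp
    unfold li
    rw [AddSubgroupClass.coe_sub, AddSubgroupClass.coe_sub, h1, h1, ← Finset.sum_sub_distrib]
    refine Finset.sum_congr rfl fun i _ => ?_
    push_cast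
    ring
  have hq : ∀ α β : Fin n →₀ ℕ, α ≠ β → (fun i => (α i : ℤ) - (β i : ℤ)) ≠ 0 := by
    intro α β hαβ h0
    apply hαβ
    ext i
    have := congrFun h0 i
    simp only [Pi.zero_apply] at this
    omega
  set tL : L := ((∑ i, α₀ i • xB (id i) - ∑ i, β₀ i • xB (id i) : Algebra.adjoin ℂ U) : L)
    with htL
  have ht : ∀ k : ℂ, (tL : F) ≠ algebraMap ℂ F k := by
    intro k
    rw [htL, hli]
    exact h.af _ (hq _ _ hab) k
  have htx : (tL : F) ∈ cl (Set.range x) := (hmem _).1 tL.2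
  -- everything is algebraic over `t`
  have hcl : cl (Set.range x) ⊆ cl ({(tL : F)} : Set F) := by
    have h1 : rk (insert (tL : F) (Set.range x)) = 1 := by rw [rk_insert_mem htx, hx]
    have h2 := subset_cl_of_rk (S := {(tL : F)}) (T := insert (tL : F) (Set.range x))
      (by simp) (by rw [h1]; exact ENat.one_ne_top) (by rw [h1, pa_rk ht])
    exact cl_subset ((Set.subset_insert _ _).trans h2)
  have htLne : ∀ k : ℂ, tL ≠ algebraMap ℂ L k := by
    intro k hk
    apply ht k
    rw [hk]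
    rfl
  have halg : ∀ a : L, a ∈ cl (Set.range (fun _ : Unit => tL)) := by
    intro a
    rw [Set.range_const, ← cl_map L.val, Set.image_singleton]
    exact hcl ((hmem _).1 a.2)
  obtain ⟨K, _, _, e, hKac, he, hK⟩ := lt_field
  obtain ⟨φ, hφ⟩ := exists_embedding (pa_ind htLne) halg (pa_ind he)
  have hφt : φ tL = e := hφ ()
  have hft : Algebra.FiniteType ℂ (Algebra.adjoin ℂ U) := by
    rw [← Subalgebra.fg_iff_finiteType]
    have h1 := Subalgebra.fg_adjoin_finset (R := ℂ) hU.toFinset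
    rwa [hU.coe_toFinset] at h1
  set ψ : Algebra.adjoin ℂ U →ₐ[ℂ] K := φ.comp (Algebra.adjoin ℂ U).val with hψ
  have hψa : ∀ b : Algebra.adjoin ℂ U, ψ b = φ (b : L) := fun b => rfl
  have h1 : ∀ α ∈ f.support, ψ (cB α) ≠ 0 := by
    intro α hα
    rw [hψa, hcB]
    intro h0
    exact mem_support_iff.1 hα (φ.injective (h0.trans (map_zero φ).symm))
  have h2 : ∀ α ∈ f.support, ∀ β ∈ f.support, α ≠ β → ∀ k : ℂ,
      ψ (∑ i, α i • xB (id i)) - ψ (∑ i, β i • xB (id i)) ≠ algebraMap ℂ K k := by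
    intro α _ β _ hαβ k hk
    rw [← map_sub, hψa, ← φ.commutes k] at hk
    have h1 := φ.injective hk
    have h2 : (((∑ i, α i • xB (id i) - ∑ i, β i • xB (id i) : Algebra.adjoin ℂ U) : L) : F) =
        algebraMap ℂ F k := congrArg (fun a : L => (a : F)) h1
    rw [hli] at h2
    exact h.af _ (hq _ _ hαβ) k h2
  have h3 : e ∈ Submodule.span ℂ {z : K | ∃ α ∈ f.support, ∃ β ∈ f.support,
      z = ψ (∑ i, α i • xB (id i)) - ψ (∑ i, β i • xB (id i))} := by
    refine Submodule.subset_span ⟨α₀, hα₀, β₀, hβ₀, ?_⟩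
    rw [← map_sub, hψa, ← hφt]
  obtain ⟨σ, hσ0⟩ := hK (Algebra.adjoin ℂ U) ψ (Fin n →₀ ℕ) f.support
    cB (fun α => ∑ i, α i • xB (id i)) h1 h2 h3
  exact hσ σ (fun j hj => absurd ⟨j, rfl⟩ hj) hσ0

end XA
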