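import Pool.Agent.Lib.MP_228259_lc.A.CL2

/-!
RO: rotundity for the first `m` of `m + 1` coordinates.

PROOF. Apply `h` to `k = m` and the `m × (m + 1)` matrix `M i = Pi.single i.castSucc 1`:
`li (M i) x = x i.castSucc` (`li_single`), `mo (M i) y = y i.castSucc` (`mo_single`). The rank of
`M.map Int.cast` is `m` (its rows are linearly independent, `LinearIndependent.rank_matrix`; or
`M * Mᵀ = 1` and `Matrix.rank_mul_le_left`, `Matrix.rank_one`).
-/

namespace XA

open MvPolynomial

variable {F : Type*} [Field F] [Algebra ℂ F]

theorem rot_first {m : ℕ} (hm : 1 ≤ m) {x y : Fin (m + 1) → F} (h : Rot x y) :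
    (m : ℕ∞) ≤ rk (Set.range (fun j : Fin m => x j.castSucc) ∪
      Set.range (fun j : Fin m => y j.castSucc)) := by
  set M : Matrix (Fin m) (Fin (m + 1)) ℤ :=
    Matrix.of (fun i : Fin m => (Pi.single i.castSucc 1 : Fin (m + 1) → ℤ)) with hM
  have hMe : ∀ i j, M i j = if j = i.castSucc then 1 else 0 := by
    intro i j
    rw [hM, Matrix.of_apply, Pi.single_apply]
  have h1 := h m M hm (Nat.le_succ m)
  have hx : (fun i => li (M i) x) = fun j : Fin m => x j.castSucc := by
    funext i; exact li_single _ _
  have hy : (fun i => mo (M i) y) = fun j : Fin m => y j.castSucc := by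
    funext i; exact mo_single _ _
  rw [hx, hy] at h1
  have hr : (M.map (Int.cast : ℤ → ℚ)).rank = m := by
    set A : Matrix (Fin m) (Fin (m + 1)) ℚ := M.map (Int.cast : ℤ → ℚ) with hA
    have e : A * A.transpose = 1 := by
      ext i j
      rw [Matrix.mul_apply, Matrix.one_apply]
      by_cases hij : i = j
      · subst hij
        rw [if_pos rfl, Finset.sum_eq_single i.castSucc]
        · rw [Matrix.transpose_apply, hA, Matrix.map_apply, hMe, if_pos rfl]; norm_num
        · intro b _ hb
          rw [hA, Matrix.map_apply, hMe, if_neg hb]; norm_num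
        · intro hb; exact absurd (Finset.mem_univ _) hb
      · rw [if_neg hij]
        apply Finset.sum_eq_zero
        intro b _
        rw [Matrix.transpose_apply, hA, Matrix.map_apply, Matrix.map_apply, hMe, hMe]
        by_cases hb : b = i.castSucc
        · have hc : ¬ b = j.castSucc := by
            rw [hb]; intro hc; exact hij (Fin.castSucc_injective _ hc)
          rw [if_neg hc]; norm_num
        · rw [if_neg hb]; norm_num
    have h2 := Matrix.rank_mul_le_left A A.transpose
    rw [e, Matrix.rank_one, Fintype.card_fin] at h2
    have h3 := Matrix.rank_le_height A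
    omega
  rw [hr] at h1
  exact h1

end XA
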