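import Pool.Agent.Lib.MP_228259_lc.A.CL2

/-!
FC: a coordinate `y_n` which is transcendental over all the others is free.

PROOF. Let `u = Sum.elim x y''` where `y'' = y ∘ castSucc`, and `p = Sum.elim z w`. Let `f` be a polynomial
with `aeval (Sum.elim x y) f = 0`. Write `f` as a polynomial `G` in the variable `X (inr last)`
over `ℂ[X (inl _), X (inr castSucc)]` (`MvPolynomial.optionEquivLeft` or `finSuccEquiv` after
renaming; or: `aeval` into `Polynomial (MvPolynomial (Fin (m+1) ⊕ Fin m) ℂ)`,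
`inl j ↦ C (X (inl j))`, `inr (castSucc j) ↦ C (X (inr j))`, `inr last ↦ X`). Then
`(G.map (aeval u)).eval (y last) = 0`; `y last` is transcendental over `ℂ(u)` (`hw`, `cl_root`), so all
coefficients `aeval u (G.coeff i)` vanish, so `eval p (G.coeff i) = 0` by `h`, and the value of
`f` at the point `(z, Fin.snoc w v)` is `(G.map (eval p)).eval v = 0`.
-/

namespace XA

open MvPolynomial

variable {F : Type*} [Field F] [Algebra ℂ F]

/-- split off the last multiplicative coordinate -/
private noncomputable def fcSplit (m : ℕ) : MvPolynomial (Fin (m + 1) ⊕ Fin (m + 1)) ℂ →ₐ[ℂ]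
    Polynomial (MvPolynomial (Fin (m + 1) ⊕ Fin m) ℂ) :=
  aeval (Sum.elim (fun j => Polynomial.C (X (Sum.inl j)))
    (Fin.snoc (α := fun _ => Polynomial (MvPolynomial (Fin (m + 1) ⊕ Fin m) ℂ))
      (fun i : Fin m => Polynomial.C (X (Sum.inr i))) Polynomial.X))

private theorem fcSplit_eval {m : ℕ} {R : Type*} [CommRing R] [Algebra ℂ R] (x : Fin (m + 1) → R)
    (y : Fin m → R) (a : R) (f : MvPolynomial (Fin (m + 1) ⊕ Fin (m + 1)) ℂ) :
    ((fcSplit m f).map ((aeval (Sum.elim x y) : MvPolynomial (Fin (m + 1) ⊕ Fin m) ℂ →ₐ[ℂ] R) :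
      MvPolynomial (Fin (m + 1) ⊕ Fin m) ℂ →+* R)).eval a =
    aeval (Sum.elim x (Fin.snoc (α := fun _ => R) y a)) f := by
  rw [Polynomial.eval_map]
  have h : (Polynomial.eval₂RingHom ((aeval (Sum.elim x y) :
      MvPolynomial (Fin (m + 1) ⊕ Fin m) ℂ →ₐ[ℂ] R) :
      MvPolynomial (Fin (m + 1) ⊕ Fin m) ℂ →+* R) a).comp (fcSplit m).toRingHom =
      (aeval (Sum.elim x (Fin.snoc (α := fun _ => R) y a)) :
        MvPolynomial (Fin (m + 1) ⊕ Fin (m + 1)) ℂ →ₐ[ℂ] R).toRingHom := by
    apply MvPolynomial.ringHom_ext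
    · intro c
      have h1 : fcSplit m (C c) = Polynomial.C (C c) := by
        rw [← MvPolynomial.algebraMap_eq, AlgHom.commutes]
        rfl
      have h2 : (fcSplit m).toRingHom (C c) = Polynomial.C (C c) := h1
      rw [RingHom.comp_apply, h2, Polynomial.coe_eval₂RingHom, Polynomial.eval₂_C]
      simp
    · intro i
      rcases i with j | j
      · have h1 : (fcSplit m).toRingHom (X (Sum.inl j)) = Polynomial.C (X (Sum.inl j)) := by
          show fcSplit m (X (Sum.inl j)) = _
          rw [fcSplit, aeval_X]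
          rfl
        rw [RingHom.comp_apply, h1, Polynomial.coe_eval₂RingHom, Polynomial.eval₂_C]
        simp
      · refine Fin.lastCases ?_ (fun i => ?_) j
        · have h1 : (fcSplit m).toRingHom (X (Sum.inr (Fin.last m))) = Polynomial.X := by
            show fcSplit m (X (Sum.inr (Fin.last m))) = _
            rw [fcSplit, aeval_X, Sum.elim_inr, Fin.snoc_last]
          rw [RingHom.comp_apply, h1, Polynomial.coe_eval₂RingHom, Polynomial.eval₂_X]
          simp
        · have h1 : (fcSplit m).toRingHom (X (Sum.inr i.castSucc)) = Polynomial.C (X (Sum.inr i)) := by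
            show fcSplit m (X (Sum.inr i.castSucc)) = _
            rw [fcSplit, aeval_X, Sum.elim_inr, Fin.snoc_castSucc]
          rw [RingHom.comp_apply, h1, Polynomial.coe_eval₂RingHom, Polynomial.eval₂_C]
          simp
  exact congrArg (fun g : MvPolynomial (Fin (m + 1) ⊕ Fin (m + 1)) ℂ →+* R => g f) h

theorem free_coord {m : ℕ} {x y : Fin (m + 1) → F}
    (hw : y (Fin.last m) ∉ cl (Set.range x ∪ Set.range (fun j : Fin m => y j.castSucc)))
    {z : Fin (m + 1) → ℂ} {w : Fin m → ℂ} (hw0 : ∀ j, w j ≠ 0) {v : ℂ} (hv : v ≠ 0)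
    (h : IsPt (Sum.elim x (fun j : Fin m => y j.castSucc)) (Sum.elim z w)) :
    (z, (Fin.snoc w v : Fin (m + 1) → ℂ)) ∈ Loc x y := by
  refine ⟨fun f hf => ?_, fun j => ?_⟩
  · obtain ⟨G, hG⟩ : ∃ G, G = fcSplit m f := ⟨_, rfl⟩
    have e1 := fcSplit_eval x (fun j : Fin m => y j.castSucc) (y (Fin.last m)) f
    have hy : (Fin.snoc (α := fun _ => F) (fun j : Fin m => y j.castSucc) (y (Fin.last m))) = y := by
      funext j
      refine Fin.lastCases ?_ (fun i => ?_) j
      · rw [Fin.snoc_last]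
      · rw [Fin.snoc_castSucc]
    rw [hy, hf, ← hG] at e1
    have hz : G.map ((aeval (Sum.elim x (fun j : Fin m => y j.castSucc)) :
        MvPolynomial (Fin (m + 1) ⊕ Fin m) ℂ →ₐ[ℂ] F) :
        MvPolynomial (Fin (m + 1) ⊕ Fin m) ℂ →+* F) = 0 := by
      by_contra hne
      refine hw (cl_root _ _ hne (fun i => ?_) _ e1)
      rw [Polynomial.coeff_map]
      have hmem : aeval (Sum.elim x (fun j : Fin m => y j.castSucc)) (G.coeff i) ∈
          Algebra.adjoin ℂ (Set.range x ∪ Set.range (fun j : Fin m => y j.castSucc)) := by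
        rw [← Set.Sum.elim_range, Algebra.adjoin_range_eq_range_aeval]
        exact ⟨G.coeff i, rfl⟩
      exact isAlgebraic_algebraMap (⟨_, hmem⟩ : Algebra.adjoin ℂ
        (Set.range x ∪ Set.range (fun j : Fin m => y j.castSucc)))
    have e2 := fcSplit_eval z w v f
    have hz2 : G.map ((aeval (Sum.elim z w) : MvPolynomial (Fin (m + 1) ⊕ Fin m) ℂ →ₐ[ℂ] ℂ) :
        MvPolynomial (Fin (m + 1) ⊕ Fin m) ℂ →+* ℂ) = 0 := by
      ext i
      rw [Polynomial.coeff_map, Polynomial.coeff_zero]
      have h3 := congrArg (fun q => q.coeff i) hz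
      simp only [Polynomial.coeff_map, Polynomial.coeff_zero] at h3
      have h4 := h (G.coeff i) h3
      rw [← MvPolynomial.aeval_eq_eval] at h4
      exact h4
    rw [← hG, hz2, Polynomial.eval_zero] at e2
    rw [← MvPolynomial.aeval_eq_eval]
    exact e2.symm
  · refine Fin.lastCases ?_ (fun i => ?_) j
    · show (Fin.snoc (α := fun _ => ℂ) w v) (Fin.last m) ≠ 0
      rw [Fin.snoc_last]
      exact hv
    · show (Fin.snoc (α := fun _ => ℂ) w v) i.castSucc ≠ 0
      rw [Fin.snoc_castSucc]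
      exact hw0 i

end XA
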