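import Pool.Agent.Lib.MP_228259_lc.A.DO2
import Pool.Agent.Lib.MP_228259_lc.A.FC

/-!
T1A: one-dimensional torus, first case.

PROOF. `x'' = x ∘ castSucc` is algebraically independent, so `rk (range x'') = m`
(`rk_eq_iff`) `= rk (range x)`, so `x last ∈ cl (range x'')` (`subset_cl_of_rk`), and then
`y j.castSucc ∈ cl (range x) = cl (range x'')` (`cl_subset`). Apply `dominant` with `t = x''`,
`u = Fin.snoc y'' (x last) : Fin (m + 1) → F` (`y'' j = y j.castSucc`), `e = Fin.castSucc`. It gives
`z'' : Fin m → ℂ` and `w`; put `z = Fin.snoc z'' (w last)`. Then `(z, exp z'')` is a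
specialisation of `(x, y'')` (rename the variables of `IsPt`). `y last ∉ cl (range x ∪ range y'')`:
otherwise `range y ⊆ cl (range x)` and `rk (range x ∪ range y) = rk (range x) = m`. By
`free_coord` with `v = exp (z last)` the point `(z, Fin.snoc (exp z'') (exp (z last)))` is in
`Loc x y`, and its second component is `exp z`.
-/

namespace XA

open MvPolynomial

theorem t1a {F : Type*} [Field F] [Algebra ℂ F] {m : ℕ} {x y : Fin (m + 1) → F} (h : FD x y)
    (hind : AlgebraicIndependent ℂ (fun j : Fin m => x j.castSucc))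
    (halg : ∀ j : Fin m, y j.castSucc ∈ cl (Set.range x)) : HasExp x y := by
  have hrk1 : rk (Set.range (fun j : Fin m => x j.castSucc)) = (m : ℕ∞) := by
    have := (rk_eq_iff (fun j : Fin m => x j.castSucc)).2 hind
    rwa [Fintype.card_fin] at this
  have hrk2 : rk (Set.range x) = (m : ℕ∞) := by
    have h1 := h.rkx
    push_cast at h1
    exact WithTop.add_right_cancel (ENat.natCast_ne_top 1) h1
  have hsub : Set.range x ⊆ cl (Set.range (fun j : Fin m => x j.castSucc)) := by
    refine subset_cl_of_rk ?_ ?_ ?_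
    · rintro _ ⟨j, rfl⟩
      exact ⟨j.castSucc, rfl⟩
    · rw [hrk2]
      exact ENat.natCast_ne_top m
    · rw [hrk2, hrk1]
  have hy : ∀ j : Fin m, y j.castSucc ∈ cl (Set.range (fun j : Fin m => x j.castSucc)) :=
    fun j => cl_subset hsub (halg j)
  obtain ⟨z', w, hpt, hw⟩ := dominant (N := m + 1) hind
    (u := Fin.snoc (α := fun _ => F) (fun j : Fin m => y j.castSucc) (x (Fin.last m)))
    (by
      intro i
      refine Fin.lastCases ?_ (fun j => ?_) i
      · rw [Fin.snoc_last]
        exact hsub ⟨Fin.last m, rfl⟩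
      · rw [Fin.snoc_castSucc]
        exact hy j)
    Fin.castSucc
    (by
      intro j
      rw [Fin.snoc_castSucc]
      exact h.nz _)
  set z : Fin (m + 1) → ℂ := Fin.snoc (α := fun _ => ℂ) z' (w (Fin.last m)) with hz
  have hpt2 : IsPt (Sum.elim x (fun j : Fin m => y j.castSucc))
      (Sum.elim z (fun j : Fin m => Complex.exp (z' j))) := by
    intro f hf
    set σ : Fin (m + 1) ⊕ Fin m → Fin m ⊕ Fin (m + 1) :=
      Sum.elim (Fin.snoc (α := fun _ => Fin m ⊕ Fin (m + 1)) Sum.inl (Sum.inr (Fin.last m)))
        (fun j => Sum.inr j.castSucc) with hσ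
    have e1 : (Sum.elim (fun j : Fin m => x j.castSucc)
        (Fin.snoc (α := fun _ => F) (fun j : Fin m => y j.castSucc) (x (Fin.last m)))) ∘ σ =
        Sum.elim x (fun j : Fin m => y j.castSucc) := by
      funext i
      rcases i with i | j
      · refine Fin.lastCases ?_ (fun j => ?_) i
        · simp [hσ]
        · simp [hσ]
      · simp [hσ]
    have e2 : (Sum.elim z' w) ∘ σ = Sum.elim z (fun j : Fin m => Complex.exp (z' j)) := by
      funext i
      rcases i with i | j
      · refine Fin.lastCases ?_ (fun j => ?_) i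
        · simp [hσ, hz]
        · simp [hσ, hz]
      · simp [hσ, hw]
    have h1 := hpt (rename σ f) (by rw [aeval_rename, e1]; exact hf)
    rw [eval_rename, e2] at h1
    exact h1
  have hlast : y (Fin.last m) ∉
      cl (Set.range x ∪ Set.range (fun j : Fin m => y j.castSucc)) := by
    intro hmem
    have h1 : Set.range x ∪ Set.range (fun j : Fin m => y j.castSucc) ⊆ cl (Set.range x) := by
      refine Set.union_subset (subset_cl _) ?_
      rintro _ ⟨j, rfl⟩
      exact halg j
    have h2 : y (Fin.last m) ∈ cl (Set.range x) := cl_subset h1 hmem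
    have h3 : Set.range x ∪ Set.range y ⊆ cl (Set.range x) := by
      refine Set.union_subset (subset_cl _) ?_
      rintro _ ⟨j, rfl⟩
      refine Fin.lastCases ?_ (fun j => ?_) j
      · exact h2
      · exact halg j
    have h4 := rk_mono h3
    rw [h.rkv, hrk2] at h4
    have h5 : m + 1 ≤ m := by exact_mod_cast h4
    omega
  have h6 := free_coord hlast (z := z) (w := fun j : Fin m => Complex.exp (z' j))
    (fun j => Complex.exp_ne_zero _) (v := Complex.exp (z (Fin.last m)))
    (Complex.exp_ne_zero _) hpt2
  refine ⟨z, ?_⟩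
  have h7 : (fun j => Complex.exp (z j)) =
      (Fin.snoc (fun j : Fin m => Complex.exp (z' j)) (Complex.exp (z (Fin.last m))) :
        Fin (m + 1) → ℂ) := by
    funext i
    refine Fin.lastCases ?_ (fun j => ?_) i
    · rw [Fin.snoc_last]
    · rw [Fin.snoc_castSucc, hz, Fin.snoc_castSucc]
  rw [h7]
  exact h6

end XA
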