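import Pool.Agent.Lib.MP_228259_lc.A.CL2

/-!
T1C: one-dimensional torus, second case: the new variety `(x'', w; y'', h)` with
`w = y last`, `h ∈ ℂ(x'', y'')`.

PROOF. Write `X = range x''` (`x'' j = x j.castSucc`), `L = cl (X ∪ range y'')`.
(0) `m ≥ 1` (the empty family is algebraically independent). `rk X < m` (`rk_eq_iff`, `rk_range_le`), `rk (range x) = m ≤ rk X + 1`
(`range x = insert (x last) X`), so `rk X + 1 = m`... precisely `rk X = m - 1`. `range y'' ⊆ cl (range x)`, so
`rk (X ∪ range y'') ≤ rk (range x) = m`, and `= m` by `hrot`. `W = y last ∉ L`: otherwise, as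
`rk (range x) = m = rk (X ∪ range y'')` and both are contained in
`cl (range x)`, `x last ∈ L` by `subset_cl_of_rk`, and everything is in `L`: `rk (range x ∪ range y) ≤ m`,
a contradiction to `rkv`.
(1) `nz`: `h ≠ 0` since `h ∉ cl X` (`hβ` with `a = 0`, `c = 1`).
(2) `af`: `li k x' = li k'' x'' + k_last W`. If `k_last ≠ 0` then `W ∈ cl X` if it is a constant,
a contradiction. If `k_last = 0` it is `li (k'', 0) x`, use `h.af`.
(3) `mf`: `mo k y' = mo k'' y'' * h ^ k_last`; if `k_last ≠ 0` it is not in `cl X` by `hβ`, so not a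
constant (`cl_const`); if `k_last = 0` it is `mo (k'', 0) y`.
(4) `rkx`: `range x' = insert W X`, `W ∉ cl X`: `rk = (m - 1) + 1 = m`.
(5) `rkv`: `cl (range x' ∪ range y') = cl (insert W (X ∪ range y''))` as `h ∈ L`, so
`rk = m + 1`.
(6) Claim: if `g ∈ L` and `g ∈ cl (insert W X)` then `g ∈ cl X`: otherwise by `exchange`
`W ∈ cl (insert g X) ⊆ L`, a contradiction. Apply it to `g = mo b'' y'' * h ^ (b last)` (in `L`) and `hβ`, and to
`g = y'' j` and `hj`.
-/

namespace XA

open MvPolynomial

theorem t1c_insert {F : Type*} {m : ℕ} (u : Fin (m + 1) → F) :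
    Set.range u = insert (u (Fin.last m)) (Set.range fun j : Fin m => u j.castSucc) := by
  ext a
  constructor
  · rintro ⟨i, rfl⟩
    refine Fin.lastCases ?_ (fun j => ?_) i
    · exact Set.mem_insert _ _
    · exact Set.mem_insert_of_mem _ ⟨j, rfl⟩
  · rintro (rfl | ⟨j, rfl⟩)
    · exact ⟨_, rfl⟩
    · exact ⟨_, rfl⟩

theorem t1c_mo {F : Type*} [Field F] {m : ℕ} (b : Fin (m + 1) → ℤ) (u : Fin m → F) (g : F) :
    mo b (Fin.snoc u g : Fin (m + 1) → F) = mo (fun j => b j.castSucc) u * g ^ b (Fin.last m) := by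
  unfold mo
  rw [Fin.prod_univ_castSucc]
  simp

theorem t1c_li {F : Type*} [Field F] {m : ℕ} (b : Fin (m + 1) → ℤ) (u : Fin m → F) (g : F) :
    li b (Fin.snoc u g : Fin (m + 1) → F) =
      li (fun j => b j.castSucc) u + (b (Fin.last m) : F) * g := by
  unfold li
  rw [Fin.sum_univ_castSucc]
  simp

theorem t1c_mo0 {F : Type*} [Field F] {m : ℕ} (b : Fin (m + 1) → ℤ) (u : Fin (m + 1) → F)
    (hb : b (Fin.last m) = 0) :
    mo b u = mo (fun j => b j.castSucc) (fun j : Fin m => u j.castSucc) := by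
  unfold mo
  rw [Fin.prod_univ_castSucc, hb]
  simp

theorem t1c_li0 {F : Type*} [Field F] {m : ℕ} (b : Fin (m + 1) → ℤ) (u : Fin (m + 1) → F)
    (hb : b (Fin.last m) = 0) :
    li b u = li (fun j => b j.castSucc) (fun j : Fin m => u j.castSucc) := by
  unfold li
  rw [Fin.sum_univ_castSucc, hb]
  simp

theorem t1c {F : Type*} [Field F] [Algebra ℂ F] {m : ℕ} {x y : Fin (m + 1) → F} (h : FD x y)
    (hrot : (m : ℕ∞) ≤ rk (Set.range (fun j : Fin m => x j.castSucc) ∪
      Set.range (fun j : Fin m => y j.castSucc)))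
    (hdep : ¬ AlgebraicIndependent ℂ (fun j : Fin m => x j.castSucc))
    (halg : ∀ j : Fin m, y j.castSucc ∈ cl (Set.range x))
    {g : F} (hg : g ∈ cl (Set.range (fun j : Fin m => x j.castSucc) ∪
      Set.range (fun j : Fin m => y j.castSucc)))
    (hβ : ∀ (a : Fin m → ℤ) (c : ℤ), c ≠ 0 → mo a (fun j : Fin m => y j.castSucc) * g ^ c ∉
      cl (Set.range (fun j : Fin m => x j.castSucc)))
    (j₀ : Fin m) (hj₀ : y j₀.castSucc ∉ cl (Set.range (fun j : Fin m => x j.castSucc))) :
    FD (Fin.snoc (fun j : Fin m => x j.castSucc) (y (Fin.last m)) : Fin (m + 1) → F)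
      (Fin.snoc (fun j : Fin m => y j.castSucc) g : Fin (m + 1) → F) ∧
    (∀ b : Fin (m + 1) → ℤ,
      mo b (Fin.snoc (fun j : Fin m => y j.castSucc) g : Fin (m + 1) → F) ∈
        cl (Set.range (Fin.snoc (fun j : Fin m => x j.castSucc) (y (Fin.last m)) :
          Fin (m + 1) → F)) → b (Fin.last m) = 0) ∧
    y j₀.castSucc ∉ cl (Set.range (Fin.snoc (fun j : Fin m => x j.castSucc) (y (Fin.last m)) :
      Fin (m + 1) → F)) := by
  classical
  obtain ⟨X, hX⟩ : ∃ X, X = Set.range (fun j : Fin m => x j.castSucc) := ⟨_, rfl⟩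
  obtain ⟨Y, hY⟩ : ∃ Y, Y = Set.range (fun j : Fin m => y j.castSucc) := ⟨_, rfl⟩
  rw [← hX, ← hY] at hrot hg
  rw [← hX] at hβ hj₀
  obtain ⟨W, hW⟩ : ∃ W, W = y (Fin.last m) := ⟨_, rfl⟩
  rw [← hW]
  have hrx : Set.range x = insert (x (Fin.last m)) X := by rw [hX]; exact t1c_insert x
  have hry : Set.range y = insert W Y := by rw [hY, hW]; exact t1c_insert y
  have h1 : rk (Set.range x) = m := by
    have := h.rkx
    rw [Nat.cast_add, Nat.cast_one] at this
    exact WithTop.add_right_cancel (by exact ENat.natCast_ne_top 1) this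
  have hXle : rk X ≤ m := by
    have := rk_range_le (fun j : Fin m => x j.castSucc)
    rwa [Fintype.card_fin, ← hX] at this
  have hXne : rk X ≠ m := by
    intro h2
    apply hdep
    rw [← rk_eq_iff, Fintype.card_fin, ← hX]
    exact h2
  have hins : ∀ (a : F) (S : Set F), rk (insert a S) ≤ rk S + 1 := by
    intro a S
    by_cases ha : a ∈ cl S
    · rw [rk_insert_mem ha]; exact le_self_add
    · rw [rk_insert_not ha]
  have hX1 : rk X + 1 = m := by
    apply le_antisymm
    · exact Order.add_one_le_of_lt (lt_of_le_of_ne hXle hXne)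
    · rw [← h1, hrx]; exact hins _ _
  have hXx : X ⊆ Set.range x := by rw [hrx]; exact Set.subset_insert _ _
  have hYcl : Y ⊆ cl (Set.range x) := by
    rw [hY]; rintro _ ⟨j, rfl⟩; exact halg j
  have hT : rk (Set.range x ∪ Y) ≤ m := by
    rw [← h1]
    exact rk_mono (Set.union_subset (subset_cl _) hYcl)
  have hXY : rk (X ∪ Y) = m := by
    apply le_antisymm _ hrot
    refine le_trans (rk_mono ?_) hT
    exact (Set.union_subset_union_left _ hXx).trans (subset_cl _)
  have hTcl : Set.range x ∪ Y ⊆ cl (X ∪ Y) := by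
    apply subset_cl_of_rk (Set.union_subset_union_left _ hXx)
    · exact ne_top_of_le_ne_top (ENat.natCast_ne_top m) hT
    · rw [hXY]; exact hT
  have hWL : W ∉ cl (X ∪ Y) := by
    intro h2
    have h3 : rk (Set.range x ∪ Set.range y) ≤ m := by
      rw [← hXY]
      apply rk_mono
      apply Set.union_subset
      · exact (Set.subset_union_left).trans hTcl
      · rw [hry]
        exact Set.insert_subset h2 ((Set.subset_union_right).trans hTcl)
    rw [h.rkv] at h3
    have h4 : m + 1 ≤ m := by exact_mod_cast h3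
    omega
  have hXL : cl X ⊆ cl (X ∪ Y) := cl_mono Set.subset_union_left
  have hWX : W ∉ cl X := fun h2 => hWL (hXL h2)
  have hclaim : ∀ G : F, G ∈ cl (X ∪ Y) → G ∈ cl (insert W X) → G ∈ cl X := by
    intro G h2 h3
    by_contra h4
    have h5 := exchange h3 h4
    apply hWL
    refine cl_subset ?_ h5
    exact Set.insert_subset h2 ((Set.subset_union_left).trans (subset_cl _))
  have hrx' : Set.range (Fin.snoc (fun j : Fin m => x j.castSucc) W : Fin (m + 1) → F) =
      insert W X := by
    rw [t1c_insert, hX]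
    simp
  have hry' : Set.range (Fin.snoc (fun j : Fin m => y j.castSucc) g : Fin (m + 1) → F) =
      insert g Y := by
    rw [t1c_insert, hY]
    simp
  have hg0 : g ≠ 0 := by
    intro h2
    have h3 := hβ 0 1 one_ne_zero
    apply h3
    rw [h2, zpow_one, mul_zero]
    have := cl_const (F := F) 0 X
    rwa [map_zero] at this
  obtain ⟨K, hK⟩ := cl_field X
  obtain ⟨K2, hK2⟩ := cl_field (X ∪ Y)
  have hmoL : ∀ (b : Fin m → ℤ) (c : ℤ),
      mo b (fun j : Fin m => y j.castSucc) * g ^ c ∈ cl (X ∪ Y) := by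
    intro b c
    have h2 : mo b (fun j : Fin m => y j.castSucc) ∈ cl (X ∪ Y) := by
      apply mo_mem
      intro j
      apply subset_cl
      right
      rw [hY]
      exact ⟨j, rfl⟩
    rw [← hK2] at h2 hg ⊢
    exact mul_mem h2 (zpow_mem hg c)
  have hWr : rk (insert W (X ∪ Y)) = m + 1 := by
    rw [rk_insert_not hWL, hXY]
  refine ⟨⟨?_, ?_, ?_, ?_, ?_⟩, ?_, ?_⟩
  · intro j
    refine Fin.lastCases ?_ (fun i => ?_) j
    · rw [Fin.snoc_last]; exact hg0
    · rw [Fin.snoc_castSucc]; exact h.nz _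
  · intro k hk c hc
    by_cases hk0 : k (Fin.last m) = 0
    · apply h.af k hk c
      rw [t1c_li, hk0, Int.cast_zero, zero_mul, add_zero] at hc
      rw [t1c_li0 k x hk0]
      exact hc
    · apply hWX
      rw [t1c_li] at hc
      have h2 : li (fun j => k j.castSucc) (fun j : Fin m => x j.castSucc) ∈ cl X := by
        apply li_mem
        intro j
        apply subset_cl
        rw [hX]
        exact ⟨j, rfl⟩
      have h3 := cl_const (F := F) c X
      have h5 : (k (Fin.last m) : F) ≠ 0 := by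
        have : CharZero F := charZero_of_injective_algebraMap (algebraMap ℂ F).injective
        exact_mod_cast hk0
      have h4 : W = (algebraMap ℂ F c - li (fun j => k j.castSucc)
          (fun j : Fin m => x j.castSucc)) / (k (Fin.last m) : F) := by
        rw [eq_div_iff h5, ← hc]; ring
      rw [h4]
      rw [← hK] at h2 h3 ⊢
      exact div_mem (sub_mem h3 h2) (intCast_mem K _)
  · intro k hk c hc
    by_cases hk0 : k (Fin.last m) = 0
    · apply h.mf k hk c
      rw [t1c_mo, hk0, zpow_zero, mul_one] at hc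
      rw [t1c_mo0 k y hk0]
      exact hc
    · rw [t1c_mo] at hc
      apply hβ (fun j => k j.castSucc) _ hk0
      rw [hc]
      exact cl_const c X
  · rw [hrx', rk_insert_not hWX, hX1]
    push_cast
    rfl
  · rw [hrx', hry']
    have h2 : insert W X ∪ insert g Y = insert g (insert W (X ∪ Y)) := by
      ext a
      simp only [Set.mem_union, Set.mem_insert_iff]
      tauto
    rw [h2, rk_insert_mem, hWr]
    · push_cast
      rfl
    · exact cl_mono (Set.subset_insert _ _) hg
  · intro b hb
    rw [hrx', t1c_mo] at hb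
    by_contra hb0
    exact hβ (fun j => b j.castSucc) _ hb0 (hclaim _ (hmoL _ _) hb)
  · intro h2
    rw [hrx'] at h2
    apply hj₀
    apply hclaim _ _ h2
    apply subset_cl
    right
    rw [hY]
    exact ⟨j₀, rfl⟩

end XA
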