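import Pool.Agent.Lib.MP_228259_lc.A.LO
import Pool.Agent.Lib.MP_228259_lc.A.FC

/-!
T1D: one-dimensional torus, second case: back from the new variety.

PROOF. Let `(z', exp z')` be a point of `Loc x' y'` with `x' = (x'', y last)`, `y' = (y'', g)`,
`g = aeval (x'', y'') G₀`, `z' = (z'', v)`, and let `u = Sum.elim x'' y''`,
`p = Sum.elim z'' (exp z'')`. `IsPt u p`: restrict (rename the variables). The relation
`X (inr last) - rename G₀` of `(x', y')` gives `eval p G₀ = exp v ≠ 0`. Since `q.leadingCoeff` divides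
`G₀` (`hG₀`), `eval p q.leadingCoeff ≠ 0`. `lift_point` (with `a = x last`) gives `c`; then with
`z = Fin.snoc z'' c`, `(z, exp z'')` is a specialisation of `(x, y'')`: write a polynomial `f` in the variables
of `(x, y'')` as a polynomial in `X (inl last)` over the others. `free_coord` with
`v := exp c`: `(z, Fin.snoc (exp z'') (exp c)) ∈ Loc x y`, and the second component is `exp z`.
-/

namespace XA

open MvPolynomial

private noncomputable def xaT1Dpsi (m : ℕ) :
    Fin (m + 1) ⊕ Fin m → Polynomial (MvPolynomial (Fin m ⊕ Fin m) ℂ) :=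
  Sum.elim (Fin.snoc (α := fun _ => Polynomial (MvPolynomial (Fin m ⊕ Fin m) ℂ))
    (fun j : Fin m => Polynomial.C (X (Sum.inl j))) Polynomial.X)
    (fun j : Fin m => Polynomial.C (X (Sum.inr j)))

private lemma xaT1D_eval {R : Type*} [CommRing R] {m : ℕ}
    (θ : MvPolynomial (Fin m ⊕ Fin m) ℂ →+* R) (a : R) (f : MvPolynomial (Fin (m + 1) ⊕ Fin m) ℂ) :
    ((aeval (xaT1Dpsi m) f).map θ).eval a =
      eval₂ (θ.comp C) (Sum.elim (Fin.snoc (α := fun _ => R) (fun j : Fin m => θ (X (Sum.inl j))) a)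
        (fun j : Fin m => θ (X (Sum.inr j)))) f := by
  induction f using MvPolynomial.induction_on with
  | C b =>
    rw [aeval_C, eval₂_C]
    have h1 : (algebraMap ℂ (Polynomial (MvPolynomial (Fin m ⊕ Fin m) ℂ))) b =
        Polynomial.C (C b) := rfl
    rw [h1, Polynomial.map_C, Polynomial.eval_C]
    rfl
  | add f g hf hg =>
    rw [map_add, Polynomial.map_add, Polynomial.eval_add, eval₂_add, hf, hg]
  | mul_X f i hf =>
    rw [map_mul, Polynomial.map_mul, Polynomial.eval_mul, eval₂_mul, hf, aeval_X, eval₂_X]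
    congr 1
    rcases i with i | i
    · refine Fin.lastCases ?_ (fun j => ?_) i
      · simp [xaT1Dpsi]
      · simp [xaT1Dpsi]
    · simp [xaT1Dpsi]

theorem t1d {F : Type*} [Field F] [Algebra ℂ F] {m : ℕ} {x y : Fin (m + 1) → F}
    (hy : ∀ j, y j ≠ 0)
    (hw : y (Fin.last m) ∉ cl (Set.range x ∪ Set.range (fun j : Fin m => y j.castSucc)))
    (q : Polynomial (MvPolynomial (Fin m ⊕ Fin m) ℂ)) (hqd : 0 < q.natDegree)
    (hqa : (q.map (aeval (Sum.elim (fun j : Fin m => x j.castSucc)
      (fun j : Fin m => y j.castSucc)) : MvPolynomial (Fin m ⊕ Fin m) ℂ →ₐ[ℂ] F).toRingHom).eval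
        (x (Fin.last m)) = 0)
    (G₀ : MvPolynomial (Fin m ⊕ Fin m) ℂ) (hG₀ : q.leadingCoeff ∣ G₀)
    (h : HasExp (Fin.snoc (fun j : Fin m => x j.castSucc) (y (Fin.last m)) : Fin (m + 1) → F)
      (Fin.snoc (fun j : Fin m => y j.castSucc)
        (aeval (Sum.elim (fun j : Fin m => x j.castSucc) (fun j : Fin m => y j.castSucc)) G₀) :
          Fin (m + 1) → F)) :
    HasExp x y := by
  obtain ⟨z', hz', -⟩ := h
  set u : Fin m ⊕ Fin m → F := Sum.elim (fun j : Fin m => x j.castSucc)
    (fun j : Fin m => y j.castSucc) with hu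
  set z'' : Fin m → ℂ := fun j => z' j.castSucc with hz''
  set p : Fin m ⊕ Fin m → ℂ := Sum.elim z'' (fun j => Complex.exp (z'' j)) with hpdef
  set σ : Fin m ⊕ Fin m → Fin (m + 1) ⊕ Fin (m + 1) :=
    Sum.map Fin.castSucc Fin.castSucc with hσ
  have e1 : (Sum.elim (Fin.snoc (fun j : Fin m => x j.castSucc) (y (Fin.last m)) : Fin (m + 1) → F)
      (Fin.snoc (fun j : Fin m => y j.castSucc) (aeval u G₀) : Fin (m + 1) → F)) ∘ σ = u := by
    funext i
    rcases i with i | i
    · simp [hσ, hu]
    · simp [hσ, hu]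
  have e2 : (Sum.elim z' (fun j => Complex.exp (z' j))) ∘ σ = p := by
    funext i
    rcases i with i | i
    · simp [hσ, hpdef, hz'']
    · simp [hσ, hpdef, hz'']
  have hp : IsPt u p := by
    intro f hf
    have h1 := hz' (rename σ f) (by rw [aeval_rename, e1]; exact hf)
    rw [eval_rename, e2] at h1
    exact h1
  have hG : eval p G₀ = Complex.exp (z' (Fin.last m)) := by
    have h1 := hz' (X (Sum.inr (Fin.last m)) - rename σ G₀) (by
      rw [map_sub, aeval_X, aeval_rename, e1]
      simp)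
    rw [map_sub, eval_X, eval_rename, e2] at h1
    simp only [Sum.elim_inr] at h1
    exact (sub_eq_zero.1 h1).symm
  have hlc : eval p q.leadingCoeff ≠ 0 := by
    obtain ⟨r, hr⟩ := hG₀
    intro h0
    have h1 : eval p G₀ = 0 := by rw [hr, map_mul, h0, zero_mul]
    rw [hG] at h1
    exact Complex.exp_ne_zero _ h1
  obtain ⟨c, hc⟩ := lift_point hp (x (Fin.last m)) q hqd hqa hlc
  set z : Fin (m + 1) → ℂ := Fin.snoc (α := fun _ => ℂ) z'' c with hz
  have hpt2 : IsPt (Sum.elim x (fun j : Fin m => y j.castSucc))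
      (Sum.elim z (fun j : Fin m => Complex.exp (z'' j))) := by
    intro f hf
    have h1 := hc (aeval (xaT1Dpsi m) f) (by
      rw [xaT1D_eval, ← hf, aeval_def]
      congr 1
      · ext b
        simp
      · funext i
        rcases i with i | i
        · refine Fin.lastCases ?_ (fun j => ?_) i
          · simp
          · simp [hu]
        · simp [hu])
    rw [xaT1D_eval] at h1
    rw [← h1, eval, coe_eval₂Hom]
    congr 1
    · ext b
      simp
    · funext i
      rcases i with i | i
      · refine Fin.lastCases ?_ (fun j => ?_) i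
        · simp [hz]
        · simp [hz, hpdef]
      · simp [hpdef]
  have h6 := free_coord hw (z := z) (w := fun j : Fin m => Complex.exp (z'' j))
    (fun j => Complex.exp_ne_zero _) (v := Complex.exp c) (Complex.exp_ne_zero _) hpt2
  refine ⟨z, ?_⟩
  have h7 : (fun j => Complex.exp (z j)) =
      (Fin.snoc (fun j : Fin m => Complex.exp (z'' j)) (Complex.exp c) : Fin (m + 1) → ℂ) := by
    funext i
    refine Fin.lastCases ?_ (fun j => ?_) i
    · rw [Fin.snoc_last, hz, Fin.snoc_last]
    · rw [Fin.snoc_castSucc, hz, Fin.snoc_castSucc]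
  rw [h7]
  exact h6

end XA
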