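import Pool.Agent.Lib.MP_228259_lc.A.BE
import Pool.Agent.Lib.MP_228259_lc.A.T1C
import Pool.Agent.Lib.MP_228259_lc.A.T1D

/-!
T1B: one-dimensional torus, second case: assembly.

PROOF. Notation of T1C. As in T1C (0): `rk X = m - 1 < m = rk (X ∪ range y'')`, so some
`y j₀.castSucc ∉ cl X`, and `x last ∈ L = cl (X ∪ range y'')` and
`y last ∉ cl (range x ∪ range y'')` (that closure is `L`, of rank `m`). So there is
a non-zero polynomial over `adjoin ℂ (X ∪ range y'') = range (aeval u)`, `u = Sum.elim x'' y''`,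
vanishing at `x last`; lift its coefficients, dropping the leading coefficients in the kernel:
`q` with `aeval u q.leadingCoeff ≠ 0`, `(q.map (aeval u)).eval (x last) = 0`,
and `0 < q.natDegree`. `b0 = aeval u q.leadingCoeff`. `exists_beta` with `T = X`,
`y = y''`, `w = y j₀.castSucc` gives `β`. Put `G₀ = q.leadingCoeff * (X (inr j₀) - C β)`,
`g = aeval u G₀ = b0 * (y j₀ - β) ∈ L`. Use `t1c` and `t1d`.
-/

namespace XA

open MvPolynomial

private theorem t1b_lift {F : Type*} [Field F] [Algebra ℂ F] {ι : Type*} {u : ι → F} {a : F}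
    (ha : a ∈ cl (Set.range u)) :
    ∃ q : Polynomial (MvPolynomial ι ℂ), 0 < q.natDegree ∧
      (q.map (aeval u : MvPolynomial ι ℂ →ₐ[ℂ] F).toRingHom).eval a = 0 ∧
      aeval u q.leadingCoeff ≠ 0 := by
  obtain ⟨p, hp0, hpa⟩ := ha
  have hinj : Function.Injective (algebraMap (Algebra.adjoin ℂ (Set.range u)) F) :=
    Subtype.val_injective
  have hP0 : p.map (algebraMap (Algebra.adjoin ℂ (Set.range u)) F) ≠ 0 := by
    rwa [Ne, Polynomial.map_eq_zero_iff hinj]
  have hPa : (p.map (algebraMap (Algebra.adjoin ℂ (Set.range u)) F)).eval a = 0 := by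
    rw [Polynomial.eval_map]
    exact hpa
  have hlift : p.map (algebraMap (Algebra.adjoin ℂ (Set.range u)) F) ∈
      Polynomial.lifts (aeval u : MvPolynomial ι ℂ →ₐ[ℂ] F).toRingHom := by
    rw [Polynomial.lifts_iff_coeff_lifts]
    intro n
    rw [Polynomial.coeff_map]
    have h1 : ((p.coeff n : Algebra.adjoin ℂ (Set.range u)) : F) ∈
        (aeval u : MvPolynomial ι ℂ →ₐ[ℂ] F).range := by
      rw [← Algebra.adjoin_range_eq_range_aeval]
      exact (p.coeff n).2
    obtain ⟨r, hr⟩ := h1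
    exact ⟨r, hr⟩
  obtain ⟨q, hq, hdeg⟩ := Polynomial.exists_degree_eq_of_mem_lifts hlift
  have hnat := Polynomial.natDegree_eq_natDegree hdeg
  refine ⟨q, ?_, ?_, ?_⟩
  · rw [hnat]
    by_contra h0
    have h1 := Polynomial.eq_C_of_natDegree_eq_zero (Nat.eq_zero_of_not_pos h0)
    apply hP0
    rw [h1] at hPa ⊢
    rw [Polynomial.eval_C] at hPa
    rw [hPa, Polynomial.C_0]
  · rw [hq]
    exact hPa
  · have h1 : aeval u q.leadingCoeff =
        (q.map (aeval u : MvPolynomial ι ℂ →ₐ[ℂ] F).toRingHom).coeff q.natDegree := by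
      rw [Polynomial.coeff_map]
      rfl
    rw [h1, hq, hnat]
    exact Polynomial.leadingCoeff_ne_zero.2 hP0

theorem t1b {F : Type*} [Field F] [Algebra ℂ F] {m : ℕ} {x y : Fin (m + 1) → F} (h : FD x y)
    (hrot : (m : ℕ∞) ≤ rk (Set.range (fun j : Fin m => x j.castSucc) ∪
      Set.range (fun j : Fin m => y j.castSucc)))
    (hdep : ¬ AlgebraicIndependent ℂ (fun j : Fin m => x j.castSucc))
    (halg : ∀ j : Fin m, y j.castSucc ∈ cl (Set.range x)) :
    ∃ (x' y' : Fin (m + 1) → F), FD x' y' ∧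
      (∀ b : Fin (m + 1) → ℤ, mo b y' ∈ cl (Set.range x') → b (Fin.last m) = 0) ∧
      (∃ j₀ : Fin m, y' j₀.castSucc ∉ cl (Set.range x')) ∧ (HasExp x' y' → HasExp x y) := by
  classical
  obtain ⟨X', hX⟩ : ∃ X', X' = Set.range (fun j : Fin m => x j.castSucc) := ⟨_, rfl⟩
  obtain ⟨Y, hY⟩ : ∃ Y, Y = Set.range (fun j : Fin m => y j.castSucc) := ⟨_, rfl⟩
  have hrot' := hrot
  rw [← hX, ← hY] at hrot'
  have hrx : Set.range x = insert (x (Fin.last m)) X' := by rw [hX]; exact t1c_insert x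
  have hry : Set.range y = insert (y (Fin.last m)) Y := by rw [hY]; exact t1c_insert y
  have h1 : rk (Set.range x) = m := by
    have := h.rkx
    rw [Nat.cast_add, Nat.cast_one] at this
    exact WithTop.add_right_cancel (by exact ENat.natCast_ne_top 1) this
  have hXle : rk X' ≤ m := by
    have := rk_range_le (fun j : Fin m => x j.castSucc)
    rwa [Fintype.card_fin, ← hX] at this
  have hXne : rk X' ≠ m := by
    intro h2
    apply hdep
    rw [← rk_eq_iff, Fintype.card_fin, ← hX]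
    exact h2
  have hXx : X' ⊆ Set.range x := by rw [hrx]; exact Set.subset_insert _ _
  have hYcl : Y ⊆ cl (Set.range x) := by
    rw [hY]; rintro _ ⟨j, rfl⟩; exact halg j
  have hT : rk (Set.range x ∪ Y) ≤ m := by
    rw [← h1]
    exact rk_mono (Set.union_subset (subset_cl _) hYcl)
  have hXY : rk (X' ∪ Y) = m := by
    apply le_antisymm _ hrot'
    refine le_trans (rk_mono ?_) hT
    exact (Set.union_subset_union_left _ hXx).trans (subset_cl _)
  have hTcl : Set.range x ∪ Y ⊆ cl (X' ∪ Y) := by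
    apply subset_cl_of_rk (Set.union_subset_union_left _ hXx)
    · exact ne_top_of_le_ne_top (ENat.natCast_ne_top m) hT
    · rw [hXY]; exact hT
  have hWL : y (Fin.last m) ∉ cl (Set.range x ∪ Y) := by
    intro h2
    have h3 : rk (Set.range x ∪ Set.range y) ≤ m := by
      refine le_trans (rk_mono ?_) hT
      rw [hry]
      exact Set.union_subset (Set.subset_union_left.trans (subset_cl _))
        (Set.insert_subset h2 (Set.subset_union_right.trans (subset_cl _)))
    rw [h.rkv] at h3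
    have h4 : m + 1 ≤ m := by exact_mod_cast h3
    omega
  -- the index `j₀`
  obtain ⟨j₀, hj₀⟩ : ∃ j₀ : Fin m, y j₀.castSucc ∉ cl X' := by
    by_contra hcon
    push Not at hcon
    apply hXne
    apply le_antisymm hXle
    rw [← hXY]
    refine rk_mono (Set.union_subset (subset_cl _) ?_)
    rw [hY]
    rintro _ ⟨j, rfl⟩
    exact hcon j
  -- the polynomial `q`
  obtain ⟨u, hu⟩ : ∃ u : Fin m ⊕ Fin m → F, u = Sum.elim (fun j : Fin m => x j.castSucc)
    (fun j : Fin m => y j.castSucc) := ⟨_, rfl⟩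
  have hru : Set.range u = X' ∪ Y := by rw [hu, Set.Sum.elim_range, hX, hY]
  have hlast : x (Fin.last m) ∈ cl (Set.range u) := by
    rw [hru]
    exact hTcl (Or.inl ⟨Fin.last m, rfl⟩)
  obtain ⟨q, hqd, hqa, hb0⟩ := t1b_lift hlast
  -- the constant `β`
  obtain ⟨β, hβ⟩ := exists_beta (T := X') (y := fun j : Fin m => y j.castSucc)
    (fun j => h.nz _) hb0 hj₀
  obtain ⟨G₀, hG₀⟩ : ∃ G₀ : MvPolynomial (Fin m ⊕ Fin m) ℂ,
    G₀ = q.leadingCoeff * (X (Sum.inr j₀) - C β) := ⟨_, rfl⟩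
  have hg : aeval u G₀ = aeval u q.leadingCoeff * (y j₀.castSucc - algebraMap ℂ F β) := by
    rw [hG₀, map_mul, map_sub, aeval_X, aeval_C, hu, Sum.elim_inr]
  have hgcl : aeval u G₀ ∈ cl (Set.range u) := by
    have h2 : aeval u G₀ ∈ Algebra.adjoin ℂ (Set.range u) := by
      rw [Algebra.adjoin_range_eq_range_aeval]
      exact ⟨G₀, rfl⟩
    exact isAlgebraic_algebraMap (⟨_, h2⟩ : Algebra.adjoin ℂ (Set.range u))
  rw [hru, hX, hY] at hgcl
  obtain ⟨hFD, hlst, hjj⟩ := t1c h hrot hdep halg hgcl (fun a c hc => by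
    rw [hg, ← hX]
    exact hβ a c hc) j₀ (by rw [← hX]; exact hj₀)
  refine ⟨_, _, hFD, hlst, ⟨j₀, ?_⟩, fun hexp => ?_⟩
  · rw [Fin.snoc_castSucc]
    exact hjj
  · rw [hu] at hqa hexp
    rw [hY] at hWL
    exact t1d h.nz hWL q hqd hqa G₀ (Dvd.intro _ hG₀.symm) hexp

end XA
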