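import Pool.Agent.Lib.MP_228259_lc.A.HM

/-!
TR1: a unimodular change of coordinates and exponential points.

PROOF. Let `x' = U x`, `y' = y ^ U` and `(z', exp z') ∈ Loc x' y'`. `BL x y ≤ BL x' y'`: by `li_li`,
`mo_mo` and `U' * U = 1` one has `x j = li (U' j) x'` and `y j = mo (U' j) y'` (and
`(y j)⁻¹ = mo (-U' j) y'`); `Algebra.adjoin_le`, `mem_BL_mo`. Let `ψ'` be the homomorphism of
`loc_hom` for `z'` and `ψ` its restriction to `BL x y` (`Subalgebra.inclusion`). `hom_loc` gives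
`z ∈ Loc x y` with values `ψ`; `z.1 j = ψ' (x j) = li (U' j) z'` (`sp_li`), and
`z.2 j = ψ' (y j) = mo (U' j) (exp z') = exp (li (U' j) z')` (`sp_mo`, `Complex.exp_sum`,
`Complex.exp_int_mul`). So `z = (z.1, exp z.1)`.
-/

namespace XA

open MvPolynomial

variable {F : Type*} [Field F] [Algebra ℂ F] {n : ℕ}

private theorem tr1_x (x : Fin n → F) (U U' : Matrix (Fin n) (Fin n) ℤ) (h1 : U' * U = 1)
    (j : Fin n) : x j = li (U' j) (fun i => li (U i) x) := by
  rw [li_li, ← li_single x j]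
  congr 1
  funext l
  have := congrFun (congrFun h1 j) l
  rw [Matrix.mul_apply] at this
  rw [this, Matrix.one_apply, Pi.single_apply]
  by_cases hjl : j = l
  · rw [if_pos hjl, if_pos hjl.symm]
  · rw [if_neg hjl, if_neg (Ne.symm hjl)]

private theorem tr1_y {y : Fin n → F} (hy : ∀ j, y j ≠ 0) (U U' : Matrix (Fin n) (Fin n) ℤ)
    (h1 : U' * U = 1) (j : Fin n) : y j = mo (U' j) (fun i => mo (U i) y) := by
  rw [mo_mo hy, ← mo_single y j]
  congr 1
  funext l
  have := congrFun (congrFun h1 j) l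
  rw [Matrix.mul_apply] at this
  rw [this, Matrix.one_apply, Pi.single_apply]
  by_cases hjl : j = l
  · rw [if_pos hjl, if_pos hjl.symm]
  · rw [if_neg hjl, if_neg (Ne.symm hjl)]

private theorem tr1_li_mem (x y : Fin n → F) (b : Fin n → ℤ) : li b x ∈ BL x y := by
  unfold li
  refine Subalgebra.sum_mem _ fun j _ => ?_
  exact (BL x y).mul_mem (intCast_mem _ _) (mem_BL_x x y j)

private theorem tr1_exp (b : Fin n → ℤ) (z : Fin n → ℂ) :
    mo b (fun j => Complex.exp (z j)) = Complex.exp (li b z) := by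
  unfold mo li
  rw [Complex.exp_sum]
  exact Finset.prod_congr rfl fun j _ => (Complex.exp_int_mul _ _).symm

theorem hasExp_unimod {x y : Fin n → F} (hy : ∀ j, y j ≠ 0) (U U' : Matrix (Fin n) (Fin n) ℤ)
    (h1 : U' * U = 1) (h2 : U * U' = 1)
    (h : HasExp (fun i => li (U i) x) (fun i => mo (U i) y)) : HasExp x y := by
  obtain ⟨z', hz'⟩ := h
  have hy' : ∀ i, (fun i => mo (U i) y) i ≠ 0 := fun i => mo_ne_zero hy (U i)
  obtain ⟨ψ', hψ'⟩ := loc_hom hy' hz'
  have hle : BL x y ≤ BL (fun i => li (U i) x) (fun i => mo (U i) y) := by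
    unfold BL
    refine Algebra.adjoin_le ?_
    rintro a ((⟨j, rfl⟩ | ⟨j, rfl⟩) | ⟨j, rfl⟩)
    · rw [tr1_x x U U' h1 j]
      exact tr1_li_mem _ _ _
    · rw [tr1_y hy U U' h1 j]
      exact mem_BL_mo _ _ _
    · have e : (y j)⁻¹ = mo ((-1 : ℤ) • (U' j)) (fun i => mo (U i) y) := by
        rw [mo_smul, ← tr1_y hy U U' h1 j, zpow_neg_one]
      change (y j)⁻¹ ∈ _
      rw [e]
      exact mem_BL_mo _ _ _
  set ψ : BL x y →ₐ[ℂ] ℂ := ψ'.comp (Subalgebra.inclusion hle) with hψ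
  obtain ⟨z, hz, hsp⟩ := hom_loc hy ψ
  have hyB : ∀ j, y j ∈ BL x y := fun j => by
    rw [← mo_single y j]
    exact mem_BL_mo x y _
  have e1 : ∀ j, z.1 j = li (U' j) z' := by
    intro j
    have h3 := (hsp ⟨x j, mem_BL_x x y j⟩ j).1 rfl
    rw [← h3]
    change ψ' (Subalgebra.inclusion hle ⟨x j, mem_BL_x x y j⟩) = _
    exact sp_li hψ' (U' j) _ (tr1_x x U U' h1 j)
  have e2 : ∀ j, z.2 j = Complex.exp (z.1 j) := by
    intro j
    have h3 := (hsp ⟨y j, hyB j⟩ j).2 rfl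
    rw [← h3]
    change ψ' (Subalgebra.inclusion hle ⟨y j, hyB j⟩) = _
    rw [sp_mo hy' hψ' (U' j) _ (tr1_y hy U U' h1 j), e1 j]
    exact tr1_exp (U' j) z'
  refine ⟨z.1, ?_⟩
  have : (z.1, fun j => Complex.exp (z.1 j)) = z := by
    refine Prod.ext rfl ?_
    funext j
    exact (e2 j).symm
  rw [this]
  exact hz

end XA
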