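import Pool.Agent.Lib.MP_228259_lc.A.AB
import Pool.Agent.Lib.MP_228259_lc.A.TR1
import Pool.Agent.Lib.MP_228259_lc.A.T1A
import Pool.Agent.Lib.MP_228259_lc.A.T1B
import Pool.Agent.Lib.MP_228259_lc.A.RO

/-!
RED: reduction to a torus of dimension at least two, in adapted coordinates.

PROOF. `n = m + 1` (`rkx`). `adapted` gives `U, U', r`; `fd_unimod`, `rot_unimod` for
`x₁ = U x`, `y₁ = y ^ U`.
If `r < m`: take `x' = x₁`, `y' = y₁`; `hasExp_unimod`.
If `r = m`: `y₁ j.castSucc ∈ cl (range x₁)` for `j : Fin m` (property with `b = Pi.single _ 1`, `mo_single`).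
If `x₁ ∘ castSucc` is algebraically independent then `t1a` gives `HasExp x₁ y₁`, so `HasExp x y` by
`hasExp_unimod` (first alternative). Otherwise `m ≥ 1` and `t1b` (with `rot_first`) gives `(x₂, y₂)` with `FD`, and
`A₂ = {b | mo b y₂ ∈ cl (range x₂)} ⊆ {b last = 0}` and some `e_{j₀} ∉ A₂`, `j₀ < m`. Apply
`adapted` to `(x₂, y₂)`: `U₂, U₂', r₂` and put `x' = U₂ x₂`, `y' = y₂ ^ U₂`. `r₂ < m`: if `r₂ = m`
then `U₂ i ∈ A₂` for `i < m`, so `U₂ i last = 0` for `i < m`. From `U₂' * U₂ = 1` one gets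
`U₂' last last * U₂ last last = 1` and `U₂' j₀ last * U₂ last last = 0`, so `U₂' j₀ last = 0` and
`e_{j₀} = (U₂' j₀) U₂ ∈ A₂`, a contradiction. Compose the implications of `hasExp_unimod`, `t1b`.
-/

namespace XA

open MvPolynomial

private theorem red_contra {F : Type*} [Field F] [Algebra ℂ F] {m : ℕ} {x y : Fin (m + 1) → F}
    (h : FD x y) (hA : ∀ b : Fin (m + 1) → ℤ, mo b y ∈ cl (Set.range x) → b (Fin.last m) = 0)
    (hj : ∃ j₀ : Fin m, y j₀.castSucc ∉ cl (Set.range x))
    (U U' : Matrix (Fin (m + 1)) (Fin (m + 1)) ℤ) (h1 : U' * U = 1) (h2 : U * U' = 1)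
    (hb : ∀ b : Fin (m + 1) → ℤ,
      mo b (fun i => mo (U i) y) ∈ cl (Set.range (fun i => li (U i) x)) ↔
        ∀ i : Fin (m + 1), m ≤ (i : ℕ) → b i = 0) : False := by
  obtain ⟨j₀, hj₀⟩ := hj
  obtain ⟨e1, -⟩ := cl_unimod (x := x) h.nz U U' h1 h2
  rw [e1] at hb
  have hU : ∀ i : Fin m, U i.castSucc (Fin.last m) = 0 := by
    intro i
    apply hA
    have h3 := (hb (Pi.single i.castSucc 1)).2 (by
      intro l hl
      rw [Pi.single_eq_of_ne]
      intro h4
      rw [h4] at hl
      have := i.2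
      simp only [Fin.val_castSucc] at hl
      omega)
    rwa [mo_single] at h3
  have hent : ∀ l : Fin (m + 1), (U' * U) l (Fin.last m) =
      U' l (Fin.last m) * U (Fin.last m) (Fin.last m) := by
    intro l
    rw [Matrix.mul_apply, Fin.sum_univ_castSucc]
    rw [Finset.sum_eq_zero, zero_add]
    intro i _
    rw [hU i, mul_zero]
  have h5 : U (Fin.last m) (Fin.last m) ≠ 0 := by
    intro h0
    have h6 := hent (Fin.last m)
    rw [h1, h0, mul_zero, Matrix.one_apply_eq] at h6
    exact one_ne_zero h6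
  have h7 : U' j₀.castSucc (Fin.last m) = 0 := by
    have h6 := hent j₀.castSucc
    rw [h1, Matrix.one_apply_ne (Fin.castSucc_lt_last j₀).ne] at h6
    rcases mul_eq_zero.1 h6.symm with h8 | h8
    · exact h8
    · exact absurd h8 h5
  have h9 := (hb (U' j₀.castSucc)).2 (by
    intro l hl
    have h10 : l = Fin.last m := by
      apply Fin.ext
      have := l.2
      simp only [Fin.val_last]
      omega
    rw [h10, h7])
  rw [mo_mo h.nz] at h9
  have h11 : (fun j => ∑ i, U' j₀.castSucc i * U i j) = Pi.single j₀.castSucc (1 : ℤ) := by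
    funext l
    have h4 := congrFun (congrFun h1 j₀.castSucc) l
    rw [Matrix.mul_apply] at h4
    rw [h4, Matrix.one_apply, Pi.single_apply]
    simp only [eq_comm]
  rw [h11, mo_single] at h9
  exact hj₀ h9

theorem reduction {F : Type*} [Field F] [Algebra ℂ F] {n : ℕ} {x y : Fin n → F} (h : FD x y)
    (hrot : Rot x y) :
    HasExp x y ∨ ∃ (x' y' : Fin n → F) (r : ℕ), FD x' y' ∧ r + 2 ≤ n ∧
      (∀ b : Fin n → ℤ, mo b y' ∈ cl (Set.range x') ↔ ∀ i : Fin n, r ≤ (i : ℕ) → b i = 0) ∧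
      (HasExp x' y' → HasExp x y) := by
  rcases n with _ | m
  · exfalso
    have h0 := h.rkx
    simp at h0
  obtain ⟨U, U', r, h1, h2, hr, hb⟩ := adapted h
  have hF1 := fd_unimod h U U' h1 h2
  have hR1 := rot_unimod h.nz hrot U U' h1 h2
  by_cases hrm : r < m
  · right
    exact ⟨_, _, r, hF1, by omega, hb, hasExp_unimod h.nz U U' h1 h2⟩
  have hrm' : r = m := by omega
  subst hrm'
  have halg : ∀ j : Fin r, (fun i => mo (U i) y) j.castSucc ∈
      cl (Set.range (fun i => li (U i) x)) := by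
    intro j
    have h3 := (hb (Pi.single j.castSucc 1)).2 (by
      intro l hl
      rw [Pi.single_eq_of_ne]
      intro h4
      rw [h4] at hl
      have := j.2
      simp only [Fin.val_castSucc] at hl
      omega)
    rwa [mo_single] at h3
  by_cases hind : AlgebraicIndependent ℂ (fun j : Fin r => (fun i => li (U i) x) j.castSucc)
  · left
    exact hasExp_unimod h.nz U U' h1 h2 (t1a hF1 hind halg)
  have hm : 1 ≤ r := by
    by_contra h0
    have h0' : r = 0 := by omega
    subst h0'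
    apply hind
    exact algebraicIndependent_empty_type
  obtain ⟨x₂, y₂, hF2, hA, hj, himp⟩ := t1b hF1 (rot_first hm hR1) hind halg
  obtain ⟨V, V', s, h3, h4, hs, hbs⟩ := adapted hF2
  by_cases hsr : s < r
  · right
    exact ⟨_, _, s, fd_unimod hF2 V V' h3 h4, by omega, hbs, fun h5 =>
      hasExp_unimod h.nz U U' h1 h2 (himp (hasExp_unimod hF2.nz V V' h3 h4 h5))⟩
  · exfalso
    have hsr' : s = r := by omega
    subst hsr'
    exact red_contra hF2 hA hj V V' h3 h4 hbs

end XA
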