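import Pool.Agent.Lib.MP_228259_lc.A.PT1

/-!
PT3: the same as PT1 for an arbitrary finite family `u` of polynomials in `w` over `L`.

PROOF. Copy the proof of `pt_exists` (PT1.lean) with `ι` in place of `Fin n ⊕ Fin n`,
`Yp` in place of `Sum.elim (C ∘ xL) Yp`, and `U` = the coefficients of `f`, of the `Yp i` and of the
cofactors `k h`.
-/

set_option autoImplicit false

namespace XA

open MvPolynomial

theorem pt_general {F L : Type*} [Field F] [Algebra ℂ F] [Field L] [Algebra ℂ L] [Algebra L F]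
    [IsScalarTower ℂ L F] {ι : Type*} [Finite ι] {m : ℕ} {u : ι → F} {w : Fin m → F}
    {f : MvPolynomial (Fin m) L} (hf : ∀ h : MvPolynomial (Fin m) L, aeval w h = 0 → f ∣ h)
    {Yp : ι → MvPolynomial (Fin m) L} (hY : ∀ j, aeval w (Yp j) = u j) :
    ∃ (U : Set L) (fB : MvPolynomial (Fin m) (Algebra.adjoin ℂ U))
      (YB : ι → MvPolynomial (Fin m) (Algebra.adjoin ℂ U)), U.Finite ∧
      map (algebraMap (Algebra.adjoin ℂ U) L) fB = f ∧
      (∀ j, map (algebraMap (Algebra.adjoin ℂ U) L) (YB j) = Yp j) ∧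
      ∀ (σ : Algebra.adjoin ℂ U →ₐ[ℂ] ℂ) (v : Fin m → ℂ),
        eval v (map (σ : Algebra.adjoin ℂ U →+* ℂ) fB) = 0 →
        IsPt u (fun j => eval v (map (σ : Algebra.adjoin ℂ U →+* ℂ) (YB j))) := by
  classical
  have : Fintype ι := Fintype.ofFinite ι
  -- the ideal of relations is finitely generated
  obtain ⟨S, hS⟩ := (isNoetherianRing_iff_ideal_fg (MvPolynomial ι ℂ)).1
    inferInstance (RingHom.ker (aeval u : MvPolynomial ι ℂ →ₐ[ℂ] F))
  let Θ : MvPolynomial ι ℂ →ₐ[ℂ] MvPolynomial (Fin m) L := aeval Yp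
  have hΘ : ∀ h, aeval w (Θ h) = aeval u h := by
    intro h
    have h1 : ((aeval w : MvPolynomial (Fin m) L →ₐ[L] F).restrictScalars ℂ).comp Θ =
        aeval u := by
      apply MvPolynomial.algHom_ext
      intro i
      simp [Θ, hY]
    exact DFunLike.congr_fun h1 h
  have hdiv : ∀ h ∈ S, f ∣ Θ h := by
    intro h hh
    apply hf
    rw [hΘ]
    have h1 : h ∈ Ideal.span (S : Set (MvPolynomial ι ℂ)) := Ideal.subset_span hh
    rw [hS] at h1
    exact h1
  choose! k hk using hdiv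
  let U : Set L := (f.coeffs : Set L) ∪ (⋃ j, ((Yp j).coeffs : Set L)) ∪
    ⋃ h ∈ S, ((k h).coeffs : Set L)
  have hU : U.Finite := by
    refine Set.Finite.union (Set.Finite.union
      (Finset.finite_toSet _) (Set.finite_iUnion fun j => Finset.finite_toSet _)) ?_
    exact Set.Finite.biUnion (Finset.finite_toSet S) fun h _ => Finset.finite_toSet _
  have hlift : ∀ p : MvPolynomial (Fin m) L, (p.coeffs : Set L) ⊆ U →
      ∃ pB : MvPolynomial (Fin m) (Algebra.adjoin ℂ U),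
        map (algebraMap (Algebra.adjoin ℂ U) L) pB = p := by
    intro p hp
    have h1 : p ∈ Set.range (map (algebraMap (Algebra.adjoin ℂ U) L)) := by
      rw [mem_range_map_iff_coeffs_subset]
      intro c hc
      exact ⟨⟨c, Algebra.subset_adjoin (hp hc)⟩, rfl⟩
    exact h1
  obtain ⟨fB, hfB⟩ := hlift f (fun c hc => Or.inl (Or.inl hc))
  have hYB' := fun j => hlift (Yp j) (fun c hc => Or.inl (Or.inr (Set.mem_iUnion.2 ⟨j, hc⟩)))
  choose YB hYB using hYB'
  have hkB' : ∀ h ∈ S, ∃ kB : MvPolynomial (Fin m) (Algebra.adjoin ℂ U),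
      map (algebraMap (Algebra.adjoin ℂ U) L) kB = k h := fun h hh =>
    hlift (k h) (fun c hc => Or.inr (Set.mem_biUnion hh hc))
  refine ⟨U, fB, YB, hU, hfB, hYB, ?_⟩
  intro σ v hv
  let ΘB : MvPolynomial ι ℂ →ₐ[ℂ] MvPolynomial (Fin m) (Algebra.adjoin ℂ U) := aeval YB
  have hΘB : ∀ h, map (algebraMap (Algebra.adjoin ℂ U) L) (ΘB h) = Θ h := by
    intro h
    have h1 : (mapAlgHom (Algebra.adjoin ℂ U).val).comp ΘB = Θ := by
      apply MvPolynomial.algHom_ext
      intro i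
      have h2 := hYB i
      simp only [Θ, ΘB, AlgHom.comp_apply, aeval_X]
      exact h2
    exact DFunLike.congr_fun h1 h
  have hinj : Function.Injective (map (σ := Fin m) (algebraMap (Algebra.adjoin ℂ U) L)) :=
    map_injective _ Subtype.val_injective
  have hker : ∀ h ∈ S, fB ∣ ΘB h := by
    intro h hh
    obtain ⟨kB, hkB⟩ := hkB' h hh
    refine ⟨kB, hinj ?_⟩
    rw [hΘB, map_mul, hfB, hkB]
    exact hk h hh
  let ev : MvPolynomial ι ℂ →ₐ[ℂ] ℂ :=
    ((aeval v : MvPolynomial (Fin m) ℂ →ₐ[ℂ] ℂ).comp (mapAlgHom σ)).comp ΘB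
  have hev : ev = aeval (fun j => eval v (map (σ : Algebra.adjoin ℂ U →+* ℂ) (YB j))) := by
    apply MvPolynomial.algHom_ext
    intro i
    simp only [ev, ΘB, AlgHom.comp_apply, aeval_X]
    rw [aeval_eq_eval]
    rfl
  have hevS : ∀ h ∈ S, ev h = 0 := by
    intro h hh
    obtain ⟨r, hr⟩ := hker h hh
    have h1 : aeval v (mapAlgHom σ fB) = (0 : ℂ) := by
      rw [aeval_eq_eval]
      exact hv
    simp only [ev, AlgHom.comp_apply]
    rw [hr, map_mul, map_mul, h1, zero_mul]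
  intro g hg
  have h1 : g ∈ Ideal.span (S : Set (MvPolynomial ι ℂ)) := by
    rw [hS]
    exact hg
  have h2 : Ideal.span (S : Set (MvPolynomial ι ℂ)) ≤ RingHom.ker ev :=
    Ideal.span_le.2 fun h hh => hevS h hh
  have h3 : ev g = 0 := h2 h1
  rw [hev] at h3
  rw [← aeval_eq_eval]
  exact h3

end XA
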