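import Pool.Agent.Lib.MP_228259_lc.A.TB3A
import Pool.Agent.Lib.MP_228259_lc.A.IND
import Pool.Agent.Lib.MP_228259_lc.A.CLI
import Pool.Agent.Lib.MP_228259_lc.A.PT3

/-!
TB3: `n = 3`, `dim T = 2`, `y_1` and `x_2` algebraic over `ℂ(x_1)`.

PROOF. Let `L` be the intermediate field with carrier `cl {x 0}` (`cl_field`), `w = ![x 2, y 1, y 2]`.
`rk {x 0} = 1`; `rk ({x 0} ∪ range w) = rk (range x ∪ range y) = 3` (`x 1, y 0 ∈ cl {x 0}`). `principal_cl`
(`m = 3`) gives an irreducible `f` over `L` with `aeval w f = 0` which divides all relations.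
*Two exponents.* There are `α, β ∈ f.support` with `α 2 ≠ β 2`: otherwise `f = X 2 ^ k * g` where `g` is a
polynomial in `X 0, X 1` (`vars ⊆ {0, 1}`), `g ≠ 0`, and `aeval w g = 0` as `y 2 ≠ 0`; but `x 2, y 1` are
algebraically independent over `L` (`indep_over`: `rk {x 0, x 2, y 1} = 3`, because `x 2 ∉ cl {x 0}`: otherwise
`rk (range x) ≤ 1`; and `y 1 ∉ cl {x 0, x 2} = cl (range x)` by `h2` with `a = Pi.single 1 1`, `mo_single`).
*Application of `pt_general`* with `ι = Fin 3 ⊕ Fin 3`, `u = Sum.elim x y`,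
`Yp = Sum.elim ![C x_0, C x_1, X 0] ![C y_0, X 1, X 2]`: it gives `U, fB, YB`, `B = adjoin ℂ U` (of finite
type). Let `sb = coeff 0 (YB (inl 0))`, `Xb = coeff 0 (YB (inl 1))`, `yb = coeff 0 (YB (inr 0))` (their
images in `L` are `x_0, x_1, y_0`; by injectivity of `map (algebraMap B L)`, `YB (inl 0) = C sb`, ...,
`YB (inl 2) = X 0`, ...).
*`li_field`* for the field `L`, `s = x_0`, `y = y_0`, `X = x_1` (`hs`, `hX` by `h.af`, `hy` by `h.mf` with
`Pi.single 0 1`; `halg` by `cl_map` for the inclusion `L → F`), `ψ` the inclusion of `B`,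
`Q = Q_α * Q_β`, `Q_α = ∑ γ ∈ f.support.filter (γ 0 = α 0 ∧ γ 2 = α 2), C (coeff γ fB) * X ^ γ 1`, whose
coefficient of `X ^ α 1` is `coeff α fB` (the `γ` in the sum have different `γ 1`), so `Q_α ≠ 0`, `Q_β ≠ 0`,
`Q ≠ 0` (`B` is a domain and `ψ` injective). It gives `σ` with `σ yb = exp (σ sb)` and `Q^σ(E) ≠ 0` for
`E = exp (σ Xb)`, so `Q_α^σ(E) ≠ 0` and `Q_β^σ(E) ≠ 0`.
*`sum_zero_three`* for `map σ fB` (its support may be smaller: the terms with `coeff = 0` do not change the
sums), `E`, `α`, `β` gives `ξ` with `eval ![ξ, E, exp ξ] (map σ fB) = 0`. `pt_general` with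
`v = ![ξ, E, exp ξ]` gives the point `x ↦ (σ sb, σ Xb, ξ)`, `y ↦ (σ yb, E, exp ξ)`, which is
`(z, exp z)`.
-/

set_option autoImplicit false

namespace XA

open MvPolynomial

theorem t2_b3 {F : Type} [Field F] [Algebra ℂ F] {x y : Fin 3 → F} (h : FD x y)
    (h2 : ∀ a : Fin 3 → ℤ, mo a y ∈ cl (Set.range x) → a 1 = 0 ∧ a 2 = 0)
    (hy : y 0 ∈ cl {x 0}) (hx : x 1 ∈ cl {x 0}) : HasExp x y := by
  classical
  obtain ⟨L, hL⟩ := cl_field {x 0}
  have hmemL : ∀ a : F, a ∈ L ↔ a ∈ cl {x 0} := fun a => by rw [← hL]; rfl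
  -- ranks
  have hx0 : x 0 ∉ cl (∅ : Set F) := by
    intro h0
    obtain ⟨c, hc⟩ := cl_empty h0
    refine h.af (Pi.single 0 1) ?_ c ?_
    · intro h1
      have h3 := congrFun h1 0
      simp at h3
    · rw [li_single, hc]
  have hrk0 : rk ({x 0} : Set F) = 1 := by
    have h1 := rk_insert_not hx0
    have h3 : rk (∅ : Set F) = 0 := Matroid.eRk_empty _
    rw [h3, zero_add, insert_empty_eq] at h1
    exact h1
  have hrkx : rk (Set.range x) = 2 := by
    have h1 := h.rkx
    have h3 : rk (Set.range x) + 1 = 2 + 1 := by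
      rw [h1]
      norm_num
    exact ENat.add_left_injective_of_ne_top (n := 1) (by simp) h3
  have hrkv : rk (Set.range x ∪ Set.range y) = 3 := h.rkv
  have hx0S : ∀ S : Set F, x 0 ∈ S → cl {x 0} ⊆ cl S := fun S hS =>
    cl_mono (Set.singleton_subset_iff.2 hS)
  -- the relations
  set w : Fin 3 → F := ![x 2, y 1, y 2] with hw
  have hw0 : w 0 = x 2 := rfl
  have hw1 : w 1 = y 1 := rfl
  have hw2 : w 2 = y 2 := rfl
  have hrkw : rk ({x 0} ∪ Set.range w) = 3 := by
    rw [← hrkv]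
    apply le_antisymm
    · apply rk_mono
      rintro _ (rfl | ⟨j, rfl⟩)
      · exact subset_cl _ (Or.inl ⟨0, rfl⟩)
      · fin_cases j
        · exact subset_cl _ (Or.inl ⟨2, rfl⟩)
        · exact subset_cl _ (Or.inr ⟨1, rfl⟩)
        · exact subset_cl _ (Or.inr ⟨2, rfl⟩)
    · apply rk_mono
      rintro _ (⟨j, rfl⟩ | ⟨j, rfl⟩)
      · fin_cases j
        · exact subset_cl _ (Or.inl rfl)
        · exact hx0S _ (Or.inl rfl) hx
        · exact subset_cl _ (Or.inr ⟨0, rfl⟩)
      · fin_cases j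
        · exact hx0S _ (Or.inl rfl) hy
        · exact subset_cl _ (Or.inr ⟨1, rfl⟩)
        · exact subset_cl _ (Or.inr ⟨2, rfl⟩)
  have hS1 : rk ({x 0} : Set F) ≠ ⊤ := by
    rw [hrk0]
    simp
  obtain ⟨f, hfirr, hfw, hfdiv⟩ := principal_cl (m := 3) (w := w) hS1 hL (by
    rw [hrkw, hrk0]
    norm_num)
  have hf0 : f ≠ 0 := hfirr.ne_zero
  -- independence of `x 2`, `y 1` over `L`
  have hy1 : y 1 ∉ cl (Set.range x) := by
    intro h1
    have h3 := h2 (Pi.single 1 1) (by rw [mo_single]; exact h1)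
    have h4 := h3.1
    simp at h4
  have hind : AlgebraicIndependent L ![x 2, y 1] := by
    rw [indep_over hS1 hL, hrk0]
    have h1 := rk_insert_not hy1
    rw [hrkx] at h1
    have h3 : rk ({x 0} ∪ Set.range ![x 2, y 1]) = rk (insert (y 1) (Set.range x)) := by
      apply le_antisymm
      · apply rk_mono
        rintro _ (rfl | ⟨j, rfl⟩)
        · exact subset_cl _ (Or.inr ⟨0, rfl⟩)
        · fin_cases j
          · exact subset_cl _ (Or.inr ⟨2, rfl⟩)
          · exact subset_cl _ (Or.inl rfl)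
      · apply rk_mono
        rintro _ (rfl | ⟨j, rfl⟩)
        · exact subset_cl _ (Or.inr ⟨1, rfl⟩)
        · fin_cases j
          · exact subset_cl _ (Or.inl rfl)
          · exact hx0S _ (Or.inl rfl) hx
          · exact subset_cl _ (Or.inr ⟨0, rfl⟩)
    rw [h3, h1, Fintype.card_fin]
    norm_num
  -- two exponents
  have hsep : ∀ γ δ : Fin 3 →₀ ℕ, γ 0 = δ 0 → γ 1 = δ 1 → γ 2 = δ 2 → γ = δ := by
    intro γ δ h0 h1 h3
    ext j
    fin_cases j
    · exact h0
    · exact h1
    · exact h3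
  have htwo : ∃ α ∈ f.support, ∃ β ∈ f.support, α 2 ≠ β 2 := by
    by_contra hcon
    push Not at hcon
    obtain ⟨α, hα⟩ := Finset.nonempty_iff_ne_empty.2 (mt MvPolynomial.support_eq_empty.1 hf0)
    set e : (Fin 3 →₀ ℕ) → (Fin 2 →₀ ℕ) := fun γ =>
      Finsupp.equivFunOnFinite.symm ![γ 0, γ 1] with he
    have he0 : ∀ γ, e γ 0 = γ 0 := fun γ => rfl
    have he1 : ∀ γ, e γ 1 = γ 1 := fun γ => rfl
    set g : MvPolynomial (Fin 2) L := ∑ γ ∈ f.support, monomial (e γ) (coeff γ f) with hg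
    have hfeval : aeval w f = y 2 ^ (α 2) * aeval ![x 2, y 1] g := by
      rw [MvPolynomial.aeval_def, MvPolynomial.eval₂_eq', hg, map_sum, Finset.mul_sum]
      refine Finset.sum_congr rfl fun γ hγ => ?_
      rw [Fin.prod_univ_three, hw0, hw1, hw2, MvPolynomial.aeval_monomial, Finsupp.prod_fintype _ _
        (fun i => pow_zero _), Fin.prod_univ_two, he0, he1, hcon γ hγ α hα]
      simp only [Matrix.cons_val_zero, Matrix.cons_val_one]
      ring
    have hg0 : g = 0 := by
      apply hind.eq_zero_of_aeval_eq_zero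
      rw [hfw] at hfeval
      rcases mul_eq_zero.1 hfeval.symm with h1 | h1
      · exact absurd h1 (pow_ne_zero _ (h.nz 2))
      · exact h1
    have hc : coeff (e α) g = coeff α f := by
      rw [hg, MvPolynomial.coeff_sum, Finset.sum_eq_single α]
      · rw [MvPolynomial.coeff_monomial, if_pos rfl]
      · intro γ hγ hne
        rw [MvPolynomial.coeff_monomial, if_neg]
        intro h1
        apply hne
        refine hsep γ α ?_ ?_ (hcon γ hγ α hα)
        · rw [← he0, h1, he0]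
        · rw [← he1, h1, he1]
      · intro h1
        exact absurd hα h1
    rw [hg0, MvPolynomial.coeff_zero] at hc
    exact (MvPolynomial.mem_support_iff.1 hα) hc.symm
  obtain ⟨α, hα, β, hβ, hαβ⟩ := htwo
  -- the elements of `L`
  set x0 : L := ⟨x 0, (hmemL _).2 (subset_cl _ rfl)⟩ with hx0d
  set x1 : L := ⟨x 1, (hmemL _).2 hx⟩ with hx1d
  set y0 : L := ⟨y 0, (hmemL _).2 hy⟩ with hy0d
  obtain ⟨U, fB, YB, hU, hfB, hYB, hpt⟩ := pt_general (u := Sum.elim x y) (w := w) (f := f) hfdiv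
    (Yp := Sum.elim ![C x0, C x1, X 0] ![C y0, X 1, X 2]) (by
      rintro (j | j)
      · fin_cases j
        · exact MvPolynomial.aeval_C w x0
        · exact MvPolynomial.aeval_C w x1
        · exact MvPolynomial.aeval_X w 0
      · fin_cases j
        · exact MvPolynomial.aeval_C w y0
        · exact MvPolynomial.aeval_X w 1
        · exact MvPolynomial.aeval_X w 2)
  have : Algebra.FiniteType ℂ (Algebra.adjoin ℂ U) := Algebra.FiniteType.adjoin_of_finite hU
  have hinj : Function.Injective (map (σ := Fin 3) (algebraMap (Algebra.adjoin ℂ U) L)) :=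
    map_injective _ Subtype.val_injective
  have hYC : ∀ (i : Fin 3 ⊕ Fin 3) (a : L),
      map (algebraMap (Algebra.adjoin ℂ U) L) (YB i) = C a →
      YB i = C (coeff 0 (YB i)) ∧ algebraMap (Algebra.adjoin ℂ U) L (coeff 0 (YB i)) = a := by
    intro i a hi
    have h1 : algebraMap (Algebra.adjoin ℂ U) L (coeff 0 (YB i)) = a := by
      rw [← MvPolynomial.coeff_map, hi, MvPolynomial.coeff_zero_C]
    refine ⟨hinj ?_, h1⟩
    rw [hi, MvPolynomial.map_C, h1]
  have hYX : ∀ (i : Fin 3 ⊕ Fin 3) (j : Fin 3),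
      map (algebraMap (Algebra.adjoin ℂ U) L) (YB i) = X j → YB i = X j := by
    intro i j hi
    apply hinj
    rw [hi, MvPolynomial.map_X]
  obtain ⟨hY0, hsb⟩ := hYC (Sum.inl 0) x0 (hYB _)
  obtain ⟨hY1, hXb⟩ := hYC (Sum.inl 1) x1 (hYB _)
  have hY2 := hYX (Sum.inl 2) 0 (hYB _)
  obtain ⟨hY3, hyb⟩ := hYC (Sum.inr 0) y0 (hYB _)
  have hY4 := hYX (Sum.inr 1) 1 (hYB _)
  have hY5 := hYX (Sum.inr 2) 2 (hYB _)
  set sb := coeff 0 (YB (Sum.inl 0)) with hsbd
  set Xb := coeff 0 (YB (Sum.inl 1)) with hXbd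
  set yb := coeff 0 (YB (Sum.inr 0)) with hybd
  -- the polynomials `Q`
  have hsupp : ∀ γ, γ ∈ f.support → coeff γ fB ≠ 0 := by
    intro γ hγ h0
    apply MvPolynomial.mem_support_iff.1 hγ
    rw [← hfB, MvPolynomial.coeff_map, h0, map_zero]
  have hsuppB : ∀ γ, γ ∈ f.support → γ ∈ fB.support := fun γ hγ =>
    MvPolynomial.mem_support_iff.2 (hsupp γ hγ)
  set Qf : (Fin 3 →₀ ℕ) → Polynomial (Algebra.adjoin ℂ U) := fun α =>
    ∑ γ ∈ fB.support.filter (fun γ => γ 0 = α 0 ∧ γ 2 = α 2),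
      Polynomial.C (coeff γ fB) * Polynomial.X ^ γ 1 with hQf
  have hQf0 : ∀ α, α ∈ f.support → Qf α ≠ 0 := by
    intro α hα h0
    have h1 : (Qf α).coeff (α 1) = coeff α fB := by
      rw [hQf]
      simp only [Polynomial.finsetSum_coeff, Polynomial.coeff_C_mul, Polynomial.coeff_X_pow,
        mul_ite, mul_one, mul_zero]
      rw [Finset.sum_eq_single α]
      · rw [if_pos rfl]
      · intro γ hγ hne
        rw [if_neg]
        intro h3
        apply hne
        rw [Finset.mem_filter] at hγ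
        exact hsep γ α hγ.2.1 h3.symm hγ.2.2
      · intro h3
        exact absurd (Finset.mem_filter.2 ⟨hsuppB α hα, rfl, rfl⟩) h3
    rw [h0, Polynomial.coeff_zero] at h1
    exact hsupp α hα h1.symm
  have hQ0 : Qf α * Qf β ≠ 0 := mul_ne_zero (hQf0 α hα) (hQf0 β hβ)
  obtain ⟨σ, hσ1, hσ2⟩ := li_field (K := L) (s := x0) (y := y0) (X := x1) (by
      intro k hk
      refine h.af (Pi.single 0 1) ?_ k ?_
      · intro h1
        have h3 := congrFun h1 0
        simp at h3
      · rw [li_single]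
        exact congrArg (algebraMap L F) hk) (by
      intro a
      rw [← cl_map L.val]
      have h1 : (L.val : L →ₐ[ℂ] F) '' {x0} = {x 0} := by
        rw [Set.image_singleton]
        rfl
      rw [h1]
      exact (hmemL _).1 a.2) (by
      intro k hk
      refine h.mf (Pi.single 0 1) ?_ k ?_
      · intro h1
        have h3 := congrFun h1 0
        simp at h3
      · rw [mo_single]
        exact congrArg (algebraMap L F) hk) (by
      intro m₁ m₂ hm k hk
      refine h.af ![m₁, m₂, 0] ?_ k ?_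
      · intro h1
        rcases hm with h3 | h3
        · exact h3 (congrFun h1 0)
        · exact h3 (congrFun h1 1)
      · have h1 := congrArg (algebraMap L F) hk
        rw [map_add, map_mul, map_mul, map_intCast, map_intCast] at h1
        unfold li
        rw [Fin.sum_univ_three]
        simp only [Matrix.cons_val_zero, Matrix.cons_val_one, Matrix.cons_val, Int.cast_zero,
          zero_mul, add_zero]
        exact h1)
    (Algebra.adjoin ℂ U) (Algebra.adjoin ℂ U).val (sb := sb) (yb := yb) (Xb := Xb) hsb hyb hXb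
    (Qf α * Qf β) (by
      by_contra hcon
      push Not at hcon
      apply hQ0
      ext1 i
      have h1 := hcon i
      rw [Polynomial.coeff_zero]
      exact Subtype.val_injective h1)
  set E : ℂ := Complex.exp (σ Xb) with hE
  rw [Polynomial.map_mul, Polynomial.eval_mul] at hσ2
  have hQe : ∀ α, ((Qf α).map (σ : Algebra.adjoin ℂ U →+* ℂ)).eval E ≠ 0 →
      ∑ γ ∈ (map (σ : Algebra.adjoin ℂ U →+* ℂ) fB).support.filter
        (fun γ => γ 0 = α 0 ∧ γ 2 = α 2),
        coeff γ (map (σ : Algebra.adjoin ℂ U →+* ℂ) fB) * E ^ γ 1 ≠ 0 := by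
    intro α hα
    have h1 : ((Qf α).map (σ : Algebra.adjoin ℂ U →+* ℂ)).eval E =
        ∑ γ ∈ fB.support.filter (fun γ => γ 0 = α 0 ∧ γ 2 = α 2),
          coeff γ (map (σ : Algebra.adjoin ℂ U →+* ℂ) fB) * E ^ γ 1 := by
      rw [hQf]
      simp only [Polynomial.map_sum, Polynomial.map_mul, Polynomial.map_C, Polynomial.map_pow,
        Polynomial.map_X, Polynomial.eval_finsetSum, Polynomial.eval_mul, Polynomial.eval_C,
        Polynomial.eval_pow, Polynomial.eval_X, MvPolynomial.coeff_map]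
    rw [h1] at hα
    intro h3
    apply hα
    rw [← h3]
    symm
    apply Finset.sum_subset
    · intro γ hγ
      rw [Finset.mem_filter] at hγ ⊢
      exact ⟨MvPolynomial.support_map_subset _ _ hγ.1, hγ.2⟩
    · intro γ hγ hγ'
      rw [Finset.mem_filter] at hγ
      have h4 : coeff γ (map (σ : Algebra.adjoin ℂ U →+* ℂ) fB) = 0 := by
        by_contra h5
        exact hγ' (Finset.mem_filter.2 ⟨MvPolynomial.mem_support_iff.2 h5, hγ.2⟩)
      rw [h4, zero_mul]
  obtain ⟨ξ, hξ⟩ := sum_zero_three (map (σ : Algebra.adjoin ℂ U →+* ℂ) fB) E α β hαβ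
    (hQe α (left_ne_zero_of_mul hσ2)) (hQe β (right_ne_zero_of_mul hσ2))
  have hfin := hpt σ ![ξ, E, Complex.exp ξ] hξ
  have hfun : (fun j => eval ![ξ, E, Complex.exp ξ]
      (map (σ : Algebra.adjoin ℂ U →+* ℂ) (YB j))) =
      Sum.elim ![σ sb, σ Xb, ξ] (fun j => Complex.exp (![σ sb, σ Xb, ξ] j)) := by
    funext i
    rcases i with j | j
    · fin_cases j
      · change eval ![ξ, E, Complex.exp ξ] (map (σ : Algebra.adjoin ℂ U →+* ℂ)
          (YB (Sum.inl 0))) = σ sb
        rw [hY0, MvPolynomial.map_C, MvPolynomial.eval_C]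
        rfl
      · change eval ![ξ, E, Complex.exp ξ] (map (σ : Algebra.adjoin ℂ U →+* ℂ)
          (YB (Sum.inl 1))) = σ Xb
        rw [hY1, MvPolynomial.map_C, MvPolynomial.eval_C]
        rfl
      · change eval ![ξ, E, Complex.exp ξ] (map (σ : Algebra.adjoin ℂ U →+* ℂ)
          (YB (Sum.inl 2))) = ξ
        rw [hY2, MvPolynomial.map_X, MvPolynomial.eval_X]
        rfl
    · fin_cases j
      · change eval ![ξ, E, Complex.exp ξ] (map (σ : Algebra.adjoin ℂ U →+* ℂ)
          (YB (Sum.inr 0))) = Complex.exp (σ sb)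
        rw [hY3, MvPolynomial.map_C, MvPolynomial.eval_C, ← hσ1]
        rfl
      · change eval ![ξ, E, Complex.exp ξ] (map (σ : Algebra.adjoin ℂ U →+* ℂ)
          (YB (Sum.inr 1))) = Complex.exp (σ Xb)
        rw [hY4, MvPolynomial.map_X, MvPolynomial.eval_X]
        rfl
      · change eval ![ξ, E, Complex.exp ξ] (map (σ : Algebra.adjoin ℂ U →+* ℂ)
          (YB (Sum.inr 2))) = Complex.exp ξ
        rw [hY5, MvPolynomial.map_X, MvPolynomial.eval_X]
        rfl
  rw [hfun] at hfin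
  exact ⟨![σ sb, σ Xb, ξ], hfin, fun j => Complex.exp_ne_zero _⟩

end XA
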