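import Pool.Agent.Lib.MP_228259_lc.A.AD

/-!
CL: the closure operator `cl` and the rank `rk`.

PROOF. All statements follow from `AlgebraicIndependent.matroid_closure_eq`
(`(matroid ℂ F).closure S = algebraicClosure (adjoin ℂ S) F`, `Algebra.mem_algebraicClosure` or
`Subalgebra.mem_algebraicClosure`) and the matroid library (`Matroid.closure_subset_closure`,
`Matroid.closure_closure`, `Matroid.eRk_closure_eq`, `Matroid.eRk_insert_closure_eq`,
`Matroid.eRk_insert_eq_add_one`, `Matroid.eRk_mono`, `Matroid.eRk_insert_le_add_one`,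
`Matroid.eRk_le_encard`, `Matroid.closure_exchange`,
`Matroid.IsRkFinite.closure_eq_closure_of_subset_of_eRk_ge_eRk`).
* `cl_field`: the subalgebra `Subalgebra.algebraicClosure (adjoin ℂ S) F` is closed under inverses
  (`IsAlgebraic.inv`), so it is (the carrier of) an intermediate field.
* `cl_root`: `a` is algebraic over the subfield `K` with carrier `cl S` which is algebraic over
  `adjoin ℂ S` (transitivity: `IsAlgebraic.restrictScalars`, `Algebra.IsAlgebraic.trans`, or via the
  matroid: `a ∈ closure (closure S)`, where `adjoin ℂ (cl S) = K`).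
* `rk_eq_iff`: `(→)` `n = eRk (range x) ≤ encard (range x) ≤ n`, so `x` is injective and `range x` is
  independent (`Matroid.indep_iff_eRk_eq_encard_of_finite`, `AlgebraicIndependent.matroid_indep_iff`).
  `(←)` `AlgebraicIndependent.injective`, `Matroid.Indep.eRk_eq_encard`.
-/

namespace XA

open MvPolynomial

variable {F : Type*} [Field F] [Algebra ℂ F]

theorem cl_eq (S : Set F) : cl S = (AlgebraicIndependent.matroid ℂ F).closure S := by
  rw [AlgebraicIndependent.matroid_closure_eq]
  ext a
  simp [cl, Subalgebra.mem_algebraicClosure]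

private theorem xaCL_mem {S : Set F} {a : F} (h : a ∈ Algebra.adjoin ℂ S) : a ∈ cl S :=
  isAlgebraic_algebraMap (⟨a, h⟩ : Algebra.adjoin ℂ S)

theorem cl_field (S : Set F) : ∃ K : IntermediateField ℂ F, (K : Set F) = cl S := by
  refine ⟨{ carrier := cl S
            add_mem' := fun ha hb => IsAlgebraic.add ha hb
            mul_mem' := fun ha hb => IsAlgebraic.mul ha hb
            zero_mem' := xaCL_mem (Subalgebra.zero_mem _)
            one_mem' := xaCL_mem (Subalgebra.one_mem _)
            algebraMap_mem' := fun c => xaCL_mem (Subalgebra.algebraMap_mem _ c)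
            inv_mem' := fun a ha => IsAlgebraic.inv ha }, rfl⟩

theorem subset_cl (S : Set F) : S ⊆ cl S := fun _ ha => xaCL_mem (Algebra.subset_adjoin ha)

theorem cl_mono {S T : Set F} (h : S ⊆ T) : cl S ⊆ cl T := by
  rw [cl_eq, cl_eq]
  exact Matroid.closure_subset_closure _ h

theorem cl_subset {S T : Set F} (h : S ⊆ cl T) : cl S ⊆ cl T := by
  rw [cl_eq] at h
  rw [cl_eq, cl_eq]
  exact Matroid.closure_subset_closure_of_subset_closure h

theorem cl_root (S : Set F) (G : Polynomial F) (hG : G ≠ 0) (hc : ∀ i, G.coeff i ∈ cl S) (a : F)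
    (ha : G.eval a = 0) : a ∈ cl S := by
  refine cl_subset (S := cl S) subset_rfl ?_
  have h1 : G ∈ Polynomial.lifts (algebraMap (Algebra.adjoin ℂ (cl S)) F) := by
    rw [Polynomial.lifts_iff_coeff_lifts]
    intro n
    exact ⟨⟨G.coeff n, Algebra.subset_adjoin (hc n)⟩, rfl⟩
  obtain ⟨q, hq⟩ := (Polynomial.mem_lifts G).1 h1
  refine ⟨q, ?_, ?_⟩
  · rintro rfl
    exact hG (by rw [← hq, Polynomial.map_zero])
  · rw [Polynomial.aeval_def, ← Polynomial.eval_map, hq]
    exact ha

theorem rk_cl (S : Set F) : rk (cl S) = rk S := by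
  rw [rk, rk, cl_eq, Matroid.eRk_closure_eq]

theorem rk_mono {S T : Set F} (h : S ⊆ cl T) : rk S ≤ rk T := by
  rw [← rk_cl T]
  exact (AlgebraicIndependent.matroid ℂ F).eRk_mono h

theorem rk_insert_mem {S : Set F} {a : F} (h : a ∈ cl S) : rk (insert a S) = rk S := by
  refine le_antisymm (rk_mono (Set.insert_subset h (subset_cl S))) ?_
  exact (AlgebraicIndependent.matroid ℂ F).eRk_mono (Set.subset_insert a S)

theorem rk_insert_not {S : Set F} {a : F} (h : a ∉ cl S) : rk (insert a S) = rk S + 1 := by
  rw [cl_eq] at h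
  exact Matroid.eRk_insert_eq_add_one ⟨Set.mem_univ a, h⟩

theorem exchange {S : Set F} {a b : F} (h : a ∈ cl (insert b S)) (h' : a ∉ cl S) :
    b ∈ cl (insert a S) := by
  rw [cl_eq] at h h' ⊢
  exact Matroid.mem_closure_insert h' h

/-- a set of the same finite rank has the same closure -/
theorem subset_cl_of_rk {S T : Set F} (hST : S ⊆ T) (hfin : rk T ≠ ⊤) (h : rk T ≤ rk S) :
    T ⊆ cl S := by
  have hS : (AlgebraicIndependent.matroid ℂ F).IsRkFinite S := by
    rw [← Matroid.eRk_ne_top_iff]
    intro hs
    have h1 : rk S ≤ rk T := (AlgebraicIndependent.matroid ℂ F).eRk_mono hST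
    exact hfin (top_le_iff.1 (hs ▸ h1))
  have h2 := hS.closure_eq_closure_of_subset_of_eRk_ge_eRk hST h
  rw [cl_eq, h2, ← cl_eq]
  exact subset_cl T

private theorem xaCL_encard {ι : Type*} [Fintype ι] (x : ι → F) :
    (Set.range x).encard ≤ Fintype.card ι := by
  classical
  have h : Set.range x = ((Finset.univ.image x : Finset F) : Set F) := by simp
  rw [h, Set.encard_coe_eq_coe_finsetCard]
  exact_mod_cast Finset.card_image_le

private theorem xaCL_inj {ι : Type*} [Fintype ι] (x : ι → F)
    (hx : (Set.range x).encard = Fintype.card ι) : Function.Injective x := by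
  classical
  have h : Set.range x = ((Finset.univ.image x : Finset F) : Set F) := by simp
  rw [h, Set.encard_coe_eq_coe_finsetCard] at hx
  have h2 : (Finset.univ.image x).card = (Finset.univ : Finset ι).card := by
    rw [Finset.card_univ]
    exact_mod_cast hx
  have h3 := Finset.card_image_iff.1 h2
  rwa [Finset.coe_univ, Set.injOn_univ] at h3

private theorem xaCL_card {ι : Type*} [Fintype ι] (x : ι → F) (hx : Function.Injective x) :
    (Set.range x).encard = Fintype.card ι := by
  classical
  have h : Set.range x = ((Finset.univ.image x : Finset F) : Set F) := by simp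
  rw [h, Set.encard_coe_eq_coe_finsetCard, Finset.card_image_of_injective _ hx, Finset.card_univ]

theorem rk_eq_iff {ι : Type*} [Fintype ι] (x : ι → F) :
    rk (Set.range x) = Fintype.card ι ↔ AlgebraicIndependent ℂ x := by
  constructor
  · intro h
    have h1 : rk (Set.range x) ≤ (Set.range x).encard :=
      (AlgebraicIndependent.matroid ℂ F).eRk_le_encard _
    have h2 : (Set.range x).encard = Fintype.card ι :=
      le_antisymm (xaCL_encard x) (h ▸ h1)
    have h3 : (AlgebraicIndependent.matroid ℂ F).Indep (Set.range x) := by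
      rw [Matroid.indep_iff_eRk_eq_encard_of_finite (Set.finite_range x)]
      exact h.trans h2.symm
    have h4 := AlgebraicIndependent.matroid_indep_iff.1 h3
    exact (algebraicIndependent_subtype_range (xaCL_inj x h2)).1 h4
  · intro h
    have hi : Function.Injective x := h.injective
    have h3 : (AlgebraicIndependent.matroid ℂ F).Indep (Set.range x) :=
      AlgebraicIndependent.matroid_indep_iff.2 ((algebraicIndependent_subtype_range hi).2 h)
    rw [rk, h3.eRk_eq_encard, xaCL_card x hi]

theorem rk_range_le {ι : Type*} [Fintype ι] (x : ι → F) : rk (Set.range x) ≤ Fintype.card ι :=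
  ((AlgebraicIndependent.matroid ℂ F).eRk_le_encard _).trans (xaCL_encard x)

end XA
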