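import Pool.Agent.Lib.MP_228259_lc.D.IF1
import Pool.Agent.Lib.MP_228259_lc.D.IF2
import Pool.Agent.Lib.MP_228259_lc.D.IF3
import Pool.Agent.Lib.MP_228259_lc.D.IF4

/-!
IF: the interface between the analysis of one complex variable (fields of analytic germs near
infinity, exponential sums over them, lemma I') and the algebra: four statements in field form.
`B` is always a `ℂ`-algebra of finite type (generated by the finitely many elements of the field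
which are involved), `ψ` a homomorphism into the field and `σ : B → ℂ` the composition of `ψ`, of an
embedding of the field into the germs and of the evaluation of germs at a point. Proofs: `D/`.
-/

set_option autoImplicit false

namespace XA

open MvPolynomial

/-- exponential sums over the field `𝕃_t` (`e = e ^ u`) -/
theorem lt_field : ∃ (K : Type) (_ : Field K) (_ : Algebra ℂ K) (e : K), IsAlgClosed K ∧
    (∀ k : ℂ, e ≠ algebraMap ℂ K k) ∧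
    ∀ (B : Type) [CommRing B] [Algebra ℂ B] [Algebra.FiniteType ℂ B] (ψ : B →ₐ[ℂ] K) (ι : Type)
      (A : Finset ι) (c P : ι → B), (∀ α ∈ A, ψ (c α) ≠ 0) →
      (∀ α ∈ A, ∀ β ∈ A, α ≠ β → ∀ k : ℂ, ψ (P α) - ψ (P β) ≠ algebraMap ℂ K k) →
      e ∈ Submodule.span ℂ {z : K | ∃ α ∈ A, ∃ β ∈ A, z = ψ (P α) - ψ (P β)} →
      ∃ σ : B →ₐ[ℂ] ℂ, ∑ α ∈ A, σ (c α) * Complex.exp (σ (P α)) = 0 :=
  XD.lt_field

/-- exponential sums over a field algebraic over `ℂ(u, y)`, `y = e ^ u` -/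
theorem lc_field {L : Type} [Field L] [Algebra ℂ L] {u y : L}
    (hind : AlgebraicIndependent ℂ ![u, y]) (halg : ∀ a : L, a ∈ cl {u, y})
    (B : Type) [CommRing B] [Algebra ℂ B] [Algebra.FiniteType ℂ B] (ψ : B →ₐ[ℂ] L) {ub yb : B}
    (hu : ψ ub = u) (hy : ψ yb = y) (ι : Type) (A : Finset ι) (c P : ι → B)
    (hc : ∀ α ∈ A, ψ (c α) ≠ 0)
    (hNE : ∀ α ∈ A, ∀ β ∈ A, α ≠ β → ∀ (h : ℚ) (k : ℂ),
      ψ (P α) - ψ (P β) ≠ algebraMap ℂ L (h : ℂ) * u + algebraMap ℂ L k)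
    (hGR : ∃ α ∈ A, ∃ β ∈ A, ψ (P α) - ψ (P β) ∉ cl {u}) :
    ∃ σ : B →ₐ[ℂ] ℂ, σ yb = Complex.exp (σ ub) ∧
      ∑ α ∈ A, σ (c α) * Complex.exp (σ (P α)) = 0 :=
  XD.lc_field hind halg B ψ hu hy ι A c P hc hNE hGR

/-- exponential points of curves -/
theorem exp_points {L : Type} [Field L] [Algebra ℂ L] {s y : L}
    (hs : ∀ k : ℂ, s ≠ algebraMap ℂ L k) (hy : y ∈ cl {s}) (hy0 : y ≠ 0) :
    {b : ℂ | IsPt ![s, y] ![b, Complex.exp b]}.Infinite :=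
  XD.exp_points hs hy hy0

/-- lemma I' -/
theorem li_field {K : Type} [Field K] [Algebra ℂ K] {s y X : K}
    (hs : ∀ k : ℂ, s ≠ algebraMap ℂ K k) (halg : ∀ a : K, a ∈ cl {s})
    (hy : ∀ k : ℂ, y ≠ algebraMap ℂ K k)
    (hX : ∀ m₁ m₂ : ℤ, (m₁ ≠ 0 ∨ m₂ ≠ 0) → ∀ k : ℂ, (m₁ : K) * s + (m₂ : K) * X ≠ algebraMap ℂ K k)
    (B : Type) [CommRing B] [Algebra ℂ B] [Algebra.FiniteType ℂ B] (ψ : B →ₐ[ℂ] K) {sb yb Xb : B}
    (hsb : ψ sb = s) (hyb : ψ yb = y) (hXb : ψ Xb = X) (Q : Polynomial B)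
    (hQ : ∃ i, ψ (Q.coeff i) ≠ 0) :
    ∃ σ : B →ₐ[ℂ] ℂ, σ yb = Complex.exp (σ sb) ∧
      (Q.map (σ : B →+* ℂ)).eval (Complex.exp (σ Xb)) ≠ 0 :=
  XD.li_field hs halg hy hX B ψ hsb hyb hXb Q hQ

end XA
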