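import Pool.Agent.Lib.MP_228259_lc.A.CL2

/-!
SP: the differences of the exponents of a relation over `L` span `ℚ ^ 2`.

PROOF of `spans_mem`. The map `T : (Fin m → ℚ) →ₗ[ℚ] K`, `d ↦ ∑ i, (d i) • z i`. The preimage of
the `ℚ`-restriction of the span on the right is a `ℚ`-submodule which contains all differences
(`Submodule.span_le`), so it is everything (`hA`); take `d = Pi.single j 1`. (The casts: `K` has
characteristic zero, `(d i) • z i = ((d i : ℚ) : ℂ) • z i`.)

PROOF of `spans_two`. Suppose the span is not `⊤`. Its dimension is at most one, so there is a non-zero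
`p : Fin 2 → ℚ`, w.l.o.g. integral, with `p 0 * d 0 + p 1 * d 1 = 0` for all differences `d`
(`Submodule.exists_le_ker_of_lt_top`, clear denominators). Dividing by the gcd, `p` is primitive; let
`q = (- p 1, p 0)`: every integer vector `d` with `p · d = 0` is an integer multiple of `q` (primitive:
`u * p 0 + v * p 1 = 1`, and then `d = k • q` with `k = u * d 1 - v * d 0`). `q ≠ 0`. Fix `α₀ ∈ f.support` (`f ≠ 0`);
every `α ∈ f.support` has `α = α₀ + k_α • q` with `k_α ∈ ℤ`, and `α ↦ k_α` is injective. Let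
`t = mo q w`, `t ≠ 0`. `aeval w f = ∑ c_α ∏ w_i ^ α_i = (∏ w_i ^ α₀_i) * ∑ c_α t ^ k_α`. So
`∑ c_α t ^ (k_α + N) = 0` where `N` is a natural number with all `k_α + N ≥ 0`: a non-zero polynomial over
`L` (the `k_α` are distinct, `c_α ≠ 0`) with the root `t`; so `t` is algebraic over `L`, `t ∈ L` (`hL`),
against `hq`.
-/

set_option autoImplicit false

namespace XA

open MvPolynomial

/-- the differences of the exponents in `A` span `ℚ ^ m` -/
def Spans {m : ℕ} (A : Finset (Fin m →₀ ℕ)) : Prop :=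
  Submodule.span ℚ {d : Fin m → ℚ | ∃ α ∈ A, ∃ β ∈ A, ∀ j, d j = (α j : ℚ) - (β j : ℚ)} = ⊤

theorem spans_mem {K : Type*} [Field K] [Algebra ℂ K] {m : ℕ} {A : Finset (Fin m →₀ ℕ)}
    (hA : Spans A) (z : Fin m → K) (j : Fin m) :
    z j ∈ Submodule.span ℂ {w : K | ∃ α ∈ A, ∃ β ∈ A,
      w = (∑ i, α i • z i) - ∑ i, β i • z i} := by
  set W := Submodule.span ℂ {w : K | ∃ α ∈ A, ∃ β ∈ A,
      w = (∑ i, α i • z i) - ∑ i, β i • z i} with hW
  have key : ∀ d ∈ Submodule.span ℚ
      {d : Fin m → ℚ | ∃ α ∈ A, ∃ β ∈ A, ∀ j, d j = (α j : ℚ) - (β j : ℚ)},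
      ∑ i, ((d i : ℚ) : ℂ) • z i ∈ W := by
    intro d hd
    induction hd using Submodule.span_induction with
    | mem d hd =>
      obtain ⟨α, hα, β, hβ, h⟩ := hd
      apply Submodule.subset_span
      refine ⟨α, hα, β, hβ, ?_⟩
      rw [← Finset.sum_sub_distrib]
      apply Finset.sum_congr rfl
      intro i _
      rw [h i]
      push_cast
      rw [sub_smul, Nat.cast_smul_eq_nsmul, Nat.cast_smul_eq_nsmul]
    | zero => simp
    | add x y _ _ hx hy =>
      have : ∑ i, (((x + y) i : ℚ) : ℂ) • z i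
          = ∑ i, ((x i : ℚ) : ℂ) • z i + ∑ i, ((y i : ℚ) : ℂ) • z i := by
        rw [← Finset.sum_add_distrib]
        apply Finset.sum_congr rfl
        intro i _
        rw [Pi.add_apply]
        push_cast
        rw [add_smul]
      rw [this]
      exact W.add_mem hx hy
    | smul a x _ hx =>
      have : ∑ i, (((a • x) i : ℚ) : ℂ) • z i = (a : ℂ) • ∑ i, ((x i : ℚ) : ℂ) • z i := by
        rw [Finset.smul_sum]
        apply Finset.sum_congr rfl
        intro i _
        rw [Pi.smul_apply, smul_eq_mul]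
        push_cast
        rw [mul_smul]
      rw [this]
      exact W.smul_mem _ hx
  have hA' : Submodule.span ℚ
      {d : Fin m → ℚ | ∃ α ∈ A, ∃ β ∈ A, ∀ j, d j = (α j : ℚ) - (β j : ℚ)} = ⊤ := hA
  have h1 := key (Pi.single j 1) (by rw [hA']; trivial)
  have h2 : ∑ i, (((Pi.single j 1 : Fin m → ℚ) i : ℚ) : ℂ) • z i = z j := by
    rw [Finset.sum_eq_single j]
    · simp
    · intro b _ hb
      simp [hb]
    · intro h
      exact absurd (Finset.mem_univ j) h
  rwa [h2] at h1

/-- a proper subspace of `ℚ ^ 2` is killed by a primitive integer vector -/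
private theorem xaSP_prim (S : Submodule ℚ (Fin 2 → ℚ)) (hS : S ≠ ⊤) :
    ∃ P Q u v : ℤ, u * P + v * Q = 1 ∧ ∀ d ∈ S, (P : ℚ) * d 0 + (Q : ℚ) * d 1 = 0 := by
  obtain ⟨φ, hφ0, hφ⟩ := Submodule.exists_le_ker_of_lt_top S (lt_top_iff_ne_top.2 hS)
  have hrep : ∀ d : Fin 2 → ℚ, φ d = φ (Pi.single 0 1) * d 0 + φ (Pi.single 1 1) * d 1 := by
    intro d
    have hd : d = (d 0) • (Pi.single 0 1 : Fin 2 → ℚ) + (d 1) • (Pi.single 1 1 : Fin 2 → ℚ) := by
      ext i
      fin_cases i <;> simp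
    conv_lhs => rw [hd]
    rw [map_add, map_smul, map_smul, smul_eq_mul, smul_eq_mul]
    ring
  set a : ℚ := φ (Pi.single 0 1) with ha
  set b : ℚ := φ (Pi.single 1 1) with hb
  have hab : ¬ (a = 0 ∧ b = 0) := by
    rintro ⟨h1, h2⟩
    apply hφ0
    ext d
    fin_cases d
    · simpa using h1
    · simpa using h2
  -- integers `A0 = a * D`, `B0 = b * D`
  have hden_a : (a.den : ℚ) ≠ 0 := by exact_mod_cast a.den_nz
  have hden_b : (b.den : ℚ) ≠ 0 := by exact_mod_cast b.den_nz
  have hA0 : ((a.num * b.den : ℤ) : ℚ) = a * (a.den * b.den) := by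
    push_cast
    have h := Rat.mul_den_eq_num a
    rw [← mul_assoc, h]
  have hB0 : ((b.num * a.den : ℤ) : ℚ) = b * (a.den * b.den) := by
    push_cast
    have h := Rat.mul_den_eq_num b
    rw [mul_comm (a.den : ℚ) (b.den : ℚ), ← mul_assoc, h]
  set A0 : ℤ := a.num * b.den with hA0d
  set B0 : ℤ := b.num * a.den with hB0d
  have hne : ¬ (A0 = 0 ∧ B0 = 0) := by
    rintro ⟨h1, h2⟩
    apply hab
    constructor
    · rw [h1] at hA0
      have : a * (a.den * b.den) = 0 := by rw [← hA0]; simp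
      rcases mul_eq_zero.1 this with h | h
      · exact h
      · exact absurd h (mul_ne_zero hden_a hden_b)
    · rw [h2] at hB0
      have : b * (a.den * b.den) = 0 := by rw [← hB0]; simp
      rcases mul_eq_zero.1 this with h | h
      · exact h
      · exact absurd h (mul_ne_zero hden_a hden_b)
  have hg : 0 < Int.gcd A0 B0 := by
    rcases Nat.eq_zero_or_pos (Int.gcd A0 B0) with h | h
    · exact absurd (Int.gcd_eq_zero_iff.1 h) hne
    · exact h
  obtain ⟨P, Q, hPQ, hP, hQ⟩ := Int.exists_gcd_one hg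
  obtain ⟨u, v, huv⟩ := Int.isCoprime_iff_gcd_eq_one.2 hPQ
  refine ⟨P, Q, u, v, huv, ?_⟩
  intro d hd
  have h1 : φ d = 0 := hφ hd
  rw [hrep d] at h1
  have hgq : ((Int.gcd A0 B0 : ℕ) : ℚ) ≠ 0 := by exact_mod_cast hg.ne'
  have hP' : (A0 : ℚ) = P * (Int.gcd A0 B0 : ℕ) := by exact_mod_cast congrArg (Int.cast : ℤ → ℚ) hP
  have hQ' : (B0 : ℚ) = Q * (Int.gcd A0 B0 : ℕ) := by exact_mod_cast congrArg (Int.cast : ℤ → ℚ) hQ
  have h2 : ((Int.gcd A0 B0 : ℕ) : ℚ) * ((P : ℚ) * d 0 + (Q : ℚ) * d 1) = 0 := by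
    have : ((Int.gcd A0 B0 : ℕ) : ℚ) * ((P : ℚ) * d 0 + (Q : ℚ) * d 1)
        = (A0 : ℚ) * d 0 + (B0 : ℚ) * d 1 := by
      rw [hP', hQ']
      ring
    rw [this, hA0, hB0]
    have : a * (↑a.den * ↑b.den) * d 0 + b * (↑a.den * ↑b.den) * d 1
        = (↑a.den * ↑b.den) * (a * d 0 + b * d 1) := by ring
    rw [this, h1, mul_zero]
  rcases mul_eq_zero.1 h2 with h | h
  · exact absurd h hgq
  · exact h

theorem spans_two {F : Type*} [Field F] [Algebra ℂ F] {L : IntermediateField ℂ F}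
    (hL : ∀ a : F, IsAlgebraic L a → a ∈ L) {w : Fin 2 → F} (hw : ∀ j, w j ≠ 0)
    (hq : ∀ q : Fin 2 → ℤ, q ≠ 0 → mo q w ∉ L) {f : MvPolynomial (Fin 2) L} (hf : f ≠ 0)
    (h0 : aeval w f = 0) : Spans f.support := by
  by_contra hns
  obtain ⟨P, Q, u, v, huv, hker⟩ := xaSP_prim _ hns
  -- the vector `q`
  set q : Fin 2 → ℤ := ![-Q, P] with hqd
  have hq0 : q ≠ 0 := by
    intro h
    have h1 : -Q = 0 := by simpa [hqd] using congrFun h 0
    have h2 : P = 0 := by simpa [hqd] using congrFun h 1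
    have h3 : Q = 0 := by linarith
    rw [h2, h3] at huv
    simp at huv
  obtain ⟨α₀, hα₀⟩ : f.support.Nonempty := by
    rw [Finset.nonempty_iff_ne_empty, Ne, MvPolynomial.support_eq_empty]
    exact hf
  set k : (Fin 2 →₀ ℕ) → ℤ := fun α => u * ((α 1 : ℤ) - α₀ 1) - v * ((α 0 : ℤ) - α₀ 0) with hk
  have hrel : ∀ α ∈ f.support, P * ((α 0 : ℤ) - α₀ 0) + Q * ((α 1 : ℤ) - α₀ 1) = 0 := by
    intro α hα
    have h := hker (fun j => (α j : ℚ) - (α₀ j : ℚ))
      (Submodule.subset_span ⟨α, hα, α₀, hα₀, fun j => rfl⟩)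
    exact_mod_cast h
  have hd0 : ∀ α ∈ f.support, (α 0 : ℤ) = α₀ 0 + k α * q 0 := by
    intro α hα
    have h := hrel α hα
    have hq' : q 0 = -Q := by simp [hqd]
    rw [hq', hk]
    simp only
    linear_combination (-(α 0 : ℤ) + α₀ 0) * huv + u * h
  have hd1 : ∀ α ∈ f.support, (α 1 : ℤ) = α₀ 1 + k α * q 1 := by
    intro α hα
    have h := hrel α hα
    have hq' : q 1 = P := by simp [hqd]
    rw [hq', hk]
    simp only
    linear_combination (-(α 1 : ℤ) + α₀ 1) * huv + v * h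
  have hinj : ∀ α ∈ f.support, ∀ β ∈ f.support, k α = k β → α = β := by
    intro α hα β hβ h
    ext i
    fin_cases i
    · have h1 := hd0 α hα
      have h2 := hd0 β hβ
      rw [h, ← h2] at h1
      exact_mod_cast h1
    · have h1 := hd1 α hα
      have h2 := hd1 β hβ
      rw [h, ← h2] at h1
      exact_mod_cast h1
  set t : F := mo q w with ht
  have ht0 : t ≠ 0 := mo_ne_zero hw q
  have hprod : ∀ α ∈ f.support, ∏ i, w i ^ α i = (∏ i, w i ^ α₀ i) * t ^ k α := by
    intro α hα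
    rw [ht, mo, ← Finset.prod_zpow, ← Finset.prod_mul_distrib]
    apply Finset.prod_congr rfl
    intro i _
    rw [← zpow_natCast, ← zpow_natCast, ← zpow_mul, ← zpow_add₀ (hw i)]
    congr 1
    fin_cases i
    · have := hd0 α hα
      simp only [Fin.zero_eta] 
      rw [this]; ring
    · have := hd1 α hα
      simp only [Fin.mk_one]
      rw [this]; ring
  -- the shift
  set N : ℕ := ∑ α ∈ f.support, (k α).natAbs with hN
  have hNk : ∀ α ∈ f.support, 0 ≤ k α + N := by
    intro α hα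
    have h1 : (k α).natAbs ≤ N := Finset.single_le_sum (f := fun α => (k α).natAbs)
      (fun _ _ => Nat.zero_le _) hα
    have h2 : -((k α).natAbs : ℤ) ≤ k α := by
      have := neg_abs_le (k α)
      rwa [Int.abs_eq_natAbs] at this
    have h3 : ((k α).natAbs : ℤ) ≤ N := by exact_mod_cast h1
    linarith
  have hsum : ∑ α ∈ f.support, algebraMap L F (f.coeff α) * t ^ (k α + N).toNat = 0 := by
    have h1 : aeval w f = ∑ α ∈ f.support, algebraMap L F (f.coeff α) * ∏ i, w i ^ α i := by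
      rw [MvPolynomial.aeval_def, MvPolynomial.eval₂_eq']
    rw [h1] at h0
    have h2 : ∑ α ∈ f.support, algebraMap L F (f.coeff α) * ∏ i, w i ^ α i
        = (∏ i, w i ^ α₀ i) * ∑ α ∈ f.support, algebraMap L F (f.coeff α) * t ^ k α := by
      rw [Finset.mul_sum]
      apply Finset.sum_congr rfl
      intro α hα
      rw [hprod α hα]
      ring
    rw [h2] at h0
    have h3 : (∏ i, w i ^ α₀ i) ≠ 0 := Finset.prod_ne_zero_iff.2 fun i _ => pow_ne_zero _ (hw i)
    have h4 := (mul_eq_zero.1 h0).resolve_left h3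
    have h5 : ∑ α ∈ f.support, algebraMap L F (f.coeff α) * t ^ (k α + N).toNat
        = (∑ α ∈ f.support, algebraMap L F (f.coeff α) * t ^ k α) * t ^ N := by
      rw [Finset.sum_mul]
      apply Finset.sum_congr rfl
      intro α hα
      rw [mul_assoc]
      congr 1
      rw [← zpow_natCast, ← zpow_natCast, ← zpow_add₀ ht0, Int.toNat_of_nonneg (hNk α hα)]
    rw [h5, h4, zero_mul]
  -- the polynomial
  set g : Polynomial L := ∑ α ∈ f.support, Polynomial.monomial (k α + N).toNat (f.coeff α) with hg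
  have hgt : Polynomial.aeval t g = 0 := by
    rw [hg, map_sum]
    simp only [Polynomial.aeval_monomial]
    exact hsum
  have hg0 : g ≠ 0 := by
    intro h
    have h1 : g.coeff (k α₀ + N).toNat = f.coeff α₀ := by
      rw [hg, Polynomial.finsetSum_coeff, Finset.sum_eq_single α₀]
      · simp
      · intro β hβ hne
        rw [Polynomial.coeff_monomial, if_neg]
        intro h2
        apply hne
        apply hinj β hβ α₀ hα₀
        have h3 := hNk β hβ
        have h4 := hNk α₀ hα₀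
        omega
      · intro h2
        exact absurd hα₀ h2
    rw [h, Polynomial.coeff_zero] at h1
    exact (MvPolynomial.mem_support_iff.1 hα₀) h1.symm
  exact hq q hq0 (hL t ⟨g, hg0, hgt⟩)

end XA
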