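import Pool.Agent.Lib.MP_228259_lc.A.SPB
import Pool.Agent.Lib.MP_228259_lc.A.IF
import Pool.Agent.Lib.MP_228259_lc.A.CLI
import Pool.Agent.Lib.MP_228259_lc.A.PTE
import Pool.Agent.Lib.MP_228259_lc.A.SP

/-!
TBG: `n = 3`, `dim T = 2`, `y_1` algebraic over `ℂ(x_1)`, and all differences `q · z`,
`z = (x_2, x_3)`, are transcendental over `ℂ(x_1)`.
-/

set_option autoImplicit false

namespace XA

open MvPolynomial

/-- the choice of `j₀` -/
private theorem TBG_j0 {F : Type} [Field F] [Algebra ℂ F] {x y : Fin 3 → F} (h : FD x y) :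
    (∀ k : ℂ, x 0 ≠ algebraMap ℂ F k) ∧
    ∃ i₀ : Fin 2, x ((![1, 2] : Fin 2 → Fin 3) i₀) ∉ cl {x 0} ∧
      cl (Set.range x) ⊆ cl {x 0, x ((![1, 2] : Fin 2 → Fin 3) i₀)} := by
  have h0 : ∀ k : ℂ, x 0 ≠ algebraMap ℂ F k := by
    intro k hk
    refine h.af (Pi.single 0 1) ?_ k ?_
    · intro hc
      have := congrFun hc 0
      simp at this
    · rw [li_single]
      exact hk
  have h2 : rk (Set.range x) = 2 := by
    have h3 := h.rkx
    generalize rk (Set.range x) = a at h3 ⊢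
    induction a using ENat.recTopCoe with
    | top => exact absurd h3 (by simp)
    | coe n =>
      have h4 : n + 1 = 3 := by exact_mod_cast h3
      have h5 : n = 2 := by omega
      rw [h5]
      rfl
  have hx0 : x 0 ∉ cl (∅ : Set F) := by
    intro hc
    obtain ⟨c, hc⟩ := cl_empty hc
    exact h0 c hc
  have h1 : rk ({x 0} : Set F) = rk (∅ : Set F) + 1 := by
    have := rk_insert_not hx0
    rwa [insert_empty_eq] at this
  have he : rk (∅ : Set F) = 0 := by
    unfold rk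
    exact Matroid.eRk_empty _
  rw [he, zero_add] at h1
  refine ⟨h0, ?_⟩
  obtain ⟨i₀, hi⟩ : ∃ i₀ : Fin 2, x ((![1, 2] : Fin 2 → Fin 3) i₀) ∉ cl {x 0} := by
    by_contra hcon
    push Not at hcon
    have h3 : Set.range x ⊆ cl {x 0} := by
      rintro _ ⟨j, rfl⟩
      fin_cases j
      · exact subset_cl _ rfl
      · exact hcon 0
      · exact hcon 1
    have h4 := rk_mono h3
    rw [h2, h1] at h4
    exact absurd h4 (by norm_num)
  refine ⟨i₀, hi, ?_⟩
  have h5 : rk ({x 0, x ((![1, 2] : Fin 2 → Fin 3) i₀)} : Set F) = 2 := by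
    rw [Set.pair_comm, rk_insert_not hi, h1]
    norm_num
  refine cl_subset (subset_cl_of_rk ?_ ?_ ?_)
  · intro a ha
    rcases ha with rfl | rfl
    · exact ⟨_, rfl⟩
    · exact ⟨_, rfl⟩
  · rw [h2]
    exact ENat.ofNat_ne_top 2
  · rw [h2, h5]

theorem t2_bgen {F : Type} [Field F] [Algebra ℂ F] {x y : Fin 3 → F} (h : FD x y)
    (hy : y 0 ∈ cl {x 0}) {L : IntermediateField ℂ F}
    (hL : (L : Set F) = cl (Set.range x)) {f : MvPolynomial (Fin 2) L} (hs : Spans f.support)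
    (hf : ∀ h : MvPolynomial (Fin 2) L,
      aeval (fun i => y ((![1, 2] : Fin 2 → Fin 3) i)) h = 0 → f ∣ h)
    (hq : ∀ α ∈ f.support, ∀ β ∈ f.support, α ≠ β →
      ((α 0 : F) - (β 0 : F)) * x 1 + ((α 1 : F) - (β 1 : F)) * x 2 ∉ cl {x 0}) : HasExp x y := by
  classical
  obtain ⟨h0, i₀, hi₀, hcl⟩ := TBG_j0 h
  have hxL : ∀ j, x j ∈ L := fun j => by
    have : x j ∈ (L : Set F) := by
      rw [hL]
      exact subset_cl _ ⟨j, rfl⟩
    exact this
  have hy0L : y 0 ∈ L := by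
    have : y 0 ∈ (L : Set F) := by
      rw [hL]
      exact cl_mono (by rintro _ rfl; exact ⟨0, rfl⟩) hy
    exact this
  have hj0 : ∀ j : Fin 3, j ∉ Set.range (![1, 2] : Fin 2 → Fin 3) → j = 0 := by
    intro j hj
    fin_cases j
    · rfl
    · exact absurd ⟨0, rfl⟩ hj
    · exact absurd ⟨1, rfl⟩ hj
  have h0r : (0 : Fin 3) ∉ Set.range (![1, 2] : Fin 2 → Fin 3) := by
    rintro ⟨i, hi⟩
    fin_cases i
    · exact absurd hi (by decide)
    · exact absurd hi (by decide)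
  obtain ⟨U, xB, yB, cB, hUf, hxB, hyB, hcB, hσ⟩ := exp_of_sigma (![1, 2] : Fin 2 → Fin 3) L hxL
    (fun j hj => by rw [hj0 j hj]; exact hy0L) hf
  obtain ⟨K, _, _, e, _, he, hK⟩ := lt_field
  set s : L := ⟨x 0, hxL 0⟩ with hs_def
  set t : L := ⟨x ((![1, 2] : Fin 2 → Fin 3) i₀), hxL _⟩ with ht_def
  set y' : L := ⟨y 0, hy0L⟩ with hy_def
  have hmap : ∀ (S : Set L) (a : L), (a : F) ∈ cl ((fun z : L => (z : F)) '' S) ↔ a ∈ cl S :=
    fun S a => cl_map L.val S a
  have hs1 : ∀ k : ℂ, s ≠ algebraMap ℂ L k := by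
    intro k hk
    exact h0 k (congrArg (fun z : L => (z : F)) hk)
  have hims : (fun z : L => (z : F)) '' {s} = {x 0} := by
    rw [Set.image_singleton]
  have ht1 : t ∉ cl {s} := by
    rw [← hmap, hims]
    exact hi₀
  have hy1 : y' ∈ cl {s} := by
    rw [← hmap, hims]
    exact hy
  have halg : ∀ a : L, a ∈ cl {s, t} := by
    intro a
    rw [← hmap, Set.image_pair]
    apply hcl
    rw [← hL]
    exact a.2
  set P : (Fin 2 →₀ ℕ) → Algebra.adjoin ℂ U := fun α => ∑ i, α i • xB ((![1, 2] : Fin 2 → Fin 3) i)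
    with hP
  have hPF : ∀ α, ((P α : L) : F) = (α 0 : F) * x 1 + (α 1 : F) * x 2 := by
    intro α
    rw [hP]
    simp only [Fin.sum_univ_two, Matrix.cons_val_zero, Matrix.cons_val_one]
    push_cast
    rw [nsmul_eq_mul, nsmul_eq_mul, hxB, hxB]
  obtain ⟨E, hE, hEψ⟩ := spec_curve hs1 ht1 hy1 halg hUf (sB := xB 0)
    (tB := xB ((![1, 2] : Fin 2 → Fin 3) i₀)) (yB := yB 0) (Subtype.ext (hxB 0))
    (Subtype.ext (hxB _)) (Subtype.ext (hyB 0 h0r))
    ((f.support.offDiag).image fun p => P p.1 - P p.2) (f.support.image cB)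
    (by
      intro w hw
      rw [Finset.mem_image] at hw
      obtain ⟨⟨α, β⟩, hp, rfl⟩ := hw
      rw [Finset.mem_offDiag] at hp
      obtain ⟨hα, hβ, hne⟩ := hp
      rw [← hmap, hims]
      have h1 := hq α hα β hβ hne
      have h2 : (((P α - P β : Algebra.adjoin ℂ U) : L) : F) =
          ((α 0 : F) - (β 0 : F)) * x 1 + ((α 1 : F) - (β 1 : F)) * x 2 := by
        push_cast
        rw [hPF, hPF]
        ring
      rw [h2]
      exact h1)
    (by
      intro w hw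
      rw [Finset.mem_image] at hw
      obtain ⟨α, hα, rfl⟩ := hw
      rw [hcB]
      exact MvPolynomial.mem_support_iff.1 hα) he
  obtain ⟨b, hb, hbE⟩ := (exp_points hs1 hy1 (fun hc => h.nz 0
    (congrArg (fun z : L => (z : F)) hc))).exists_notMem_finite hE
  obtain ⟨ψ, hψ1, hψ2, hψ3, hψ4, hψ5⟩ := hEψ b (Complex.exp b) hbE hb
  have hft : Algebra.FiniteType ℂ (Algebra.adjoin ℂ U) := by
    rw [← Subalgebra.fg_iff_finiteType]
    exact ⟨hUf.toFinset, by rw [hUf.coe_toFinset]⟩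
  have hftR : Algebra.FiniteType ℂ ψ.range :=
    Algebra.FiniteType.of_surjective ψ.rangeRestrict ψ.rangeRestrict_surjective
  obtain ⟨σ', hσ'⟩ := hK ψ.range ψ.range.val (Fin 2 →₀ ℕ) f.support
    (fun α => ψ.rangeRestrict (cB α)) (fun α => ψ.rangeRestrict (P α))
    (fun α hα => hψ4 _ (Finset.mem_image_of_mem _ hα))
    (by
      intro α hα β hβ hne k hk
      refine hψ5 (P α - P β) (Finset.mem_image.2 ⟨(α, β), Finset.mem_offDiag.2 ⟨hα, hβ, hne⟩, rfl⟩)
        k ?_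
      rw [map_sub]
      exact hk)
    (by
      have h1 := spans_mem hs (fun i => ψ (xB ((![1, 2] : Fin 2 → Fin 3) i))) i₀
      rw [← hψ3]
      refine Submodule.span_mono ?_ h1
      rintro w ⟨α, hα, β, hβ, hw⟩
      refine ⟨α, hα, β, hβ, ?_⟩
      rw [hw]
      show _ = ψ (P α) - ψ (P β)
      rw [hP]
      simp only [map_sum, map_nsmul])
  refine hσ (σ'.comp ψ.rangeRestrict) ?_ hσ'
  intro j hj
  rw [hj0 j hj]
  have e1 : ψ.rangeRestrict (xB 0) = algebraMap ℂ ψ.range b := Subtype.ext hψ1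
  have e2 : ψ.rangeRestrict (yB 0) = algebraMap ℂ ψ.range (Complex.exp b) := Subtype.ext hψ2
  rw [AlgHom.comp_apply, AlgHom.comp_apply, e1, e2, AlgHom.commutes, AlgHom.commutes]
  rfl

end XA
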