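import Pool.Agent.Lib.MP_228259_lc.A.CL2

/-!
TR2: a unimodular change of coordinates, the hypotheses.

PROOF. `FD`: `nz` by `mo_ne_zero`; `af`: `li m (U x) = li (m U) x` (`li_li`) and `m U ≠ 0` for
`m ≠ 0` (`(m U) U' = m`); `mf` the same with `mo_mo`; `rkx`, `rkv` by `cl_unimod` and `rk_cl`.
`Rot`: for `M` apply `Rot x y` to `M * U`: `rank (M U) = rank M` over `ℚ`
(`Matrix.rank_mul_eq_left_of_isUnit_det`, `Matrix.map_mul`, `U.map` has the inverse `U'.map`), and
`li (M i) (U x) = li ((M * U) i) x`, `mo (M i) (y ^ U) = mo ((M * U) i) y`.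
-/

namespace XA

open MvPolynomial

variable {F : Type*} [Field F] [Algebra ℂ F] {n : ℕ}

private theorem tr2_ne {m : Fin n → ℤ} (hm : m ≠ 0) (U U' : Matrix (Fin n) (Fin n) ℤ)
    (h2 : U * U' = 1) : (fun j => ∑ i, m i * U i j) ≠ 0 := by
  intro h0
  apply hm
  have h3 : Matrix.vecMul m U = 0 := by
    funext j
    have := congrFun h0 j
    simpa [Matrix.vecMul, dotProduct] using this
  have h4 : Matrix.vecMul (Matrix.vecMul m U) U' = m := by
    rw [Matrix.vecMul_vecMul, h2, Matrix.vecMul_one]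
  rw [h3, Matrix.zero_vecMul] at h4
  exact h4.symm

theorem fd_unimod {x y : Fin n → F} (h : FD x y) (U U' : Matrix (Fin n) (Fin n) ℤ)
    (h1 : U' * U = 1) (h2 : U * U' = 1) :
    FD (fun i => li (U i) x) (fun i => mo (U i) y) := by
  obtain ⟨e1, e2⟩ := cl_unimod (x := x) h.nz U U' h1 h2
  refine ⟨fun j => mo_ne_zero h.nz (U j), fun m hm c => ?_, fun m hm c => ?_, ?_, ?_⟩
  · rw [li_li]
    exact h.af _ (tr2_ne hm U U' h2) c
  · rw [mo_mo h.nz]
    exact h.mf _ (tr2_ne hm U U' h2) c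
  · rw [← rk_cl, e1, rk_cl]
    exact h.rkx
  · rw [← rk_cl, e2, rk_cl]
    exact h.rkv

theorem rot_unimod {x y : Fin n → F} (hy : ∀ j, y j ≠ 0) (h : Rot x y)
    (U U' : Matrix (Fin n) (Fin n) ℤ) (h1 : U' * U = 1) (h2 : U * U' = 1) :
    Rot (fun i => li (U i) x) (fun i => mo (U i) y) := by
  intro k M hk hkn
  have h3 := h k (M * U) hk hkn
  have hdet : IsUnit (U.map (Int.cast : ℤ → ℚ)).det := by
    have h4 : (U'.map (Int.cast : ℤ → ℚ)) * (U.map (Int.cast : ℤ → ℚ)) = 1 := by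
      have h5 : (U' * U).map (Int.cast : ℤ → ℚ) =
          (U'.map (Int.cast : ℤ → ℚ)) * (U.map (Int.cast : ℤ → ℚ)) :=
        Matrix.map_mul (f := Int.castRingHom ℚ)
      rw [← h5, h1]
      exact Matrix.map_one (Int.cast : ℤ → ℚ) Int.cast_zero Int.cast_one
    exact Matrix.isUnit_det_of_left_inverse h4
  have h6 : (M * U).map (Int.cast : ℤ → ℚ) =
      (M.map (Int.cast : ℤ → ℚ)) * (U.map (Int.cast : ℤ → ℚ)) :=
    Matrix.map_mul (f := Int.castRingHom ℚ)
  rw [h6, Matrix.rank_mul_eq_left_of_isUnit_det _ _ hdet] at h3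
  refine h3.trans (le_of_eq ?_)
  congr 2
  · congr 1
    funext i
    rw [li_li]
    rfl
  · congr 1
    funext i
    rw [mo_mo hy]
    rfl

end XA
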