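import Pool.Agent.Lib.MP_228259_lc.A.TC
import Pool.Agent.Lib.MP_228259_lc.A.TBG
import Pool.Agent.Lib.MP_228259_lc.A.TB3
import Pool.Agent.Lib.MP_228259_lc.A.TR1
import Pool.Agent.Lib.MP_228259_lc.A.TR2

/-!
T2M: `n = 3`, `dim T = 2`: assembly.

PROOF. Let `L` be the intermediate field with carrier `cl (range x)` (`cl_field`);
`rk (range x) = 2` (`h.rkx`). `principal_cl` (`S = range x`, `m = 2`, `w i = y (![1, 2] i)`;
`rk (range x ∪ {y 1, y 2}) = rk (range x ∪ range y) = 3` because `y 0 ∈ cl (range x)`) gives `f`. `spans_two`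
gives `Spans f.support` (`hL`: `cl_root`; `hq`: `mo q w = mo ![0, q 0, q 1] y`, `h2`). If `y 0 ∉ cl {x 0}`: `t2_c`.
If `y 0 ∈ cl {x 0}` and all differences `q · z` are outside `cl {x 0}`: `t2_bgen`. Otherwise there are
`α ≠ β` with `p x_1 + r x_2 ∈ cl {x 0}`, `(p, r) = (α 0 - β 0, α 1 - β 1) ≠ 0`. Let `g = gcd (p, r)`,
`p = g a`, `r = g b`, `a, b` coprime, `a u + b v = 1` (`Int.isCoprime_iff_gcd_eq_one`); `a x_1 + b x_2 ∈ cl {x 0}`
too (`cl {x 0}` is a field). Let
`M = !![1, 0, 0; 0, a, b; 0, -v, u]`, `M' = !![1, 0, 0; 0, u, -b; 0, v, a]`, `M' * M = 1 = M * M'`.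
`x' i = li (M i) x`, `y' i = mo (M i) y` satisfy `FD` (`fd_unimod`), `x' 0 = x 0`, `y' 0 = y 0`,
`x' 1 = a x_1 + b x_2 ∈ cl {x' 0}`, and the hypothesis `h2` (`mo_mo`, `cl_unimod`:
`mo c y' = mo (c M) y`, so `(c M) 1 = c 1 * a - c 2 * v = 0`, `(c M) 2 = c 1 * b + c 2 * u = 0`, so
`c 1 = c 1 (a u + b v) = 0` and `c 2 = 0`). `t2_b3` gives `HasExp x' y'`, and `hasExp_unimod` gives
`HasExp x y`.
-/

set_option autoImplicit false

namespace XA

open MvPolynomial

theorem T2M_alg {F : Type*} [Field F] [Algebra ℂ F] {S : Set F} {L : IntermediateField ℂ F}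
    (hL : (L : Set F) = cl S) (a : F) (ha : IsAlgebraic L a) : a ∈ L := by
  obtain ⟨p, hp0, hp⟩ := ha
  have h1 : a ∈ cl S := by
    apply cl_root S (p.map (algebraMap L F))
    · rw [Ne, Polynomial.map_eq_zero_iff (algebraMap L F).injective]
      exact hp0
    · intro i
      rw [Polynomial.coeff_map, ← hL]
      exact (p.coeff i).2
    · rw [Polynomial.eval_map]
      exact hp
  rw [← hL] at h1
  exact h1

theorem t2 {F : Type} [Field F] [Algebra ℂ F] {x y : Fin 3 → F} (h : FD x y)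
    (h1 : y 0 ∈ cl (Set.range x))
    (h2 : ∀ a : Fin 3 → ℤ, mo a y ∈ cl (Set.range x) → a 1 = 0 ∧ a 2 = 0) : HasExp x y := by
  classical
  obtain ⟨L, hL⟩ := cl_field (Set.range x)
  have hrk : rk (Set.range x) = 2 := by
    have h3 := h.rkx
    have h4 : ((3 : ℕ) : ℕ∞) = 2 + 1 := by norm_num
    rw [h4] at h3
    exact WithTop.add_right_cancel (by exact ENat.natCast_ne_top 1) h3
  have hS : rk (Set.range x) ≠ ⊤ := by rw [hrk]; exact ENat.natCast_ne_top 2
  obtain ⟨w, hw⟩ : ∃ w : Fin 2 → F, w = fun i => y ((![1, 2] : Fin 2 → Fin 3) i) := ⟨_, rfl⟩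
  have hw0 : w 0 = y 1 := by rw [hw]; rfl
  have hw1 : w 1 = y 2 := by rw [hw]; rfl
  have hrk3 : rk (Set.range x ∪ Set.range w) = 3 := by
    apply le_antisymm
    · have h3 : rk (Set.range x ∪ Set.range w) ≤ rk (Set.range x ∪ Set.range y) := by
        apply rk_mono
        apply (Set.union_subset_union_right _ _).trans (subset_cl _)
        rw [hw]
        rintro _ ⟨i, rfl⟩
        exact ⟨_, rfl⟩
      rw [h.rkv] at h3
      exact h3
    · have h3 : rk (Set.range x ∪ Set.range y) ≤ rk (Set.range x ∪ Set.range w) := by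
        apply rk_mono
        apply Set.union_subset
        · exact Set.subset_union_left.trans (subset_cl _)
        · rintro _ ⟨i, rfl⟩
          fin_cases i
          · exact cl_mono Set.subset_union_left h1
          · exact subset_cl _ (Or.inr ⟨0, hw0⟩)
          · exact subset_cl _ (Or.inr ⟨1, hw1⟩)
      rw [h.rkv] at h3
      exact h3
  obtain ⟨f, hfi, hf0, hf⟩ := principal_cl (S := Set.range x) hS hL (m := 2) (w := w)
    (by rw [hrk3, hrk]; norm_num)
  have hs : Spans f.support := by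
    refine spans_two (T2M_alg hL) (w := w) ?_ ?_ hfi.ne_zero hf0
    · intro j
      rw [hw]
      exact h.nz _
    · intro q hq hqL
      apply hq
      have h3 : mo q w = mo (![0, q 0, q 1] : Fin 3 → ℤ) y := by
        unfold mo
        rw [Fin.prod_univ_two, Fin.prod_univ_three, hw0, hw1]
        simp
      have h4 : mo q w ∈ cl (Set.range x) := by
        rw [← hL]
        exact hqL
      rw [h3] at h4
      obtain ⟨h5, h6⟩ := h2 _ h4
      funext j
      fin_cases j
      · exact h5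
      · exact h6
  rw [hw] at hf
  by_cases hy : y 0 ∈ cl {x 0}
  swap
  · exact t2_c h h1 hy hL hs hf
  by_cases hq : ∀ α ∈ f.support, ∀ β ∈ f.support, α ≠ β →
      ((α 0 : F) - (β 0 : F)) * x 1 + ((α 1 : F) - (β 1 : F)) * x 2 ∉ cl {x 0}
  · exact t2_bgen h hy hL hs hf hq
  -- the remaining case
  have hcz : CharZero F := charZero_of_injective_algebraMap (algebraMap ℂ F).injective
  obtain ⟨α, β, hαβ, hmem⟩ : ∃ α β : Fin 2 →₀ ℕ, α ≠ β ∧
      ((α 0 : F) - (β 0 : F)) * x 1 + ((α 1 : F) - (β 1 : F)) * x 2 ∈ cl {x 0} := by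
    by_contra hcon
    apply hq
    intro α _ β _ hne hmem
    exact hcon ⟨α, β, hne, hmem⟩
  obtain ⟨p, hp⟩ : ∃ p : ℤ, p = (α 0 : ℤ) - (β 0 : ℤ) := ⟨_, rfl⟩
  obtain ⟨r, hr⟩ : ∃ r : ℤ, r = (α 1 : ℤ) - (β 1 : ℤ) := ⟨_, rfl⟩
  have hpr : Int.gcd p r ≠ 0 := by
    intro h3
    rw [Int.gcd_eq_zero_iff] at h3
    apply hαβ
    ext j
    fin_cases j
    · show α 0 = β 0
      omega
    · show α 1 = β 1
      omega
  have hg0 : 0 < Int.gcd p r := Nat.pos_of_ne_zero hpr
  obtain ⟨a, ha⟩ := Int.gcd_dvd_left p r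
  obtain ⟨b, hb⟩ := Int.gcd_dvd_right p r
  have hcop : Int.gcd a b = 1 := by
    have h3 := Int.gcd_div_gcd_div_gcd hg0
    have h4 : p / (Int.gcd p r : ℤ) = a := by
      rw [Int.ediv_eq_iff_eq_mul_right (by exact_mod_cast hpr) (Int.gcd_dvd_left p r)]
      exact ha
    have h5 : r / (Int.gcd p r : ℤ) = b := by
      rw [Int.ediv_eq_iff_eq_mul_right (by exact_mod_cast hpr) (Int.gcd_dvd_right p r)]
      exact hb
    rwa [h4, h5] at h3
  obtain ⟨u, v, huv⟩ := Int.isCoprime_iff_gcd_eq_one.2 hcop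
  have hab : (a : F) * x 1 + (b : F) * x 2 ∈ cl {x 0} := by
    obtain ⟨K, hK⟩ := cl_field ({x 0} : Set F)
    have h3 : ((α 0 : F) - (β 0 : F)) * x 1 + ((α 1 : F) - (β 1 : F)) * x 2 =
        (Int.gcd p r : F) * ((a : F) * x 1 + (b : F) * x 2) := by
      have h4 : (α 0 : F) - (β 0 : F) = (Int.gcd p r : F) * (a : F) := by
        have h5 := congrArg (Int.cast : ℤ → F) (hp.symm.trans ha)
        push_cast at h5
        exact h5
      have h6 : (α 1 : F) - (β 1 : F) = (Int.gcd p r : F) * (b : F) := by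
        have h5 := congrArg (Int.cast : ℤ → F) (hr.symm.trans hb)
        push_cast at h5
        exact h5
      rw [h4, h6]
      ring
    rw [h3] at hmem
    have hgF : (Int.gcd p r : F) ≠ 0 := by exact_mod_cast hpr
    have h7 : (a : F) * x 1 + (b : F) * x 2 =
        (Int.gcd p r : F)⁻¹ * ((Int.gcd p r : F) * ((a : F) * x 1 + (b : F) * x 2)) := by
      rw [inv_mul_cancel_left₀ hgF]
    rw [h7]
    rw [← hK] at hmem ⊢
    exact mul_mem (inv_mem (natCast_mem K _)) hmem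
  obtain ⟨M, hM⟩ : ∃ M : Matrix (Fin 3) (Fin 3) ℤ, M = !![1, 0, 0; 0, a, b; 0, -v, u] :=
    ⟨_, rfl⟩
  obtain ⟨M', hM'⟩ : ∃ M' : Matrix (Fin 3) (Fin 3) ℤ, M' = !![1, 0, 0; 0, u, -b; 0, v, a] :=
    ⟨_, rfl⟩
  have hMM : M' * M = 1 := by
    rw [hM, hM']
    ext i j
    fin_cases i <;> fin_cases j <;>
      simp [Matrix.mul_apply, Fin.sum_univ_three, Matrix.one_apply] <;> linarith
  have hMM2 : M * M' = 1 := by
    rw [hM, hM']
    ext i j
    fin_cases i <;> fin_cases j <;>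
      simp [Matrix.mul_apply, Fin.sum_univ_three, Matrix.one_apply] <;> linarith
  have hcl := (cl_unimod (x := x) h.nz M M' hMM hMM2).1
  have hx0 : li (M 0) x = x 0 := by
    rw [hM]
    unfold li
    rw [Fin.sum_univ_three]
    simp
  have hy0 : mo (M 0) y = y 0 := by
    rw [hM]
    unfold mo
    rw [Fin.prod_univ_three]
    simp
  have hx1 : li (M 1) x = (a : F) * x 1 + (b : F) * x 2 := by
    rw [hM]
    unfold li
    rw [Fin.sum_univ_three]
    simp
  apply hasExp_unimod h.nz M M' hMM hMM2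
  apply t2_b3 (fd_unimod h M M' hMM hMM2)
  · intro c hc
    rw [hcl, mo_mo h.nz] at hc
    obtain ⟨h3, h4⟩ := h2 _ hc
    rw [Fin.sum_univ_three, hM] at h3 h4
    simp at h3 h4
    constructor
    · have h5 : c 1 = c 1 * (u * a + v * b) := by rw [huv, mul_one]
      rw [h5]
      linear_combination u * h3 + v * h4
    · have h5 : c 2 = c 2 * (u * a + v * b) := by rw [huv, mul_one]
      rw [h5]
      linear_combination a * h4 - b * h3
  · show mo (M 0) y ∈ cl {li (M 0) x}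
    rw [hx0, hy0]
    exact hy
  · show li (M 1) x ∈ cl {li (M 0) x}
    rw [hx0, hx1]
    exact hab

end XA
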