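import Pool.Agent.Lib.MP_228259_lc.A.CL2
import Pool.Agent.Lib.MP_228259_lc.F2a

/-!
HY: the hypersurface.

PROOF. `I = RingHom.ker (aeval x)` is a prime ideal of `ℂ[X_1, ..., X_n]`. Choose a finite set
`J` of indices with `n ≤ J.card + 1` such that the `x j`, `j ∈ J`, are algebraically independent:
there is a basis of `range x` in the matroid (`Matroid.exists_isBasis`), of cardinality `n - 1`
(`Matroid.IsBasis.encard_eq_eRk`, `rk (range x) + 1 = n`); choose for each of its elements one index
(`Set.range` splitting). Then no `f ≠ 0` in `I` has `f.vars ⊆ J`. By `XW.principal_of_indep` (F2a)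
either `I = ⊥` - then `x` is algebraically independent and `rk (range x) = n` by `rk_eq_iff`, a
contradiction - or `I = (P)` with `P` irreducible; `aeval x G = 0 ↔ G ∈ I ↔ P ∣ G`
(`Ideal.mem_span_singleton`). `0 < P.totalDegree`: otherwise `P = C c`, which is zero or a unit.
-/

namespace XA

open MvPolynomial

variable {F : Type*} [Field F] [Algebra ℂ F] {n : ℕ}

private theorem HY_choose {x : Fin n → F} (hr : rk (Set.range x) + 1 = n) :
    ∃ J : Finset (Fin n), n ≤ J.card + 1 ∧ AlgebraicIndependent ℂ (fun j : J => x j.1) := by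
  classical
  obtain ⟨B, hB⟩ := (AlgebraicIndependent.matroid ℂ F).exists_isBasis (Set.range x)
    (by intro a _; exact Set.mem_univ a)
  have hBs : B ⊆ Set.range x := hB.subset
  have hBc : B.encard = rk (Set.range x) := hB.encard_eq_eRk
  have hpick : ∀ b : B, ∃ j : Fin n, x j = b.1 := fun b => hBs b.2
  choose g hg using hpick
  have hBfin : B.Finite := (Set.finite_range x).subset hBs
  haveI : Fintype B := hBfin.fintype
  have hginj : Function.Injective g := by
    intro a b hab
    apply Subtype.ext
    rw [← hg a, ← hg b, hab]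
  refine ⟨Finset.univ.image g, ?_, ?_⟩
  · rw [Finset.card_image_of_injective _ hginj, Finset.card_univ]
    have h1 : B.encard = (Fintype.card B : ℕ∞) := by
      rw [Set.encard_eq_coe_toFinset_card, Set.toFinset_card]
    rw [← hBc, h1] at hr
    have h2 : Fintype.card B + 1 = n := by exact_mod_cast hr
    exact h2.ge
  · have hind : AlgebraicIndependent ℂ ((↑) : B → F) := AlgebraicIndependent.matroid_indep_iff.1 hB.indep
    have hf : ∀ j : (Finset.univ.image g : Finset (Fin n)), ∃ b : B, g b = j.1 := by
      intro j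
      obtain ⟨b, -, hb⟩ := Finset.mem_image.1 j.2
      exact ⟨b, hb⟩
    choose h hh using hf
    have hinj : Function.Injective h := by
      intro a b hab
      apply Subtype.ext
      rw [← hh a, ← hh b, hab]
    have h3 := hind.comp h hinj
    have h4 : (fun j : (Finset.univ.image g : Finset (Fin n)) => x j.1) = ((↑) : B → F) ∘ h := by
      funext j
      simp only [Function.comp]
      rw [← hg (h j), hh j]
    rw [h4]
    exact h3

theorem hyper {x : Fin n → F} (hr : rk (Set.range x) + 1 = n) :
    ∃ P : MvPolynomial (Fin n) ℂ, Irreducible P ∧ 0 < P.totalDegree ∧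
      ∀ G : MvPolynomial (Fin n) ℂ, aeval x G = 0 ↔ P ∣ G := by
  classical
  obtain ⟨J, hJ, hJi⟩ := HY_choose hr
  have hmem : ∀ G : MvPolynomial (Fin n) ℂ,
      G ∈ RingHom.ker (aeval x : MvPolynomial (Fin n) ℂ →ₐ[ℂ] F) ↔ aeval x G = 0 := fun G =>
    RingHom.mem_ker
  have hprime : (RingHom.ker (aeval x : MvPolynomial (Fin n) ℂ →ₐ[ℂ] F)).IsPrime :=
    RingHom.ker_isPrime _
  have hind : ∀ f ∈ RingHom.ker (aeval x : MvPolynomial (Fin n) ℂ →ₐ[ℂ] F), f.vars ⊆ J → f = 0 := by
    intro f hf hv
    have hv' : (f.vars : Set (Fin n)) ⊆ Set.range (fun j : J => j.1) := by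
      intro i hi
      exact ⟨⟨i, hv hi⟩, rfl⟩
    obtain ⟨f', hf'⟩ := exists_rename_eq_of_vars_subset_range f (fun j : J => j.1)
      Subtype.val_injective hv'
    have h1 : aeval (fun j : J => x j.1) f' = 0 := by
      have h2 : aeval x f = 0 := (hmem f).1 hf
      rw [← hf', aeval_rename] at h2
      exact h2
    have h3 := hJi.eq_zero_of_aeval_eq_zero f' h1
    rw [← hf', h3, map_zero]
  rcases XW.principal_of_indep _ hprime J hJ hind with hbot | ⟨P, hP, hI⟩
  · exfalso
    have h1 : AlgebraicIndependent ℂ x := by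
      rw [algebraicIndependent_iff]
      intro p hp
      have : p ∈ RingHom.ker (aeval x : MvPolynomial (Fin n) ℂ →ₐ[ℂ] F) := (hmem p).2 hp
      rw [hbot] at this
      exact (Submodule.mem_bot _).1 this
    have h2 := (rk_eq_iff x).2 h1
    rw [Fintype.card_fin] at h2
    rw [h2] at hr
    have h3 : n + 1 = n := by exact_mod_cast hr
    omega
  · refine ⟨P, hP, ?_, ?_⟩
    · rw [Nat.pos_iff_ne_zero]
      intro h0
      have h1 : P = C (coeff 0 P) := totalDegree_eq_zero_iff_eq_C.1 h0
      by_cases hc : coeff 0 P = 0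
      · rw [hc, map_zero] at h1
        exact hP.ne_zero h1
      · apply hP.not_isUnit
        rw [h1]
        exact (isUnit_iff_ne_zero.2 hc).map C
    · intro G
      rw [← hmem G, hI, Ideal.mem_span_singleton]

end XA
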