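import Pool.Agent.Lib.MP_228259_lc.A.PR
import Pool.Agent.Lib.MP_228259_lc.A.HY

/-!
VD: `FD x y` gives `VData (Loc x y) P`.

PROOF. `P` of `hyper`. `rank_mem`: if `mo a y ∉ cl (range x)` then
`rk (insert (mo a y) (range x)) = rk (range x) + 1 = n = rk (range x ∪ range y)`, so `y j` and every
`mo c y` are in `cl (insert (mo a y) (range x))`: `subset_cl_of_rk` with
`S = insert (mo a y) (range x)` and `T = cl (range x ∪ range y)` (`rk_cl`; `mo a y ∈ T` by `mo_mem`).
* `onX`: `P` vanishes at `x`, so `rename Sum.inl P` is a relation of `Sum.elim x y`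
  (`aeval_rename`, `eval_rename`). `nz`: definition of `Loc`.
* `dense`: if `G` vanishes at all `z.1` then `rename Sum.inl G` vanishes on `Loc x y`, `vanish_loc`.
* `rel`: `rel_exists`. `pres`: `alg_iff`, `rpres_exists`.
* `free`: if `L = ∑ C (c_j) X_j - C u` divides the irreducible `P` then, `L` not being a unit
  (it has a non-zero coefficient at some `X j`, total degree 1), `P` divides `L`
  (`Irreducible.dvd_symm` or `associated_of_dvd...`), so `aeval x L = 0`, that is `li c x = u`, which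
  contradicts `af`.
-/

namespace XA

open MvPolynomial

variable {F : Type*} [Field F] [Algebra ℂ F] {n : ℕ}

theorem rank_mem {x y : Fin n → F} (h : FD x y) (a : Fin n → ℤ) (ha : mo a y ∉ cl (Set.range x)) :
    Set.range x ∪ Set.range y ⊆ cl (insert (mo a y) (Set.range x)) := by
  have hS : rk (insert (mo a y) (Set.range x)) = n := by
    rw [rk_insert_not ha, h.rkx]
  have hT : rk (cl (Set.range x ∪ Set.range y)) = n := by
    rw [rk_cl, h.rkv]
  have hsub : insert (mo a y) (Set.range x) ⊆ cl (Set.range x ∪ Set.range y) := by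
    apply Set.insert_subset
    · exact mo_mem a (fun j => subset_cl _ (Or.inr ⟨j, rfl⟩))
    · exact fun t ht => subset_cl _ (Or.inl ht)
  have hfin : rk (cl (Set.range x ∪ Set.range y)) ≠ ⊤ := by
    rw [hT]
    exact ENat.natCast_ne_top n
  have hle : rk (cl (Set.range x ∪ Set.range y)) ≤ rk (insert (mo a y) (Set.range x)) := by
    rw [hT, hS]
  exact (subset_cl _).trans (subset_cl_of_rk hsub hfin hle)

private theorem aeval_inl (x y : Fin n → F) (G : MvPolynomial (Fin n) ℂ) :
    aeval (Sum.elim x y) (rename Sum.inl G : MvPolynomial (Fin n ⊕ Fin n) ℂ) = aeval x G := by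
  rw [aeval_rename]
  rfl

private theorem eval_inl (x y : Fin n → ℂ) (G : MvPolynomial (Fin n) ℂ) :
    eval (Sum.elim x y) (rename Sum.inl G : MvPolynomial (Fin n ⊕ Fin n) ℂ) = eval x G := by
  rw [eval_rename]
  rfl

private theorem lin_not_unit (c : Fin n → ℤ) (u : ℂ) (hc : c ≠ 0) :
    ¬ IsUnit ((∑ j, C (c j : ℂ) * X j) - C u : MvPolynomial (Fin n) ℂ) := by
  intro hu
  obtain ⟨j0, hj0⟩ : ∃ j, c j ≠ 0 := by
    by_contra hcon
    push Not at hcon
    exact hc (funext hcon)
  have hj1 : (c j0 : ℂ) ≠ 0 := Int.cast_ne_zero.2 hj0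
  have h1 := hu.map (eval (Pi.single j0 (u / (c j0 : ℂ)) : Fin n → ℂ))
  have h2 : eval (Pi.single j0 (u / (c j0 : ℂ)) : Fin n → ℂ)
      ((∑ j, C (c j : ℂ) * X j) - C u : MvPolynomial (Fin n) ℂ) = 0 := by
    rw [map_sub, map_sum, eval_C]
    rw [Finset.sum_eq_single j0]
    · rw [map_mul, eval_C, eval_X, Pi.single_eq_same, mul_div_cancel₀ u hj1, sub_self]
    · intro j _ hj
      rw [map_mul, eval_X, Pi.single_eq_of_ne hj, mul_zero]
    · intro hj
      exact absurd (Finset.mem_univ j0) hj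
  rw [h2] at h1
  exact not_isUnit_zero h1

theorem vdata {x y : Fin n → F} (h : FD x y) :
    ∃ P : MvPolynomial (Fin n) ℂ, (∀ G : MvPolynomial (Fin n) ℂ, aeval x G = 0 ↔ P ∣ G) ∧
      XV.VData (Loc x y) P := by
  obtain ⟨P, hirr, hdeg, hP⟩ := hyper h.rkx
  refine ⟨P, hP, ?_⟩
  refine
    { irr := hirr
      deg := hdeg
      onX := ?_
      nz := fun z hz => hz.2
      dense := ?_
      rel := ?_
      pres := ?_
      free := ?_ }
  · intro z hz
    have h1 := hz.1 (rename Sum.inl P) (by rw [aeval_inl]; exact (hP P).2 dvd_rfl)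
    rw [eval_inl] at h1
    exact h1
  · intro G hG
    apply (hP G).1
    rw [← aeval_inl x y]
    apply vanish_loc h.nz
    intro z hz
    rw [eval_inl]
    exact hG z hz
  · intro b c
    exact rel_exists h.nz hP b c
      (fun hb => mo_mem c (fun j => rank_mem h b hb (Or.inr ⟨j, rfl⟩)))
  · intro a ha
    have ha1 : mo a y ∉ cl (Set.range x) := fun hc => ha ((alg_iff h.nz hP a).2 hc)
    exact rpres_exists h.nz hP a ha1 (fun j => rank_mem h a ha1 (Or.inr ⟨j, rfl⟩))
  · intro c u hc hd
    obtain ⟨M, hM⟩ := hd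
    rcases hirr.isUnit_or_isUnit hM with hu | hu
    · exact lin_not_unit c u hc hu
    · have h1 : P ∣ ((∑ j, C (c j : ℂ) * X j) - C u : MvPolynomial (Fin n) ℂ) := by
        obtain ⟨v, hv⟩ := hu
        refine ⟨((v⁻¹ : (MvPolynomial (Fin n) ℂ)ˣ) : MvPolynomial (Fin n) ℂ), ?_⟩
        rw [hM, ← hv, mul_assoc, Units.mul_inv, mul_one]
      have h2 := (hP _).2 h1
      apply h.af c hc u
      rw [map_sub, map_sum, aeval_C, sub_eq_zero] at h2
      rw [← h2, li]
      refine Finset.sum_congr rfl (fun j _ => ?_)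
      rw [map_mul, aeval_C, aeval_X, map_intCast]

end XA
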