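import Pool.Agent.Lib.MP_228259_lc.V.Z0
import Pool.Agent.Lib.MP_228259_lc.A.PA
import Pool.Agent.Lib.MP_228259_lc.A.T2M
import Pool.Agent.Lib.MP_228259_lc.A.VD
import Pool.Agent.Lib.MP_228259_lc.A.ND
import Pool.Agent.Lib.MP_228259_lc.A.RED
import Pool.Agent.Lib.MP_228259_lc.A.DR5
import Pool.Agent.Lib.MP_228259_lc.A.FRB
import Pool.Agent.Lib.MP_228259_lc.A.CS

/-!
FIN: exponential closedness for `n ≤ 3`.
-/

set_option autoImplicit false

namespace XA

open MvPolynomial

/-- a non-zero form of positive degree has a non-zero partial derivative -/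
theorem exists_pderiv_ne {n : ℕ} {P : MvPolynomial (Fin n) ℂ} (hd : 0 < P.totalDegree) :
    ∃ i, pderiv i (homogeneousComponent P.totalDegree P) ≠ 0 := by
  by_contra hcon
  push Not at hcon
  have h1 := (homogeneousComponent_isHomogeneous P.totalDegree P).sum_X_mul_pderiv
  simp only [hcon, mul_zero, Finset.sum_const_zero] at h1
  have hP : P ≠ 0 := by
    rintro rfl
    simp at hd
  have h2 : homogeneousComponent P.totalDegree P ≠ 0 := by
    intro h0
    obtain ⟨s, hs, hs'⟩ := P.support.exists_mem_eq_sup (MvPolynomial.support_nonempty.2 hP)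
      (fun s => s.degree)
    have h3 : P.totalDegree = s.degree := by
      rw [← hs']
      rfl
    have h4 := congrArg (coeff s) h0
    rw [coeff_homogeneousComponent, if_pos h3.symm, coeff_zero] at h4
    exact (mem_support_iff.1 hs) h4
  have h3 : P.totalDegree • homogeneousComponent P.totalDegree P ≠ 0 := by
    rw [nsmul_eq_mul]
    exact mul_ne_zero (by exact_mod_cast hd.ne') h2
  exact h3 h1.symm

/-- the case of transcendence degree `n - 1` of `ℂ(x)` for `n = 3` -/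
theorem ec_fd_three {F : Type} [Field F] [Algebra ℂ F] {x y : Fin 3 → F} (h : FD x y)
    (hrot : Rot x y) : HasExp x y := by
  rcases reduction h hrot with h1 | ⟨x', y', r, hF, hr, hA, himp⟩
  · exact h1
  apply himp
  have hr1 : r ≤ 1 := by omega
  rcases Nat.eq_zero_or_pos r with rfl | hr0
  · -- no algebraic monomials
    obtain ⟨P, hP, hV⟩ := vdata hF
    have hP0 : P ≠ 0 := hV.irr.ne_zero
    rcases nondeg_or P hP0 0 with ⟨H, hirr, hH, a, ha, i, -, hi⟩ | hall
    · obtain ⟨z, hz⟩ := XV.nondeg_main hV H hirr hH a ha (by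
        rw [alg_iff hF.nz hP, hA]
        intro h0
        exact hi (h0 i (Nat.zero_le _)))
      exact ⟨z, hz⟩
    · obtain ⟨i, hi⟩ := exists_pderiv_ne hV.deg
      exact absurd (hall i (Nat.zero_le _)) hi
  · have hr' : r = 1 := by omega
    subst hr'
    refine t2 hF ?_ ?_
    · have h1 := (hA (Pi.single 0 1)).2 (by
        intro i hi
        have : i ≠ 0 := by
          rintro rfl
          simp at hi
        simp [this])
      rwa [mo_single] at h1
    · intro a ha
      have h1 := (hA a).1 ha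
      exact ⟨h1 1 (by simp), h1 2 (by simp)⟩

/-- exponential closedness in the field form for `n ≤ 3` -/
theorem ec_field {F : Type} [Field F] [Algebra ℂ F] {n : ℕ} (hn : 0 < n) (hn3 : n ≤ 3)
    {x y : Fin n → F} (h : FR0 x y) : HasExp x y := by
  obtain ⟨K, _, _, x', y', h', hr, himp⟩ := dim_reduction h
  apply himp
  rcases cases3 hn hn3 h' hr with h1 | h1 | ⟨rfl, h1⟩
  · exact h1
  · exact pa1 h' h1 hr
  · exact ec_fd_three h1 h'.rot

theorem frozen_le_three (n : ℕ) (hn3 : n ≤ 3) (P : Ideal (MvPolynomial (Fin n ⊕ Fin n) ℂ))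
    (V : Set (Fin n ⊕ Fin n → ℂ)) (hP : P.IsPrime)
    (hV : V = {p | (∀ f ∈ P, eval p f = 0) ∧ ∀ j : Fin n, p (Sum.inr j) ≠ 0})
    (hadd : ∀ m : Fin n → ℤ, m ≠ 0 → ∀ c : ℂ,
          ∃ p ∈ V, (∑ j : Fin n, (m j : ℂ) * p (Sum.inl j)) ≠ c)
    (hmul : ∀ m : Fin n → ℤ, m ≠ 0 → ∀ c : ℂ,
          ∃ p ∈ V, (∏ j : Fin n, p (Sum.inr j) ^ (m j)) ≠ c)
    (hrot : ∀ k : ℕ, 1 ≤ k → k ≤ n → ∀ M : Matrix (Fin k) (Fin n) ℤ,
          ∃ J : Finset (Fin k ⊕ Fin k),
            (M.map (Int.cast : ℤ → ℚ)).rank ≤ J.card ∧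
            ∀ f : MvPolynomial (Fin k ⊕ Fin k) ℂ, f.vars ⊆ J →
              (∀ p ∈ V, MvPolynomial.eval
                  (Sum.elim (fun i : Fin k => ∑ j : Fin n, (M i j : ℂ) * p (Sum.inl j))
                            (fun i : Fin k => ∏ j : Fin n, p (Sum.inr j) ^ (M i j))) f = 0) →
              f = 0) :
    ∃ z : Fin n → ℂ, ∀ f ∈ P,
        MvPolynomial.eval (Sum.elim z (fun i : Fin n => Complex.exp (z i))) f = 0 := by
  rcases Nat.eq_zero_or_pos n with rfl | hn
  · refine ⟨fun j => j.elim0, fun f hf => ?_⟩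
    by_contra h0
    obtain ⟨a, rfl⟩ := MvPolynomial.C_surjective (Fin 0 ⊕ Fin 0) f
    rw [eval_C] at h0
    have : (1 : MvPolynomial (Fin 0 ⊕ Fin 0) ℂ) ∈ P := by
      have h1 := P.mul_mem_left (C a⁻¹) hf
      rwa [← C_mul, inv_mul_cancel₀ h0, C_1] at h1
    exact hP.ne_top ((Ideal.eq_top_iff_one P).mpr this)
  obtain ⟨F, _, _, x, y, hFR, hker⟩ := frozen_fr0 n hn P V hP hV hadd hmul hrot
  obtain ⟨z, hz⟩ := ec_field hn hn3 hFR
  refine ⟨z, fun f hf => ?_⟩
  exact hz.1 f ((hker f).2 hf)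

end XA
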