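import Pool.Agent.Lib.MP_228259_lc.A.HS

/-!
FM: independent coordinates are free.

PROOF. Induction on `m`. `m = 0`: rename `inl` (`Fin 0` is empty). `m + 1`: the ranks of the families
`v ∘ castSucc` (`rk (range u ∪ range (v ∘ castSucc)) = rk (range u) + m` and
`v (last m) ∉ cl (range u ∪ range (v ∘ castSucc))`: each new element raises the rank by at most one
(`rk_insert_mem`, `rk_insert_not`), and the total is `m + 1`; `rk (range u)` is finite). The induction hypothesis gives
`IsPt (Sum.elim u (v ∘ castSucc)) (Sum.elim p (q ∘ castSucc))`. `spec_trans` (HS.lean) with the target field `ℂ`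
(`IsPt u p` is `IsSpec u p` with `F' = ℂ`: `aeval p f = eval p f`, `MvPolynomial.aeval_eq_eval`) adds the coordinate
`v (last m)`, value `q (last m)`; rename the index type `(κ ⊕ Fin m) ⊕ Unit` to `κ ⊕ Fin (m + 1)`
(`IsSpec.comp`-like: precompose both families with the same map of index types, `aeval_rename`).
-/

set_option autoImplicit false

namespace XA

open MvPolynomial

theorem isPt_iff_spec {F : Type*} [Field F] [Algebra ℂ F] {κ : Type*} {u : κ → F} {p : κ → ℂ} :
    IsPt u p ↔ IsSpec u p := by
  unfold IsPt IsSpec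
  refine forall_congr' fun f => ?_
  rw [MvPolynomial.aeval_eq_eval]

private theorem FM_comp {F K : Type*} [Field F] [Algebra ℂ F] [Field K] [Algebra ℂ K]
    {ι ι' : Type*} {v : ι → F} {v' : ι → K} (h : IsSpec v v') (g : ι' → ι) {w : ι' → F}
    {w' : ι' → K} (hw : ∀ i, w i = v (g i)) (hw' : ∀ i, w' i = v' (g i)) : IsSpec w w' := by
  obtain rfl : w = v ∘ g := funext hw
  obtain rfl : w' = v' ∘ g := funext hw'
  intro f hf
  rw [← MvPolynomial.aeval_rename] at hf ⊢
  exact h _ hf

private theorem FM_range {F : Type*} {m : ℕ} (v : Fin (m + 1) → F) :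
    Set.range v = insert (v (Fin.last m)) (Set.range fun i : Fin m => v i.castSucc) := by
  ext a
  constructor
  · rintro ⟨i, rfl⟩
    induction i using Fin.lastCases with
    | last => exact Or.inl rfl
    | cast i => exact Or.inr ⟨i, rfl⟩
  · rintro (rfl | ⟨i, rfl⟩)
    · exact ⟨_, rfl⟩
    · exact ⟨_, rfl⟩

private theorem FM_le {F : Type*} [Field F] [Algebra ℂ F] {κ : Type*} (u : κ → F) {m : ℕ}
    (w : Fin m → F) : rk (Set.range u ∪ Set.range w) ≤ rk (Set.range u) + m := by
  have h1 : rk (Set.range u ∪ Set.range w) ≤ rk (Set.range u) + rk (Set.range w) :=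
    Matroid.eRk_union_le_eRk_add_eRk _ _ _
  have h2 := rk_range_le w
  rw [Fintype.card_fin] at h2
  exact h1.trans (by gcongr)

private theorem FM_aux {F : Type*} [Field F] [Algebra ℂ F] {κ : Type*} {u : κ → F}
    (hfin : rk (Set.range u) ≠ ⊤) {p : κ → ℂ} (hp : IsSpec u p) : ∀ (m : ℕ) (v : Fin m → F),
    rk (Set.range u ∪ Set.range v) = rk (Set.range u) + m → ∀ q : Fin m → ℂ,
    IsSpec (Sum.elim u v) (Sum.elim p q) := by
  intro m
  induction m with
  | zero =>
    intro v _ q
    refine FM_comp hp (Sum.elim id fun i : Fin 0 => i.elim0) ?_ ?_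
    · rintro (k | i)
      · rfl
      · exact i.elim0
    · rintro (k | i)
      · rfl
      · exact i.elim0
  | succ m ih =>
    intro v hv q
    set v' : Fin m → F := fun i => v i.castSucc with hv'
    have hr : Set.range u ∪ Set.range v = insert (v (Fin.last m)) (Set.range u ∪ Set.range v') := by
      rw [FM_range v, Set.union_insert]
    rw [hr] at hv
    have hle := FM_le u v'
    have hSf : rk (Set.range u ∪ Set.range v') ≠ ⊤ := by
      intro h
      rw [h, top_le_iff] at hle
      exact (WithTop.add_ne_top.2 ⟨hfin, ENat.natCast_ne_top m⟩) hle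
    obtain ⟨a, ha⟩ := ENat.ne_top_iff_exists.1 hfin
    obtain ⟨b, hb⟩ := ENat.ne_top_iff_exists.1 hSf
    rw [← ha, ← hb] at hle
    have hle' : b ≤ a + m := by exact_mod_cast hle
    have hnot : v (Fin.last m) ∉ cl (Set.range u ∪ Set.range v') := by
      intro hmem
      rw [rk_insert_mem hmem, ← ha, ← hb] at hv
      have : b = a + (m + 1) := by exact_mod_cast hv
      omega
    rw [rk_insert_not hnot, ← ha, ← hb] at hv
    have hb' : b + 1 = a + (m + 1) := by exact_mod_cast hv
    have hS : rk (Set.range u ∪ Set.range v') = rk (Set.range u) + m := by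
      rw [← ha, ← hb]
      have : b = a + m := by omega
      rw [this]
      push_cast
      rfl
    have h1 := ih v' hS (fun i => q i.castSucc)
    rw [← Set.Sum.elim_range] at hnot
    have h2 := spec_trans h1 hnot (q (Fin.last m))
    refine FM_comp h2 (Sum.elim (fun k => Sum.inl (Sum.inl k))
      (Fin.lastCases (Sum.inr ()) fun i => Sum.inl (Sum.inr i))) ?_ ?_
    · rintro (k | i)
      · rfl
      · induction i using Fin.lastCases with
        | last => simp
        | cast i => simp [hv']
    · rintro (k | i)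
      · rfl
      · induction i using Fin.lastCases with
        | last => simp
        | cast i => simp

theorem free_many {F : Type*} [Field F] [Algebra ℂ F] {κ : Type*} {m : ℕ} {u : κ → F}
    {v : Fin m → F} (hfin : rk (Set.range u) ≠ ⊤)
    (hv : rk (Set.range u ∪ Set.range v) = rk (Set.range u) + m) {p : κ → ℂ} (hp : IsPt u p)
    (q : Fin m → ℂ) : IsPt (Sum.elim u v) (Sum.elim p q) :=
  isPt_iff_spec.2 (FM_aux hfin (isPt_iff_spec.1 hp) m v hv q)

end XA
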