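import Pool.Agent.Lib.MP_228259_lc.A.EXT
import Pool.Agent.Lib.MP_228259_lc.A.FM

/-!
LG: points lift along arbitrary extensions, outside the zeros of one polynomial.

PROOF. Choose `J ⊆ ι` such that `v_J` is algebraically independent over `ℂ(u)` and all `v i` are algebraic over
`ℂ(u, v_J)` (matroid: extend a basis of `range u` to a basis of `range u ∪ range v` by elements of `range v`; choose one
index for each element). `rk (range u ∪ v_J) = rk (range u) + J.card`. `ext_spec` (EXT.lean) for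
`u₀ = Sum.elim u v_J : κ ⊕ J → F` and the family `v` (`ι` finite) gives `h₁ : MvPolynomial (κ ⊕ J) ℂ` with
`aeval u₀ h₁ ≠ 0`. The polynomial `h₁(u, X_J)` over `F` in the variables `X_j` is not zero (its value at `v_J` is not
zero), so there is a point `c : J → ℂ` with `h₁(u, c) ≠ 0` in `F` (a polynomial over `F` which vanishes at all points
of `ℂ^J` is zero: `MvPolynomial.funext_set`/`MvPolynomial.eq_zero_of_eval_zero_at_prod_finset`, `ℂ → F` has infinite
image). Let `h = h₁(X_κ, c) : MvPolynomial κ ℂ`. `aeval u h ≠ 0`. If `IsPt u p` and `eval p h ≠ 0`: `free_many`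
(enumerate `J`) gives `IsPt u₀ (Sum.elim p c)`, i.e. `IsSpec u₀ (Sum.elim p c)` (`isPt_iff_spec`), and
`aeval (Sum.elim p c) h₁ = eval p h ≠ 0`, so `ext_spec` with `K = ℂ` gives values `p'` of `v` with
`IsSpec (Sum.elim u₀ v) (Sum.elim (Sum.elim p c) p')`; restrict to `u, v`.
-/

set_option autoImplicit false

namespace XA

open MvPolynomial

private theorem lg_comp {F K : Type*} [Field F] [Algebra ℂ F] [Field K] [Algebra ℂ K]
    {ι ι' : Type*} {v : ι → F} {v' : ι → K} (h : IsSpec v v') (g : ι' → ι) :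
    IsSpec (fun i => v (g i)) (fun i => v' (g i)) := by
  intro f hf
  have h1 := h (rename g f) (by rw [aeval_rename]; exact hf)
  rwa [aeval_rename] at h1

private theorem lg_rk {F : Type*} [Field F] [Algebra ℂ F] {κ : Type*} [Finite κ] (u : κ → F) :
    rk (Set.range u) ≠ ⊤ := by
  have h1 : rk (Set.range u) ≤ (Set.range u).encard :=
    (AlgebraicIndependent.matroid ℂ F).eRk_le_encard _
  intro h2
  rw [h2] at h1
  exact (Set.finite_range u).encard_lt_top.not_ge h1

private theorem lg_step {F : Type*} [Field F] [Algebra ℂ F] {κ : Type*} [Finite κ]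
    (u : κ → F) (w : F) (g : MvPolynomial (κ ⊕ Fin 1) ℂ)
    (hg : aeval (Sum.elim u (fun _ : Fin 1 => w)) g ≠ 0) :
    ∃ h : MvPolynomial κ ℂ, aeval u h ≠ 0 ∧ ∀ p : κ → ℂ, IsPt u p → eval p h ≠ 0 →
      ∃ c : ℂ, IsPt (Sum.elim u (fun _ : Fin 1 => w)) (Sum.elim p (fun _ : Fin 1 => c)) ∧
        eval (Sum.elim p (fun _ : Fin 1 => c)) g ≠ 0 := by
  classical
  by_cases hw : w ∈ cl (Set.range u)
  · obtain ⟨K, hK⟩ := cl_field (Set.range u)
    have hmem : ∀ a : F, a ∈ K ↔ a ∈ cl (Set.range u) := fun a => by rw [← hK]; rfl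
    have h1 : aeval (Sum.elim u (fun _ : Fin 1 => w)) g ∈ K := by
      have h2 : ∀ i, Sum.elim u (fun _ : Fin 1 => w) i ∈ K := by
        rintro (i | i)
        · exact (hmem _).2 (subset_cl _ ⟨i, rfl⟩)
        · exact (hmem _).2 hw
      have h3 : aeval (Sum.elim u (fun _ : Fin 1 => w)) g =
          ((aeval (fun i => (⟨Sum.elim u (fun _ : Fin 1 => w) i, h2 i⟩ : K)) g : K) : F) := by
        have h4 := aeval_algebraMap_apply (A := K) (B := F)
          (fun i => (⟨Sum.elim u (fun _ : Fin 1 => w) i, h2 i⟩ : K)) g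
        rw [IntermediateField.algebraMap_apply] at h4
        rw [← h4]
        rfl
      rw [h3]
      exact SetLike.coe_mem _
    obtain ⟨h, hh0, hh⟩ := ext_spec (u₀ := u)
      (u := ![w, (aeval (Sum.elim u (fun _ : Fin 1 => w)) g)⁻¹]) (by
        intro i
        fin_cases i
        · exact hw
        · exact (hmem _).1 (K.inv_mem h1))
    refine ⟨h, hh0, fun p hp hph => ?_⟩
    obtain ⟨v, hv⟩ := hh ℂ p (isPt_iff_spec.1 hp) (by rwa [MvPolynomial.aeval_eq_eval])
    refine ⟨v 0, ?_, ?_⟩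
    · rw [isPt_iff_spec]
      have h2 := lg_comp hv (Sum.elim Sum.inl (fun _ : Fin 1 => Sum.inr (0 : Fin 2)))
      have e1 : (fun i => Sum.elim u ![w, (aeval (Sum.elim u (fun _ : Fin 1 => w)) g)⁻¹]
          (Sum.elim Sum.inl (fun _ : Fin 1 => Sum.inr (0 : Fin 2)) i)) =
          Sum.elim u (fun _ : Fin 1 => w) := by
        funext i
        rcases i with i | i <;> rfl
      have e2 : (fun i => Sum.elim p v
          (Sum.elim Sum.inl (fun _ : Fin 1 => Sum.inr (0 : Fin 2)) i)) =
          Sum.elim p (fun _ : Fin 1 => v 0) := by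
        funext i
        rcases i with i | i <;> rfl
      rwa [e1, e2] at h2
    · intro h0
      have h2 := hv (rename (Sum.elim Sum.inl (fun _ : Fin 1 => Sum.inr (0 : Fin 2))) g *
        X (Sum.inr (1 : Fin 2)) - 1) (by
          rw [map_sub, map_mul, aeval_rename, aeval_X, map_one]
          have e1 : (Sum.elim u ![w, (aeval (Sum.elim u (fun _ : Fin 1 => w)) g)⁻¹] ∘
              (Sum.elim Sum.inl (fun _ : Fin 1 => Sum.inr (0 : Fin 2)))) =
              Sum.elim u (fun _ : Fin 1 => w) := by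
            funext i
            rcases i with i | i <;> rfl
          rw [e1]
          show aeval (Sum.elim u (fun _ : Fin 1 => w)) g *
            (aeval (Sum.elim u (fun _ : Fin 1 => w)) g)⁻¹ - 1 = 0
          rw [mul_inv_cancel₀ hg, sub_self])
      rw [map_sub, map_mul, aeval_rename, aeval_X, map_one] at h2
      have e2 : (Sum.elim p v ∘ (Sum.elim Sum.inl (fun _ : Fin 1 => Sum.inr (0 : Fin 2)))) =
          Sum.elim p (fun _ : Fin 1 => v 0) := by
        funext i
        rcases i with i | i <;> rfl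
      rw [e2, MvPolynomial.aeval_eq_eval, h0, zero_mul, zero_sub] at h2
      exact one_ne_zero (neg_eq_zero.1 h2)
  · -- a free element: substitute a number
    obtain ⟨G, hG⟩ : ∃ G : Polynomial F, G =
      aeval (Sum.elim (fun i => Polynomial.C (u i)) (fun _ : Fin 1 => Polynomial.X)) g := ⟨_, rfl⟩
    have hGe : ∀ c : F, G.eval c = aeval (Sum.elim u (fun _ : Fin 1 => c)) g := by
      intro c
      have h1 : ((Polynomial.aeval c).restrictScalars ℂ).comp
          (aeval (Sum.elim (fun i => Polynomial.C (u i)) (fun _ : Fin 1 => Polynomial.X)) :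
            MvPolynomial (κ ⊕ Fin 1) ℂ →ₐ[ℂ] Polynomial F) =
          aeval (Sum.elim u (fun _ : Fin 1 => c)) := by
        apply MvPolynomial.algHom_ext
        rintro (i | i)
        · simp
        · simp
      have h2 := DFunLike.congr_fun h1 g
      rw [hG, ← Polynomial.coe_aeval_eq_eval]
      exact h2
    have hG0 : G ≠ 0 := by
      rintro rfl
      apply hg
      rw [← hGe, Polynomial.eval_zero]
    obtain ⟨c, hc⟩ : ∃ c : ℂ, G.eval (algebraMap ℂ F c) ≠ 0 := by
      by_contra hcon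
      push Not at hcon
      have h1 : (Set.range (algebraMap ℂ F)).Infinite :=
        Set.infinite_range_of_injective (algebraMap ℂ F).injective
      apply h1
      refine (G.roots.toFinset.finite_toSet).subset ?_
      rintro _ ⟨c, rfl⟩
      rw [Finset.mem_coe, Multiset.mem_toFinset, Polynomial.mem_roots hG0]
      exact hcon c
    obtain ⟨h, hh⟩ : ∃ h : MvPolynomial κ ℂ, h = aeval (Sum.elim X (fun _ : Fin 1 => C c)) g :=
      ⟨_, rfl⟩
    have hh1 : aeval u h = aeval (Sum.elim u (fun _ : Fin 1 => algebraMap ℂ F c)) g := by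
      have h1 : (aeval u : MvPolynomial κ ℂ →ₐ[ℂ] F).comp
          (aeval (Sum.elim X (fun _ : Fin 1 => C c)) : MvPolynomial (κ ⊕ Fin 1) ℂ →ₐ[ℂ] _) =
          aeval (Sum.elim u (fun _ : Fin 1 => algebraMap ℂ F c)) := by
        apply MvPolynomial.algHom_ext
        rintro (i | i)
        · simp
        · simp
      rw [hh]
      exact DFunLike.congr_fun h1 g
    have hh2 : ∀ p : κ → ℂ, eval p h = eval (Sum.elim p (fun _ : Fin 1 => c)) g := by
      intro p
      have h1 : (aeval p : MvPolynomial κ ℂ →ₐ[ℂ] ℂ).comp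
          (aeval (Sum.elim X (fun _ : Fin 1 => C c)) : MvPolynomial (κ ⊕ Fin 1) ℂ →ₐ[ℂ] _) =
          aeval (Sum.elim p (fun _ : Fin 1 => c)) := by
        apply MvPolynomial.algHom_ext
        rintro (i | i)
        · simp
        · simp
      rw [hh, ← MvPolynomial.aeval_eq_eval, ← MvPolynomial.aeval_eq_eval]
      exact DFunLike.congr_fun h1 g
    refine ⟨h, ?_, fun p hp hph => ⟨c, ?_, ?_⟩⟩
    · rw [hh1, ← hGe]
      exact hc
    · refine free_many (lg_rk u) ?_ hp (fun _ => c)
      have e1 : Set.range u ∪ Set.range (fun _ : Fin 1 => w) = insert w (Set.range u) := by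
        rw [Set.range_const, Set.union_singleton]
      rw [e1, rk_insert_not hw]
      rfl
    · rw [← hh2]
      exact hph

private def lgE0 (κ : Type*) : κ ⊕ Fin 0 → κ := Sum.elim id (fun i => i.elim0)

private theorem lg_e0 {κ A : Type*} (a : κ → A) (b : Fin 0 → A) : a ∘ lgE0 κ = Sum.elim a b := by
  funext i
  rcases i with i | i
  · rfl
  · exact i.elim0

private def lgE1 (κ : Type*) (m : ℕ) : κ ⊕ Fin (m + 1) → (κ ⊕ Fin m) ⊕ Fin 1 :=
  Sum.elim (fun i => Sum.inl (Sum.inl i))
    (Fin.lastCases (Sum.inr 0) (fun i => Sum.inl (Sum.inr i)))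

private theorem lg_e1 {κ A : Type*} {m : ℕ} (a : κ → A) (b : Fin m → A) (c : A) :
    (Sum.elim (Sum.elim a b) (fun _ : Fin 1 => c)) ∘ lgE1 κ m =
      Sum.elim a (Fin.lastCases c b : Fin (m + 1) → A) := by
  funext i
  rcases i with i | i
  · rfl
  · unfold lgE1
    refine Fin.lastCases ?_ (fun i => ?_) i
    · simp
    · simp

private theorem lg_fin {F : Type*} [Field F] [Algebra ℂ F] {κ : Type*} [Finite κ] (u : κ → F) :
    ∀ (m : ℕ) (v : Fin m → F) (g : MvPolynomial (κ ⊕ Fin m) ℂ), aeval (Sum.elim u v) g ≠ 0 →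
    ∃ h : MvPolynomial κ ℂ, aeval u h ≠ 0 ∧ ∀ p : κ → ℂ, IsPt u p → eval p h ≠ 0 →
      ∃ q : Fin m → ℂ, IsPt (Sum.elim u v) (Sum.elim p q) ∧ eval (Sum.elim p q) g ≠ 0 := by
  intro m
  induction m with
  | zero =>
    intro v g hg
    refine ⟨rename (lgE0 κ) g, ?_, fun p hp hph => ⟨fun i => i.elim0, ?_, ?_⟩⟩
    · rw [aeval_rename, lg_e0 u v]
      exact hg
    · rw [isPt_iff_spec] at hp ⊢
      have h2 := lg_comp hp (lgE0 κ)
      have e1 : (fun i => u (lgE0 κ i)) = Sum.elim u v := lg_e0 u v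
      have e2 : (fun i => p (lgE0 κ i)) = Sum.elim p (fun i => i.elim0) := lg_e0 p _
      rwa [e1, e2] at h2
    · rw [eval_rename, lg_e0 p (fun i => i.elim0)] at hph
      exact hph
  | succ m ih =>
    intro v g hg
    have h2 : (Fin.lastCases (v (Fin.last m)) (fun i => v (Fin.castSucc i)) :
        Fin (m + 1) → F) = v := by
      funext i
      refine Fin.lastCases ?_ (fun i => ?_) i
      · simp
      · simp
    obtain ⟨h', hh0, hh⟩ := lg_step (Sum.elim u (fun i => v (Fin.castSucc i))) (v (Fin.last m))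
      (rename (lgE1 κ m) g) (by
        rw [aeval_rename, lg_e1, h2]
        exact hg)
    obtain ⟨h, k0, k⟩ := ih (fun i => v (Fin.castSucc i)) h' hh0
    refine ⟨h, k0, fun p hp hph => ?_⟩
    obtain ⟨q, hq1, hq2⟩ := k p hp hph
    obtain ⟨c, hc1, hc2⟩ := hh _ hq1 hq2
    refine ⟨Fin.lastCases c q, ?_, ?_⟩
    · rw [isPt_iff_spec] at hc1 ⊢
      have h3 := lg_comp hc1 (lgE1 κ m)
      have e1 : (fun i => (Sum.elim (Sum.elim u (fun i => v (Fin.castSucc i)))
          (fun _ : Fin 1 => v (Fin.last m))) (lgE1 κ m i)) = Sum.elim u v := by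
        refine (lg_e1 _ _ _).trans ?_
        rw [h2]
      have e2 : (fun i => (Sum.elim (Sum.elim p q) (fun _ : Fin 1 => c)) (lgE1 κ m i)) =
          Sum.elim p (Fin.lastCases c q : Fin (m + 1) → ℂ) := lg_e1 _ _ _
      rwa [e1, e2] at h3
    · rw [eval_rename, lg_e1] at hc2
      exact hc2

theorem lift_general {F : Type*} [Field F] [Algebra ℂ F] {κ ι : Type*} [Finite κ] [Finite ι]
    (u : κ → F) (v : ι → F) :
    ∃ h : MvPolynomial κ ℂ, aeval u h ≠ 0 ∧ ∀ p : κ → ℂ, IsPt u p → eval p h ≠ 0 →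
      ∃ p' : ι → ℂ, IsPt (Sum.elim u v) (Sum.elim p p') := by
  obtain ⟨m, ⟨e⟩⟩ := Finite.exists_equiv_fin ι
  obtain ⟨h, h0, hh⟩ := lg_fin u m (v ∘ e.symm) 1 (by rw [map_one]; exact one_ne_zero)
  refine ⟨h, h0, fun p hp hph => ?_⟩
  obtain ⟨q, hq, -⟩ := hh p hp hph
  refine ⟨q ∘ e, ?_⟩
  rw [isPt_iff_spec] at hq ⊢
  have h1 := lg_comp hq (Sum.map id e)
  have e1 : (fun i => Sum.elim u (v ∘ e.symm) (Sum.map id e i)) = Sum.elim u v := by
    funext i
    rcases i with i | i
    · rfl
    · simp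
  have e2 : (fun i => Sum.elim p q (Sum.map id e i)) = Sum.elim p (q ∘ e) := by
    funext i
    rcases i with i | i
    · rfl
    · rfl
  rwa [e1, e2] at h1

end XA
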