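import Pool.Agent.Lib.MP_228259_lc.A.DE2
import Pool.Agent.Lib.MP_228259_lc.A.LG

/-!
R2: two monomials `y_0, y_1` algebraic over `ℂ(x)`, the other `y_j` independent over it.

PROOF. Let `x₀ = ![x 0, x 1]`, `y₀ = ![y 0, y 1]`. `FR0 x₀ y₀`: `nz, af, mf` clear (extend `m : Fin 2 → ℤ` by zeros);
`rot`: for a `k × 2` matrix `M`, `1 ≤ k ≤ 2`, extend it by zero columns to a `k × (m + 2)` matrix `M'` of the same rank
(`k ≤ m + 2`), `li (M' i) x = li (M i) x₀`, `mo (M' i) y = mo (M i) y₀`, and use `h.rot`.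
`lift_general` with `u = Sum.elim x₀ y₀ : Fin 2 ⊕ Fin 2 → F`, `v = x : Fin (m + 2) → F` gives `g`,
`aeval u g ≠ 0`. `dense_two hec` gives `z₀` with `(z₀, exp z₀) ∈ Loc x₀ y₀`, `eval (..) g ≠ 0`, so there is
`p' : Fin (m + 2) → ℂ` with `IsPt (Sum.elim u x) (Sum.elim (Sum.elim z₀ (exp z₀)) p')`; `p' 0 = z₀ 0`, `p' 1 = z₀ 1`
(the polynomial `X (inl (inl 0)) - X (inr 0)` is a relation). Now
`range u ∪ range x` has rank `rk (range x)` (`y 0, y 1 ∈ cl (range x)`), and with `v j = y (j + 2)`, `j : Fin m`, the rank is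
`rk (range x ∪ range y) = rk (range x) + m`; `free_many` (finite rank: `rk (range x) ≤ m + 2`) with
`q j = exp (p' (j + 2))` gives a point, and after renaming
the point `(p', exp p')` of `Loc x y` (all relations of `Sum.elim x y` are relations of the bigger family).
-/

set_option autoImplicit false

namespace XA

open MvPolynomial

private def r2ext {m : ℕ} (a : Fin 2 → ℤ) : Fin (m + 2) → ℤ :=
  Fin.cases (a 0) (Fin.cases (a 1) (fun _ => 0))

private theorem r2_li {F : Type*} [Field F] {m : ℕ} (a : Fin 2 → ℤ) (x : Fin (m + 2) → F) :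
    li (r2ext a) x = li a ![x 0, x 1] := by
  have e0 : (r2ext a : Fin (m + 2) → ℤ) 0 = a 0 := rfl
  have e1 : (r2ext a : Fin (m + 2) → ℤ) (Fin.succ 0) = a 1 := rfl
  have e2 : ∀ j : Fin m, (r2ext a : Fin (m + 2) → ℤ) j.succ.succ = 0 := fun _ => rfl
  unfold li
  rw [Fin.sum_univ_succ, Fin.sum_univ_succ, Fin.sum_univ_two, e0, e1]
  simp only [e2, Int.cast_zero, zero_mul, Finset.sum_const_zero, add_zero]
  rfl

private theorem r2_mo {F : Type*} [Field F] {m : ℕ} (a : Fin 2 → ℤ) (x : Fin (m + 2) → F) :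
    mo (r2ext a) x = mo a ![x 0, x 1] := by
  have e0 : (r2ext a : Fin (m + 2) → ℤ) 0 = a 0 := rfl
  have e1 : (r2ext a : Fin (m + 2) → ℤ) (Fin.succ 0) = a 1 := rfl
  have e2 : ∀ j : Fin m, (r2ext a : Fin (m + 2) → ℤ) j.succ.succ = 0 := fun _ => rfl
  unfold mo
  rw [Fin.prod_univ_succ, Fin.prod_univ_succ, Fin.prod_univ_two, e0, e1]
  simp only [e2, zpow_zero, Finset.prod_const_one, mul_one]
  rfl

private theorem r2_ne {m : ℕ} {a : Fin 2 → ℤ} (ha : a ≠ 0) : (r2ext a : Fin (m + 2) → ℤ) ≠ 0 := by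
  intro h
  apply ha
  funext i
  fin_cases i
  · exact congrFun h 0
  · exact congrFun h 1

private theorem r2_fr {F : Type} [Field F] [Algebra ℂ F] {m : ℕ} {x y : Fin (m + 2) → F}
    (h : FR0 x y) : FR0 ![x 0, x 1] ![y 0, y 1] := by
  refine ⟨fun j => ?_, fun a ha c => ?_, fun a ha c => ?_, fun k M hk hk2 => ?_⟩
  · fin_cases j
    · exact h.nz 0
    · exact h.nz 1
  · rw [← r2_li]
    exact h.af _ (r2_ne ha) c
  · rw [← r2_mo]
    exact h.mf _ (r2_ne ha) c
  · obtain ⟨M', hM'⟩ : ∃ M' : Matrix (Fin k) (Fin (m + 2)) ℤ, ∀ i, M' i = r2ext (M i) :=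
      ⟨fun i => r2ext (M i), fun _ => rfl⟩
    have h1 := h.rot k M' hk (by omega)
    have g1 : (fun i => li (M' i) x) = fun i => li (M i) ![x 0, x 1] := by
      funext i
      rw [hM', r2_li]
    have g2 : (fun i => mo (M' i) y) = fun i => mo (M i) ![y 0, y 1] := by
      funext i
      rw [hM', r2_mo]
    rw [g1, g2] at h1
    refine le_trans ?_ h1
    have h2 : M.map (Int.cast : ℤ → ℚ) = (M'.map (Int.cast : ℤ → ℚ)) *
          (Matrix.of fun (j : Fin (m + 2)) (i : Fin 2) =>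
            if j = ![(0 : Fin (m + 2)), 1] i then (1 : ℚ) else 0) := by
      ext i l
      rw [Matrix.mul_apply]
      simp only [Matrix.map_apply, Matrix.of_apply, mul_ite, mul_one, mul_zero]
      rw [Finset.sum_ite_eq' Finset.univ, if_pos (Finset.mem_univ _)]
      rw [hM']
      fin_cases l
      · rfl
      · rfl
    have h3 : (M.map (Int.cast : ℤ → ℚ)).rank ≤ (M'.map (Int.cast : ℤ → ℚ)).rank := by
      rw [h2]
      exact Matrix.rank_mul_le_left _ _
    exact_mod_cast h3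

theorem two_alg
    (hec : ∀ (F : Type) [Field F] [Algebra ℂ F] (x y : Fin 3 → F), FR0 x y → HasExp x y)
    {F : Type} [Field F] [Algebra ℂ F] {m : ℕ} {x y : Fin (m + 2) → F} (h : FR0 x y)
    (h0 : y 0 ∈ cl (Set.range x)) (h1 : y 1 ∈ cl (Set.range x))
    (hN : rk (Set.range x ∪ Set.range y) = rk (Set.range x) + m) : HasExp x y := by
  obtain ⟨u, hu⟩ : ∃ u : Fin 2 ⊕ Fin 2 → F, u = Sum.elim ![x 0, x 1] ![y 0, y 1] := ⟨_, rfl⟩
  obtain ⟨g, hg, hlift⟩ := lift_general u x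
  obtain ⟨z₀, hz, hzg⟩ := dense_two hec (r2_fr h) g (by rw [← hu]; exact hg)
  have hz1 : IsPt u (Sum.elim z₀ (fun j => Complex.exp (z₀ j))) := by
    rw [hu]
    exact hz.1
  obtain ⟨p', hp'⟩ := hlift _ hz1 hzg
  have hz0 : p' 0 = z₀ 0 := by
    have h2 := hp' (X (Sum.inl (Sum.inl 0)) - X (Sum.inr 0)) (by
      rw [map_sub, aeval_X, aeval_X, hu]
      simp)
    rw [map_sub, eval_X, eval_X] at h2
    simp only [Sum.elim_inl, Sum.elim_inr] at h2
    exact (sub_eq_zero.1 h2).symm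
  have hz1' : p' 1 = z₀ 1 := by
    have h2 := hp' (X (Sum.inl (Sum.inl 1)) - X (Sum.inr 1)) (by
      rw [map_sub, aeval_X, aeval_X, hu]
      simp)
    rw [map_sub, eval_X, eval_X] at h2
    simp only [Sum.elim_inl, Sum.elim_inr] at h2
    exact (sub_eq_zero.1 h2).symm
  have hur : Set.range u ⊆ cl (Set.range x) := by
    rintro _ ⟨i, rfl⟩
    rw [hu]
    rcases i with i | i
    · fin_cases i
      · exact subset_cl _ ⟨0, rfl⟩
      · exact subset_cl _ ⟨1, rfl⟩
    · fin_cases i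
      · exact h0
      · exact h1
  have hwr : Set.range (Sum.elim u x) = Set.range u ∪ Set.range x := Set.Sum.elim_range u x
  have hrw : rk (Set.range (Sum.elim u x)) = rk (Set.range x) := by
    rw [hwr]
    refine le_antisymm (rk_mono (Set.union_subset hur (subset_cl _))) (rk_mono ?_)
    exact (Set.subset_union_right).trans (subset_cl _)
  have hfin : rk (Set.range (Sum.elim u x)) ≠ ⊤ := by
    rw [hrw]
    exact ne_top_of_le_ne_top (ENat.natCast_ne_top _) (rk_range_le x)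
  have hv : rk (Set.range (Sum.elim u x) ∪ Set.range (fun j : Fin m => y j.succ.succ)) =
      rk (Set.range (Sum.elim u x)) + m := by
    rw [hrw, ← hN]
    refine le_antisymm (rk_mono ?_) (rk_mono ?_)
    · rw [hwr]
      refine Set.union_subset (Set.union_subset ?_ ?_) ?_
      · exact hur.trans (cl_mono Set.subset_union_left)
      · exact Set.subset_union_left.trans (subset_cl _)
      · rintro _ ⟨j, rfl⟩
        exact subset_cl _ (Or.inr ⟨_, rfl⟩)
    · refine Set.Subset.trans ?_ (subset_cl _)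
      rintro _ (⟨j, rfl⟩ | ⟨j, rfl⟩)
      · exact Or.inl ⟨Sum.inr j, rfl⟩
      · refine Fin.cases ?_ (fun j => Fin.cases ?_ (fun j => ?_) j) j
        · exact Or.inl ⟨Sum.inl (Sum.inr 0), by rw [hu]; rfl⟩
        · exact Or.inl ⟨Sum.inl (Sum.inr 1), by rw [hu]; rfl⟩
        · exact Or.inr ⟨j, rfl⟩
  have hpt := free_many hfin hv hp' (fun j => Complex.exp (p' j.succ.succ))
  refine ⟨p', ?_, fun j => Complex.exp_ne_zero _⟩
  obtain ⟨ρ, hρ⟩ : ∃ ρ : Fin (m + 2) ⊕ Fin (m + 2) → ((Fin 2 ⊕ Fin 2) ⊕ Fin (m + 2)) ⊕ Fin m,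
      ρ = Sum.elim (fun j => Sum.inl (Sum.inr j))
        (Fin.cases (Sum.inl (Sum.inl (Sum.inr 0)))
          (Fin.cases (Sum.inl (Sum.inl (Sum.inr 1))) (fun j => Sum.inr j))) := ⟨_, rfl⟩
  intro f hf
  have e1 : Sum.elim (Sum.elim u x) (fun j : Fin m => y j.succ.succ) ∘ ρ = Sum.elim x y := by
    funext i
    rw [hρ, hu]
    rcases i with j | j
    · rfl
    · refine Fin.cases ?_ (fun j => Fin.cases ?_ (fun j => ?_) j) j
      · rfl
      · rfl
      · rfl
  have e2 : Sum.elim (Sum.elim (Sum.elim z₀ (fun j => Complex.exp (z₀ j))) p')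
      (fun j : Fin m => Complex.exp (p' j.succ.succ)) ∘ ρ =
      Sum.elim p' (fun j => Complex.exp (p' j)) := by
    funext i
    rw [hρ]
    rcases i with j | j
    · rfl
    · refine Fin.cases ?_ (fun j => Fin.cases ?_ (fun j => ?_) j) j
      · show Complex.exp (z₀ 0) = Complex.exp (p' 0)
        rw [hz0]
      · show Complex.exp (z₀ 1) = Complex.exp (p' 1)
        rw [hz1']
      · rfl
  have h2 := hpt (rename ρ f) (by rw [aeval_rename, e1]; exact hf)
  rw [eval_rename, e2] at h2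
  exact h2

end XA
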