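import Pool.Agent.Lib.MP_228259_lc.A.EPN
import Pool.Agent.Lib.MP_228259_lc.A.IND
import Pool.Agent.Lib.MP_228259_lc.A.CLI
import Pool.Agent.Lib.MP_228259_lc.A.PT3
import Pool.Agent.Lib.MP_228259_lc.A.DR

/-!
TB3N: `y_0` and `x_1` algebraic over `ℂ(x_0)`, the other `x_j` independent over it, one equation between the
`y_j` over `ℂ(x)` (any `n = m + 2`). The case `n = 3` is TB3.lean (`t2_b3`): follow its proof.

PROOF. Let `L` be the intermediate field with carrier `cl {x 0}`. Let `w : Fin (m + (m + 1)) → F` be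
`x_2, ..., x_(m+1), y_1, ..., y_(m+1)` (`Fin.append`). `rk {x 0} = 1`;
`rk ({x 0} ∪ range w) = rk (range x ∪ range y) = 2 m + 1` (`x 1, y 0 ∈ cl {x 0}`). `principal_cl`
(`1 + (2 m + 1) = 2 m + 1 + 1`) gives an irreducible `f` over `L` with `aeval w f = 0` dividing all relations.
Write the variables of `f` as `X_j` (for `x_(j+2)`, `j : Fin m`), `Y₁` (for `y_1`) and `Z_j` (for `y_(j+2)`).
*Two exponents.* There are `α, β ∈ f.support` with different exponents of some `Z_j`: otherwise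
`f = Z^κ * g` with `g` in the variables `X_j, Y₁` only, `g ≠ 0`, `aeval w g = 0` as `y_j ≠ 0`; but
`x_2, ..., x_(m+1), y_1` are algebraically independent over `L` (`indep_over`:
`rk ({x 0} ∪ {x_2, ..}) = rk (range x) = m + 1` as `x 1 ∈ cl {x 0}`, and `y 1 ∉ cl (range x)` by `h2`).
*`pt_general`* with `ι = Fin (m+2) ⊕ Fin (m+2)`, `u = Sum.elim x y`, `Yp` = `C x_0, C x_1, X_j` and
`C y_0, Y₁, Z_j`: `U, fB, YB`, `B = adjoin ℂ U`; `sb, Xb, yb ∈ B` the elements of `x_0, x_1, y_0` (constant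
coefficients of the `YB`).
*`li_field`* for `L`, `s = x_0`, `y = y_0`, `X = x_1` (`hs`, `hX` by `h.af`, `hy` by `h.mf`), `ψ` the inclusion,
`Q = Q_α * Q_β`, `Q_α = ∑ γ ∈ f.support with the same X- and Z-exponents as α, C (coeff γ fB) * T ^ (Y₁-exponent of γ)`,
whose coefficient at the `Y₁`-exponent of `α` is `coeff α fB` (the `γ` in the sum have different `Y₁`-exponents); so
`Q ≠ 0`. It gives `σ` with `σ yb = exp (σ sb)` and `Q_α^σ(E) ≠ 0 ≠ Q_β^σ(E)`, `E = exp (σ Xb)`.
*Zero.* Substitute `Y₁ := E` in `map σ fB`: a polynomial `f₁` in `X_j, Z_j` (`MvPolynomial (Fin m ⊕ Fin m) ℂ`) whose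
coefficient at the `(X, Z)`-exponent of `α` is `Q_α^σ(E) ≠ 0`, and the same for `β`; so `exp_poly_zero` gives `ξ` with
`f₁(ξ, exp ξ) = 0`. `pt_general` with `v = (ξ, E, exp ξ)` gives the exponential point
`x ↦ (σ sb, σ Xb, ξ)`, `y ↦ (σ yb, E, exp ξ)`.
-/

set_option autoImplicit false

namespace XA

open MvPolynomial

private def nX {m : ℕ} (j : Fin m) : Fin (m + (m + 1)) := Fin.castAdd (m + 1) j

private def nY {m : ℕ} : Fin (m + (m + 1)) := Fin.natAdd m 0

private def nZ {m : ℕ} (j : Fin m) : Fin (m + (m + 1)) := Fin.natAdd m j.succ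

private theorem n_cases {m : ℕ} {P : Fin (m + (m + 1)) → Prop} (h1 : ∀ j, P (nX j)) (h2 : P nY)
    (h3 : ∀ j, P (nZ j)) (i : Fin (m + (m + 1))) : P i := by
  refine Fin.addCases (fun j => h1 j) (fun j => ?_) i
  exact Fin.cases h2 (fun j => h3 j) j

private theorem n_prod {M : Type*} [CommMonoid M] {m : ℕ} (g : Fin (m + (m + 1)) → M) :
    ∏ i, g i = (∏ j, g (nX j)) * (g nY * ∏ j, g (nZ j)) := by
  rw [Fin.prod_univ_add, Fin.prod_univ_succ]
  rfl

theorem t_b3 {F : Type} [Field F] [Algebra ℂ F] {m : ℕ} {x y : Fin (m + 2) → F} (h : FR0 x y)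
    (hx : rk (Set.range x) = ((m + 1 : ℕ) : ℕ∞))
    (hN : rk (Set.range x ∪ Set.range y) = ((2 * m + 1 : ℕ) : ℕ∞))
    (h2 : ∀ b : Fin (m + 2) → ℤ, mo b y ∈ cl (Set.range x) → ∀ j, j ≠ 0 → b j = 0)
    (hy : y 0 ∈ cl {x 0}) (hx1 : x 1 ∈ cl {x 0}) : HasExp x y := by
  classical
  obtain ⟨L, hL⟩ := cl_field {x 0}
  have hmemL : ∀ a : F, a ∈ L ↔ a ∈ cl {x 0} := fun a => by rw [← hL]; rfl
  -- ranks
  have hx0 : x 0 ∉ cl (∅ : Set F) := by
    intro h0
    obtain ⟨c, hc⟩ := cl_empty h0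
    refine h.af (Pi.single 0 1) ?_ c ?_
    · intro h1
      have h3 := congrFun h1 0
      simp at h3
    · rw [li_single, hc]
  have hrk0 : rk ({x 0} : Set F) = 1 := by
    have h1 := rk_insert_not hx0
    have h3 : rk (∅ : Set F) = 0 := Matroid.eRk_empty _
    rw [h3, zero_add, insert_empty_eq] at h1
    exact h1
  have hx0S : ∀ S : Set F, x 0 ∈ S → cl {x 0} ⊆ cl S := fun S hS =>
    cl_mono (Set.singleton_subset_iff.2 hS)
  -- the relations
  obtain ⟨w, hw⟩ : ∃ w : Fin (m + (m + 1)) → F,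
      w = Fin.append (fun j : Fin m => x j.succ.succ) (fun j : Fin (m + 1) => y j.succ) := ⟨_, rfl⟩
  have hwX : ∀ j, w (nX j) = x j.succ.succ := fun j => by
    rw [hw]; exact Fin.append_left _ _ j
  have hwY : w nY = y 1 := by
    rw [hw]; exact Fin.append_right _ _ 0
  have hwZ : ∀ j, w (nZ j) = y j.succ.succ := fun j => by
    rw [hw]; exact Fin.append_right _ _ j.succ
  have hrkw : rk ({x 0} ∪ Set.range w) = ((2 * m + 1 : ℕ) : ℕ∞) := by
    rw [← hN]
    apply le_antisymm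
    · apply rk_mono
      rintro _ (rfl | ⟨j, rfl⟩)
      · exact subset_cl _ (Or.inl ⟨0, rfl⟩)
      · refine n_cases (P := fun j => w j ∈ cl (Set.range x ∪ Set.range y)) ?_ ?_ ?_ j
        · intro j
          rw [hwX]
          exact subset_cl _ (Or.inl ⟨_, rfl⟩)
        · rw [hwY]
          exact subset_cl _ (Or.inr ⟨_, rfl⟩)
        · intro j
          rw [hwZ]
          exact subset_cl _ (Or.inr ⟨_, rfl⟩)
    · apply rk_mono
      rintro _ (⟨j, rfl⟩ | ⟨j, rfl⟩)
      · refine Fin.cases ?_ (fun j => Fin.cases ?_ (fun j => ?_) j) j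
        · exact subset_cl _ (Or.inl rfl)
        · exact hx0S _ (Or.inl rfl) hx1
        · exact subset_cl _ (Or.inr ⟨nX j, hwX j⟩)
      · refine Fin.cases ?_ (fun j => Fin.cases ?_ (fun j => ?_) j) j
        · exact hx0S _ (Or.inl rfl) hy
        · exact subset_cl _ (Or.inr ⟨nY, hwY⟩)
        · exact subset_cl _ (Or.inr ⟨nZ j, hwZ j⟩)
  have hS1 : rk ({x 0} : Set F) ≠ ⊤ := by
    rw [hrk0]
    simp
  obtain ⟨f, hfirr, hfw, hfdiv⟩ := principal_cl (m := m + (m + 1)) (w := w) hS1 hL (by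
    rw [hrkw, hrk0]
    have h3 : 2 * m + 1 + 1 = 1 + (m + (m + 1)) := by omega
    exact_mod_cast h3)
  have hf0 : f ≠ 0 := hfirr.ne_zero
  -- independence over `L`
  have hy1 : y 1 ∉ cl (Set.range x) := by
    intro h1
    have h3 := h2 (Pi.single 1 1) (by rw [mo_single]; exact h1) 1 (by
      intro h4
      have h5 := congrArg Fin.val h4
      simp at h5)
    simp at h3
  obtain ⟨v₁, hv₁⟩ : ∃ v₁ : Fin m ⊕ Unit → F,
      v₁ = Sum.elim (fun j => x j.succ.succ) (fun _ => y 1) := ⟨_, rfl⟩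
  have hvl : ∀ j, v₁ (Sum.inl j) = x j.succ.succ := fun j => by rw [hv₁]; rfl
  have hvr : ∀ j, v₁ (Sum.inr j) = y 1 := fun j => by rw [hv₁]; rfl
  have hind : AlgebraicIndependent L v₁ := by
    rw [indep_over hS1 hL, hrk0]
    have h1 := rk_insert_not hy1
    rw [hx] at h1
    have h3 : rk ({x 0} ∪ Set.range v₁) = rk (insert (y 1) (Set.range x)) := by
      apply le_antisymm
      · apply rk_mono
        rintro _ (rfl | ⟨j | j, rfl⟩)
        · exact subset_cl _ (Or.inr ⟨0, rfl⟩)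
        · rw [hvl]
          exact subset_cl _ (Or.inr ⟨_, rfl⟩)
        · rw [hvr]
          exact subset_cl _ (Or.inl rfl)
      · apply rk_mono
        rintro _ (rfl | ⟨j, rfl⟩)
        · exact subset_cl _ (Or.inr ⟨Sum.inr (), hvr _⟩)
        · refine Fin.cases ?_ (fun j => Fin.cases ?_ (fun j => ?_) j) j
          · exact subset_cl _ (Or.inl rfl)
          · exact hx0S _ (Or.inl rfl) hx1
          · exact subset_cl _ (Or.inr ⟨Sum.inl j, hvl j⟩)
    rw [h3, h1, Fintype.card_sum, Fintype.card_fin, Fintype.card_unit]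
    have h4 : m + 1 + 1 = 1 + (m + 1) := by omega
    exact_mod_cast h4
  -- two exponents
  have hsep : ∀ γ δ : Fin (m + (m + 1)) →₀ ℕ, (∀ j, γ (nX j) = δ (nX j)) → γ nY = δ nY →
      (∀ j, γ (nZ j) = δ (nZ j)) → γ = δ := by
    intro γ δ h0 h1 h3
    ext i
    exact n_cases (P := fun i => γ i = δ i) h0 h1 h3 i
  have htwo : ∃ α ∈ f.support, ∃ β ∈ f.support, ∃ j, α (nZ j) ≠ β (nZ j) := by
    by_contra hcon
    push Not at hcon
    obtain ⟨α, hα⟩ := Finset.nonempty_iff_ne_empty.2 (mt MvPolynomial.support_eq_empty.1 hf0)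
    set e : (Fin (m + (m + 1)) →₀ ℕ) → (Fin m ⊕ Unit →₀ ℕ) := fun γ =>
      Finsupp.equivFunOnFinite.symm (Sum.elim (fun j => γ (nX j)) (fun _ => γ nY)) with he
    have he0 : ∀ γ j, e γ (Sum.inl j) = γ (nX j) := fun γ j => rfl
    have he1 : ∀ γ j, e γ (Sum.inr j) = γ nY := fun γ j => rfl
    set g : MvPolynomial (Fin m ⊕ Unit) L := ∑ γ ∈ f.support, monomial (e γ) (coeff γ f) with hg
    have hfeval : aeval w f = (∏ j, y j.succ.succ ^ α (nZ j)) * aeval v₁ g := by
      rw [MvPolynomial.aeval_def, MvPolynomial.eval₂_eq', hg, map_sum, Finset.mul_sum]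
      refine Finset.sum_congr rfl fun γ hγ => ?_
      rw [n_prod, MvPolynomial.aeval_monomial, Finsupp.prod_fintype _ _
        (fun i => pow_zero _), Fintype.prod_sum_type]
      simp only [hwX, hwY, hwZ, hvl, hvr, he0, he1, Finset.univ_unique, Finset.prod_singleton]
      have h5 : ∏ j : Fin m, y j.succ.succ ^ γ (nZ j) = ∏ j : Fin m, y j.succ.succ ^ α (nZ j) :=
        Finset.prod_congr rfl fun j _ => by rw [hcon γ hγ α hα j]
      rw [h5]
      ring
    have hg0 : g = 0 := by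
      apply hind.eq_zero_of_aeval_eq_zero
      rw [hfw] at hfeval
      rcases mul_eq_zero.1 hfeval.symm with h1 | h1
      · exact absurd h1 (Finset.prod_ne_zero_iff.2 fun j _ => pow_ne_zero _ (h.nz _))
      · exact h1
    have hc : coeff (e α) g = coeff α f := by
      rw [hg, MvPolynomial.coeff_sum, Finset.sum_eq_single α]
      · rw [MvPolynomial.coeff_monomial, if_pos rfl]
      · intro γ hγ hne
        rw [MvPolynomial.coeff_monomial, if_neg]
        intro h1
        apply hne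
        refine hsep γ α (fun j => ?_) ?_ (fun j => hcon γ hγ α hα j)
        · rw [← he0, h1, he0]
        · rw [← he1 γ (), h1, he1]
      · intro h1
        exact absurd hα h1
    rw [hg0, MvPolynomial.coeff_zero] at hc
    exact (MvPolynomial.mem_support_iff.1 hα) hc.symm
  obtain ⟨α, hα, β, hβ, j₀, hαβ⟩ := htwo
  -- the elements of `L`
  set x0 : L := ⟨x 0, (hmemL _).2 (subset_cl _ rfl)⟩ with hx0d
  set x1 : L := ⟨x 1, (hmemL _).2 hx1⟩ with hx1d
  set y0 : L := ⟨y 0, (hmemL _).2 hy⟩ with hy0d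
  obtain ⟨YX, hYXd⟩ : ∃ YX : Fin (m + 2) → MvPolynomial (Fin (m + (m + 1))) L,
      YX = Fin.cases (C x0) (Fin.cases (C x1) (fun j => X (nX j))) := ⟨_, rfl⟩
  obtain ⟨YY, hYYd⟩ : ∃ YY : Fin (m + 2) → MvPolynomial (Fin (m + (m + 1))) L,
      YY = Fin.cases (C y0) (Fin.cases (X nY) (fun j => X (nZ j))) := ⟨_, rfl⟩
  have hX0 : YX 0 = C x0 := by rw [hYXd]; rfl
  have hX1 : YX 1 = C x1 := by rw [hYXd]; rfl
  have hX2 : ∀ j : Fin m, YX j.succ.succ = X (nX j) := fun j => by rw [hYXd]; rfl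
  have hYy0 : YY 0 = C y0 := by rw [hYYd]; rfl
  have hYy1 : YY 1 = X nY := by rw [hYYd]; rfl
  have hYy2 : ∀ j : Fin m, YY j.succ.succ = X (nZ j) := fun j => by rw [hYYd]; rfl
  obtain ⟨U, fB, YB, hU, hfB, hYB, hpt⟩ := pt_general (u := Sum.elim x y) (w := w) (f := f) hfdiv
    (Yp := Sum.elim YX YY) (by
      rintro (j | j)
      · show aeval w (YX j) = x j
        refine Fin.cases ?_ (fun j => Fin.cases ?_ (fun j => ?_) j) j
        · rw [hX0]; exact MvPolynomial.aeval_C w x0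
        · show aeval w (YX 1) = x 1
          rw [hX1]; exact MvPolynomial.aeval_C w x1
        · rw [hX2, MvPolynomial.aeval_X, hwX]
      · show aeval w (YY j) = y j
        refine Fin.cases ?_ (fun j => Fin.cases ?_ (fun j => ?_) j) j
        · rw [hYy0]; exact MvPolynomial.aeval_C w y0
        · show aeval w (YY 1) = y 1
          rw [hYy1, MvPolynomial.aeval_X, hwY]
        · rw [hYy2, MvPolynomial.aeval_X, hwZ])
  have : Algebra.FiniteType ℂ (Algebra.adjoin ℂ U) := Algebra.FiniteType.adjoin_of_finite hU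
  have hinj : Function.Injective
      (map (σ := Fin (m + (m + 1))) (algebraMap (Algebra.adjoin ℂ U) L)) :=
    map_injective _ Subtype.val_injective
  have hYC : ∀ (i : Fin (m + 2) ⊕ Fin (m + 2)) (a : L),
      map (algebraMap (Algebra.adjoin ℂ U) L) (YB i) = C a →
      YB i = C (coeff 0 (YB i)) ∧ algebraMap (Algebra.adjoin ℂ U) L (coeff 0 (YB i)) = a := by
    intro i a hi
    have h1 : algebraMap (Algebra.adjoin ℂ U) L (coeff 0 (YB i)) = a := by
      rw [← MvPolynomial.coeff_map, hi, MvPolynomial.coeff_zero_C]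
    refine ⟨hinj ?_, h1⟩
    rw [hi, MvPolynomial.map_C, h1]
  have hYX : ∀ (i : Fin (m + 2) ⊕ Fin (m + 2)) (j : Fin (m + (m + 1))),
      map (algebraMap (Algebra.adjoin ℂ U) L) (YB i) = X j → YB i = X j := by
    intro i j hi
    apply hinj
    rw [hi, MvPolynomial.map_X]
  obtain ⟨hY0, hsb⟩ := hYC (Sum.inl 0) x0 ((hYB _).trans hX0)
  obtain ⟨hY1, hXb⟩ := hYC (Sum.inl 1) x1 ((hYB _).trans hX1)
  have hY2 : ∀ j : Fin m, YB (Sum.inl j.succ.succ) = X (nX j) := fun j =>
    hYX (Sum.inl j.succ.succ) (nX j) ((hYB _).trans (hX2 j))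
  obtain ⟨hY3, hyb⟩ := hYC (Sum.inr 0) y0 ((hYB _).trans hYy0)
  have hY4 := hYX (Sum.inr 1) nY ((hYB _).trans hYy1)
  have hY5 : ∀ j : Fin m, YB (Sum.inr j.succ.succ) = X (nZ j) := fun j =>
    hYX (Sum.inr j.succ.succ) (nZ j) ((hYB _).trans (hYy2 j))
  set sb := coeff 0 (YB (Sum.inl 0)) with hsbd
  set Xb := coeff 0 (YB (Sum.inl 1)) with hXbd
  set yb := coeff 0 (YB (Sum.inr 0)) with hybd
  -- the polynomials `Q`
  have hsupp : ∀ γ, γ ∈ f.support → coeff γ fB ≠ 0 := by
    intro γ hγ h0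
    apply MvPolynomial.mem_support_iff.1 hγ
    rw [← hfB, MvPolynomial.coeff_map, h0, map_zero]
  have hsuppB : ∀ γ, γ ∈ f.support → γ ∈ fB.support := fun γ hγ =>
    MvPolynomial.mem_support_iff.2 (hsupp γ hγ)
  set Qf : (Fin (m + (m + 1)) →₀ ℕ) → Polynomial (Algebra.adjoin ℂ U) := fun α =>
    ∑ γ ∈ fB.support.filter (fun γ => (∀ j, γ (nX j) = α (nX j)) ∧ ∀ j, γ (nZ j) = α (nZ j)),
      Polynomial.C (coeff γ fB) * Polynomial.X ^ γ nY with hQf
  have hQf0 : ∀ α, α ∈ f.support → Qf α ≠ 0 := by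
    intro α hα h0
    have h1 : (Qf α).coeff (α nY) = coeff α fB := by
      rw [hQf]
      simp only [Polynomial.finsetSum_coeff, Polynomial.coeff_C_mul, Polynomial.coeff_X_pow,
        mul_ite, mul_one, mul_zero]
      rw [Finset.sum_eq_single α]
      · rw [if_pos rfl]
      · intro γ hγ hne
        rw [if_neg]
        intro h3
        apply hne
        rw [Finset.mem_filter] at hγ
        exact hsep γ α hγ.2.1 h3.symm hγ.2.2
      · intro h3
        exact absurd (Finset.mem_filter.2 ⟨hsuppB α hα, fun _ => rfl, fun _ => rfl⟩) h3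
    rw [h0, Polynomial.coeff_zero] at h1
    exact hsupp α hα h1.symm
  have hQ0 : Qf α * Qf β ≠ 0 := mul_ne_zero (hQf0 α hα) (hQf0 β hβ)
  obtain ⟨σ, hσ1, hσ2⟩ := li_field (K := L) (s := x0) (y := y0) (X := x1) (by
      intro k hk
      refine h.af (Pi.single 0 1) ?_ k ?_
      · intro h1
        have h3 := congrFun h1 0
        simp at h3
      · rw [li_single]
        exact congrArg (algebraMap L F) hk) (by
      intro a
      rw [← cl_map L.val]
      have h1 : (L.val : L →ₐ[ℂ] F) '' {x0} = {x 0} := by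
        rw [Set.image_singleton]
        rfl
      rw [h1]
      exact (hmemL _).1 a.2) (by
      intro k hk
      refine h.mf (Pi.single 0 1) ?_ k ?_
      · intro h1
        have h3 := congrFun h1 0
        simp at h3
      · rw [mo_single]
        exact congrArg (algebraMap L F) hk) (by
      intro m₁ m₂ hm k hk
      refine h.af (Fin.cases m₁ (Fin.cases m₂ (fun _ => 0))) ?_ k ?_
      · intro h1
        rcases hm with h3 | h3
        · exact h3 (congrFun h1 0)
        · exact h3 (congrFun h1 1)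
      · have h1 := congrArg (algebraMap L F) hk
        rw [map_add, map_mul, map_mul, map_intCast, map_intCast] at h1
        unfold li
        rw [Fin.sum_univ_succ, Fin.sum_univ_succ]
        have h4 : ∀ j : Fin m, ((Fin.cases m₁ (Fin.cases m₂ (fun _ => 0)) :
            Fin (m + 2) → ℤ) j.succ.succ : F) * x j.succ.succ = 0 := by
          intro j
          show ((0 : ℤ) : F) * x j.succ.succ = 0
          rw [Int.cast_zero, zero_mul]
        rw [Finset.sum_congr rfl (fun j _ => h4 j), Finset.sum_const_zero, add_zero]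
        exact h1)
    (Algebra.adjoin ℂ U) (Algebra.adjoin ℂ U).val (sb := sb) (yb := yb) (Xb := Xb) hsb hyb hXb
    (Qf α * Qf β) (by
      by_contra hcon
      push Not at hcon
      apply hQ0
      ext1 i
      have h1 := hcon i
      rw [Polynomial.coeff_zero]
      exact Subtype.val_injective h1)
  set E : ℂ := Complex.exp (σ Xb) with hE
  rw [Polynomial.map_mul, Polynomial.eval_mul] at hσ2
  obtain ⟨Fp, hFp⟩ : ∃ Fp : MvPolynomial (Fin (m + (m + 1))) ℂ,
      Fp = map (σ : Algebra.adjoin ℂ U →+* ℂ) fB := ⟨_, rfl⟩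
  have hQe : ∀ α, ((Qf α).map (σ : Algebra.adjoin ℂ U →+* ℂ)).eval E ≠ 0 →
      ∑ γ ∈ Fp.support.filter
        (fun γ => (∀ j, γ (nX j) = α (nX j)) ∧ ∀ j, γ (nZ j) = α (nZ j)),
        coeff γ Fp * E ^ γ nY ≠ 0 := by
    intro α hα
    have h1 : ((Qf α).map (σ : Algebra.adjoin ℂ U →+* ℂ)).eval E =
        ∑ γ ∈ fB.support.filter
          (fun γ => (∀ j, γ (nX j) = α (nX j)) ∧ ∀ j, γ (nZ j) = α (nZ j)),
          coeff γ Fp * E ^ γ nY := by
      rw [hQf, hFp]
      simp only [Polynomial.map_sum, Polynomial.map_mul, Polynomial.map_C, Polynomial.map_pow,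
        Polynomial.map_X, Polynomial.eval_finsetSum, Polynomial.eval_mul, Polynomial.eval_C,
        Polynomial.eval_pow, Polynomial.eval_X, MvPolynomial.coeff_map]
    rw [h1] at hα
    intro h3
    apply hα
    rw [← h3]
    symm
    apply Finset.sum_subset
    · intro γ hγ
      rw [Finset.mem_filter] at hγ ⊢
      rw [hFp] at hγ
      exact ⟨MvPolynomial.support_map_subset _ _ hγ.1, hγ.2⟩
    · intro γ hγ hγ'
      rw [Finset.mem_filter] at hγ
      have h4 : coeff γ Fp = 0 := by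
        by_contra h5
        exact hγ' (Finset.mem_filter.2 ⟨MvPolynomial.mem_support_iff.2 h5, hγ.2⟩)
      rw [h4, zero_mul]
  -- the zero
  set d : (Fin (m + (m + 1)) →₀ ℕ) → (Fin m ⊕ Fin m →₀ ℕ) := fun γ =>
    Finsupp.equivFunOnFinite.symm (Sum.elim (fun j => γ (nX j)) (fun j => γ (nZ j))) with hd
  have hd0 : ∀ γ j, d γ (Sum.inl j) = γ (nX j) := fun γ j => rfl
  have hd1 : ∀ γ j, d γ (Sum.inr j) = γ (nZ j) := fun γ j => rfl
  obtain ⟨f₁, hf₁⟩ : ∃ f₁ : MvPolynomial (Fin m ⊕ Fin m) ℂ,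
      f₁ = ∑ γ ∈ Fp.support, monomial (d γ) (coeff γ Fp * E ^ γ nY) := ⟨_, rfl⟩
  have hf₁c : ∀ α, ((Qf α).map (σ : Algebra.adjoin ℂ U →+* ℂ)).eval E ≠ 0 →
      d α ∈ f₁.support := by
    intro α hα
    rw [MvPolynomial.mem_support_iff]
    have h1 : coeff (d α) f₁ = ∑ γ ∈ Fp.support.filter
        (fun γ => (∀ j, γ (nX j) = α (nX j)) ∧ ∀ j, γ (nZ j) = α (nZ j)),
        coeff γ Fp * E ^ γ nY := by
      rw [hf₁, MvPolynomial.coeff_sum, Finset.sum_filter]
      refine Finset.sum_congr rfl fun γ _ => ?_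
      rw [MvPolynomial.coeff_monomial]
      by_cases h3 : (∀ j, γ (nX j) = α (nX j)) ∧ ∀ j, γ (nZ j) = α (nZ j)
      · rw [if_pos h3, if_pos]
        ext i
        rcases i with j | j
        · rw [hd0, hd0, h3.1]
        · rw [hd1, hd1, h3.2]
      · rw [if_neg h3, if_neg]
        intro h4
        apply h3
        refine ⟨fun j => ?_, fun j => ?_⟩
        · rw [← hd0, h4, hd0]
        · rw [← hd1, h4, hd1]
    rw [h1]
    exact hQe α hα
  obtain ⟨ξ, hξ⟩ := exp_poly_zero f₁ ⟨d α, hf₁c α (left_ne_zero_of_mul hσ2), d β,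
    hf₁c β (right_ne_zero_of_mul hσ2), j₀, by rw [hd1, hd1]; exact hαβ⟩
  obtain ⟨v, hv⟩ : ∃ v : Fin (m + (m + 1)) → ℂ,
      v = Fin.append ξ (Fin.cases E (fun j => Complex.exp (ξ j))) := ⟨_, rfl⟩
  have hvX : ∀ j, v (nX j) = ξ j := fun j => by
    rw [hv]; exact Fin.append_left _ _ j
  have hvY : v nY = E := by
    rw [hv]; exact Fin.append_right _ _ 0
  have hvZ : ∀ j, v (nZ j) = Complex.exp (ξ j) := fun j => by
    rw [hv]; exact Fin.append_right _ _ j.succ
  have hev : eval v Fp = 0 := by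
    rw [← hξ, hf₁, map_sum, MvPolynomial.eval_eq']
    refine Finset.sum_congr rfl fun γ _ => ?_
    rw [n_prod, MvPolynomial.eval_monomial, Finsupp.prod_fintype _ _ (fun i => pow_zero _),
      Fintype.prod_sum_type]
    simp only [hvX, hvY, hvZ, hd0, hd1, Sum.elim_inl, Sum.elim_inr]
    ring
  rw [hFp] at hev
  have hfin := hpt σ v hev
  obtain ⟨z, hz⟩ : ∃ z : Fin (m + 2) → ℂ, z = Fin.cases (σ sb) (Fin.cases (σ Xb) ξ) := ⟨_, rfl⟩
  have hz0 : z 0 = σ sb := by rw [hz]; rfl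
  have hz1 : z 1 = σ Xb := by rw [hz]; rfl
  have hz2 : ∀ j : Fin m, z j.succ.succ = ξ j := fun j => by rw [hz]; rfl
  have hfun : (fun j => eval v (map (σ : Algebra.adjoin ℂ U →+* ℂ) (YB j))) =
      Sum.elim z (fun j => Complex.exp (z j)) := by
    funext i
    rcases i with j | j
    · change eval v (map (σ : Algebra.adjoin ℂ U →+* ℂ) (YB (Sum.inl j))) = z j
      refine Fin.cases ?_ (fun j => Fin.cases ?_ (fun j => ?_) j) j
      · rw [hY0, MvPolynomial.map_C, MvPolynomial.eval_C, hz0]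
        rfl
      · change eval v (map (σ : Algebra.adjoin ℂ U →+* ℂ) (YB (Sum.inl 1))) = z 1
        rw [hY1, MvPolynomial.map_C, MvPolynomial.eval_C, hz1]
        rfl
      · rw [hY2, MvPolynomial.map_X, MvPolynomial.eval_X, hvX, hz2]
    · change eval v (map (σ : Algebra.adjoin ℂ U →+* ℂ) (YB (Sum.inr j))) = Complex.exp (z j)
      refine Fin.cases ?_ (fun j => Fin.cases ?_ (fun j => ?_) j) j
      · rw [hY3, MvPolynomial.map_C, MvPolynomial.eval_C, hz0, ← hσ1]
        rfl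
      · change eval v (map (σ : Algebra.adjoin ℂ U →+* ℂ) (YB (Sum.inr 1))) = Complex.exp (z 1)
        rw [hY4, MvPolynomial.map_X, MvPolynomial.eval_X, hvY, hz1]
      · rw [hY5, MvPolynomial.map_X, MvPolynomial.eval_X, hvZ, hz2]
  rw [hfun] at hfin
  exact ⟨z, hfin, fun j => Complex.exp_ne_zero _⟩

end XA
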