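import Pool.Agent.Lib.MP_228259_lc.A.SPB
import Pool.Agent.Lib.MP_228259_lc.A.IF
import Pool.Agent.Lib.MP_228259_lc.A.CLI
import Pool.Agent.Lib.MP_228259_lc.A.IND
import Pool.Agent.Lib.MP_228259_lc.A.PTE
import Pool.Agent.Lib.MP_228259_lc.A.DR

/-!
TBGN: `rk (range x) = 2`, `y_0` algebraic over `ℂ(x_0)`, no linear form in `x_1, x_2, ...` algebraic over
`ℂ(x_0)` (any `n = m + 1`). The case `n = 3` is TBG.lean (`t2_bgen`): follow its proof.

PROOF. Let `L` be the intermediate field with carrier `cl (range x)`. `principal_cl` (`S = range x`,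
`w i = y (Fin.succ i) : Fin m → F`, `rk (range x ∪ range w) = rk (range x ∪ range y) = m + 1`,
`rk (range x) = 2`) gives `f` over `L`. `f.support` has two different elements `α₀ ≠ β₀` (otherwise `f` is a monomial and
`aeval w f ≠ 0`, as `w j ≠ 0`). Let `t = ∑ (α₀ i - β₀ i) x_(i+1)`; `t ∉ cl {x 0}` (`hq` for `q = (0, α₀ - β₀)`), so
`rk {x 0, t} = 2` and `cl {x 0, t} = cl (range x)`. `exp_of_sigma` with `e = Fin.succ` gives `U, xB, yB, cB`.
`P α = ∑ i, α i • xB (Fin.succ i)`. `lt_field` gives `K, e`. `spec_curve` for the field `L`, `s = ⟨x 0, _⟩`,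
`t`, `y = ⟨y 0, _⟩`, `sB = xB 0`, `yB = yB 0`, `tB = P α₀ - P β₀`, `Z = {cB α | α ∈ f.support}`,
`W = {P α - P β | α ≠ β in f.support}`. `exp_points` (in `L`) gives infinitely many `b` with
`IsPt ![s, y] ![b, exp b]`; take one outside the exceptional set; get `ψ` with `ψ (xB 0) = b`, `ψ (yB 0) = exp b`,
`ψ (P α₀ - P β₀) = e`. Apply the property of `K` to the subalgebra `R = ψ.range`, `c α = ψ.rangeRestrict (cB α)`,
`P' α = ψ.rangeRestrict (P α)`; `e = ψ (P α₀) - ψ (P β₀)` is in the span. `σ = σ'.comp ψ.rangeRestrict`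
satisfies the hypotheses of `exp_of_sigma`.
-/

set_option autoImplicit false

namespace XA

open MvPolynomial

/-- a polynomial which vanishes at a family of nonzero elements has two exponents -/
private theorem TBGN_two {F : Type*} [Field F] [Algebra ℂ F] {L : IntermediateField ℂ F} {m : ℕ}
    {w : Fin m → F} (hw : ∀ i, w i ≠ 0) {f : MvPolynomial (Fin m) L} (hf : f ≠ 0)
    (h : aeval w f = 0) : ∃ α ∈ f.support, ∃ β ∈ f.support, α ≠ β := by
  by_contra hcon
  push Not at hcon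
  obtain ⟨α, hα⟩ : f.support.Nonempty := by
    rw [MvPolynomial.support_nonempty]
    exact hf
  have h1 : f.support = {α} := by
    ext β
    rw [Finset.mem_singleton]
    constructor
    · intro hβ
      exact (hcon α hα β hβ).symm
    · rintro rfl
      exact hα
  have h2 : f = monomial α (coeff α f) := by
    conv_lhs => rw [f.as_sum]
    rw [h1, Finset.sum_singleton]
  rw [h2, aeval_monomial] at h
  have h3 : coeff α f ≠ 0 := MvPolynomial.mem_support_iff.1 hα
  have h4 : algebraMap L F (coeff α f) ≠ 0 := by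
    intro hc
    exact h3 ((map_eq_zero _).1 hc)
  have h5 : (α.prod fun i k => w i ^ k) ≠ 0 := by
    rw [Finsupp.prod]
    exact Finset.prod_ne_zero_iff.2 fun i _ => pow_ne_zero _ (hw i)
  exact mul_ne_zero h4 h5 h

theorem t_bgen {F : Type} [Field F] [Algebra ℂ F] {m : ℕ} {x y : Fin (m + 1) → F} (h : FR0 x y)
    (hx : rk (Set.range x) = 2)
    (hN : rk (Set.range x ∪ Set.range y) = ((m + 1 : ℕ) : ℕ∞)) (hy : y 0 ∈ cl {x 0})
    (hq : ∀ q : Fin (m + 1) → ℤ, q 0 = 0 → q ≠ 0 → li q x ∉ cl {x 0}) : HasExp x y := by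
  classical
  have h0 : ∀ k : ℂ, x 0 ≠ algebraMap ℂ F k := by
    intro k hk
    refine h.af (Pi.single 0 1) ?_ k ?_
    · intro hc
      have := congrFun hc 0
      simp at this
    · rw [li_single]
      exact hk
  have hx0 : x 0 ∉ cl (∅ : Set F) := by
    intro hc
    obtain ⟨c, hc⟩ := cl_empty hc
    exact h0 c hc
  have he0 : rk (∅ : Set F) = 0 := by
    unfold rk
    exact Matroid.eRk_empty _
  have h1 : rk ({x 0} : Set F) = 1 := by
    have := rk_insert_not hx0
    rwa [insert_empty_eq, he0, zero_add] at this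
  have hy0cl : y 0 ∈ cl (Set.range x) :=
    cl_mono (by rintro _ rfl; exact ⟨0, rfl⟩) hy
  obtain ⟨L, hL⟩ := cl_field (Set.range x)
  -- the principal ideal
  have hrw : rk (Set.range x ∪ Set.range (fun i : Fin m => y (Fin.succ i))) =
      ((m + 1 : ℕ) : ℕ∞) := by
    rw [← hN]
    refine le_antisymm (rk_mono ?_) (rk_mono ?_)
    · refine (Set.union_subset_union_right _ ?_).trans (subset_cl _)
      rintro _ ⟨i, rfl⟩
      exact ⟨_, rfl⟩
    · refine Set.union_subset (Set.subset_union_left.trans (subset_cl _)) ?_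
      rintro _ ⟨j, rfl⟩
      refine Fin.cases ?_ (fun i => ?_) j
      · exact cl_mono Set.subset_union_left hy0cl
      · exact subset_cl _ (Or.inr ⟨i, rfl⟩)
  have hxtop : rk (Set.range x) ≠ ⊤ := by
    rw [hx]
    exact ENat.ofNat_ne_top 2
  obtain ⟨f, hirr, hf0, hf⟩ := principal_cl hxtop hL (m := m)
    (w := fun i : Fin m => y (Fin.succ i)) (by
      rw [hrw, hx]
      push_cast
      ring)
  obtain ⟨α₀, hα₀, β₀, hβ₀, hne₀⟩ := TBGN_two (fun i => h.nz _) hirr.ne_zero hf0
  -- linear forms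
  have hdiff : ∀ α β : Fin m →₀ ℕ, α ≠ β →
      ∑ i, ((α i : F) - (β i : F)) * x (Fin.succ i) ∉ cl {x 0} := by
    intro α β hne
    have h2 := hq (Fin.cons 0 fun i => (α i : ℤ) - (β i : ℤ)) (by simp) (by
      intro hc
      apply hne
      ext i
      have h3 := congrFun hc (Fin.succ i)
      rw [Fin.cons_succ, Pi.zero_apply] at h3
      omega)
    have h3 : li (Fin.cons 0 fun i => (α i : ℤ) - (β i : ℤ)) x =
        ∑ i, ((α i : F) - (β i : F)) * x (Fin.succ i) := by
      unfold li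
      rw [Fin.sum_univ_succ]
      simp only [Fin.cons_zero, Fin.cons_succ]
      push_cast
      ring
    rwa [h3] at h2
  have hxL : ∀ j, x j ∈ L := fun j => by
    have : x j ∈ (L : Set F) := by
      rw [hL]
      exact subset_cl _ ⟨j, rfl⟩
    exact this
  have hy0L : y 0 ∈ L := by
    have : y 0 ∈ (L : Set F) := by
      rw [hL]
      exact hy0cl
    exact this
  have hj0 : ∀ j : Fin (m + 1), j ∉ Set.range (Fin.succ : Fin m → Fin (m + 1)) → j = 0 := by
    intro j hj
    refine Fin.cases (fun _ => rfl) (fun i hi => absurd ⟨i, rfl⟩ hi) j hj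
  have h0r : (0 : Fin (m + 1)) ∉ Set.range (Fin.succ : Fin m → Fin (m + 1)) := by
    rintro ⟨i, hi⟩
    exact Fin.succ_ne_zero i hi
  obtain ⟨U, xB, yB, cB, hUf, hxB, hyB, hcB, hσ⟩ := exp_of_sigma
    (Fin.succ : Fin m → Fin (m + 1)) L hxL
    (fun j hj => by rw [hj0 j hj]; exact hy0L) hf
  obtain ⟨K, _, _, e, _, he, hK⟩ := lt_field
  set P : (Fin m →₀ ℕ) → Algebra.adjoin ℂ U := fun α => ∑ i, α i • xB (Fin.succ i)
    with hP
  have hPF : ∀ α β, (((P α - P β : Algebra.adjoin ℂ U) : L) : F) =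
      ∑ i, ((α i : F) - (β i : F)) * x (Fin.succ i) := by
    intro α β
    rw [hP]
    push_cast
    rw [← Finset.sum_sub_distrib]
    refine Finset.sum_congr rfl fun i _ => ?_
    rw [nsmul_eq_mul, nsmul_eq_mul, hxB]
    ring
  set s : L := ⟨x 0, hxL 0⟩ with hs_def
  set t : L := ((P α₀ - P β₀ : Algebra.adjoin ℂ U) : L) with ht_def
  set y' : L := ⟨y 0, hy0L⟩ with hy_def
  have hmap : ∀ (S : Set L) (a : L), (a : F) ∈ cl ((fun z : L => (z : F)) '' S) ↔ a ∈ cl S :=
    fun S a => cl_map L.val S a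
  have hs1 : ∀ k : ℂ, s ≠ algebraMap ℂ L k := by
    intro k hk
    exact h0 k (congrArg (fun z : L => (z : F)) hk)
  have hims : (fun z : L => (z : F)) '' {s} = {x 0} := by
    rw [Set.image_singleton]
  have htF : (t : F) ∉ cl {x 0} := by
    rw [ht_def, hPF]
    exact hdiff α₀ β₀ hne₀
  have ht1 : t ∉ cl {s} := by
    rw [← hmap, hims]
    exact htF
  have hy1 : y' ∈ cl {s} := by
    rw [← hmap, hims]
    exact hy
  have htL : (t : F) ∈ cl (Set.range x) := by
    rw [← hL]
    exact t.2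
  have hcl : cl (Set.range x) ⊆ cl {x 0, (t : F)} := by
    refine subset_cl_of_rk ?_ ?_ ?_
    · intro a ha
      rcases ha with rfl | rfl
      · exact subset_cl _ ⟨_, rfl⟩
      · exact htL
    · rw [rk_cl]
      exact hxtop
    · rw [rk_cl, hx, Set.pair_comm, rk_insert_not htF, h1]
      norm_num
  have halg : ∀ a : L, a ∈ cl {s, t} := by
    intro a
    rw [← hmap, Set.image_pair]
    apply hcl
    rw [← hL]
    exact a.2
  obtain ⟨E, hE, hEψ⟩ := spec_curve hs1 ht1 hy1 halg hUf (sB := xB 0)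
    (tB := P α₀ - P β₀) (yB := yB 0) (Subtype.ext (hxB 0))
    rfl (Subtype.ext (hyB 0 h0r))
    ((f.support.offDiag).image fun p => P p.1 - P p.2) (f.support.image cB)
    (by
      intro w hw
      rw [Finset.mem_image] at hw
      obtain ⟨⟨α, β⟩, hp, rfl⟩ := hw
      rw [Finset.mem_offDiag] at hp
      obtain ⟨hα, hβ, hne⟩ := hp
      rw [← hmap, hims, hPF]
      exact hdiff α β hne)
    (by
      intro w hw
      rw [Finset.mem_image] at hw
      obtain ⟨α, hα, rfl⟩ := hw
      rw [hcB]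
      exact MvPolynomial.mem_support_iff.1 hα) he
  obtain ⟨b, hb, hbE⟩ := (exp_points hs1 hy1 (fun hc => h.nz 0
    (congrArg (fun z : L => (z : F)) hc))).exists_notMem_finite hE
  obtain ⟨ψ, hψ1, hψ2, hψ3, hψ4, hψ5⟩ := hEψ b (Complex.exp b) hbE hb
  have hft : Algebra.FiniteType ℂ (Algebra.adjoin ℂ U) := by
    rw [← Subalgebra.fg_iff_finiteType]
    exact ⟨hUf.toFinset, by rw [hUf.coe_toFinset]⟩
  have hftR : Algebra.FiniteType ℂ ψ.range :=
    Algebra.FiniteType.of_surjective ψ.rangeRestrict ψ.rangeRestrict_surjective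
  obtain ⟨σ', hσ'⟩ := hK ψ.range ψ.range.val (Fin m →₀ ℕ) f.support
    (fun α => ψ.rangeRestrict (cB α)) (fun α => ψ.rangeRestrict (P α))
    (fun α hα => hψ4 _ (Finset.mem_image_of_mem _ hα))
    (by
      intro α hα β hβ hne k hk
      refine hψ5 (P α - P β) (Finset.mem_image.2 ⟨(α, β), Finset.mem_offDiag.2 ⟨hα, hβ, hne⟩, rfl⟩)
        k ?_
      rw [map_sub]
      exact hk)
    (by
      rw [← hψ3]
      refine Submodule.subset_span ⟨α₀, hα₀, β₀, hβ₀, ?_⟩
      rw [map_sub]
      rfl)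
  refine hσ (σ'.comp ψ.rangeRestrict) ?_ hσ'
  intro j hj
  rw [hj0 j hj]
  have e1 : ψ.rangeRestrict (xB 0) = algebraMap ℂ ψ.range b := Subtype.ext hψ1
  have e2 : ψ.rangeRestrict (yB 0) = algebraMap ℂ ψ.range (Complex.exp b) := Subtype.ext hψ2
  rw [AlgHom.comp_apply, AlgHom.comp_apply, e1, e2, AlgHom.commutes, AlgHom.commutes]
  rfl

end XA
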