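import Pool.Agent.Lib.MP_228259_lc.A.CL2
import Pool.Agent.Lib.MP_228259_lc.P13b

/-!
TWO: the differences of the exponents of a relation over `L` are not all proportional.

PROOF. Suppose not. Then any two differences `d, d'` of elements of `f.support` are linearly dependent over `ℚ`.
If all differences are zero, `f` is a monomial `c X^α`, `c ≠ 0`, and `aeval w f ≠ 0` (`hw`). Otherwise fix a
non-zero difference `d₀ = α₀ - β₀`; divide by the gcd of its entries: `d₀ = g • q`, `q` primitive, `q ≠ 0`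
(see `spans_two` in SP.lean for a similar argument, `XW.primitive_vec` in P13b.lean may help). Every difference `d` is a
rational multiple of `q`, and an integer multiple since `q` is primitive (`∑ u_j q_j = 1` for
integers `u_j`: `k = ∑ u_j d_j`). So `α = α₀ + k_α • q` for all `α ∈ f.support`, `α ↦ k_α` injective. Let
`t = mo q w ≠ 0`. `0 = aeval w f = (∏ w_i ^ α₀ i) * ∑ c_α t ^ k_α`, so `∑ c_α t ^ (k_α + N) = 0` with `N` such that all
`k_α + N ≥ 0`: a non-zero polynomial over `L` with root `t`, so `t` is algebraic over `L`, `t ∈ L`, against `hq`.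
-/

set_option autoImplicit false

namespace XA

open MvPolynomial

theorem two_dirs {F : Type*} [Field F] [Algebra ℂ F] {L : IntermediateField ℂ F}
    (hL : ∀ a : F, IsAlgebraic L a → a ∈ L) {m : ℕ} {w : Fin m → F} (hw : ∀ j, w j ≠ 0)
    (hq : ∀ q : Fin m → ℤ, q ≠ 0 → mo q w ∉ L) {f : MvPolynomial (Fin m) L} (hf : f ≠ 0)
    (h0 : aeval w f = 0) :
    ∃ α ∈ f.support, ∃ β ∈ f.support, ∃ α' ∈ f.support, ∃ β' ∈ f.support,
      ∀ k k' : ℤ, (∀ j, k * ((α j : ℤ) - (β j : ℤ)) + k' * ((α' j : ℤ) - (β' j : ℤ)) = 0) →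
        k = 0 ∧ k' = 0 := by
  by_contra hcon
  push Not at hcon
  obtain ⟨β₁, hβ₁⟩ : f.support.Nonempty := by
    rw [Finset.nonempty_iff_ne_empty, Ne, MvPolynomial.support_eq_empty]
    exact hf
  have h1 : aeval w f = ∑ α ∈ f.support, algebraMap L F (f.coeff α) * ∏ i, w i ^ α i := by
    rw [MvPolynomial.aeval_def, MvPolynomial.eval₂_eq']
  rw [h1] at h0
  by_cases hsing : ∀ α ∈ f.support, α = β₁
  · -- a monomial
    have h2 : f.support = {β₁} := Finset.eq_singleton_iff_unique_mem.2 ⟨hβ₁, hsing⟩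
    rw [h2, Finset.sum_singleton] at h0
    rcases mul_eq_zero.1 h0 with h | h
    · have h3 : f.coeff β₁ = 0 := (map_eq_zero _).1 h
      exact (MvPolynomial.mem_support_iff.1 hβ₁) h3
    · exact (Finset.prod_ne_zero_iff.2 fun i _ => pow_ne_zero _ (hw i)) h
  push Not at hsing
  obtain ⟨α₁, hα₁, hne⟩ := hsing
  have hd0 : (fun j => (α₁ j : ℚ) - (β₁ j : ℚ)) ≠ 0 := by
    intro h
    apply hne
    ext j
    have h2 : (α₁ j : ℚ) - (β₁ j : ℚ) = 0 := congrFun h j
    have h3 : (α₁ j : ℚ) = (β₁ j : ℚ) := by linarith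
    exact_mod_cast h3
  obtain ⟨a, q₀, κ, hq₀, ha, hκ⟩ := XW.primitive_vec (fun j => (α₁ j : ℚ) - (β₁ j : ℚ)) hd0
  have ha0 : a ≠ 0 := by
    intro h
    rw [h] at hκ
    simp at hκ
  set k : (Fin m →₀ ℕ) → ℤ := fun α => ∑ j, ((α j : ℤ) - β₁ j) * κ j with hk
  have hd : ∀ α ∈ f.support, ∀ j, (α j : ℤ) = β₁ j + k α * a j := by
    intro α hα
    obtain ⟨k₁, k₂, hrel, hne0⟩ := hcon α₁ hα₁ β₁ hβ₁ α hα β₁ hβ₁
    have hk2 : k₂ ≠ 0 := by
      intro h
      have hk1 : k₁ ≠ 0 := fun h' => hne0 h' h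
      apply hne
      ext j
      have h2 := hrel j
      rw [h, zero_mul, add_zero] at h2
      have h3 := (mul_eq_zero.1 h2).resolve_left hk1
      have h4 : (α₁ j : ℤ) = β₁ j := by linarith
      exact_mod_cast h4
    have hk2' : (k₂ : ℚ) ≠ 0 := by exact_mod_cast hk2
    -- the differences are rational multiples of `a`
    have hmul : ∀ j, (α j : ℚ) - β₁ j = (-(k₁ : ℚ) / (k₂ * q₀)) * a j := by
      intro j
      have h2 : (k₁ : ℚ) * ((α₁ j : ℚ) - β₁ j) + k₂ * ((α j : ℚ) - β₁ j) = 0 := by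
        exact_mod_cast hrel j
      rw [ha j]
      field_simp
      linear_combination h2
    have hkα : (k α : ℚ) = -(k₁ : ℚ) / (k₂ * q₀) := by
      have h2 : (k α : ℚ) = ∑ j, ((α j : ℚ) - β₁ j) * κ j := by
        rw [hk]
        push_cast
        rfl
      rw [h2]
      have h3 : ∑ j, ((α j : ℚ) - β₁ j) * κ j = (-(k₁ : ℚ) / (k₂ * q₀)) * ∑ j, (a j : ℚ) * κ j := by
        rw [Finset.mul_sum]
        apply Finset.sum_congr rfl
        intro j _
        rw [hmul j]
        ring
      have h4 : ∑ j, (a j : ℚ) * κ j = 1 := by exact_mod_cast hκ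
      rw [h3, h4, mul_one]
    intro j
    have h2 := hmul j
    rw [← hkα] at h2
    have h3 : (α j : ℚ) = β₁ j + k α * a j := by linarith
    exact_mod_cast h3
  have hinj : ∀ α ∈ f.support, ∀ β ∈ f.support, k α = k β → α = β := by
    intro α hα β hβ h
    ext i
    have h2 := hd α hα i
    have h3 := hd β hβ i
    rw [h, ← h3] at h2
    exact_mod_cast h2
  set t : F := mo a w with ht
  have ht0 : t ≠ 0 := mo_ne_zero hw a
  have hprod : ∀ α ∈ f.support, ∏ i, w i ^ α i = (∏ i, w i ^ β₁ i) * t ^ k α := by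
    intro α hα
    rw [ht, mo, ← Finset.prod_zpow, ← Finset.prod_mul_distrib]
    apply Finset.prod_congr rfl
    intro i _
    rw [← zpow_natCast, ← zpow_natCast, ← zpow_mul, ← zpow_add₀ (hw i)]
    congr 1
    rw [hd α hα i]
    ring
  -- the shift
  set N : ℕ := ∑ α ∈ f.support, (k α).natAbs with hN
  have hNk : ∀ α ∈ f.support, 0 ≤ k α + N := by
    intro α hα
    have h2 : (k α).natAbs ≤ N := Finset.single_le_sum (f := fun α => (k α).natAbs)
      (fun _ _ => Nat.zero_le _) hα
    omega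
  have hsum : ∑ α ∈ f.support, algebraMap L F (f.coeff α) * t ^ (k α + N).toNat = 0 := by
    have h2 : ∑ α ∈ f.support, algebraMap L F (f.coeff α) * ∏ i, w i ^ α i
        = (∏ i, w i ^ β₁ i) * ∑ α ∈ f.support, algebraMap L F (f.coeff α) * t ^ k α := by
      rw [Finset.mul_sum]
      apply Finset.sum_congr rfl
      intro α hα
      rw [hprod α hα]
      ring
    rw [h2] at h0
    have h3 : (∏ i, w i ^ β₁ i) ≠ 0 := Finset.prod_ne_zero_iff.2 fun i _ => pow_ne_zero _ (hw i)
    have h4 := (mul_eq_zero.1 h0).resolve_left h3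
    have h5 : ∑ α ∈ f.support, algebraMap L F (f.coeff α) * t ^ (k α + N).toNat
        = (∑ α ∈ f.support, algebraMap L F (f.coeff α) * t ^ k α) * t ^ N := by
      rw [Finset.sum_mul]
      apply Finset.sum_congr rfl
      intro α hα
      rw [mul_assoc]
      congr 1
      rw [← zpow_natCast, ← zpow_natCast, ← zpow_add₀ ht0, Int.toNat_of_nonneg (hNk α hα)]
    rw [h5, h4, zero_mul]
  -- the polynomial
  set g : Polynomial L := ∑ α ∈ f.support, Polynomial.monomial (k α + N).toNat (f.coeff α) with hg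
  have hgt : Polynomial.aeval t g = 0 := by
    rw [hg, map_sum]
    simp only [Polynomial.aeval_monomial]
    exact hsum
  have hg0 : g ≠ 0 := by
    intro h
    have h2 : g.coeff (k β₁ + N).toNat = f.coeff β₁ := by
      rw [hg, Polynomial.finsetSum_coeff, Finset.sum_eq_single β₁]
      · simp
      · intro β hβ hne
        rw [Polynomial.coeff_monomial, if_neg]
        intro h2
        apply hne
        apply hinj β hβ β₁ hβ₁
        have h3 := hNk β hβ
        have h4 := hNk β₁ hβ₁
        omega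
      · intro h2
        exact absurd hβ₁ h2
    rw [h, Polynomial.coeff_zero] at h2
    exact (MvPolynomial.mem_support_iff.1 hβ₁) h2.symm
  exact hq a ha0 (hL t ⟨g, hg0, hgt⟩)

end XA
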