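import Pool.Agent.Lib.MP_228259_lc.A.IF
import Pool.Agent.Lib.MP_228259_lc.A.CLI
import Pool.Agent.Lib.MP_228259_lc.A.IND
import Pool.Agent.Lib.MP_228259_lc.A.PTE
import Pool.Agent.Lib.MP_228259_lc.A.TWO
import Pool.Agent.Lib.MP_228259_lc.A.DR

/-!
TCN: `rk (range x) = 2`, `y_0` algebraic over `ℂ(x)`, `x_0, y_0` algebraically independent (any `n = m + 1`).
The case `n = 3` is TC.lean (`t2_c`), T2M.lean.

PROOF. Let `L` be the intermediate field with carrier `cl (range x)`. `principal_cl` (`S = range x`, family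
`w i = y (Fin.succ i) : Fin m → F`; `rk (range x ∪ range w) = rk (range x ∪ range y) = m + 1`,
`rk (range x) = 2`, `m + 1 + 1 = 2 + m`) gives `f` over `L`. `two_dirs` for `w` (`hL`: `cl_root`; `hq`:
`mo q w = mo (Fin.cons 0 q) y`, `h2`) gives two independent differences of exponents. `cl {x 0, y 0} = cl (range x)`:
`rk {x 0, y 0} = 2` as `x 0 ∉ cl ∅` (`h.af`), `y 0 ∉ cl {x 0}`, and `y 0 ∈ cl (range x)` (`subset_cl_of_rk`).
`exp_of_sigma` with `e = Fin.succ` (only the index `0` is not in `range e`) gives `U, xB, yB, cB`. Apply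
`lc_field` to the field `L`, `u = ⟨x 0, _⟩`, `y = ⟨y 0, _⟩` (`hind`, `halg` by `indep_map` and `cl_map` for the
inclusion `L → F`), `B = adjoin ℂ U` (of finite type), `ψ` the inclusion, `ub = xB 0`, `yb = yB 0`, `A = f.support`,
`c = cB`, `P α = ∑ i, α i • xB (Fin.succ i)`.
`hNE`: if `α ≠ β` and `∑ (α i - β i) x_(i+1) = r x_0 + k`, `r = a / b` rational, then
`q = (- a, b (α - β)) ≠ 0` has `li q x` constant, against `h.af`.
`hGR`: one of the two independent differences `d, d'` has `li (0, d) x ∉ cl {x 0}`, otherwise `h3` gives a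
non-trivial relation `k d + k' d' = 0`.
-/

set_option autoImplicit false

namespace XA

open MvPolynomial

private theorem tcnX0 {F : Type} [Field F] [Algebra ℂ F] {m : ℕ} {x y : Fin (m + 1) → F}
    (h : FR0 x y) : x 0 ∉ cl (∅ : Set F) := by
  intro h1
  obtain ⟨c, hc⟩ := cl_empty h1
  have h2 := h.af (Pi.single 0 1) (by
    intro h3
    have h4 := congrFun h3 0
    simp at h4) c
  rw [li_single] at h2
  exact h2 hc

private theorem tcnRk0 {F : Type} [Field F] [Algebra ℂ F] {m : ℕ} {x y : Fin (m + 1) → F}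
    (h : FR0 x y) : rk ({x 0} : Set F) = 1 := by
  have h1 := rk_insert_not (tcnX0 h)
  have h2 : rk (∅ : Set F) = 0 := (AlgebraicIndependent.matroid ℂ F).eRk_empty
  rw [h2] at h1
  have h3 : (insert (x 0) (∅ : Set F)) = {x 0} := by simp
  rw [h3] at h1
  simpa using h1

private theorem tcnRk2 {F : Type} [Field F] [Algebra ℂ F] {m : ℕ} {x y : Fin (m + 1) → F}
    (h : FR0 x y) (hy : y 0 ∉ cl {x 0}) : rk ({x 0, y 0} : Set F) = 2 := by
  have h1 := rk_insert_not hy
  rw [tcnRk0 h] at h1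
  rw [Set.pair_comm, h1]
  rfl

private theorem tcn_alg {F : Type*} [Field F] [Algebra ℂ F] {S : Set F} {L : IntermediateField ℂ F}
    (hL : (L : Set F) = cl S) (a : F) (ha : IsAlgebraic L a) : a ∈ L := by
  obtain ⟨p, hp0, hp⟩ := ha
  have h1 : a ∈ cl S := by
    apply cl_root S (p.map (algebraMap L F))
    · rw [Ne, Polynomial.map_eq_zero_iff (algebraMap L F).injective]
      exact hp0
    · intro i
      rw [Polynomial.coeff_map, ← hL]
      exact (p.coeff i).2
    · rw [Polynomial.eval_map]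
      exact hp
  rw [← hL] at h1
  exact h1

/-- the relation and its two directions -/
private theorem tcn_rel {F : Type} [Field F] [Algebra ℂ F] {m : ℕ} {x y : Fin (m + 1) → F}
    (h : FR0 x y) (hx : rk (Set.range x) = 2)
    (hN : rk (Set.range x ∪ Set.range y) = ((m + 1 : ℕ) : ℕ∞)) (h1 : y 0 ∈ cl (Set.range x))
    (h2 : ∀ b : Fin (m + 1) → ℤ, mo b y ∈ cl (Set.range x) → ∀ j, j ≠ 0 → b j = 0)
    {L : IntermediateField ℂ F} (hL : (L : Set F) = cl (Set.range x)) :
    ∃ f : MvPolynomial (Fin m) L,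
      (∀ g : MvPolynomial (Fin m) L, aeval (fun i => y (Fin.succ i)) g = 0 → f ∣ g) ∧
      ∃ α ∈ f.support, ∃ β ∈ f.support, ∃ α' ∈ f.support, ∃ β' ∈ f.support,
      ∀ k k' : ℤ, (∀ j, k * ((α j : ℤ) - (β j : ℤ)) + k' * ((α' j : ℤ) - (β' j : ℤ)) = 0) →
        k = 0 ∧ k' = 0 := by
  have hS : rk (Set.range x) ≠ ⊤ := by rw [hx]; exact ENat.natCast_ne_top 2
  have hrk3 : rk (Set.range x ∪ Set.range (fun i : Fin m => y (Fin.succ i))) =
      ((m + 1 : ℕ) : ℕ∞) := by
    apply le_antisymm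
    · rw [← hN]
      apply rk_mono
      apply (Set.union_subset_union_right _ _).trans (subset_cl _)
      rintro _ ⟨i, rfl⟩
      exact ⟨_, rfl⟩
    · rw [← hN]
      apply rk_mono
      apply Set.union_subset
      · exact Set.subset_union_left.trans (subset_cl _)
      · rintro _ ⟨i, rfl⟩
        refine Fin.cases ?_ (fun i => ?_) i
        · exact cl_mono Set.subset_union_left h1
        · exact subset_cl _ (Or.inr ⟨i, rfl⟩)
  obtain ⟨f, hfi, hf0, hf⟩ := principal_cl (S := Set.range x) hS hL (m := m)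
    (w := fun i => y (Fin.succ i)) (by
      rw [hrk3, hx]
      push_cast
      rw [add_assoc, add_comm]
      norm_num)
  refine ⟨f, hf, ?_⟩
  refine two_dirs (tcn_alg hL) (w := fun i => y (Fin.succ i)) (fun j => h.nz _) ?_ hfi.ne_zero hf0
  intro q hq hqL
  apply hq
  have h3 : mo q (fun i => y (Fin.succ i)) = mo (Fin.cons 0 q : Fin (m + 1) → ℤ) y := by
    unfold mo
    rw [Fin.prod_univ_succ]
    simp
  have h4 : mo q (fun i => y (Fin.succ i)) ∈ cl (Set.range x) := by
    rw [← hL]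
    exact hqL
  rw [h3] at h4
  funext j
  have h5 := h2 _ h4 (Fin.succ j) (Fin.succ_ne_zero j)
  simpa using h5

theorem t_c {F : Type} [Field F] [Algebra ℂ F] {m : ℕ} {x y : Fin (m + 1) → F} (h : FR0 x y)
    (hx : rk (Set.range x) = 2)
    (hN : rk (Set.range x ∪ Set.range y) = ((m + 1 : ℕ) : ℕ∞)) (h1 : y 0 ∈ cl (Set.range x))
    (h2 : ∀ b : Fin (m + 1) → ℤ, mo b y ∈ cl (Set.range x) → ∀ j, j ≠ 0 → b j = 0)
    (h3 : ∀ q q' : Fin (m + 1) → ℤ, q 0 = 0 → q' 0 = 0 → li q x ∈ cl {x 0} →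
      li q' x ∈ cl {x 0} → ∃ k k' : ℤ, (k ≠ 0 ∨ k' ≠ 0) ∧ k • q + k' • q' = 0)
    (hy : y 0 ∉ cl {x 0}) : HasExp x y := by
  obtain ⟨L, hL⟩ := cl_field (Set.range x)
  obtain ⟨f, hf, α₁, hα₁, β₁, hβ₁, α₂, hα₂, β₂, hβ₂, hdir⟩ := tcn_rel h hx hN h1 h2 hL
  have hxL : ∀ j, x j ∈ L := by
    intro j
    have h2 : x j ∈ (L : Set F) := by
      rw [hL]
      exact subset_cl _ ⟨j, rfl⟩
    exact h2
  have hy0L : y 0 ∈ L := by
    have h2 : y 0 ∈ (L : Set F) := by
      rw [hL]
      exact h1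
    exact h2
  have hr : ∀ j : Fin (m + 1), j ∉ Set.range (Fin.succ : Fin m → Fin (m + 1)) → j = 0 := by
    intro j hj
    by_contra h0
    obtain ⟨i, hi⟩ := Fin.exists_succ_eq.2 h0
    exact hj ⟨i, hi⟩
  have h0r : (0 : Fin (m + 1)) ∉ Set.range (Fin.succ : Fin m → Fin (m + 1)) := by
    rintro ⟨i, hi⟩
    exact Fin.succ_ne_zero i hi
  obtain ⟨U, xB, yB, cB, hU, hxB, hyB, hcB, hσ⟩ := exp_of_sigma (x := x) (y := y)
    (Fin.succ : Fin m → Fin (m + 1)) L hxL (by
      intro j hj
      rw [hr j hj]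
      exact hy0L) hf
  have hft : Algebra.FiniteType ℂ (Algebra.adjoin ℂ U) := by
    rw [← Subalgebra.fg_iff_finiteType]
    obtain ⟨s, hs2⟩ := hU.exists_finset_coe
    rw [← hs2]
    exact Subalgebra.fg_adjoin_finset s
  -- the two generators in `L`
  have hrange : Set.range ![x 0, y 0] = {x 0, y 0} := by
    simp [Set.pair_comm]
  have hindF : AlgebraicIndependent ℂ ![x 0, y 0] := by
    rw [← rk_eq_iff, hrange, tcnRk2 h hy]
    simp
  have hindL : AlgebraicIndependent ℂ (![(⟨x 0, hxL 0⟩ : L), (⟨y 0, hy0L⟩ : L)]) := by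
    rw [← indep_map L.val]
    have h2 : (fun i => L.val ((![(⟨x 0, hxL 0⟩ : L), (⟨y 0, hy0L⟩ : L)]) i)) = ![x 0, y 0] := by
      funext i
      fin_cases i <;> rfl
    rw [h2]
    exact hindF
  have hcl : cl (Set.range x) ⊆ cl {x 0, y 0} := by
    refine subset_cl_of_rk ?_ ?_ ?_
    · intro a ha
      rcases ha with rfl | ha
      · exact subset_cl _ ⟨0, rfl⟩
      · rw [Set.mem_singleton_iff.1 ha]
        exact h1
    · rw [rk_cl, hx]
      exact ENat.natCast_ne_top 2
    · rw [rk_cl, hx, tcnRk2 h hy]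
  have halg : ∀ a : L, a ∈ cl ({(⟨x 0, hxL 0⟩ : L), (⟨y 0, hy0L⟩ : L)} : Set L) := by
    intro a
    rw [← cl_map L.val, Set.image_pair]
    refine hcl ?_
    rw [← hL]
    exact a.2
  -- the sums
  have hcoe : ∀ α : Fin m →₀ ℕ,
      (((∑ i, α i • xB (Fin.succ i) : Algebra.adjoin ℂ U) : L) : F) =
        ∑ i, (α i : F) * x (Fin.succ i) := by
    intro α
    push_cast
    apply Finset.sum_congr rfl
    intro i _
    rw [hxB (Fin.succ i), nsmul_eq_mul]
  obtain ⟨σ, hσ1, hσ2⟩ := lc_field (L := L) (u := ⟨x 0, hxL 0⟩) (y := ⟨y 0, hy0L⟩) hindL halg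
    (Algebra.adjoin ℂ U) (Algebra.adjoin ℂ U).val (ub := xB 0) (yb := yB 0)
    (Subtype.ext (hxB 0)) (Subtype.ext (hyB 0 h0r)) (Fin m →₀ ℕ) f.support cB
    (fun α => ∑ i, α i • xB (Fin.succ i))
    (by
      intro α hα
      have h2 : ((Algebra.adjoin ℂ U).val (cB α) : L) = coeff α f := hcB α
      rw [h2]
      exact MvPolynomial.mem_support_iff.1 hα)
    (by
      intro α _ β _ hαβ r k hk
      have hk2 := congrArg (fun z : L => (z : F)) hk
      have hk3 : (∑ i, (α i : F) * x (Fin.succ i)) - (∑ i, (β i : F) * x (Fin.succ i)) =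
          algebraMap ℂ F (r : ℂ) * x 0 + algebraMap ℂ F k := by
        rw [← hcoe α, ← hcoe β]
        exact hk2
      have hden : ((r.den : ℕ) : ℂ) ≠ 0 := by exact_mod_cast r.den_ne_zero
      have hr1 : ((r.den : ℕ) : ℂ) * (r : ℂ) = (r.num : ℂ) := by
        have h4 : ((r.den : ℕ) : ℚ) * r = (r.num : ℚ) := by
          rw [mul_comm]
          exact Rat.mul_den_eq_num r
        exact_mod_cast congrArg (fun q : ℚ => (q : ℂ)) h4
      have hr2 : ((r.den : ℕ) : F) * algebraMap ℂ F (r : ℂ) = (r.num : F) := by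
        have h4 := congrArg (algebraMap ℂ F) hr1
        rw [map_mul, map_natCast, map_intCast] at h4
        exact h4
      refine h.af (Fin.cons (-r.num) (fun i : Fin m => (r.den : ℤ) * ((α i : ℤ) - (β i : ℤ))))
        ?_ (((r.den : ℕ) : ℂ) * k) ?_
      · intro h4
        have hd : (r.den : ℤ) ≠ 0 := by exact_mod_cast r.den_ne_zero
        apply hαβ
        ext i
        have h5 := congrFun h4 (Fin.succ i)
        simp only [Fin.cons_succ, Pi.zero_apply, mul_eq_zero, hd, false_or] at h5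
        omega
      · rw [li, Fin.sum_univ_succ]
        simp only [Fin.cons_zero, Fin.cons_succ]
        have h6 : ∑ i : Fin m, ((((r.den : ℤ) * ((α i : ℤ) - (β i : ℤ)) : ℤ)) : F) * x (Fin.succ i) =
            ((r.den : ℕ) : F) * ((∑ i, (α i : F) * x (Fin.succ i)) -
              (∑ i, (β i : F) * x (Fin.succ i))) := by
          rw [← Finset.sum_sub_distrib, Finset.mul_sum]
          apply Finset.sum_congr rfl
          intro i _
          push_cast
          ring
        rw [h6, hk3, map_mul, map_natCast, Int.cast_neg]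
        linear_combination x 0 * hr2)
    (by
      by_contra hcon
      push Not at hcon
      have hmem : ∀ α ∈ f.support, ∀ β ∈ f.support,
          li (Fin.cons 0 (fun i : Fin m => (α i : ℤ) - (β i : ℤ)) : Fin (m + 1) → ℤ) x ∈
            cl {x 0} := by
        intro α hα β hβ
        have h5 := hcon α hα β hβ
        rw [← cl_map L.val, Set.image_singleton] at h5
        have h6 : L.val ((Algebra.adjoin ℂ U).val (∑ i, α i • xB (Fin.succ i)) -
            (Algebra.adjoin ℂ U).val (∑ i, β i • xB (Fin.succ i))) =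
            li (Fin.cons 0 (fun i : Fin m => (α i : ℤ) - (β i : ℤ)) : Fin (m + 1) → ℤ) x := by
          rw [map_sub, li, Fin.sum_univ_succ]
          simp only [Fin.cons_zero, Fin.cons_succ, Int.cast_zero, zero_mul, zero_add]
          have h7 : ∑ i : Fin m, ((((α i : ℤ) - (β i : ℤ) : ℤ)) : F) * x (Fin.succ i) =
              (∑ i, (α i : F) * x (Fin.succ i)) - ∑ i, (β i : F) * x (Fin.succ i) := by
            rw [← Finset.sum_sub_distrib]
            apply Finset.sum_congr rfl
            intro i _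
            push_cast
            ring
          rw [h7, ← hcoe α, ← hcoe β]
          rfl
        rw [h6] at h5
        exact h5
      obtain ⟨k, k', hkk, hrel⟩ := h3 _ _ (by simp) (by simp) (hmem α₁ hα₁ β₁ hβ₁)
        (hmem α₂ hα₂ β₂ hβ₂)
      have h8 := hdir k k' (by
        intro j
        have h9 := congrFun hrel (Fin.succ j)
        simpa using h9)
      rcases hkk with h9 | h9
      · exact h9 h8.1
      · exact h9 h8.2)
  refine hσ σ ?_ hσ2
  intro j hj
  rw [hr j hj]
  exact hσ1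

end XA
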