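import Pool.Agent.Lib.MP_228259_lc.A.XC
import Pool.Agent.Lib.MP_228259_lc.A.PA

/-!
XI: iterated sections.

PROOF of `single_eq`: induction on `d` (for all fields). `d = 0`: `dim_reduction_spec` gives
`x', y'` with `FR0`, `rk (range x' ∪ range y') = n`, `1 = rk (range x) ≤ rk (range x') ≤ rk (range x)`
(`rk_le_of_spec` for `IsSpec x x'`), so `pa1` applies, and `hasExp_of_spec`. (Here `n = e + δ`,
`δ ≤ 1`.) `d + 1`: `x_cut` with `rk (range x) = d + 2`, `δ ≤ 1 < d + 2`; induction and `hasExp_of_spec`.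
(For `e > n` there is nothing to do: `e ≤ n` because `rk (range x ∪ range y) ≤ rk (range x) + n`; so `δ = n - e ≤ 1`.)

PROOF of `cut_two`: induction on `d`. `d = 0`: nothing to do. `d + 1`: `x_cut` (rank `d + 3`, `δ = 2 < d + 3`) gives
`(x₁, y₁)` with `Cut x y x₁ y₁`, rank `d + 2`; apply the induction hypothesis to it and compose. The equivalences for
one cut:
* `mo b y ∈ cl (range x) → mo b y₁ ∈ cl (range x₁)`: `Cut.dep` with `D j = inl (Pi.single j 1)` (`li_single`).
  Conversely let `mo b y ∉ cl (range x)`. Take `I ⊆ Fin` with `x_I` independent, `I` has `d + 2` elements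
  (one less than the rank), such that `x₁_I` is independent too (`Cut.ind`: some `x j ∉ cl (x_I)`); so
  `cl (x₁_I) = cl (range x₁)` (`rk (range x₁) = d + 2`, `subset_cl_of_rk`). The family `x_I, mo b y` is independent
  and some `x j` is not in its closure (otherwise its closure contains `range x`, of rank `d + 3` = the
  number of elements, so `mo b y ∈ cl (range x)`: `subset_cl_of_rk`). `Cut.ind`: `x₁_I, mo b y₁` is independent, so
  `mo b y₁ ∉ cl (range x₁)`.
* `li q x ∈ cl {x 0} → ..`: `Cut.dep` with `k = 1`. Conversely, if `li q x ∉ cl {x 0}` then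
  `![x 0, li q x]` is independent (`x 0 ∉ cl ∅` by `h.af`) and some `x j` is not in its closure (rank `≥ 3`); so
  `![x₁ 0, li q x₁]` is independent (`Cut.ind`), `li q x₁ ∉ cl {x₁ 0}`. The same for `y 0 = mo (Pi.single 0 1) y`
  (`mo_single`).
-/

set_option autoImplicit false

namespace XA

open MvPolynomial

private theorem xi_range {F : Type*} [Field F] {n k : ℕ} (x y : Fin n → F)
    (D : Fin k → (Fin n → ℤ) ⊕ (Fin n → ℤ)) (a : (Fin n → ℤ) ⊕ (Fin n → ℤ)) :
    Set.range (fun i => evm x y
      ((Fin.cons a D : Fin (k + 1) → (Fin n → ℤ) ⊕ (Fin n → ℤ)) i)) =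
      insert (evm x y a) (Set.range fun i => evm x y (D i)) := by
  have h : (fun i => evm x y ((Fin.cons a D : Fin (k + 1) → (Fin n → ℤ) ⊕ (Fin n → ℤ)) i)) =
      (Fin.cons (evm x y a) (fun i => evm x y (D i)) : Fin (k + 1) → F) := by
    funext i
    refine Fin.cases ?_ (fun i => ?_) i
    · rfl
    · rfl
  rw [h, Fin.range_cons]

private theorem xi_up {F K : Type*} [Field F] [Algebra ℂ F] [Field K] [Algebra ℂ K] {n : ℕ}
    {x y : Fin n → F} {x' y' : Fin n → K} (hc : Cut x y x' y') {k : ℕ}
    (D : Fin k → (Fin n → ℤ) ⊕ (Fin n → ℤ)) (a : (Fin n → ℤ) ⊕ (Fin n → ℤ))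
    (hk : rk (Set.range fun i => evm x y (D i)) = (k : ℕ∞))
    (ha : evm x y a ∉ cl (Set.range fun i => evm x y (D i)))
    (hj : ∃ j, x j ∉ cl (insert (evm x y a) (Set.range fun i => evm x y (D i)))) :
    evm x' y' a ∉ cl (Set.range fun i => evm x' y' (D i)) := by
  have h1 : rk (Set.range fun i => evm x y
      ((Fin.cons a D : Fin (k + 1) → (Fin n → ℤ) ⊕ (Fin n → ℤ)) i)) = ((k + 1 : ℕ) : ℕ∞) := by
    rw [xi_range, rk_insert_not ha, hk]
    push_cast
    rfl
  have h2 : AlgebraicIndependent ℂ (fun i => evm x y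
      ((Fin.cons a D : Fin (k + 1) → (Fin n → ℤ) ⊕ (Fin n → ℤ)) i)) := by
    rw [← rk_eq_iff, h1, Fintype.card_fin]
  have h3 := hc.ind (k + 1) (Fin.cons a D) h2 (by rw [xi_range]; exact hj)
  intro h4
  have h5 := (rk_eq_iff _).2 h3
  rw [xi_range, rk_insert_mem h4, Fintype.card_fin] at h5
  have h6 := rk_range_le (fun i => evm x' y' (D i))
  rw [h5, Fintype.card_fin] at h6
  have h7 : k + 1 ≤ k := by exact_mod_cast h6
  omega

private theorem xi_sub {F : Type*} [Field F] [Algebra ℂ F] {ι : Type*} (x : ι → F) {t : ℕ}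
    (h : (t : ℕ∞) ≤ rk (Set.range x)) :
    ∃ e : Fin t → ι, AlgebraicIndependent ℂ (fun i => x (e i)) := by
  obtain ⟨I, hI, hind, hcard⟩ := Matroid.le_eRk_iff.1 h
  have hfin : I.Finite := Set.finite_of_encard_eq_coe hcard
  have hnc : Nat.card I = t := by
    rw [Nat.card_coe_set_eq, Set.ncard, hcard]
    simp
  have : Finite I := hfin
  let eq : I ≃ Fin t := Finite.equivFinOfCardEq hnc
  have h1 : ∀ a : I, ∃ i, x i = a := fun a => hI a.2
  choose g hg using h1
  refine ⟨fun i => g (eq.symm i), ?_⟩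
  have h2 : AlgebraicIndependent ℂ (fun a : I => (a : F)) :=
    AlgebraicIndependent.matroid_indep_iff.1 hind
  have h3 := h2.comp eq.symm eq.symm.injective
  have h4 : (fun i => x (g (eq.symm i))) = (fun a : I => (a : F)) ∘ eq.symm := by
    funext i
    exact hg _
  rw [h4]
  exact h3

private theorem xi_mo {F K : Type*} [Field F] [Algebra ℂ F] [Field K] [Algebra ℂ K] {n : ℕ}
    {x y : Fin n → F} {x' y' : Fin n → K} (hc : Cut x y x' y') {r : ℕ}
    (hr : rk (Set.range x) = ((r + 1 : ℕ) : ℕ∞)) (hr' : rk (Set.range x') = (r : ℕ∞))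
    (b : Fin n → ℤ) : mo b y ∈ cl (Set.range x) ↔ mo b y' ∈ cl (Set.range x') := by
  constructor
  · intro h
    have h1 := hc.dep n (fun j => Sum.inl (Pi.single j 1)) (Sum.inr b)
    have h2 : (fun i : Fin n => evm x y (Sum.inl (Pi.single i 1))) = x := by
      funext i
      exact li_single x i
    have h3 : (fun i : Fin n => evm x' y' (Sum.inl (Pi.single i 1))) = x' := by
      funext i
      exact li_single x' i
    rw [h2, h3] at h1
    exact h1 h
  · intro h
    by_contra hb
    obtain ⟨e, he⟩ := xi_sub x (t := r) (by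
      rw [hr]
      exact_mod_cast Nat.le_succ r)
    have hD : (fun i : Fin r => evm x y (Sum.inl (Pi.single (e i) 1))) = fun i => x (e i) := by
      funext i
      exact li_single x (e i)
    have hD' : (fun i : Fin r => evm x' y' (Sum.inl (Pi.single (e i) 1))) =
        fun i => x' (e i) := by
      funext i
      exact li_single x' (e i)
    have hrk : rk (Set.range fun i : Fin r => x (e i)) = (r : ℕ∞) := by
      rw [(rk_eq_iff _).2 he, Fintype.card_fin]
    have hsub : Set.range (fun i : Fin r => x (e i)) ⊆ Set.range x := by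
      rintro _ ⟨i, rfl⟩
      exact ⟨e i, rfl⟩
    have hsub' : Set.range (fun i : Fin r => x' (e i)) ⊆ Set.range x' := by
      rintro _ ⟨i, rfl⟩
      exact ⟨e i, rfl⟩
    have h1 : AlgebraicIndependent ℂ (fun i : Fin r =>
        evm x' y' (Sum.inl (Pi.single (e i) 1))) := by
      apply hc.ind r (fun i => Sum.inl (Pi.single (e i) 1))
      · rw [hD]
        exact he
      · by_contra hcon
        push Not at hcon
        rw [hD] at hcon
        have h2 : rk (Set.range x) ≤ rk (Set.range fun i : Fin r => x (e i)) := by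
          apply rk_mono
          rintro _ ⟨j, rfl⟩
          exact hcon j
        rw [hr, hrk] at h2
        have h3 : r + 1 ≤ r := by exact_mod_cast h2
        omega
    have h2 : rk (Set.range fun i : Fin r => x' (e i)) = (r : ℕ∞) := by
      rw [← hD', (rk_eq_iff _).2 h1, Fintype.card_fin]
    have h3 : Set.range x' ⊆ cl (Set.range fun i : Fin r => x' (e i)) :=
      subset_cl_of_rk hsub' (by rw [hr']; exact ENat.natCast_ne_top r) (by rw [hr', h2])
    refine xi_up hc (fun i : Fin r => Sum.inl (Pi.single (e i) 1)) (Sum.inr b) ?_ ?_ ?_ ?_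
    · rw [hD]
      exact hrk
    · rw [hD]
      exact fun h4 => hb (cl_mono hsub h4)
    · by_contra hcon
      push Not at hcon
      rw [hD] at hcon
      apply hb
      have h5 : rk (insert (mo b y) (Set.range x)) ≤ rk (Set.range x) := by
        have h6 : insert (mo b y) (Set.range x) ⊆
            cl (insert (mo b y) (Set.range fun i : Fin r => x (e i))) := by
          refine Set.insert_subset (subset_cl _ (Set.mem_insert _ _)) ?_
          rintro _ ⟨j, rfl⟩
          exact hcon j
        refine (rk_mono h6).trans ?_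
        have h7 : rk (insert (mo b y) (Set.range fun i : Fin r => x (e i))) ≤
            rk (Set.range fun i : Fin r => x (e i)) + 1 :=
          (AlgebraicIndependent.matroid ℂ F).eRk_insert_le_add_one _ _
        rw [hrk] at h7
        rw [hr]
        exact_mod_cast h7
      have h8 := subset_cl_of_rk (Set.subset_insert (mo b y) (Set.range x)) (by
        intro h9
        rw [h9, hr] at h5
        exact absurd h5 (not_le.2 (ENat.natCast_lt_top _))) h5
      exact h8 (Set.mem_insert _ _)
    · rw [hD']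
      exact cl_subset h3 h

private theorem xi_rk_le {F : Type*} [Field F] [Algebra ℂ F] (t : F) :
    rk ({t} : Set F) ≤ 1 := by
  have h1 := (AlgebraicIndependent.matroid ℂ F).eRk_insert_le_add_one t ∅
  have h3 : rk (∅ : Set F) = 0 := Matroid.eRk_empty _
  have h4 : (insert t ∅ : Set F) = {t} := by simp
  rw [h4] at h1
  have h5 : rk ({t} : Set F) ≤ rk (∅ : Set F) + 1 := h1
  rw [h3, zero_add] at h5
  exact h5

private theorem xi_pt {F K : Type*} [Field F] [Algebra ℂ F] [Field K] [Algebra ℂ K] {n : ℕ}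
    {x y : Fin n → F} {x' y' : Fin n → K} (hc : Cut x y x' y') (i₀ : Fin n)
    (h0 : x i₀ ∉ cl (∅ : Set F)) (hr : (3 : ℕ∞) ≤ rk (Set.range x))
    (a : (Fin n → ℤ) ⊕ (Fin n → ℤ)) : evm x y a ∈ cl {x i₀} ↔ evm x' y' a ∈ cl {x' i₀} := by
  have hD : Set.range (fun _ : Fin 1 => evm x y (Sum.inl (Pi.single i₀ 1))) = {x i₀} := by
    rw [Set.range_const]
    congr 1
    exact li_single x i₀
  have hD' : Set.range (fun _ : Fin 1 => evm x' y' (Sum.inl (Pi.single i₀ 1))) = {x' i₀} := by
    rw [Set.range_const]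
    congr 1
    exact li_single x' i₀
  have h1 : rk ({x i₀} : Set F) = 1 := by
    have h2 := rk_insert_not h0
    have h3 : rk (∅ : Set F) = 0 := Matroid.eRk_empty _
    rw [h3, zero_add] at h2
    have h4 : (insert (x i₀) ∅ : Set F) = {x i₀} := by simp
    rw [h4] at h2
    exact h2
  constructor
  · intro h
    have h2 := hc.dep 1 (fun _ => Sum.inl (Pi.single i₀ 1)) a (by rw [hD]; exact h)
    rwa [hD'] at h2
  · intro h
    by_contra hb
    refine xi_up hc (fun _ : Fin 1 => Sum.inl (Pi.single i₀ 1)) a ?_ ?_ ?_ ?_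
    · rw [hD, h1]
      norm_num
    · rw [hD]
      exact hb
    · by_contra hcon
      push Not at hcon
      rw [hD] at hcon
      have h2 : rk (Set.range x) ≤ rk (insert (evm x y a) {x i₀}) := by
        apply rk_mono
        rintro _ ⟨j, rfl⟩
        exact hcon j
      have h3 : rk (insert (evm x y a) {x i₀}) ≤ rk ({x i₀} : Set F) + 1 :=
        (AlgebraicIndependent.matroid ℂ F).eRk_insert_le_add_one _ _
      rw [h1] at h3
      have h4 : (3 : ℕ∞) ≤ 1 + 1 := hr.trans (h2.trans h3)
      exact absurd h4 (by norm_num)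
    · rw [hD']
      exact h

/-- one equation over `ℂ(x)` -/
theorem single_eq {n e : ℕ} (he : n ≤ e + 1) (d : ℕ) : ∀ (F : Type) (_ : Field F)
    (_ : Algebra ℂ F) (x y : Fin n → F), FR0 x y → rk (Set.range x) = ((d + 1 : ℕ) : ℕ∞) →
    rk (Set.range x ∪ Set.range y) = ((d + 1 + e : ℕ) : ℕ∞) → HasExp x y := by
  induction d with
  | zero =>
    intro F _ _ x y h hd hN
    obtain ⟨K, _, _, x', y', h', hr, hs, hrx, -⟩ := dim_reduction_spec h
    apply hasExp_of_spec hs
    have h1 : rk (Set.range x') = 1 := by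
      refine le_antisymm ?_ ?_
      · have h2 := rk_le_of_spec (hs.comp Sum.inl)
        have h3 : rk (Set.range x') ≤ rk (Set.range x) := h2
        rw [hd] at h3
        simpa using h3
      · rw [hd] at hrx
        simpa using hrx
    exact pa1 h' h1 hr
  | succ d ih =>
    intro F _ _ x y h hd hN
    have hen : e ≤ n := by
      have h1 : rk (Set.range x ∪ Set.range y) ≤ rk (Set.range x) + rk (Set.range y) :=
        (AlgebraicIndependent.matroid ℂ F).eRk_union_le_eRk_add_eRk _ _
      have h2 := rk_range_le y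
      rw [Fintype.card_fin] at h2
      have h3 : ((d + 1 + 1 + e : ℕ) : ℕ∞) ≤ ((d + 1 + 1 : ℕ) : ℕ∞) + (n : ℕ∞) := by
        rw [← hN, ← hd]
        exact h1.trans (add_le_add_right h2 _)
      have h4 : d + 1 + 1 + e ≤ d + 1 + 1 + n := by exact_mod_cast h3
      omega
    obtain ⟨K, _, _, x', y', h', hcut, hd', hN'⟩ := x_cut h (d := d) (e := e) (δ := n - e) hd hN
      (by omega) (by omega)
    exact hasExp_of_spec hcut.spec (ih K inferInstance inferInstance x' y' h' hd' hN')

theorem cut_two {m : ℕ} (d : ℕ) : ∀ (F : Type) (_ : Field F) (_ : Algebra ℂ F)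
    (x y : Fin (m + 2) → F), FR0 x y → rk (Set.range x) = ((d + 2 : ℕ) : ℕ∞) →
    rk (Set.range x ∪ Set.range y) = ((d + 2 + m : ℕ) : ℕ∞) →
    ∃ (K : Type) (_ : Field K) (_ : Algebra ℂ K) (x' y' : Fin (m + 2) → K), FR0 x' y' ∧
      rk (Set.range x') = 2 ∧ rk (Set.range x' ∪ Set.range y') = ((m + 2 : ℕ) : ℕ∞) ∧
      IsSpec (Sum.elim x y) (Sum.elim x' y') ∧
      (∀ b : Fin (m + 2) → ℤ, mo b y ∈ cl (Set.range x) ↔ mo b y' ∈ cl (Set.range x')) ∧
      (∀ q : Fin (m + 2) → ℤ, li q x ∈ cl {x 0} ↔ li q x' ∈ cl {x' 0}) ∧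
      (y 0 ∈ cl {x 0} ↔ y' 0 ∈ cl {x' 0}) := by
  induction d with
  | zero =>
    intro F _ _ x y h hd hN
    refine ⟨F, inferInstance, inferInstance, x, y, h, ?_, ?_, fun f hf => hf, fun _ => Iff.rfl,
      fun _ => Iff.rfl, Iff.rfl⟩
    · rw [hd]
      norm_num
    · rw [hN]
      congr 1
      omega
  | succ d ih =>
    intro F _ _ x y h hd hN
    obtain ⟨K, _, _, x₁, y₁, h₁, hcut, hd₁, hN₁⟩ := x_cut h (d := d + 1) (e := m) (δ := 2) hd hN
      (by omega) (by omega)
    obtain ⟨K', _, _, x', y', h', hr', hN', hs', hmo, hli, hy0⟩ :=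
      ih K inferInstance inferInstance x₁ y₁ h₁ hd₁ hN₁
    have hx0 : x 0 ∉ cl (∅ : Set F) := by
      intro h0
      obtain ⟨c, hc⟩ := cl_empty h0
      refine h.af (Pi.single 0 1) ?_ c ?_
      · intro h1
        have h2 := congrFun h1 0
        rw [Pi.single_eq_same] at h2
        exact one_ne_zero h2
      · rw [li_single]
        exact hc
    have hr3 : (3 : ℕ∞) ≤ rk (Set.range x) := by
      rw [hd]
      have h1 : 3 ≤ d + 1 + 2 := by omega
      exact_mod_cast h1
    refine ⟨K', inferInstance, inferInstance, x', y', h', hr', hN',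
      fun f hf => hs' f (hcut.spec f hf), ?_, ?_, ?_⟩
    · intro b
      exact (xi_mo hcut hd hd₁ b).trans (hmo b)
    · intro q
      exact (xi_pt hcut 0 hx0 hr3 (Sum.inl q)).trans (hli q)
    · have h1 := xi_pt hcut 0 hx0 hr3 (Sum.inr (Pi.single 0 1))
      have h2 : evm x y (Sum.inr (Pi.single 0 1)) = y 0 := mo_single y 0
      have h3 : evm x₁ y₁ (Sum.inr (Pi.single 0 1)) = y₁ 0 := mo_single y₁ 0
      rw [h2, h3] at h1
      exact h1.trans hy0

end XA
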