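import Pool.Agent.Lib.MP_228259_lc.A.NDF
import Pool.Agent.Lib.MP_228259_lc.A.FIN
import Pool.Agent.Lib.MP_228259_lc.A.XI
import Pool.Agent.Lib.MP_228259_lc.A.TCN
import Pool.Agent.Lib.MP_228259_lc.A.TBGN
import Pool.Agent.Lib.MP_228259_lc.A.TB3N
import Pool.Agent.Lib.MP_228259_lc.A.R2
import Pool.Agent.Lib.MP_228259_lc.A.CC

/-!
C3: exponential closedness for varieties of codimension at most three in `ℂ ^ n × (ℂ ^ ×) ^ n`.
-/

set_option autoImplicit false

namespace XA

open MvPolynomial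

private theorem c3_single {n : ℕ} (i : Fin n) (H : MvPolynomial (Fin n) ℂ) :
    XW.dirD (XW.qc (Pi.single i 1)) H = pderiv i H := by
  unfold XW.dirD XW.qc
  rw [Finset.sum_eq_single i]
  · rw [Pi.single_eq_same, Rat.cast_one, C_1, one_mul]
  · intro j _ hj
    rw [Pi.single_eq_of_ne hj, Rat.cast_zero, C_0, zero_mul]
  · intro h
    exact absurd (Finset.mem_univ i) h

/-- hypersurface projection and two equations over it -/
theorem hyper_two {F : Type} [Field F] [Algebra ℂ F] {m : ℕ} {x y : Fin (m + 2) → F}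
    (hm : 1 ≤ m) (h : FR0 x y) (hx : rk (Set.range x) = ((m + 1 : ℕ) : ℕ∞))
    (hN : rk (Set.range x ∪ Set.range y) = ((2 * m + 1 : ℕ) : ℕ∞)) : HasExp x y := by
  obtain ⟨U, U', r, h1, h2, hrn, hA⟩ := adapted0 (x := x) h.nz
  apply hasExp_unimod h.nz U U' h1 h2
  have h' := fr0_unimod h U U' h1 h2
  obtain ⟨e1, e2⟩ := cl_unimod (x := x) h.nz U U' h1 h2
  have hx' : rk (Set.range (fun i => li (U i) x)) = ((m + 1 : ℕ) : ℕ∞) := by
    rw [← rk_cl, e1, rk_cl, hx]
  have hN' : rk (Set.range (fun i => li (U i) x) ∪ Set.range (fun i => mo (U i) y)) =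
      ((2 * m + 1 : ℕ) : ℕ∞) := by
    rw [← rk_cl, e2, rk_cl, hN]
  obtain ⟨x', hxd⟩ : ∃ x' : Fin (m + 2) → F, x' = fun i => li (U i) x := ⟨_, rfl⟩
  obtain ⟨y', hyd⟩ : ∃ y' : Fin (m + 2) → F, y' = fun i => mo (U i) y := ⟨_, rfl⟩
  rw [← hxd, ← hyd] at h' hN' hA ⊢
  rw [← hxd] at hx'
  clear hxd hyd e1 e2 h1 h2 hx hN h
  have hr2 : r ≤ 2 := by
    have h3 := rank_le hrn hA
    rw [hN', hx'] at h3
    have h4 : 2 * m + 1 + r ≤ m + 1 + (m + 2) := by exact_mod_cast h3
    omega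
  have hcase : r = 0 ∨ r = 1 ∨ r = 2 := by omega
  rcases hcase with hr | hr | hr
  · subst hr
    have hrk : rk (Set.range x') + 1 = ((m + 2 : ℕ) : ℕ∞) := by
      rw [hx']
      norm_cast
    obtain ⟨P, hirr, hdeg, hP⟩ := hyper hrk
    obtain ⟨i, hi⟩ := exists_pderiv_ne hdeg
    refine hypersurface_field h' hirr.ne_zero hP (Pi.single i 1) ?_ ?_
    · rw [c3_single]
      exact hi
    · intro b hb
      have h3 := (hA b).1 hb
      refine Finset.sum_eq_zero fun j _ => ?_
      rw [h3 j (Nat.zero_le _), Int.cast_zero, zero_mul]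
  · subst hr
    have h2' : ∀ b : Fin (m + 2) → ℤ, mo b y' ∈ cl (Set.range x') → ∀ j, j ≠ 0 → b j = 0 := by
      intro b hb j hj
      refine (hA b).1 hb j ?_
      rcases Nat.eq_zero_or_pos (j : ℕ) with h3 | h3
      · exact absurd (Fin.ext h3) hj
      · exact h3
    have h1' : y' 0 ∈ cl (Set.range x') := by
      have h3 := (hA (Pi.single 0 1)).2 (by
        intro i hi
        have : i ≠ 0 := by
          rintro rfl
          simp at hi
        rw [Pi.single_eq_of_ne this])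
      rwa [mo_single] at h3
    obtain ⟨d, hd⟩ : ∃ d, m = d + 1 := ⟨m - 1, by omega⟩
    have hxd : rk (Set.range x') = ((d + 2 : ℕ) : ℕ∞) := by
      rw [hx', hd]
    have hNd : rk (Set.range x' ∪ Set.range y') = ((d + 2 + m : ℕ) : ℕ∞) := by
      rw [hN']
      have : 2 * m + 1 = d + 2 + m := by omega
      rw [this]
    by_cases hy0 : y' 0 ∈ cl {x' 0}
    · by_cases hq : ∃ q : Fin (m + 2) → ℤ, q 0 = 0 ∧ q ≠ 0 ∧ li q x' ∈ cl {x' 0}
      · obtain ⟨q, hq0, hqn, hqx⟩ := hq
        obtain ⟨V, V', k1, k2, k3, k4, k5⟩ := coord_b3 x' hq0 hqn hqx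
        apply hasExp_unimod h'.nz V V' k1 k2
        obtain ⟨e1, e2⟩ := cl_unimod (x := x') h'.nz V V' k1 k2
        have e3 : li (V 0) x' = x' 0 := by rw [k3, li_single]
        have e4 : mo (V 0) y' = y' 0 := by rw [k3, mo_single]
        refine t_b3 (fr0_unimod h' V V' k1 k2) ?_ ?_ ?_ ?_ ?_
        · rw [← rk_cl, e1, rk_cl, hx']
        · rw [← rk_cl, e2, rk_cl, hN']
        · intro b hb
          apply k5
          rw [e1, mo_mo h'.nz] at hb
          exact h2' _ hb
        · show mo (V 0) y' ∈ cl {li (V 0) x'}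
          rw [e3, e4]
          exact hy0
        · show li (V 1) x' ∈ cl {li (V 0) x'}
          rw [e3]
          exact k4
      · push Not at hq
        obtain ⟨K, _, _, x₁, y₁, f1, f2, f3, f4, f5, f6, f7⟩ := cut_two (m := m) d F
          inferInstance inferInstance x' y' h' hxd hNd
        apply hasExp_of_spec f4
        refine t_bgen f1 f2 f3 (f7.1 hy0) ?_
        intro q hq0 hqn hqx
        exact hq q hq0 hqn ((f6 q).2 hqx)
    · obtain ⟨K, _, _, x₁, y₁, f1, f2, f3, f4, f5, f6, f7⟩ := cut_two (m := m) d F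
        inferInstance inferInstance x' y' h' hxd hNd
      apply hasExp_of_spec f4
      refine t_c f1 f2 f3 ?_ ?_ ?_ (fun h3 => hy0 (f7.2 h3))
      · have h3 := (f5 (Pi.single 0 1)).1 (by rw [mo_single]; exact h1')
        rwa [mo_single] at h3
      · intro b hb
        exact h2' b ((f5 b).2 hb)
      · intro q q' hq0 hq0' hqx hqx'
        exact q_rank hx' q q' hq0 hq0' ((f6 q).2 hqx) ((f6 q').2 hqx')
  · subst hr
    refine two_alg (fun K _ _ x₁ y₁ h₁ => ec_field (by norm_num) le_rfl h₁) h' ?_ ?_ ?_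
    · have h3 := (hA (Pi.single 0 1)).2 (by
        intro i hi
        have : i ≠ 0 := by
          rintro rfl
          simp at hi
        rw [Pi.single_eq_of_ne this])
      rwa [mo_single] at h3
    · have h3 := (hA (Pi.single 1 1)).2 (by
        intro i hi
        have : i ≠ 1 := by
          rintro rfl
          simp at hi
        rw [Pi.single_eq_of_ne this])
      rwa [mo_single] at h3
    · rw [hN', hx']
      have : 2 * m + 1 = m + 1 + m := by omega
      rw [this]
      push_cast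
      rfl

theorem codim_three {F : Type} [Field F] [Algebra ℂ F] {n : ℕ} (hn : 0 < n) {x y : Fin n → F}
    (h : FR0 x y) (hN : ((2 * n : ℕ) : ℕ∞) ≤ rk (Set.range x ∪ Set.range y) + 3) :
    HasExp x y := by
  by_cases hn3 : n ≤ 3
  · exact ec_field hn hn3 h
  push Not at hn3
  have h1 : rk (Set.range x) ≤ n := by
    have := rk_range_le x
    rwa [Fintype.card_fin] at this
  obtain ⟨d, hd⟩ := ENat.ne_top_iff_exists.1 (ne_top_of_le_ne_top (ENat.natCast_ne_top n) h1)
  have hdn : d ≤ n := by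
    rw [← hd] at h1
    exact_mod_cast h1
  have hd0 : d ≠ 0 := by
    intro h0
    rw [h0] at hd
    have h4 : Set.range x ⊆ cl (∅ : Set F) :=
      subset_cl_of_rk (Set.empty_subset _) (by rw [← hd]; exact ENat.natCast_ne_top 0)
        (by rw [← hd]; exact bot_le)
    obtain ⟨c, hc⟩ := cl_empty (h4 ⟨⟨0, hn⟩, rfl⟩)
    refine h.af (Pi.single ⟨0, hn⟩ 1) ?_ c ?_
    · intro h5
      have h6 := congrFun h5 ⟨0, hn⟩
      rw [Pi.single_eq_same] at h6
      exact one_ne_zero h6
    · rw [li_single]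
      exact hc
  by_cases hdn' : d = n
  · refine dominant_field h ?_
    rw [← rk_eq_iff, Fintype.card_fin, ← hd, hdn']
  have h2 : rk (Set.range x ∪ Set.range y) ≤ rk (Set.range x) + n := by
    refine ((AlgebraicIndependent.matroid ℂ F).eRk_union_le_eRk_add_eRk _ _).trans ?_
    refine add_le_add le_rfl ?_
    have := rk_range_le y
    rwa [Fintype.card_fin] at this
  rw [← hd] at h2
  obtain ⟨N, hNd⟩ := ENat.ne_top_iff_exists.1 (ne_top_of_le_ne_top (by
    exact_mod_cast ENat.natCast_ne_top (d + n)) h2)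
  have hNle : N ≤ d + n := by
    rw [← hNd] at h2
    exact_mod_cast h2
  have hNge : 2 * n ≤ N + 3 := by
    rw [← hNd] at hN
    exact_mod_cast hN
  have hdN : d ≤ N := by
    have h3 : rk (Set.range x) ≤ rk (Set.range x ∪ Set.range y) :=
      rk_mono (Set.subset_union_left.trans (subset_cl _))
    rw [← hd, ← hNd] at h3
    exact_mod_cast h3
  obtain ⟨e, he⟩ : ∃ e, N = d + e := ⟨N - d, by omega⟩
  by_cases hen : n ≤ e + 1
  · obtain ⟨d', rfl⟩ : ∃ d', d = d' + 1 := ⟨d - 1, by omega⟩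
    exact single_eq hen d' F inferInstance inferInstance x y h hd.symm (by rw [← hNd, he])
  · obtain ⟨m, rfl⟩ : ∃ m, n = m + 2 := ⟨n - 2, by omega⟩
    refine hyper_two (by omega) h ?_ ?_
    · rw [← hd]
      have : d = m + 1 := by omega
      rw [this]
    · rw [← hNd]
      have : N = 2 * m + 1 := by omega
      rw [this]

/-- the frozen statement for varieties of codimension at most three -/
theorem frozen_codim_three (n : ℕ) (P : Ideal (MvPolynomial (Fin n ⊕ Fin n) ℂ))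
    (V : Set (Fin n ⊕ Fin n → ℂ)) (hP : P.IsPrime)
    (hV : V = {p | (∀ f ∈ P, eval p f = 0) ∧ ∀ j : Fin n, p (Sum.inr j) ≠ 0})
    (hadd : ∀ m : Fin n → ℤ, m ≠ 0 → ∀ c : ℂ,
          ∃ p ∈ V, (∑ j : Fin n, (m j : ℂ) * p (Sum.inl j)) ≠ c)
    (hmul : ∀ m : Fin n → ℤ, m ≠ 0 → ∀ c : ℂ,
          ∃ p ∈ V, (∏ j : Fin n, p (Sum.inr j) ^ (m j)) ≠ c)
    (hrot : ∀ k : ℕ, 1 ≤ k → k ≤ n → ∀ M : Matrix (Fin k) (Fin n) ℤ,
          ∃ J : Finset (Fin k ⊕ Fin k),
            (M.map (Int.cast : ℤ → ℚ)).rank ≤ J.card ∧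
            ∀ f : MvPolynomial (Fin k ⊕ Fin k) ℂ, f.vars ⊆ J →
              (∀ p ∈ V, MvPolynomial.eval
                  (Sum.elim (fun i : Fin k => ∑ j : Fin n, (M i j : ℂ) * p (Sum.inl j))
                            (fun i : Fin k => ∏ j : Fin n, p (Sum.inr j) ^ (M i j))) f = 0) →
              f = 0)
    (hcod : ∃ J : Finset (Fin n ⊕ Fin n), 2 * n ≤ J.card + 3 ∧
      ∀ f : MvPolynomial (Fin n ⊕ Fin n) ℂ, f.vars ⊆ J →
        (∀ p ∈ V, MvPolynomial.eval p f = 0) → f = 0) :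
    ∃ z : Fin n → ℂ, ∀ f ∈ P,
        MvPolynomial.eval (Sum.elim z (fun i : Fin n => Complex.exp (z i))) f = 0 := by
  classical
  rcases Nat.eq_zero_or_pos n with rfl | hn
  · refine ⟨fun j => j.elim0, fun f hf => ?_⟩
    by_contra h0
    obtain ⟨a, rfl⟩ := MvPolynomial.C_surjective (Fin 0 ⊕ Fin 0) f
    rw [eval_C] at h0
    have : (1 : MvPolynomial (Fin 0 ⊕ Fin 0) ℂ) ∈ P := by
      have h1 := P.mul_mem_left (C a⁻¹) hf
      rwa [← C_mul, inv_mul_cancel₀ h0, C_1] at h1
    exact hP.ne_top ((Ideal.eq_top_iff_one P).mpr this)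
  obtain ⟨F, _, _, x, y, hFR, hker⟩ := frozen_fr0 n hn P V hP hV hadd hmul hrot
  have hvan' : ∀ f ∈ P, ∀ v ∈ V, eval v f = 0 := by
    intro f hf v hv
    rw [hV] at hv
    exact hv.1 f hf
  obtain ⟨J, hJ, hJ2⟩ := hcod
  have hind : AlgebraicIndependent ℂ (fun j : J => Sum.elim x y j) := by
    rw [algebraicIndependent_iff]
    intro g hg
    have h1 : (rename (Subtype.val : J → Fin n ⊕ Fin n) g) = 0 := by
      apply hJ2
      · intro i hi
        have h2 := vars_rename (Subtype.val : J → Fin n ⊕ Fin n) g hi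
        rw [Finset.mem_image] at h2
        obtain ⟨a, -, rfl⟩ := h2
        exact a.2
      · refine hvan' _ ((hker _).1 ?_)
        rw [aeval_rename]
        exact hg
    exact (rename_injective _ Subtype.val_injective).eq_iff' (map_zero _) |>.1 h1
  have hrk : (J.card : ℕ∞) ≤ rk (Set.range x ∪ Set.range y) := by
    have h1 := (rk_eq_iff (fun j : J => Sum.elim x y j)).2 hind
    rw [Fintype.card_coe] at h1
    rw [← h1, ← Set.Sum.elim_range]
    apply rk_mono
    rintro _ ⟨j, rfl⟩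
    exact subset_cl _ ⟨j, rfl⟩
  have hN : ((2 * n : ℕ) : ℕ∞) ≤ rk (Set.range x ∪ Set.range y) + 3 := by
    refine le_trans ?_ (add_le_add hrk le_rfl)
    exact_mod_cast hJ
  obtain ⟨z, hz⟩ := codim_three hn hFR hN
  refine ⟨z, fun f hf => ?_⟩
  exact hz.1 f ((hker f).2 hf)

end XA
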