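import Pool.Agent.Lib.MP_228259_lc.A.BE
import Pool.Agent.Lib.MP_228259_lc.A.DR
import Pool.Agent.Lib.MP_228259_lc.A.CLI

/-!
DE2: for `n = 2` there are exponential points outside the zeros of `g` (from the case `n = 3`).

PROOF. Let `b0 = aeval (Sum.elim x y) g ≠ 0`, `T = ∅`. `y 0 ∉ cl ∅` (`h.mf` with `Pi.single 0 1`, `cl_empty`,
`mo_single`). `exists_beta` (BE.lean, `m = 2`, `w = y 0`) gives `β` such that
`mo a y * (b0 * (y 0 - β)) ^ c` is not constant for all `a` and all `c ≠ 0`. Let `θ = b0 * (y 0 - β)`, `θ ≠ 0`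
(`y 0` is not constant). Let `F' = FractionRing (Polynomial F)` (a field with `ℂ → F → F'`, `F' : Type`), `ι : F →ₐ[ℂ] F'`
the inclusion, `τ ∈ F'` the image of `X`, which is transcendental over (the image of) `F`. Let
`x' = ![ι (x 0), ι (x 1), τ]`, `y' = ![ι (y 0), ι (y 1), ι θ]`. `FR0 x' y'`:
* `nz`: clear. `af`: if `m 0 x 0 + m 1 x 1 + m 2 τ = c` then `m 2 = 0` (`τ` is transcendental over `F`), so `h.af`.
* `mf`: `y 0 ^ m 0 * y 1 ^ m 1 * θ ^ m 2 = c`: `m 2 = 0` by the choice of `β`, and then `h.mf`.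
* `rot`: let `M` be a `k × 3` matrix (`1 ≤ k ≤ 3`) of rank `q`. Let `R` be the row space in `ℚ³`, `R₀ = R ∩ {v | v 2 = 0}`; choose
  an integer `k' × 2` matrix `M₀` (`k' = dim R₀ ≤ 2`) whose rows are a basis of `R₀`. Every row of `M₀` has a non-zero
  multiple which is an integer combination of rows of `M`, so `li (M₀ i) x, mo (M₀ i) y ∈ cl (range (M x') ∪ range (y'^M))`
  (in `F'`). If `R = R₀`, then `q = k' ≤ rk (..)` by `h.rot` (if `k' ≥ 1`; `cl` and `rk` are compatible with `ι`:
  `cl_map`, `indep_map`). If `R ≠ R₀` then `q = k' + 1` and some row has non-zero last entry, so some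
  `li (M i) x'` is `ι(..) + m τ` with `m ≠ 0`, transcendental over the image of `F`; so the rank is at least `k' + 1`.
`hec` gives `z` with `(z, exp z) ∈ Loc x' y'`. `(z 0, z 1)` is the point: a relation of `x, y` is a relation of `x', y'`;
and `exp (z 2) = eval (z 0, z 1; exp) g * (exp (z 0) - β)` because `θ - b0 (y 0 - β) = 0` is a polynomial relation of
`x', y'`; as `exp (z 2) ≠ 0`, `eval .. g ≠ 0`.
-/

set_option autoImplicit false

namespace XA

open MvPolynomial

/-- the linear map which appends a zero -/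
private noncomputable def de2E (n : ℕ) : (Fin n → ℚ) →ₗ[ℚ] (Fin (n + 1) → ℚ) where
  toFun w := Fin.snoc (α := fun _ => ℚ) w 0
  map_add' a b := by
    ext j
    refine Fin.lastCases ?_ (fun i => ?_) j
    · simp
    · simp
  map_smul' c a := by
    ext j
    refine Fin.lastCases ?_ (fun i => ?_) j
    · simp
    · simp

/-- the rank of a matrix as the rank of the rows -/
private theorem de2_rank {k n : ℕ} (M : Matrix (Fin k) (Fin n) ℤ) :
    (M.map (Int.cast : ℤ → ℚ)).rank =
      Module.finrank ℚ (Submodule.span ℚ (Set.range fun i => fun j => (M i j : ℚ))) := by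
  rw [Matrix.rank_eq_finrank_span_row]
  rfl

private theorem de2_rankA {k n : ℕ} (M : Matrix (Fin k) (Fin (n + 1)) ℤ)
    (hM : ∀ i, M i (Fin.last n) = 0) :
    (M.map (Int.cast : ℤ → ℚ)).rank ≤
      ((Matrix.of fun (i : Fin k) (j : Fin n) => M i j.castSucc).map (Int.cast : ℤ → ℚ)).rank := by
  rw [de2_rank, de2_rank]
  refine (Submodule.finrank_mono ?_).trans (Submodule.finrank_map_le (de2E n) _)
  rw [Submodule.span_le]
  rintro _ ⟨i, rfl⟩
  refine ⟨fun j => ((M i j.castSucc : ℤ) : ℚ), Submodule.subset_span ⟨i, rfl⟩, ?_⟩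
  ext j
  refine Fin.lastCases ?_ (fun l => ?_) j
  · simp [de2E, hM]
  · simp [de2E]

private theorem de2_rankB {k n : ℕ} (M : Matrix (Fin k) (Fin (n + 1)) ℤ) (i₀ : Fin k)
    (h0 : M i₀ (Fin.last n) ≠ 0) :
    (M.map (Int.cast : ℤ → ℚ)).rank ≤
      ((Matrix.of fun (i : Fin k) (j : Fin n) =>
        M i₀ (Fin.last n) * M i j.castSucc - M i (Fin.last n) * M i₀ j.castSucc).map
          (Int.cast : ℤ → ℚ)).rank + 1 := by
  classical
  rw [de2_rank, de2_rank]
  set W : Submodule ℚ (Fin n → ℚ) := Submodule.span ℚ (Set.range fun (i : Fin k) (j : Fin n) =>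
    (((Matrix.of fun (i : Fin k) (j : Fin n) =>
        M i₀ (Fin.last n) * M i j.castSucc - M i (Fin.last n) * M i₀ j.castSucc) i j : ℤ) : ℚ))
    with hW
  set v₀ : Fin (n + 1) → ℚ := fun j => (M i₀ j : ℚ) with hv0
  have h1 : Submodule.span ℚ (Set.range fun i => fun j => (M i j : ℚ)) ≤
      W.map (de2E n) ⊔ Submodule.span ℚ {v₀} := by
    rw [Submodule.span_le]
    rintro _ ⟨i, rfl⟩
    have h2 : (fun j => (M i j : ℚ)) =
        ((M i₀ (Fin.last n) : ℚ))⁻¹ • de2E n (fun j => (((Matrix.of fun (i : Fin k) (j : Fin n) =>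
          M i₀ (Fin.last n) * M i j.castSucc - M i (Fin.last n) * M i₀ j.castSucc) i j : ℤ) : ℚ)) +
        (((M i₀ (Fin.last n) : ℚ))⁻¹ * (M i (Fin.last n) : ℚ)) • v₀ := by
      have h3 : (M i₀ (Fin.last n) : ℚ) ≠ 0 := by exact_mod_cast h0
      ext j
      refine Fin.lastCases ?_ (fun l => ?_) j
      · simp only [de2E, LinearMap.coe_mk, AddHom.coe_mk, Pi.add_apply, Pi.smul_apply,
          Fin.snoc_last, smul_eq_mul, hv0]
        field_simp
        ring
      · simp only [de2E, LinearMap.coe_mk, AddHom.coe_mk, Pi.add_apply, Pi.smul_apply,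
          Fin.snoc_castSucc, smul_eq_mul, hv0, Matrix.of_apply]
        push_cast
        field_simp
        ring
    change (fun j => (M i j : ℚ)) ∈ W.map (de2E n) ⊔ Submodule.span ℚ {v₀}
    rw [h2]
    refine Submodule.add_mem_sup ?_ ?_
    · exact Submodule.smul_mem _ _ ⟨_, Submodule.subset_span ⟨i, rfl⟩, rfl⟩
    · exact Submodule.smul_mem _ _ (Submodule.mem_span_singleton_self v₀)
  refine (Submodule.finrank_mono h1).trans
    ((Submodule.finrank_add_le_finrank_add_finrank _ _).trans ?_)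
  refine add_le_add (Submodule.finrank_map_le _ _) ?_
  refine (finrank_span_le_card ({v₀} : Set (Fin (n + 1) → ℚ))).trans ?_
  simp

/-- rotundity for matrices with arbitrarily many rows -/
private theorem de2_rot {F : Type*} [Field F] [Algebra ℂ F] {n : ℕ} {x y : Fin n → F}
    (h : Rot x y) (k : ℕ) (M : Matrix (Fin k) (Fin n) ℤ) :
    ((M.map (Int.cast : ℤ → ℚ)).rank : ℕ∞) ≤
      rk (Set.range (fun i => li (M i) x) ∪ Set.range (fun i => mo (M i) y)) := by
  classical
  obtain ⟨κ, a, ha, hsp, hli⟩ := exists_linearIndependent' ℚ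
    (fun i : Fin k => fun j => (M i j : ℚ))
  have : Finite κ := Finite.of_injective a ha
  have : Fintype κ := Fintype.ofFinite κ
  have h1 := finrank_span_eq_card hli
  rw [hsp, ← de2_rank] at h1
  have h2 : Fintype.card κ ≤ n := by
    have h3 := hli.fintype_card_le_finrank
    rwa [Module.finrank_fin_fun] at h3
  rcases Nat.eq_zero_or_pos (Fintype.card κ) with h0 | h0
  · rw [h1, h0]
    simp
  · set e := (Fintype.equivFin κ).symm with he
    have h4 := h (Fintype.card κ) (fun i => M (a (e i))) h0 h2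
    have h5 : ((Matrix.map (fun i => M (a (e i)) : Matrix (Fin (Fintype.card κ)) (Fin n) ℤ)
        (Int.cast : ℤ → ℚ))).rank = Fintype.card κ := by
      rw [de2_rank]
      have h6 : (Set.range fun (i : Fin (Fintype.card κ)) => fun j => (M (a (e i)) j : ℚ)) =
          Set.range ((fun i : Fin k => fun j => (M i j : ℚ)) ∘ a) := by
        ext v
        constructor
        · rintro ⟨i, rfl⟩
          exact ⟨e i, rfl⟩
        · rintro ⟨i, rfl⟩
          exact ⟨e.symm i, by simp⟩
      rw [h6]
      exact finrank_span_eq_card hli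
    rw [h5] at h4
    rw [h1]
    refine h4.trans (rk_mono ?_)
    rintro _ (⟨i, rfl⟩ | ⟨i, rfl⟩)
    · exact subset_cl _ (Or.inl ⟨_, rfl⟩)
    · exact subset_cl _ (Or.inr ⟨_, rfl⟩)

/-- the rank does not decrease under an embedding -/
private theorem de2_rk {L F : Type*} [Field L] [Algebra ℂ L] [Field F] [Algebra ℂ F]
    (φ : L →ₐ[ℂ] F) (S : Set L) : rk S ≤ rk (φ '' S) := by
  obtain ⟨I, hI⟩ := (AlgebraicIndependent.matroid ℂ L).exists_isBasis S (Set.subset_univ _)
  have h1 : AlgebraicIndependent ℂ (fun i : I => (i : L)) :=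
    AlgebraicIndependent.matroid_indep_iff.1 hI.indep
  have h2 := (indep_map φ (fun i : I => (i : L))).2 h1
  have h3 : (AlgebraicIndependent.matroid ℂ F).Indep (φ '' I) := by
    have h4 := (algebraicIndependent_subtype_range h2.injective).2 h2
    have h5 : Set.range (fun i : I => φ (i : L)) = φ '' I := by
      ext b
      constructor
      · rintro ⟨i, rfl⟩
        exact ⟨i, i.2, rfl⟩
      · rintro ⟨i, hi, rfl⟩
        exact ⟨⟨i, hi⟩, rfl⟩
    rw [h5] at h4
    exact AlgebraicIndependent.matroid_indep_iff.2 h4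
  have h4 := h3.encard_le_eRk_of_subset (Set.image_mono hI.subset)
  have hφ : Function.Injective (φ : L → F) := φ.injective
  rw [hφ.encard_image] at h4
  unfold rk
  rw [← hI.encard_eq_eRk]
  exact h4

/-- an element which involves `τ` is transcendental over `F` -/
private theorem de2_tr {F F' : Type*} [Field F] [Algebra ℂ F] [Field F'] [Algebra ℂ F']
    [Algebra F F'] [IsScalarTower ℂ F F'] {τ : F'} (hτ : Transcendental F τ) (a : F) {m : ℤ}
    (hm : m ≠ 0) (S : Set F) :
    algebraMap F F' a + m * τ ∉ cl (IsScalarTower.toAlgHom ℂ F F' '' S) := by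
  rintro ⟨p, hp, hpt⟩
  have hlift : p.map (algebraMap (Algebra.adjoin ℂ (IsScalarTower.toAlgHom ℂ F F' '' S)) F') ∈
      Polynomial.lifts (algebraMap F F') := by
    rw [Polynomial.lifts_iff_coeff_lifts]
    intro j
    rw [Polynomial.coeff_map]
    have h1 : algebraMap (Algebra.adjoin ℂ (IsScalarTower.toAlgHom ℂ F F' '' S)) F' (p.coeff j) ∈
        (Algebra.adjoin ℂ S).map (IsScalarTower.toAlgHom ℂ F F') := by
      rw [AlgHom.map_adjoin]
      exact (p.coeff j).2
    rw [Subalgebra.mem_map] at h1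
    obtain ⟨b, -, hb⟩ := h1
    exact ⟨b, hb⟩
  obtain ⟨q, hq⟩ := (Polynomial.mem_lifts _).1 hlift
  have hq0 : q ≠ 0 := by
    rintro rfl
    rw [Polynomial.map_zero] at hq
    exact hp ((Polynomial.map_eq_zero_iff Subtype.val_injective).1 hq.symm)
  have halg : IsAlgebraic F (algebraMap F F' a + m * τ) := by
    refine ⟨q, hq0, ?_⟩
    rw [Polynomial.aeval_def, ← Polynomial.eval_map, hq, Polynomial.eval_map]
    exact hpt
  have hF : CharZero F := charZero_of_injective_algebraMap (algebraMap ℂ F).injective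
  have h1 : τ = algebraMap F F' ((m : F)⁻¹) * ((algebraMap F F' a + m * τ) -
      algebraMap F F' a) := by
    have h2 : (m : F) ≠ 0 := by exact_mod_cast hm
    have h3 : algebraMap F F' ((m : F)⁻¹) * (m : F') = 1 := by
      rw [← map_intCast (algebraMap F F') m, ← map_mul, inv_mul_cancel₀ h2, map_one]
    rw [add_sub_cancel_left, ← mul_assoc, h3, one_mul]
  apply hτ
  rw [h1]
  exact (isAlgebraic_algebraMap _).mul (halg.sub (isAlgebraic_algebraMap _))

private theorem de2_li_comb {F : Type*} [Field F] {n : ℕ} (x : Fin n → F) (a b : Fin n → ℤ)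
    (m c : ℤ) : li (fun j => m * a j - c * b j) x = m * li a x - c * li b x := by
  unfold li
  rw [Finset.mul_sum, Finset.mul_sum, ← Finset.sum_sub_distrib]
  refine Finset.sum_congr rfl fun j _ => ?_
  push_cast
  ring

private theorem de2_mo_comb {F : Type*} [Field F] [Algebra ℂ F] {n : ℕ} {y : Fin n → F}
    (hy : ∀ j, y j ≠ 0) (a b : Fin n → ℤ) (m c : ℤ) :
    mo (fun j => m * a j - c * b j) y = mo a y ^ m * mo b y ^ (-c) := by
  rw [← mo_smul, ← mo_smul, ← mo_add hy]
  congr 1
  funext j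
  simp only [Pi.add_apply, Pi.smul_apply, smul_eq_mul]
  ring

theorem dense_two
    (hec : ∀ (F : Type) [Field F] [Algebra ℂ F] (x y : Fin 3 → F), FR0 x y → HasExp x y)
    {F : Type} [Field F] [Algebra ℂ F] {x y : Fin 2 → F} (h : FR0 x y)
    (g : MvPolynomial (Fin 2 ⊕ Fin 2) ℂ) (hg : aeval (Sum.elim x y) g ≠ 0) :
    ∃ z : Fin 2 → ℂ, (z, fun j => Complex.exp (z j)) ∈ Loc x y ∧
      eval (Sum.elim z (fun j => Complex.exp (z j))) g ≠ 0 := by
  classical
  obtain ⟨b0, hb0⟩ : ∃ b0 : F, b0 = aeval (Sum.elim x y) g := ⟨_, rfl⟩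
  rw [← hb0] at hg
  have hF : CharZero F := charZero_of_injective_algebraMap (algebraMap ℂ F).injective
  have hw0 : y 0 ∉ cl (∅ : Set F) := by
    intro h0
    obtain ⟨c, hc⟩ := cl_empty h0
    refine h.mf (Pi.single 0 1) ?_ c ?_
    · intro h1
      have h3 := congrFun h1 0
      simp at h3
    · rw [mo_single, hc]
  obtain ⟨β, hβ⟩ := exists_beta h.nz hg hw0
  obtain ⟨θ, hθ⟩ : ∃ θ : F, θ = b0 * (y 0 - algebraMap ℂ F β) := ⟨_, rfl⟩
  have hθ0 : θ ≠ 0 := by
    rw [hθ]
    refine mul_ne_zero hg (sub_ne_zero.2 fun h1 => hw0 ?_)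
    rw [h1]
    exact cl_const β ∅
  -- the field
  set F' := RatFunc F with hF'
  set ι : F →ₐ[ℂ] F' := IsScalarTower.toAlgHom ℂ F F' with hι
  have hinj : Function.Injective ι := ι.injective
  set τ : F' := RatFunc.X with hτd
  have hτ : Transcendental F τ := RatFunc.transcendental_X
  set x' : Fin 3 → F' := Fin.snoc (α := fun _ => F') (fun i : Fin 2 => ι (x i)) τ with hx'
  set y' : Fin 3 → F' := Fin.snoc (α := fun _ => F') (fun i : Fin 2 => ι (y i)) (ι θ) with hy'
  have hxc : ∀ i : Fin 2, x' i.castSucc = ι (x i) := fun i => Fin.snoc_castSucc ..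
  have hxl : x' (Fin.last 2) = τ := Fin.snoc_last ..
  have hyc : ∀ i : Fin 2, y' i.castSucc = ι (y i) := fun i => Fin.snoc_castSucc ..
  have hyl : y' (Fin.last 2) = ι θ := Fin.snoc_last ..
  have hnz' : ∀ j, y' j ≠ 0 := by
    intro j
    refine Fin.lastCases ?_ (fun i => ?_) j
    · rw [hyl]
      exact (map_ne_zero ι).2 hθ0
    · rw [hyc]
      exact (map_ne_zero ι).2 (h.nz i)
  have hli : ∀ m : Fin 3 → ℤ, li m x' =
      ι (li (fun i : Fin 2 => m i.castSucc) x) + m (Fin.last 2) * τ := by
    intro m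
    unfold li
    rw [Fin.sum_univ_castSucc, hxl, map_sum]
    congr 1
    refine Finset.sum_congr rfl fun i _ => ?_
    rw [hxc, map_mul, map_intCast]
  have hmo : ∀ m : Fin 3 → ℤ, mo m y' =
      ι (mo (fun i : Fin 2 => m i.castSucc) y * θ ^ m (Fin.last 2)) := by
    intro m
    unfold mo
    rw [Fin.prod_univ_castSucc, hyl, map_mul, map_prod, map_zpow₀]
    congr 1
    refine Finset.prod_congr rfl fun i _ => ?_
    rw [hyc, map_zpow₀]
  have hne : ∀ m : Fin 3 → ℤ, m ≠ 0 → m (Fin.last 2) = 0 →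
      (fun i : Fin 2 => m i.castSucc) ≠ 0 := by
    intro m hm hl h1
    apply hm
    funext j
    refine Fin.lastCases ?_ (fun i => ?_) j
    · exact hl
    · exact congrFun h1 i
  have hιc : ∀ c : ℂ, algebraMap ℂ F' c = ι (algebraMap ℂ F c) := fun c => (ι.commutes c).symm
  have hfr : FR0 x' y' := by
    refine ⟨hnz', ?_, ?_, ?_⟩
    · intro m hm c hc
      rw [hli] at hc
      by_cases hl : m (Fin.last 2) = 0
      · rw [hl, Int.cast_zero, zero_mul, add_zero, hιc] at hc
        exact h.af _ (hne m hm hl) c (hinj hc)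
      · refine de2_tr hτ (li (fun i : Fin 2 => m i.castSucc) x) hl ∅ ?_
        have h1 : algebraMap F F' (li (fun i : Fin 2 => m i.castSucc) x) + m (Fin.last 2) * τ =
            algebraMap ℂ F' c := hc
        rw [h1]
        exact cl_const c _
    · intro m hm c hc
      rw [hmo, hιc] at hc
      have hc' := hinj hc
      by_cases hl : m (Fin.last 2) = 0
      · rw [hl, zpow_zero, mul_one] at hc'
        exact h.mf _ (hne m hm hl) c hc'
      · have h5 := hβ (fun i : Fin 2 => m i.castSucc) (m (Fin.last 2)) hl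
        rw [← hθ, hc'] at h5
        exact h5 (cl_const c ∅)
    · intro k M _ _
      by_cases hlast : ∀ i, M i (Fin.last 2) = 0
      · refine le_trans ?_ ((de2_rot h.rot k
          (Matrix.of fun (i : Fin k) (j : Fin 2) => M i j.castSucc)).trans
          ((de2_rk ι _).trans (rk_mono ?_)))
        · exact_mod_cast de2_rankA M hlast
        · rintro _ ⟨_, (⟨i, rfl⟩ | ⟨i, rfl⟩), rfl⟩
          · refine subset_cl _ (Or.inl ⟨i, ?_⟩)
            simp only [hli, hlast, Int.cast_zero, zero_mul, add_zero]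
            rfl
          · refine subset_cl _ (Or.inr ⟨i, ?_⟩)
            simp only [hmo, hlast, zpow_zero, mul_one]
            rfl
      · push Not at hlast
        obtain ⟨i₀, hi₀⟩ := hlast
        set W : Matrix (Fin k) (Fin 2) ℤ := Matrix.of fun (i : Fin k) (j : Fin 2) =>
          M i₀ (Fin.last 2) * M i j.castSucc - M i (Fin.last 2) * M i₀ j.castSucc with hW
        set SM : Set F' := Set.range (fun i => li (M i) x') ∪ Set.range (fun i => mo (M i) y')
          with hSM
        set SW : Set F := Set.range (fun i => li (W i) x) ∪ Set.range (fun i => mo (W i) y)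
          with hSW
        obtain ⟨K, hK⟩ := cl_field SM
        have hmem : ∀ a, a ∈ K ↔ a ∈ cl SM := fun a => by rw [← hK]; rfl
        have hsub : ι '' SW ⊆ cl SM := by
          rintro _ ⟨_, (⟨i, rfl⟩ | ⟨i, rfl⟩), rfl⟩
          · have h1 : ι (li (W i) x) = M i₀ (Fin.last 2) * li (M i) x' -
                M i (Fin.last 2) * li (M i₀) x' := by
              rw [← de2_li_comb, hli]
              have h2 : M i₀ (Fin.last 2) * M i (Fin.last 2) -
                  M i (Fin.last 2) * M i₀ (Fin.last 2) = 0 := by ring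
              rw [h2, Int.cast_zero, zero_mul, add_zero]
              rfl
            change ι (li (W i) x) ∈ cl SM
            rw [h1, ← hmem]
            exact K.sub_mem (K.mul_mem (intCast_mem K _)
              ((hmem _).2 (subset_cl _ (Or.inl ⟨i, rfl⟩)))) (K.mul_mem (intCast_mem K _)
              ((hmem _).2 (subset_cl _ (Or.inl ⟨i₀, rfl⟩))))
          · have h1 : ι (mo (W i) y) = mo (M i) y' ^ (M i₀ (Fin.last 2)) *
                mo (M i₀) y' ^ (-(M i (Fin.last 2))) := by
              rw [← de2_mo_comb hnz', hmo]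
              have h2 : M i₀ (Fin.last 2) * M i (Fin.last 2) -
                  M i (Fin.last 2) * M i₀ (Fin.last 2) = 0 := by ring
              rw [h2, zpow_zero, mul_one]
              rfl
            change ι (mo (W i) y) ∈ cl SM
            rw [h1, ← hmem]
            exact K.mul_mem (zpow_mem ((hmem _).2 (subset_cl _ (Or.inr ⟨i, rfl⟩))) _)
              (zpow_mem ((hmem _).2 (subset_cl _ (Or.inr ⟨i₀, rfl⟩))) _)
        have h3 : li (M i₀) x' ∉ cl (ι '' SW) := by
          rw [hli]
          exact de2_tr hτ (li (fun i : Fin 2 => M i₀ i.castSucc) x) hi₀ SW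
        have h4 : rk (insert (li (M i₀) x') (ι '' SW)) ≤ rk SM :=
          rk_mono (Set.insert_subset (subset_cl _ (Or.inl ⟨i₀, rfl⟩)) hsub)
        rw [rk_insert_not h3] at h4
        refine le_trans ?_ h4
        refine le_trans ?_ (add_le_add ((de2_rot h.rot k W).trans (de2_rk ι _)) le_rfl)
        exact_mod_cast de2_rankB M i₀ hi₀
  obtain ⟨z', hz', hz0⟩ := hec F' x' y' hfr
  -- the point
  set r : Fin 2 ⊕ Fin 2 → Fin 3 ⊕ Fin 3 := Sum.map Fin.castSucc Fin.castSucc with hr
  have hcomp : (Sum.elim x' y') ∘ r = fun i => ι (Sum.elim x y i) := by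
    funext i
    rcases i with i | i
    · exact hxc i
    · exact hyc i
  have hren : ∀ f : MvPolynomial (Fin 2 ⊕ Fin 2) ℂ,
      aeval (Sum.elim x' y') (rename r f) = ι (aeval (Sum.elim x y) f) := by
    intro f
    rw [aeval_rename, hcomp]
    exact (MvPolynomial.comp_aeval_apply (Sum.elim x y) ι f).symm
  set z : Fin 2 → ℂ := fun i => z' i.castSucc with hz
  have hcompz : (Sum.elim z' (fun j => Complex.exp (z' j))) ∘ r =
      Sum.elim z (fun j => Complex.exp (z j)) := by
    funext i
    rcases i with i | i <;> rfl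
  have hrenz : ∀ f : MvPolynomial (Fin 2 ⊕ Fin 2) ℂ,
      eval (Sum.elim z' (fun j => Complex.exp (z' j))) (rename r f) =
        eval (Sum.elim z (fun j => Complex.exp (z j))) f := by
    intro f
    rw [eval_rename, hcompz]
  refine ⟨z, ⟨?_, fun j => Complex.exp_ne_zero _⟩, ?_⟩
  · intro f hf
    have h1 := hz' (rename r f) (by rw [hren, hf, map_zero])
    exact (hrenz f).symm.trans h1
  · intro h0
    have h1 := hz' (X (Sum.inr (Fin.last 2)) -
      rename r g * (X (Sum.inr (Fin.castSucc 0)) - C β)) (by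
        rw [map_sub, map_mul, map_sub, aeval_X, aeval_X, hren, aeval_C]
        simp only [Sum.elim_inr]
        rw [hyl, hyc, hιc, ← map_sub, ← map_mul, ← hb0, ← hθ, sub_self])
    have h2 : eval (Sum.elim z' (fun j => Complex.exp (z' j))) (X (Sum.inr (Fin.last 2)) -
      rename r g * (X (Sum.inr (Fin.castSucc 0)) - C β)) = 0 := h1
    rw [map_sub, map_mul, hrenz, h0, zero_mul, sub_zero, eval_X] at h2
    exact Complex.exp_ne_zero _ h2

end XA
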