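import Pool.Agent.Lib.MP_228259_lc.A.DO2

/-!
DF: the dominant case in the field form (known; used to state the final theorem uniformly).

PROOF. `rk (range x) = n` by `rk_eq_iff`, `= rk (range x ∪ range y)`, so `range y ⊆ cl (range x)`
(`subset_cl_of_rk`). `dominant` with `t = x`, `u = y`, `e = id` gives `z, w` with
`IsPt (Sum.elim x y) (Sum.elim z w)` and `w i = exp (z i)`.
-/

namespace XA

open MvPolynomial

theorem hasExp_dominant {F : Type*} [Field F] [Algebra ℂ F] {n : ℕ} {x y : Fin n → F}
    (hy : ∀ j, y j ≠ 0) (hx : AlgebraicIndependent ℂ x)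
    (hr : rk (Set.range x ∪ Set.range y) = n) : HasExp x y := by
  have h1 : rk (Set.range x) = n := by
    have h := (rk_eq_iff x).2 hx
    rwa [Fintype.card_fin] at h
  have h2 : Set.range x ∪ Set.range y ⊆ cl (Set.range x) :=
    subset_cl_of_rk Set.subset_union_left (by rw [hr]; exact ENat.natCast_ne_top n) (by rw [hr, h1])
  obtain ⟨z, w, hzw, hw⟩ := dominant hx (fun i => h2 (Or.inr ⟨i, rfl⟩)) id hy
  have h3 : w = fun j => Complex.exp (z j) := funext hw
  refine ⟨z, ?_, fun j => Complex.exp_ne_zero _⟩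
  rw [h3] at hzw
  exact hzw

end XA
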