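import Mathlib

/-!
DO1: growth of polynomials in several variables.

PROOF. `upper`: induction on `f` (`MvPolynomial.induction_on`), or the sum of the norms of the
coefficients and the total degree.
`lower`: `Δ_d = homogeneousComponent d Δ ≠ 0` with `d = Δ.totalDegree`. The points `2 π i κ`,
`κ ∈ ℤᵐ`, are Zariski dense (`MvPolynomial.funext_set` or
`MvPolynomial.eq_zero_of_eval_zero_at_prod_finset`/`MvPolynomial.funext` over the infinite
set `2 π i ℤ`), so there is `κ` with `η = |Δ_d(2 π i κ)| > 0`. By continuity there is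
`ε > 0` with `|Δ_d(ζ)| ≥ η / 2` for `‖ζ - 2 π i κ‖ ≤ ε`. For `z = N ζ`:
`Δ(z) = N ^ d (Δ_d(ζ) + ∑_{e < d} N^(e - d) Δ_e(ζ))` and the `Δ_e` are bounded by some `B` on
this compact ball, so `|Δ(z)| ≥ N ^ d (η / 2 - d B / N) ≥ η / 4` for `N ≥ N₀`.
-/

namespace XA

open MvPolynomial

theorem upper {m : ℕ} (f : MvPolynomial (Fin m) ℂ) :
    ∃ (C : ℝ) (k : ℕ), 0 ≤ C ∧ ∀ z : Fin m → ℂ, ‖eval z f‖ ≤ C * (1 + ‖z‖) ^ k := by
  induction f using MvPolynomial.induction_on with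
  | C a => exact ⟨‖a‖, 0, norm_nonneg _, fun z => by simp⟩
  | add p q hp hq =>
    obtain ⟨C₁, k₁, h1, h2⟩ := hp
    obtain ⟨C₂, k₂, h3, h4⟩ := hq
    refine ⟨C₁ + C₂, max k₁ k₂, by positivity, fun z => ?_⟩
    have hz : (1 : ℝ) ≤ 1 + ‖z‖ := by linarith [norm_nonneg z]
    have e1 : (1 + ‖z‖) ^ k₁ ≤ (1 + ‖z‖) ^ (max k₁ k₂) := pow_le_pow_right₀ hz (le_max_left _ _)
    have e2 : (1 + ‖z‖) ^ k₂ ≤ (1 + ‖z‖) ^ (max k₁ k₂) := pow_le_pow_right₀ hz (le_max_right _ _)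
    rw [map_add]
    calc ‖eval z p + eval z q‖ ≤ ‖eval z p‖ + ‖eval z q‖ := norm_add_le _ _
      _ ≤ C₁ * (1 + ‖z‖) ^ k₁ + C₂ * (1 + ‖z‖) ^ k₂ := add_le_add (h2 z) (h4 z)
      _ ≤ C₁ * (1 + ‖z‖) ^ (max k₁ k₂) + C₂ * (1 + ‖z‖) ^ (max k₁ k₂) :=
        add_le_add (mul_le_mul_of_nonneg_left e1 h1) (mul_le_mul_of_nonneg_left e2 h3)
      _ = (C₁ + C₂) * (1 + ‖z‖) ^ (max k₁ k₂) := by ring
  | mul_X p i hp =>
    obtain ⟨C₁, k₁, h1, h2⟩ := hp
    refine ⟨C₁, k₁ + 1, h1, fun z => ?_⟩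
    rw [map_mul, eval_X, norm_mul, pow_succ, ← mul_assoc]
    have hz : ‖z i‖ ≤ 1 + ‖z‖ := by linarith [norm_le_pi_norm z i]
    exact mul_le_mul (h2 z) hz (norm_nonneg _) (by positivity)

/-- Values of a homogeneous polynomial at a multiple of a point. -/
private theorem do1_eval_mul {m n : ℕ} {f : MvPolynomial (Fin m) ℂ} (hf : f.IsHomogeneous n)
    (t : ℂ) (z : Fin m → ℂ) : eval (fun i => t * z i) f = t ^ n * eval z f := by
  rw [eval_eq', eval_eq', Finset.mul_sum]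
  refine Finset.sum_congr rfl fun d hd => ?_
  have h1 : d.degree = n := by
    by_contra hne
    exact (mem_support_iff.mp hd) (hf.coeff_eq_zero hne)
  have h2 : ∏ i, (t * z i) ^ d i = t ^ n * ∏ i, z i ^ d i := by
    rw [← h1, Finsupp.degree_eq_sum, ← Finset.prod_pow_eq_pow_sum, ← Finset.prod_mul_distrib]
    exact Finset.prod_congr rfl fun i _ => mul_pow _ _ _
  rw [h2]; ring

theorem lower {m : ℕ} (Δ : MvPolynomial (Fin m) ℂ) (hΔ : Δ ≠ 0) :
    ∃ (κ : Fin m → ℤ) (ε c : ℝ) (N₀ : ℕ), 0 < ε ∧ 0 < c ∧ ∀ N : ℕ, N₀ ≤ N →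
      ∀ z : Fin m → ℂ, ‖z - fun i => 2 * Real.pi * Complex.I * ((N : ℤ) * κ i : ℤ)‖ ≤ ε * N →
        c ≤ ‖eval z Δ‖ := by
  classical
  set d := Δ.totalDegree with hd
  -- the top homogeneous component
  have htop : homogeneousComponent d Δ ≠ 0 := by
    have hne : Δ.support.Nonempty := by
      rw [Finset.nonempty_iff_ne_empty]
      intro h
      exact hΔ (support_eq_empty.mp h)
    obtain ⟨s, hs, hs2⟩ := Finset.exists_mem_eq_sup Δ.support hne fun s => s.sum fun _ e => e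
    intro h0
    have h1 : coeff s (homogeneousComponent d Δ) = coeff s Δ := by
      rw [coeff_homogeneousComponent, if_pos]
      rw [hd, totalDegree, hs2]
      rfl
    rw [h0, coeff_zero] at h1
    exact (mem_support_iff.mp hs) h1.symm
  -- a lattice point where it does not vanish
  have hS : Set.Infinite {w : ℂ | ∃ k : ℤ, w = 2 * Real.pi * Complex.I * (k : ℂ)} := by
    refine Set.infinite_of_injective_forall_mem (f := fun k : ℤ => 2 * Real.pi * Complex.I * (k : ℂ))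
      ?_ fun k => ⟨k, rfl⟩
    intro a b hab
    have h2 : (2 * Real.pi * Complex.I : ℂ) ≠ 0 := Complex.two_pi_I_ne_zero
    have h3 := mul_left_cancel₀ h2 hab
    exact_mod_cast h3
  obtain ⟨κ, hκ⟩ : ∃ κ : Fin m → ℤ,
      eval (fun i => 2 * Real.pi * Complex.I * (κ i : ℂ)) (homogeneousComponent d Δ) ≠ 0 := by
    by_contra hcon
    push Not at hcon
    apply htop
    refine MvPolynomial.funext_set (fun _ => {w : ℂ | ∃ k : ℤ, w = 2 * Real.pi * Complex.I * (k : ℂ)})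
      (fun _ => hS) fun x hx => ?_
    rw [map_zero]
    have hx' : ∀ i, ∃ k : ℤ, x i = 2 * Real.pi * Complex.I * (k : ℂ) := fun i =>
      hx i (Set.mem_univ i)
    choose κ hκ using hx'
    have : x = fun i => 2 * Real.pi * Complex.I * (κ i : ℂ) := funext hκ
    rw [this]
    exact hcon κ
  set ζ₀ : Fin m → ℂ := fun i => 2 * Real.pi * Complex.I * (κ i : ℂ) with hζ₀
  -- the rescaled polynomial
  set F : (Fin m → ℂ) × ℂ → ℂ := fun p =>
    ∑ e ∈ Finset.range (d + 1), p.2 ^ (d - e) * eval p.1 (homogeneousComponent e Δ) with hF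
  have hFc : Continuous F := by
    refine continuous_finsetSum _ fun e _ => ?_
    exact (continuous_snd.pow _).mul ((MvPolynomial.continuous_eval _).comp continuous_fst)
  have hF0 : F (ζ₀, 0) = eval ζ₀ (homogeneousComponent d Δ) := by
    simp only [hF]
    rw [Finset.sum_range_succ, Finset.sum_eq_zero, zero_add, Nat.sub_self, pow_zero, one_mul]
    intro e he
    rw [zero_pow (by have := Finset.mem_range.mp he; omega), zero_mul]
  have hη : 0 < ‖F (ζ₀, 0)‖ := by rw [hF0]; exact norm_pos_iff.mpr hκ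
  have hev : ∀ᶠ p in nhds (ζ₀, (0 : ℂ)), ‖F (ζ₀, 0)‖ / 2 < ‖F p‖ :=
    (hFc.norm.continuousAt (x := (ζ₀, (0 : ℂ)))).eventually_const_lt (by linarith)
  obtain ⟨δ, hδ, hball⟩ := Metric.eventually_nhds_iff.mp hev
  obtain ⟨N₁, hN₁⟩ := exists_nat_gt (1 / δ)
  refine ⟨κ, δ / 2, ‖F (ζ₀, 0)‖ / 2, N₁ + 1, by positivity, by positivity, fun N hN z hz => ?_⟩
  have hNpos : (0 : ℝ) < N := by
    have : 0 < N := by omega
    exact_mod_cast this
  have hNc : (N : ℂ) ≠ 0 := by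
    intro h
    have : N = 0 := by exact_mod_cast h
    omega
  set ζ : Fin m → ℂ := fun i => (N : ℂ)⁻¹ * z i with hζ
  have hzζ : z = fun i => (N : ℂ) * ζ i := by
    funext i
    simp only [hζ]
    rw [← mul_assoc, mul_inv_cancel₀ hNc, one_mul]
  have hdist1 : ‖ζ - ζ₀‖ ≤ δ / 2 := by
    have h1 : ζ - ζ₀ = (N : ℂ)⁻¹ • (z - fun i => 2 * Real.pi * Complex.I * ((N : ℤ) * κ i : ℤ)) := by
      funext i
      simp only [hζ, hζ₀, Pi.sub_apply, Pi.smul_apply, smul_eq_mul]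
      push_cast
      field_simp
    rw [h1, norm_smul, norm_inv, Complex.norm_natCast]
    calc (N : ℝ)⁻¹ * ‖z - fun i => 2 * Real.pi * Complex.I * ((N : ℤ) * κ i : ℤ)‖
        ≤ (N : ℝ)⁻¹ * (δ / 2 * N) := mul_le_mul_of_nonneg_left hz (by positivity)
      _ = δ / 2 := by field_simp
  have hdist2 : ‖((N : ℂ)⁻¹) - 0‖ < δ := by
    rw [sub_zero, norm_inv, Complex.norm_natCast]
    have h2 : 1 / δ < N := hN₁.trans (by exact_mod_cast (by omega : N₁ < N))
    rw [inv_lt_comm₀ hNpos hδ]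
    simpa using h2
  have hval := hball (y := (ζ, (N : ℂ)⁻¹)) (by
    rw [Prod.dist_eq, max_lt_iff, dist_eq_norm, dist_eq_norm]
    exact ⟨lt_of_le_of_lt hdist1 (by linarith), hdist2⟩)
  have hkey : eval z Δ = (N : ℂ) ^ d * F (ζ, (N : ℂ)⁻¹) := by
    have h3 : eval z Δ = ∑ e ∈ Finset.range (d + 1), eval z (homogeneousComponent e Δ) := by
      rw [← map_sum, hd, sum_homogeneousComponent]
    rw [h3]
    simp only [hF]
    rw [Finset.mul_sum]
    refine Finset.sum_congr rfl fun e he => ?_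
    have he' : e ≤ d := by have := Finset.mem_range.mp he; omega
    have h4 : eval z (homogeneousComponent e Δ) = (N : ℂ) ^ e * eval ζ (homogeneousComponent e Δ) := by
      conv_lhs => rw [hzζ]
      exact do1_eval_mul (homogeneousComponent_isHomogeneous e Δ) _ _
    rw [h4, ← mul_assoc]
    congr 1
    have h5 : (N : ℂ) ^ d = (N : ℂ) ^ e * (N : ℂ) ^ (d - e) := by
      rw [← pow_add, Nat.add_sub_cancel' he']
    rw [h5, mul_assoc, ← mul_pow, mul_inv_cancel₀ hNc, one_pow, mul_one]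
  rw [hkey, norm_mul, norm_pow, Complex.norm_natCast]
  have hN1 : (1 : ℝ) ≤ (N : ℝ) ^ d := by
    apply one_le_pow₀
    exact_mod_cast (by omega : 1 ≤ N)
  nlinarith [norm_nonneg (F (ζ, (N : ℂ)⁻¹))]

end XA
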