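import Mathlib

/-!
Logarithms of holomorphic functions on a large ball: if `exp (-K) ≤ |Y| ≤ exp K` on the ball of
radius `R` then `log Y` has Lipschitz constant `16 K / R` on the ball of radius `R / 8`.
Application: solutions of `exp (t i) = Y i t`.
-/

namespace XA

open Filter Topology Metric

section

variable {E : Type*} [NormedAddCommGroup E] [NormedSpace ℂ E]

theorem log_branch₀ {c : E} {R : ℝ} (hR : 0 < R) {Y : E → ℂ}
    (hY : ContDiffOn ℂ 1 Y (ball c R)) (hne : ∀ t ∈ ball c R, Y t ≠ 0) :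
    ∃ l : E → ℂ, ContDiffOn ℂ 1 l (ball c R) ∧ (∀ t ∈ ball c R, Complex.exp (l t) = Y t) ∧
      |(l c).im| ≤ Real.pi := by
  have hconv : Convex ℝ (ball c R) := convex_ball c R
  have hsc : IsSimplyConnected (ball c R) := by
    have : ContractibleSpace (ball c R) := hconv.contractibleSpace ⟨c, mem_ball_self hR⟩
    change SimplyConnectedSpace (ball c R)
    infer_instance
  have hlp : LocallyPathConnectedSpace E := inferInstance
  obtain ⟨f, hfc, hf⟩ := Complex.exists_continuousOn_eqOn_exp_comp hsc isOpen_ball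
    hY.continuousOn (by rintro ⟨t, ht, h0⟩; exact hne t ht h0)
  have hf' : ∀ t ∈ ball c R, Complex.exp (f t) = Y t := fun t ht => hf ht
  have hfd : ContDiffOn ℂ 1 f (ball c R) := by
    intro t₀ ht₀
    apply ContDiffAt.contDiffWithinAt
    have hY0 : ContDiffAt ℂ 1 Y t₀ := (hY).contDiffAt (isOpen_ball.mem_nhds ht₀)
    have h1 : ContDiffAt ℂ 1 (fun t => f t₀ + Complex.log (Y t / Y t₀)) t₀ := by
      refine contDiffAt_const.add ?_
      have h2 : ContDiffAt ℂ 1 (fun t => Y t / Y t₀) t₀ := hY0.div_const _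
      refine ContDiffAt.comp t₀ (g := Complex.log) ?_ h2
      apply Complex.contDiffAt_log
      rw [div_self (hne t₀ ht₀)]
      exact Complex.one_mem_slitPlane
    refine h1.congr_of_eventuallyEq ?_
    have hcont : ContinuousAt f t₀ := hfc.continuousAt (isOpen_ball.mem_nhds ht₀)
    have h3 : ∀ᶠ t in 𝓝 t₀, ‖f t - f t₀‖ < Real.pi := by
      have h4 : Tendsto (fun t => ‖f t - f t₀‖) (𝓝 t₀) (𝓝 0) := by
        have h5 : ContinuousAt (fun t => ‖f t - f t₀‖) t₀ :=
          (hcont.sub continuousAt_const).norm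
        have h6 := h5.tendsto
        simpa using h6
      exact h4.eventually (gt_mem_nhds Real.pi_pos)
    filter_upwards [h3, isOpen_ball.mem_nhds ht₀] with t h4 h5
    have h6 : Y t / Y t₀ = Complex.exp (f t - f t₀) := by
      rw [Complex.exp_sub, hf' t h5, hf' t₀ ht₀]
    have h7 : |(f t - f t₀).im| < Real.pi := (Complex.abs_im_le_norm _).trans_lt h4
    rw [h6, Complex.log_exp (by linarith [(abs_lt.1 h7).1]) (by linarith [(abs_lt.1 h7).2])]
    ring
  have hpi := Real.pi_pos
  set n : ℤ := round ((f c).im / (2 * Real.pi)) with hn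
  refine ⟨fun t => f t - n * (2 * Real.pi * Complex.I), hfd.sub contDiffOn_const, ?_, ?_⟩
  · intro t ht
    rw [Complex.exp_sub, Complex.exp_int_mul_two_pi_mul_I, div_one]
    exact hf' t ht
  · have h1 := abs_sub_round ((f c).im / (2 * Real.pi))
    rw [← hn] at h1
    have h2 : (f c - n * (2 * Real.pi * Complex.I)).im =
        ((f c).im / (2 * Real.pi) - n) * (2 * Real.pi) := by
      have h3 : ((n : ℂ) * (2 * Real.pi * Complex.I)).im = n * (2 * Real.pi) := by
        have : (n : ℂ) * (2 * Real.pi * Complex.I) = ((n * (2 * Real.pi) : ℝ) : ℂ) * Complex.I := by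
          push_cast; ring
        rw [this, Complex.mul_im, Complex.ofReal_re, Complex.ofReal_im, Complex.I_im, Complex.I_re]
        ring
      rw [Complex.sub_im, h3]
      field_simp
    rw [h2, abs_mul, abs_of_pos (by positivity : (0 : ℝ) < 2 * Real.pi)]
    nlinarith

theorem log_branch {c : E} {R K : ℝ} (hR : 0 < R) (hK : 0 < K) {Y : E → ℂ}
    (hY : ContDiffOn ℂ 1 Y (ball c R))
    (hb : ∀ t ∈ ball c R, Real.exp (-K) ≤ ‖Y t‖ ∧ ‖Y t‖ ≤ Real.exp K) :
    ∃ l : E → ℂ, ContDiffOn ℂ 1 l (ball c R) ∧ (∀ t ∈ ball c R, Complex.exp (l t) = Y t) ∧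
      ‖l c‖ ≤ K + Real.pi ∧
      ∀ t ∈ ball c (R / 8), ∀ t' ∈ ball c (R / 8), ‖l t' - l t‖ ≤ 16 * K / R * ‖t' - t‖ := by
  have hne : ∀ t ∈ ball c R, Y t ≠ 0 := fun t ht h => by
    have h1 := (hb t ht).1
    rw [h, norm_zero] at h1
    linarith [Real.exp_pos (-K)]
  obtain ⟨l, hl, hle, hlc⟩ := log_branch₀ hR hY hne
  have hre : ∀ t ∈ ball c R, |(l t).re| ≤ K := by
    intro t ht
    have h1 : ‖Y t‖ = Real.exp (l t).re := by rw [← hle t ht, Complex.norm_exp]
    obtain ⟨h2, h3⟩ := hb t ht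
    rw [h1] at h2 h3
    rw [abs_le]
    exact ⟨Real.exp_le_exp.1 h2, Real.exp_le_exp.1 h3⟩
  refine ⟨l, hl, hle, ?_, ?_⟩
  · have h1 := Complex.norm_le_abs_re_add_abs_im (l c)
    linarith [hre c (mem_ball_self hR)]
  · intro t ht t' ht'
    rcases eq_or_ne t' t with rfl | hne'
    · simp
    have hpos : 0 < ‖t' - t‖ := norm_pos_iff.2 (sub_ne_zero.2 hne')
    have hdist : ‖t' - t‖ < R / 4 := by
      have h1 : ‖t' - t‖ ≤ ‖t' - c‖ + ‖t - c‖ := by
        have : t' - t = (t' - c) - (t - c) := by abel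
        rw [this]; exact norm_sub_le _ _
      rw [mem_ball_iff_norm] at ht ht'
      linarith
    set ρ : ℝ := R / 2 / ‖t' - t‖ with hρ
    have hρ2 : 2 < ρ := by
      rw [hρ, lt_div_iff₀ hpos]
      linarith
    have hmem : ∀ s ∈ ball (0 : ℂ) ρ, t + s • (t' - t) ∈ ball c R := by
      intro s hs
      rw [mem_ball_zero_iff] at hs
      rw [mem_ball_iff_norm]
      have h1 : ‖s • (t' - t)‖ < R / 2 := by
        rw [norm_smul]
        calc ‖s‖ * ‖t' - t‖ < ρ * ‖t' - t‖ := by gcongr
          _ = R / 2 := by rw [hρ]; field_simp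
      rw [mem_ball_iff_norm] at ht
      calc ‖t + s • (t' - t) - c‖ = ‖(t - c) + s • (t' - t)‖ := by congr 1; abel
        _ ≤ ‖t - c‖ + ‖s • (t' - t)‖ := norm_add_le _ _
        _ < R := by linarith
    let F : ℂ → ℂ := fun s => l (t + s • (t' - t)) - l t
    have hF : DifferentiableOn ℂ F (ball 0 ρ) := by
      refine DifferentiableOn.sub_const ?_ _
      refine (hl.differentiableOn (by norm_num)).comp ?_ hmem
      fun_prop
    have htR : t ∈ ball c R := ball_subset_ball (by linarith) ht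
    have hFM : Set.MapsTo F (ball 0 ρ) {z | z.re ≤ 2 * K} := by
      intro s hs
      have h1 := abs_le.1 (hre _ (hmem s hs))
      have h2 := abs_le.1 (hre t htR)
      change (l (t + s • (t' - t)) - l t).re ≤ 2 * K
      rw [Complex.sub_re]
      linarith [h1.2, h2.1]
    have h1 := Complex.borelCaratheodory_zero (by linarith : (0 : ℝ) < 2 * K) hF hFM
      (by linarith : 0 < ρ) (z := 1) (by rw [mem_ball_zero_iff, norm_one]; linarith)
      (by simp [F])
    have h2 : F 1 = l t' - l t := by simp [F]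
    rw [h2, norm_one] at h1
    refine h1.trans ?_
    have h3 : ρ / 2 ≤ ρ - 1 := by linarith
    calc 2 * (2 * K) * 1 / (ρ - 1) ≤ 2 * (2 * K) * 1 / (ρ / 2) := by gcongr
      _ = 16 * K / R * ‖t' - t‖ := by rw [hρ]; field_simp; ring

end

/-- exponential points of dominant type from holomorphic functions of moderate growth -/
theorem exp_point {m : ℕ} (k : Fin m → ℤ) {R K : ℝ} (hK : 0 < K) (hR : 32 * (K + Real.pi) ≤ R)
    (c : Fin m → ℂ) (hc : ∀ i, c i = 2 * Real.pi * Complex.I * k i)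
    (Y : Fin m → (Fin m → ℂ) → ℂ) (hY : ∀ i, ContDiffOn ℂ 1 (Y i) (ball c R))
    (hb : ∀ i, ∀ t ∈ ball c R, Real.exp (-K) ≤ ‖Y i t‖ ∧ ‖Y i t‖ ≤ Real.exp K) :
    ∃ t ∈ ball c (R / 8), ∀ i, Complex.exp (t i) = Y i t := by
  have hpi := Real.pi_pos
  have hR0 : 0 < R := by nlinarith
  choose l hl hle hlc hlip using fun i => log_branch hR0 hK (hY i) (hb i)
  let G : (Fin m → ℂ) → (Fin m → ℂ) := fun t => c + fun i => l i t
  set r : ℝ := 2 * (K + Real.pi) with hr
  have hr0 : 0 < r := by positivity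
  have hr8 : r < R / 8 := by rw [hr]; linarith
  have hsub : closedBall c r ⊆ ball c (R / 8) := closedBall_subset_ball hr8
  have hGlip : ∀ t ∈ closedBall c r, ∀ t' ∈ closedBall c r, ‖G t' - G t‖ ≤ 1 / 2 * ‖t' - t‖ := by
    intro t ht t' ht'
    rw [pi_norm_le_iff_of_nonneg (by positivity)]
    intro i
    have h1 : (G t' - G t) i = l i t' - l i t := by simp [G]
    rw [h1]
    refine (hlip i t (hsub ht) t' (hsub ht')).trans ?_
    have : 16 * K / R ≤ 1 / 2 := by
      rw [div_le_iff₀ hR0]; nlinarith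
    gcongr
  have hGc : ‖G c - c‖ ≤ r / 2 := by
    rw [pi_norm_le_iff_of_nonneg (by positivity)]
    intro i
    have h1 : (G c - c) i = l i c := by simp [G]
    rw [h1, hr]
    linarith [hlc i]
  have hmaps : Set.MapsTo G (closedBall c r) (closedBall c r) := by
    intro t ht
    rw [mem_closedBall_iff_norm] at ht ⊢
    have h1 := hGlip c (mem_closedBall_self hr0.le) t (by rwa [mem_closedBall_iff_norm])
    calc ‖G t - c‖ = ‖(G t - G c) + (G c - c)‖ := by congr 1; abel
      _ ≤ ‖G t - G c‖ + ‖G c - c‖ := norm_add_le _ _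
      _ ≤ r := by linarith
  have hcontr : ContractingWith (1 / 2) (hmaps.restrict G (closedBall c r) (closedBall c r)) := by
    refine ⟨by norm_num, ?_⟩
    apply LipschitzWith.of_dist_le_mul
    intro x y
    have h1 := hGlip y y.2 x x.2
    rw [Subtype.dist_eq, Subtype.dist_eq, dist_eq_norm, dist_eq_norm]
    simpa using h1
  obtain ⟨t, ht, hfix, -⟩ := ContractingWith.exists_fixedPoint' isClosed_closedBall.isComplete
    hmaps hcontr (mem_closedBall_self hr0.le) (edist_ne_top _ _)
  have htR : t ∈ ball c R := ball_subset_ball (by linarith) (hsub ht)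
  refine ⟨t, hsub ht, fun i => ?_⟩
  have h1 : t i = c i + l i t := by
    have := congrFun hfix i
    simpa [G] using this.symm
  rw [h1, Complex.exp_add, hle i t htR, hc i]
  have : Complex.exp (2 * Real.pi * Complex.I * k i) = 1 := by
    rw [mul_comm, Complex.exp_int_mul_two_pi_mul_I]
  rw [this, one_mul]

end XA
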