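import Pool.Agent.Lib.MP_228259_lc.A.PG1

/-!
PG2: points of a presentation. `s : S → ℂ` is a ring homomorphism which kills the kernel of `ρ` and
does not kill `δ`; `θ₀` is a root of `χ` over `s`.

PROOF. `simple`: apply `s` to the Bezout identity: `U(θ₀) χ(θ₀) + W(θ₀) χ'(θ₀) = s(δ) ≠ 0`
(a polynomial `N` over `S` with `N.map ρ = 0` has all coefficients in `ker ρ ⊆ ker s`, so
`N.eval₂ s θ₀ = 0`).
`point`: as in `pres_points` of Pool/Agent/Lib/MP_228259_lc/C4b.lean (graph trick). The set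
`Γ = {(b, z) ∈ F × ℂ | ∃ N G, ρ(δ)^N b = G(θ), s(δ)^N z = G(θ₀)}` is a subring of `F × ℂ` which
contains `(ρ r, s r)` for `r ∈ S` and `(u i, A_i(θ₀) / s(δ))` for all `i`. If `(0, z) ∈ Γ` then
`G(θ) = 0`, so `G - χ Q` has coefficients in `ker ρ`, so `G(θ₀) = χ(θ₀) Q(θ₀) = 0` and `z = 0`.
For `f ∈ S[X_1, ..., X_N]` the pair `(f(u), f(p))` is in `Γ` (induction on `f`, or
`MvPolynomial.eval₂` of the ring hom `S → F × ℂ`).
-/

namespace XA

open MvPolynomial

private theorem pg2_kill {S F : Type*} [CommRing S] [Field F] {ρ : S →+* F} (s : S →+* ℂ)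
    (hs : ∀ r, ρ r = 0 → s r = 0) (G : Polynomial S) (hG : G.map ρ = 0) : G.map s = 0 := by
  ext i
  rw [Polynomial.coeff_map, Polynomial.coeff_zero]
  apply hs
  rw [← Polynomial.coeff_map, hG, Polynomial.coeff_zero]

theorem pg_simple {S F : Type*} [CommRing S] [Field F] {ρ : S →+* F} {N : ℕ} {u : Fin N → F}
    {θ : F} {δ : S} {χ : Polynomial S} {A : Fin N → Polynomial S} (h : PG ρ u θ δ χ A)
    (s : S →+* ℂ) (hs : ∀ r, ρ r = 0 → s r = 0) (hδ : s δ ≠ 0) (θ₀ : ℂ)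
    (hθ : (χ.map s).eval θ₀ = 0) : (χ.map s).derivative.eval θ₀ ≠ 0 := by
  obtain ⟨U, W, hUW⟩ := h.bez
  have h1 := pg2_kill s hs _ hUW
  have h2 := congrArg (Polynomial.eval θ₀) h1
  rw [Polynomial.map_sub, Polynomial.map_add, Polynomial.map_mul, Polynomial.map_mul,
    Polynomial.map_C, ← Polynomial.derivative_map, Polynomial.eval_sub, Polynomial.eval_add,
    Polynomial.eval_mul, Polynomial.eval_mul, Polynomial.eval_C, hθ, mul_zero, zero_add,
    Polynomial.eval_zero] at h2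
  intro h3
  rw [h3, mul_zero, zero_sub, neg_eq_zero] at h2
  exact hδ h2

theorem pg_point {S F : Type*} [CommRing S] [Field F] {ρ : S →+* F} {N : ℕ} {u : Fin N → F}
    {θ : F} {δ : S} {χ : Polynomial S} {A : Fin N → Polynomial S} (h : PG ρ u θ δ χ A)
    (s : S →+* ℂ) (hs : ∀ r, ρ r = 0 → s r = 0) (hδ : s δ ≠ 0) (θ₀ : ℂ)
    (hθ : (χ.map s).eval θ₀ = 0) (f : MvPolynomial (Fin N) S) (hf : eval₂ ρ u f = 0) :
    eval₂ s (fun i => ((A i).map s).eval θ₀ / s δ) f = 0 := by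
  set p : Fin N → ℂ := fun i => ((A i).map s).eval θ₀ / s δ with hp
  have key : ∀ f : MvPolynomial (Fin N) S, ∃ (M : ℕ) (G : Polynomial S),
      ρ δ ^ M * eval₂ ρ u f = G.eval₂ ρ θ ∧ s δ ^ M * eval₂ s p f = (G.map s).eval θ₀ := by
    intro f
    induction f using MvPolynomial.induction_on with
    | C a =>
      refine ⟨0, Polynomial.C a, ?_, ?_⟩
      · rw [eval₂_C, Polynomial.eval₂_C, pow_zero, one_mul]
      · rw [eval₂_C, Polynomial.map_C, Polynomial.eval_C, pow_zero, one_mul]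
    | add a b ha hb =>
      obtain ⟨M₁, G₁, h1, h2⟩ := ha
      obtain ⟨M₂, G₂, h3, h4⟩ := hb
      refine ⟨M₁ + M₂, Polynomial.C (δ ^ M₂) * G₁ + Polynomial.C (δ ^ M₁) * G₂, ?_, ?_⟩
      · rw [eval₂_add, Polynomial.eval₂_add, Polynomial.eval₂_mul, Polynomial.eval₂_mul,
          Polynomial.eval₂_C, Polynomial.eval₂_C, ← h1, ← h3, map_pow, map_pow, pow_add]
        ring
      · rw [eval₂_add, Polynomial.map_add, Polynomial.map_mul, Polynomial.map_mul,
          Polynomial.map_C, Polynomial.map_C, Polynomial.eval_add, Polynomial.eval_mul,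
          Polynomial.eval_mul, Polynomial.eval_C, Polynomial.eval_C, ← h2, ← h4, map_pow,
          map_pow, pow_add]
        ring
    | mul_X a i ha =>
      obtain ⟨M₁, G₁, h1, h2⟩ := ha
      refine ⟨M₁ + 1, G₁ * A i, ?_, ?_⟩
      · rw [eval₂_mul, eval₂_X, Polynomial.eval₂_mul, h.gen i, ← h1, pow_succ]
        ring
      · rw [eval₂_mul, eval₂_X, Polynomial.map_mul, Polynomial.eval_mul, ← h2, pow_succ]
        have h3 : s δ * p i = ((A i).map s).eval θ₀ := by
          rw [hp]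
          field_simp
        rw [← h3]
        ring
  obtain ⟨M, G, h1, h2⟩ := key f
  rw [hf, mul_zero] at h1
  obtain ⟨Q, hQ⟩ := h.quot G h1.symm
  have h3 := pg2_kill s hs _ hQ
  rw [Polynomial.map_sub, Polynomial.map_mul, sub_eq_zero] at h3
  rw [h3, Polynomial.eval_mul, hθ, zero_mul] at h2
  exact (mul_eq_zero.1 h2).resolve_left (pow_ne_zero _ hδ)

end XA
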