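import Pool.Agent.Lib.MP_228259_lc.A.DO1
import Pool.Agent.Lib.MP_228259_lc.A.PG2
import Pool.Agent.Lib.MP_228259_lc.A.CL2
import Pool.Agent.Lib.MP_228259_lc.A.BR2
import Pool.Agent.Lib.MP_228259_lc.A.LB

/-!
DO2: the dominant case (`t_1, ..., t_m` algebraically independent, the `u_i` algebraic over `ℂ(t)`).

PROOF. Presentation `pres1` with `S = MvPolynomial (Fin m) ℂ`, `ρ = aeval t` (injective, as `t` is
algebraically independent) and the family `u' = Fin.append u (u ∘ e)⁻¹ : Fin (N + m) → F` (the elements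
are in `cl (range t)`, so algebraic over `adjoin ℂ (range t) = ρ.range`; lift the coefficients).
Let `(θ, δ, χ, A)` be the presentation, `δ ≠ 0`. `lower` for `Δ = δ` gives `κ, ε, c, N₀`.
For `N ≥ N₀` let `Ω = ball (2 π i N κ) (ε N)`, convex and open; on `Ω` `|δ| ≥ c`, so with
`a i z = eval z (χ.coeff i)` (`i < d = χ.natDegree`) all roots of `mp a z` are simple (`pg_simple`
with `s = eval z`; `mp a z T = (χ.map s).eval T` and `mp' a z T = (χ.map s).derivative.eval T` as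
`χ` is monic). `branch` gives `θ : Ω → ℂ`, `C^1`, with `χ(z, θ(z)) = 0` (the root at the centre
exists as `d > 0`, `ℂ` algebraically closed). Let `p_i(z) = (A_i(z, θ(z))) / δ(z)`: `C^1` on `Ω`, by
`pg_point` a specialisation of `(t, u')` over `s = eval z`. `|θ(z)| ≤ 1 + ∑ |a_i(z)|` (`mp_bound`),
so by `upper` there are `C, k` (independent of `N`) with `|p_i(z)| ≤ C N ^ k` for all `i` and
`z ∈ Ω`, `N ≥ 1`. `Y_i = p_{castAdd (e i)}` and `1 / Y_i = p_{natAdd i}` (`pg_point` with the relation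
`X_{castAdd (e i)} X_{natAdd i} - 1`), so `e^{-K} ≤ |Y_i| ≤ e^K` with `K = log C + k log N`
(take `C ≥ 3`). For `N` large `32 (K + π) ≤ ε N`: `exp_point` gives `z ∈ Ω` with
`exp (z i) = Y_i(z)`. Take `w = p(z)` restricted to the first `N` coordinates. For `f` with
`aeval (Sum.elim t u) f = 0` apply `pg_point` to the image of `f` under `inl j ↦ C (X j)`,
`inr i ↦ X (castAdd i)`.
-/
namespace XA

open MvPolynomial

/-- elements of `cl (range t)` are roots of non-zero polynomials over `ℂ[t]` -/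
theorem do2_alg {F : Type*} [Field F] [Algebra ℂ F] {m : ℕ} {t : Fin m → F}
    (ht : AlgebraicIndependent ℂ t) {a : F} (ha : a ∈ cl (Set.range t)) :
    ∃ G : Polynomial (MvPolynomial (Fin m) ℂ),
      G.map ((aeval t : MvPolynomial (Fin m) ℂ →ₐ[ℂ] F) : MvPolynomial (Fin m) ℂ →+* F) ≠ 0 ∧
      G.eval₂ ((aeval t : MvPolynomial (Fin m) ℂ →ₐ[ℂ] F) : MvPolynomial (Fin m) ℂ →+* F) a = 0 := by
  obtain ⟨p, hp0, hp⟩ : ∃ p : Polynomial (Algebra.adjoin ℂ (Set.range t)), p ≠ 0 ∧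
    Polynomial.aeval a p = 0 := ha
  have hcomp : (((aeval t : MvPolynomial (Fin m) ℂ →ₐ[ℂ] F) :
      MvPolynomial (Fin m) ℂ →+* F)).comp
      ((ht.aevalEquiv.symm : Algebra.adjoin ℂ (Set.range t) ≃ₐ[ℂ] MvPolynomial (Fin m) ℂ) :
        Algebra.adjoin ℂ (Set.range t) →+* MvPolynomial (Fin m) ℂ) =
      algebraMap (Algebra.adjoin ℂ (Set.range t)) F := by
    ext x
    have h1 := ht.algebraMap_aevalEquiv (ht.aevalEquiv.symm x)
    rw [AlgEquiv.apply_symm_apply] at h1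
    exact h1.symm
  refine ⟨p.map ((ht.aevalEquiv.symm : Algebra.adjoin ℂ (Set.range t) ≃ₐ[ℂ]
    MvPolynomial (Fin m) ℂ) : Algebra.adjoin ℂ (Set.range t) →+* MvPolynomial (Fin m) ℂ), ?_, ?_⟩
  · rw [Polynomial.map_map, hcomp]
    intro h
    apply hp0
    have hinj : Function.Injective (algebraMap (Algebra.adjoin ℂ (Set.range t)) F) :=
      Subtype.val_injective
    exact (Polynomial.map_eq_zero_iff hinj).1 h
  · rw [Polynomial.eval₂_map, hcomp]
    exact hp

/-- polynomial growth of polynomial functions on the roots of a monic polynomial -/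
theorem do2_mp {m : ℕ} (χ : Polynomial (MvPolynomial (Fin m) ℂ)) (hχ : χ.Monic)
    (z : Fin m → ℂ) (T : ℂ) :
    mp (fun (i : Fin χ.natDegree) (z : Fin m → ℂ) => eval z (χ.coeff i)) z T =
      (χ.map (eval z)).eval T := by
  rw [Polynomial.eval_eq_sum_range, hχ.natDegree_map, Finset.sum_range_succ, Finset.sum_range]
  unfold mp
  rw [Polynomial.coeff_map, hχ.coeff_natDegree, map_one, one_mul, add_comm]
  simp only [Polynomial.coeff_map]

theorem do2_mp' {m : ℕ} (χ : Polynomial (MvPolynomial (Fin m) ℂ)) (hχ : χ.Monic)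
    (z : Fin m → ℂ) (T : ℂ) :
    mp' (fun (i : Fin χ.natDegree) (z : Fin m → ℂ) => eval z (χ.coeff i)) z T =
      (χ.map (eval z)).derivative.eval T := by
  have h1 := mp_hasDerivAt (fun (i : Fin χ.natDegree) (z : Fin m → ℂ) => eval z (χ.coeff i)) z T
  have h2 := (χ.map (eval z)).hasDerivAt T
  have h3 : (fun T => mp (fun (i : Fin χ.natDegree) (z : Fin m → ℂ) => eval z (χ.coeff i)) z T) =
      fun T => (χ.map (eval z)).eval T := by
    funext T
    exact do2_mp χ hχ z T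
  rw [h3] at h1
  exact h1.unique h2

theorem do2_root {m : ℕ} (χ : Polynomial (MvPolynomial (Fin m) ℂ)) (hχ : χ.Monic)
    (hd : 0 < χ.natDegree) :
    ∃ (C : ℝ) (k : ℕ), 0 ≤ C ∧ ∀ (z : Fin m → ℂ) (T : ℂ), (χ.map (eval z)).eval T = 0 →
      ‖T‖ ≤ C * (1 + ‖z‖) ^ k := by
  choose C k hC hk using fun i : Fin χ.natDegree => upper (χ.coeff i)
  refine ⟨1 + ∑ i, C i, ∑ i, k i, ?_, ?_⟩
  · have : 0 ≤ ∑ i, C i := Finset.sum_nonneg fun i _ => hC i
    linarith
  · intro z T hT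
    have h1 := mp_bound hd (fun (i : Fin χ.natDegree) (z : Fin m → ℂ) => eval z (χ.coeff i)) z T
    rw [do2_mp χ hχ, hT, norm_zero, add_zero] at h1
    have hB : 1 ≤ 1 + ‖z‖ := by linarith [norm_nonneg z]
    have h2 : ∀ i : Fin χ.natDegree, ‖eval z (χ.coeff i)‖ ≤ C i * (1 + ‖z‖) ^ (∑ i, k i) := by
      intro i
      refine (hk i z).trans (mul_le_mul_of_nonneg_left ?_ (hC i))
      exact pow_le_pow_right₀ hB (Finset.single_le_sum (f := k) (fun j _ => Nat.zero_le _)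
        (Finset.mem_univ i))
    have h3 : ∑ i : Fin χ.natDegree, ‖eval z (χ.coeff i)‖ ≤
        (∑ i, C i) * (1 + ‖z‖) ^ (∑ i, k i) := by
      rw [Finset.sum_mul]
      exact Finset.sum_le_sum fun i _ => h2 i
    have h4 : 1 ≤ (1 + ‖z‖) ^ (∑ i, k i) := one_le_pow₀ hB
    calc ‖T‖ ≤ 1 + ∑ i : Fin χ.natDegree, ‖eval z (χ.coeff i)‖ := h1
      _ ≤ (1 + ‖z‖) ^ (∑ i, k i) + (∑ i, C i) * (1 + ‖z‖) ^ (∑ i, k i) := by linarith
      _ = _ := by ring

theorem do2_upper {m : ℕ} (χ : Polynomial (MvPolynomial (Fin m) ℂ)) (hχ : χ.Monic)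
    (hd : 0 < χ.natDegree) (P : Polynomial (MvPolynomial (Fin m) ℂ)) :
    ∃ (C : ℝ) (k : ℕ), 0 ≤ C ∧ ∀ (z : Fin m → ℂ) (T : ℂ), (χ.map (eval z)).eval T = 0 →
      ‖(P.map (eval z)).eval T‖ ≤ C * (1 + ‖z‖) ^ k := by
  obtain ⟨C₀, k₀, hC₀, h₀⟩ := do2_root χ hχ hd
  induction P using Polynomial.induction_on' with
  | add p q hp hq =>
    obtain ⟨C₁, k₁, hC₁, h₁⟩ := hp
    obtain ⟨C₂, k₂, hC₂, h₂⟩ := hq
    refine ⟨C₁ + C₂, k₁ + k₂, add_nonneg hC₁ hC₂, fun z T hT => ?_⟩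
    have hB : 1 ≤ 1 + ‖z‖ := by linarith [norm_nonneg z]
    rw [Polynomial.map_add, Polynomial.eval_add, add_mul]
    refine (norm_add_le _ _).trans (add_le_add ?_ ?_)
    · refine (h₁ z T hT).trans (mul_le_mul_of_nonneg_left ?_ hC₁)
      exact pow_le_pow_right₀ hB (Nat.le_add_right _ _)
    · refine (h₂ z T hT).trans (mul_le_mul_of_nonneg_left ?_ hC₂)
      exact pow_le_pow_right₀ hB (Nat.le_add_left _ _)
  | monomial n a =>
    obtain ⟨C₁, k₁, hC₁, h₁⟩ := upper a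
    refine ⟨C₁ * C₀ ^ n, k₁ + k₀ * n, by positivity, fun z T hT => ?_⟩
    rw [Polynomial.map_monomial, Polynomial.eval_monomial, norm_mul, norm_pow]
    calc ‖eval z a‖ * ‖T‖ ^ n ≤ (C₁ * (1 + ‖z‖) ^ k₁) * (C₀ * (1 + ‖z‖) ^ k₀) ^ n := by
          gcongr
          · exact h₁ z
          · exact h₀ z T hT
      _ = _ := by rw [mul_pow, ← pow_mul]; ring

theorem do2_contDiff {m : ℕ} (f : MvPolynomial (Fin m) ℂ) :
    ContDiff ℂ 1 (fun z : Fin m → ℂ => eval z f) := by
  induction f using MvPolynomial.induction_on with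
  | C a => simp only [eval_C]; exact contDiff_const
  | add p q hp hq => simp only [map_add]; exact hp.add hq
  | mul_X p i hp =>
    simp only [map_mul, eval_X]
    exact hp.mul (contDiff_apply ℂ ℂ i)

theorem do2_contDiffOn {m : ℕ} (P : Polynomial (MvPolynomial (Fin m) ℂ)) {Ω : Set (Fin m → ℂ)}
    {θ : (Fin m → ℂ) → ℂ} (hθ : ContDiffOn ℂ 1 θ Ω) :
    ContDiffOn ℂ 1 (fun z => (P.map (eval z)).eval (θ z)) Ω := by
  induction P using Polynomial.induction_on' with
  | add p q hp hq =>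
    simp only [Polynomial.map_add, Polynomial.eval_add]
    exact hp.add hq
  | monomial n a =>
    simp only [Polynomial.map_monomial, Polynomial.eval_monomial]
    exact (do2_contDiff a).contDiffOn.mul (hθ.pow n)

/-- the logarithm of a polynomial in `N` is small against `N` -/
theorem do2_log {C ε : ℝ} (hε : 0 < ε) (k N₀ : ℕ) :
    ∃ N : ℕ, N₀ ≤ N ∧ 1 ≤ N ∧ 32 * ((C + k * Real.log N) + Real.pi) ≤ ε * N := by
  have h1 : ∀ᶠ x : ℝ in Filter.atTop, ‖Real.log x‖ ≤ (ε / (64 * (k + 1))) * ‖id x‖ :=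
    Real.isLittleO_log_id_atTop.def (by positivity)
  have h2 : ∀ᶠ N : ℕ in Filter.atTop, ‖Real.log N‖ ≤ (ε / (64 * (k + 1))) * ‖id (N : ℝ)‖ :=
    tendsto_natCast_atTop_atTop.eventually h1
  have h3 : ∀ᶠ N : ℕ in Filter.atTop, 64 * (C + Real.pi) / ε ≤ (N : ℝ) :=
    tendsto_natCast_atTop_atTop.eventually (Filter.eventually_ge_atTop _)
  obtain ⟨N, ha, hb, hc, hd⟩ := (h2.and (h3.and ((Filter.eventually_ge_atTop N₀).and
    (Filter.eventually_ge_atTop 1)))).exists
  refine ⟨N, hc, hd, ?_⟩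
  have h4 : Real.log N ≤ ε / (64 * (k + 1)) * N := by
    refine (le_abs_self _).trans ?_
    have h5 := ha
    simp only [id, Real.norm_eq_abs, Nat.abs_cast] at h5
    exact h5
  have h5 : 64 * (C + Real.pi) ≤ ε * N := by
    rw [div_le_iff₀ hε] at hb
    linarith
  have h6 : (k : ℝ) * Real.log N ≤ ε / 64 * N := by
    calc (k : ℝ) * Real.log N ≤ k * (ε / (64 * (k + 1)) * N) := by
          apply mul_le_mul_of_nonneg_left h4 (Nat.cast_nonneg k)
      _ = (k / (k + 1)) * (ε / 64 * N) := by field_simp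
      _ ≤ 1 * (ε / 64 * N) := by
          apply mul_le_mul_of_nonneg_right _ (by positivity)
          rw [div_le_one (by positivity)]
          linarith
      _ = _ := by ring
  linarith

theorem dominant {F : Type*} [Field F] [Algebra ℂ F] {m N : ℕ} {t : Fin m → F}
    (ht : AlgebraicIndependent ℂ t) {u : Fin N → F} (hu : ∀ i, u i ∈ cl (Set.range t))
    (e : Fin m → Fin N) (he : ∀ i, u (e i) ≠ 0) :
    ∃ (z : Fin m → ℂ) (w : Fin N → ℂ), IsPt (Sum.elim t u) (Sum.elim z w) ∧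
      ∀ i, w (e i) = Complex.exp (z i) := by
  classical
  have hchar : CharZero F := charZero_of_injective_algebraMap (algebraMap ℂ F).injective
  set ρ : MvPolynomial (Fin m) ℂ →+* F :=
    ((aeval t : MvPolynomial (Fin m) ℂ →ₐ[ℂ] F) : MvPolynomial (Fin m) ℂ →+* F) with hρ
  have hρinj : Function.Injective ρ := ht
  set u' : Fin (N + m) → F := Fin.append u (fun i => (u (e i))⁻¹) with hu'
  have halg : ∀ i, ∃ G : Polynomial (MvPolynomial (Fin m) ℂ), G.map ρ ≠ 0 ∧
      G.eval₂ ρ (u' i) = 0 := by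
    intro i
    apply do2_alg ht
    refine Fin.addCases (fun j => ?_) (fun j => ?_) i
    · rw [hu', Fin.append_left]
      exact hu j
    · rw [hu', Fin.append_right]
      obtain ⟨K, hK⟩ := cl_field (Set.range t)
      rw [← hK]
      have h1 : u (e j) ∈ (K : Set F) := by rw [hK]; exact hu _
      exact inv_mem h1
  obtain ⟨θ, δ, χ, A, h⟩ := pres1 ρ u' halg
  have hδ : δ ≠ 0 := by
    rintro rfl
    exact h.ne (map_zero ρ)
  obtain ⟨κ, ε, c, N₀, hε, hc, hlow⟩ := lower δ hδ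
  -- growth
  choose C k hC hk using fun i : Fin (N + m) => do2_upper χ h.monic h.pos (A i)
  set M : ℝ := 1 + 2 * Real.pi * (∑ i, |(κ i : ℝ)|) + ε with hM
  have hpi := Real.pi_pos
  have hκ0 : 0 ≤ ∑ i, |(κ i : ℝ)| := Finset.sum_nonneg fun i _ => abs_nonneg _
  have hM1 : 1 ≤ M := by
    rw [hM]
    have : 0 ≤ 2 * Real.pi * (∑ i, |(κ i : ℝ)|) := by positivity
    linarith
  set C' : ℝ := 3 + (∑ i, C i) * M ^ (∑ i, k i) / c with hC'
  have hC0 : 0 ≤ ∑ i, C i := Finset.sum_nonneg fun i _ => hC i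
  have hC3 : 3 ≤ C' := by
    rw [hC']
    have : 0 ≤ (∑ i, C i) * M ^ (∑ i, k i) / c := by positivity
    linarith
  obtain ⟨L, hL₀, hL1, hL⟩ := do2_log (C := Real.log C') hε (∑ i, k i) N₀
  have hLr : (1 : ℝ) ≤ L := by exact_mod_cast hL1
  set K : ℝ := Real.log C' + (∑ i, k i : ℕ) * Real.log L with hK
  have hlogC : 0 < Real.log C' := Real.log_pos (by linarith)
  have hK0 : 0 < K := by
    have : 0 ≤ Real.log L := Real.log_nonneg hLr
    positivity
  have hexpK : Real.exp K = C' * (L : ℝ) ^ (∑ i, k i) := by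
    rw [hK, Real.exp_add, Real.exp_log (by linarith), ← Real.log_pow,
      Real.exp_log (by positivity)]
  set c₀ : Fin m → ℂ := fun i => 2 * Real.pi * Complex.I * (((L : ℤ) * κ i : ℤ) : ℂ) with hc₀
  set R : ℝ := ε * L with hR
  have hR0 : 0 < R := by positivity
  have hne : ∀ z ∈ Metric.ball c₀ R, c ≤ ‖eval z δ‖ := by
    intro z hz
    refine hlow L hL₀ z ?_
    rw [mem_ball_iff_norm] at hz
    exact hz.le
  have hne' : ∀ z ∈ Metric.ball c₀ R, eval z δ ≠ 0 := by
    intro z hz h0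
    have := hne z hz
    rw [h0, norm_zero] at this
    linarith
  have hker : ∀ z : Fin m → ℂ, ∀ r, ρ r = 0 → eval z r = 0 := by
    intro z r hr
    have : r = 0 := hρinj (by rw [hr, map_zero])
    rw [this, map_zero]
  -- the norm of points of the ball
  have hzb : ∀ z ∈ Metric.ball c₀ R, 1 + ‖z‖ ≤ L * M := by
    intro z hz
    rw [mem_ball_iff_norm] at hz
    have h1 : ‖z‖ ≤ ‖z - c₀‖ + ‖c₀‖ := by
      calc ‖z‖ = ‖(z - c₀) + c₀‖ := by congr 1; abel
        _ ≤ _ := norm_add_le _ _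
    have h2 : ‖c₀‖ ≤ L * (2 * Real.pi * (∑ i, |(κ i : ℝ)|)) := by
      rw [pi_norm_le_iff_of_nonneg (by positivity)]
      intro i
      have h3 : ‖c₀ i‖ = L * (2 * Real.pi * |(κ i : ℝ)|) := by
        rw [hc₀]
        simp only [norm_mul, Complex.norm_I, Complex.norm_real, Real.norm_eq_abs,
          Complex.norm_intCast, Complex.norm_ofNat]
        push_cast
        rw [abs_mul, abs_of_pos hpi, abs_of_nonneg (by positivity : (0 : ℝ) ≤ (L : ℝ))]
        ring
      rw [h3]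
      have h4 : |(κ i : ℝ)| ≤ ∑ i, |(κ i : ℝ)| :=
        Finset.single_le_sum (f := fun i => |(κ i : ℝ)|) (fun j _ => abs_nonneg _)
          (Finset.mem_univ i)
      gcongr
    rw [hM]
    have h5 : (L : ℝ) * (1 + 2 * Real.pi * (∑ i, |(κ i : ℝ)|) + ε) =
      L + L * (2 * Real.pi * (∑ i, |(κ i : ℝ)|)) + ε * L := by ring
    rw [h5, ← hR]
    linarith
  -- the branch
  have hspec : ∀ z ∈ Metric.ball c₀ R, ∀ T,
      mp (fun (i : Fin χ.natDegree) (z : Fin m → ℂ) => eval z (χ.coeff i)) z T = 0 →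
      mp' (fun (i : Fin χ.natDegree) (z : Fin m → ℂ) => eval z (χ.coeff i)) z T ≠ 0 := by
    intro z hz T hT
    rw [do2_mp χ h.monic] at hT
    rw [do2_mp' χ h.monic]
    exact pg_simple h (eval z) (hker z) (hne' z hz) T hT
  obtain ⟨T₀, hT₀⟩ : ∃ T₀, (χ.map (eval c₀)).eval T₀ = 0 := by
    apply IsAlgClosed.exists_root
    rw [h.monic.degree_map]
    intro hdeg
    have h1 := Polynomial.natDegree_eq_zero_iff_degree_le_zero.2 hdeg.le
    have h2 := h.pos
    omega
  obtain ⟨τ, hτ, -, hroot⟩ := branch Metric.isOpen_ball (convex_ball c₀ R) h.pos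
    (fun i => (do2_contDiff (χ.coeff i)).contDiffOn) hspec (Metric.mem_ball_self hR0)
    (T₀ := T₀) (by rw [do2_mp χ h.monic]; exact hT₀)
  have hroot' : ∀ z ∈ Metric.ball c₀ R, (χ.map (eval z)).eval (τ z) = 0 := by
    intro z hz
    rw [← do2_mp χ h.monic]
    exact hroot z hz
  set p : Fin (N + m) → (Fin m → ℂ) → ℂ :=
    fun i z => ((A i).map (eval z)).eval (τ z) / eval z δ with hp
  have hpc : ∀ i, ContDiffOn ℂ 1 (p i) (Metric.ball c₀ R) := by
    intro i
    exact (do2_contDiffOn (A i) hτ).div (do2_contDiff δ).contDiffOn hne'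
  have hpt : ∀ z ∈ Metric.ball c₀ R, ∀ f : MvPolynomial (Fin (N + m)) (MvPolynomial (Fin m) ℂ),
      eval₂ ρ u' f = 0 → eval₂ (eval z) (fun i => p i z) f = 0 := by
    intro z hz f hf
    exact pg_point h (eval z) (hker z) (hne' z hz) (τ z) (hroot' z hz) f hf
  have hpb : ∀ i, ∀ z ∈ Metric.ball c₀ R, ‖p i z‖ ≤ Real.exp K := by
    intro i z hz
    have hB : 1 ≤ 1 + ‖z‖ := by linarith [norm_nonneg z]
    have h1 : ‖((A i).map (eval z)).eval (τ z)‖ ≤
        (∑ i, C i) * M ^ (∑ i, k i) * (L : ℝ) ^ (∑ i, k i) := by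
      calc ‖((A i).map (eval z)).eval (τ z)‖ ≤ C i * (1 + ‖z‖) ^ k i := hk i z _ (hroot' z hz)
        _ ≤ (∑ i, C i) * (1 + ‖z‖) ^ (∑ i, k i) := by
            apply mul_le_mul
            · exact Finset.single_le_sum (f := C) (fun j _ => hC j) (Finset.mem_univ i)
            · exact pow_le_pow_right₀ hB (Finset.single_le_sum (f := k)
                (fun j _ => Nat.zero_le _) (Finset.mem_univ i))
            · positivity
            · exact hC0
        _ ≤ (∑ i, C i) * (L * M) ^ (∑ i, k i) := by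
            gcongr
            exact hzb z hz
        _ = _ := by rw [mul_pow]; ring
    rw [hexpK, hp]
    simp only [norm_div]
    calc ‖((A i).map (eval z)).eval (τ z)‖ / ‖eval z δ‖
        ≤ (∑ i, C i) * M ^ (∑ i, k i) * (L : ℝ) ^ (∑ i, k i) / c := by
          gcongr
          exact hne z hz
      _ = ((∑ i, C i) * M ^ (∑ i, k i) / c) * (L : ℝ) ^ (∑ i, k i) := by ring
      _ ≤ C' * (L : ℝ) ^ (∑ i, k i) := by
          gcongr
          rw [hC']
          linarith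
  have hinv : ∀ i : Fin m, ∀ z ∈ Metric.ball c₀ R,
      p (Fin.castAdd m (e i)) z * p (Fin.natAdd N i) z = 1 := by
    intro i z hz
    have h1 := hpt z hz (X (Fin.castAdd m (e i)) * X (Fin.natAdd N i) - 1) (by
      rw [eval₂_sub, eval₂_mul, eval₂_X, eval₂_X, eval₂_one, hu', Fin.append_left,
        Fin.append_right, mul_inv_cancel₀ (he i), sub_self])
    rw [eval₂_sub, eval₂_mul, eval₂_X, eval₂_X, eval₂_one] at h1
    exact sub_eq_zero.1 h1
  have hYb : ∀ i : Fin m, ∀ z ∈ Metric.ball c₀ R,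
      Real.exp (-K) ≤ ‖p (Fin.castAdd m (e i)) z‖ ∧ ‖p (Fin.castAdd m (e i)) z‖ ≤ Real.exp K := by
    intro i z hz
    refine ⟨?_, hpb _ z hz⟩
    have h1 := congrArg norm (hinv i z hz)
    rw [norm_mul, norm_one] at h1
    have h2 := hpb (Fin.natAdd N i) z hz
    rw [Real.exp_neg, inv_le_iff_one_le_mul₀ (Real.exp_pos K), ← h1]
    exact mul_le_mul_of_nonneg_left h2 (norm_nonneg _)
  obtain ⟨z, hz, hze⟩ := exp_point (fun i => (L : ℤ) * κ i) hK0 (by rw [hR]; exact hL) c₀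
    (fun i => rfl) (fun i => p (Fin.castAdd m (e i))) (fun i => hpc _) hYb
  have hzR : z ∈ Metric.ball c₀ R := Metric.ball_subset_ball (by linarith) hz
  refine ⟨z, fun j => p (Fin.castAdd m j) z, ?_, fun i => (hze i).symm⟩
  intro f hf
  set g : MvPolynomial (Fin m ⊕ Fin N) ℂ →+*
      MvPolynomial (Fin (N + m)) (MvPolynomial (Fin m) ℂ) :=
    eval₂Hom ((MvPolynomial.C : MvPolynomial (Fin m) ℂ →+*
      MvPolynomial (Fin (N + m)) (MvPolynomial (Fin m) ℂ)).comp
        (MvPolynomial.C : ℂ →+* MvPolynomial (Fin m) ℂ))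
      (Sum.elim (fun j => MvPolynomial.C (X j)) (fun i => X (Fin.castAdd m i))) with hg
  have h1 : (eval₂Hom ρ u').comp g =
      ((aeval (Sum.elim t u) : MvPolynomial (Fin m ⊕ Fin N) ℂ →ₐ[ℂ] F) :
        MvPolynomial (Fin m ⊕ Fin N) ℂ →+* F) := by
    apply MvPolynomial.ringHom_ext
    · intro r
      simp [hg, hρ]
    · rintro (j | j)
      · simp [hg, hρ]
      · simp [hg, hu']
  have h2 : (eval₂Hom (eval z) (fun i => p i z)).comp g =
      (eval (Sum.elim z (fun j => p (Fin.castAdd m j) z)) : MvPolynomial (Fin m ⊕ Fin N) ℂ →+* ℂ)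
      := by
    apply MvPolynomial.ringHom_ext
    · intro r
      simp [hg]
    · rintro (j | j)
      · simp [hg]
      · simp [hg]
  have h3 := congrArg (fun φ : MvPolynomial (Fin m ⊕ Fin N) ℂ →+* F => φ f) h1
  have h4 := congrArg (fun φ : MvPolynomial (Fin m ⊕ Fin N) ℂ →+* ℂ => φ f) h2
  rw [← h4]
  refine hpt z hzR (g f) ?_
  have h5 : (aeval (Sum.elim t u) : MvPolynomial (Fin m ⊕ Fin N) ℂ →ₐ[ℂ] F) f = 0 := hf
  exact h3.trans h5

end XA
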