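import Pool.Agent.Lib.MP_228259_lc.A.DR

/-!
DR0: points of a presentation with values in an arbitrary field `K`.

PROOF. As `pg_point` in PG2 (graph trick), with `K` in place of `ℂ`. The set
`Γ = {(b, z) ∈ F × K | ∃ N G, ρ(δ)^N b = G(θ), s(δ)^N z = G(θ₀)}` is a subring of `F × K` which
contains `(ρ r, s r)` for `r ∈ S` and `(u i, A_i(θ₀) / s(δ))` for all `i`. If `(0, z) ∈ Γ` then
`G(θ) = 0`, so `G - χ Q` has coefficients in `ker ρ ⊆ ker s`, so `G(θ₀) = χ(θ₀) Q(θ₀) = 0` and `z = 0`.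
For `f ∈ S[X_1, ..., X_N]` the pair `(f(u), f(p))` is in `Γ`.
(If XA-PG2 is already delivered, copy its proof of `pg_point`.)
-/

namespace XA

open MvPolynomial

theorem DR0_pair {S F K : Type*} [CommRing S] [Field F] [Field K] {ρ : S →+* F} {N : ℕ}
    {u : Fin N → F} {θ : F} {δ : S} {χ : Polynomial S} {A : Fin N → Polynomial S}
    (h : PG ρ u θ δ χ A) (s : S →+* K) (hδ : s δ ≠ 0) (θ₀ : K) (f : MvPolynomial (Fin N) S) :
    ∃ (M : ℕ) (G : Polynomial S), ρ δ ^ M * eval₂ ρ u f = G.eval₂ ρ θ ∧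
      s δ ^ M * eval₂ s (fun i => ((A i).map s).eval θ₀ / s δ) f = G.eval₂ s θ₀ := by
  induction f using MvPolynomial.induction_on with
  | C r =>
    refine ⟨0, Polynomial.C r, ?_, ?_⟩
    · rw [pow_zero, one_mul, eval₂_C, Polynomial.eval₂_C]
    · rw [pow_zero, one_mul, eval₂_C, Polynomial.eval₂_C]
  | add p q hp hq =>
    obtain ⟨M, G, h1, h2⟩ := hp
    obtain ⟨M', G', h1', h2'⟩ := hq
    refine ⟨M + M', Polynomial.C (δ ^ M') * G + Polynomial.C (δ ^ M) * G', ?_, ?_⟩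
    · rw [eval₂_add, Polynomial.eval₂_add, Polynomial.eval₂_mul, Polynomial.eval₂_mul,
        Polynomial.eval₂_C, Polynomial.eval₂_C, ← h1, ← h1', map_pow, map_pow, pow_add]
      ring
    · rw [eval₂_add, Polynomial.eval₂_add, Polynomial.eval₂_mul, Polynomial.eval₂_mul,
        Polynomial.eval₂_C, Polynomial.eval₂_C, ← h2, ← h2', map_pow, map_pow, pow_add]
      ring
  | mul_X p i hp =>
    obtain ⟨M, G, h1, h2⟩ := hp
    refine ⟨M + 1, G * A i, ?_, ?_⟩
    · rw [eval₂_mul, eval₂_X, Polynomial.eval₂_mul, ← h1, h.gen i, pow_succ]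
      ring
    · rw [eval₂_mul, eval₂_X, Polynomial.eval₂_mul, ← h2, pow_succ, Polynomial.eval_map]
      field_simp

theorem pg_point_field {S F K : Type*} [CommRing S] [Field F] [Field K] {ρ : S →+* F} {N : ℕ}
    {u : Fin N → F} {θ : F} {δ : S} {χ : Polynomial S} {A : Fin N → Polynomial S}
    (h : PG ρ u θ δ χ A) (s : S →+* K) (hs : ∀ r, ρ r = 0 → s r = 0) (hδ : s δ ≠ 0) (θ₀ : K)
    (hθ : (χ.map s).eval θ₀ = 0) (f : MvPolynomial (Fin N) S) (hf : eval₂ ρ u f = 0) :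
    eval₂ s (fun i => ((A i).map s).eval θ₀ / s δ) f = 0 := by
  obtain ⟨M, G, h1, h2⟩ := DR0_pair h s hδ θ₀ f
  rw [hf, mul_zero] at h1
  obtain ⟨Q, hQ⟩ := h.quot G h1.symm
  have h3 : (G - χ * Q).map s = 0 := by
    ext i
    rw [Polynomial.coeff_map, Polynomial.coeff_zero]
    apply hs
    have h4 := congrArg (fun P => Polynomial.coeff P i) hQ
    simpa only [Polynomial.coeff_map, Polynomial.coeff_zero] using h4
  have h5 : G.eval₂ s θ₀ = 0 := by
    have h6 : (G - χ * Q).eval₂ s θ₀ = 0 := by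
      rw [Polynomial.eval₂_eq_eval_map, h3, Polynomial.eval_zero]
    rw [Polynomial.eval₂_sub, Polynomial.eval₂_mul, Polynomial.eval₂_eq_eval_map (p := χ), hθ,
      zero_mul, sub_zero] at h6
    exact h6
  rw [h5] at h2
  exact (mul_eq_zero.1 h2).resolve_left (pow_ne_zero _ hδ)

end XA
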