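import Pool.Agent.Lib.MP_228259_lc.A.CL2

/-!
DRG: choice of a generic linear combination.

PROOF. For `S ∈ 𝒮` the set of `ξ ∈ ℂ` with `∑ i, ξ ^ i * u i ∈ cl S` is finite: if it contained `N`
distinct elements `ξ_1, ..., ξ_N` then by the Vandermonde matrix (`Matrix.det_vandermonde_ne_zero_iff`,
an invertible matrix over `ℂ`, mapped to `F`) every `u i` would be a `ℂ`-linear combination of
elements of `cl S`, so in `cl S` (`cl_field`, `cl_const`), against `h𝒮`. So the set of bad `ξ` is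
countable (`Set.Countable.biUnion`), and `ℂ` is not (`Set.not_countable_univ` / `Cardinal`,
`Uncountable ℂ`).
-/

namespace XA

open MvPolynomial

private theorem xaDRG_fin {F : Type*} [Field F] [Algebra ℂ F] {N : ℕ} (u : Fin N → F)
    (S : Set F) (h : ∃ i, u i ∉ cl S) :
    {ξ : ℂ | ∑ i : Fin N, algebraMap ℂ F ξ ^ (i : ℕ) * u i ∈ cl S}.Finite := by
  by_contra hinf
  obtain ⟨i, hi⟩ := h
  apply hi
  obtain ⟨K, hK⟩ := cl_field S
  have hmem : ∀ a : F, a ∈ K ↔ a ∈ cl S := fun a => by rw [← hK]; rfl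
  have hinf' : {ξ : ℂ | ∑ i : Fin N, algebraMap ℂ F ξ ^ (i : ℕ) * u i ∈ cl S}.Infinite := hinf
  obtain ⟨v, hv⟩ : ∃ v : Fin N → ℂ, v = fun k : Fin N =>
    (hinf'.natEmbedding _ (k : ℕ)).1 := ⟨_, rfl⟩
  have hvi : Function.Injective v := by
    intro a b hab
    rw [hv] at hab
    exact Fin.ext ((hinf'.natEmbedding _).injective (Subtype.ext hab))
  have hvm : ∀ k, ∑ j : Fin N, algebraMap ℂ F (v k) ^ (j : ℕ) * u j ∈ cl S := by
    intro k
    rw [hv]
    exact (hinf'.natEmbedding _ (k : ℕ)).2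
  have hdet : (Matrix.vandermonde v).det ≠ 0 := Matrix.det_vandermonde_ne_zero_iff.2 hvi
  have hinv : (Matrix.vandermonde v)⁻¹ * Matrix.vandermonde v = 1 :=
    Matrix.nonsing_inv_mul _ (isUnit_iff_ne_zero.2 hdet)
  have hu : u i = ∑ k : Fin N, algebraMap ℂ F ((Matrix.vandermonde v)⁻¹ i k) *
      ∑ j : Fin N, algebraMap ℂ F (v k) ^ (j : ℕ) * u j := by
    have h1 : ∀ k : Fin N, algebraMap ℂ F ((Matrix.vandermonde v)⁻¹ i k) *
        ∑ j : Fin N, algebraMap ℂ F (v k) ^ (j : ℕ) * u j =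
        ∑ j : Fin N, algebraMap ℂ F ((Matrix.vandermonde v)⁻¹ i k *
          Matrix.vandermonde v k j) * u j := by
      intro k
      rw [Finset.mul_sum]
      refine Finset.sum_congr rfl fun j _ => ?_
      rw [Matrix.vandermonde_apply, map_mul, map_pow, mul_assoc]
    rw [Finset.sum_congr rfl fun k _ => h1 k, Finset.sum_comm]
    have h2 : ∀ j : Fin N, ∑ k : Fin N, algebraMap ℂ F ((Matrix.vandermonde v)⁻¹ i k *
          Matrix.vandermonde v k j) * u j = algebraMap ℂ F ((1 : Matrix (Fin N) (Fin N) ℂ) i j) *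
            u j := by
      intro j
      rw [← Finset.sum_mul, ← map_sum, ← hinv, Matrix.mul_apply]
    rw [Finset.sum_congr rfl fun j _ => h2 j, Finset.sum_eq_single i]
    · rw [Matrix.one_apply_eq, map_one, one_mul]
    · intro j _ hj
      rw [Matrix.one_apply_ne hj.symm, map_zero, zero_mul]
    · intro hh
      exact absurd (Finset.mem_univ i) hh
  rw [hu, ← hmem]
  exact sum_mem fun k _ => mul_mem (K.algebraMap_mem _) ((hmem _).2 (hvm k))

theorem exists_generic {F : Type*} [Field F] [Algebra ℂ F] {N : ℕ} (u : Fin N → F)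
    (𝒮 : Set (Set F)) (h𝒮 : 𝒮.Countable) (h : ∀ S ∈ 𝒮, ∃ i, u i ∉ cl S) :
    ∃ ξ : ℂ, ∀ S ∈ 𝒮, ∑ i : Fin N, algebraMap ℂ F ξ ^ (i : ℕ) * u i ∉ cl S := by
  by_contra hcon
  push Not at hcon
  apply not_countable_complex
  refine (h𝒮.biUnion fun S hS => (xaDRG_fin u S (h S hS)).countable).mono ?_
  intro ξ _
  obtain ⟨S, hS, h1⟩ := hcon ξ
  exact Set.mem_biUnion hS h1

end XA
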