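import Pool.Agent.Lib.MP_228259_lc.A.DRN

/-!
DRI: algebraic independence is preserved for almost all `c`.

PROOF. Let `w = Fin.snoc b g`, `S i = aeval (Sum.elim w u) (h i)`; all `S i ∈ cl (range w)`. The set
`I = range (Fin.snoc S g)` is independent (`hS`); in the matroid it extends to a basis
of `I ∪ range b` by elements of `range b`: there is `B` with `I ⊆ B ⊆ I ∪ range b`, `B` independent, and
`range b ⊆ cl B` (`Matroid.Indep.subset_isBasis_of_subset`). Let `J = {j | b j ∈ B \ I}` (a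
`Finset (Fin r)`; `b` is injective by `hbg`). `cl B ⊇ range w` and `I ⊆ cl (range w)`, so `rk B = r + 1`, that is
`k + 1 + J.card = r + 1`. For each `i : Fin r` the element `b i` is algebraic over
`adjoin ℂ (range S ∪ {g} ∪ {b j | j ∈ J})`, the image of `MvPolynomial (Fin k ⊕ Unit ⊕ J) ℂ`; choose a
polynomial `Q_i` in one variable over this polynomial ring whose leading coefficient `q_i` has non-zero value in
`F` and with `Q_i(b i) = 0`. The value of `q_i` is `aeval (Sum.elim w u) h_i` for a polynomial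
`h_i` (substitute the `h`), and `spec_ne` gives a finite set `E_i`. Let `E = ⋃ E_i`. Let
`c ∉ E` and `v` a specialisation, `S' i = aeval (Sum.elim (Fin.snoc β c) v) (h i)`. The relation
`Q_i(b i) = 0` specialises to an equation for `β i` over `ℂ(S', β_j (j ∈ J))` with non-zero leading
coefficient, so `β i ∈ cl (range S' ∪ {β j | j ∈ J})` (`cl_root`), hence
`r = rk (range β) ≤ rk (range S' ∪ {β j | j ∈ J}) ≤ rk (range S') + J.card`
(`Matroid.eRk_union_le_eRk_add_encard`), `k ≤ rk (range S')`, and `S'` is algebraically independent by `rk_eq_iff`,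
`rk_range_le`.
-/

namespace XA

open MvPolynomial

private theorem dri_mem {F : Type*} [Field F] [Algebra ℂ F] {ι : Type*} (t : ι → F) {T : Set F}
    (ht : ∀ i, t i ∈ cl T) (p : MvPolynomial ι ℂ) : aeval t p ∈ cl T := by
  obtain ⟨K, hK⟩ := cl_field T
  have hmem : ∀ a : F, a ∈ K ↔ a ∈ cl T := fun a => by rw [← hK]; rfl
  rw [← hmem]
  induction p using MvPolynomial.induction_on with
  | C a =>
    rw [← MvPolynomial.algebraMap_eq, AlgHom.commutes]
    exact K.algebraMap_mem a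
  | add p q hp hq =>
    rw [map_add]
    exact add_mem hp hq
  | mul_X p i hp =>
    rw [map_mul, aeval_X]
    exact mul_mem hp ((hmem _).2 (ht i))

/-- the elements of `cl (range t)` are the roots of polynomials over `MvPolynomial ι ℂ` -/
private theorem dri_poly {F : Type*} [Field F] [Algebra ℂ F] {ι : Type*} (t : ι → F) {a : F}
    (ha : a ∈ cl (Set.range t)) : ∃ Q : Polynomial (MvPolynomial ι ℂ),
      (∃ d, aeval t (Q.coeff d) ≠ 0) ∧
      (Q.map ((aeval t : MvPolynomial ι ℂ →ₐ[ℂ] F) : MvPolynomial ι ℂ →+* F)).eval a = 0 := by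
  obtain ⟨q, hq0, hq⟩ := ha
  have h1 : q.map (algebraMap (Algebra.adjoin ℂ (Set.range t)) F) ∈
      Polynomial.lifts ((aeval t : MvPolynomial ι ℂ →ₐ[ℂ] F) : MvPolynomial ι ℂ →+* F) := by
    rw [Polynomial.lifts_iff_coeff_lifts]
    intro n
    rw [Polynomial.coeff_map]
    have h2 : ((q.coeff n : Algebra.adjoin ℂ (Set.range t)) : F) ∈
        (aeval t : MvPolynomial ι ℂ →ₐ[ℂ] F).range := by
      rw [← Algebra.adjoin_range_eq_range_aeval]
      exact (q.coeff n).2
    obtain ⟨f, hf⟩ := h2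
    exact ⟨f, hf⟩
  obtain ⟨Q, hQ⟩ := (Polynomial.mem_lifts _).1 h1
  refine ⟨Q, ?_, ?_⟩
  · by_contra hne
    push Not at hne
    apply hq0
    have h3 : q.map (algebraMap (Algebra.adjoin ℂ (Set.range t)) F) = 0 := by
      rw [← hQ]
      ext n
      rw [Polynomial.coeff_map, Polynomial.coeff_zero]
      exact hne n
    have h4 : Function.Injective (algebraMap (Algebra.adjoin ℂ (Set.range t)) F) :=
      Subtype.val_injective
    exact (Polynomial.map_eq_zero_iff h4).1 h3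
  · rw [hQ, Polynomial.eval_map, ← Polynomial.aeval_def]
    exact hq

theorem spec_indep {F K : Type*} [Field F] [Algebra ℂ F] [Field K] [Algebra ℂ K] {r N k : ℕ}
    {b : Fin r → F} {g : F} (hbg : AlgebraicIndependent ℂ (Fin.snoc b g : Fin (r + 1) → F))
    {β : Fin r → K} (hβ : AlgebraicIndependent ℂ β) {u : Fin N → F}
    (hu : ∀ i, u i ∈ cl (Set.range (Fin.snoc b g : Fin (r + 1) → F)))
    (h : Fin k → MvPolynomial (Fin (r + 1) ⊕ Fin N) ℂ)
    (hS : AlgebraicIndependent ℂ (Fin.snoc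
      (fun i => aeval (Sum.elim (Fin.snoc b g : Fin (r + 1) → F) u) (h i)) g : Fin (k + 1) → F)) :
    ∃ E : Set ℂ, E.Finite ∧ ∀ c ∉ E, ∀ v : Fin N → K,
      IsSpec (Sum.elim (Fin.snoc b g : Fin (r + 1) → F) u)
        (Sum.elim (Fin.snoc β (algebraMap ℂ K c) : Fin (r + 1) → K) v) →
      AlgebraicIndependent ℂ (fun i =>
        aeval (Sum.elim (Fin.snoc β (algebraMap ℂ K c) : Fin (r + 1) → K) v) (h i)) := by
  classical
  obtain ⟨w, hw⟩ : ∃ w : Fin (r + 1) → F, w = Fin.snoc b g := ⟨_, rfl⟩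
  rw [← hw] at hbg hu hS ⊢
  obtain ⟨W, hW⟩ : ∃ W : Fin (r + 1) ⊕ Fin N → F, W = Sum.elim w u := ⟨_, rfl⟩
  rw [← hW] at hS ⊢
  obtain ⟨S, hSd⟩ : ∃ S : Fin k → F, ∀ i, S i = aeval W (h i) := ⟨fun i => aeval W (h i), fun _ => rfl⟩
  have hSf : (fun i => aeval W (h i)) = S := by
    funext i
    rw [hSd]
  rw [hSf] at hS
  have hwl : w (Fin.last r) = g := by rw [hw, Fin.snoc_last]
  have hwc : ∀ i : Fin r, w i.castSucc = b i := by
    intro i
    rw [hw, Fin.snoc_castSucc]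
  have hWcl : ∀ j, W j ∈ cl (Set.range w) := by
    intro j
    rw [hW]
    rcases j with j | j
    · exact subset_cl _ ⟨j, rfl⟩
    · exact hu j
  have hScl : ∀ i, S i ∈ cl (Set.range w) := by
    intro i
    rw [hSd]
    exact dri_mem W hWcl (h i)
  obtain ⟨sg, hsg⟩ : ∃ sg : Fin (k + 1) → F, sg = Fin.snoc S g := ⟨_, rfl⟩
  rw [← hsg] at hS
  have hsl : sg (Fin.last k) = g := by rw [hsg, Fin.snoc_last]
  have hsc : ∀ i : Fin k, sg i.castSucc = S i := by
    intro i
    rw [hsg, Fin.snoc_castSucc]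
  have hsgcl : ∀ i, sg i ∈ cl (Set.range w) := by
    intro i
    refine Fin.lastCases ?_ (fun j => ?_) i
    · rw [hsl, ← hwl]
      exact subset_cl _ ⟨_, rfl⟩
    · rw [hsc]
      exact hScl j
  obtain ⟨M, hM⟩ : ∃ M, M = AlgebraicIndependent.matroid ℂ F := ⟨_, rfl⟩
  have hI : M.Indep (Set.range sg) := by
    rw [hM]
    exact AlgebraicIndependent.matroid_indep_iff.2 ((algebraicIndependent_subtype_range hS.injective).2 hS)
  obtain ⟨B, hB, hIB⟩ := hI.subset_isBasis_of_subset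
    (show Set.range sg ⊆ Set.range sg ∪ Set.range b from Set.subset_union_left)
    (by rw [hM, AlgebraicIndependent.matroid_e]; exact Set.subset_univ _)
  have hBsub := hB.subset
  have hcard : B.encard = (r : ℕ∞) + 1 := by
    rw [hB.encard_eq_eRk, hM]
    show rk (Set.range sg ∪ Set.range b) = _
    have h1 : rk (Set.range w) = (Fintype.card (Fin (r + 1)) : ℕ∞) := (rk_eq_iff w).2 hbg
    rw [Fintype.card_fin] at h1
    have h2 : rk (Set.range sg ∪ Set.range b) = rk (Set.range w) := by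
      apply le_antisymm
      · refine rk_mono ?_
        rintro x (⟨i, rfl⟩ | ⟨i, rfl⟩)
        · exact hsgcl i
        · rw [← hwc]
          exact subset_cl _ ⟨_, rfl⟩
      · refine rk_mono ?_
        rintro x ⟨i, rfl⟩
        refine subset_cl _ ?_
        refine Fin.lastCases ?_ (fun j => ?_) i
        · rw [hwl, ← hsl]
          exact Or.inl ⟨_, rfl⟩
        · rw [hwc]
          exact Or.inr ⟨_, rfl⟩
    rw [h2, h1]
    norm_cast
  have hbinj : Function.Injective b := by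
    intro i j hij
    have h1 : w i.castSucc = w j.castSucc := by rw [hwc, hwc, hij]
    exact Fin.castSucc_injective _ (hbg.injective h1)
  obtain ⟨J, hJ⟩ : ∃ J : Finset (Fin r), ∀ j, j ∈ J ↔ b j ∈ B \ Set.range sg :=
    ⟨Finset.univ.filter fun j => b j ∈ B \ Set.range sg, fun j => by simp⟩
  have hBJ : B \ Set.range sg = b '' (J : Set (Fin r)) := by
    ext x
    constructor
    · intro hx
      rcases hBsub hx.1 with h1 | h1
      · exact absurd h1 hx.2
      · obtain ⟨j, rfl⟩ := h1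
        exact ⟨j, (hJ j).2 hx, rfl⟩
    · rintro ⟨j, hj, rfl⟩
      exact (hJ j).1 hj
  have hJc : (B \ Set.range sg).encard = (J.card : ℕ∞) := by
    rw [hBJ, hbinj.encard_image, Set.encard_coe_eq_coe_finsetCard]
  have hIc : (Set.range sg).encard = (k : ℕ∞) + 1 := by
    have h1 : rk (Set.range sg) = (Fintype.card (Fin (k + 1)) : ℕ∞) := (rk_eq_iff sg).2 hS
    rw [Fintype.card_fin] at h1
    rw [← hI.eRk_eq_encard, hM]
    exact h1.trans (by norm_cast)
  have hsum : k + J.card = r := by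
    have h1 := Set.encard_sdiff_add_encard_of_subset hIB
    rw [hJc, hIc, hcard] at h1
    have h2 : J.card + (k + 1) = r + 1 := by exact_mod_cast h1
    omega
  -- the family `t`
  obtain ⟨t, ht⟩ : ∃ t : Fin (k + 1) ⊕ {j // j ∈ J} → F, t = Sum.elim sg (fun j : {j // j ∈ J} => b j.1) := ⟨_, rfl⟩
  have htr : Set.range t = B := by
    rw [ht, Set.Sum.elim_range]
    have h1 : Set.range (fun j : {j // j ∈ J} => b j) = B \ Set.range sg := by
      rw [hBJ]
      ext x
      constructor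
      · rintro ⟨j, rfl⟩
        exact ⟨j, j.2, rfl⟩
      · rintro ⟨j, hj, rfl⟩
        exact ⟨⟨j, hj⟩, rfl⟩
    rw [h1, Set.union_sdiff_cancel hIB]
  have hbt : ∀ i, b i ∈ cl (Set.range t) := by
    intro i
    rw [htr, cl_eq, ← hM]
    exact hB.subset_closure (Or.inr ⟨i, rfl⟩)
  choose Q hQ1 hQ2 using fun i => dri_poly t (hbt i)
  choose d hd using hQ1
  obtain ⟨σ, hσ⟩ : ∃ σ : MvPolynomial (Fin (k + 1) ⊕ {j // j ∈ J}) ℂ →ₐ[ℂ]
      MvPolynomial (Fin (r + 1) ⊕ Fin N) ℂ, σ = aeval (Sum.elim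
        (Fin.snoc (α := fun _ => MvPolynomial (Fin (r + 1) ⊕ Fin N) ℂ) h (X (Sum.inl (Fin.last r))))
        (fun j : {j // j ∈ J} => X (Sum.inl j.1.castSucc))) := ⟨_, rfl⟩
  have hσW : ∀ p, aeval W (σ p) = aeval t p := by
    intro p
    have h1 : (aeval W).comp σ = (aeval t : _ →ₐ[ℂ] F) := by
      apply MvPolynomial.algHom_ext
      intro j
      rw [AlgHom.comp_apply, hσ, aeval_X, aeval_X, ht]
      rcases j with j | j
      · refine Fin.lastCases ?_ (fun i => ?_) j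
        · rw [Sum.elim_inl, Sum.elim_inl, Fin.snoc_last, aeval_X, hW, Sum.elim_inl, hwl, hsl]
        · rw [Sum.elim_inl, Sum.elim_inl, Fin.snoc_castSucc, ← hSd, hsc]
      · rw [Sum.elim_inr, Sum.elim_inr, aeval_X, hW, Sum.elim_inl, hwc]
    rw [← h1]
    rfl
  choose E hE1 hE2 using fun i : Fin r => spec_ne (b := b) (g := g) hβ (by rw [← hw]; exact hu)
    (σ ((Q i).coeff (d i))) (by rw [← hw, ← hW, hσW]; exact hd i)
  refine ⟨⋃ i, E i, Set.finite_iUnion hE1, fun c hc v hv => ?_⟩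
  obtain ⟨V, hV⟩ : ∃ V : Fin (r + 1) ⊕ Fin N → K,
      V = Sum.elim (Fin.snoc β (algebraMap ℂ K c) : Fin (r + 1) → K) v := ⟨_, rfl⟩
  rw [← hV] at hv ⊢
  have hvl : V (Sum.inl (Fin.last r)) = algebraMap ℂ K c := by
    rw [hV, Sum.elim_inl, Fin.snoc_last]
  have hvc : ∀ i : Fin r, V (Sum.inl i.castSucc) = β i := by
    intro i
    rw [hV, Sum.elim_inl, Fin.snoc_castSucc]
  obtain ⟨S', hS'⟩ : ∃ S' : Fin k → K, ∀ i, S' i = aeval V (h i) :=
    ⟨fun i => aeval V (h i), fun _ => rfl⟩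
  have hS'f : (fun i => aeval V (h i)) = S' := by
    funext i
    rw [hS']
  rw [hS'f]
  obtain ⟨t', ht'⟩ : ∃ t' : Fin (k + 1) ⊕ {j // j ∈ J} → K, t' = Sum.elim
      (Fin.snoc (α := fun _ => K) S' (algebraMap ℂ K c)) (fun j : {j // j ∈ J} => β j.1) := ⟨_, rfl⟩
  have hσV : ∀ p, aeval V (σ p) = aeval t' p := by
    intro p
    have h1 : (aeval V).comp σ = (aeval t' : _ →ₐ[ℂ] K) := by
      apply MvPolynomial.algHom_ext
      intro j
      rw [AlgHom.comp_apply, hσ, aeval_X, aeval_X, ht']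
      rcases j with j | j
      · refine Fin.lastCases ?_ (fun i => ?_) j
        · rw [Sum.elim_inl, Sum.elim_inl, Fin.snoc_last, Fin.snoc_last, aeval_X, hvl]
        · rw [Sum.elim_inl, Sum.elim_inl, Fin.snoc_castSucc, Fin.snoc_castSucc, hS']
      · rw [Sum.elim_inr, Sum.elim_inr, aeval_X, hvc]
    rw [← h1]
    rfl
  -- `β i` is algebraic over `t'`
  have hβt : ∀ i, β i ∈ cl (Set.range t') := by
    intro i
    refine cl_root (Set.range t')
      ((Q i).map ((aeval t' : MvPolynomial (Fin (k + 1) ⊕ {j // j ∈ J}) ℂ →ₐ[ℂ] K) : MvPolynomial (Fin (k + 1) ⊕ {j // j ∈ J}) ℂ →+* K)) ?_ ?_ (β i) ?_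
    · intro h0
      have h1 := congrArg (fun q => q.coeff (d i)) h0
      simp only [Polynomial.coeff_map, Polynomial.coeff_zero] at h1
      have h2 : aeval V (σ ((Q i).coeff (d i))) = 0 := by
        rw [hσV]
        exact h1
      rw [hV] at h2
      refine hE2 i c (fun hc' => hc (Set.mem_iUnion.2 ⟨i, hc'⟩)) v ?_ h2
      rw [← hV, ← hw, ← hW]
      exact hv
    · intro n
      rw [Polynomial.coeff_map]
      exact dri_mem t' (T := Set.range t') (fun j => subset_cl _ ⟨j, rfl⟩) _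
    · obtain ⟨f, hf⟩ : ∃ f : MvPolynomial (Fin (r + 1) ⊕ Fin N) ℂ,
          f = (Q i).eval₂ (σ : MvPolynomial (Fin (k + 1) ⊕ {j // j ∈ J}) ℂ →+* MvPolynomial (Fin (r + 1) ⊕ Fin N) ℂ) (X (Sum.inl i.castSucc)) := ⟨_, rfl⟩
      have f1 : aeval W f = ((Q i).map ((aeval t : MvPolynomial (Fin (k + 1) ⊕ {j // j ∈ J}) ℂ →ₐ[ℂ] F) :
          MvPolynomial (Fin (k + 1) ⊕ {j // j ∈ J}) ℂ →+* F)).eval (b i) := by
        rw [hf, Polynomial.eval_map]
        have e1 := Polynomial.hom_eval₂ (Q i) (σ : MvPolynomial (Fin (k + 1) ⊕ {j // j ∈ J}) ℂ →+* MvPolynomial (Fin (r + 1) ⊕ Fin N) ℂ)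
          ((aeval W : MvPolynomial (Fin (r + 1) ⊕ Fin N) ℂ →ₐ[ℂ] F) : MvPolynomial (Fin (r + 1) ⊕ Fin N) ℂ →+* F) (X (Sum.inl i.castSucc))
        have e2 : ((aeval W : MvPolynomial (Fin (r + 1) ⊕ Fin N) ℂ →ₐ[ℂ] F) : MvPolynomial (Fin (r + 1) ⊕ Fin N) ℂ →+* F).comp
            (σ : MvPolynomial (Fin (k + 1) ⊕ {j // j ∈ J}) ℂ →+* MvPolynomial (Fin (r + 1) ⊕ Fin N) ℂ) =
            ((aeval t : MvPolynomial (Fin (k + 1) ⊕ {j // j ∈ J}) ℂ →ₐ[ℂ] F) : MvPolynomial (Fin (k + 1) ⊕ {j // j ∈ J}) ℂ →+* F) := by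
          apply RingHom.ext
          intro p
          exact hσW p
        have e3 : ((aeval W : MvPolynomial (Fin (r + 1) ⊕ Fin N) ℂ →ₐ[ℂ] F) : MvPolynomial (Fin (r + 1) ⊕ Fin N) ℂ →+* F)
            (X (Sum.inl i.castSucc)) = b i := by
          show aeval W (X (Sum.inl i.castSucc)) = b i
          rw [aeval_X, hW, Sum.elim_inl, hwc]
        rw [e2, e3] at e1
        exact e1
      have f2 : aeval V f = ((Q i).map ((aeval t' : MvPolynomial (Fin (k + 1) ⊕ {j // j ∈ J}) ℂ →ₐ[ℂ] K) :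
          MvPolynomial (Fin (k + 1) ⊕ {j // j ∈ J}) ℂ →+* K)).eval (β i) := by
        rw [hf, Polynomial.eval_map]
        have e1 := Polynomial.hom_eval₂ (Q i) (σ : MvPolynomial (Fin (k + 1) ⊕ {j // j ∈ J}) ℂ →+* MvPolynomial (Fin (r + 1) ⊕ Fin N) ℂ)
          ((aeval V : MvPolynomial (Fin (r + 1) ⊕ Fin N) ℂ →ₐ[ℂ] K) : MvPolynomial (Fin (r + 1) ⊕ Fin N) ℂ →+* K) (X (Sum.inl i.castSucc))
        have e2 : ((aeval V : MvPolynomial (Fin (r + 1) ⊕ Fin N) ℂ →ₐ[ℂ] K) : MvPolynomial (Fin (r + 1) ⊕ Fin N) ℂ →+* K).comp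
            (σ : MvPolynomial (Fin (k + 1) ⊕ {j // j ∈ J}) ℂ →+* MvPolynomial (Fin (r + 1) ⊕ Fin N) ℂ) =
            ((aeval t' : MvPolynomial (Fin (k + 1) ⊕ {j // j ∈ J}) ℂ →ₐ[ℂ] K) : MvPolynomial (Fin (k + 1) ⊕ {j // j ∈ J}) ℂ →+* K) := by
          apply RingHom.ext
          intro p
          exact hσV p
        have e3 : ((aeval V : MvPolynomial (Fin (r + 1) ⊕ Fin N) ℂ →ₐ[ℂ] K) : MvPolynomial (Fin (r + 1) ⊕ Fin N) ℂ →+* K)
            (X (Sum.inl i.castSucc)) = β i := by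
          show aeval V (X (Sum.inl i.castSucc)) = β i
          rw [aeval_X, hvc]
        rw [e2, e3] at e1
        exact e1
      rw [← f2]
      apply hv
      rw [f1]
      exact hQ2 i
  -- the rank of `S'`
  have hfin : (r : ℕ∞) ≤ rk (Set.range S') + J.card := by
    have h1 : rk (Set.range β) = (Fintype.card (Fin r) : ℕ∞) := (rk_eq_iff β).2 hβ
    rw [Fintype.card_fin] at h1
    rw [← h1]
    have h2 : rk (Set.range β) ≤ rk (Set.range S' ∪ β '' (J : Set (Fin r))) := by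
      refine rk_mono ?_
      rintro x ⟨i, rfl⟩
      refine cl_subset ?_ (hβt i)
      rintro y ⟨j, rfl⟩
      rw [ht']
      rcases j with j | j
      · refine Fin.lastCases ?_ (fun i => ?_) j
        · rw [Sum.elim_inl, Fin.snoc_last]
          exact cl_const c _
        · rw [Sum.elim_inl, Fin.snoc_castSucc]
          exact subset_cl _ (Or.inl ⟨i, rfl⟩)
      · rw [Sum.elim_inr]
        exact subset_cl _ (Or.inr ⟨j, j.2, rfl⟩)
    refine h2.trans ?_
    refine ((AlgebraicIndependent.matroid ℂ K).eRk_union_le_eRk_add_encard _ _).trans ?_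
    refine add_le_add le_rfl ?_
    refine (Set.encard_image_le _ _).trans ?_
    rw [Set.encard_coe_eq_coe_finsetCard]
  have hle : (k : ℕ∞) ≤ rk (Set.range S') := by
    have h1 : ((k : ℕ∞) + J.card) ≤ rk (Set.range S') + J.card := by
      refine le_trans (le_of_eq ?_) hfin
      exact_mod_cast hsum
    exact (ENat.add_le_add_iff_right (ENat.natCast_ne_top _)).1 h1
  rw [← rk_eq_iff]
  refine le_antisymm (rk_range_le S') ?_
  rw [Fintype.card_fin]
  exact hle

end XA
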