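import Pool.Agent.Lib.MP_228259_lc.A.DR0

/-!
DRS: the specialisations `g ↦ c`.

PROOF. `S = MvPolynomial (Fin (r + 1)) ℂ`, `ρ = aeval (Fin.snoc b g)` (injective by `hbg`), `pres1` for
`u` (`halg` from `hu`: an element of `cl (range w)`, `w = Fin.snoc b g`, is algebraic over
`adjoin ℂ (range w) = range ρ`, lift the coefficients). Let `(θ, δ, χ, A)` be the presentation,
`δ ≠ 0`. For `c ∈ ℂ` let `s_c = aeval (Fin.snoc β (algebraMap ℂ K c)) : S → K`. The set
`E = {c | s_c δ = 0}` is finite: `s_c δ = aeval β (δ_c)`, `δ_c ∈ MvPolynomial (Fin r) ℂ` obtained from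
`δ` by `X last ↦ c`; write `δ` as a polynomial in `X last` over `MvPolynomial (Fin r) ℂ`, or the other way round:
as a polynomial in the variables `X castSucc` over `ℂ[X last]`: some coefficient is a non-zero
polynomial in one variable, and `β` is algebraically independent, so `s_c δ = 0` implies that
`c` is a root of it. (Or: choose `x₀ ∈ ℂ^(r+1)` with `eval x₀ δ ≠ 0`; the polynomial
`c ↦ eval (Fin.snoc (x₀ ∘ castSucc) c) δ` is not zero and vanishes when `δ_c = 0`.)
For `c ∉ E` let `θ_c` be a root of `χ.map s_c` (`IsAlgClosed.exists_root`, degree `> 0`) and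
`uc c i = ((A i).map s_c).eval θ_c / s_c δ`. For `f` with `aeval (Sum.elim w u) f = 0` apply
`pg_point_field` to the image of `f` in `MvPolynomial (Fin N) S` (`inl j ↦ C (X j)`,
`inr i ↦ X i`; `MvPolynomial.sumAlgEquiv` or `aeval`).
-/

namespace XA

open MvPolynomial

theorem DRS_ev {L : Type*} [Field L] [Algebra ℂ L] {r N : ℕ} (w : Fin r → L) (u : Fin N → L)
    (f : MvPolynomial (Fin r ⊕ Fin N) ℂ) :
    eval₂ (aeval w : MvPolynomial (Fin r) ℂ →ₐ[ℂ] L).toRingHom u
      (aeval (Sum.elim (fun j => C (X j)) X :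
        Fin r ⊕ Fin N → MvPolynomial (Fin N) (MvPolynomial (Fin r) ℂ)) f) =
      aeval (Sum.elim w u) f := by
  induction f using MvPolynomial.induction_on with
  | C a =>
    rw [aeval_C, aeval_C]
    have h1 : (algebraMap ℂ (MvPolynomial (Fin N) (MvPolynomial (Fin r) ℂ))) a =
        C (C a) := rfl
    rw [h1, eval₂_C]
    exact aeval_C w a
  | add p q hp hq => rw [map_add, eval₂_add, hp, hq, map_add]
  | mul_X p j hp =>
    rw [map_mul, eval₂_mul, hp, map_mul, aeval_X, aeval_X]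
    congr 1
    rcases j with j | j
    · simp
    · simp

theorem DRS_alg {F : Type*} [Field F] [Algebra ℂ F] {r : ℕ} (w : Fin r → F) {a : F}
    (ha : a ∈ cl (Set.range w)) :
    ∃ G : Polynomial (MvPolynomial (Fin r) ℂ),
      G.map (aeval w : MvPolynomial (Fin r) ℂ →ₐ[ℂ] F).toRingHom ≠ 0 ∧
      G.eval₂ (aeval w : MvPolynomial (Fin r) ℂ →ₐ[ℂ] F).toRingHom a = 0 := by
  have h1 : IsAlgebraic (Algebra.adjoin ℂ (Set.range w)) a := ha
  rw [Algebra.adjoin_range_eq_range_aeval] at h1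
  obtain ⟨p, hp0, hp⟩ := h1
  obtain ⟨σ, hσ⟩ : ∃ σ : MvPolynomial (Fin r) ℂ →+*
      (aeval w : MvPolynomial (Fin r) ℂ →ₐ[ℂ] F).range,
      σ = (aeval w : MvPolynomial (Fin r) ℂ →ₐ[ℂ] F).rangeRestrict.toRingHom := ⟨_, rfl⟩
  have hsurj : Function.Surjective σ := by
    rw [hσ]
    exact AlgHom.rangeRestrict_surjective _
  obtain ⟨G, hG⟩ := Polynomial.map_surjective σ hsurj p
  have hcomp : (algebraMap (aeval w : MvPolynomial (Fin r) ℂ →ₐ[ℂ] F).range F).comp σ =
      (aeval w : MvPolynomial (Fin r) ℂ →ₐ[ℂ] F).toRingHom := by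
    rw [hσ]
    rfl
  have hinj : Function.Injective
      (algebraMap (aeval w : MvPolynomial (Fin r) ℂ →ₐ[ℂ] F).range F) := Subtype.val_injective
  refine ⟨G, ?_, ?_⟩
  · rw [← hcomp, ← Polynomial.map_map, hG]
    intro h
    apply hp0
    exact (Polynomial.map_eq_zero_iff hinj).1 h
  · rw [← hcomp, ← Polynomial.eval₂_map, hG]
    exact hp

theorem DRS_fin {K : Type*} [Field K] [Algebra ℂ K] {r : ℕ} {β : Fin r → K}
    (hβ : AlgebraicIndependent ℂ β) (δ : MvPolynomial (Fin (r + 1)) ℂ) (hδ : δ ≠ 0) :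
    {c : ℂ | aeval (Fin.snoc β (algebraMap ℂ K c) : Fin (r + 1) → K) δ = 0}.Finite := by
  obtain ⟨x₀, hx₀⟩ : ∃ x : Fin (r + 1) → ℂ, eval x δ ≠ 0 := by
    by_contra h
    apply hδ
    apply MvPolynomial.funext
    intro x
    rw [map_zero]
    by_contra h2
    exact h ⟨x, h2⟩
  obtain ⟨q, hq⟩ : ∃ q : Polynomial ℂ, q = aeval (Fin.snoc
    (fun j : Fin r => Polynomial.C (x₀ j.castSucc)) Polynomial.X : Fin (r + 1) → Polynomial ℂ) δ :=
    ⟨_, rfl⟩
  have hqe : ∀ c : ℂ, q.eval c = eval (Fin.snoc (fun j : Fin r => x₀ j.castSucc) c :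
      Fin (r + 1) → ℂ) δ := by
    intro c
    have h1 := MvPolynomial.comp_aeval_apply (R := ℂ) (Fin.snoc
      (fun j : Fin r => Polynomial.C (x₀ j.castSucc)) Polynomial.X : Fin (r + 1) → Polynomial ℂ)
      (Polynomial.aeval c) δ
    rw [Polynomial.coe_aeval_eq_eval, ← hq] at h1
    rw [h1, ← MvPolynomial.coe_aeval_eq_eval]
    show _ = aeval _ δ
    congr 2
    ext j
    refine Fin.lastCases ?_ (fun i => ?_) j
    · simp
    · simp
  have hq0 : q ≠ 0 := by
    intro h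
    have h1 := hqe (x₀ (Fin.last r))
    rw [h, Polynomial.eval_zero] at h1
    apply hx₀
    rw [h1]
    congr 2
    ext j
    refine Fin.lastCases ?_ (fun i => ?_) j
    · simp
    · simp
  refine (q.roots.toFinset.finite_toSet).subset ?_
  intro c hc
  rw [Finset.mem_coe, Multiset.mem_toFinset, Polynomial.mem_roots hq0, Polynomial.IsRoot.def, hqe]
  obtain ⟨δc, hδc⟩ : ∃ δc : MvPolynomial (Fin r) ℂ, δc = aeval (Fin.snoc
    (fun j : Fin r => X j) (C c) : Fin (r + 1) → MvPolynomial (Fin r) ℂ) δ := ⟨_, rfl⟩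
  have h1 : aeval β δc = 0 := by
    rw [hδc, MvPolynomial.comp_aeval_apply]
    rw [Set.mem_ofPred_eq] at hc
    rw [← hc]
    congr 2
    ext j
    refine Fin.lastCases ?_ (fun i => ?_) j
    · simp
    · simp
  have h2 : δc = 0 := by
    apply hβ
    rw [map_zero]
    exact h1
  have h3 : eval (fun j : Fin r => x₀ j.castSucc) δc = 0 := by rw [h2, map_zero]
  rw [← h3, hδc, ← MvPolynomial.coe_aeval_eq_eval, ← MvPolynomial.coe_aeval_eq_eval]
  show aeval _ δ = aeval _ _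
  rw [MvPolynomial.comp_aeval_apply]
  congr 2
  ext j
  refine Fin.lastCases ?_ (fun i => ?_) j
  · simp
  · simp

theorem spc {F K : Type*} [Field F] [Algebra ℂ F] [Field K] [Algebra ℂ K] [IsAlgClosed K] {r N : ℕ}
    {b : Fin r → F} {g : F} (hbg : AlgebraicIndependent ℂ (Fin.snoc b g : Fin (r + 1) → F))
    {β : Fin r → K} (hβ : AlgebraicIndependent ℂ β) {u : Fin N → F}
    (hu : ∀ i, u i ∈ cl (Set.range (Fin.snoc b g : Fin (r + 1) → F))) :
    ∃ (uc : ℂ → Fin N → K) (E : Set ℂ), E.Finite ∧ ∀ c ∉ E,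
      IsSpec (Sum.elim (Fin.snoc b g : Fin (r + 1) → F) u)
        (Sum.elim (Fin.snoc β (algebraMap ℂ K c) : Fin (r + 1) → K) (uc c)) := by
  have hcz : CharZero F := charZero_of_injective_algebraMap (algebraMap ℂ F).injective
  obtain ⟨w, hw⟩ : ∃ w : Fin (r + 1) → F, w = Fin.snoc b g := ⟨_, rfl⟩
  rw [← hw] at hbg hu ⊢
  obtain ⟨θ, δ, χ, A, hPG⟩ := pres1 (aeval w : MvPolynomial (Fin (r + 1)) ℂ →ₐ[ℂ] F).toRingHom u
    (fun i => DRS_alg w (hu i))
  have hδ : δ ≠ 0 := by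
    rintro rfl
    exact hPG.ne (map_zero _)
  have hroot : ∀ c : ℂ, ∃ θc : K, (χ.map (aeval (Fin.snoc β (algebraMap ℂ K c) :
      Fin (r + 1) → K) : MvPolynomial (Fin (r + 1)) ℂ →ₐ[ℂ] K).toRingHom).eval θc = 0 := by
    intro c
    obtain ⟨z, hz⟩ := IsAlgClosed.exists_root (χ.map (aeval (Fin.snoc β (algebraMap ℂ K c) :
      Fin (r + 1) → K) : MvPolynomial (Fin (r + 1)) ℂ →ₐ[ℂ] K).toRingHom) (by
        rw [Polynomial.degree_eq_natDegree (hPG.monic.map _).ne_zero, hPG.monic.natDegree_map]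
        have := hPG.pos
        intro h
        have h2 : χ.natDegree = 0 := by exact_mod_cast h
        omega)
    exact ⟨z, hz⟩
  choose θc hθc using hroot
  refine ⟨fun c i => ((A i).map (aeval (Fin.snoc β (algebraMap ℂ K c) :
      Fin (r + 1) → K) : MvPolynomial (Fin (r + 1)) ℂ →ₐ[ℂ] K).toRingHom).eval (θc c) /
      (aeval (Fin.snoc β (algebraMap ℂ K c) :
      Fin (r + 1) → K) : MvPolynomial (Fin (r + 1)) ℂ →ₐ[ℂ] K).toRingHom δ, _,
      DRS_fin hβ δ hδ, fun c hc f hf => ?_⟩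
  rw [← DRS_ev]
  apply pg_point_field hPG
  · intro p hp
    have h1 : p = 0 := by
      apply hbg
      rw [map_zero]
      exact hp
    rw [h1, map_zero]
  · exact hc
  · exact hθc c
  · rw [DRS_ev]
    exact hf

end XA
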