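import Pool.Agent.Lib.MP_228259_lc.A.DRK
import Pool.Agent.Lib.MP_228259_lc.A.DRS
import Pool.Agent.Lib.MP_228259_lc.A.DRI
import Pool.Agent.Lib.MP_228259_lc.A.DRG

/-!
DR4: one step of the reduction of the dimension.

PROOF. `rk (range x ∪ range y) = r + 1` with `n < r + 1` (finite: at most `2 n` elements). Call a
*monomial family* a family `S : Fin k → F`, `k ≤ n`, each `S i` being `li m x` or `mo m y` for some
`m : Fin n → ℤ` (data: `Fin k → (Fin n → ℤ) ⊕ (Fin n → ℤ)`, a countable type). Let `𝒮` be the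
countable set of the `range S` for all algebraically independent monomial families (including
`k = 0`). For such `S`: `rk (range S) ≤ n < rk (range x ∪ range y)`, so some `x j` or `y j` is not in
`cl (range S)`. `exists_generic` for the family `Fin.append x y` gives `ξ`; let
`g = ∑ ξ ^ i * (Fin.append x y) i`. So `g ∉ cl (range S)` and `Fin.snoc S g` is algebraically
independent for all these `S` (`rk_insert_not`, `rk_eq_iff`). In particular (`k = 0`) `{g}` is
independent, it extends to a basis of `{g} ∪ range x ∪ range y` by elements of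
`range x ∪ range y` (matroid; the rank is `r + 1` as `g ∈ cl (range x ∪ range y)`): choose
`b : Fin r → F` with `Fin.snoc b g` algebraically independent and
`range x ∪ range y ⊆ cl (range (Fin.snoc b g))`. Let `u = Fin.append (Fin.append x y) y⁻¹`.
`exists_target r` gives `K, β`; `spc` gives `uc, E`. For every algebraically independent monomial family `S` the
elements `S i` are `aeval (Sum.elim (Fin.snoc b g) u) (h i)` for polynomials `h i` (for `mo m y` use
`X` of `y j` for positive and of `(y j)⁻¹` for negative exponents), `spec_indep` gives a finite set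
`E_S`. Choose `c ∉ E ∪ ⋃ E_S` (countable union of finite sets, `ℂ` is uncountable), and let `x'`, `y'`, `y''` be
the three parts of `v = uc c`. The relation `y_j y_j⁻¹ = 1` gives `y' j * y'' j = 1`, so `y' j ≠ 0` and
`mo m y' = aeval (Sum.elim (Fin.snoc β c) v) (h of mo m y)`; the same for `li m x'`. So for every
algebraically independent monomial family `S` the corresponding family `S'` of `(x', y')` is
algebraically independent.
* `IsSpec (Sum.elim x y) (Sum.elim x' y')`: from the specialisation (rename the variables).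
* `af`: `li m x ∉ ℂ` so `li m x ∉ cl ∅` (`cl_empty`), so `![li m x]` is algebraically independent
  (`1 ≤ n` as `m ≠ 0`), so `![li m x']` is, and `li m x'` is not a constant (a constant is in `cl ∅`). `mf`: the same.
* `rot`: for `M` with `k = rank ≤ rk (range (li (M i) x) ∪ range (mo (M i) y))` take an independent subset
  with `rank M ≤ n` elements (`Matroid.le_eRk_iff`), it is the range of an algebraically independent monomial family
  `S` (indices in `Fin k ⊕ Fin k`); `S'` is algebraically independent with range in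
  `range (li (M i) x') ∪ range (mo (M i) y')`, so the rank of the latter is at least `rank M`.
* `rk (range x' ∪ range y') ≤ rk (range β) = r < r + 1` (`rk_mono`, all of `K` is in
  `cl (range β)`).
-/

namespace XA

open MvPolynomial

/-- the linear form or the monomial with the exponents `m` -/
private def dr4ev {F : Type*} [Field F] {n : ℕ} (x y : Fin n → F) :
    (Fin n → ℤ) ⊕ (Fin n → ℤ) → F := Sum.elim (fun m => li m x) (fun m => mo m y)

/-- the polynomial which represents it -/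
private noncomputable def dr4pol (r n : ℕ) :
    (Fin n → ℤ) ⊕ (Fin n → ℤ) → MvPolynomial (Fin (r + 1) ⊕ Fin (n + n + n)) ℂ :=
  Sum.elim
    (fun m => ∑ j, C (m j : ℂ) * X (Sum.inr (Fin.castAdd n (Fin.castAdd n j))))
    (fun m => ∏ j, (X (Sum.inr (Fin.castAdd n (Fin.natAdd n j))) ^ (m j).toNat *
      X (Sum.inr (Fin.natAdd (n + n) j)) ^ (-m j).toNat))

private theorem dr4_pol {F : Type*} [Field F] [Algebra ℂ F] {r n : ℕ} (x y : Fin n → F)
    (hy : ∀ j, y j ≠ 0) (V : Fin (r + 1) ⊕ Fin (n + n + n) → F)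
    (h1 : ∀ j, V (Sum.inr (Fin.castAdd n (Fin.castAdd n j))) = x j)
    (h2 : ∀ j, V (Sum.inr (Fin.castAdd n (Fin.natAdd n j))) = y j)
    (h3 : ∀ j, V (Sum.inr (Fin.natAdd (n + n) j)) = (y j)⁻¹) (d : (Fin n → ℤ) ⊕ (Fin n → ℤ)) :
    aeval V (dr4pol r n d) = dr4ev x y d := by
  rcases d with m | m
  · show aeval V (∑ j, C (m j : ℂ) * X (Sum.inr (Fin.castAdd n (Fin.castAdd n j)))) = li m x
    unfold li
    rw [map_sum]
    refine Finset.sum_congr rfl fun j _ => ?_
    rw [map_mul, aeval_X, h1, ← MvPolynomial.algebraMap_eq, AlgHom.commutes, map_intCast]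
  · show aeval V (∏ j, (X (Sum.inr (Fin.castAdd n (Fin.natAdd n j))) ^ (m j).toNat *
      X (Sum.inr (Fin.natAdd (n + n) j)) ^ (-m j).toNat)) = mo m y
    unfold mo
    rw [map_prod]
    refine Finset.prod_congr rfl fun j _ => ?_
    rw [map_mul, map_pow, map_pow, aeval_X, aeval_X, h2, h3, inv_pow, ← zpow_natCast,
      ← zpow_natCast, ← zpow_neg, ← zpow_add₀ (hy j)]
    congr 1
    omega

private theorem dr4_one {F : Type*} [Field F] [Algebra ℂ F] (a : F) :
    AlgebraicIndependent ℂ (fun _ : Fin 1 => a) ↔ a ∉ cl (∅ : Set F) := by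
  have hr : Set.range (fun _ : Fin 1 => a) = insert a ∅ := by
    ext z
    simp [eq_comm]
  have h0 : rk (∅ : Set F) = 0 := by
    unfold rk
    exact Matroid.eRk_empty _
  rw [← rk_eq_iff, hr, Fintype.card_fin]
  constructor
  · intro h1 h2
    rw [rk_insert_mem h2, h0] at h1
    norm_num at h1
  · intro h1
    rw [rk_insert_not h1, h0]
    norm_num

/-- a finite set is the range of an injective family -/
private theorem dr4_enum {α : Type*} (I : Set α) (q : ℕ) (hI : I.encard = q) :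
    ∃ e : Fin q → α, Function.Injective e ∧ Set.range e = I := by
  have hfin : I.Finite := Set.finite_of_encard_eq_coe hI
  have hc : hfin.toFinset.card = q := by
    rw [hfin.encard_eq_coe_toFinset_card] at hI
    exact_mod_cast hI
  let e := (hfin.toFinset.equivFinOfCardEq hc).symm
  refine ⟨fun i => (e i : α), fun i j hij => e.injective (Subtype.ext hij), ?_⟩
  ext z
  constructor
  · rintro ⟨i, rfl⟩
    exact hfin.mem_toFinset.1 (e i).2
  · intro hz
    refine ⟨e.symm ⟨z, hfin.mem_toFinset.2 hz⟩, ?_⟩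
    simp

private theorem dr4_ind {F : Type*} [Field F] [Algebra ℂ F] {ι : Type*} {e : ι → F}
    (he : Function.Injective e) (h : (AlgebraicIndependent.matroid ℂ F).Indep (Set.range e)) :
    AlgebraicIndependent ℂ e :=
  (algebraicIndependent_subtype_range he).1 (AlgebraicIndependent.matroid_indep_iff.1 h)

/-- a transcendence basis which contains `g` -/
private theorem dr4_basis {F : Type*} [Field F] [Algebra ℂ F] {X : Set F} {r : ℕ} {g : F}
    (hX : rk X = (r : ℕ∞) + 1) (hgX : g ∈ cl X) (hg0 : g ∉ cl (∅ : Set F)) :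
    ∃ b : Fin r → F, AlgebraicIndependent ℂ (Fin.snoc b g : Fin (r + 1) → F) ∧
      ∀ a ∈ X, a ∈ cl (Set.range (Fin.snoc b g : Fin (r + 1) → F)) := by
  have hgi : (AlgebraicIndependent.matroid ℂ F).Indep {g} := by
    have h1 : AlgebraicIndependent ℂ (fun _ : Fin 1 => g) := (dr4_one g).2 hg0
    have h2 := AlgebraicIndependent.matroid_indep_iff.2
      ((algebraicIndependent_subtype_range h1.injective).2 h1)
    have h3 : Set.range (fun _ : Fin 1 => g) = {g} := by
      ext z
      simp [eq_comm]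
    rw [h3] at h2
    exact h2
  obtain ⟨B, hB, hgB⟩ := hgi.subset_isBasis_of_subset
    (show {g} ⊆ insert g X from Set.singleton_subset_iff.2 (Set.mem_insert _ _))
    (by rw [AlgebraicIndependent.matroid_e]; exact Set.subset_univ _)
  have hgB' : g ∈ B := hgB rfl
  have hBc : B.encard = (r : ℕ∞) + 1 := by
    rw [hB.encard_eq_eRk]
    show rk (insert g X) = _
    rw [rk_insert_mem hgX, hX]
  have hBd : (B \ {g}).encard = r := by
    have h1 := Set.encard_sdiff_singleton_add_one hgB'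
    rw [hBc] at h1
    exact ENat.add_left_injective_of_ne_top (n := 1) (by norm_num) h1
  obtain ⟨b, hb1, hb2⟩ := dr4_enum _ _ hBd
  obtain ⟨w, hw⟩ : ∃ w : Fin (r + 1) → F, w = Fin.snoc b g := ⟨_, rfl⟩
  have hwl : w (Fin.last r) = g := by rw [hw, Fin.snoc_last]
  have hwc : ∀ i : Fin r, w i.castSucc = b i := by
    intro i
    rw [hw, Fin.snoc_castSucc]
  have hbg : ∀ i, b i ≠ g := by
    intro i h
    have h1 : b i ∈ B \ {g} := by
      rw [← hb2]
      exact ⟨i, rfl⟩
    exact h1.2 h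
  have hinj : Function.Injective w := by
    intro i
    refine Fin.lastCases ?_ (fun i' => ?_) i
    · intro j
      refine Fin.lastCases (fun _ => rfl) (fun j' h => ?_) j
      rw [hwl, hwc] at h
      exact absurd h.symm (hbg j')
    · intro j
      refine Fin.lastCases (fun h => ?_) (fun j' h => ?_) j
      · rw [hwl, hwc] at h
        exact absurd h (hbg i')
      · rw [hwc, hwc] at h
        rw [hb1 h]
  have hran : Set.range w = B := by
    ext z
    constructor
    · rintro ⟨i, rfl⟩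
      refine Fin.lastCases ?_ (fun i' => ?_) i
      · rw [hwl]
        exact hgB'
      · rw [hwc]
        have h1 : b i' ∈ B \ {g} := by
          rw [← hb2]
          exact ⟨i', rfl⟩
        exact h1.1
    · intro hz
      by_cases h : z = g
      · exact ⟨Fin.last r, by rw [hwl, h]⟩
      · have h1 : z ∈ Set.range b := by
          rw [hb2]
          exact ⟨hz, h⟩
        obtain ⟨i, rfl⟩ := h1
        exact ⟨i.castSucc, hwc i⟩
  refine ⟨b, ?_, fun a ha => ?_⟩
  · rw [← hw]
    refine dr4_ind hinj ?_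
    rw [hran]
    exact hB.indep
  · rw [← hw, hran, cl_eq]
    exact hB.subset_closure (Set.mem_insert_of_mem _ ha)

theorem dim_step {F : Type*} [Field F] [Algebra ℂ F] {n : ℕ} {x y : Fin n → F} (h : FR0 x y)
    (hr : (n : ℕ∞) < rk (Set.range x ∪ Set.range y)) :
    ∃ (K : Type) (_ : Field K) (_ : Algebra ℂ K) (x' y' : Fin n → K), FR0 x' y' ∧
      IsSpec (Sum.elim x y) (Sum.elim x' y') ∧ rk (Set.range x) ≤ rk (Set.range x') ∧
      (∀ b : Fin n → ℤ, rk (insert (mo b y) (Set.range x)) ≤ n →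
        rk (insert (mo b y) (Set.range x)) ≤ rk (insert (mo b y') (Set.range x'))) ∧
      rk (Set.range x' ∪ Set.range y') < rk (Set.range x ∪ Set.range y) := by
  classical
  obtain ⟨X, hXd⟩ : ∃ X, X = Set.range x ∪ Set.range y := ⟨_, rfl⟩
  rw [← hXd] at hr ⊢
  -- the rank
  have hXr : X = Set.range (Sum.elim x y) := by rw [hXd, Set.Sum.elim_range]
  have hXfin : rk X ≤ ((n + n : ℕ) : ℕ∞) := by
    rw [hXr]
    refine (rk_range_le _).trans ?_
    rw [Fintype.card_sum, Fintype.card_fin]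
  obtain ⟨R, hR⟩ := ENat.ne_top_iff_exists.1 (ne_top_of_le_ne_top (ENat.natCast_ne_top _) hXfin)
  rw [← hR] at hr
  have hnR : n < R := by exact_mod_cast hr
  obtain ⟨r, rfl⟩ : ∃ r, R = r + 1 := ⟨R - 1, by omega⟩
  have hrk : rk X = (r : ℕ∞) + 1 := by
    rw [← hR]
    norm_cast
  rw [hrk]
  have hnr : n ≤ r := by omega
  -- the generic linear combination
  obtain ⟨u, hud⟩ : ∃ u : Fin (n + n) → F, u = Fin.append x y := ⟨_, rfl⟩
  have hul : ∀ j, u (Fin.castAdd n j) = x j := by
    intro j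
    rw [hud, Fin.append_left]
  have hur : ∀ j, u (Fin.natAdd n j) = y j := by
    intro j
    rw [hud, Fin.append_right]
  have huX : ∀ i, u i ∈ X := by
    intro i
    refine Fin.addCases (fun j => ?_) (fun j => ?_) i
    · rw [hul, hXd]
      exact Or.inl ⟨j, rfl⟩
    · rw [hur, hXd]
      exact Or.inr ⟨j, rfl⟩
  obtain ⟨𝒮, h𝒮⟩ : ∃ 𝒮 : Set (Set F), 𝒮 = (fun D : (Σ k : ℕ, Fin k → (Fin n → ℤ) ⊕ (Fin n → ℤ)) =>
      Set.range (fun i => dr4ev x y (D.2 i))) '' {D | D.1 ≤ n} := ⟨_, rfl⟩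
  have hcount : 𝒮.Countable := by
    rw [h𝒮]
    exact (Set.to_countable _).image _
  have hex : ∀ S ∈ 𝒮, ∃ i, u i ∉ cl S := by
    intro S hS
    by_contra hc
    push Not at hc
    rw [h𝒮] at hS
    obtain ⟨⟨k, D⟩, hk, rfl⟩ := hS
    have hk' : k ≤ n := hk
    have h1 : rk X ≤ rk (Set.range (fun i : Fin k => dr4ev x y (D i))) := by
      refine rk_mono ?_
      rw [hXd]
      rintro a (⟨j, rfl⟩ | ⟨j, rfl⟩)
      · rw [← hul]
        exact hc _
      · rw [← hur]
        exact hc _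
    have h2 : rk (Set.range (fun i : Fin k => dr4ev x y (D i))) ≤ (Fintype.card (Fin k) : ℕ∞) :=
      rk_range_le _
    rw [Fintype.card_fin] at h2
    rw [hrk] at h1
    have h3 : ((r + 1 : ℕ) : ℕ∞) ≤ (k : ℕ∞) := by
      push_cast
      exact h1.trans h2
    have h4 : r + 1 ≤ k := by exact_mod_cast h3
    omega
  obtain ⟨ξ, hξ⟩ := exists_generic u 𝒮 hcount hex
  obtain ⟨g, hg⟩ : ∃ g, g = ∑ i : Fin (n + n), algebraMap ℂ F ξ ^ (i : ℕ) * u i := ⟨_, rfl⟩
  rw [← hg] at hξ
  have hgX : g ∈ cl X := by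
    obtain ⟨K₀, hK₀⟩ := cl_field X
    have hmem : ∀ a : F, a ∈ K₀ ↔ a ∈ cl X := fun a => by rw [← hK₀]; rfl
    rw [← hmem, hg]
    exact sum_mem fun i _ => mul_mem (pow_mem (K₀.algebraMap_mem ξ) _)
      ((hmem _).2 (subset_cl _ (huX i)))
  have hg0 : g ∉ cl (∅ : Set F) := by
    refine hξ ∅ ?_
    rw [h𝒮]
    refine ⟨⟨0, fun i => i.elim0⟩, Nat.zero_le _, ?_⟩
    ext z
    simp
  obtain ⟨b, hbg, hbX⟩ := dr4_basis hrk hgX hg0
  -- the family to be specialised
  obtain ⟨U, hU⟩ : ∃ U : Fin (n + n + n) → F, U = Fin.append (Fin.append x y) (fun j => (y j)⁻¹) :=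
    ⟨_, rfl⟩
  have hU1 : ∀ j, U (Fin.castAdd n (Fin.castAdd n j)) = x j := by
    intro j
    rw [hU, Fin.append_left, Fin.append_left]
  have hU2 : ∀ j, U (Fin.castAdd n (Fin.natAdd n j)) = y j := by
    intro j
    rw [hU, Fin.append_left, Fin.append_right]
  have hU3 : ∀ j, U (Fin.natAdd (n + n) j) = (y j)⁻¹ := by
    intro j
    rw [hU, Fin.append_right]
  have hUcl : ∀ i, U i ∈ cl (Set.range (Fin.snoc b g : Fin (r + 1) → F)) := by
    intro i
    refine Fin.addCases (fun j => ?_) (fun j => ?_) i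
    · refine Fin.addCases (fun l => ?_) (fun l => ?_) j
      · rw [hU1]
        refine hbX _ ?_
        rw [hXd]
        exact Or.inl ⟨l, rfl⟩
      · rw [hU2]
        refine hbX _ ?_
        rw [hXd]
        exact Or.inr ⟨l, rfl⟩
    · rw [hU3]
      obtain ⟨K₀, hK₀⟩ := cl_field (Set.range (Fin.snoc b g : Fin (r + 1) → F))
      have hmem : ∀ a : F, a ∈ K₀ ↔ a ∈ cl (Set.range (Fin.snoc b g : Fin (r + 1) → F)) :=
        fun a => by rw [← hK₀]; rfl
      rw [← hmem]
      refine inv_mem ((hmem _).2 (hbX _ ?_))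
      rw [hXd]
      exact Or.inr ⟨j, rfl⟩
  obtain ⟨W, hW⟩ : ∃ W : Fin (r + 1) ⊕ Fin (n + n + n) → F,
      W = Sum.elim (Fin.snoc b g : Fin (r + 1) → F) U := ⟨_, rfl⟩
  have hWr : ∀ i, W (Sum.inr i) = U i := by
    intro i
    rw [hW, Sum.elim_inr]
  have hWp : ∀ d, aeval W (dr4pol r n d) = dr4ev x y d :=
    dr4_pol x y h.nz W (fun j => by rw [hWr, hU1]) (fun j => by rw [hWr, hU2])
      (fun j => by rw [hWr, hU3])
  obtain ⟨K, iF, iA, β, iC, hβ, hβcl⟩ := exists_target r
  obtain ⟨uc, E, hE, hspc⟩ := spc (K := K) hbg hβ hUcl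
  -- the independent families
  have hind : ∀ D : (Σ k : ℕ, Fin k → (Fin n → ℤ) ⊕ (Fin n → ℤ)), D.1 ≤ n →
      AlgebraicIndependent ℂ (fun i => dr4ev x y (D.2 i)) → ∃ E' : Set ℂ, E'.Finite ∧ ∀ c ∉ E',
        ∀ v : Fin (n + n + n) → K, IsSpec W
          (Sum.elim (Fin.snoc β (algebraMap ℂ K c) : Fin (r + 1) → K) v) →
        AlgebraicIndependent ℂ (fun i => aeval
          (Sum.elim (Fin.snoc β (algebraMap ℂ K c) : Fin (r + 1) → K) v) (dr4pol r n (D.2 i))) := by
    rintro ⟨k, D⟩ hk hD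
    have hk' : k ≤ n := hk
    have hDi : AlgebraicIndependent ℂ (fun i : Fin k => dr4ev x y (D i)) := hD
    have hgS : g ∉ cl (Set.range (fun i : Fin k => dr4ev x y (D i))) := by
      refine hξ _ ?_
      rw [h𝒮]
      exact ⟨⟨k, D⟩, hk', rfl⟩
    have hran : Set.range (Fin.snoc (fun i : Fin k => dr4ev x y (D i)) g : Fin (k + 1) → F) =
        insert g (Set.range (fun i : Fin k => dr4ev x y (D i))) := by
      ext z
      constructor
      · rintro ⟨i, rfl⟩
        refine Fin.lastCases ?_ (fun i' => ?_) i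
        · rw [Fin.snoc_last]
          exact Set.mem_insert _ _
        · rw [Fin.snoc_castSucc]
          exact Set.mem_insert_of_mem _ ⟨i', rfl⟩
      · rintro (rfl | ⟨i, rfl⟩)
        · exact ⟨Fin.last k, Fin.snoc_last _ _⟩
        · exact ⟨i.castSucc, Fin.snoc_castSucc _ _ _⟩
    have hS : AlgebraicIndependent ℂ (Fin.snoc (fun i : Fin k => aeval
        (Sum.elim (Fin.snoc b g : Fin (r + 1) → F) U) (dr4pol r n (D i))) g : Fin (k + 1) → F) := by
      have h1 : (fun i : Fin k => aeval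
          (Sum.elim (Fin.snoc b g : Fin (r + 1) → F) U) (dr4pol r n (D i))) =
          (fun i : Fin k => dr4ev x y (D i)) := by
        funext i
        rw [← hW, hWp]
      rw [h1, ← rk_eq_iff, hran, rk_insert_not hgS, (rk_eq_iff _).2 hDi]
      simp
    obtain ⟨E', hE', h'⟩ := spec_indep hbg hβ hUcl (fun i : Fin k => dr4pol r n (D i)) hS
    refine ⟨E', hE', fun c hc v hv => ?_⟩
    rw [hW] at hv
    exact h' c hc v hv
  choose! ED hED1 hED2 using hind
  have hbad : (E ∪ ⋃ D ∈ {D : (Σ k : ℕ, Fin k → (Fin n → ℤ) ⊕ (Fin n → ℤ)) | D.1 ≤ n ∧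
      AlgebraicIndependent ℂ (fun i => dr4ev x y (D.2 i))}, ED D).Countable := by
    refine hE.countable.union ?_
    refine Set.Countable.biUnion (Set.to_countable _) fun D hD => ?_
    exact (hED1 D hD.1 hD.2).countable
  obtain ⟨c, hc⟩ : ∃ c, c ∉ (E ∪ ⋃ D ∈ {D : (Σ k : ℕ, Fin k → (Fin n → ℤ) ⊕ (Fin n → ℤ)) |
      D.1 ≤ n ∧ AlgebraicIndependent ℂ (fun i => dr4ev x y (D.2 i))}, ED D) := by
    by_contra hcon
    push Not at hcon
    have h1 : (Set.univ : Set ℂ).Countable := hbad.mono fun z _ => hcon z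
    exact not_countable_complex h1
  have hcE : c ∉ E := fun h' => hc (Or.inl h')
  have hcD : ∀ D : (Σ k : ℕ, Fin k → (Fin n → ℤ) ⊕ (Fin n → ℤ)), D.1 ≤ n →
      AlgebraicIndependent ℂ (fun i => dr4ev x y (D.2 i)) → c ∉ ED D := by
    intro D h1 h2 h3
    exact hc (Or.inr (Set.mem_biUnion (show D ∈ {D : (Σ k : ℕ, Fin k → (Fin n → ℤ) ⊕ (Fin n → ℤ)) |
      D.1 ≤ n ∧ AlgebraicIndependent ℂ (fun i => dr4ev x y (D.2 i))} from ⟨h1, h2⟩) h3))
  have hsp := hspc c hcE
  obtain ⟨V, hV⟩ : ∃ V : Fin (r + 1) ⊕ Fin (n + n + n) → K,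
      V = Sum.elim (Fin.snoc β (algebraMap ℂ K c) : Fin (r + 1) → K) (uc c) := ⟨_, rfl⟩
  rw [← hV, ← hW] at hsp
  have hVr : ∀ i, V (Sum.inr i) = uc c i := by
    intro i
    rw [hV, Sum.elim_inr]
  obtain ⟨x', hx'⟩ : ∃ x' : Fin n → K, ∀ j, x' j = uc c (Fin.castAdd n (Fin.castAdd n j)) :=
    ⟨fun j => uc c (Fin.castAdd n (Fin.castAdd n j)), fun _ => rfl⟩
  obtain ⟨y', hy'⟩ : ∃ y' : Fin n → K, ∀ j, y' j = uc c (Fin.castAdd n (Fin.natAdd n j)) :=
    ⟨fun j => uc c (Fin.castAdd n (Fin.natAdd n j)), fun _ => rfl⟩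
  have hyy : ∀ j, y' j * uc c (Fin.natAdd (n + n) j) = 1 := by
    intro j
    have h1 : aeval W (MvPolynomial.X (Sum.inr (Fin.castAdd n (Fin.natAdd n j))) *
        MvPolynomial.X (Sum.inr (Fin.natAdd (n + n) j)) - 1 :
        MvPolynomial (Fin (r + 1) ⊕ Fin (n + n + n)) ℂ) = 0 := by
      rw [map_sub, map_mul, aeval_X, aeval_X, map_one, hWr, hWr, hU2, hU3,
        mul_inv_cancel₀ (h.nz j), sub_self]
    have h2 := hsp _ h1
    rw [map_sub, map_mul, aeval_X, aeval_X, map_one, hVr, hVr, ← hy'] at h2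
    exact sub_eq_zero.1 h2
  have hy0 : ∀ j, y' j ≠ 0 := by
    intro j h0
    have h1 := hyy j
    rw [h0, zero_mul] at h1
    exact zero_ne_one h1
  have hVp : ∀ d, aeval V (dr4pol r n d) = dr4ev x' y' d :=
    dr4_pol x' y' hy0 V (fun j => by rw [hVr, hx']) (fun j => by rw [hVr, hy'])
      (fun j => by rw [hVr]; exact eq_inv_of_mul_eq_one_right (hyy j))
  have hkey : ∀ (k : ℕ) (D : Fin k → (Fin n → ℤ) ⊕ (Fin n → ℤ)), k ≤ n →
      AlgebraicIndependent ℂ (fun i => dr4ev x y (D i)) →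
      AlgebraicIndependent ℂ (fun i => dr4ev x' y' (D i)) := by
    intro k D hk hD
    have h1 := hED2 ⟨k, D⟩ hk hD c (hcD ⟨k, D⟩ hk hD) (uc c) (by rw [← hV]; exact hsp)
    rw [← hV] at h1
    have h2 : (fun i : Fin k => aeval V (dr4pol r n (D i))) = (fun i => dr4ev x' y' (D i)) := by
      funext i
      rw [hVp]
    rw [← h2]
    exact h1
  refine ⟨K, iF, iA, x', y', ⟨hy0, ?_, ?_, ?_⟩, ?_, ?_, ?_, ?_⟩
  · -- additively free
    intro m hm c₀ h0
    have hn : 1 ≤ n := by
      rcases Nat.eq_zero_or_pos n with h1 | h1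
      · subst h1
        exact absurd (Subsingleton.elim m 0) hm
      · exact h1
    have h1 : AlgebraicIndependent ℂ (fun i : Fin 1 => dr4ev x y ((fun _ => Sum.inl m) i)) := by
      refine (dr4_one _).2 fun h2 => ?_
      obtain ⟨c₁, hc₁⟩ := cl_empty h2
      exact h.af m hm c₁ hc₁
    have h2 := (dr4_one _).1 (hkey 1 (fun _ => Sum.inl m) hn h1)
    apply h2
    show li m x' ∈ cl ∅
    rw [h0]
    exact cl_const _ _
  · -- multiplicatively free
    intro m hm c₀ h0
    have hn : 1 ≤ n := by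
      rcases Nat.eq_zero_or_pos n with h1 | h1
      · subst h1
        exact absurd (Subsingleton.elim m 0) hm
      · exact h1
    have h1 : AlgebraicIndependent ℂ (fun i : Fin 1 => dr4ev x y ((fun _ => Sum.inr m) i)) := by
      refine (dr4_one _).2 fun h2 => ?_
      obtain ⟨c₁, hc₁⟩ := cl_empty h2
      exact h.mf m hm c₁ hc₁
    have h2 := (dr4_one _).1 (hkey 1 (fun _ => Sum.inr m) hn h1)
    apply h2
    show mo m y' ∈ cl ∅
    rw [h0]
    exact cl_const _ _
  · -- rotund
    intro k M hk1 hkn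
    obtain ⟨q, hq⟩ : ∃ q, q = (M.map (Int.cast : ℤ → ℚ)).rank := ⟨_, rfl⟩
    have hqk : q ≤ k := by
      rw [hq]
      have := Matrix.rank_le_card_height (M.map (Int.cast : ℤ → ℚ))
      rwa [Fintype.card_fin] at this
    have h1 := h.rot k M hk1 hkn
    rw [← hq] at h1 ⊢
    obtain ⟨I, hI1, hI2, hI3⟩ := (Matroid.le_eRk_iff (M := AlgebraicIndependent.matroid ℂ F)).1 h1
    obtain ⟨e, he1, he2⟩ := dr4_enum I q hI3
    have he3 : AlgebraicIndependent ℂ e := by
      refine dr4_ind he1 ?_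
      rw [he2]
      exact hI2
    have hD : ∀ i : Fin q, ∃ d : (Fin n → ℤ) ⊕ (Fin n → ℤ), dr4ev x y d = e i ∧
        dr4ev x' y' d ∈ Set.range (fun i => li (M i) x') ∪ Set.range (fun i => mo (M i) y') := by
      intro i
      have h2 : e i ∈ I := by
        rw [← he2]
        exact ⟨i, rfl⟩
      rcases hI1 h2 with ⟨l, hl⟩ | ⟨l, hl⟩
      · exact ⟨Sum.inl (M l), hl, Or.inl ⟨l, rfl⟩⟩
      · exact ⟨Sum.inr (M l), hl, Or.inr ⟨l, rfl⟩⟩
    choose D hD1 hD2 using hD
    have h3 : AlgebraicIndependent ℂ (fun i => dr4ev x y (D i)) := by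
      have : (fun i => dr4ev x y (D i)) = e := funext hD1
      rw [this]
      exact he3
    have h4 := hkey q D (hqk.trans hkn) h3
    have h5 := (rk_eq_iff _).2 h4
    rw [Fintype.card_fin] at h5
    rw [← h5]
    refine rk_mono fun a ha => ?_
    obtain ⟨i, rfl⟩ := ha
    exact subset_cl _ (hD2 i)
  · -- specialisation
    intro f hf
    obtain ⟨ρ, hρ⟩ : ∃ ρ : Fin n ⊕ Fin n → Fin (r + 1) ⊕ Fin (n + n + n), ρ = Sum.elim
        (fun j => Sum.inr (Fin.castAdd n (Fin.castAdd n j)))
        (fun j => Sum.inr (Fin.castAdd n (Fin.natAdd n j))) := ⟨_, rfl⟩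
    have h1 : W ∘ ρ = Sum.elim x y := by
      funext j
      rw [Function.comp_apply, hρ]
      rcases j with j | j
      · rw [Sum.elim_inl, Sum.elim_inl, hWr, hU1]
      · rw [Sum.elim_inr, Sum.elim_inr, hWr, hU2]
    have h2 : V ∘ ρ = Sum.elim x' y' := by
      funext j
      rw [Function.comp_apply, hρ]
      rcases j with j | j
      · rw [Sum.elim_inl, Sum.elim_inl, hVr, hx']
      · rw [Sum.elim_inr, Sum.elim_inr, hVr, hy']
    have h3 : aeval W (rename ρ f) = 0 := by
      rw [aeval_rename, h1]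
      exact hf
    have h4 := hsp _ h3
    rw [aeval_rename, h2] at h4
    exact h4
  · -- the rank of `x`
    have h0 : rk (Set.range x) ≤ (n : ℕ∞) := by
      have h1 := rk_range_le x
      rwa [Fintype.card_fin] at h1
    obtain ⟨q, hq⟩ := ENat.ne_top_iff_exists.1 (ne_top_of_le_ne_top (ENat.natCast_ne_top _) h0)
    have hqn : q ≤ n := by
      rw [← hq] at h0
      exact_mod_cast h0
    have h1 : (q : ℕ∞) ≤ rk (Set.range x) := hq.le
    rw [← hq]
    obtain ⟨I, hI1, hI2, hI3⟩ := (Matroid.le_eRk_iff (M := AlgebraicIndependent.matroid ℂ F)).1 h1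
    obtain ⟨e, he1, he2⟩ := dr4_enum I q hI3
    have he3 : AlgebraicIndependent ℂ e := by
      refine dr4_ind he1 ?_
      rw [he2]
      exact hI2
    have hD : ∀ i : Fin q, ∃ d : (Fin n → ℤ) ⊕ (Fin n → ℤ), dr4ev x y d = e i ∧
        dr4ev x' y' d ∈ Set.range x' := by
      intro i
      have h2 : e i ∈ I := by
        rw [← he2]
        exact ⟨i, rfl⟩
      obtain ⟨l, hl⟩ := hI1 h2
      refine ⟨Sum.inl (Pi.single l 1), ?_, l, ?_⟩
      · rw [← hl]
        exact li_single x l
      · exact (li_single x' l).symm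
    choose D hD1 hD2 using hD
    have h3 : AlgebraicIndependent ℂ (fun i => dr4ev x y (D i)) := by
      have : (fun i => dr4ev x y (D i)) = e := funext hD1
      rw [this]
      exact he3
    have h4 := hkey q D hqn h3
    have h5 := (rk_eq_iff _).2 h4
    rw [Fintype.card_fin] at h5
    rw [← h5]
    refine rk_mono fun a ha => ?_
    obtain ⟨i, rfl⟩ := ha
    exact subset_cl _ (hD2 i)
  · -- the rank of `x` and one monomial
    intro b₀ h0
    obtain ⟨q, hq⟩ := ENat.ne_top_iff_exists.1 (ne_top_of_le_ne_top (ENat.natCast_ne_top _) h0)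
    have hqn : q ≤ n := by
      rw [← hq] at h0
      exact_mod_cast h0
    have h1 : (q : ℕ∞) ≤ rk (insert (mo b₀ y) (Set.range x)) := hq.le
    rw [← hq]
    obtain ⟨I, hI1, hI2, hI3⟩ := (Matroid.le_eRk_iff (M := AlgebraicIndependent.matroid ℂ F)).1 h1
    obtain ⟨e, he1, he2⟩ := dr4_enum I q hI3
    have he3 : AlgebraicIndependent ℂ e := by
      refine dr4_ind he1 ?_
      rw [he2]
      exact hI2
    have hD : ∀ i : Fin q, ∃ d : (Fin n → ℤ) ⊕ (Fin n → ℤ), dr4ev x y d = e i ∧
        dr4ev x' y' d ∈ insert (mo b₀ y') (Set.range x') := by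
      intro i
      have h2 : e i ∈ I := by
        rw [← he2]
        exact ⟨i, rfl⟩
      rcases hI1 h2 with hl | ⟨l, hl⟩
      · exact ⟨Sum.inr b₀, hl.symm, Or.inl rfl⟩
      · refine ⟨Sum.inl (Pi.single l 1), ?_, Or.inr ⟨l, ?_⟩⟩
        · rw [← hl]
          exact li_single x l
        · exact (li_single x' l).symm
    choose D hD1 hD2 using hD
    have h3 : AlgebraicIndependent ℂ (fun i => dr4ev x y (D i)) := by
      have : (fun i => dr4ev x y (D i)) = e := funext hD1
      rw [this]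
      exact he3
    have h4 := hkey q D hqn h3
    have h5 := (rk_eq_iff _).2 h4
    rw [Fintype.card_fin] at h5
    rw [← h5]
    refine rk_mono fun a ha => ?_
    obtain ⟨i, rfl⟩ := ha
    exact subset_cl _ (hD2 i)
  · -- the rank
    have h1 : rk (Set.range x' ∪ Set.range y') ≤ rk (Set.range β) := rk_mono fun a _ => hβcl a
    have h2 : rk (Set.range β) ≤ (Fintype.card (Fin r) : ℕ∞) := rk_range_le β
    rw [Fintype.card_fin] at h2
    refine lt_of_le_of_lt (h1.trans h2) ?_
    exact_mod_cast Nat.lt_succ_self r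

end XA
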