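import Pool.Agent.Lib.MP_228259_lc.A.DR

/-!
DRK: the target field.

PROOF. `K = AlgebraicClosure (FractionRing (MvPolynomial (Fin r) ℂ))`, `β i` the image of `X i`.
`β` is algebraically independent because `MvPolynomial (Fin r) ℂ → K` is injective
(`MvPolynomial.algebraicIndependent_X`, `AlgebraicIndependent.map'` or
`algebraicIndependent_iff_injective_aeval`). Every element of `K` is algebraic over the fraction
field, hence over `MvPolynomial (Fin r) ℂ` (`IsFractionRing.isAlgebraic_iff` /
`IsFractionRing.comap_isAlgebraic_iff`), whose image is `adjoin ℂ (range β)`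
(`Algebra.adjoin_range_eq_range_aeval`).
-/

namespace XA

open MvPolynomial

theorem exists_target (r : ℕ) : ∃ (K : Type) (_ : Field K) (_ : Algebra ℂ K) (β : Fin r → K),
    IsAlgClosed K ∧ AlgebraicIndependent ℂ β ∧ ∀ a : K, a ∈ cl (Set.range β) := by
  let R := MvPolynomial (Fin r) ℂ
  let Q := FractionRing R
  let K := AlgebraicClosure Q
  let aK : Algebra ℂ K := ((algebraMap Q K).comp ((algebraMap R Q).comp MvPolynomial.C)).toAlgebra
  let ρ : R →+* K := (algebraMap Q K).comp (algebraMap R Q)
  have hρ : Function.Injective ρ :=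
    (algebraMap Q K).injective.comp (IsFractionRing.injective R Q)
  let β : Fin r → K := fun i => ρ (X i)
  have hβ : ∀ f : R, aeval β f = ρ f := by
    intro f
    induction f using MvPolynomial.induction_on with
    | C a => rw [aeval_C]; rfl
    | add p q hp hq => rw [map_add, map_add, hp, hq]
    | mul_X p i hp => rw [map_mul, map_mul, hp, aeval_X]
  refine ⟨K, inferInstance, aK, β, inferInstance, ?_, ?_⟩
  · intro f g hfg
    have h1 : aeval β f = aeval β g := hfg
    rw [hβ, hβ] at h1
    exact hρ h1
  · intro a
    show IsAlgebraic (Algebra.adjoin ℂ (Set.range β)) a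
    have h1 : IsAlgebraic Q a := Algebra.IsAlgebraic.isAlgebraic a
    have h2 : IsAlgebraic R a := (IsFractionRing.isAlgebraic_iff R Q K).2 h1
    have hmap : algebraMap R K = ρ := IsScalarTower.algebraMap_eq R Q K
    obtain ⟨p, hp, hpa⟩ := h2
    let φ : R →+* Algebra.adjoin ℂ (Set.range β) := ρ.codRestrict
      (Algebra.adjoin ℂ (Set.range β)).toSubring (fun f => by
        rw [← hβ, Algebra.adjoin_range_eq_range_aeval]
        exact ⟨f, rfl⟩)
    have hφ : Function.Injective φ := fun x y hxy => hρ (congrArg Subtype.val hxy)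
    refine ⟨p.map φ, (Polynomial.map_ne_zero_iff hφ).2 hp, ?_⟩
    rw [Polynomial.aeval_def, Polynomial.eval₂_map]
    rw [Polynomial.aeval_def, hmap] at hpa
    exact hpa

end XA
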