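import Pool.Agent.Lib.MP_228259_lc.A.DR

/-!
DRN: a non-zero element stays non-zero for almost all `c`.

PROOF. Let `w = aeval (Sum.elim (Fin.snoc b g) u) h ≠ 0`; `w ∈ cl (range (Fin.snoc b g))` (a
polynomial in elements of the intermediate field of `cl_field`). So there is a polynomial
`Q = ∑ Q_k T^k` over `adjoin ℂ (range (Fin.snoc b g)) = range (aeval (Fin.snoc b g))` with `Q(w) = 0`
and `Q_0 ≠ 0` (`IsAlgebraic.exists_nonzero_coeff_and_aeval_eq_zero`, `w` is not a zero divisor); let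
`Q_k = aeval (Fin.snoc b g) (r_k)`, `r_k ∈ MvPolynomial (Fin (r + 1)) ℂ`, `r_0 ≠ 0`. The polynomial
`f = ∑ (rename inl r_k) * h ^ k` has `aeval (Sum.elim (Fin.snoc b g) u) f = 0`. So for a
specialisation `v` over `c` with `aeval (...) h = 0` one gets `aeval (Fin.snoc β c) r_0 = 0`
(`aeval_rename`). Let
`E` be the set of `c` with `aeval (Fin.snoc β c) r_0 = 0`: finite, because `β` is algebraically
independent: choose `x₀ : Fin (r + 1) → ℂ` with `eval x₀ r_0 ≠ 0` (`MvPolynomial.funext`); the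
polynomial `P₀(c) = eval (Fin.snoc (x₀ ∘ castSucc) c) r_0` in one variable is not zero, and if
`aeval (Fin.snoc β c) r_0 = aeval β (r_0 with X last := c) = 0` then the polynomial `r_0` with
`X last := c` is zero (`hβ`), so `P₀(c) = 0`.
-/

namespace XA

open MvPolynomial

private theorem DRN_snoc {α γ : Type*} (φ : α → γ) {r : ℕ} (x : Fin r → α) (a : α) :
    (fun i => φ ((Fin.snoc x a : Fin (r + 1) → α) i)) =
      (Fin.snoc (fun i => φ (x i)) (φ a) : Fin (r + 1) → γ) := by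
  funext i
  refine Fin.lastCases ?_ (fun i => ?_) i
  · simp
  · simp

/-- the substitution of the last variable of a non-zero polynomial by a number gives zero only for
finitely many numbers -/
private theorem DRN_fin {K : Type*} [Field K] [Algebra ℂ K] {r : ℕ} {β : Fin r → K}
    (hβ : AlgebraicIndependent ℂ β) (p : MvPolynomial (Fin (r + 1)) ℂ) (hp : p ≠ 0) :
    {c : ℂ | aeval (Fin.snoc β (algebraMap ℂ K c) : Fin (r + 1) → K) p = 0}.Finite := by
  obtain ⟨x₀, hx₀⟩ : ∃ x₀ : Fin (r + 1) → ℂ, eval x₀ p ≠ 0 := by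
    by_contra hcon
    push Not at hcon
    exact hp (MvPolynomial.funext fun x => by rw [hcon x, map_zero])
  obtain ⟨P, hP⟩ : ∃ P : Polynomial ℂ, P = aeval (Fin.snoc
    (fun i => Polynomial.C (x₀ (Fin.castSucc i))) Polynomial.X : Fin (r + 1) → Polynomial ℂ) p :=
    ⟨_, rfl⟩
  have hPe : ∀ c : ℂ, P.eval c =
      eval (Fin.snoc (fun i => x₀ (Fin.castSucc i)) c : Fin (r + 1) → ℂ) p := by
    intro c
    have h1 : (Polynomial.aeval c : Polynomial ℂ →ₐ[ℂ] ℂ) P =
        aeval (Fin.snoc (fun i => x₀ (Fin.castSucc i)) c : Fin (r + 1) → ℂ) p := by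
      rw [hP, MvPolynomial.comp_aeval_apply, DRN_snoc]
      simp
    rw [Polynomial.coe_aeval_eq_eval] at h1
    rw [h1, MvPolynomial.aeval_eq_eval]
  have hP0 : P ≠ 0 := by
    intro h0
    apply hx₀
    have h1 := hPe (x₀ (Fin.last r))
    rw [h0, Polynomial.eval_zero] at h1
    have h2 : (Fin.snoc (fun i => x₀ (Fin.castSucc i)) (x₀ (Fin.last r)) : Fin (r + 1) → ℂ) = x₀ := by
      funext i
      refine Fin.lastCases ?_ (fun i => ?_) i
      · simp
      · simp
    rw [h2] at h1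
    exact h1.symm
  refine (Polynomial.finite_setOfPred_isRoot hP0).subset ?_
  intro c hc
  show P.eval c = 0
  rw [Set.mem_ofPred_eq] at hc
  obtain ⟨s, hs⟩ : ∃ s : MvPolynomial (Fin r) ℂ, s = aeval (Fin.snoc
    (fun i => X i) (C c) : Fin (r + 1) → MvPolynomial (Fin r) ℂ) p := ⟨_, rfl⟩
  have h1 : aeval β s = 0 := by
    rw [hs, MvPolynomial.comp_aeval_apply, DRN_snoc]
    rw [← hc]
    congr 2
    simp
  have h2 : s = 0 := (algebraicIndependent_iff.1 hβ) s h1
  have h3 : aeval (fun i => x₀ (Fin.castSucc i)) s =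
      aeval (Fin.snoc (fun i => x₀ (Fin.castSucc i)) c : Fin (r + 1) → ℂ) p := by
    rw [hs, MvPolynomial.comp_aeval_apply, DRN_snoc]
    simp
  rw [h2, map_zero] at h3
  rw [hPe]
  exact h3.symm

theorem spec_ne {F K : Type*} [Field F] [Algebra ℂ F] [Field K] [Algebra ℂ K] {r N : ℕ}
    {b : Fin r → F} {g : F} {β : Fin r → K} (hβ : AlgebraicIndependent ℂ β) {u : Fin N → F}
    (hu : ∀ i, u i ∈ cl (Set.range (Fin.snoc b g : Fin (r + 1) → F)))
    (h : MvPolynomial (Fin (r + 1) ⊕ Fin N) ℂ)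
    (hh : aeval (Sum.elim (Fin.snoc b g : Fin (r + 1) → F) u) h ≠ 0) :
    ∃ E : Set ℂ, E.Finite ∧ ∀ c ∉ E, ∀ v : Fin N → K,
      IsSpec (Sum.elim (Fin.snoc b g : Fin (r + 1) → F) u)
        (Sum.elim (Fin.snoc β (algebraMap ℂ K c) : Fin (r + 1) → K) v) →
      aeval (Sum.elim (Fin.snoc β (algebraMap ℂ K c) : Fin (r + 1) → K) v) h ≠ 0 := by
  classical
  obtain ⟨z, hz⟩ : ∃ z : Fin (r + 1) → F, z = Fin.snoc b g := ⟨_, rfl⟩
  rw [← hz] at hu hh ⊢
  obtain ⟨w, hw⟩ : ∃ w : F, w = aeval (Sum.elim z u) h := ⟨_, rfl⟩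
  rw [← hw] at hh
  obtain ⟨L, hL⟩ := cl_field (Set.range z)
  have hwcl : w ∈ cl (Set.range z) := by
    have h1 : w ∈ L.toSubalgebra := by
      have h2 : w ∈ Algebra.adjoin ℂ (Set.range (Sum.elim z u)) := by
        rw [Algebra.adjoin_range_eq_range_aeval, hw]
        exact ⟨h, rfl⟩
      refine (Algebra.adjoin_le ?_) h2
      rintro _ ⟨i, rfl⟩
      rcases i with i | i
      · have h3 : z i ∈ cl (Set.range z) := subset_cl _ ⟨i, rfl⟩
        rw [← hL] at h3
        exact h3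
      · have h3 := hu i
        rw [← hL] at h3
        exact h3
    rw [← hL]
    exact h1
  have hwalg : IsAlgebraic (Algebra.adjoin ℂ (Set.range z)) w := hwcl
  obtain ⟨q, hq0, hq⟩ := hwalg.exists_nonzero_coeff_and_aeval_eq_zero
    (mem_nonZeroDivisors_of_ne_zero hh)
  have hlift : ∀ a : Algebra.adjoin ℂ (Set.range z), ∃ p : MvPolynomial (Fin (r + 1)) ℂ,
      aeval z p = (a : F) := by
    rintro ⟨a, ha⟩
    show ∃ p : MvPolynomial (Fin (r + 1)) ℂ, aeval z p = a
    rw [Algebra.adjoin_range_eq_range_aeval] at ha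
    exact ha
  choose p hp using fun k => hlift (q.coeff k)
  have hp0 : p 0 ≠ 0 := by
    intro h0
    have h1 := hp 0
    rw [h0, map_zero] at h1
    exact hq0 (Subtype.ext h1.symm)
  obtain ⟨f, hf⟩ : ∃ f : MvPolynomial (Fin (r + 1) ⊕ Fin N) ℂ,
    f = ∑ k ∈ Finset.range (q.natDegree + 1), rename Sum.inl (p k) * h ^ k := ⟨_, rfl⟩
  have hfe : ∀ (v : Fin N → F), aeval (Sum.elim z v) f =
      ∑ k ∈ Finset.range (q.natDegree + 1), aeval z (p k) * (aeval (Sum.elim z v) h) ^ k := by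
    intro v
    rw [hf, map_sum]
    refine Finset.sum_congr rfl fun k _ => ?_
    rw [map_mul, map_pow, aeval_rename]
    rfl
  have hfe' : ∀ (z' : Fin (r + 1) → K) (v : Fin N → K), aeval (Sum.elim z' v) f =
      ∑ k ∈ Finset.range (q.natDegree + 1), aeval z' (p k) * (aeval (Sum.elim z' v) h) ^ k := by
    intro z' v
    rw [hf, map_sum]
    refine Finset.sum_congr rfl fun k _ => ?_
    rw [map_mul, map_pow, aeval_rename]
    rfl
  have hfz : aeval (Sum.elim z u) f = 0 := by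
    rw [hfe, ← hw]
    rw [Polynomial.aeval_eq_sum_range] at hq
    rw [← hq]
    refine Finset.sum_congr rfl fun k _ => ?_
    rw [hp k]
    rfl
  refine ⟨_, DRN_fin hβ (p 0) hp0, ?_⟩
  intro c hc v hspec hzero
  apply hc
  have h1 := hspec f hfz
  rw [hfe', hzero, Finset.sum_eq_single 0] at h1
  · rw [pow_zero, mul_one] at h1
    exact h1
  · intro k _ hk
    rw [zero_pow hk, mul_zero]
  · intro h2
    exact absurd (Finset.mem_range.2 (Nat.succ_pos _)) h2

end XA
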