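import Pool.Agent.Lib.MP_228259_lc.A.IF

/-!
EPN: zeros of exponential polynomials in several variables.

PROOF. `F(ξ) = eval (Sum.elim ξ (exp ∘ ξ)) f = ∑ γ, coeff γ f * ∏ ξ_i ^ γ(inl i) * exp (∑ γ(inr i) ξ_i)`. Let
`Γ = f.support.image (fun γ => fun i => γ (inr i))`, a finite set of vectors in `ℕᵐ` with at least two elements. For
`κ ∈ Γ` let `g_κ = ∑ γ with γ(inr ·) = κ, coeff γ f * ∏ X_i ^ γ(inl i)`, a non-zero polynomial in
`MvPolynomial (Fin m) ℂ` (its coefficients are coefficients of `f`). Choose `v : Fin m → ℂ` such that the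
numbers `∑ κ_i v_i`, `κ ∈ Γ`, are distinct and the polynomials `g_κ(τ v) ∈ ℂ[τ]` are not zero for all `κ ∈ Γ`: the product
of the non-zero polynomials `∑ (κ_i - κ'_i) X_i` (`κ ≠ κ'`) and of the `g_κ` with value ... (it is enough that
`g_κ(v) ≠ 0`, then `g_κ(τ v)` is not zero at `τ = 1`) is a non-zero polynomial in `MvPolynomial (Fin m) ℂ`, so it has
a non-zero value at some `v` (`MvPolynomial.funext`). Apply `lt_field` to `B = Polynomial ℂ`,
`ψ = Polynomial.aeval e`, `A = Γ`, `c κ = g_κ(X v)` (`MvPolynomial.aeval (fun i => C (v i) * X) g_κ`),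
`P κ = (∑ κ_i v_i) • X`: `ψ (c κ) ≠ 0` as `e` is transcendental (`cl_empty`), the differences
`(∑ (κ_i - κ'_i) v_i) e` are not constant, and `e` is in the span. `σ X = τ`, `ξ = τ v` is the zero. (See TB3A.lean.)
-/

set_option autoImplicit false

namespace XA

open MvPolynomial

theorem exp_poly_zero {m : ℕ} (f : MvPolynomial (Fin m ⊕ Fin m) ℂ)
    (h : ∃ α ∈ f.support, ∃ β ∈ f.support, ∃ j, α (Sum.inr j) ≠ β (Sum.inr j)) :
    ∃ ξ : Fin m → ℂ, eval (Sum.elim ξ (fun i => Complex.exp (ξ i))) f = 0 := by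
  classical
  obtain ⟨K, _, _, e, -, he, hmain⟩ := lt_field
  obtain ⟨r, hr⟩ : ∃ r : ((Fin m ⊕ Fin m) →₀ ℕ) → Fin m → ℕ, r = fun γ i => γ (Sum.inr i) :=
    ⟨_, rfl⟩
  obtain ⟨l, hl⟩ : ∃ l : ((Fin m ⊕ Fin m) →₀ ℕ) → (Fin m →₀ ℕ), l = fun γ =>
    Finsupp.equivFunOnFinite.symm (fun i => γ (Sum.inl i)) := ⟨_, rfl⟩
  obtain ⟨g, hg⟩ : ∃ g : (Fin m → ℕ) → MvPolynomial (Fin m) ℂ, g = fun κ =>
    ∑ γ ∈ f.support.filter (fun γ => r γ = κ), monomial (l γ) (coeff γ f) := ⟨_, rfl⟩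
  obtain ⟨Γ, hΓ⟩ : ∃ Γ : Finset (Fin m → ℕ), Γ = f.support.image r := ⟨_, rfl⟩
  have hg0 : ∀ κ ∈ Γ, g κ ≠ 0 := by
    intro κ hκ h0
    rw [hΓ, Finset.mem_image] at hκ
    obtain ⟨γ₀, hγ₀, hr₀⟩ := hκ
    have h1 : coeff (l γ₀) (g κ) = coeff γ₀ f := by
      rw [hg]
      simp only [coeff_sum, coeff_monomial]
      rw [Finset.sum_eq_single γ₀]
      · rw [if_pos rfl]
      · intro γ hγ hne
        rw [if_neg]
        intro hll
        apply hne
        rw [Finset.mem_filter] at hγ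
        ext x
        rcases x with i | i
        · have := DFunLike.congr_fun hll i
          rw [hl] at this
          exact this
        · have := congrFun (hγ.2.trans hr₀.symm) i
          rw [hr] at this
          exact this
      · intro hn
        exact absurd (Finset.mem_filter.2 ⟨hγ₀, hr₀⟩) hn
    rw [h0, coeff_zero] at h1
    exact (mem_support_iff.1 hγ₀) h1.symm
  have hlin : ∀ κ κ' : Fin m → ℕ, κ ≠ κ' →
      (∑ i, C ((κ i : ℂ) - κ' i) * X i : MvPolynomial (Fin m) ℂ) ≠ 0 := by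
    intro κ κ' hne h0
    obtain ⟨i, hi⟩ := Function.ne_iff.1 hne
    have h1 := congrArg (eval (Pi.single i (1 : ℂ))) h0
    rw [map_sum, map_zero, Finset.sum_eq_single i] at h1
    · rw [map_mul, eval_C, eval_X, Pi.single_eq_same, mul_one, sub_eq_zero] at h1
      exact hi (by exact_mod_cast h1)
    · intro j _ hj
      rw [map_mul, eval_C, eval_X, Pi.single_eq_of_ne hj, mul_zero]
    · intro hn
      exact absurd (Finset.mem_univ i) hn
  obtain ⟨v, hv⟩ : ∃ v : Fin m → ℂ, eval v ((∏ κ ∈ Γ, g κ) *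
      ∏ κ ∈ Γ, ∏ κ' ∈ Γ.erase κ, (∑ i, C ((κ i : ℂ) - κ' i) * X i)) ≠ 0 := by
    by_contra hcon
    push Not at hcon
    have h1 : (∏ κ ∈ Γ, g κ) *
        ∏ κ ∈ Γ, ∏ κ' ∈ Γ.erase κ, (∑ i, C ((κ i : ℂ) - κ' i) * X i) = 0 :=
      MvPolynomial.funext fun v => by rw [hcon v, map_zero]
    refine (mul_ne_zero (Finset.prod_ne_zero_iff.2 hg0) (Finset.prod_ne_zero_iff.2 fun κ _ =>
      Finset.prod_ne_zero_iff.2 fun κ' hκ' => hlin κ κ' ?_)) h1
    exact (Finset.ne_of_mem_erase hκ').symm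
  rw [map_mul, map_prod, map_prod] at hv
  have hv1 : ∀ κ ∈ Γ, eval v (g κ) ≠ 0 :=
    Finset.prod_ne_zero_iff.1 (left_ne_zero_of_mul hv)
  have hv2 : ∀ κ ∈ Γ, ∀ κ' ∈ Γ, κ ≠ κ' → (∑ i, (κ i : ℂ) * v i) - (∑ i, (κ' i : ℂ) * v i) ≠ 0 := by
    intro κ hκ κ' hκ' hne
    have h1 := Finset.prod_ne_zero_iff.1 (right_ne_zero_of_mul hv) κ hκ
    rw [map_prod] at h1
    have h2 := Finset.prod_ne_zero_iff.1 h1 κ' (Finset.mem_erase.2 ⟨hne.symm, hκ'⟩)
    rw [map_sum] at h2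
    rw [← Finset.sum_sub_distrib]
    refine fun h3 => h2 (Eq.trans (Finset.sum_congr rfl fun i _ => ?_) h3)
    rw [map_mul, eval_C, eval_X]
    ring
  have htr : ∀ p : Polynomial ℂ, p ≠ 0 → Polynomial.aeval e p ≠ 0 := by
    intro p hp h0
    have h2 : IsAlgebraic ℂ e := ⟨p, hp, h0⟩
    have h3 : IsIntegral ℂ e := h2.isIntegral
    have h4 := IsAlgClosed.degree_eq_one_of_irreducible ℂ (minpoly.irreducible h3)
    obtain ⟨c, hc⟩ := minpoly.mem_range_of_degree_eq_one ℂ e h4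
    exact he c hc.symm
  have hP : ∀ k : ℂ, Polynomial.aeval e (k • (Polynomial.X : Polynomial ℂ)) = k • e := by
    intro k
    rw [map_smul, Polynomial.aeval_X]
  obtain ⟨c, hc⟩ : ∃ c : (Fin m → ℕ) → Polynomial ℂ, c = fun κ =>
    MvPolynomial.aeval (fun i => Polynomial.C (v i) * Polynomial.X) (g κ) := ⟨_, rfl⟩
  have hcev : ∀ (κ : Fin m → ℕ) (τ : ℂ), (c κ).eval τ = eval (fun i => v i * τ) (g κ) := by
    intro κ τ
    rw [hc]
    show (Polynomial.evalRingHom τ) (MvPolynomial.aeval _ (g κ)) = _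
    rw [MvPolynomial.aeval_def, ← MvPolynomial.coe_eval₂Hom, ← RingHom.comp_apply]
    congr 1
    apply MvPolynomial.ringHom_ext
    · intro a
      simp
    · intro i
      simp
  obtain ⟨α, hα, β, hβ, j, hj⟩ := h
  have hαΓ : r α ∈ Γ := by rw [hΓ]; exact Finset.mem_image_of_mem _ hα
  have hβΓ : r β ∈ Γ := by rw [hΓ]; exact Finset.mem_image_of_mem _ hβ
  have hαβ : r α ≠ r β := by
    intro h0
    apply hj
    have := congrFun h0 j
    rw [hr] at this
    exact this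
  obtain ⟨σ, hσ⟩ := hmain (Polynomial ℂ) (Polynomial.aeval e) (Fin m → ℕ) Γ c
    (fun κ => (∑ i, (κ i : ℂ) * v i) • (Polynomial.X : Polynomial ℂ)) (by
      intro κ hκ
      apply htr
      intro h0
      apply hv1 κ hκ
      have h1 := hcev κ 1
      rw [h0, Polynomial.eval_zero] at h1
      rw [h1]
      congr 2
      funext i
      rw [mul_one]) (by
      intro κ hκ κ' hκ' hne k h0
      rw [hP, hP, ← sub_smul] at h0
      have hkl := hv2 κ hκ κ' hκ' hne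
      apply he (((∑ i, (κ i : ℂ) * v i) - (∑ i, (κ' i : ℂ) * v i))⁻¹ * k)
      rw [map_mul, ← h0, Algebra.smul_def, ← mul_assoc, ← map_mul, inv_mul_cancel₀ hkl, map_one,
        one_mul]) (by
      have hkl := hv2 _ hαΓ _ hβΓ hαβ
      have h3 : e = ((∑ i, (r α i : ℂ) * v i) - (∑ i, (r β i : ℂ) * v i))⁻¹ •
          (Polynomial.aeval e ((∑ i, (r α i : ℂ) * v i) • (Polynomial.X : Polynomial ℂ)) -
            Polynomial.aeval e ((∑ i, (r β i : ℂ) * v i) • (Polynomial.X : Polynomial ℂ))) := by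
        rw [hP, hP, ← sub_smul, smul_smul, inv_mul_cancel₀ hkl, one_smul]
      rw [h3]
      refine Submodule.smul_mem _ _ (Submodule.subset_span ?_)
      refine ⟨r α, hαΓ, r β, hβΓ, ?_⟩
      rw [← h3])
  have hev : ∀ p : Polynomial ℂ, σ p = p.eval (σ Polynomial.X) := by
    intro p
    have h3 := Polynomial.aeval_algHom_apply σ Polynomial.X p
    rw [Polynomial.aeval_X_left_apply] at h3
    rw [← h3, Polynomial.coe_aeval_eq_eval]
  obtain ⟨τ, hτ⟩ : ∃ τ : ℂ, τ = σ Polynomial.X := ⟨_, rfl⟩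
  refine ⟨fun i => v i * τ, ?_⟩
  rw [MvPolynomial.eval_eq', ← Finset.sum_fiberwise_of_maps_to (g := r) (t := Γ)
    (fun γ hγ => by rw [hΓ]; exact Finset.mem_image_of_mem _ hγ), ← hσ]
  refine Finset.sum_congr rfl fun κ _ => ?_
  rw [hev, map_smul, ← hτ, smul_eq_mul, hcev, hg]
  show _ = (eval (fun i => v i * τ)) (∑ γ ∈ f.support.filter (fun γ => r γ = κ),
    monomial (l γ) (coeff γ f)) * _
  rw [map_sum, Finset.sum_mul]
  refine Finset.sum_congr rfl fun γ hγ => ?_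
  rw [Finset.mem_filter] at hγ
  rw [Fintype.prod_sum_type, eval_monomial, Finsupp.prod_fintype _ _ (fun i => pow_zero _)]
  simp only [Sum.elim_inl, Sum.elim_inr]
  have h5 : ∏ i, Complex.exp (v i * τ) ^ γ (Sum.inr i) =
      Complex.exp ((∑ i, (κ i : ℂ) * v i) * τ) := by
    rw [Finset.sum_mul, Complex.exp_sum]
    refine Finset.prod_congr rfl fun i _ => ?_
    have h6 : γ (Sum.inr i) = κ i := by
      rw [← hγ.2, hr]
    rw [h6, ← Complex.exp_nat_mul, mul_assoc]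
  rw [h5]
  have h7 : ∀ i, l γ i = γ (Sum.inl i) := by
    intro i
    rw [hl]
    rfl
  simp only [h7]
  ring

end XA
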