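import Pool.Agent.Lib.MP_228259_lc.A.HM

/-!
EV: relations between `x`, `y ^ b`, `y ^ c` hold in `F` if and only if they hold on `Loc x y`.

PROOF. Put `g = ev2F x (mo b y) (mo c y) R`, an element of `BL x y` (`mem_BL_x`, `mem_BL_mo`): more
precisely let `g' : BL x y` be the value of the same polynomial at the elements `x`, `mo b y`,
`mo c y` of `BL x y`. For every homomorphism `ψ : BL x y → ℂ` with values `z` (`hom_loc`, `loc_hom`)
one has `ψ g' = (XV.e2 z.1 (XV.mon b z.2) R).eval (XV.mon c z.2)` by `sp_mo`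
(`Polynomial.hom_eval₂`, `MvPolynomial` `comp_aeval`; `XV.mon b z.2 = mo b z.2` is `rfl`). `(→)`: if
`g' ≠ 0` use `hom_sep`. `(←)`: `g' = 0` (the inclusion `BL x y → F` is injective) and use `loc_hom`.
`ev1_iff` is the special case `R = Polynomial.C G`.
-/

namespace XA

open MvPolynomial

variable {F : Type*} [Field F] [Algebra ℂ F] {n : ℕ}

/-- evaluation of `ℂ[x][F]` in `F` -/
noncomputable def ev1F (x : Fin n → F) (f : F) : XV.R1 n →+* F :=
  Polynomial.eval₂RingHom (aeval x : MvPolynomial (Fin n) ℂ →ₐ[ℂ] F).toRingHom f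

/-- evaluation of `ℂ[x][F][T]` in `F` -/
noncomputable def ev2F (x : Fin n → F) (f θ : F) : XV.R2 n →+* F :=
  Polynomial.eval₂RingHom (ev1F x f) θ

/-- evaluation of `ℂ[x][F]` in the Laurent ring -/
noncomputable def ev1B (x y : Fin n → F) (b : Fin n → ℤ) : XV.R1 n →+* BL x y :=
  Polynomial.eval₂RingHom
    (aeval (fun j => (⟨x j, mem_BL_x x y j⟩ : BL x y)) :
      MvPolynomial (Fin n) ℂ →ₐ[ℂ] BL x y).toRingHom
    ⟨mo b y, mem_BL_mo x y b⟩

/-- evaluation of `ℂ[x][F][T]` in the Laurent ring -/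
noncomputable def ev2B (x y : Fin n → F) (b c : Fin n → ℤ) : XV.R2 n →+* BL x y :=
  Polynomial.eval₂RingHom (ev1B x y b) ⟨mo c y, mem_BL_mo x y c⟩

theorem val_ev1B (x y : Fin n → F) (b : Fin n → ℤ) :
    ((BL x y).val : BL x y →+* F).comp (ev1B x y b) = ev1F x (mo b y) := by
  apply Polynomial.ringHom_ext
  · intro p
    change ((BL x y).val : BL x y →+* F) (ev1B x y b (Polynomial.C p)) = _
    have h1 : ev1B x y b (Polynomial.C p) =
        aeval (fun j => (⟨x j, mem_BL_x x y j⟩ : BL x y)) p := by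
      change Polynomial.eval₂ _ _ (Polynomial.C p) = _
      rw [Polynomial.eval₂_C]
      rfl
    have h2 : ev1F x (mo b y) (Polynomial.C p) = aeval x p := by
      change Polynomial.eval₂ _ _ (Polynomial.C p) = _
      rw [Polynomial.eval₂_C]
      rfl
    rw [h1, h2]
    exact MvPolynomial.comp_aeval_apply (φ := (BL x y).val)
      (fun j => (⟨x j, mem_BL_x x y j⟩ : BL x y)) p
  · change ((BL x y).val : BL x y →+* F) (ev1B x y b Polynomial.X) = _
    have h1 : ev1B x y b Polynomial.X = ⟨mo b y, mem_BL_mo x y b⟩ := by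
      change Polynomial.eval₂ _ _ Polynomial.X = _
      rw [Polynomial.eval₂_X]
    have h2 : ev1F x (mo b y) Polynomial.X = mo b y := by
      change Polynomial.eval₂ _ _ Polynomial.X = _
      rw [Polynomial.eval₂_X]
    rw [h1, h2]
    rfl

theorem val_ev2B (x y : Fin n → F) (b c : Fin n → ℤ) (R : XV.R2 n) :
    ((ev2B x y b c R : BL x y) : F) = ev2F x (mo b y) (mo c y) R := by
  change ((BL x y).val : BL x y →+* F) (Polynomial.eval₂ _ _ R) = Polynomial.eval₂ _ _ R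
  rw [Polynomial.hom_eval₂, val_ev1B]
  rfl

theorem psi_ev1B {x y : Fin n → F} (hy : ∀ j, y j ≠ 0) {ψ : BL x y →ₐ[ℂ] ℂ}
    {z : (Fin n → ℂ) × (Fin n → ℂ)} (h : IsSp x y ψ z) (b : Fin n → ℤ) :
    (ψ : BL x y →+* ℂ).comp (ev1B x y b) = XV.h1 z.1 (XV.mon b z.2) := by
  apply Polynomial.ringHom_ext
  · intro p
    change (ψ : BL x y →+* ℂ) (ev1B x y b (Polynomial.C p)) = _
    have h1 : ev1B x y b (Polynomial.C p) =
        aeval (fun j => (⟨x j, mem_BL_x x y j⟩ : BL x y)) p := by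
      change Polynomial.eval₂ _ _ (Polynomial.C p) = _
      rw [Polynomial.eval₂_C]
      rfl
    have h2 : XV.h1 z.1 (XV.mon b z.2) (Polynomial.C p) = eval z.1 p := by
      change Polynomial.eval₂ _ _ (Polynomial.C p) = _
      rw [Polynomial.eval₂_C]
    rw [h1, h2]
    have h3 := MvPolynomial.comp_aeval_apply (φ := ψ)
      (fun j => (⟨x j, mem_BL_x x y j⟩ : BL x y)) p
    have h4 : (fun i => ψ (⟨x i, mem_BL_x x y i⟩ : BL x y)) = z.1 := by
      funext i
      exact (h ⟨x i, mem_BL_x x y i⟩ i).1 rfl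
    rw [h4] at h3
    rw [← coe_aeval_eq_eval]
    exact h3
  · change (ψ : BL x y →+* ℂ) (ev1B x y b Polynomial.X) = _
    have h1 : ev1B x y b Polynomial.X = ⟨mo b y, mem_BL_mo x y b⟩ := by
      change Polynomial.eval₂ _ _ Polynomial.X = _
      rw [Polynomial.eval₂_X]
    have h2 : XV.h1 z.1 (XV.mon b z.2) Polynomial.X = XV.mon b z.2 := by
      change Polynomial.eval₂ _ _ Polynomial.X = _
      rw [Polynomial.eval₂_X]
    rw [h1, h2]
    exact sp_mo hy h b _ rfl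

theorem psi_ev2B {x y : Fin n → F} (hy : ∀ j, y j ≠ 0) {ψ : BL x y →ₐ[ℂ] ℂ}
    {z : (Fin n → ℂ) × (Fin n → ℂ)} (h : IsSp x y ψ z) (b c : Fin n → ℤ) (R : XV.R2 n) :
    ψ (ev2B x y b c R) = (XV.e2 z.1 (XV.mon b z.2) R).eval (XV.mon c z.2) := by
  unfold XV.e2
  rw [Polynomial.eval_map]
  change (ψ : BL x y →+* ℂ) (Polynomial.eval₂ _ _ R) = _
  rw [Polynomial.hom_eval₂, psi_ev1B hy h]
  congr 1
  exact sp_mo hy h c _ rfl

theorem ev2_iff {x y : Fin n → F} (hy : ∀ j, y j ≠ 0) (b c : Fin n → ℤ) (R : XV.R2 n) :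
    (∀ z ∈ Loc x y, (XV.e2 z.1 (XV.mon b z.2) R).eval (XV.mon c z.2) = 0) ↔
      ev2F x (mo b y) (mo c y) R = 0 := by
  constructor
  · intro h
    by_contra hne
    have h1 : ev2B x y b c R ≠ 0 := by
      intro h2
      apply hne
      rw [← val_ev2B, h2]
      rfl
    obtain ⟨ψ, hψ⟩ := hom_sep hy _ h1
    obtain ⟨z, hz, hsp⟩ := hom_loc hy ψ
    rw [psi_ev2B hy hsp] at hψ
    exact hψ (h z hz)
  · intro h z hz
    obtain ⟨ψ, hψ⟩ := loc_hom hy hz
    have h1 : ev2B x y b c R = 0 := by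
      apply Subtype.ext
      rw [val_ev2B, h]
      rfl
    rw [← psi_ev2B hy hψ, h1, map_zero]

theorem ev1_iff {x y : Fin n → F} (hy : ∀ j, y j ≠ 0) (b : Fin n → ℤ) (G : XV.R1 n) :
    (∀ z ∈ Loc x y, XV.h1 z.1 (XV.mon b z.2) G = 0) ↔ ev1F x (mo b y) G = 0 := by
  have h := ev2_iff (x := x) hy b 0 (Polynomial.C G)
  have h1 : ev2F x (mo b y) (mo 0 y) (Polynomial.C G) = ev1F x (mo b y) G := by
    change Polynomial.eval₂ _ _ (Polynomial.C G) = _
    rw [Polynomial.eval₂_C]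
  rw [h1] at h
  rw [← h]
  refine forall₂_congr fun z _ => ?_
  unfold XV.e2
  rw [Polynomial.map_C, Polynomial.eval_C]

end XA
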