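import Pool.Agent.Lib.MP_228259_lc.A.DR

/-!
HS: specialisations and homomorphisms; specialisations and transcendental elements.

PROOF of `spec_hom`. `aeval u : MvPolynomial ι ℂ → F` has range `adjoin ℂ (range u)`
(`Algebra.adjoin_range_eq_range_aeval`), and its kernel is contained in the kernel of `aeval v` (`h`).
So `aeval v` factors: e.g. `Ideal.quotientKerAlgEquivOfSurjective` for the surjective
`(aeval u).rangeRestrict` and `Ideal.Quotient.liftₐ`.

PROOF of `spec_trans`. Write `f : MvPolynomial (ι ⊕ Unit) ℂ` as a polynomial `G` in one variable over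
`MvPolynomial ι ℂ` (see FC.lean, `fcSplit`, for the same construction). `(G.map (aeval u)).eval t = 0` and
`t ∉ cl (range u)` give `aeval u (G.coeff i) = 0` for all `i` (`cl_root`), so `aeval v (G.coeff i) = 0`,
so `aeval (Sum.elim v e) f = (G.map (aeval v)).eval e = 0`.
-/

set_option autoImplicit false

namespace XA

open MvPolynomial

/-- split off the last variable -/
private noncomputable def hsSplit (ι : Type*) : MvPolynomial (ι ⊕ Unit) ℂ →ₐ[ℂ]
    Polynomial (MvPolynomial ι ℂ) :=
  aeval (Sum.elim (fun j => Polynomial.C (X j)) (fun _ => Polynomial.X))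

private theorem hsSplit_eval {ι : Type*} {R : Type*} [CommRing R] [Algebra ℂ R] (x : ι → R)
    (a : R) (f : MvPolynomial (ι ⊕ Unit) ℂ) :
    ((hsSplit ι f).map ((aeval x : MvPolynomial ι ℂ →ₐ[ℂ] R) : MvPolynomial ι ℂ →+* R)).eval a =
    aeval (Sum.elim x (fun _ : Unit => a)) f := by
  rw [Polynomial.eval_map]
  have h : (Polynomial.eval₂RingHom ((aeval x : MvPolynomial ι ℂ →ₐ[ℂ] R) :
      MvPolynomial ι ℂ →+* R) a).comp (hsSplit ι).toRingHom =
      (aeval (Sum.elim x (fun _ : Unit => a)) : MvPolynomial (ι ⊕ Unit) ℂ →ₐ[ℂ] R).toRingHom := by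
    apply MvPolynomial.ringHom_ext
    · intro c
      have h1 : hsSplit ι (C c) = Polynomial.C (C c) := by
        rw [← MvPolynomial.algebraMap_eq, AlgHom.commutes]
        rfl
      have h2 : (hsSplit ι).toRingHom (C c) = Polynomial.C (C c) := h1
      rw [RingHom.comp_apply, h2, Polynomial.coe_eval₂RingHom, Polynomial.eval₂_C]
      simp
    · intro i
      rcases i with j | j
      · have h1 : (hsSplit ι).toRingHom (X (Sum.inl j)) = Polynomial.C (X j) := by
          show hsSplit ι (X (Sum.inl j)) = _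
          rw [hsSplit, aeval_X]
          rfl
        rw [RingHom.comp_apply, h1, Polynomial.coe_eval₂RingHom, Polynomial.eval₂_C]
        simp
      · have h1 : (hsSplit ι).toRingHom (X (Sum.inr j)) = Polynomial.X := by
          show hsSplit ι (X (Sum.inr j)) = _
          rw [hsSplit, aeval_X]
          rfl
        rw [RingHom.comp_apply, h1, Polynomial.coe_eval₂RingHom, Polynomial.eval₂_X]
        simp
  exact congrArg (fun g : MvPolynomial (ι ⊕ Unit) ℂ →+* R => g f) h

theorem spec_hom {F K : Type*} [Field F] [Algebra ℂ F] [Field K] [Algebra ℂ K] {ι : Type*}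
    {u : ι → F} {v : ι → K} (h : IsSpec u v) :
    ∃ ψ : Algebra.adjoin ℂ (Set.range u) →ₐ[ℂ] K,
      ∀ i (hi : u i ∈ Algebra.adjoin ℂ (Set.range u)), ψ ⟨u i, hi⟩ = v i := by
  obtain ⟨g, hg⟩ : ∃ g : MvPolynomial ι ℂ →ₐ[ℂ] F, g = aeval u := ⟨_, rfl⟩
  have hr : Algebra.adjoin ℂ (Set.range u) = g.range := by
    rw [hg, Algebra.adjoin_range_eq_range_aeval]
  rw [hr]
  have hk : ∀ a : MvPolynomial ι ℂ, a ∈ RingHom.ker g.rangeRestrict → aeval v a = 0 := by
    intro a ha
    refine h a ?_
    rw [RingHom.mem_ker] at ha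
    have h2 := congrArg Subtype.val ha
    rw [hg] at h2
    exact h2
  let e := Ideal.quotientKerAlgEquivOfSurjective (f := g.rangeRestrict)
    g.rangeRestrict_surjective
  let l : (MvPolynomial ι ℂ ⧸ RingHom.ker g.rangeRestrict) →ₐ[ℂ] K :=
    Ideal.Quotient.liftₐ (RingHom.ker g.rangeRestrict) (aeval v) hk
  refine ⟨l.comp (e.symm : g.range →ₐ[ℂ] _), fun i hi => ?_⟩
  have h1 : (⟨u i, hi⟩ : g.range) = e (Ideal.Quotient.mk _ (X i)) := by
    apply Subtype.ext
    show u i = g (X i)
    rw [hg, aeval_X]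
  rw [h1]
  show l (e.symm (e (Ideal.Quotient.mk _ (X i)))) = v i
  rw [AlgEquiv.symm_apply_apply]
  show aeval v (X i) = v i
  rw [aeval_X]

theorem spec_trans {F K : Type*} [Field F] [Algebra ℂ F] [Field K] [Algebra ℂ K] {ι : Type*}
    {u : ι → F} {v : ι → K} (h : IsSpec u v) {t : F} (ht : t ∉ cl (Set.range u)) (e : K) :
    IsSpec (Sum.elim u (fun _ : Unit => t)) (Sum.elim v (fun _ : Unit => e)) := by
  intro f hf
  obtain ⟨G, hG⟩ : ∃ G, G = hsSplit ι f := ⟨_, rfl⟩
  have e1 := hsSplit_eval u t f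
  rw [hf, ← hG] at e1
  have hz : G.map ((aeval u : MvPolynomial ι ℂ →ₐ[ℂ] F) : MvPolynomial ι ℂ →+* F) = 0 := by
    by_contra hne
    refine ht (cl_root _ _ hne (fun i => ?_) _ e1)
    rw [Polynomial.coeff_map]
    have hmem : aeval u (G.coeff i) ∈ Algebra.adjoin ℂ (Set.range u) := by
      rw [Algebra.adjoin_range_eq_range_aeval]
      exact ⟨G.coeff i, rfl⟩
    exact isAlgebraic_algebraMap (⟨_, hmem⟩ : Algebra.adjoin ℂ (Set.range u))
  have hz2 : G.map ((aeval v : MvPolynomial ι ℂ →ₐ[ℂ] K) : MvPolynomial ι ℂ →+* K) = 0 := by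
    ext i
    rw [Polynomial.coeff_map, Polynomial.coeff_zero]
    have h3 := congrArg (fun q => q.coeff i) hz
    simp only [Polynomial.coeff_map, Polynomial.coeff_zero] at h3
    exact h (G.coeff i) h3
  have e2 := hsSplit_eval v e f
  rw [← hG, hz2, Polynomial.eval_zero] at e2
  exact e2.symm

end XA
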