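import Pool.Agent.Lib.MP_228259_lc.A.DR
import Pool.Agent.Lib.MP_228259_lc.A.EM
import Pool.Agent.Lib.MP_228259_lc.A.HS

/-!
EXT: extension of specialisations to algebraic elements, outside the zeros of one element.

PROOF. Let `A₀ = adjoin ℂ (range u₀)`, the range of `aeval u₀`. For every `i` choose a non-zero
polynomial `Q_i` over `A₀` with root `u i` and leading coefficient `l_i ≠ 0`; `g = ∏ l_i ∈ A₀`,
`g = aeval u₀ h` for some `h : MvPolynomial ι ℂ`, `aeval u₀ h ≠ 0`. Let `A₁ = Localization.Away g`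
(`g : A₀`) with the injective map `A₁ → L` (`IsLocalization.lift`; `A₀` is a domain, `g ≠ 0`), and let
`B₁ = integralClosure A₁ L` (for the algebra structure given by this map). All `u i` are in `B₁`: `Q_i`
divided by its leading coefficient, a unit in `A₁`, is monic. Let `v₀` be given with
`IsSpec u₀ v₀` and `aeval v₀ h ≠ 0`. The homomorphism `φ₀ : A₀ → K`, `aeval u₀ f ↦ aeval v₀ f`, is well defined by
`IsSpec` (see `spec_hom` in HS.lean; or `Ideal.Quotient`/`RingHom.liftOfSurjective`-like constructions: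
`(aeval u₀).rangeRestrict` is surjective with kernel contained in the kernel of `aeval v₀`), `φ₀ g ≠ 0`, so it
extends to `A₁ → K` (`IsLocalization.Away.lift`) and to `B₁ → K` by `extend_integral` (EM.lean). Let
`v i` be the image of `u i`. The maps `f ↦ φ (aeval (Sum.elim u₀ u) f)` (an element of `B₁`) and
`f ↦ aeval (Sum.elim v₀ v) f` agree on constants and variables, so they agree.
-/

set_option autoImplicit false

namespace XA

open MvPolynomial

theorem EXT_core {A L : Type*} [CommRing A] [IsDomain A] [Field L] [Algebra A L]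
    (hinj : Function.Injective (algebraMap A L)) {κ : Type*} [Finite κ] {u : κ → L}
    (hu : ∀ i, IsAlgebraic A (u i)) :
    ∃ g : A, g ≠ 0 ∧ ∀ (K : Type) [Field K] [IsAlgClosed K] (φ : A →+* K), φ g ≠ 0 →
      ∃ (B : Subring L) (ψ : B →+* K), (∀ i, u i ∈ B) ∧ (∀ a, algebraMap A L a ∈ B) ∧
        ∀ a (ha : algebraMap A L a ∈ B), ψ ⟨algebraMap A L a, ha⟩ = φ a := by
  have := Fintype.ofFinite κ
  choose Q hQ0 hQ using hu
  have hl : ∀ i, (Q i).leadingCoeff ≠ 0 := fun i => Polynomial.leadingCoeff_ne_zero.mpr (hQ0 i)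
  set g : A := ∏ i, (Q i).leadingCoeff with hg
  have hg0 : g ≠ 0 := Finset.prod_ne_zero_iff.mpr (fun i _ => hl i)
  refine ⟨g, hg0, fun K _ _ φ hφ => ?_⟩
  let A1 := Localization.Away g
  have hgL : IsUnit (algebraMap A L g) :=
    isUnit_iff_ne_zero.mpr (fun h0 => hg0 (hinj (by rw [h0, map_zero])))
  have hgK : IsUnit (φ g) := isUnit_iff_ne_zero.mpr hφ
  let j : A1 →+* L := IsLocalization.Away.lift g hgL
  let φ1 : A1 →+* K := IsLocalization.Away.lift g hgK
  have hj : ∀ a : A, j (algebraMap A A1 a) = algebraMap A L a :=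
    fun a => IsLocalization.Away.lift_eq g hgL a
  have hφ1 : ∀ a : A, φ1 (algebraMap A A1 a) = φ a :=
    fun a => IsLocalization.Away.lift_eq g hgK a
  have hAA1 : Function.Injective (algebraMap A A1) := by
    intro a b hab
    apply hinj
    rw [← hj a, ← hj b, hab]
  have hjinj : Function.Injective j := by
    refine (IsLocalization.lift_injective_iff (M := Submonoid.powers g) _).mpr
      (fun x y => ⟨fun h => ?_, fun h => ?_⟩)
    · rw [hAA1 h]
    · rw [hinj h]
  let algL : Algebra A1 L := j.toAlgebra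
  have hjL : ∀ a : A1, algebraMap A1 L a = j a := fun a => rfl
  let B := integralClosure A1 L
  have hBinj : Function.Injective (algebraMap A1 B) := by
    intro a b hab
    have h1 : ((algebraMap A1 B a : B) : L) = ((algebraMap A1 B b : B) : L) := by rw [hab]
    exact hjinj h1
  obtain ⟨ψ, hψ⟩ := extend_integral (A := A1) (B := B) hBinj φ1
  have hmemA : ∀ a : A, algebraMap A L a ∈ B := by
    intro a
    rw [← hj a, ← hjL]
    exact B.algebraMap_mem _
  have hmemu : ∀ i, u i ∈ B := by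
    intro i
    have h1 : Polynomial.aeval (u i) ((Q i).map (algebraMap A A1)) = 0 := by
      rw [Polynomial.aeval_def, Polynomial.eval₂_map]
      have h2 : (algebraMap A1 L).comp (algebraMap A A1) = algebraMap A L := by
        ext a
        exact hj a
      rw [h2]
      exact hQ i
    have h3 := isIntegral_leadingCoeff_smul ((Q i).map (algebraMap A A1)) (u i) h1
    have h4 : ((Q i).map (algebraMap A A1)).leadingCoeff =
        algebraMap A A1 (Q i).leadingCoeff := Polynomial.leadingCoeff_map_of_injective hAA1 _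
    rw [h4] at h3
    have h5 : IsUnit (algebraMap A A1 (Q i).leadingCoeff) := by
      have h6 : IsUnit (algebraMap A A1 g) := IsLocalization.Away.algebraMap_isUnit g
      have h8 : (Q i).leadingCoeff ∣ g :=
        Finset.dvd_prod_of_mem (fun i => (Q i).leadingCoeff) (Finset.mem_univ i)
      exact isUnit_of_dvd_unit (map_dvd (algebraMap A A1) h8) h6
    obtain ⟨c, hc⟩ := h5
    have h7 : IsIntegral A1 (((c⁻¹ : A1ˣ) : A1) • (algebraMap A A1 (Q i).leadingCoeff • u i)) :=
      h3.smul _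
    rw [← hc, smul_smul, Units.inv_mul, one_smul] at h7
    exact h7
  refine ⟨B.toSubring, ψ, hmemu, hmemA, fun a ha => ?_⟩
  have h1 : (⟨algebraMap A L a, ha⟩ : B.toSubring) =
      (algebraMap A1 B (algebraMap A A1 a) : B) := by
    apply Subtype.ext
    exact (hj a).symm
  have h2 := hψ (algebraMap A A1 a)
  rw [hφ1] at h2
  rw [← h2]
  exact congrArg ψ h1

theorem ext_spec {L : Type*} [Field L] [Algebra ℂ L] {ι κ : Type*} [Finite κ] {u₀ : ι → L}
    {u : κ → L} (hu : ∀ i, u i ∈ cl (Set.range u₀)) :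
    ∃ h : MvPolynomial ι ℂ, aeval u₀ h ≠ 0 ∧
      ∀ (K : Type) [Field K] [Algebra ℂ K] [IsAlgClosed K] (v₀ : ι → K), IsSpec u₀ v₀ →
        aeval v₀ h ≠ 0 → ∃ v : κ → K, IsSpec (Sum.elim u₀ u) (Sum.elim v₀ v) := by
  have hinj : Function.Injective (algebraMap (Algebra.adjoin ℂ (Set.range u₀)) L) :=
    Subtype.val_injective
  obtain ⟨g, hg0, hg⟩ := EXT_core hinj (u := u) hu
  have hgm : (g : L) ∈ (aeval u₀ : MvPolynomial ι ℂ →ₐ[ℂ] L).range := by
    rw [← Algebra.adjoin_range_eq_range_aeval]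
    exact g.2
  obtain ⟨h, hh⟩ := hgm
  have hh' : aeval u₀ h = (g : L) := hh
  refine ⟨h, ?_, fun K _ _ _ v₀ hspec hne => ?_⟩
  · rw [hh']
    exact fun h0 => hg0 (Subtype.ext h0)
  · obtain ⟨ψ0, hψ0⟩ := spec_hom hspec
    have hmem : ∀ f : MvPolynomial ι ℂ, aeval u₀ f ∈ Algebra.adjoin ℂ (Set.range u₀) := by
      intro f
      rw [Algebra.adjoin_range_eq_range_aeval]
      exact ⟨f, rfl⟩
    have hval : ∀ f : MvPolynomial ι ℂ, ψ0 ⟨aeval u₀ f, hmem f⟩ = aeval v₀ f := by
      let r : MvPolynomial ι ℂ →ₐ[ℂ] Algebra.adjoin ℂ (Set.range u₀) :=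
        (aeval u₀ : MvPolynomial ι ℂ →ₐ[ℂ] L).codRestrict _ hmem
      have h1 : ψ0.comp r = (aeval v₀ : MvPolynomial ι ℂ →ₐ[ℂ] K) := by
        apply MvPolynomial.algHom_ext
        intro i
        have h2 : u₀ i ∈ Algebra.adjoin ℂ (Set.range u₀) :=
          Algebra.subset_adjoin (Set.mem_range_self i)
        have h3 : r (X i) = ⟨u₀ i, h2⟩ := by
          apply Subtype.ext
          show aeval u₀ (X i) = u₀ i
          rw [aeval_X]
        rw [AlgHom.comp_apply, h3, hψ0 i h2, aeval_X]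
      intro f
      exact congrArg (fun a : MvPolynomial ι ℂ →ₐ[ℂ] K => a f) h1
    have hψg : (ψ0 : Algebra.adjoin ℂ (Set.range u₀) →+* K) g ≠ 0 := by
      have h1 : (⟨aeval u₀ h, hmem h⟩ : Algebra.adjoin ℂ (Set.range u₀)) = g :=
        Subtype.ext hh'
      have h2 := hval h
      rw [h1] at h2
      show ψ0 g ≠ 0
      rw [h2]
      exact hne
    obtain ⟨B, ψ, hu', hA, hψ⟩ := hg K (ψ0 : Algebra.adjoin ℂ (Set.range u₀) →+* K) hψg
    have hu0 : ∀ i, u₀ i ∈ Algebra.adjoin ℂ (Set.range u₀) := fun i =>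
      Algebra.subset_adjoin (Set.mem_range_self i)
    have hu0B : ∀ i, u₀ i ∈ B := fun i => hA ⟨u₀ i, hu0 i⟩
    refine ⟨fun i => ψ ⟨u i, hu' i⟩, ?_⟩
    have hCmem : ∀ c : ℂ, algebraMap ℂ L c ∈ B := fun c =>
      hA (algebraMap ℂ (Algebra.adjoin ℂ (Set.range u₀)) c)
    let cB : ℂ →+* B := (algebraMap ℂ L).codRestrict B hCmem
    let w : ι ⊕ κ → B := Sum.elim (fun i => ⟨u₀ i, hu0B i⟩) (fun i => ⟨u i, hu' i⟩)
    let G : MvPolynomial (ι ⊕ κ) ℂ →+* B := MvPolynomial.eval₂Hom cB w
    have hG1 : ∀ f, ((G f : B) : L) = aeval (Sum.elim u₀ u) f := by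
      have h1 : B.subtype.comp G =
          ((aeval (Sum.elim u₀ u) : MvPolynomial (ι ⊕ κ) ℂ →ₐ[ℂ] L) :
            MvPolynomial (ι ⊕ κ) ℂ →+* L) := by
        apply MvPolynomial.ringHom_ext
        · intro c
          have h2 : G (C c) = cB c := MvPolynomial.eval₂Hom_C _ _ _
          rw [RingHom.comp_apply, h2]
          show algebraMap ℂ L c = aeval (Sum.elim u₀ u) (C c)
          rw [aeval_C]
        · intro i
          have h2 : G (X i) = w i := MvPolynomial.eval₂Hom_X' _ _ _
          rw [RingHom.comp_apply, h2]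
          show ((w i : B) : L) = aeval (Sum.elim u₀ u) (X i)
          rw [aeval_X]
          rcases i with i | i
          · rfl
          · rfl
      intro f
      exact congrArg (fun a : MvPolynomial (ι ⊕ κ) ℂ →+* L => a f) h1
    have hG2 : ∀ f, ψ (G f) = aeval (Sum.elim v₀ (fun i => ψ ⟨u i, hu' i⟩)) f := by
      have h1 : ψ.comp G =
          ((aeval (Sum.elim v₀ (fun i => ψ ⟨u i, hu' i⟩)) : MvPolynomial (ι ⊕ κ) ℂ →ₐ[ℂ] K) :
            MvPolynomial (ι ⊕ κ) ℂ →+* K) := by
        apply MvPolynomial.ringHom_ext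
        · intro c
          have h2 : G (C c) = cB c := MvPolynomial.eval₂Hom_C _ _ _
          rw [RingHom.comp_apply, h2]
          have h3 : ψ (cB c) =
              (ψ0 : Algebra.adjoin ℂ (Set.range u₀) →+* K)
                (algebraMap ℂ (Algebra.adjoin ℂ (Set.range u₀)) c) :=
            hψ (algebraMap ℂ (Algebra.adjoin ℂ (Set.range u₀)) c) (hCmem c)
          rw [h3]
          show ψ0 (algebraMap ℂ (Algebra.adjoin ℂ (Set.range u₀)) c) = _
          rw [AlgHom.commutes]
          show algebraMap ℂ K c = aeval (Sum.elim v₀ (fun i => ψ ⟨u i, hu' i⟩)) (C c)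
          rw [aeval_C]
        · intro i
          have h2 : G (X i) = w i := MvPolynomial.eval₂Hom_X' _ _ _
          rw [RingHom.comp_apply, h2]
          show ψ (w i) = aeval (Sum.elim v₀ (fun i => ψ ⟨u i, hu' i⟩)) (X i)
          rw [aeval_X]
          rcases i with i | i
          · have h3 : ψ ⟨u₀ i, hu0B i⟩ =
                (ψ0 : Algebra.adjoin ℂ (Set.range u₀) →+* K) ⟨u₀ i, hu0 i⟩ :=
              hψ ⟨u₀ i, hu0 i⟩ (hu0B i)
            show ψ ⟨u₀ i, hu0B i⟩ = v₀ i
            rw [h3]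
            exact hψ0 i (hu0 i)
          · rfl
      intro f
      exact congrArg (fun a : MvPolynomial (ι ⊕ κ) ℂ →+* K => a f) h1
    intro f hf
    have h1 : G f = 0 := by
      apply Subtype.ext
      rw [hG1 f, hf]
      rfl
    rw [← hG2 f, h1, map_zero]

end XA
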