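import Pool.Agent.Lib.MP_228259_lc.A.HM
import Pool.Agent.Lib.MP_228259_lc.C4c

/-!
FR: from the frozen hypotheses to a field.

PROOF. `Q = ℂ[X] ⧸ P`, `F = FractionRing Q`, `x j`, `y j` the images of `X (inl j)`, `X (inr j)`;
`aeval (Sum.elim x y) f = 0 ↔ f ∈ P` (see E3a.lean, theorem `pres_fun`, for the same construction).
`V` is not empty (`hadd` with `m = Pi.single 0 1`, as `0 < n`), so `y j ≠ 0`
(otherwise `X (inr j) ∈ P`), and every `f` vanishing on `V` is in `P` (`XW.vanish_mem` in F2b.lean with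
`S = Set.range Sum.inr`).
`af`: if `li m x = c` then `∑ C (m j) X (inl j) - C c ∈ P` vanishes on `V`, against `hadd`.
`mf`: if `mo m y = c` then `∏ X (inr j) ^ (m j).toNat - C c * ∏ X (inr j) ^ (-(m j)).toNat ∈ P`
(`XW.c4c_key` in C4c.lean), so `∏ p (inr j) ^ m j = c` on `V`, against `hmul`.
`rkx`: `hdep` gives an algebraic relation between the `x j`, so `rk (range x) < n` (`rk_eq_iff`,
`rk_range_le`); `hind` gives that the `x j`, `j ∈ J`, are algebraically independent, so
`J.card ≤ rk (range x)` (`rk_mono`, `rk_eq_iff` for the family over `J`), and `n ≤ J.card + 1`.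
`rkv`: `≥`: `Rot` for `M = 1` (or `hrot n` directly). `≤`: otherwise there is an independent subset of
`range x ∪ range y` with `n + 1` elements (`Matroid.le_eRk_iff`), so a set `J` of `n + 1` indices in
`Fin n ⊕ Fin n` such that `Sum.elim x y` restricted to `J` is algebraically independent, against `hdim`.
`Rot`: `hrot k _ _ M` gives `J` with `rank ≤ J.card`; the family
`j ↦ Sum.elim (fun i => li (M i) x) (fun i => mo (M i) y) j`, `j ∈ J`, is algebraically independent:
if `g` is a polynomial in the variables `j ∈ J` vanishing at it then `f = rename Subtype.val g` has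
`f.vars ⊆ J` and vanishes on `V` at the corresponding values (the homomorphism `ψ` of `loc_hom` at
the point of `V` - a point `p ∈ V` gives a point of `Loc x y` - maps `li (M i) x`, `mo (M i) y` to
the values of `hrot`: `sp_li`, `sp_mo`), so `f = 0` and `g = 0`. Hence
`J.card ≤ rk (range ... ∪ range ...)` by `rk_eq_iff`, `rk_mono`.
-/

namespace XA

open MvPolynomial

/-- independence of the members of a family with index in `J`, from a statement about polynomials
with variables in `J` -/
private theorem fr_indep {F : Type*} [Field F] [Algebra ℂ F] {ι : Type*} [DecidableEq ι]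
    (u : ι → F) (J : Finset ι)
    (h : ∀ f : MvPolynomial ι ℂ, f.vars ⊆ J → aeval u f = 0 → f = 0) :
    AlgebraicIndependent ℂ (fun j : J => u j) := by
  rw [algebraicIndependent_iff]
  intro g hg
  have h1 : (rename (Subtype.val : J → ι) g) = 0 := by
    apply h
    · intro i hi
      have h2 := vars_rename (Subtype.val : J → ι) g hi
      rw [Finset.mem_image] at h2
      obtain ⟨a, -, rfl⟩ := h2
      exact a.2
    · rw [aeval_rename]
      exact hg
  exact (rename_injective _ Subtype.val_injective).eq_iff' (map_zero _) |>.1 h1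

private theorem fr_card_le {F : Type*} [Field F] [Algebra ℂ F] {ι : Type*} [DecidableEq ι]
    (u : ι → F) (J : Finset ι) (h : AlgebraicIndependent ℂ (fun j : J => u j)) (S : Set F)
    (hS : Set.range u ⊆ S) : (J.card : ℕ∞) ≤ rk S := by
  have h1 := (rk_eq_iff (fun j : J => u j)).2 h
  rw [Fintype.card_coe] at h1
  rw [← h1]
  apply rk_mono
  rintro _ ⟨j, rfl⟩
  exact subset_cl S (hS ⟨j, rfl⟩)

/-- a family of rank `> m` has a subfamily of `m + 1` algebraically independent members -/
private theorem fr_big {F : Type*} [Field F] [Algebra ℂ F] {ι : Type*} [Fintype ι] [DecidableEq ι]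
    (u : ι → F) (m : ℕ) (h : (m : ℕ∞) < rk (Set.range u)) :
    ∃ J : Finset ι, m < J.card ∧ AlgebraicIndependent ℂ (fun j : J => u j) := by
  classical
  have h1 : ((m + 1 : ℕ) : ℕ∞) ≤ (AlgebraicIndependent.matroid ℂ F).eRk (Set.range u) := by
    have := Order.add_one_le_of_lt h
    push_cast
    exact this
  rw [Matroid.le_eRk_iff] at h1
  obtain ⟨I, hI, hind, hcard⟩ := h1
  have hch : ∀ a ∈ I, ∃ j, u j = a := fun a ha => hI ha
  have hnι : Nonempty ι := by
    have h0 : I.Nonempty := by
      rw [Set.nonempty_iff_ne_empty]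
      rintro rfl
      rw [Set.encard_empty] at hcard
      exact absurd hcard.symm (by exact_mod_cast Nat.succ_ne_zero m)
    obtain ⟨a, ha⟩ := h0
    obtain ⟨j, -⟩ := hch a ha
    exact ⟨j⟩
  choose! g hg using hch
  have hfin : I.Finite := Set.finite_of_encard_eq_coe hcard
  have hinj : Set.InjOn g I := by
    intro a ha b hb hab
    rw [← hg a ha, ← hg b hb, hab]
  refine ⟨(hfin.toFinset).image g, ?_, ?_⟩
  · rw [Finset.card_image_of_injOn (by simpa using hinj)]
    have : hfin.toFinset.card = m + 1 := by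
      rw [Set.Finite.encard_eq_coe_toFinset_card hfin] at hcard
      exact_mod_cast hcard
    omega
  · rw [AlgebraicIndependent.matroid_indep_iff] at hind
    let e : ((hfin.toFinset).image g : Finset ι) → I := fun j => ⟨u j, by
      have h2 := j.2
      rw [Finset.mem_image] at h2
      obtain ⟨a, ha, hga⟩ := h2
      rw [← hga, hg a (by simpa using ha)]
      simpa using ha⟩
    have he : Function.Injective e := by
      intro j j' hjj
      have h3 : u j = u j' := congrArg Subtype.val hjj
      have h2 := j.2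
      have h2' := j'.2
      rw [Finset.mem_image] at h2 h2'
      obtain ⟨a, ha, hga⟩ := h2
      obtain ⟨a', ha', hga'⟩ := h2'
      apply Subtype.ext
      rw [← hga, ← hga'] at h3 ⊢
      rw [hg a (by simpa using ha), hg a' (by simpa using ha')] at h3
      rw [h3]
    exact hind.comp e he

theorem frozen_fd (n : ℕ) (hn : 0 < n) (P : Ideal (MvPolynomial (Fin n ⊕ Fin n) ℂ))
    (V : Set (Fin n ⊕ Fin n → ℂ)) (hP : P.IsPrime)
    (hV : V = {p | (∀ f ∈ P, eval p f = 0) ∧ ∀ j : Fin n, p (Sum.inr j) ≠ 0})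
    (hadd : ∀ m : Fin n → ℤ, m ≠ 0 → ∀ c : ℂ,
          ∃ p ∈ V, (∑ j : Fin n, (m j : ℂ) * p (Sum.inl j)) ≠ c)
    (hmul : ∀ m : Fin n → ℤ, m ≠ 0 → ∀ c : ℂ,
          ∃ p ∈ V, (∏ j : Fin n, p (Sum.inr j) ^ (m j)) ≠ c)
    (hrot : ∀ k : ℕ, 1 ≤ k → k ≤ n → ∀ M : Matrix (Fin k) (Fin n) ℤ,
          ∃ J : Finset (Fin k ⊕ Fin k),
            (M.map (Int.cast : ℤ → ℚ)).rank ≤ J.card ∧
            ∀ f : MvPolynomial (Fin k ⊕ Fin k) ℂ, f.vars ⊆ J →
              (∀ p ∈ V, MvPolynomial.eval
                  (Sum.elim (fun i : Fin k => ∑ j : Fin n, (M i j : ℂ) * p (Sum.inl j))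
                            (fun i : Fin k => ∏ j : Fin n, p (Sum.inr j) ^ (M i j))) f = 0) →
              f = 0)
    (hdim : ∀ J : Finset (Fin n ⊕ Fin n), n < J.card →
      ∃ f : MvPolynomial (Fin n ⊕ Fin n) ℂ, f ≠ 0 ∧ f.vars ⊆ J ∧ ∀ p ∈ V, eval p f = 0)
    (hdep : ∃ f : MvPolynomial (Fin n) ℂ, f ≠ 0 ∧ ∀ p ∈ V, eval (fun j => p (Sum.inl j)) f = 0)
    (hind : ∃ J : Finset (Fin n), n ≤ J.card + 1 ∧ ∀ f : MvPolynomial (Fin n) ℂ, f.vars ⊆ J →
      (∀ p ∈ V, eval (fun j => p (Sum.inl j)) f = 0) → f = 0) :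
    ∃ (F : Type) (_ : Field F) (_ : Algebra ℂ F) (x y : Fin n → F), FD x y ∧ Rot x y ∧
      ∀ f : MvPolynomial (Fin n ⊕ Fin n) ℂ, aeval (Sum.elim x y) f = 0 ↔ f ∈ P := by
  classical
  -- the function field
  let Q := MvPolynomial (Fin n ⊕ Fin n) ℂ ⧸ P
  have : IsDomain Q := Ideal.Quotient.isDomain P
  let F := FractionRing Q
  let w : Fin n ⊕ Fin n → F := fun j => algebraMap Q F (Ideal.Quotient.mk P (X j))
  have hwae : ∀ G : MvPolynomial (Fin n ⊕ Fin n) ℂ,
      aeval w G = algebraMap Q F (Ideal.Quotient.mk P G) := by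
    intro G
    have h1 : aeval w = (IsScalarTower.toAlgHom ℂ Q F).comp (Ideal.Quotient.mkₐ ℂ P) := by
      refine MvPolynomial.algHom_ext fun j => ?_
      rw [aeval_X]
      rfl
    rw [h1]
    rfl
  have hw : ∀ G : MvPolynomial (Fin n ⊕ Fin n) ℂ, aeval w G = 0 ↔ G ∈ P := by
    intro G
    rw [hwae, map_eq_zero_iff _ (IsFractionRing.injective Q F)]
    exact Ideal.Quotient.eq_zero_iff_mem
  let x : Fin n → F := fun j => w (Sum.inl j)
  let y : Fin n → F := fun j => w (Sum.inr j)
  have hxy : Sum.elim x y = w := by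
    funext j
    rcases j with j | j <;> rfl
  have hne : V.Nonempty := by
    obtain ⟨p, hp, -⟩ := hadd (Pi.single ⟨0, hn⟩ 1) (by
      intro h0
      have := congrFun h0 ⟨0, hn⟩
      simp at this) 0
    exact ⟨p, hp⟩
  have hvan : ∀ f : MvPolynomial (Fin n ⊕ Fin n) ℂ, (∀ p ∈ V, eval p f = 0) → f ∈ P := by
    refine XW.vanish_mem P hP (Set.range Sum.inr) V ?_ hne
    rw [hV]
    ext p
    simp
  have hvan' : ∀ f ∈ P, ∀ p ∈ V, eval p f = 0 := by
    intro f hf p hp
    rw [hV] at hp
    exact hp.1 f hf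
  have key : ∀ f : MvPolynomial (Fin n ⊕ Fin n) ℂ, aeval w f = 0 ↔ ∀ p ∈ V, eval p f = 0 :=
    fun f => (hw f).trans ⟨fun h => hvan' f h, fun h => hvan f h⟩
  have hVnz : ∀ p ∈ V, ∀ j, p (Sum.inr j) ≠ 0 := by
    intro p hp
    rw [hV] at hp
    exact hp.2
  have hy : ∀ j, y j ≠ 0 := by
    intro j hj
    obtain ⟨p, hp⟩ := hne
    have h1 := (key (X (Sum.inr j))).1 (by rw [aeval_X]; exact hj) p hp
    rw [eval_X] at h1
    exact hVnz p hp j h1
  have hloc : ∀ p ∈ V, ((fun j => p (Sum.inl j)), (fun j => p (Sum.inr j))) ∈ Loc x y := by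
    intro p hp
    refine ⟨?_, hVnz p hp⟩
    intro f hf
    rw [hxy] at hf
    have h1 := (key f).1 hf p hp
    have h2 : (Sum.elim (fun j => p (Sum.inl j)) (fun j => p (Sum.inr j)) :
        Fin n ⊕ Fin n → ℂ) = p := by
      funext j
      rcases j with j | j <;> rfl
    show eval (Sum.elim (fun j => p (Sum.inl j)) (fun j => p (Sum.inr j))) f = 0
    rw [h2]
    exact h1
  have hRot : Rot x y := by
    intro k M hk1 hkn
    obtain ⟨J, hJ, hJ2⟩ := hrot k hk1 hkn M
    have hli : ∀ i, li (M i) x ∈ BL x y := by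
      intro i
      unfold li
      exact sum_mem fun j _ => mul_mem (intCast_mem _ _) (mem_BL_x x y j)
    have hmo : ∀ i, mo (M i) y ∈ BL x y := fun i => mem_BL_mo x y (M i)
    let ub : Fin k ⊕ Fin k → BL x y :=
      Sum.elim (fun i => ⟨li (M i) x, hli i⟩) (fun i => ⟨mo (M i) y, hmo i⟩)
    let u : Fin k ⊕ Fin k → F := Sum.elim (fun i => li (M i) x) (fun i => mo (M i) y)
    have hu : ∀ f : MvPolynomial (Fin k ⊕ Fin k) ℂ, aeval u f = ((aeval ub f : BL x y) : F) := by
      intro f
      have h1 := MvPolynomial.comp_aeval_apply ub (BL x y).val f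
      have h2 : (fun i => (BL x y).val (ub i)) = u := by
        funext i
        rcases i with i | i <;> rfl
      rw [h2] at h1
      exact h1.symm
    have hind2 : AlgebraicIndependent ℂ (fun j : J => u j) := by
      refine fr_indep u J fun f hf hf0 => ?_
      refine hJ2 f hf fun p hp => ?_
      obtain ⟨ψ, hψ⟩ := loc_hom hy (hloc p hp)
      have h1 : aeval ub f = 0 := by
        apply Subtype.ext
        rw [← hu f]
        exact hf0
      have h2 := MvPolynomial.comp_aeval_apply ub ψ f
      rw [h1, map_zero] at h2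
      have h3 : (fun i => ψ (ub i)) =
          (Sum.elim (fun i : Fin k => ∑ j : Fin n, (M i j : ℂ) * p (Sum.inl j))
            (fun i : Fin k => ∏ j : Fin n, p (Sum.inr j) ^ (M i j))) := by
        funext i
        rcases i with i | i
        · exact sp_li hψ (M i) (ub (Sum.inl i)) rfl
        · exact sp_mo hy hψ (M i) (ub (Sum.inr i)) rfl
      rw [h3] at h2
      exact h2.symm
    have h4 : (J.card : ℕ∞) ≤ rk (Set.range (fun i => li (M i) x) ∪
        Set.range (fun i => mo (M i) y)) := by
      refine fr_card_le u J hind2 _ ?_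
      rintro _ ⟨i | i, rfl⟩
      · exact Or.inl ⟨i, rfl⟩
      · exact Or.inr ⟨i, rfl⟩
    refine le_trans ?_ h4
    exact_mod_cast hJ
  have hx_inl : ∀ f : MvPolynomial (Fin n) ℂ,
      aeval x f = aeval w (rename Sum.inl f) := by
    intro f
    rw [aeval_rename]
    rfl
  have hev_inl : ∀ (f : MvPolynomial (Fin n) ℂ) (p : Fin n ⊕ Fin n → ℂ),
      eval p (rename Sum.inl f) = eval (fun j => p (Sum.inl j)) f := by
    intro f p
    rw [eval_rename]
    rfl
  refine ⟨F, inferInstance, inferInstance, x, y, ⟨hy, ?_, ?_, ?_, ?_⟩, hRot, ?_⟩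
  · -- additively free
    intro m hm c hc
    obtain ⟨p, hp, hpc⟩ := hadd m hm c
    apply hpc
    have h1 := (key (∑ j, C (m j : ℂ) * X (Sum.inl j) - C c)).1 (by
      rw [map_sub, map_sum, aeval_C, sub_eq_zero, ← hc]
      unfold li
      refine Finset.sum_congr rfl fun j _ => ?_
      rw [map_mul, aeval_C, aeval_X, map_intCast]) p hp
    rw [map_sub, map_sum, eval_C, sub_eq_zero] at h1
    rw [← h1]
    refine Finset.sum_congr rfl fun j _ => ?_
    rw [map_mul, eval_C, eval_X]
  · -- multiplicatively free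
    intro m hm c hc
    obtain ⟨p, hp, hpc⟩ := hmul m hm c
    apply hpc
    have h1 := (key (∏ j, X (Sum.inr j) ^ (m j).toNat -
        C c * ∏ j, X (Sum.inr j) ^ (-(m j)).toNat)).1 (by
      rw [map_sub, map_mul, map_prod, map_prod, aeval_C, sub_eq_zero, ← hc]
      simp only [map_pow, aeval_X]
      exact (XW.c4c_key m y hy).symm) p hp
    rw [map_sub, map_mul, map_prod, map_prod, eval_C, sub_eq_zero] at h1
    simp only [map_pow, eval_X] at h1
    have h2 := XW.c4c_key m (fun j => p (Sum.inr j)) (hVnz p hp)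
    have h3 : (∏ j, p (Sum.inr j) ^ (-(m j)).toNat) ≠ 0 :=
      Finset.prod_ne_zero_iff.2 fun j _ => pow_ne_zero _ (hVnz p hp j)
    apply mul_right_cancel₀ h3
    rw [← h1]
    exact h2
  · -- rank of x
    apply le_antisymm
    · have h1 : rk (Set.range x) ≤ (n : ℕ∞) := by
        have := rk_range_le x
        rwa [Fintype.card_fin] at this
      have h2 : rk (Set.range x) ≠ (n : ℕ∞) := by
        intro h3
        have h4 := (rk_eq_iff x).1 (by rw [Fintype.card_fin]; exact h3)
        obtain ⟨f, hf, hf0⟩ := hdep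
        apply hf
        rw [algebraicIndependent_iff] at h4
        apply h4
        rw [hx_inl, key]
        intro p hp
        rw [hev_inl]
        exact hf0 p hp
      exact Order.add_one_le_of_lt (lt_of_le_of_ne h1 h2)
    · obtain ⟨J, hJ, hJ2⟩ := hind
      have h1 : AlgebraicIndependent ℂ (fun j : J => x j) := by
        refine fr_indep x J fun f hf hf0 => ?_
        refine hJ2 f hf fun p hp => ?_
        rw [← hev_inl]
        refine (key _).1 ?_ p hp
        rw [← hx_inl]
        exact hf0
      have h2 := fr_card_le x J h1 (Set.range x) (le_refl _)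
      calc (n : ℕ∞) ≤ ((J.card + 1 : ℕ) : ℕ∞) := by exact_mod_cast hJ
        _ = (J.card : ℕ∞) + 1 := by push_cast; rfl
        _ ≤ rk (Set.range x) + 1 := by gcongr
  · -- rank of x, y
    have hr : Set.range x ∪ Set.range y = Set.range w := by
      rw [← hxy, Set.Sum.elim_range]
    apply le_antisymm
    · rw [hr]
      by_contra hlt
      obtain ⟨J, hJ, hJ2⟩ := fr_big w n (not_le.1 hlt)
      obtain ⟨f, hf, hfv, hf0⟩ := hdim J hJ
      obtain ⟨g, hg⟩ := exists_rename_eq_of_vars_subset_range f (Subtype.val : J → _)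
        Subtype.val_injective (by
          intro i hi
          exact ⟨⟨i, hfv hi⟩, rfl⟩)
      rw [algebraicIndependent_iff] at hJ2
      have h1 : g = 0 := by
        apply hJ2
        have h2 := (key f).2 hf0
        rw [← hg, aeval_rename] at h2
        exact h2
      apply hf
      rw [← hg, h1, map_zero]
    · have h1 := hRot n 1 hn le_rfl
      have h2 : (fun i => li ((1 : Matrix (Fin n) (Fin n) ℤ) i) x) = x := by
        funext i
        have : (1 : Matrix (Fin n) (Fin n) ℤ) i = Pi.single i 1 := by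
          funext j
          rw [Matrix.one_apply, Pi.single_apply]
          simp only [eq_comm]
        rw [this, li_single]
      have h3 : (fun i => mo ((1 : Matrix (Fin n) (Fin n) ℤ) i) y) = y := by
        funext i
        have : (1 : Matrix (Fin n) (Fin n) ℤ) i = Pi.single i 1 := by
          funext j
          rw [Matrix.one_apply, Pi.single_apply]
          simp only [eq_comm]
        rw [this, mo_single]
      rw [h2, h3] at h1
      have h4 : ((1 : Matrix (Fin n) (Fin n) ℤ).map (Int.cast : ℤ → ℚ)).rank = n := by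
        have : ((1 : Matrix (Fin n) (Fin n) ℤ).map (Int.cast : ℤ → ℚ)) = 1 := by
          rw [Matrix.map_one _ Int.cast_zero Int.cast_one]
        rw [this, Matrix.rank_one, Fintype.card_fin]
      rw [h4] at h1
      exact h1
  · intro f
    rw [hxy]
    exact hw f

end XA
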