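import Pool.Agent.Lib.MP_228259_lc.A.DR
import Pool.Agent.Lib.MP_228259_lc.A.TR2
import Pool.Agent.Lib.MP_228259_lc.A.BA

/-!
FU: changes of coordinates for `FR0`.

PROOF. `fr0_unimod`: as `fd_unimod` (TR2.lean: copy, `rot_unimod` is there). `adapted0`: as `adapted` in AB.lean
(`adapted_basis` for the subgroup `A = {b | mo b y ∈ cl (range x)}`, saturated because `cl (range x)` is
algebraically closed in `F`; `cl_unimod`; `mo_mo`), without the statement `r < n`.
`rank_le`: the `y i` with `(i : ℕ) < r` are in `cl (range x)` (`hA` for `Pi.single i 1`), so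
`rk (range x ∪ range y) ≤ rk (range x) + (n - r)`.
-/

set_option autoImplicit false

namespace XA

open MvPolynomial

private theorem fu_ne {n : ℕ} {m : Fin n → ℤ} (hm : m ≠ 0) (U U' : Matrix (Fin n) (Fin n) ℤ)
    (h2 : U * U' = 1) : (fun j => ∑ i, m i * U i j) ≠ 0 := by
  intro h0
  apply hm
  have h3 : Matrix.vecMul m U = 0 := by
    funext j
    have := congrFun h0 j
    simpa [Matrix.vecMul, dotProduct] using this
  have h4 : Matrix.vecMul (Matrix.vecMul m U) U' = m := by
    rw [Matrix.vecMul_vecMul, h2, Matrix.vecMul_one]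
  rw [h3, Matrix.zero_vecMul] at h4
  exact h4.symm

private theorem fu_natPow {F : Type*} [Field F] [Algebra ℂ F] {S : Set F} {a : F} {k : ℕ}
    (hk : 0 < k) (h : a ^ k ∈ cl S) : a ∈ cl S := by
  obtain ⟨K, hK⟩ := cl_field S
  have hmem : ∀ a : F, a ∈ K ↔ a ∈ cl S := fun a => by rw [← hK]; rfl
  refine cl_root S (Polynomial.X ^ k - Polynomial.C (a ^ k)) ?_ ?_ a ?_
  · exact (Polynomial.monic_X_pow_sub_C (a ^ k) hk.ne').ne_zero
  · intro i
    rw [← hmem] at h ⊢
    rw [Polynomial.coeff_sub, Polynomial.coeff_X_pow, Polynomial.coeff_C]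
    refine sub_mem ?_ ?_
    · split_ifs
      · exact one_mem K
      · exact zero_mem K
    · split_ifs
      · exact h
      · exact zero_mem K
  · simp

private theorem fu_zpow {F : Type*} [Field F] [Algebra ℂ F] {S : Set F} {a : F} {k : ℤ}
    (hk : k ≠ 0) (h : a ^ k ∈ cl S) : a ∈ cl S := by
  obtain ⟨K, hK⟩ := cl_field S
  have hmem : ∀ a : F, a ∈ K ↔ a ∈ cl S := fun a => by rw [← hK]; rfl
  have h1 : a ^ k.natAbs ∈ cl S := by
    rcases Int.natAbs_eq k with h2 | h2
    · rw [h2, zpow_natCast] at h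
      exact h
    · rw [h2, zpow_neg, zpow_natCast] at h
      rw [← hmem] at h ⊢
      have h3 := inv_mem h
      rwa [inv_inv] at h3
  exact fu_natPow (Int.natAbs_pos.2 hk) h1

theorem fr0_unimod {F : Type*} [Field F] [Algebra ℂ F] {n : ℕ} {x y : Fin n → F} (h : FR0 x y)
    (U U' : Matrix (Fin n) (Fin n) ℤ) (h1 : U' * U = 1) (h2 : U * U' = 1) :
    FR0 (fun i => li (U i) x) (fun i => mo (U i) y) := by
  refine ⟨fun j => mo_ne_zero h.nz (U j), fun m hm c => ?_, fun m hm c => ?_,
    rot_unimod h.nz h.rot U U' h1 h2⟩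
  · rw [li_li]
    exact h.af _ (fu_ne hm U U' h2) c
  · rw [mo_mo h.nz]
    exact h.mf _ (fu_ne hm U U' h2) c

theorem adapted0 {F : Type*} [Field F] [Algebra ℂ F] {n : ℕ} {x y : Fin n → F}
    (hy : ∀ j, y j ≠ 0) :
    ∃ (U U' : Matrix (Fin n) (Fin n) ℤ) (r : ℕ), U' * U = 1 ∧ U * U' = 1 ∧ r ≤ n ∧
      ∀ b : Fin n → ℤ, mo b (fun i => mo (U i) y) ∈ cl (Set.range (fun i => li (U i) x)) ↔
        ∀ i : Fin n, r ≤ (i : ℕ) → b i = 0 := by
  obtain ⟨K, hK⟩ := cl_field (Set.range x)
  have hmem : ∀ a : F, a ∈ K ↔ a ∈ cl (Set.range x) := fun a => by rw [← hK]; rfl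
  let A : AddSubgroup (Fin n → ℤ) :=
    { carrier := {b | mo b y ∈ cl (Set.range x)}
      add_mem' := by
        intro a b ha hb
        change mo (a + b) y ∈ cl (Set.range x)
        rw [mo_add hy, ← hmem]
        exact mul_mem ((hmem _).2 ha) ((hmem _).2 hb)
      zero_mem' := by
        change mo (0 : Fin n → ℤ) y ∈ cl (Set.range x)
        rw [← hmem]
        have : mo (0 : Fin n → ℤ) y = 1 := by
          unfold mo
          simp
        rw [this]
        exact one_mem K
      neg_mem' := by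
        intro b hb
        change mo (-b) y ∈ cl (Set.range x)
        have h1 : mo (-b) y = (mo b y)⁻¹ := by
          have := mo_smul (y := y) b (-1)
          rw [zpow_neg_one] at this
          rw [← this]
          congr 1
          funext j
          simp
        rw [h1, ← hmem]
        exact inv_mem ((hmem _).2 hb) }
  have hA : ∀ b : Fin n → ℤ, b ∈ A ↔ mo b y ∈ cl (Set.range x) := fun b => Iff.rfl
  obtain ⟨U, U', r, h1, h2, hr, hb⟩ := adapted_basis A (by
    intro m a hm ha
    rw [hA] at ha ⊢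
    rw [mo_smul] at ha
    exact fu_zpow hm ha)
  refine ⟨U, U', r, h1, h2, hr, ?_⟩
  intro b
  obtain ⟨e1, -⟩ := cl_unimod (x := x) hy U U' h1 h2
  rw [e1, mo_mo hy, ← hb b, hA]

theorem rank_le {F : Type*} [Field F] [Algebra ℂ F] {n : ℕ} {x y : Fin n → F} {r : ℕ}
    (hr : r ≤ n) (hA : ∀ b : Fin n → ℤ, mo b y ∈ cl (Set.range x) ↔
      ∀ i : Fin n, r ≤ (i : ℕ) → b i = 0) :
    rk (Set.range x ∪ Set.range y) + r ≤ rk (Set.range x) + n := by
  have h1 : ∀ i : Fin n, (i : ℕ) < r → y i ∈ cl (Set.range x) := by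
    intro i hi
    have h2 := (hA (Pi.single i 1)).2 (fun j hj => by
      rw [Pi.single_eq_of_ne]
      intro hji
      rw [hji] at hj
      omega)
    rwa [mo_single] at h2
  let z : Fin (n - r) → F := fun i => y ⟨r + i, by omega⟩
  have h3 : Set.range x ∪ Set.range y ⊆ cl (Set.range x ∪ Set.range z) := by
    refine Set.union_subset (Set.subset_union_left.trans (subset_cl _)) ?_
    rintro _ ⟨i, rfl⟩
    by_cases hi : (i : ℕ) < r
    · exact cl_mono Set.subset_union_left (h1 i hi)
    · refine subset_cl _ (Or.inr ⟨⟨(i : ℕ) - r, by omega⟩, ?_⟩)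
      show y ⟨r + ((i : ℕ) - r), _⟩ = y i
      congr 1
      apply Fin.ext
      show r + ((i : ℕ) - r) = i
      omega
  have h4 : rk (Set.range x ∪ Set.range z) ≤ rk (Set.range x) + rk (Set.range z) :=
    (AlgebraicIndependent.matroid ℂ F).eRk_union_le_eRk_add_eRk _ _
  have h5 : rk (Set.range z) ≤ ((n - r : ℕ) : ℕ∞) := by
    have h6 := rk_range_le z
    rwa [Fintype.card_fin] at h6
  calc rk (Set.range x ∪ Set.range y) + r
      ≤ (rk (Set.range x) + ((n - r : ℕ) : ℕ∞)) + r :=
        add_le_add ((rk_mono h3).trans (h4.trans (add_le_add le_rfl h5))) le_rfl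
    _ = rk (Set.range x) + n := by
        rw [add_assoc]
        congr 1
        rw [← Nat.cast_add, Nat.sub_add_cancel hr]

end XA
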