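import Pool.Agent.Lib.MP_228259_lc.A.AD

/-!
LO: extension of a specialisation to an algebraic element (lying over).

PROOF. Let `S = ℂ[X_i]`, `𝔪 = ker (eval p)` and `L = S_𝔪`. By `hp` every `f ∉ 𝔪` has `f(u) ≠ 0`, so
`aeval u` extends to `L → F`. `a` is integral over `L` (the leading coefficient of `q` is a unit of
`L`). Let `D` be the integral closure of `L` in `F`; by lying over there is a maximal ideal `Q` of
`D` over the maximal ideal of `L`. The homomorphism `S → D ⧸ Q` is `eval p` followed by
`ℂ → D ⧸ Q`, so the image of `a` is a root of `q.map (eval p) ≠ 0` and is in `ℂ`. `c` = the image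
of `a`.
-/

namespace XA

open MvPolynomial

theorem lift_point {F : Type*} [Field F] [Algebra ℂ F] {ι : Type} [Finite ι] {u : ι → F}
    {p : ι → ℂ} (hp : IsPt u p) (a : F) (q : Polynomial (MvPolynomial ι ℂ))
    (hqd : 0 < q.natDegree)
    (hqa : (q.map (aeval u : MvPolynomial ι ℂ →ₐ[ℂ] F).toRingHom).eval a = 0)
    (hlc : eval p q.leadingCoeff ≠ 0) :
    ∃ c : ℂ, ∀ f : Polynomial (MvPolynomial ι ℂ),
      (f.map (aeval u : MvPolynomial ι ℂ →ₐ[ℂ] F).toRingHom).eval a = 0 →
        (f.map (eval p)).eval c = 0 := by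
  classical
  set φ : MvPolynomial ι ℂ →+* F := (aeval u : MvPolynomial ι ℂ →ₐ[ℂ] F).toRingHom with hφ
  have hφa : ∀ f, φ f = aeval u f := fun f => rfl
  have hsurj : Function.Surjective (eval p : MvPolynomial ι ℂ →+* ℂ) := fun z => ⟨C z, eval_C z⟩
  set m : Ideal (MvPolynomial ι ℂ) := RingHom.ker (eval p) with hm
  haveI hmM : m.IsMaximal := RingHom.ker_isMaximal_of_surjective _ hsurj
  haveI hmP : m.IsPrime := hmM.isPrime
  set L := Localization.AtPrime m with hL
  have hu : ∀ y : m.primeCompl, IsUnit (φ y) := by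
    intro y
    rw [isUnit_iff_ne_zero]
    intro h0
    exact y.2 (show (y : MvPolynomial ι ℂ) ∈ m from hp _ h0)
  set Φ : L →+* F := IsLocalization.lift hu with hΦ
  letI algLF : Algebra L F := Φ.toAlgebra
  have hΦφ : ∀ f, algebraMap L F (algebraMap (MvPolynomial ι ℂ) L f) = φ f := by
    intro f
    exact IsLocalization.lift_eq hu f
  have hcomp : (algebraMap L F).comp (algebraMap (MvPolynomial ι ℂ) L) = φ := RingHom.ext hΦφ
  -- the leading coefficient is a unit of `L`
  have hunit : IsUnit (algebraMap (MvPolynomial ι ℂ) L q.leadingCoeff) := by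
    apply IsLocalization.map_units L (⟨q.leadingCoeff, _⟩ : m.primeCompl)
    intro h
    exact hlc h
  -- `a` is integral over `L`
  have hint : IsIntegral L a := by
    obtain ⟨v, hv⟩ := hunit.exists_left_inv
    refine ⟨Polynomial.C v * q.map (algebraMap (MvPolynomial ι ℂ) L), ?_, ?_⟩
    · apply Polynomial.monic_C_mul_of_mul_leadingCoeff_eq_one
      rw [Polynomial.leadingCoeff_map_of_leadingCoeff_ne_zero, hv]
      exact hunit.ne_zero
    · rw [Polynomial.eval₂_mul, Polynomial.eval₂_map, hcomp, ← Polynomial.eval_map φ, hqa, mul_zero]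
  set D := integralClosure L F with hD
  obtain ⟨Q, hQM, hQ⟩ := Ideal.exists_ideal_over_maximal_of_isIntegral (R := L) (S := D)
    (IsLocalRing.maximalIdeal L) (IsLocalRing.le_maximalIdeal (RingHom.ker_ne_top _))
  letI : Field (D ⧸ Q) := Ideal.Quotient.field Q
  set θ : D →+* D ⧸ Q := Ideal.Quotient.mk Q with hθ
  set τ : MvPolynomial ι ℂ →+* D := (algebraMap L D).comp (algebraMap (MvPolynomial ι ℂ) L) with hτ
  set ιC : ℂ →+* D ⧸ Q := (θ.comp τ).comp C with hιC
  have hσ : θ.comp τ = ιC.comp (eval p) := by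
    apply MvPolynomial.ringHom_ext
    · intro z
      rw [RingHom.comp_apply ιC, eval_C]; rfl
    · intro i
      rw [RingHom.comp_apply ιC, eval_X]
      have h1 : τ (X i - C (p i)) ∈ Q := by
        have h2 : algebraMap (MvPolynomial ι ℂ) L (X i - C (p i)) ∈ IsLocalRing.maximalIdeal L := by
          rw [IsLocalization.AtPrime.to_map_mem_maximal_iff L m]
          rw [hm, RingHom.mem_ker, map_sub, eval_X, eval_C, sub_self]
        rw [← hQ] at h2
        exact h2
      have h3 : θ (τ (X i - C (p i))) = 0 := Ideal.Quotient.eq_zero_iff_mem.mpr h1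
      rw [map_sub, map_sub, sub_eq_zero] at h3
      exact h3
  set aD : D := ⟨a, hint⟩ with haD
  have hτφ : (algebraMap D F).comp τ = φ := by
    rw [hτ, ← RingHom.comp_assoc, ← IsScalarTower.algebraMap_eq L D F, hcomp]
  have hev : ∀ f : Polynomial (MvPolynomial ι ℂ), (f.map φ).eval a = 0 →
      (f.map (ιC.comp (eval p))).eval (θ aD) = 0 := by
    intro f hf
    rw [← hσ]
    have h1 : (f.map τ).eval aD = 0 := by
      have hinj : Function.Injective (algebraMap D F) := Subtype.val_injective
      apply hinj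
      rw [map_zero]
      rw [Polynomial.eval_map, Polynomial.hom_eval₂, hτφ, ← Polynomial.eval_map]
      exact hf
    rw [Polynomial.eval_map, ← Polynomial.hom_eval₂, ← Polynomial.eval_map, h1, map_zero]
  -- the image of `a` is in `ℂ`
  have hroot := hev q hqa
  have hqp : q.map (eval p) ≠ 0 := by
    intro h0
    have h1 : (q.map (eval p)).coeff q.natDegree = 0 := by rw [h0]; rfl
    rw [Polynomial.coeff_map] at h1
    exact hlc h1
  obtain ⟨c, hc⟩ : ∃ c : ℂ, ιC c = θ aD := by
    letI : Algebra ℂ (D ⧸ Q) := ιC.toAlgebra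
    have hI : IsIntegral ℂ (θ aD) := by
      apply IsAlgebraic.isIntegral
      refine ⟨q.map (eval p), hqp, ?_⟩
      rw [Polynomial.aeval_def, Polynomial.eval₂_map]
      rw [Polynomial.eval_map] at hroot
      exact hroot
    have hmem := minpoly.mem_range_of_degree_eq_one ℂ (θ aD)
      (IsAlgClosed.degree_eq_one_of_irreducible ℂ (minpoly.irreducible hI))
    obtain ⟨c, hc⟩ := hmem
    exact ⟨c, hc⟩
  refine ⟨c, fun f hf => ?_⟩
  have h1 := hev f hf
  rw [← hc, ← Polynomial.map_map, Polynomial.eval_map, Polynomial.eval₂_hom,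
    map_eq_zero_iff ιC ιC.injective] at h1
  exact h1

end XA
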