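import Pool.Agent.Lib.MP_228259_lc.A.ND

/-!
ND2: a rational direction in which the form `T` is not constant.

PROOF. As `nondeg_or` in ND.lean, with the vector `q₀` in place of `e_i` (copy the private lemmas):
some irreducible factor `H` of `T` has `dirD (qc q₀) H ≠ 0` (`dirD (qc q₀)` satisfies the Leibniz rule and
vanishes on constants; `T ≠ 0`). Let `W = {q | dirD (qc q) H = 0}`, a subspace of `ℚⁿ`, `q₀ ∉ W`. A linear form
`φ` on `ℚⁿ` vanishes on `W` and has `φ(q₀) ≠ 0`; `a j = N φ(e_j) ∈ ℤ` (`XW.primitive_vec`).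
-/

set_option autoImplicit false

namespace XA

open MvPolynomial XW

private theorem xaND2_mul {n : ℕ} (v : Fin n → ℂ) (P Q : MvPolynomial (Fin n) ℂ) :
    dirD v (P * Q) = dirD v P * Q + P * dirD v Q := by
  unfold dirD
  rw [Finset.sum_mul, Finset.mul_sum, ← Finset.sum_add_distrib]
  refine Finset.sum_congr rfl fun j _ => ?_
  rw [pderiv_mul]
  ring

private theorem xaND2_C {n : ℕ} (v : Fin n → ℂ) (c : ℂ) :
    dirD v (C c : MvPolynomial (Fin n) ℂ) = 0 := by
  unfold dirD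
  refine Finset.sum_eq_zero fun j _ => ?_
  rw [pderiv_C, mul_zero]

private theorem xaND2_factor {n : ℕ} {T : MvPolynomial (Fin n) ℂ} (hT : T ≠ 0) (v : Fin n → ℂ)
    (h : dirD v T ≠ 0) :
    ∃ H : MvPolynomial (Fin n) ℂ, Irreducible H ∧ H ∣ T ∧ dirD v H ≠ 0 := by
  by_contra hc
  push Not at hc
  obtain ⟨f, hf, u, hu⟩ := WfDvdMonoid.exists_factors T hT
  have h1 : ∀ g : Multiset (MvPolynomial (Fin n) ℂ), (∀ b ∈ g, dirD v b = 0) →
      dirD v g.prod = 0 := by
    intro g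
    induction g using Multiset.induction_on with
    | empty =>
      intro _
      rw [Multiset.prod_zero, ← C_1, xaND2_C]
    | cons a g ih =>
      intro hg
      rw [Multiset.prod_cons, xaND2_mul, hg a (Multiset.mem_cons_self a g),
        ih fun b hb => hg b (Multiset.mem_cons_of_mem hb), zero_mul, mul_zero, add_zero]
  have h2 : dirD v f.prod = 0 := by
    refine h1 f fun b hb => hc b (hf b hb) ?_
    exact (Multiset.dvd_prod hb).trans (Dvd.intro _ hu)
  obtain ⟨c, _, hcu⟩ := isUnit_iff_eq_C_of_isReduced.1 u.isUnit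
  apply h
  rw [← hu, xaND2_mul, h2, hcu, xaND2_C, zero_mul, mul_zero, add_zero]

private theorem xaND2_dirD_add {n : ℕ} (p q : Fin n → ℚ) (H : MvPolynomial (Fin n) ℂ) :
    dirD (qc (p + q)) H = dirD (qc p) H + dirD (qc q) H := by
  unfold dirD qc
  rw [← Finset.sum_add_distrib]
  refine Finset.sum_congr rfl fun j _ => ?_
  rw [Pi.add_apply, Rat.cast_add, C_add, add_mul]

private theorem xaND2_dirD_smul {n : ℕ} (c : ℚ) (q : Fin n → ℚ) (H : MvPolynomial (Fin n) ℂ) :
    dirD (qc (c • q)) H = C (c : ℂ) * dirD (qc q) H := by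
  unfold dirD qc
  rw [Finset.mul_sum]
  refine Finset.sum_congr rfl fun j _ => ?_
  rw [Pi.smul_apply, smul_eq_mul, Rat.cast_mul, C_mul, mul_assoc]

private def xaND2_W {n : ℕ} (H : MvPolynomial (Fin n) ℂ) : Submodule ℚ (Fin n → ℚ) where
  carrier := {q | dirD (qc q) H = 0}
  add_mem' := by
    intro p q hp hq
    rw [Set.mem_ofPred_eq] at hp hq ⊢
    rw [xaND2_dirD_add, hp, hq, add_zero]
  zero_mem' := by
    rw [Set.mem_ofPred_eq]
    have h := xaND2_dirD_smul 0 (0 : Fin n → ℚ) H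
    rwa [smul_zero, Rat.cast_zero, C_0, zero_mul] at h
  smul_mem' := by
    intro c q hq
    rw [Set.mem_ofPred_eq] at hq ⊢
    rw [xaND2_dirD_smul, hq, mul_zero]

theorem nondeg_dir {n : ℕ} {T : MvPolynomial (Fin n) ℂ} {q₀ : Fin n → ℚ}
    (hT : dirD (qc q₀) T ≠ 0) :
    ∃ H : MvPolynomial (Fin n) ℂ, Irreducible H ∧ H ∣ T ∧
      ∃ a : Fin n → ℤ, (∀ q : Fin n → ℚ, dirD (qc q) H = 0 → ∑ j, (a j : ℚ) * q j = 0) ∧
        ∑ j, (a j : ℚ) * q₀ j ≠ 0 := by
  have hT0 : T ≠ 0 := by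
    rintro rfl
    apply hT
    unfold dirD
    refine Finset.sum_eq_zero fun j _ => ?_
    rw [map_zero, mul_zero]
  obtain ⟨H, hH, hd, hpd⟩ := xaND2_factor hT0 _ hT
  refine ⟨H, hH, hd, ?_⟩
  have hi' : q₀ ∉ xaND2_W H := fun h => hpd h
  obtain ⟨φ, hφ, hker⟩ := Submodule.exists_le_ker_of_notMem hi'
  have hsum : ∀ q : Fin n → ℚ, φ q = ∑ j, q j * φ (Pi.single j 1) := by
    intro q
    conv_lhs => rw [← Finset.univ_sum_single q]
    rw [map_sum]
    refine Finset.sum_congr rfl fun j _ => ?_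
    have h3 : (Pi.single j (q j) : Fin n → ℚ) = q j • Pi.single j 1 := by
      rw [← Pi.single_smul, smul_eq_mul, mul_one]
    rw [h3, map_smul, smul_eq_mul]
  have hq : (fun j => φ (Pi.single j 1)) ≠ 0 := by
    intro h
    apply hφ
    rw [hsum]
    refine Finset.sum_eq_zero fun j _ => ?_
    rw [congrFun h j]
    exact mul_zero _
  obtain ⟨a, c₀, _, hc₀, ha, _⟩ := primitive_vec (fun j => φ (Pi.single j 1)) hq
  have hval : ∀ q : Fin n → ℚ, ∑ j, (a j : ℚ) * q j = c₀ * φ q := by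
    intro q
    rw [hsum q, Finset.mul_sum]
    refine Finset.sum_congr rfl fun j _ => ?_
    rw [ha j]
    ring
  refine ⟨a, ?_, ?_⟩
  · intro q hq
    have h1 : φ q = 0 := hker hq
    rw [hval, h1, mul_zero]
  · rw [hval]
    exact mul_ne_zero hc₀ hφ

end XA
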