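import Pool.Agent.Lib.MP_228259_lc.A.CL2

/-!
RKP: the rank of `x` when the ideal of relations of `x` is principal.

PROOF. `p ≠ 0` and `p` is not a unit (otherwise `p ∣ 1` and `aeval x 1 = 0`), so `p` is not constant and some
variable `i` occurs in `p` (`p.vars` is not empty; `0 < p.degreeOf i`). `x` is not algebraically
independent (`aeval x p = 0`), so `rk (range x) ≠ n` (`rk_eq_iff`), and `rk (range x) ≤ n`, so
`rk (range x) + 1 ≤ n`. The family `fun j : {j // j ≠ i} => x j` is algebraically independent: if `g` is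
a polynomial with `aeval (fun j => x j) g = 0` then `p ∣ rename Subtype.val g =: g'`; if `g' ≠ 0` then
`p.degreeOf i ≤ g'.degreeOf i = 0` (`MvPolynomial.degreeOf_mul_eq`, or write `g' = p * k` and compare
`degreeOf i`), a contradiction; so `g' = 0`, `g = 0`. Hence `n - 1 ≤ rk (range x)` (`rk_eq_iff` for this family,
`rk_mono`).
-/

set_option autoImplicit false

namespace XA

open MvPolynomial

theorem rk_of_principal {F : Type*} [Field F] [Algebra ℂ F] {n : ℕ} {x : Fin n → F}
    {p : MvPolynomial (Fin n) ℂ} (hp : p ≠ 0)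
    (h : ∀ G : MvPolynomial (Fin n) ℂ, aeval x G = 0 ↔ p ∣ G) : rk (Set.range x) + 1 = n := by
  classical
  have hpu : ¬ IsUnit p := by
    intro hu
    have h2 := (h 1).2 (isUnit_iff_dvd_one.1 hu)
    rw [map_one] at h2
    exact one_ne_zero h2
  obtain ⟨i, hi⟩ : ∃ i, i ∈ p.vars := by
    by_contra hcon
    push Not at hcon
    have h1 : p.vars = ∅ := Finset.eq_empty_of_forall_notMem hcon
    have h2 := vars_eq_empty_iff_eq_C.1 h1
    have hc0 : p.coeff 0 ≠ 0 := by
      intro h3
      rw [h3, C_0] at h2
      exact hp h2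
    apply hpu
    rw [h2]
    exact (isUnit_iff_ne_zero.2 hc0).map C
  have hdeg : p.degreeOf i ≠ 0 := mem_vars_iff_degreeOf_ne_zero.1 hi
  -- `x` is not algebraically independent
  have hnot : ¬ AlgebraicIndependent ℂ x := by
    intro hx
    exact hp ((algebraicIndependent_iff.1 hx) p ((h p).2 dvd_rfl))
  have hle : rk (Set.range x) ≤ (n : ℕ∞) := by
    have h1 := rk_range_le x
    rwa [Fintype.card_fin] at h1
  have hne : rk (Set.range x) ≠ (n : ℕ∞) := by
    intro h1
    apply hnot
    rw [← rk_eq_iff, Fintype.card_fin]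
    exact h1
  -- the other coordinates are algebraically independent
  have hind : AlgebraicIndependent ℂ (fun j : {j : Fin n // j ≠ i} => x j) := by
    rw [algebraicIndependent_iff]
    intro g hg
    have h1 : aeval x (rename Subtype.val g) = 0 := by
      rw [aeval_rename]
      exact hg
    obtain ⟨k, hk⟩ := (h _).1 h1
    by_contra hg0
    have h2 : rename (Subtype.val : {j : Fin n // j ≠ i} → Fin n) g ≠ 0 := by
      intro h3
      exact hg0 ((map_eq_zero_iff _ (rename_injective _ Subtype.val_injective)).1 h3)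
    have hk0 : k ≠ 0 := by
      rintro rfl
      rw [mul_zero] at hk
      exact h2 hk
    have h3 : degreeOf i (rename (Subtype.val : {j : Fin n // j ≠ i} → Fin n) g) = 0 := by
      by_contra h4
      have h5 := mem_vars_iff_degreeOf_ne_zero.2 h4
      obtain ⟨j, -, hj⟩ := mem_vars_rename _ _ h5
      exact j.2 hj
    rw [hk, degreeOf_mul_eq hp hk0] at h3
    omega
  have hcard : Fintype.card {j : Fin n // j ≠ i} = n - 1 := by
    rw [Fintype.card_subtype_compl, Fintype.card_fin, Fintype.card_subtype_eq]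
  have hge : ((n - 1 : ℕ) : ℕ∞) ≤ rk (Set.range x) := by
    rw [← hcard, ← (rk_eq_iff _).2 hind]
    refine rk_mono ?_
    rintro _ ⟨j, rfl⟩
    exact subset_cl _ ⟨j, rfl⟩
  have hn : 0 < n := Nat.pos_of_ne_zero (by
    rintro rfl
    exact i.elim0)
  have hfin : rk (Set.range x) ≠ ⊤ := ne_top_of_le_ne_top (ENat.natCast_ne_top n) hle
  obtain ⟨m, hm⟩ := ENat.ne_top_iff_exists.1 hfin
  rw [← hm] at hle hne hge ⊢
  have h1 : m ≤ n := by exact_mod_cast hle
  have h2 : m ≠ n := by exact_mod_cast hne
  have h3 : n - 1 ≤ m := by exact_mod_cast hge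
  have h4 : m + 1 = n := by omega
  exact_mod_cast h4

end XA
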