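import Pool.Agent.Lib.MP_228259_lc.V.Z0
import Pool.Agent.Lib.MP_228259_lc.A.VD
import Pool.Agent.Lib.MP_228259_lc.A.ND2
import Pool.Agent.Lib.MP_228259_lc.A.RKP
import Pool.Agent.Lib.MP_228259_lc.A.DR5
import Pool.Agent.Lib.MP_228259_lc.A.FRB
import Pool.Agent.Lib.MP_228259_lc.A.DF
import Pool.Agent.Lib.MP_228259_lc.F2b

/-!
NDF: exponential closedness for free rotund varieties (of any dimension) whose projection to `ℂ ^ n`
is a hypersurface `p = 0` with a nondegenerate top form.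
-/

set_option autoImplicit false

namespace XA

open MvPolynomial

/-- the top form of an associated polynomial -/
private theorem ndf_top {n : ℕ} {p p' : MvPolynomial (Fin n) ℂ} {c : ℂ} (hc : c ≠ 0)
    (h : p' = C c * p) :
    homogeneousComponent p'.totalDegree p' = C c * homogeneousComponent p.totalDegree p := by
  have h1 : p'.totalDegree = p.totalDegree := by
    rw [h, ← smul_eq_C_mul]
    have h2 : (c • p).totalDegree ≤ p.totalDegree := totalDegree_smul_le c p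
    refine le_antisymm h2 ?_
    have h3 : p = c⁻¹ • (c • p) := by rw [smul_smul, inv_mul_cancel₀ hc, one_smul]
    conv_lhs => rw [h3]
    exact totalDegree_smul_le _ _
  rw [h1, h, homogeneousComponent_C_mul]

/-- the theorem in the field form -/
theorem hypersurface_field {F : Type} [Field F] [Algebra ℂ F] {n : ℕ} {x y : Fin n → F}
    (h : FR0 x y) {p : MvPolynomial (Fin n) ℂ} (hp0 : p ≠ 0)
    (hp : ∀ G : MvPolynomial (Fin n) ℂ, aeval x G = 0 ↔ p ∣ G) (q : Fin n → ℚ)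
    (hq : XW.dirD (XW.qc q) (homogeneousComponent p.totalDegree p) ≠ 0)
    (hA : ∀ b : Fin n → ℤ, mo b y ∈ cl (Set.range x) → ∑ j, (b j : ℚ) * q j = 0) :
    HasExp x y := by
  have hrk : rk (Set.range x) + 1 = n := rk_of_principal hp0 hp
  obtain ⟨K, _, _, x', y', h', hr, hs, hrx, hmo⟩ := dim_reduction_spec h
  apply hasExp_of_spec hs
  have hsx : IsSpec x x' := hs.comp Sum.inl
  have hrk' : rk (Set.range x') = rk (Set.range x) := le_antisymm (rk_le_of_spec hsx) hrx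
  have hFD : FD x' y' := ⟨h'.nz, h'.af, h'.mf, by rw [hrk']; exact hrk, hr⟩
  obtain ⟨P, hP, hV⟩ := vdata hFD
  -- `P` is associated to `p`
  have hPp : P ∣ p := (hP p).1 (hsx p ((hp p).2 dvd_rfl))
  have hpu : ¬ IsUnit p := by
    intro hu
    have h1 := (hp 1).2 (hu.dvd)
    rw [map_one] at h1
    exact one_ne_zero h1
  have hpp : Prime p := by
    refine ⟨hp0, hpu, fun a b hab => ?_⟩
    have h1 := (hp _).2 hab
    rw [map_mul] at h1
    rcases mul_eq_zero.1 h1 with h2 | h2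
    · exact Or.inl ((hp a).1 h2)
    · exact Or.inr ((hp b).1 h2)
  obtain ⟨u, hu⟩ := hPp
  have hunit : IsUnit u := (hpp.irreducible.isUnit_or_isUnit hu).resolve_left hV.irr.not_isUnit
  obtain ⟨c, hc, rfl⟩ := isUnit_iff_eq_C_of_isReduced.1 hunit
  have hc0 : c ≠ 0 := hc.ne_zero
  have hPc : P = C c⁻¹ * p := by
    rw [hu, mul_comm P, ← mul_assoc, ← C_mul, inv_mul_cancel₀ hc0, C_1, one_mul]
  have htop := ndf_top (inv_ne_zero hc0) hPc
  have hq' : XW.dirD (XW.qc q) (homogeneousComponent P.totalDegree P) ≠ 0 := by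
    rw [htop]
    unfold XW.dirD
    have h1 : ∑ j, C (XW.qc q j) * pderiv j (C c⁻¹ * homogeneousComponent p.totalDegree p) =
        C c⁻¹ * ∑ j, C (XW.qc q j) * pderiv j (homogeneousComponent p.totalDegree p) := by
      rw [Finset.mul_sum]
      refine Finset.sum_congr rfl fun j _ => ?_
      rw [pderiv_C_mul, ← smul_eq_C_mul]
      rw [smul_eq_C_mul]
      ring
    rw [h1]
    refine mul_ne_zero ?_ hq
    rw [Ne, C_eq_zero]
    exact inv_ne_zero hc0
  obtain ⟨H, hirr, hH, a, ha, haq⟩ := nondeg_dir hq'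
  have hna : ¬ XV.Alg (Loc x' y') P a := by
    rw [alg_iff hFD.nz hP]
    intro h1
    apply haq
    apply hA
    by_contra h2
    have h3 := hmo hrk.le a
    rw [rk_insert_not h2, rk_insert_mem h1, hrk, hrk'] at h3
    have h4 : rk (Set.range x) + 1 ≤ rk (Set.range x) := by rw [hrk]; exact h3
    have h5 : rk (Set.range x) ≠ ⊤ := by
      intro h6
      rw [h6, top_add] at hrk
      exact ENat.top_ne_natCast n hrk
    exact absurd h4 (not_le.2 ((ENat.lt_add_one_iff h5).2 le_rfl))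
  obtain ⟨z, hz⟩ := XV.nondeg_main hV H hirr hH a ha hna
  exact ⟨z, hz⟩

/-- the dominant case, any dimension -/
theorem dominant_field {F : Type} [Field F] [Algebra ℂ F] {n : ℕ} {x y : Fin n → F}
    (h : FR0 x y) (hx : AlgebraicIndependent ℂ x) : HasExp x y := by
  have h1 : rk (Set.range x) = n := by
    have h2 := (rk_eq_iff x).2 hx
    rwa [Fintype.card_fin] at h2
  obtain ⟨K, _, _, x', y', h', hr, hs, hrx, -⟩ := dim_reduction_spec h
  apply hasExp_of_spec hs
  have h2 : rk (Set.range x') = n := by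
    refine le_antisymm ?_ (h1 ▸ hrx)
    have h3 := rk_range_le x'
    rwa [Fintype.card_fin] at h3
  refine hasExp_dominant h'.nz ?_ hr
  rw [← rk_eq_iff, Fintype.card_fin, h2]

/-- exponential closedness when the closure of the projection of `V` to `ℂ ^ n` is everything or a
hypersurface with nondegenerate top form -/
theorem principal_ec (n : ℕ) (P : Ideal (MvPolynomial (Fin n ⊕ Fin n) ℂ))
    (V : Set (Fin n ⊕ Fin n → ℂ)) (hP : P.IsPrime)
    (hV : V = {v | (∀ f ∈ P, eval v f = 0) ∧ ∀ j : Fin n, v (Sum.inr j) ≠ 0})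
    (hadd : ∀ m : Fin n → ℤ, m ≠ 0 → ∀ c : ℂ,
          ∃ v ∈ V, (∑ j : Fin n, (m j : ℂ) * v (Sum.inl j)) ≠ c)
    (hmul : ∀ m : Fin n → ℤ, m ≠ 0 → ∀ c : ℂ,
          ∃ v ∈ V, (∏ j : Fin n, v (Sum.inr j) ^ (m j)) ≠ c)
    (hrot : ∀ k : ℕ, 1 ≤ k → k ≤ n → ∀ M : Matrix (Fin k) (Fin n) ℤ,
          ∃ J : Finset (Fin k ⊕ Fin k),
            (M.map (Int.cast : ℤ → ℚ)).rank ≤ J.card ∧
            ∀ f : MvPolynomial (Fin k ⊕ Fin k) ℂ, f.vars ⊆ J →
              (∀ v ∈ V, MvPolynomial.eval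
                  (Sum.elim (fun i : Fin k => ∑ j : Fin n, (M i j : ℂ) * v (Sum.inl j))
                            (fun i : Fin k => ∏ j : Fin n, v (Sum.inr j) ^ (M i j))) f = 0) →
              f = 0)
    (p : MvPolynomial (Fin n) ℂ)
    (hp : ∀ G : MvPolynomial (Fin n) ℂ, (∀ v ∈ V, eval (fun j => v (Sum.inl j)) G = 0) ↔ p ∣ G)
    (hq : p ≠ 0 → ∃ q : Fin n → ℚ,
      ∑ j, C (q j : ℂ) * pderiv j (homogeneousComponent p.totalDegree p) ≠ 0 ∧
      ∀ b : Fin n → ℤ, (∃ G : Polynomial (MvPolynomial (Fin n) ℂ), (∃ i, ¬ p ∣ G.coeff i) ∧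
        ∀ v ∈ V, (G.map (eval fun j => v (Sum.inl j))).eval (∏ j, v (Sum.inr j) ^ b j) = 0) →
          ∑ j, (b j : ℚ) * q j = 0) :
    ∃ z : Fin n → ℂ, ∀ f ∈ P,
        MvPolynomial.eval (Sum.elim z (fun i : Fin n => Complex.exp (z i))) f = 0 := by
  rcases Nat.eq_zero_or_pos n with rfl | hn
  · refine ⟨fun j => j.elim0, fun f hf => ?_⟩
    by_contra h0
    obtain ⟨a, rfl⟩ := MvPolynomial.C_surjective (Fin 0 ⊕ Fin 0) f
    rw [eval_C] at h0
    have : (1 : MvPolynomial (Fin 0 ⊕ Fin 0) ℂ) ∈ P := by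
      have h1 := P.mul_mem_left (C a⁻¹) hf
      rwa [← C_mul, inv_mul_cancel₀ h0, C_1] at h1
    exact hP.ne_top ((Ideal.eq_top_iff_one P).mpr this)
  obtain ⟨F, _, _, x, y, hFR, hker⟩ := frozen_fr0 n hn P V hP hV hadd hmul hrot
  have hne : V.Nonempty := by
    obtain ⟨v, hv, -⟩ := hadd (Pi.single ⟨0, hn⟩ 1) (by
      intro h0
      have := congrFun h0 ⟨0, hn⟩
      simp at this) 0
    exact ⟨v, hv⟩
  have hvan : ∀ f : MvPolynomial (Fin n ⊕ Fin n) ℂ, (∀ v ∈ V, eval v f = 0) → f ∈ P := by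
    refine XW.vanish_mem P hP (Set.range Sum.inr) V ?_ hne
    rw [hV]
    ext v
    simp
  have hvan' : ∀ f ∈ P, ∀ v ∈ V, eval v f = 0 := by
    intro f hf v hv
    rw [hV] at hv
    exact hv.1 f hf
  have key : ∀ f : MvPolynomial (Fin n ⊕ Fin n) ℂ,
      aeval (Sum.elim x y) f = 0 ↔ ∀ v ∈ V, eval v f = 0 :=
    fun f => (hker f).trans ⟨fun h => hvan' f h, fun h => hvan f h⟩
  have hpx : ∀ G : MvPolynomial (Fin n) ℂ, aeval x G = 0 ↔ p ∣ G := by
    intro G
    rw [← hp G]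
    have h1 := key (rename Sum.inl G)
    rw [aeval_rename, Sum.elim_comp_inl] at h1
    rw [h1]
    refine forall₂_congr fun v _ => ?_
    rw [eval_rename]
    rfl
  by_cases hp0 : p = 0
  · have hx : AlgebraicIndependent ℂ x := by
      rw [algebraicIndependent_iff]
      intro G hG
      have h1 := (hpx G).1 hG
      rw [hp0, zero_dvd_iff] at h1
      exact h1
    obtain ⟨z, hz⟩ := dominant_field hFR hx
    exact ⟨z, fun f hf => hz.1 f ((hker f).2 hf)⟩
  obtain ⟨q, hq, hA⟩ := hq hp0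
  have hlocV : ∀ z : (Fin n → ℂ) × (Fin n → ℂ), z ∈ Loc x y ↔ Sum.elim z.1 z.2 ∈ V := by
    intro z
    rw [hV]
    constructor
    · intro hz
      exact ⟨fun f hf => hz.1 f ((hker f).2 hf), fun j => hz.2 j⟩
    · intro hz
      exact ⟨fun f hf => hz.1 f ((hker f).1 hf), fun j => hz.2 j⟩
  have hA' : ∀ b : Fin n → ℤ, mo b y ∈ cl (Set.range x) → ∑ j, (b j : ℚ) * q j = 0 := by
    intro b hb
    obtain ⟨G, hG1, hG2⟩ := (alg_iff hFR.nz hpx b).2 hb
    refine hA b ⟨G, hG1, fun v hv => ?_⟩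
    have h1 : Sum.elim (fun j => v (Sum.inl j)) (fun j => v (Sum.inr j)) = v := by
      funext j
      rcases j with j | j <;> rfl
    have h2 := hG2 (fun j => v (Sum.inl j), fun j => v (Sum.inr j)) ((hlocV _).2 (by
      rw [h1]
      exact hv))
    rw [Polynomial.eval_map]
    exact h2
  obtain ⟨z, hz⟩ := hypersurface_field hFR hp0 hpx q hq hA'
  refine ⟨z, fun f hf => ?_⟩
  exact hz.1 f ((hker f).2 hf)

end XA
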