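import Mathlib

/-!
PG0: presentation of a finite family of algebraic elements over a domain `R ⊆ F` of
characteristic zero.

PROOF. `k = FractionRing R`, with the algebra structure `FractionRing.liftAlgebra R F` on `F`; every
`u i` is integral over `k`; `E = IntermediateField.adjoin k (range u)` is finite over `k`, and
separable (characteristic zero), so `E = k(α)` (`Field.exists_primitive_element`). Let
`m = minpoly k α`, monic, irreducible, separable, of degree `d > 0`. Choose `δ₀ ≠ 0` in `R` with
`δ₀ • m` in the image of `R[X]` (`IsLocalization.integerNormalization_spec`), and `θ = δ₀ α`. Then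
`χ₀ = Polynomial.scaleRoots m δ₀` has coefficients `m_i δ₀ ^ (d - i)`, which are in `R` for `i < d`
(`δ₀ m_i ∈ R`) and `= 1` for `i = d`: so `χ₀` is the image of a monic `χ ∈ R[X]`
(`Polynomial.lifts_and_natDegree_eq_and_monic` or build it by hand), and `χ₀` is `minpoly k θ` (monic,
`χ₀(θ) = 0`, degree `d = [k(α) : k] = [k(θ) : k]`). `χ ∣ G`: `χ₀ ∣ G.map`, and
`Polynomial.map_dvd_map` (χ monic, `algebraMap R k` injective). Bezout: `χ₀` is separable, so
`a χ₀ + b χ₀' = 1` over `k`; multiply with a common denominator. `u i ∈ k(α) = k(θ)` is a polynomial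
in `θ` over `k`; multiply with a common denominator (see the proof of `c4a_abs` in
Pool/Agent/Lib/MP_228259_lc/C4a.lean). Take for `δ` the product of all the denominators and multiply
`A i`, `U`, `W` accordingly.
-/

namespace XA

private theorem pg0_denom {R k : Type*} [CommRing R] [IsDomain R] [Field k] [Algebra R k]
    [IsFractionRing R k] (p : Polynomial k) :
    ∃ (d : R) (P : Polynomial R), d ≠ 0 ∧
      P.map (algebraMap R k) = Polynomial.C (algebraMap R k d) * p := by
  obtain ⟨b, hbM, hb⟩ := IsLocalization.integerNormalization_spec (nonZeroDivisors R) p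
  refine ⟨b, IsLocalization.integerNormalization (nonZeroDivisors R) p,
    nonZeroDivisors.ne_zero hbM, ?_⟩
  rw [hb]
  ext i
  rw [Polynomial.coeff_smul, Polynomial.coeff_C_mul, Algebra.smul_def]

theorem pres0 {R F : Type*} [CommRing R] [IsDomain R] [CharZero R] [Field F] [Algebra R F]
    [FaithfulSMul R F] {N : ℕ} (u : Fin N → F) (halg : ∀ i, IsAlgebraic R (u i)) :
    ∃ (θ : F) (δ : R) (χ : Polynomial R) (A : Fin N → Polynomial R) (U W : Polynomial R),
      δ ≠ 0 ∧ χ.Monic ∧ 0 < χ.natDegree ∧ Polynomial.aeval θ χ = 0 ∧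
      (∀ i, Polynomial.aeval θ (A i) = algebraMap R F δ * u i) ∧
      (∀ G : Polynomial R, Polynomial.aeval θ G = 0 → χ ∣ G) ∧
      U * χ + W * Polynomial.derivative χ = Polynomial.C δ := by
  classical
  let k := FractionRing R
  have hchar : CharZero k := charZero_of_injective_algebraMap (IsFractionRing.injective R k)
  let : Algebra k F := FractionRing.liftAlgebra R F
  have htow : IsScalarTower R k F := FractionRing.isScalarTower_liftAlgebra R F
  have hinj : Function.Injective (algebraMap R k) := IsFractionRing.injective R k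
  have hu : ∀ i, IsIntegral k (u i) := fun i =>
    ((halg i).extendScalars hinj).isIntegral
  let E := IntermediateField.adjoin k (Set.range u)
  have hfin : FiniteDimensional k E := IntermediateField.finiteDimensional_adjoin (by
    rintro _ ⟨i, rfl⟩
    exact hu i)
  obtain ⟨α, hα⟩ := Field.exists_primitive_element k E
  -- `u i` is a polynomial in `α`
  have hpol : ∀ i, ∃ q : Polynomial k, Polynomial.aeval (α : F) q = u i := by
    intro i
    have h1 : (⟨u i, IntermediateField.subset_adjoin k _ ⟨i, rfl⟩⟩ : E) ∈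
        (IntermediateField.adjoin k {α}).toSubalgebra := by
      rw [hα]
      exact IntermediateField.mem_top
    rw [IntermediateField.adjoin_simple_toSubalgebra_of_isAlgebraic
      (Algebra.IsAlgebraic.isAlgebraic α), Algebra.adjoin_singleton_eq_range_aeval] at h1
    obtain ⟨p, hp⟩ := h1
    refine ⟨p, ?_⟩
    have hp' : Polynomial.aeval α p = ⟨u i, IntermediateField.subset_adjoin k _ ⟨i, rfl⟩⟩ := hp
    have h2 := congrArg (algebraMap E F) hp'
    rw [← Polynomial.aeval_algebraMap_apply] at h2
    exact h2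
  have hαint : IsIntegral k (α : F) := by
    have h2 : IsIntegral k α := Algebra.IsIntegral.isIntegral α
    exact h2.algebraMap
  set m : Polynomial k := minpoly k (α : F) with hm
  have hmon : m.Monic := minpoly.monic hαint
  obtain ⟨d₀, M₀, hd₀, hM₀⟩ := pg0_denom (R := R) m
  set s : k := algebraMap R k d₀ with hs
  have hs0 : s ≠ 0 := by
    rw [hs, Ne, map_eq_zero_iff _ hinj]
    exact hd₀
  set χ₀ : Polynomial k := m.scaleRoots s with hχ₀
  have hχ₀mon : χ₀.Monic := (Polynomial.monic_scaleRoots_iff s).2 hmon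
  have hχ₀deg : χ₀.natDegree = m.natDegree := Polynomial.natDegree_scaleRoots m s
  have hlift : χ₀ ∈ Polynomial.lifts (algebraMap R k) := by
    rw [Polynomial.lifts_iff_coeff_lifts]
    intro i
    rw [hχ₀, Polynomial.coeff_scaleRoots]
    rcases lt_trichotomy i m.natDegree with hi | hi | hi
    · refine ⟨M₀.coeff i * d₀ ^ (m.natDegree - i - 1), ?_⟩
      have h1 : algebraMap R k (M₀.coeff i) = s * m.coeff i := by
        rw [← Polynomial.coeff_map, hM₀, Polynomial.coeff_C_mul]
      rw [map_mul, map_pow, h1, ← hs]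
      obtain ⟨t, ht⟩ : ∃ t, m.natDegree - i = t + 1 := ⟨m.natDegree - i - 1, by omega⟩
      rw [ht, Nat.add_sub_cancel, pow_succ]
      ring
    · refine ⟨1, ?_⟩
      rw [hi, Nat.sub_self, pow_zero, mul_one, map_one]
      exact hmon.coeff_natDegree.symm
    · refine ⟨0, ?_⟩
      rw [Polynomial.coeff_eq_zero_of_natDegree_lt hi, zero_mul, map_zero]
  obtain ⟨χ, hχmap, hχdeg, hχmon⟩ := Polynomial.lifts_and_natDegree_eq_and_monic hlift hχ₀mon
  set θ : F := algebraMap k F s * (α : F) with hθ
  have hsF : algebraMap k F s ≠ 0 := by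
    rw [Ne, map_eq_zero_iff _ (algebraMap k F).injective]
    exact hs0
  have hroot : Polynomial.aeval θ χ₀ = 0 :=
    Polynomial.scaleRoots_aeval_eq_zero (minpoly.aeval k (α : F))
  have hθint : IsIntegral k θ := ⟨χ₀, hχ₀mon, hroot⟩
  -- `χ₀` is the minimal polynomial of `θ`
  have hmin : χ₀ = minpoly k θ := by
    have h1 : minpoly k θ ∣ χ₀ := minpoly.dvd k θ hroot
    have h2 : m.natDegree ≤ (minpoly k θ).natDegree := by
      have h3 : Polynomial.aeval (algebraMap k F s⁻¹ * θ) ((minpoly k θ).scaleRoots s⁻¹) = 0 :=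
        Polynomial.scaleRoots_aeval_eq_zero (minpoly.aeval k θ)
      have h4 : algebraMap k F s⁻¹ * θ = (α : F) := by
        rw [hθ, map_inv₀, inv_mul_cancel_left₀ hsF]
      rw [h4] at h3
      have h5 := Polynomial.natDegree_le_of_dvd (minpoly.dvd k (α : F) h3)
        (Polynomial.Monic.ne_zero ((Polynomial.monic_scaleRoots_iff _).2 (minpoly.monic hθint)))
      rw [Polynomial.natDegree_scaleRoots] at h5
      exact h5
    obtain ⟨c, hc⟩ := h1
    have hcm : c.Monic := Polynomial.Monic.of_mul_monic_left (minpoly.monic hθint) (hc ▸ hχ₀mon)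
    have h6 : χ₀.natDegree = (minpoly k θ).natDegree + c.natDegree := by
      rw [hc, Polynomial.Monic.natDegree_mul (minpoly.monic hθint) hcm]
    have h7 : c.natDegree = 0 := by omega
    have h8 : c = 1 := hcm.natDegree_eq_zero.1 h7
    rw [hc, h8, mul_one]
  -- the conversion of `aeval`
  have hconv : ∀ G : Polynomial R, Polynomial.aeval θ (G.map (algebraMap R k)) =
      Polynomial.aeval θ G := fun G => Polynomial.aeval_map_algebraMap k θ G
  -- Bezout
  have hsep : χ₀.Separable := by
    rw [hmin]
    exact (minpoly.irreducible hθint).separable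
  obtain ⟨a, b, hab⟩ := hsep
  obtain ⟨da, Pa, hda, hPa⟩ := pg0_denom (R := R) a
  obtain ⟨db, Pb, hdb, hPb⟩ := pg0_denom (R := R) b
  have hbez : (Polynomial.C db * Pa) * χ + (Polynomial.C da * Pb) * Polynomial.derivative χ =
      Polynomial.C (da * db) := by
    apply Polynomial.map_injective (algebraMap R k) hinj
    rw [Polynomial.map_add, Polynomial.map_mul, Polynomial.map_mul, Polynomial.map_mul,
      Polynomial.map_mul, Polynomial.map_C, Polynomial.map_C, Polynomial.map_C, hPa, hPb,
      ← Polynomial.derivative_map, hχmap, map_mul, Polynomial.C_mul]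
    linear_combination (Polynomial.C (algebraMap R k da) * Polynomial.C (algebraMap R k db)) * hab
  -- the polynomials of the `u i`
  have hA : ∀ i, ∃ (d : R) (P : Polynomial R), d ≠ 0 ∧
      Polynomial.aeval θ P = algebraMap R F d * u i := by
    intro i
    obtain ⟨q, hq⟩ := hpol i
    obtain ⟨d, P, hd, hP⟩ := pg0_denom (R := R) (q.comp (Polynomial.C s⁻¹ * Polynomial.X))
    refine ⟨d, P, hd, ?_⟩
    rw [← hconv, hP, map_mul, Polynomial.aeval_C, Polynomial.aeval_comp, map_mul,
      Polynomial.aeval_C, Polynomial.aeval_X, hθ, map_inv₀, inv_mul_cancel_left₀ hsF, hq,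
      ← IsScalarTower.algebraMap_apply R k F]
  choose d P hd hP using hA
  have hprod : ∏ i, d i ≠ 0 := Finset.prod_ne_zero_iff.mpr fun i _ => hd i
  refine ⟨θ, (da * db) * ∏ i, d i, χ,
    fun i => Polynomial.C ((da * db) * ∏ j ∈ Finset.univ.erase i, d j) * P i,
    Polynomial.C (∏ i, d i) * (Polynomial.C db * Pa),
    Polynomial.C (∏ i, d i) * (Polynomial.C da * Pb),
    mul_ne_zero (mul_ne_zero hda hdb) hprod, hχmon, ?_, ?_, fun i => ?_, fun G hG => ?_, ?_⟩
  · rw [hχdeg, hmin]
    exact minpoly.natDegree_pos hθint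
  · rw [← hconv, hχmap]
    exact hroot
  · rw [map_mul, Polynomial.aeval_C, hP i, ← Finset.mul_prod_erase Finset.univ d (Finset.mem_univ i)]
    simp only [map_mul]
    ring
  · rw [← Polynomial.map_dvd_map (algebraMap R k) hinj hχmon, hχmap, hmin]
    exact minpoly.dvd k θ (by rw [hconv]; exact hG)
  · rw [Polynomial.C_mul, ← hbez]
    ring

end XA
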