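import Pool.Agent.Lib.MP_228259_lc.A.AL
import Pool.Agent.Lib.MP_228259_lc.A.PG2

/-!
PR: the presentation `RPres` for `a` with `y ^ a` transcendental over `ℂ(x)`.

PROOF. Use `pres1` with `S = R1 n`, `ρ = ev1F x (mo a y)`, and the family `u = Fin.append y y⁻¹`
(`Fin (n + n) → F`). `halg`: `y j` and its inverse are in `cl (insert (mo a y) (range x))`
(`cl_field`), so algebraic over `adjoin ℂ (insert (mo a y) (range x)) = ρ.range`; lift the
coefficients of the equation. The kernel of `ρ`: as `mo a y` is transcendental over `ℂ(x)`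
(`mo a y ∉ cl (range x)`), `ρ G = 0` implies `aeval x (G.coeff i) = 0` for all `i` (otherwise
`cl_root`), that is `P ∣ G.coeff i`. So for `x₀` with `P(x₀) = 0` the homomorphism `s = XV.h1 x₀ f`
kills `ker ρ`. Let `(θ, δ, χ, A)` be the presentation; put `Δ = δ`, `A_j = A (castAdd j)`,
`A'_j = A (natAdd j)`.
* `ne`: `ρ δ ≠ 0`, so some `aeval x (δ.coeff i) ≠ 0`.
* `simple`: `pg_simple`.
* `inv`: `pg_point` with the relation `X (castAdd j) * X (natAdd j) - 1`.
* `mem`: for `f` with `aeval (Sum.elim x y) f = 0` use `pg_point` with the image of `f` under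
  `inl j ↦ C (Polynomial.C (X j))`, `inr j ↦ X (castAdd j)`; the `z.2 j` are non-zero by `inv`.
* `mono`: `pg_point` with the relation
  `∏ j, X (castAdd j) ^ (a j).toNat - C Polynomial.X * ∏ j, X (castAdd j) ^ (-(a j)).toNat`
  (`XW.c4c_key` in C4c.lean: `mo a w * ∏ w_j ^ (-a_j).toNat = ∏ w_j ^ (a_j).toNat`), and
  divide by the non-zero `∏ w_j ^ (-a_j).toNat`.
-/

namespace XA

open MvPolynomial

variable {F : Type*} [Field F] [Algebra ℂ F] {n : ℕ}

private theorem pr_ev1F (x : Fin n → F) (f : F) (G : XV.R1 n) :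
    ev1F x f G = (G.map (aeval x : MvPolynomial (Fin n) ℂ →ₐ[ℂ] F).toRingHom).eval f := by
  rw [Polynomial.eval_map]
  rfl

private theorem pr_adj_mem {S : Set F} {a : F} (h : a ∈ Algebra.adjoin ℂ S) : a ∈ cl S :=
  isAlgebraic_algebraMap (⟨a, h⟩ : Algebra.adjoin ℂ S)

private theorem pr_aeval_mem (x : Fin n → F) (f : MvPolynomial (Fin n) ℂ) :
    aeval x f ∈ Algebra.adjoin ℂ (Set.range x) := by
  rw [Algebra.adjoin_range_eq_range_aeval]
  exact ⟨f, rfl⟩

private theorem pr_lift {A : Type*} [CommRing A] (φ : A →+* F) (S : Set F)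
    (hφ : ∀ a ∈ Algebra.adjoin ℂ S, a ∈ Set.range φ) {θ : F} (h : θ ∈ cl S) :
    ∃ G : Polynomial A, G.map φ ≠ 0 ∧ G.eval₂ φ θ = 0 := by
  obtain ⟨p, hp, hp0⟩ := h
  have hl : p.map (algebraMap (Algebra.adjoin ℂ S) F) ∈ Polynomial.lifts φ := by
    rw [Polynomial.lifts_iff_coeff_lifts]
    intro k
    rw [Polynomial.coeff_map]
    exact hφ _ (p.coeff k).2
  obtain ⟨G, hG⟩ := Polynomial.mem_lifts _ |>.1 hl
  refine ⟨G, ?_, ?_⟩
  · rw [hG]
    exact (Polynomial.map_ne_zero_iff (FaithfulSMul.algebraMap_injective _ _)).2 hp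
  · rw [← Polynomial.eval_map, hG, Polynomial.eval_map, ← Polynomial.aeval_def]
    exact hp0

private theorem pr_range (x : Fin n → F) (f : F) :
    ∀ a ∈ Algebra.adjoin ℂ (insert f (Set.range x)), a ∈ Set.range (ev1F x f) := by
  intro a ha
  induction ha using Algebra.adjoin_induction with
  | mem a ha =>
    rcases ha with rfl | ⟨j, rfl⟩
    · exact ⟨Polynomial.X, by simp [pr_ev1F]⟩
    · refine ⟨Polynomial.C (X j), ?_⟩
      rw [pr_ev1F, Polynomial.map_C, Polynomial.eval_C]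
      exact aeval_X x j
  | algebraMap c =>
    refine ⟨Polynomial.C (C c), ?_⟩
    rw [pr_ev1F, Polynomial.map_C, Polynomial.eval_C]
    exact aeval_C x c
  | add a b _ _ ha hb =>
    obtain ⟨g, hg⟩ := ha
    obtain ⟨g', hg'⟩ := hb
    exact ⟨g + g', by rw [map_add, hg, hg']⟩
  | mul a b _ _ ha hb =>
    obtain ⟨g, hg⟩ := ha
    obtain ⟨g', hg'⟩ := hb
    exact ⟨g * g', by rw [map_mul, hg, hg']⟩

private theorem pr_ker {x : Fin n → F} {g : F} {P : MvPolynomial (Fin n) ℂ}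
    (hP : ∀ G : MvPolynomial (Fin n) ℂ, aeval x G = 0 ↔ P ∣ G)
    (ha : g ∉ cl (Set.range x)) {G : XV.R1 n} (hG : ev1F x g G = 0) (i : ℕ) :
    P ∣ G.coeff i := by
  by_contra h
  apply ha
  rw [pr_ev1F] at hG
  refine cl_root _ _ ?_ (fun k => ?_) _ hG
  · intro h0
    apply h
    rw [← hP]
    have := congrArg (fun q => Polynomial.coeff q i) h0
    simp only [Polynomial.coeff_map, Polynomial.coeff_zero] at this
    exact this
  · rw [Polynomial.coeff_map]
    exact pr_adj_mem (pr_aeval_mem x _)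

private theorem pr_h1 {P : MvPolynomial (Fin n) ℂ} {G : XV.R1 n} (h : ∀ i, P ∣ G.coeff i)
    (x₀ : Fin n → ℂ) (f : ℂ) (hx : eval x₀ P = 0) : XV.h1 x₀ f G = 0 := by
  unfold XV.h1
  rw [Polynomial.coe_eval₂RingHom, Polynomial.eval₂_eq_sum]
  unfold Polynomial.sum
  refine Finset.sum_eq_zero fun i _ => ?_
  obtain ⟨q, hq⟩ := h i
  change eval x₀ (G.coeff i) * f ^ i = 0
  rw [hq, map_mul, hx, zero_mul, zero_mul]

private theorem pr_comp {B : Type*} [CommRing B] [Algebra ℂ B] (ρ : XV.R1 n →+* B)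
    (hρ : ∀ c : ℂ, ρ (Polynomial.C (C c)) = algebraMap ℂ B c) (x' : Fin n → B)
    (hx' : ∀ j, ρ (Polynomial.C (X j)) = x' j) (u : Fin (n + n) → B)
    (f : MvPolynomial (Fin n ⊕ Fin n) ℂ) :
    eval₂ ρ u (aeval (Sum.elim (fun j => C (Polynomial.C (X j)))
      (fun j => X (Fin.castAdd n j)) : Fin n ⊕ Fin n → MvPolynomial (Fin (n + n)) (XV.R1 n)) f) =
      aeval (Sum.elim x' (fun j => u (Fin.castAdd n j))) f := by
  induction f using MvPolynomial.induction_on with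
  | C c =>
    rw [aeval_C, aeval_C]
    have : algebraMap ℂ (MvPolynomial (Fin (n + n)) (XV.R1 n)) c =
        C (Polynomial.C (C c)) := rfl
    rw [this, eval₂_C, hρ]
  | add p q hp hq => rw [map_add, eval₂_add, hp, hq, map_add]
  | mul_X p i hp =>
    rw [map_mul, eval₂_mul, hp, map_mul, aeval_X, aeval_X]
    congr 1
    rcases i with j | j
    · rw [Sum.elim_inl, Sum.elim_inl, eval₂_C, hx']
    · rw [Sum.elim_inr, Sum.elim_inr, eval₂_X]

private theorem pr_key {K : Type*} [Field K] (a : Fin n → ℤ) (w : Fin n → K)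
    (hw : ∀ j, w j ≠ 0) :
    mo a w * ∏ j, w j ^ (-(a j)).toNat = ∏ j, w j ^ (a j).toNat := by
  unfold mo
  rw [← Finset.prod_mul_distrib]
  refine Finset.prod_congr rfl fun j _ => ?_
  rw [← zpow_natCast (w j) (-(a j)).toNat, ← zpow_natCast (w j) (a j).toNat, ← zpow_add₀ (hw j)]
  congr 1
  omega

private theorem pr_monorel {B : Type*} [CommRing B] (ρ : XV.R1 n →+* B) (u : Fin (n + n) → B)
    (a : Fin n → ℤ) :
    eval₂ ρ u ((∏ j, X (Fin.castAdd n j) ^ (a j).toNat) -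
      C Polynomial.X * ∏ j, X (Fin.castAdd n j) ^ (-(a j)).toNat) =
      (∏ j, u (Fin.castAdd n j) ^ (a j).toNat) -
        ρ Polynomial.X * ∏ j, u (Fin.castAdd n j) ^ (-(a j)).toNat := by
  rw [← coe_eval₂Hom]
  simp only [map_sub, map_mul, map_prod, map_pow, coe_eval₂Hom, eval₂_X, eval₂_C]

private theorem pr_invrel {B : Type*} [CommRing B] (ρ : XV.R1 n →+* B) (u : Fin (n + n) → B)
    (j : Fin n) :
    eval₂ ρ u (X (Fin.castAdd n j) * X (Fin.natAdd n j) - 1) =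
      u (Fin.castAdd n j) * u (Fin.natAdd n j) - 1 := by
  rw [← coe_eval₂Hom]
  simp only [map_sub, map_mul, map_one, coe_eval₂Hom, eval₂_X]

theorem rpres_exists {x y : Fin n → F} (hy : ∀ j, y j ≠ 0) {P : MvPolynomial (Fin n) ℂ}
    (hP : ∀ G : MvPolynomial (Fin n) ℂ, aeval x G = 0 ↔ P ∣ G) (a : Fin n → ℤ)
    (ha : mo a y ∉ cl (Set.range x)) (hall : ∀ j, y j ∈ cl (insert (mo a y) (Set.range x))) :
    ∃ (Δ : XV.R1 n) (χ : XV.R2 n) (A A' : Fin n → XV.R2 n), XV.RPres (Loc x y) P a Δ χ A A' := by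
  classical
  have hch : CharZero F := charZero_of_injective_algebraMap (algebraMap ℂ F).injective
  obtain ⟨K, hK⟩ := cl_field (insert (mo a y) (Set.range x))
  have hu : ∀ i, Fin.append y (fun j => (y j)⁻¹) i ∈ cl (insert (mo a y) (Set.range x)) := by
    intro i
    refine Fin.addCases (fun j => ?_) (fun j => ?_) i
    · rw [Fin.append_left]
      exact hall j
    · rw [Fin.append_right, ← hK]
      exact K.inv_mem (by
        have := hall j
        rw [← hK] at this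
        exact this)
  obtain ⟨θ, δ, χ, A, hPG⟩ := pres1 (ev1F x (mo a y)) (Fin.append y (fun j => (y j)⁻¹))
    (fun i => pr_lift _ _ (pr_range x (mo a y)) (hu i))
  have hs : ∀ (x₀ : Fin n → ℂ) (f : ℂ), eval x₀ P = 0 →
      ∀ r, ev1F x (mo a y) r = 0 → XV.h1 x₀ f r = 0 := by
    intro x₀ f hx r hr
    exact pr_h1 (fun i => pr_ker hP ha hr i) x₀ f hx
  have hinv : ∀ (x₀ : Fin n → ℂ) (f θ₀ : ℂ), eval x₀ P = 0 → XV.h1 x₀ f δ ≠ 0 →
      (XV.e2 x₀ f χ).eval θ₀ = 0 →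
      ∀ j, ((XV.e2 x₀ f (A (Fin.castAdd n j))).eval θ₀ / XV.h1 x₀ f δ) *
        ((XV.e2 x₀ f (A (Fin.natAdd n j))).eval θ₀ / XV.h1 x₀ f δ) = 1 := by
    intro x₀ f θ₀ hx hδ hθ j
    have h := pg_point hPG (XV.h1 x₀ f) (hs x₀ f hx) hδ θ₀ hθ
      (X (Fin.castAdd n j) * X (Fin.natAdd n j) - 1) (by
        rw [pr_invrel, Fin.append_left, Fin.append_right, mul_inv_cancel₀ (hy j), sub_self])
    rw [pr_invrel] at h
    exact sub_eq_zero.1 h
  have hnz : ∀ (x₀ : Fin n → ℂ) (f θ₀ : ℂ), eval x₀ P = 0 → XV.h1 x₀ f δ ≠ 0 →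
      (XV.e2 x₀ f χ).eval θ₀ = 0 →
      ∀ j, ((XV.e2 x₀ f (A (Fin.castAdd n j))).eval θ₀ / XV.h1 x₀ f δ) ≠ 0 := by
    intro x₀ f θ₀ hx hδ hθ j h0
    have h := hinv x₀ f θ₀ hx hδ hθ j
    rw [h0, zero_mul] at h
    exact zero_ne_one h
  refine ⟨δ, χ, fun j => A (Fin.castAdd n j), fun j => A (Fin.natAdd n j), ?_, hPG.monic,
    hPG.pos, ?_, ?_, hinv, ?_⟩
  · by_contra hcon
    push Not at hcon
    apply hPG.ne
    rw [pr_ev1F]
    have h0 : δ.map (aeval x : MvPolynomial (Fin n) ℂ →ₐ[ℂ] F).toRingHom = 0 := by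
      refine Polynomial.ext fun i => ?_
      rw [Polynomial.coeff_map, Polynomial.coeff_zero]
      exact (hP _).2 (hcon i)
    rw [h0, Polynomial.eval_zero]
  · intro x₀ f θ₀ hx hδ hθ
    exact pg_simple hPG (XV.h1 x₀ f) (hs x₀ f hx) hδ θ₀ hθ
  · intro x₀ f θ₀ hx hδ hθ
    refine ⟨fun q hq => ?_, hnz x₀ f θ₀ hx hδ hθ⟩
    have h := pg_point hPG (XV.h1 x₀ f) (hs x₀ f hx) hδ θ₀ hθ
      (aeval (Sum.elim (fun j => C (Polynomial.C (X j)))
        (fun j => X (Fin.castAdd n j)) : Fin n ⊕ Fin n → MvPolynomial (Fin (n + n)) (XV.R1 n)) q)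
      (by
        rw [pr_comp (ev1F x (mo a y)) (fun c => ?_) x (fun j => ?_)]
        · simp only [Fin.append_left]
          exact hq
        · rw [pr_ev1F, Polynomial.map_C, Polynomial.eval_C]
          exact aeval_C x c
        · rw [pr_ev1F, Polynomial.map_C, Polynomial.eval_C]
          exact aeval_X x j)
    rw [pr_comp (XV.h1 x₀ f) (fun c => ?_) x₀ (fun j => ?_)] at h
    · exact h
    · unfold XV.h1
      rw [Polynomial.coe_eval₂RingHom, Polynomial.eval₂_C, eval_C]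
      rfl
    · unfold XV.h1
      rw [Polynomial.coe_eval₂RingHom, Polynomial.eval₂_C, eval_X]
  · intro x₀ f θ₀ hx hδ hθ
    have h := pg_point hPG (XV.h1 x₀ f) (hs x₀ f hx) hδ θ₀ hθ
      ((∏ j, X (Fin.castAdd n j) ^ (a j).toNat) -
        C Polynomial.X * ∏ j, X (Fin.castAdd n j) ^ (-(a j)).toNat) (by
        rw [pr_monorel]
        simp only [Fin.append_left]
        have h1 : ev1F x (mo a y) Polynomial.X = mo a y := by
          rw [pr_ev1F, Polynomial.map_X, Polynomial.eval_X]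
        rw [h1, pr_key a y hy, sub_self])
    rw [pr_monorel] at h
    have h1 : XV.h1 x₀ f Polynomial.X = f := by
      unfold XV.h1
      rw [Polynomial.coe_eval₂RingHom, Polynomial.eval₂_X]
    rw [h1, sub_eq_zero] at h
    have h2 := pr_key a (fun j => (XV.e2 x₀ f (A (Fin.castAdd n j))).eval θ₀ / XV.h1 x₀ f δ)
      (hnz x₀ f θ₀ hx hδ hθ)
    have h3 : (∏ j, ((XV.e2 x₀ f (A (Fin.castAdd n j))).eval θ₀ / XV.h1 x₀ f δ) ^
        (-(a j)).toNat) ≠ 0 :=
      Finset.prod_ne_zero_iff.2 fun j _ => pow_ne_zero _ (hnz x₀ f θ₀ hx hδ hθ j)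
    refine mul_right_cancel₀ h3 ?_
    exact h2.trans h

end XA
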