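import Pool.Agent.Lib.MP_228259_lc.A.CL2

/-!
PT1: points of the locus of `(x, y)` from a principal ideal over a field `L` (finitely many
elements of `L` are involved).

`L` is a field between `ℂ` and `F` containing the `x j`; the `y j = aeval w (Yp j)` are polynomials
over `L` in a family `w` whose ideal of relations over `L` is generated by `f`.

PROOF. The ideal `I = ker (aeval (Sum.elim x y))` of `MvPolynomial (Fin n ⊕ Fin n) ℂ` is generated by
finitely many `h_1, ..., h_N` (Noetherian). Let `Θ : MvPolynomial (Fin n ⊕ Fin n) ℂ →ₐ[ℂ]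
MvPolynomial (Fin m) L`, `inl j ↦ C (xL j)`, `inr j ↦ Yp j`. `aeval w (Θ h) = aeval (Sum.elim x y) h`
(both are algebra homomorphisms, equal on the variables), so for `h = h_i` it is `0` and
`Θ h_i = f * k_i` (`hf`). Let `U ⊆ L` be the finite set of the `xL j`, the coefficients of `f`, of the `Yp j` and of the
`k_i`, and `B = Algebra.adjoin ℂ U`. `f`, `Yp j`, `k_i` come from polynomials `fB`, `YB j`, `kB_i` over
`B` (e.g. `MvPolynomial.mem_range_map_iff_coeffs_subset`, or build them as sums of monomials), and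
`ΘB h_i = fB * kB_i` in `MvPolynomial (Fin m) B` (`ΘB`: `inl j ↦ C (xB j)`, `inr j ↦ YB j`), because
`MvPolynomial.map (algebraMap B L)` is injective. Let `σ : B → ℂ` be a `ℂ`-algebra homomorphism and
`v : Fin m → ℂ` with `eval v (map σ fB) = 0`. The composition of `ΘB` with `map σ` and `eval v` is the
evaluation of `MvPolynomial (Fin n ⊕ Fin n) ℂ` at the point
`Sum.elim (fun j => σ (xB j)) (fun j => eval v (map σ (YB j)))`; it kills all `h_i`, so it kills `I`.
-/

namespace XA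

open MvPolynomial

theorem pt_exists {F L : Type*} [Field F] [Algebra ℂ F] [Field L] [Algebra ℂ L] [Algebra L F]
    [IsScalarTower ℂ L F] {n m : ℕ} {x y : Fin n → F} {xL : Fin n → L}
    (hx : ∀ j, algebraMap L F (xL j) = x j) {w : Fin m → F} {f : MvPolynomial (Fin m) L}
    (hf : ∀ h : MvPolynomial (Fin m) L, aeval w h = 0 → f ∣ h)
    {Yp : Fin n → MvPolynomial (Fin m) L} (hY : ∀ j, aeval w (Yp j) = y j) :
    ∃ (U : Set L) (xB : Fin n → Algebra.adjoin ℂ U) (fB : MvPolynomial (Fin m) (Algebra.adjoin ℂ U))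
      (YB : Fin n → MvPolynomial (Fin m) (Algebra.adjoin ℂ U)), U.Finite ∧
      (∀ j, (xB j : L) = xL j) ∧ map (algebraMap (Algebra.adjoin ℂ U) L) fB = f ∧
      (∀ j, map (algebraMap (Algebra.adjoin ℂ U) L) (YB j) = Yp j) ∧
      ∀ (σ : Algebra.adjoin ℂ U →ₐ[ℂ] ℂ) (v : Fin m → ℂ),
        eval v (map (σ : Algebra.adjoin ℂ U →+* ℂ) fB) = 0 →
        IsPt (Sum.elim x y) (Sum.elim (fun j => σ (xB j))
          (fun j => eval v (map (σ : Algebra.adjoin ℂ U →+* ℂ) (YB j)))) := by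
  classical
  -- the ideal of relations is finitely generated
  obtain ⟨S, hS⟩ := (isNoetherianRing_iff_ideal_fg (MvPolynomial (Fin n ⊕ Fin n) ℂ)).1
    inferInstance (RingHom.ker (aeval (Sum.elim x y) : MvPolynomial (Fin n ⊕ Fin n) ℂ →ₐ[ℂ] F))
  let Θ : MvPolynomial (Fin n ⊕ Fin n) ℂ →ₐ[ℂ] MvPolynomial (Fin m) L :=
    aeval (Sum.elim (fun j => C (xL j)) Yp)
  have hΘ : ∀ h, aeval w (Θ h) = aeval (Sum.elim x y) h := by
    intro h
    have h1 : ((aeval w : MvPolynomial (Fin m) L →ₐ[L] F).restrictScalars ℂ).comp Θ =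
        aeval (Sum.elim x y) := by
      apply MvPolynomial.algHom_ext
      intro i
      rcases i with i | i
      · simp [Θ, hx]
      · simp [Θ, hY]
    exact DFunLike.congr_fun h1 h
  have hdiv : ∀ h ∈ S, f ∣ Θ h := by
    intro h hh
    apply hf
    rw [hΘ]
    have h1 : h ∈ Ideal.span (S : Set (MvPolynomial (Fin n ⊕ Fin n) ℂ)) := Ideal.subset_span hh
    rw [hS] at h1
    exact h1
  choose! k hk using hdiv
  let U : Set L := Set.range xL ∪ (f.coeffs : Set L) ∪ (⋃ j, ((Yp j).coeffs : Set L)) ∪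
    ⋃ h ∈ S, ((k h).coeffs : Set L)
  have hU : U.Finite := by
    refine Set.Finite.union (Set.Finite.union (Set.Finite.union (Set.finite_range _)
      (Finset.finite_toSet _)) (Set.finite_iUnion fun j => Finset.finite_toSet _)) ?_
    exact Set.Finite.biUnion (Finset.finite_toSet S) fun h _ => Finset.finite_toSet _
  have hlift : ∀ p : MvPolynomial (Fin m) L, (p.coeffs : Set L) ⊆ U →
      ∃ pB : MvPolynomial (Fin m) (Algebra.adjoin ℂ U),
        map (algebraMap (Algebra.adjoin ℂ U) L) pB = p := by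
    intro p hp
    have h1 : p ∈ Set.range (map (algebraMap (Algebra.adjoin ℂ U) L)) := by
      rw [mem_range_map_iff_coeffs_subset]
      intro c hc
      exact ⟨⟨c, Algebra.subset_adjoin (hp hc)⟩, rfl⟩
    exact h1
  have hxU : ∀ j, xL j ∈ U := fun j => Or.inl (Or.inl (Or.inl ⟨j, rfl⟩))
  obtain ⟨fB, hfB⟩ := hlift f (fun c hc => Or.inl (Or.inl (Or.inr hc)))
  have hYB' := fun j => hlift (Yp j) (fun c hc => Or.inl (Or.inr (Set.mem_iUnion.2 ⟨j, hc⟩)))
  choose YB hYB using hYB'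
  have hkB' : ∀ h ∈ S, ∃ kB : MvPolynomial (Fin m) (Algebra.adjoin ℂ U),
      map (algebraMap (Algebra.adjoin ℂ U) L) kB = k h := fun h hh =>
    hlift (k h) (fun c hc => Or.inr (Set.mem_biUnion hh hc))
  let xB : Fin n → Algebra.adjoin ℂ U := fun j => ⟨xL j, Algebra.subset_adjoin (hxU j)⟩
  refine ⟨U, xB, fB, YB, hU, fun j => rfl, hfB, hYB, ?_⟩
  intro σ v hv
  let ΘB : MvPolynomial (Fin n ⊕ Fin n) ℂ →ₐ[ℂ] MvPolynomial (Fin m) (Algebra.adjoin ℂ U) :=
    aeval (Sum.elim (fun j => C (xB j)) YB)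
  have hΘB : ∀ h, map (algebraMap (Algebra.adjoin ℂ U) L) (ΘB h) = Θ h := by
    intro h
    have h1 : (mapAlgHom (Algebra.adjoin ℂ U).val).comp ΘB = Θ := by
      apply MvPolynomial.algHom_ext
      intro i
      rcases i with i | i
      · simp [Θ, ΘB, xB]
      · have h2 := hYB i
        simp only [Θ, ΘB, AlgHom.comp_apply, aeval_X, Sum.elim_inr]
        exact h2
    exact DFunLike.congr_fun h1 h
  have hinj : Function.Injective (map (σ := Fin m) (algebraMap (Algebra.adjoin ℂ U) L)) :=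
    map_injective _ Subtype.val_injective
  have hker : ∀ h ∈ S, fB ∣ ΘB h := by
    intro h hh
    obtain ⟨kB, hkB⟩ := hkB' h hh
    refine ⟨kB, hinj ?_⟩
    rw [hΘB, map_mul, hfB, hkB]
    exact hk h hh
  let ev : MvPolynomial (Fin n ⊕ Fin n) ℂ →ₐ[ℂ] ℂ :=
    ((aeval v : MvPolynomial (Fin m) ℂ →ₐ[ℂ] ℂ).comp (mapAlgHom σ)).comp ΘB
  have hev : ev = aeval (Sum.elim (fun j => σ (xB j))
      (fun j => eval v (map (σ : Algebra.adjoin ℂ U →+* ℂ) (YB j)))) := by
    apply MvPolynomial.algHom_ext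
    intro i
    rcases i with i | i
    · simp [ev, ΘB]
    · simp only [ev, ΘB, AlgHom.comp_apply, aeval_X, Sum.elim_inr]
      rw [aeval_eq_eval]
      rfl
  have hevS : ∀ h ∈ S, ev h = 0 := by
    intro h hh
    obtain ⟨r, hr⟩ := hker h hh
    have h1 : aeval v (mapAlgHom σ fB) = (0 : ℂ) := by
      rw [aeval_eq_eval]
      exact hv
    simp only [ev, AlgHom.comp_apply]
    rw [hr, map_mul, map_mul, h1, zero_mul]
  intro g hg
  have h1 : g ∈ Ideal.span (S : Set (MvPolynomial (Fin n ⊕ Fin n) ℂ)) := by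
    rw [hS]
    exact hg
  have h2 : Ideal.span (S : Set (MvPolynomial (Fin n ⊕ Fin n) ℂ)) ≤ RingHom.ker ev :=
    Ideal.span_le.2 fun h hh => hevS h hh
  have h3 : ev g = 0 := h2 h1
  rw [hev] at h3
  rw [← aeval_eq_eval]
  exact h3

end XA
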