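import Pool.Agent.Lib.MP_228259_lc.F2a

/-!
PT2: the ideal of relations of a family of transcendence degree `m - 1` over a field `L` is
principal.

PROOF. `I = RingHom.ker (aeval w)` is a prime ideal of `MvPolynomial (Fin m) L`; `I ≠ ⊥` by `hdep`
(`algebraicIndependent_iff`). No non-zero `f ∈ I` has `f.vars ⊆ J`: such an `f` is `rename Subtype.val g`
(`MvPolynomial.exists_rename_eq_of_vars_subset_range`), `aeval (fun j : J => w j) g = 0`, so `g = 0` by
`hind`. `XW.principal_of_indep` (F2a.lean, for any field `k`) gives `I = (p)` with `p` irreducible.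
-/

namespace XA

open MvPolynomial

theorem principal_over {F L : Type*} [Field F] [Field L] [Algebra L F] {m : ℕ} {w : Fin m → F}
    (J : Finset (Fin m)) (hJ : m ≤ J.card + 1)
    (hind : AlgebraicIndependent L (fun j : J => w j)) (hdep : ¬ AlgebraicIndependent L w) :
    ∃ f : MvPolynomial (Fin m) L, Irreducible f ∧ aeval w f = 0 ∧
      ∀ h : MvPolynomial (Fin m) L, aeval w h = 0 → f ∣ h := by
  have hprime : (RingHom.ker (aeval w : MvPolynomial (Fin m) L →ₐ[L] F)).IsPrime :=
    RingHom.ker_isPrime _
  have hvars : ∀ f ∈ RingHom.ker (aeval w : MvPolynomial (Fin m) L →ₐ[L] F),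
      f.vars ⊆ J → f = 0 := by
    intro f hf hfJ
    obtain ⟨g, rfl⟩ := MvPolynomial.exists_rename_eq_of_vars_subset_range f
      (Subtype.val : J → Fin m) Subtype.val_injective (by
        intro i hi
        exact ⟨⟨i, hfJ hi⟩, rfl⟩)
    have h1 : aeval (fun j : J => w j) g = 0 := by
      have h2 : aeval w (rename (Subtype.val : J → Fin m) g) = 0 := hf
      rw [aeval_rename] at h2
      exact h2
    rw [hind.eq_zero_of_aeval_eq_zero g h1, map_zero]
  rcases XW.principal_of_indep (RingHom.ker (aeval w : MvPolynomial (Fin m) L →ₐ[L] F)) hprime J hJ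
    hvars with h | ⟨p, hp, hI⟩
  · exfalso
    apply hdep
    rw [algebraicIndependent_iff]
    intro q hq
    have h2 : q ∈ RingHom.ker (aeval w : MvPolynomial (Fin m) L →ₐ[L] F) := hq
    rw [h] at h2
    exact h2
  · refine ⟨p, hp, ?_, ?_⟩
    · have h2 : p ∈ RingHom.ker (aeval w : MvPolynomial (Fin m) L →ₐ[L] F) := by
        rw [hI]
        exact Ideal.mem_span_singleton_self p
      exact h2
    · intro q hq
      have h2 : q ∈ RingHom.ker (aeval w : MvPolynomial (Fin m) L →ₐ[L] F) := hq
      rw [hI, Ideal.mem_span_singleton] at h2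
      exact h2

end XA
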