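import Pool.Agent.Lib.MP_228259_lc.A.DR5

/-!
RKD: a specialisation which makes a non-constant element constant lowers the rank.

PROOF. Let `I` be a basis (in the matroid) of `range v`, `rk (range v) = I.encard`, finite because
`rk (range v) ≤ rk (range u) < ⊤` (`rk_le_of_spec`); choose for `a ∈ I` an index `e a` with `v (e a) = a`, as in the
proof of `rk_le_of_spec` (DR5.lean); the family `a ↦ v (e a)` is algebraically independent. CLAIM: the
family `I ⊕ Unit → F` (or `Option I → F`), `a ↦ u (e a)`, `* ↦ aeval u g`, is algebraically independent. Then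
`rk (range v) + 1 = I.encard + 1 ≤ rk (range u ∪ {aeval u g}) = rk (range u)` (`aeval u g ∈ cl (range u)`,
`rk_insert_mem`; `rk_eq_iff`).
PROOF OF THE CLAIM. The kernel of `MvPolynomial (Option I) ℂ → F` is a prime ideal. If it is not `⊥` it contains a
prime element `f` (`Ideal.IsPrime.exists_mem_prime_of_ne_bot`; `I` finite). `f(u_I, g(u)) = 0` is a
polynomial relation of `u`, so `f(v_I, g(v)) = f(v_I, c) = 0`, so the polynomial `f(X_I, c)` (substitute
`X none := C c`) has value `0` at the independent family `v_I`: it is `0`. So `f` is divisible by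
`X none - C c` (write `f` as a polynomial in the variable `none` over `MvPolynomial I ℂ`,
`MvPolynomial.optionEquivLeft`, `Polynomial.dvd_iff_isRoot`), and since `f` is irreducible and `X none - C c` is not
a unit, `f = w * (X none - C c)` with a unit `w`. So `aeval u g - c = 0`: `aeval u g` is constant, and constants are
in `cl ∅` (`cl_const`), against `hg`.
-/

set_option autoImplicit false

namespace XA

open MvPolynomial

private theorem RKD_deg {I : Type*} (c : ℂ) :
    (X none - C c : MvPolynomial (Option I) ℂ).totalDegree = 1 := by
  classical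
  have h1 : (X none - C c : MvPolynomial (Option I) ℂ).totalDegree ≤ 1 := by
    refine (totalDegree_sub _ _).trans ?_
    rw [totalDegree_X, totalDegree_C]
    simp
  refine le_antisymm h1 ?_
  have h2 : (Finsupp.single (none : Option I) 1) ∈
      (X none - C c : MvPolynomial (Option I) ℂ).support := by
    have h0 : (0 : Option I →₀ ℕ) ≠ Finsupp.single (none : Option I) 1 := by
      intro h
      have := DFunLike.congr_fun h none
      simp at this
    rw [mem_support_iff, coeff_sub, coeff_X, coeff_C, if_neg h0, sub_zero]
    simp
  have h3 := le_totalDegree h2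
  simpa using h3

/-- a polynomial which vanishes for `X none = c` is divisible by `X none - c` -/
private theorem RKD_dvd {I : Type*} (c : ℂ) (f : MvPolynomial (Option I) ℂ)
    (h : bind₁ (fun o : Option I => o.elim (C c) X) f = (0 : MvPolynomial I ℂ)) :
    ∃ f1 : MvPolynomial (Option I) ℂ, f = (X none - C c) * f1 := by
  have hhom : ∀ f : MvPolynomial (Option I) ℂ,
      bind₁ (fun o : Option I => o.elim (C c) X) f =
        ((optionEquivLeft ℂ I) f).eval (C c : MvPolynomial I ℂ) := by
    intro f
    induction f using MvPolynomial.induction_on with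
    | C a => simp [optionEquivLeft_C]
    | add p q hp hq => rw [map_add, map_add, Polynomial.eval_add, hp, hq]
    | mul_X p o hp =>
      rw [map_mul, map_mul, Polynomial.eval_mul, hp, bind₁_X_right]
      cases o with
      | none => simp [optionEquivLeft_X_none]
      | some a => simp [optionEquivLeft_X_some]
  rw [hhom] at h
  obtain ⟨g, hg⟩ := Polynomial.dvd_iff_isRoot.2 h
  refine ⟨(optionEquivLeft ℂ I).symm g, ?_⟩
  apply (optionEquivLeft ℂ I).injective
  rw [hg, map_mul, AlgEquiv.apply_symm_apply, map_sub, optionEquivLeft_X_none, optionEquivLeft_C]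

theorem rk_drop {F F' : Type*} [Field F] [Algebra ℂ F] [Field F'] [Algebra ℂ F'] {ι : Type*}
    [Finite ι] {u : ι → F} {v : ι → F'} (h : IsSpec u v) (g : MvPolynomial ι ℂ)
    (hg : aeval u g ∉ cl (∅ : Set F)) {c : ℂ} (hc : aeval v g = algebraMap ℂ F' c) :
    rk (Set.range v) + 1 ≤ rk (Set.range u) := by
  classical
  obtain ⟨I, hI⟩ := (AlgebraicIndependent.matroid ℂ F').exists_isBasis (Set.range v)
    (by rw [AlgebraicIndependent.matroid_e]; exact Set.subset_univ _)
  have h1 : ∀ a : I, ∃ i, v i = a := fun a => hI.subset a.2
  choose e he using h1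
  have hinj : Function.Injective e := by
    intro a b hab
    apply Subtype.ext
    rw [← he a, ← he b, hab]
  have hfin : Finite I := Finite.of_injective e hinj
  have hft : Fintype I := Fintype.ofFinite I
  have hv : AlgebraicIndependent ℂ (fun a : I => v (e a)) := by
    have h2 : (fun a : I => v (e a)) = (fun a : I => (a : F')) := funext he
    rw [h2]
    exact AlgebraicIndependent.matroid_indep_iff.1 hI.indep
  -- the family with the additional element
  set w : Option I → F := fun o => o.elim (aeval u g) (fun a => u (e a)) with hw
  have hne : w none - algebraMap ℂ F c ≠ 0 := by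
    intro h0
    apply hg
    have : aeval u g = algebraMap ℂ F c := sub_eq_zero.1 h0
    rw [this]
    exact cl_const c ∅
  have hkey : ∀ f : MvPolynomial (Option I) ℂ, aeval w f = 0 →
      ∃ f1 : MvPolynomial (Option I) ℂ, f = (X none - C c) * f1 := by
    intro f hf
    refine RKD_dvd c f ?_
    have h2 : aeval u (bind₁ (fun o : Option I => o.elim g (fun a => X (e a))) f) = 0 := by
      rw [aeval_bind₁, ← hf]
      congr 1
      congr 1
      funext o
      cases o with
      | none => rfl
      | some a => simp [hw]
    have h3 := h _ h2
    rw [aeval_bind₁] at h3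
    apply hv.eq_zero_of_aeval_eq_zero
    rw [aeval_bind₁, ← h3]
    congr 1
    congr 1
    funext o
    cases o with
    | none => simp [hc]
    | some a => simp
  have hdesc : ∀ N : ℕ, ∀ f : MvPolynomial (Option I) ℂ, f.totalDegree ≤ N → aeval w f = 0 →
      f = 0 := by
    intro N
    induction N with
    | zero =>
      intro f hN hf
      by_contra hf0
      obtain ⟨f1, hf1⟩ := hkey f hf
      have hf10 : f1 ≠ 0 := by
        rintro rfl
        exact hf0 (by rw [hf1, mul_zero])
      have hl : (X none - C c : MvPolynomial (Option I) ℂ) ≠ 0 := by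
        intro h0
        exact hf0 (by rw [hf1, h0, zero_mul])
      have hd : (X none - C c : MvPolynomial (Option I) ℂ).totalDegree = 1 := RKD_deg c
      have := totalDegree_mul_of_isDomain hl hf10
      rw [← hf1, hd] at this
      omega
    | succ N ih =>
      intro f hN hf
      by_contra hf0
      obtain ⟨f1, hf1⟩ := hkey f hf
      have hf10 : f1 ≠ 0 := by
        rintro rfl
        exact hf0 (by rw [hf1, mul_zero])
      have hl : (X none - C c : MvPolynomial (Option I) ℂ) ≠ 0 := by
        intro h0
        exact hf0 (by rw [hf1, h0, zero_mul])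
      have hd : (X none - C c : MvPolynomial (Option I) ℂ).totalDegree = 1 := RKD_deg c
      have h4 := totalDegree_mul_of_isDomain hl hf10
      rw [← hf1, hd] at h4
      apply hf10
      refine ih f1 (by omega) ?_
      have h5 : aeval w f = (w none - algebraMap ℂ F c) * aeval w f1 := by
        rw [hf1, map_mul, map_sub, aeval_X, aeval_C]
      rw [hf] at h5
      exact (mul_eq_zero.1 h5.symm).resolve_left hne
  have hind : AlgebraicIndependent ℂ w := by
    rw [algebraicIndependent_iff]
    intro f hf
    exact hdesc _ f le_rfl hf
  have h6 : rk (Set.range w) = Fintype.card (Option I) := (rk_eq_iff w).2 hind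
  have h7 : rk (Set.range v) = Fintype.card I := by
    have h8 : rk (Set.range v) = I.encard := hI.encard_eq_eRk.symm
    rw [h8, Set.encard_eq_coe_toFinset_card, Set.toFinset_card]
  have h9 : rk (Set.range w) ≤ rk (Set.range u) := by
    refine rk_mono ?_
    rintro _ ⟨o, rfl⟩
    cases o with
    | none =>
      have h10 : aeval u g ∈ Algebra.adjoin ℂ (Set.range u) := by
        rw [Algebra.adjoin_range_eq_range_aeval]
        exact ⟨g, rfl⟩
      exact isAlgebraic_algebraMap (⟨aeval u g, h10⟩ : Algebra.adjoin ℂ (Set.range u))
    | some a => exact subset_cl _ ⟨e a, rfl⟩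
  rw [h7]
  rw [h6, Fintype.card_option] at h9
  push_cast at h9
  exact h9

end XA
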