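import Pool.Agent.Lib.MP_228259_lc.A.EXT
import Pool.Agent.Lib.MP_228259_lc.A.HS
import Pool.Agent.Lib.MP_228259_lc.A.DRI

/-!
SPB: specialisation at a point `(b, c)` of the curve `(s, y)`, keeping `t` transcendental.

PROOF. Let `u : Fin N → L` enumerate the finite set `U` (`range u = U`). Let
`u₀ = Sum.elim ![s, y] (fun _ : Unit => t)` and `v₀ = Sum.elim ![b, c] (fun _ : Unit => e)` (with `b, c` in
`K` by `algebraMap`). If `IsPt ![s, y] ![b, c]`, then `IsSpec ![s, y] ![algebraMap ℂ K b, algebraMap ℂ K c]`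
(the value of a polynomial at points in the image of `ℂ` is the image of the value), and
`spec_trans` gives `IsSpec u₀ v₀` (`cl (range ![s, y]) = cl {s}` as `y ∈ cl {s}`). `ext_spec` for `u₀, u` gives `h`
with `aeval u₀ h ≠ 0` and, if `aeval v₀ h ≠ 0`, a family `v : Fin N → K` with
`IsSpec (Sum.elim u₀ u) (Sum.elim v₀ v)`, and `spec_hom` (after renaming, `IsSpec` of subfamilies) gives
`ψ : adjoin ℂ (range u) → K` with `ψ (u i) = v i`; since the elements `sB, yB, tB` of `adjoin ℂ U` are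
polynomials in the `u i`, `IsSpec` gives `ψ sB = b`, `ψ yB = c`, `ψ tB = e` (the polynomial
`X (inl ..) - p(X (inr ..))` is a relation).
`spec_ne` (DRN.lean) with `r = 1`, `b = ![t]`, `g = s`, `β = ![e]` (independent, because `e` is not
constant: `cl_empty`), family `Fin.snoc u y : Fin (N + 1) → L`, applied to (the renaming of) `h` (for this
one a family of one element `![y]` suffices, as `aeval v₀ h ≠ 0` is needed before `v` exists) and to
polynomials expressing the elements of `Z`, gives finite sets; `spec_indep` (DRI.lean) with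
`k = 1` and a polynomial expressing `w ∈ W` (`Fin.snoc ![w] s` is independent: `s` is not constant,
`w ∉ cl {s}`) gives finite sets outside of which `ψ w` is transcendental, in particular not constant.
`E` = the union of all these finite sets.
-/

set_option autoImplicit false

namespace XA

open MvPolynomial

private theorem spb_rk {F : Type*} [Field F] [Algebra ℂ F] {t : F}
    (ht : ∀ k : ℂ, t ≠ algebraMap ℂ F k) : rk ({t} : Set F) = 1 := by
  have h1 : t ∉ cl (∅ : Set F) := by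
    intro h
    obtain ⟨c, hc⟩ := cl_empty h
    exact ht c hc
  have h2 := rk_insert_not h1
  have h3 : rk (∅ : Set F) = 0 := Matroid.eRk_empty _
  rw [h3, zero_add] at h2
  have h4 : (insert t ∅ : Set F) = {t} := by simp
  rw [h4] at h2
  exact h2

private theorem spb_range {F : Type*} (a b : F) :
    Set.range (Fin.snoc ![a] b : Fin (1 + 1) → F) = {b, a} := by
  ext z
  simp only [Set.mem_range, Set.mem_insert_iff, Set.mem_singleton_iff]
  constructor
  · rintro ⟨i, rfl⟩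
    refine Fin.lastCases ?_ (fun i => ?_) i
    · left
      simp
    · right
      rw [Fin.snoc_castSucc]
      fin_cases i
      rfl
  · rintro (rfl | rfl)
    · exact ⟨Fin.last 1, by simp⟩
    · exact ⟨Fin.castSucc 0, by rw [Fin.snoc_castSucc]; rfl⟩

private theorem spb_ind2 {F : Type*} [Field F] [Algebra ℂ F] {a b : F}
    (hb : ∀ k : ℂ, b ≠ algebraMap ℂ F k) (ha : a ∉ cl {b}) :
    AlgebraicIndependent ℂ (Fin.snoc ![a] b : Fin (1 + 1) → F) := by
  rw [← rk_eq_iff, spb_range, Set.pair_comm, rk_insert_not ha, spb_rk hb]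
  norm_num [Fintype.card_fin]

private theorem spb_ind1 {F : Type*} [Field F] [Algebra ℂ F] {a : F}
    (ha : ∀ k : ℂ, a ≠ algebraMap ℂ F k) : AlgebraicIndependent ℂ (![a] : Fin 1 → F) := by
  rw [← rk_eq_iff]
  have h1 : Set.range (![a] : Fin 1 → F) = {a} := by simp
  rw [h1, spb_rk ha]
  simp

private theorem spb_comp {F K : Type*} [Field F] [Algebra ℂ F] [Field K] [Algebra ℂ K]
    {ι κ : Type*} {v : ι → F} {v' : ι → K} (h : IsSpec v v') (g : κ → ι) :
    IsSpec (v ∘ g) (v' ∘ g) := by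
  intro f hf
  rw [← aeval_rename] at hf ⊢
  exact h _ hf

/-- a member of the first part which is a polynomial in the second part -/
private theorem spb_rel {F K : Type*} [Field F] [Algebra ℂ F] [Field K] [Algebra ℂ K]
    {ι κ : Type*} {a : ι → F} {a' : ι → K} {u : κ → F} {v : κ → K}
    (h : IsSpec (Sum.elim a u) (Sum.elim a' v)) (i : ι) (p : MvPolynomial κ ℂ)
    (hp : aeval u p = a i) : aeval v p = a' i := by
  have h1 := h (rename Sum.inr p - X (Sum.inl i)) (by
    rw [map_sub, aeval_rename, aeval_X, Sum.elim_comp_inr, hp, Sum.elim_inl, sub_self])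
  rw [map_sub, aeval_rename, aeval_X, Sum.elim_comp_inr, Sum.elim_inl] at h1
  exact sub_eq_zero.1 h1

private theorem spb_pt {F K : Type*} [Field F] [Algebra ℂ F] [Field K] [Algebra ℂ K]
    {ι : Type*} {v : ι → F} {p : ι → ℂ} (h : IsPt v p) :
    IsSpec v (fun i => algebraMap ℂ K (p i)) := by
  intro f hf
  have h1 := h f hf
  have h2 : aeval (fun i => algebraMap ℂ K (p i)) f = algebraMap ℂ K (eval p f) := by
    have h3 := MvPolynomial.aeval_algebraMap_apply (A := ℂ) (B := K) (R := ℂ) p f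
    rw [MvPolynomial.aeval_eq_eval] at h3
    exact h3
  rw [h2, h1, map_zero]

private theorem spb_poly {F : Type*} [Field F] [Algebra ℂ F] {κ : Type*} (u : κ → F)
    (w : Algebra.adjoin ℂ (Set.range u)) : ∃ p : MvPolynomial κ ℂ, aeval u p = (w : F) := by
  obtain ⟨a, ha⟩ := w
  have h1 : a ∈ (aeval u : MvPolynomial κ ℂ →ₐ[ℂ] F).range := by
    rw [← Algebra.adjoin_range_eq_range_aeval]
    exact ha
  obtain ⟨p, hp⟩ := h1
  exact ⟨p, hp⟩

private theorem spb_hom {F K : Type*} [Field F] [Algebra ℂ F] [Field K] [Algebra ℂ K]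
    {κ : Type*} {u : κ → F} {v : κ → K} (h : IsSpec u v) :
    ∃ ψ : Algebra.adjoin ℂ (Set.range u) →ₐ[ℂ] K,
      ∀ (w : Algebra.adjoin ℂ (Set.range u)) (p : MvPolynomial κ ℂ), aeval u p = (w : F) →
        ψ w = aeval v p := by
  obtain ⟨ψ, hψ⟩ := spec_hom h
  refine ⟨ψ, fun w p hp => ?_⟩
  have hm : ∀ i, u i ∈ Algebra.adjoin ℂ (Set.range u) := fun i =>
    Algebra.subset_adjoin ⟨i, rfl⟩
  have h1 : ψ.comp (aeval (fun i => (⟨u i, hm i⟩ : Algebra.adjoin ℂ (Set.range u)))) = aeval v := by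
    apply MvPolynomial.algHom_ext
    intro i
    rw [AlgHom.comp_apply, aeval_X, aeval_X, hψ]
  have h2 : ((Algebra.adjoin ℂ (Set.range u)).val).comp
      (aeval (fun i => (⟨u i, hm i⟩ : Algebra.adjoin ℂ (Set.range u)))) = aeval u := by
    apply MvPolynomial.algHom_ext
    intro i
    rw [AlgHom.comp_apply, aeval_X, aeval_X]
    rfl
  have h3 : aeval (fun i => (⟨u i, hm i⟩ : Algebra.adjoin ℂ (Set.range u))) p = w := by
    apply Subtype.ext
    rw [← hp, ← h2]
    rfl
  rw [← h3, ← h1]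
  rfl

theorem spec_curve {L : Type} [Field L] [Algebra ℂ L] {s t y : L}
    (hs : ∀ k : ℂ, s ≠ algebraMap ℂ L k) (ht : t ∉ cl {s}) (hy : y ∈ cl {s})
    (halg : ∀ a : L, a ∈ cl {s, t}) {U : Set L} (hU : U.Finite)
    {sB tB yB : Algebra.adjoin ℂ U} (hsB : (sB : L) = s) (htB : (tB : L) = t)
    (hyB : (yB : L) = y) (W Z : Finset (Algebra.adjoin ℂ U)) (hW : ∀ w ∈ W, (w : L) ∉ cl {s})
    (hZ : ∀ w ∈ Z, (w : L) ≠ 0) {K : Type} [Field K] [Algebra ℂ K] [IsAlgClosed K] {e : K}
    (he : ∀ k : ℂ, e ≠ algebraMap ℂ K k) :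
    ∃ E : Set ℂ, E.Finite ∧ ∀ b c : ℂ, b ∉ E → IsPt ![s, y] ![b, c] →
      ∃ ψ : Algebra.adjoin ℂ U →ₐ[ℂ] K, ψ sB = algebraMap ℂ K b ∧ ψ yB = algebraMap ℂ K c ∧
        ψ tB = e ∧ (∀ w ∈ Z, ψ w ≠ 0) ∧ ∀ w ∈ W, ∀ k : ℂ, ψ w ≠ algebraMap ℂ K k := by
  classical
  obtain ⟨N, u, _, rfl⟩ := hU.fin_param
  have hind2 := spb_ind2 hs ht
  have hind1 := spb_ind1 he
  have hall : ∀ a : L, a ∈ cl (Set.range (Fin.snoc ![t] s : Fin (1 + 1) → L)) := by
    intro a
    rw [spb_range]
    exact halg a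
  obtain ⟨u₀, hu₀⟩ : ∃ u₀ : Fin (1 + 1) ⊕ Fin 1 → L,
    u₀ = Sum.elim (Fin.snoc ![t] s : Fin (1 + 1) → L) ![y] := ⟨_, rfl⟩
  obtain ⟨h, hh, hext⟩ := ext_spec (u₀ := u₀) (u := u) (fun i => by
    refine cl_mono ?_ (hall (u i))
    rintro z ⟨j, rfl⟩
    exact ⟨Sum.inl j, by rw [hu₀]; rfl⟩)
  rw [hu₀] at hh
  obtain ⟨E1, hE1, hne1⟩ := spec_ne (b := ![t]) (g := s) hind1 (u := ![y]) (fun i => hall _) h hh
  -- polynomials for the elements of the algebra
  choose P hP using fun w => spb_poly u w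
  have hcoe : ∀ w, aeval (Sum.elim (Fin.snoc ![t] s : Fin (1 + 1) → L) u)
      (rename Sum.inr (P w)) = (w : L) := by
    intro w
    rw [aeval_rename, Sum.elim_comp_inr, hP]
  have hZ2 : ∀ w ∈ Z, ∃ E : Set ℂ, E.Finite ∧ ∀ c ∉ E, ∀ v : Fin N → K,
      IsSpec (Sum.elim (Fin.snoc ![t] s : Fin (1 + 1) → L) u)
        (Sum.elim (Fin.snoc ![e] (algebraMap ℂ K c) : Fin (1 + 1) → K) v) →
      aeval (Sum.elim (Fin.snoc ![e] (algebraMap ℂ K c) : Fin (1 + 1) → K) v)
        (rename Sum.inr (P w)) ≠ 0 := by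
    intro w hw
    refine spec_ne hind1 (fun i => hall _) (rename Sum.inr (P w)) ?_
    rw [hcoe]
    exact hZ w hw
  have hW2 : ∀ w ∈ W, ∃ E : Set ℂ, E.Finite ∧ ∀ c ∉ E, ∀ v : Fin N → K,
      IsSpec (Sum.elim (Fin.snoc ![t] s : Fin (1 + 1) → L) u)
        (Sum.elim (Fin.snoc ![e] (algebraMap ℂ K c) : Fin (1 + 1) → K) v) →
      AlgebraicIndependent ℂ (fun _ : Fin 1 =>
        aeval (Sum.elim (Fin.snoc ![e] (algebraMap ℂ K c) : Fin (1 + 1) → K) v)
          (rename Sum.inr (P w))) := by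
    intro w hw
    refine spec_indep hind2 hind1 (fun i => hall _) (fun _ : Fin 1 => rename Sum.inr (P w)) ?_
    have h1 : (fun _ : Fin 1 => aeval (Sum.elim (Fin.snoc ![t] s : Fin (1 + 1) → L) u)
        (rename Sum.inr (P w))) = ![(w : L)] := by
      funext i
      rw [hcoe]
      fin_cases i
      rfl
    rw [h1]
    exact spb_ind2 hs (hW w hw)
  choose! EZ hEZ1 hEZ2 using hZ2
  choose! EW hEW1 hEW2 using hW2
  refine ⟨E1 ∪ ((⋃ w ∈ Z, EZ w) ∪ ⋃ w ∈ W, EW w), ?_, ?_⟩
  · refine hE1.union (Set.Finite.union ?_ ?_)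
    · exact Set.Finite.biUnion Z.finite_toSet hEZ1
    · exact Set.Finite.biUnion W.finite_toSet hEW1
  · intro b c hb hpt
    rw [Set.mem_union, Set.mem_union, not_or, not_or] at hb
    obtain ⟨hb1, hb2, hb3⟩ := hb
    obtain ⟨v₀, hv₀⟩ : ∃ v₀ : Fin (1 + 1) ⊕ Fin 1 → K,
      v₀ = Sum.elim (Fin.snoc ![e] (algebraMap ℂ K b) : Fin (1 + 1) → K) ![algebraMap ℂ K c] :=
        ⟨_, rfl⟩
    -- the specialisation of the base
    have hbase : IsSpec u₀ v₀ := by
      have h1 : t ∉ cl (Set.range ![s, y]) := by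
        intro h2
        apply ht
        refine cl_subset ?_ h2
        rintro z ⟨i, rfl⟩
        fin_cases i
        · exact subset_cl _ rfl
        · exact hy
      have h2 := spb_comp (spec_trans (spb_pt (K := K) hpt) h1 e)
        (Sum.elim (Fin.snoc ![Sum.inr ()] (Sum.inl 0) : Fin (1 + 1) → Fin 2 ⊕ Unit)
          (fun _ : Fin 1 => Sum.inl 1))
      have e1 : (Sum.elim ![s, y] (fun _ : Unit => t)) ∘
          (Sum.elim (Fin.snoc ![Sum.inr ()] (Sum.inl 0) : Fin (1 + 1) → Fin 2 ⊕ Unit)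
            (fun _ : Fin 1 => Sum.inl 1)) = u₀ := by
        rw [hu₀]
        funext i
        rcases i with i | i
        · fin_cases i <;> rfl
        · fin_cases i
          rfl
      have e2 : (Sum.elim (fun i => algebraMap ℂ K (![b, c] i)) (fun _ : Unit => e)) ∘
          (Sum.elim (Fin.snoc ![Sum.inr ()] (Sum.inl 0) : Fin (1 + 1) → Fin 2 ⊕ Unit)
            (fun _ : Fin 1 => Sum.inl 1)) = v₀ := by
        rw [hv₀]
        funext i
        rcases i with i | i
        · fin_cases i <;> rfl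
        · fin_cases i
          rfl
      rw [e1, e2] at h2
      exact h2
    have hne : aeval v₀ h ≠ 0 := by
      rw [hv₀]
      refine hne1 b hb1 _ ?_
      rw [← hu₀, ← hv₀]
      exact hbase
    obtain ⟨v, hv⟩ := hext K v₀ hbase hne
    have hsub : IsSpec (Sum.elim (Fin.snoc ![t] s : Fin (1 + 1) → L) u)
        (Sum.elim (Fin.snoc ![e] (algebraMap ℂ K b) : Fin (1 + 1) → K) v) := by
      have h2 := spb_comp hv (Sum.map Sum.inl id : Fin (1 + 1) ⊕ Fin N → _)
      have e1 : (Sum.elim u₀ u) ∘ (Sum.map Sum.inl id : Fin (1 + 1) ⊕ Fin N → _) =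
          Sum.elim (Fin.snoc ![t] s : Fin (1 + 1) → L) u := by
        rw [hu₀]
        funext i
        rcases i with i | i <;> rfl
      have e2 : (Sum.elim v₀ v) ∘ (Sum.map Sum.inl id : Fin (1 + 1) ⊕ Fin N → _) =
          Sum.elim (Fin.snoc ![e] (algebraMap ℂ K b) : Fin (1 + 1) → K) v := by
        rw [hv₀]
        funext i
        rcases i with i | i <;> rfl
      rw [e1, e2] at h2
      exact h2
    have huv : IsSpec u v := by
      have h2 := spb_comp hv (Sum.inr : Fin N → _)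
      exact h2
    obtain ⟨ψ, hψ⟩ := spb_hom huv
    have hψP : ∀ w, ψ w = aeval v (P w) := fun w => hψ w (P w) (hP w)
    refine ⟨ψ, ?_, ?_, ?_, ?_, ?_⟩
    · rw [hψP, spb_rel hsub (Fin.last 1) (P sB) (by rw [hP, hsB]; simp)]
      simp
    · rw [hψP, spb_rel hv (Sum.inr 0) (P yB) (by rw [hP, hyB, hu₀]; rfl), hv₀]
      rfl
    · rw [hψP, spb_rel hsub (Fin.castSucc 0) (P tB) (by
        rw [hP, htB, Fin.snoc_castSucc]; rfl), Fin.snoc_castSucc]
      rfl
    · intro w hw
      have h1 := hEZ2 w hw b (fun hm => hb2 (Set.mem_biUnion hw hm)) v hsub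
      rw [aeval_rename, Sum.elim_comp_inr] at h1
      rw [hψP]
      exact h1
    · intro w hw k hk
      have h1 := hEW2 w hw b (fun hm => hb3 (Set.mem_biUnion hw hm)) v hsub
      have h2 := h1.transcendental 0
      rw [aeval_rename, Sum.elim_comp_inr, ← hψP, hk] at h2
      exact h2 (isAlgebraic_algebraMap k)

end XA
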