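import Pool.Agent.Lib.MP_228259_lc.A.IF

/-!
TB3A: zeros of exponential polynomials in one variable.

PROOF. `eval ![ξ, E, exp ξ] f = ∑ γ ∈ f.support, coeff γ f * ξ ^ γ 0 * E ^ γ 1 * exp (γ 2 * ξ)`. For `k : ℕ` let
`g k = ∑ γ ∈ f.support with γ 2 = k, C (coeff γ f * E ^ γ 1) * X ^ γ 0 : Polynomial ℂ`. `g (α 2) ≠ 0`,
because its coefficient of `X ^ α 0` is the sum of `hα`; in the same way `g (β 2) ≠ 0`. Let
`A = {k ∈ f.support.image (fun γ => γ 2) | g k ≠ 0}`. Apply `lt_field` to `B = Polynomial ℂ`,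
`ψ = Polynomial.aeval e`, `ι = ℕ`, `c = g`, `P k = (k : ℂ) • X`: `ψ (g k) ≠ 0` because `e` is
transcendental (`cl_empty`: an algebraic element is constant); `(k - l) e` is not
constant for `k ≠ l`; `e = (α 2 - β 2)⁻¹ • (ψ (P (α 2)) - ψ (P (β 2)))` is in the span. Let `σ` be the
result and `ξ = σ X`: `σ (g k) = (g k).eval ξ`, so `∑ k ∈ A, (g k).eval ξ * exp (k ξ) = 0`, which is
`eval ![ξ, E, exp ξ] f = 0` (the `g k` with `k ∉ A` are zero).
-/

set_option autoImplicit false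

namespace XA

open MvPolynomial

theorem sum_zero_three (f : MvPolynomial (Fin 3) ℂ) (E : ℂ) (α β : Fin 3 →₀ ℕ)
    (h2 : α 2 ≠ β 2)
    (hα : ∑ γ ∈ f.support.filter (fun γ => γ 0 = α 0 ∧ γ 2 = α 2), coeff γ f * E ^ γ 1 ≠ 0)
    (hβ : ∑ γ ∈ f.support.filter (fun γ => γ 0 = β 0 ∧ γ 2 = β 2), coeff γ f * E ^ γ 1 ≠ 0) :
    ∃ ξ : ℂ, eval ![ξ, E, Complex.exp ξ] f = 0 := by
  classical
  obtain ⟨K, _, _, e, -, he, hmain⟩ := lt_field
  set g : ℕ → Polynomial ℂ := fun k => ∑ γ ∈ f.support.filter (fun γ => γ 2 = k),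
    Polynomial.C (coeff γ f * E ^ γ 1) * Polynomial.X ^ γ 0 with hg
  have hcoeff : ∀ k m : ℕ, (g k).coeff m =
      ∑ γ ∈ f.support.filter (fun γ => γ 0 = m ∧ γ 2 = k), coeff γ f * E ^ γ 1 := by
    intro k m
    rw [hg]
    simp only [Polynomial.finsetSum_coeff, Polynomial.coeff_C_mul, Polynomial.coeff_X_pow,
      mul_ite, mul_one, mul_zero]
    rw [← Finset.sum_filter, Finset.filter_filter]
    refine Finset.sum_congr ?_ fun _ _ => rfl
    ext γ
    simp only [Finset.mem_filter]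
    constructor
    · rintro ⟨h, h1, h2⟩
      exact ⟨h, h2.symm, h1⟩
    · rintro ⟨h, h1, h2⟩
      exact ⟨h, h2, h1.symm⟩
  set A : Finset ℕ := (f.support.image (fun γ => γ 2)).filter (fun k => g k ≠ 0) with hA
  have hmem : ∀ α : Fin 3 →₀ ℕ,
      ∑ γ ∈ f.support.filter (fun γ => γ 0 = α 0 ∧ γ 2 = α 2), coeff γ f * E ^ γ 1 ≠ 0 →
      α 2 ∈ A := by
    intro α hα
    rw [hA, Finset.mem_filter]
    constructor
    · obtain ⟨γ, hγ, -⟩ := Finset.exists_ne_zero_of_sum_ne_zero hα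
      rw [Finset.mem_filter] at hγ
      rw [Finset.mem_image]
      exact ⟨γ, hγ.1, hγ.2.2⟩
    · intro h0
      apply hα
      rw [← hcoeff, h0, Polynomial.coeff_zero]
  have htr : ∀ p : Polynomial ℂ, p ≠ 0 → Polynomial.aeval e p ≠ 0 := by
    intro p hp h0
    have h2 : IsAlgebraic ℂ e := ⟨p, hp, h0⟩
    have h3 : IsIntegral ℂ e := h2.isIntegral
    have h4 := IsAlgClosed.degree_eq_one_of_irreducible ℂ (minpoly.irreducible h3)
    obtain ⟨c, hc⟩ := minpoly.mem_range_of_degree_eq_one ℂ e h4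
    exact he c hc.symm
  have hP : ∀ k : ℕ, Polynomial.aeval e ((k : ℂ) • (Polynomial.X : Polynomial ℂ)) = (k : ℂ) • e := by
    intro k
    rw [map_smul, Polynomial.aeval_X]
  obtain ⟨σ, hσ⟩ := hmain (Polynomial ℂ) (Polynomial.aeval e) ℕ A g
    (fun k => (k : ℂ) • (Polynomial.X : Polynomial ℂ)) (by
      intro k hk
      rw [hA, Finset.mem_filter] at hk
      exact htr _ hk.2) (by
      intro k _ l _ hkl c h0
      rw [hP, hP, ← sub_smul] at h0
      have hkl' : ((k : ℂ) - (l : ℂ)) ≠ 0 := by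
        rw [sub_ne_zero]
        exact_mod_cast hkl
      apply he (((k : ℂ) - (l : ℂ))⁻¹ * c)
      rw [map_mul, ← h0, Algebra.smul_def, ← mul_assoc, ← map_mul, inv_mul_cancel₀ hkl', map_one,
        one_mul]) (by
      have hkl' : ((α 2 : ℂ) - (β 2 : ℂ)) ≠ 0 := by
        rw [sub_ne_zero]
        exact_mod_cast h2
      have h3 : e = ((α 2 : ℂ) - (β 2 : ℂ))⁻¹ •
          (Polynomial.aeval e ((α 2 : ℂ) • (Polynomial.X : Polynomial ℂ)) -
            Polynomial.aeval e ((β 2 : ℂ) • (Polynomial.X : Polynomial ℂ))) := by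
        rw [hP, hP, ← sub_smul, smul_smul, inv_mul_cancel₀ hkl', one_smul]
      rw [h3]
      refine Submodule.smul_mem _ _ (Submodule.subset_span ?_)
      refine ⟨α 2, hmem α hα, β 2, hmem β hβ, ?_⟩
      rw [← h3])
  have hev : ∀ p : Polynomial ℂ, σ p = p.eval (σ Polynomial.X) := by
    intro p
    have h3 := Polynomial.aeval_algHom_apply σ Polynomial.X p
    rw [Polynomial.aeval_X_left_apply] at h3
    rw [← h3, Polynomial.coe_aeval_eq_eval]
  set ξ : ℂ := σ Polynomial.X with hξ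
  refine ⟨ξ, ?_⟩
  have hsum : eval ![ξ, E, Complex.exp ξ] f =
      ∑ k ∈ f.support.image (fun γ => γ 2), (g k).eval ξ * Complex.exp ((k : ℂ) * ξ) := by
    rw [MvPolynomial.eval_eq', ← Finset.sum_fiberwise_of_maps_to
      (g := fun γ : Fin 3 →₀ ℕ => γ 2) (t := f.support.image (fun γ => γ 2))
      (fun γ hγ => Finset.mem_image_of_mem _ hγ)]
    refine Finset.sum_congr rfl fun k _ => ?_
    rw [hg, Polynomial.eval_finsetSum, Finset.sum_mul]
    refine Finset.sum_congr rfl fun γ hγ => ?_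
    rw [Finset.mem_filter] at hγ
    rw [Fin.prod_univ_three]
    simp only [Matrix.cons_val_zero, Matrix.cons_val_one, Matrix.cons_val, Polynomial.eval_mul,
      Polynomial.eval_C, Polynomial.eval_pow, Polynomial.eval_X]
    rw [← hγ.2, Complex.exp_nat_mul]
    ring
  rw [hsum]
  rw [← Finset.sum_filter_add_sum_filter_not _ (fun k => g k ≠ 0), ← hA]
  have h5 : ∑ k ∈ A, (g k).eval ξ * Complex.exp ((k : ℂ) * ξ) = 0 := by
    rw [← hσ]
    refine Finset.sum_congr rfl fun k _ => ?_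
    rw [hev, map_smul, ← hξ, smul_eq_mul]
  rw [h5, zero_add]
  refine Finset.sum_eq_zero fun k hk => ?_
  rw [Finset.mem_filter, not_not] at hk
  rw [hk.2, Polynomial.eval_zero, zero_mul]

end XA
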