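import Pool.Agent.Lib.MP_228259_lc.A.IF
import Pool.Agent.Lib.MP_228259_lc.A.CLI
import Pool.Agent.Lib.MP_228259_lc.A.PTE
import Pool.Agent.Lib.MP_228259_lc.A.SP

/-!
TC: `n = 3`, `dim T = 2`, the case that `x_1, y_1` are algebraically independent.

PROOF. `rk (range x) = 2` (`h.rkx`), `x 0 ∉ cl ∅` (`h.af` with `Pi.single 0 1` and `cl_empty`), `y 0 ∉ cl {x 0}`
(`hy`), so `rk {x 0, y 0} = 2` and `cl {x 0, y 0} = cl (range x)` (`subset_cl_of_rk`, `y 0 ∈ cl (range x)`).
`exp_of_sigma` with `m = 2`, `e = ![1, 2]` (the only index not in `range e` is `0`) gives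
`U, xB, yB, cB`. Apply `lc_field` to the field `L`, `u = ⟨x 0, _⟩`, `y = ⟨y 0, _⟩`, (`hind` and `halg` by
`indep_map` and `cl_map` for the inclusion `L → F`), `B = adjoin ℂ U` (of finite type), `ψ` the inclusion, `ub = xB 0`,
`yb = yB 0`, `A = f.support`, `c = cB`, `P α = α 0 • xB 1 + α 1 • xB 2`.
`hNE`: if `α ≠ β` and `(α 0 - β 0) x_1 + (α 1 - β 1) x_2 = r x_0 + k`, `r = a / b` rational,
then `m = (- a, b (α 0 - β 0), b (α 1 - β 1)) ≠ 0` has `li m x = b k` constant, against `h.af`.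
`hGR`: otherwise all differences are in `cl {x 0}`, so by `spans_mem` (`z = ![x 1, x 2]`; `cl {x 0}` is
a field containing `ℂ`, so it contains the `ℂ`-span) `x 1, x 2 ∈ cl {x 0}`, so `rk (range x) ≤ 1`.
-/

set_option autoImplicit false

namespace XA

open MvPolynomial

private theorem tcRk {F : Type} [Field F] [Algebra ℂ F] {x y : Fin 3 → F} (h : FD x y) :
    rk (Set.range x) = 2 := by
  have h1 := h.rkx
  have h2 : rk (Set.range x) ≠ ⊤ := by
    intro h3
    rw [h3] at h1
    exact absurd h1 (by simp)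
  obtain ⟨n, hn⟩ := ENat.ne_top_iff_exists.1 h2
  rw [← hn] at h1 ⊢
  have h4 : n + 1 = 3 := by exact_mod_cast h1
  have h5 : n = 2 := by omega
  subst h5
  rfl

private theorem tcX0 {F : Type} [Field F] [Algebra ℂ F] {x y : Fin 3 → F} (h : FD x y) :
    x 0 ∉ cl (∅ : Set F) := by
  intro h1
  obtain ⟨c, hc⟩ := cl_empty h1
  have h2 := h.af (Pi.single 0 1) (by
    intro h3
    have h4 := congrFun h3 0
    simp at h4) c
  rw [li_single] at h2
  exact h2 hc

private theorem tcRk0 {F : Type} [Field F] [Algebra ℂ F] {x y : Fin 3 → F} (h : FD x y) :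
    rk ({x 0} : Set F) = 1 := by
  have h1 := rk_insert_not (tcX0 h)
  have h2 : rk (∅ : Set F) = 0 := (AlgebraicIndependent.matroid ℂ F).eRk_empty
  rw [h2] at h1
  have h3 : (insert (x 0) (∅ : Set F)) = {x 0} := by simp
  rw [h3] at h1
  simpa using h1

private theorem tcRk2 {F : Type} [Field F] [Algebra ℂ F] {x y : Fin 3 → F} (h : FD x y)
    (hy : y 0 ∉ cl {x 0}) : rk ({x 0, y 0} : Set F) = 2 := by
  have h1 := rk_insert_not hy
  rw [tcRk0 h] at h1
  rw [Set.pair_comm, h1]
  rfl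

theorem t2_c {F : Type} [Field F] [Algebra ℂ F] {x y : Fin 3 → F} (h : FD x y)
    (h1 : y 0 ∈ cl (Set.range x)) (hy : y 0 ∉ cl {x 0}) {L : IntermediateField ℂ F}
    (hL : (L : Set F) = cl (Set.range x)) {f : MvPolynomial (Fin 2) L} (hs : Spans f.support)
    (hf : ∀ h : MvPolynomial (Fin 2) L,
      aeval (fun i => y ((![1, 2] : Fin 2 → Fin 3) i)) h = 0 → f ∣ h) : HasExp x y := by
  have hxL : ∀ j, x j ∈ L := by
    intro j
    have h2 : x j ∈ (L : Set F) := by
      rw [hL]
      exact subset_cl _ ⟨j, rfl⟩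
    exact h2
  have hy0L : y 0 ∈ L := by
    have h2 : y 0 ∈ (L : Set F) := by
      rw [hL]
      exact h1
    exact h2
  have hr : ∀ j : Fin 3, j ∉ Set.range (![1, 2] : Fin 2 → Fin 3) → j = 0 := by
    intro j hj
    fin_cases j
    · rfl
    · exact absurd ⟨0, rfl⟩ hj
    · exact absurd ⟨1, rfl⟩ hj
  have h0r : (0 : Fin 3) ∉ Set.range (![1, 2] : Fin 2 → Fin 3) := by
    rintro ⟨i, hi⟩
    fin_cases i
    · exact absurd hi (by decide)
    · exact absurd hi (by decide)
  obtain ⟨U, xB, yB, cB, hU, hxB, hyB, hcB, hσ⟩ := exp_of_sigma (x := x) (y := y)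
    (![1, 2] : Fin 2 → Fin 3) L hxL (by
      intro j hj
      rw [hr j hj]
      exact hy0L) hf
  have hft : Algebra.FiniteType ℂ (Algebra.adjoin ℂ U) := by
    rw [← Subalgebra.fg_iff_finiteType]
    obtain ⟨s, hs2⟩ := hU.exists_finset_coe
    rw [← hs2]
    exact Subalgebra.fg_adjoin_finset s
  -- the two generators in `L`
  have hrange : Set.range ![x 0, y 0] = {x 0, y 0} := by
    simp [Set.pair_comm]
  have hindF : AlgebraicIndependent ℂ ![x 0, y 0] := by
    rw [← rk_eq_iff, hrange, tcRk2 h hy]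
    simp
  have hindL : AlgebraicIndependent ℂ (![(⟨x 0, hxL 0⟩ : L), (⟨y 0, hy0L⟩ : L)]) := by
    rw [← indep_map L.val]
    have h2 : (fun i => L.val ((![(⟨x 0, hxL 0⟩ : L), (⟨y 0, hy0L⟩ : L)]) i)) = ![x 0, y 0] := by
      funext i
      fin_cases i <;> rfl
    rw [h2]
    exact hindF
  have hcl : cl (Set.range x) ⊆ cl {x 0, y 0} := by
    refine subset_cl_of_rk ?_ ?_ ?_
    · intro a ha
      rcases ha with rfl | ha
      · exact subset_cl _ ⟨0, rfl⟩
      · rw [Set.mem_singleton_iff.1 ha]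
        exact h1
    · rw [rk_cl, tcRk h]
      exact ENat.natCast_ne_top 2
    · rw [rk_cl, tcRk h, tcRk2 h hy]
  have halg : ∀ a : L, a ∈ cl ({(⟨x 0, hxL 0⟩ : L), (⟨y 0, hy0L⟩ : L)} : Set L) := by
    intro a
    rw [← cl_map L.val, Set.image_pair]
    refine hcl ?_
    rw [← hL]
    exact a.2
  -- the sums
  have hcoe : ∀ α : Fin 2 →₀ ℕ,
      (((∑ i, α i • xB ((![1, 2] : Fin 2 → Fin 3) i) : Algebra.adjoin ℂ U) : L) : F) =
        (α 0 : F) * x 1 + (α 1 : F) * x 2 := by
    intro α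
    rw [Fin.sum_univ_two]
    push_cast
    rw [hxB 1, hxB 2, nsmul_eq_mul, nsmul_eq_mul]
  obtain ⟨σ, hσ1, hσ2⟩ := lc_field (L := L) (u := ⟨x 0, hxL 0⟩) (y := ⟨y 0, hy0L⟩) hindL halg
    (Algebra.adjoin ℂ U) (Algebra.adjoin ℂ U).val (ub := xB 0) (yb := yB 0)
    (Subtype.ext (hxB 0)) (Subtype.ext (hyB 0 h0r)) (Fin 2 →₀ ℕ) f.support cB
    (fun α => ∑ i, α i • xB ((![1, 2] : Fin 2 → Fin 3) i))
    (by
      intro α hα
      have h2 : ((Algebra.adjoin ℂ U).val (cB α) : L) = coeff α f := hcB α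
      rw [h2]
      exact MvPolynomial.mem_support_iff.1 hα)
    (by
      intro α _ β _ hαβ r k hk
      have hk2 := congrArg (fun z : L => (z : F)) hk
      have hk3 : ((α 0 : F) * x 1 + (α 1 : F) * x 2) - ((β 0 : F) * x 1 + (β 1 : F) * x 2) =
          algebraMap ℂ F (r : ℂ) * x 0 + algebraMap ℂ F k := by
        rw [← hcoe α, ← hcoe β]
        exact hk2
      have hden : ((r.den : ℕ) : ℂ) ≠ 0 := by exact_mod_cast r.den_ne_zero
      have hr1 : ((r.den : ℕ) : ℂ) * (r : ℂ) = (r.num : ℂ) := by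
        have h4 : ((r.den : ℕ) : ℚ) * r = (r.num : ℚ) := by
          rw [mul_comm]
          exact Rat.mul_den_eq_num r
        exact_mod_cast congrArg (fun q : ℚ => (q : ℂ)) h4
      have hr2 : ((r.den : ℕ) : F) * algebraMap ℂ F (r : ℂ) = (r.num : F) := by
        have h4 := congrArg (algebraMap ℂ F) hr1
        rw [map_mul, map_natCast, map_intCast] at h4
        exact h4
      refine h.af ![-r.num, (r.den : ℤ) * ((α 0 : ℤ) - (β 0 : ℤ)),
        (r.den : ℤ) * ((α 1 : ℤ) - (β 1 : ℤ))] ?_ (((r.den : ℕ) : ℂ) * k) ?_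
      · intro h4
        have hd : (r.den : ℤ) ≠ 0 := by exact_mod_cast r.den_ne_zero
        have h5 := congrFun h4 1
        have h6 := congrFun h4 2
        simp only [Matrix.cons_val_one, Matrix.cons_val_zero, Pi.zero_apply, mul_eq_zero, hd,
          false_or] at h5
        have h6' : (r.den : ℤ) * ((α 1 : ℤ) - (β 1 : ℤ)) = 0 := h6
        simp only [mul_eq_zero, hd, false_or] at h6'
        apply hαβ
        ext i
        fin_cases i
        · show α 0 = β 0
          omega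
        · show α 1 = β 1
          omega
      · rw [li, Fin.sum_univ_three]
        have e0 : (![-r.num, (r.den : ℤ) * ((α 0 : ℤ) - (β 0 : ℤ)),
          (r.den : ℤ) * ((α 1 : ℤ) - (β 1 : ℤ))] : Fin 3 → ℤ) 0 = -r.num := rfl
        have e1 : (![-r.num, (r.den : ℤ) * ((α 0 : ℤ) - (β 0 : ℤ)),
          (r.den : ℤ) * ((α 1 : ℤ) - (β 1 : ℤ))] : Fin 3 → ℤ) 1 =
            (r.den : ℤ) * ((α 0 : ℤ) - (β 0 : ℤ)) := rfl
        have e2 : (![-r.num, (r.den : ℤ) * ((α 0 : ℤ) - (β 0 : ℤ)),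
          (r.den : ℤ) * ((α 1 : ℤ) - (β 1 : ℤ))] : Fin 3 → ℤ) 2 =
            (r.den : ℤ) * ((α 1 : ℤ) - (β 1 : ℤ)) := rfl
        rw [e0, e1, e2, map_mul, map_natCast]
        push_cast
        linear_combination ((r.den : ℕ) : F) * hk3 + x 0 * hr2)
    (by
      by_contra hcon
      push Not at hcon
      obtain ⟨K0, hK0⟩ := cl_field ({x 0} : Set F)
      have h2 : ∀ j, (![x 1, x 2] : Fin 2 → F) j ∈ K0 := by
        intro j
        have h3 := spans_mem hs (![x 1, x 2] : Fin 2 → F) j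
        have h4 : Submodule.span ℂ {w : F | ∃ α ∈ f.support, ∃ β ∈ f.support,
            w = (∑ i, α i • (![x 1, x 2] : Fin 2 → F) i) -
              ∑ i, β i • (![x 1, x 2] : Fin 2 → F) i} ≤
            Subalgebra.toSubmodule K0.toSubalgebra := by
          rw [Submodule.span_le]
          rintro w ⟨α, hα, β, hβ, rfl⟩
          have h5 := hcon α hα β hβ
          rw [← cl_map L.val, Set.image_singleton] at h5
          have h6 : L.val ((Algebra.adjoin ℂ U).val (∑ i, α i • xB ((![1, 2] : Fin 2 → Fin 3) i)) -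
              (Algebra.adjoin ℂ U).val (∑ i, β i • xB ((![1, 2] : Fin 2 → Fin 3) i))) =
              (∑ i, α i • (![x 1, x 2] : Fin 2 → F) i) -
                ∑ i, β i • (![x 1, x 2] : Fin 2 → F) i := by
            rw [map_sub]
            have h7 : ∀ γ : Fin 2 →₀ ℕ, (∑ i, γ i • (![x 1, x 2] : Fin 2 → F) i) =
                (γ 0 : F) * x 1 + (γ 1 : F) * x 2 := by
              intro γ
              rw [Fin.sum_univ_two]
              simp [nsmul_eq_mul]
            rw [h7, h7, ← hcoe α, ← hcoe β]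
            rfl
          rw [h6] at h5
          have h8 : ((∑ i, α i • (![x 1, x 2] : Fin 2 → F) i) -
                ∑ i, β i • (![x 1, x 2] : Fin 2 → F) i) ∈ (K0 : Set F) := by
            rw [hK0]
            exact h5
          exact h8
        exact h4 h3
      have h9 : Set.range x ⊆ cl {x 0} := by
        rintro _ ⟨j, rfl⟩
        rw [← hK0]
        fin_cases j
        · have h10 : x 0 ∈ (K0 : Set F) := by
            rw [hK0]
            exact subset_cl _ rfl
          exact h10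
        · exact h2 0
        · exact h2 1
      have h11 := rk_mono h9
      rw [tcRk h, tcRk0 h] at h11
      exact absurd h11 (by decide))
  refine hσ σ ?_ hσ2
  intro j hj
  rw [hr j hj]
  exact hσ1

end XA
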