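import Pool.Agent.Lib.MP_228259_lc.A.XS
import Pool.Agent.Lib.MP_228259_lc.A.MB

/-!
XC: a generic section of the additive part keeps the hypotheses when the number `δ` of equations
between the `y j` over `ℂ(x)` is less than `rk (range x)`.

PROOF. `x_step` gives `K, x', y'` (`x 0 ∉ cl ∅` by `h.af`, `cl_empty`; `n ≥ 1` since `rk (range x) ≥ 2`). Write `L`-rank
for ranks relative to `range x`. All sets have finite rank.
* `rk (range x') = d + 1`: `≤` by `x_step`; `≥`: take an independent `I ⊆ range x` with `d + 1` elements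
  (`Matroid.le_eRk_iff`), enumerate it as `x (e i) = evm x y (inl (Pi.single (e i) 1))` (`li_single`);
  some `x j ∉ cl I` (otherwise `rk (range x) ≤ d + 1`), so `Cut.ind` gives `d + 1` independent elements of
  `range x'`.
* `rk (range x' ∪ range y') = d + 1 + e`: `≤` by `x_step`; `≥`: take a basis of `range x` (`d + 2` elements) and
  extend it to a basis of `range x ∪ range y` (`d + 2 + e` elements); remove one element `x j`: an independent
  family of `d + 1 + e` elements with `x j ∉ cl`; `Cut.ind`.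
* `af`: for `m ≠ 0`, `li m x ∉ cl ∅`, so `![li m x]` is independent; some `x j ∉ cl {li m x}` as
  `rk (range x) ≥ 2`; `Cut.ind` with `k = 1`. `mf`: the same with `mo m y`.
* `rot`: let `M` be a `k × n` matrix of rank `q`, `k ≤ n`. By `rk_mono_bound` (with `S = range x`):
  `d + 2 + e + q ≤ rk (range x ∪ range y^M) + n`, so
  `rk (range x ∪ range (y^M)) ≥ d + 2 + q - δ > q` (`n = e + δ`, `δ < d + 2`). Choose an independent set `S` with `q`
  elements in `T = range (M x) ∪ range (y^M)` (`rk T ≥ q` by `h.rot`) such that `rk (S ∪ range x) > q`: start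
  with `S₁ ⊆ range (y^M)` independent over `range x` (a set such that adding it to a basis `B` of `range x`
  gives a basis of `range x ∪ range (y^M)`; so `S₁` is independent and
  `rk (range x ∪ S₁) = d + 2 + S₁.encard = rk (range x ∪ range (y^M))`). If `S₁.encard ≥ q` take a subset `S` of `S₁` with `q`
  elements: `rk (range x ∪ S) = d + 2 + q > q`. Otherwise extend `S₁` to an independent subset `S` of `T` with
  `q` elements (matroid augmentation, `Matroid.Indep.subset_isBasis_of_subset` and
  truncation): `rk (range x ∪ S) ≥ rk (range x ∪ S₁) > q`. In both cases some `x j ∉ cl S` (otherwise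
  `rk (S ∪ range x) = rk S = q`), so `Cut.ind` (the elements of `S` are `evm x y` of rows of `M`) gives
  `q` independent elements in `range (M x') ∪ range (y'^M)`.
-/

set_option autoImplicit false

namespace XA

open MvPolynomial

private lemma xc_transfer {F K : Type*} [Field F] [Algebra ℂ F] [Field K] [Algebra ℂ K] {n : ℕ}
    {x y : Fin n → F} {x' y' : Fin n → K} (hc : Cut x y x' y') {I : Set F}
    (hI : (AlgebraicIndependent.matroid ℂ F).Indep I) (q : ℕ) (hq : I.encard = q)
    (A : Set ((Fin n → ℤ) ⊕ (Fin n → ℤ))) (hA : I ⊆ evm x y '' A)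
    (hj : ∃ j, x j ∉ cl I) : (q : ℕ∞) ≤ rk (evm x' y' '' A) := by
  classical
  have hfin : I.Finite := by
    rw [← Set.encard_ne_top_iff, hq]
    exact ENat.natCast_ne_top q
  have hft : Fintype I := hfin.fintype
  have hcard : Fintype.card I = q := by
    have h1 : I.encard = Fintype.card I := by
      rw [Set.encard_eq_coe_toFinset_card, Set.toFinset_card]
    rw [hq] at h1
    exact_mod_cast h1.symm
  obtain ⟨eqv⟩ : Nonempty (Fin q ≃ I) := ⟨(Fintype.equivFinOfCardEq hcard).symm⟩
  have hch : ∀ i : Fin q, ∃ d ∈ A, evm x y d = (eqv i : F) := fun i => hA (eqv i).2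
  choose D hDA hD using hch
  have hrange : Set.range (fun i => evm x y (D i)) = I := by
    ext a
    constructor
    · rintro ⟨i, rfl⟩
      simp only [hD]
      exact (eqv i).2
    · intro ha
      refine ⟨eqv.symm ⟨a, ha⟩, ?_⟩
      simp only [hD, Equiv.apply_symm_apply]
  have h1 : AlgebraicIndependent ℂ (fun i => evm x y (D i)) := by
    rw [← rk_eq_iff, hrange, Fintype.card_fin, rk, hI.eRk_eq_encard, hq]
  have h2 := hc.ind q D h1 (by rw [hrange]; exact hj)
  have h3 := (rk_eq_iff _).2 h2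
  rw [Fintype.card_fin] at h3
  rw [← h3]
  refine rk_mono (Set.Subset.trans ?_ (subset_cl _))
  rintro a ⟨i, rfl⟩
  exact ⟨D i, hDA i, rfl⟩

private lemma xc_not {F : Type*} [Field F] [Algebra ℂ F] {n : ℕ} {x : Fin n → F} {I : Set F}
    (h : rk I < rk (I ∪ Set.range x)) : ∃ j, x j ∉ cl I := by
  by_contra hcon
  push Not at hcon
  have : rk (I ∪ Set.range x) ≤ rk I := by
    refine rk_mono (Set.union_subset (subset_cl _) ?_)
    rintro a ⟨j, rfl⟩
    exact hcon j
  exact absurd h (not_lt.2 this)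

private lemma xc_single {F : Type*} [Field F] [Algebra ℂ F] {n : ℕ} (x y : Fin n → F) :
    evm x y '' (Set.range fun j => Sum.inl (Pi.single j 1)) = Set.range x := by
  ext a
  constructor
  · rintro ⟨_, ⟨j, rfl⟩, rfl⟩
    exact ⟨j, by simp [evm, li_single]⟩
  · rintro ⟨j, rfl⟩
    exact ⟨_, ⟨j, rfl⟩, by simp [evm, li_single]⟩

private lemma xc_all {F : Type*} [Field F] [Algebra ℂ F] {n : ℕ} (x y : Fin n → F) :
    evm x y '' ((Set.range fun j => Sum.inl (Pi.single j 1)) ∪
      (Set.range fun j => Sum.inr (Pi.single j 1))) = Set.range x ∪ Set.range y := by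
  rw [Set.image_union, xc_single]
  congr 1
  ext a
  constructor
  · rintro ⟨_, ⟨j, rfl⟩, rfl⟩
    exact ⟨j, by simp [evm, mo_single]⟩
  · rintro ⟨j, rfl⟩
    exact ⟨_, ⟨j, rfl⟩, by simp [evm, mo_single]⟩

private lemma xc_mat {F : Type*} [Field F] [Algebra ℂ F] {n k : ℕ} (x y : Fin n → F)
    (M : Matrix (Fin k) (Fin n) ℤ) :
    evm x y '' ((Set.range fun i => Sum.inl (M i)) ∪ (Set.range fun i => Sum.inr (M i))) =
      Set.range (fun i => li (M i) x) ∪ Set.range (fun i => mo (M i) y) := by
  rw [Set.image_union, ← Set.range_comp, ← Set.range_comp]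
  rfl

private lemma xc_rk_indep {F : Type*} [Field F] [Algebra ℂ F] {I : Set F}
    (hI : (AlgebraicIndependent.matroid ℂ F).Indep I) : rk I = I.encard := hI.eRk_eq_encard

private lemma xc_fin {a : ℕ∞} {m : ℕ} (h : a + 1 ≤ (m : ℕ∞)) : ∃ r : ℕ, a = r ∧ r + 1 ≤ m := by
  have h1 : a ≠ ⊤ := by
    rintro rfl
    simp at h
  obtain ⟨r, hr⟩ := ENat.ne_top_iff_exists.1 h1
  refine ⟨r, hr.symm, ?_⟩
  rw [← hr] at h
  exact_mod_cast h

/-- the choice of the independent set -/
private lemma xc_choose {F : Type*} [Field F] [Algebra ℂ F] {n : ℕ} {x : Fin n → F} {Y T : Set F}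
    (hYT : Y ⊆ T) {q : ℕ} (h1 : (q : ℕ∞) ≤ rk T) (h2 : (q : ℕ∞) < rk (Set.range x ∪ Y))
    (h0 : 0 < rk (Set.range x)) (hfin : rk (Set.range x ∪ Y) ≠ ⊤) :
    ∃ I ⊆ T, (AlgebraicIndependent.matroid ℂ F).Indep I ∧ I.encard = q ∧ ∃ j, x j ∉ cl I := by
  set M := AlgebraicIndependent.matroid ℂ F with hM
  obtain ⟨B₀, hB₀⟩ := M.exists_isBasis (Set.range x)
  obtain ⟨B, hB, hBB⟩ := hB₀.indep.subset_isBasis_of_subset
    (hB₀.subset.trans Set.subset_union_left : B₀ ⊆ Set.range x ∪ Y)
  have hrB : rk (Set.range x ∪ Y) = B.encard := hB.encard_eq_eRk.symm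
  have hr0 : rk (Set.range x) = B₀.encard := hB₀.encard_eq_eRk.symm
  have hB0fin : B₀.encard ≠ ⊤ := by
    intro h
    apply hfin
    rw [hrB]
    exact top_le_iff.1 (h ▸ Set.encard_le_encard hBB)
  have hdiff : B \ B₀ ⊆ Y := by
    intro b hb
    rcases hB.subset hb.1 with hx | hy
    · exfalso
      have h3 : b ∈ M.closure B₀ := hB₀.subset_closure hx
      have h4 : b ∉ M.closure (B \ {b}) := hB.indep.notMem_closure_sdiff_of_mem hb.1
      apply h4
      refine M.closure_subset_closure ?_ h3
      intro c hc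
      refine ⟨hBB hc, ?_⟩
      rintro rfl
      exact hb.2 hc
    · exact hy
  have hind1 : M.Indep (B \ B₀) := hB.indep.subset Set.sdiff_subset
  rcases le_or_gt (q : ℕ∞) (B \ B₀).encard with hc | hc
  · obtain ⟨S, hS, hSq⟩ := Set.exists_subset_encard_eq hc
    have hSi : M.Indep S := hind1.subset hS
    refine ⟨S, hS.trans (hdiff.trans hYT), hSi, hSq, xc_not ?_⟩
    have h5 : M.Indep (B₀ ∪ S) := hB.indep.subset
      (Set.union_subset hBB (hS.trans Set.sdiff_subset))
    have h6 : rk (B₀ ∪ S) = B₀.encard + q := by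
      rw [xc_rk_indep h5, Set.encard_union_eq, hSq]
      exact (Set.disjoint_sdiff_right.mono_right hS)
    have h7 : rk (B₀ ∪ S) ≤ rk (S ∪ Set.range x) := rk_mono (Set.Subset.trans
      (Set.union_subset (hB₀.subset.trans Set.subset_union_right) Set.subset_union_left)
      (subset_cl _))
    rw [xc_rk_indep hSi, hSq]
    refine lt_of_lt_of_le ?_ h7
    rw [h6]
    rw [hr0] at h0
    calc (q : ℕ∞) = 0 + q := (zero_add _).symm
      _ < B₀.encard + q := (ENat.add_lt_add_iff_right (ENat.natCast_ne_top q)).2 h0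
  · obtain ⟨BT, hBT, hBBT⟩ := hind1.subset_isBasis_of_subset (hdiff.trans hYT)
    have hTe : (q : ℕ∞) ≤ BT.encard := by
      rw [hBT.encard_eq_eRk]
      exact h1
    obtain ⟨S, hS1, hS2, hSq⟩ := Set.exists_superset_subset_encard_eq hBBT hc.le hTe
    have hSi : M.Indep S := hBT.indep.subset hS2
    refine ⟨S, hS2.trans hBT.subset, hSi, hSq, xc_not ?_⟩
    rw [xc_rk_indep hSi, hSq]
    refine lt_of_lt_of_le h2 ?_
    rw [hrB, ← xc_rk_indep hB.indep]
    refine rk_mono (Set.Subset.trans ?_ (subset_cl _))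
    intro b hb
    by_cases hb0 : b ∈ B₀
    · exact Or.inr (hB₀.subset hb0)
    · exact Or.inl (hS1 ⟨hb, hb0⟩)

theorem x_cut {F : Type*} [Field F] [Algebra ℂ F] {n : ℕ} {x y : Fin n → F} (h : FR0 x y)
    {d e δ : ℕ} (hd : rk (Set.range x) = ((d + 2 : ℕ) : ℕ∞))
    (hN : rk (Set.range x ∪ Set.range y) = ((d + 2 + e : ℕ) : ℕ∞)) (hδ : n = e + δ)
    (hδd : δ < d + 2) :
    ∃ (K : Type) (_ : Field K) (_ : Algebra ℂ K) (x' y' : Fin n → K), FR0 x' y' ∧
      Cut x y x' y' ∧ rk (Set.range x') = ((d + 1 : ℕ) : ℕ∞) ∧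
      rk (Set.range x' ∪ Set.range y') = ((d + 1 + e : ℕ) : ℕ∞) := by
  classical
  have hx : ∃ j, x j ∉ cl (∅ : Set F) := by
    apply xc_not
    rw [Set.empty_union, hd]
    show rk (∅ : Set F) < _
    rw [show rk (∅ : Set F) = 0 from Matroid.eRk_empty _]
    exact_mod_cast Nat.succ_pos _
  obtain ⟨K, hK1, hK2, x', y', hy', hcut, hr1, hr2⟩ := x_step h.nz hx
  have hone : ∀ a : (Fin n → ℤ) ⊕ (Fin n → ℤ), evm x y a ∉ cl (∅ : Set F) →
      evm x' y' a ∉ cl (∅ : Set K) := by
    intro a ha hcon
    have hI : (AlgebraicIndependent.matroid ℂ F).Indep {evm x y a} := by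
      rw [Matroid.indep_iff_eRk_eq_encard_of_finite (Set.finite_singleton _),
        Set.encard_singleton]
      have h1 := rk_insert_not ha
      rw [show rk (∅ : Set F) = 0 from Matroid.eRk_empty _, zero_add] at h1
      rw [← h1, LawfulSingleton.insert_empty_eq]
      rfl
    have hj : ∃ j, x j ∉ cl ({evm x y a} : Set F) := by
      apply xc_not
      rw [xc_rk_indep hI, Set.encard_singleton]
      have h2 : rk (Set.range x) ≤ rk ({evm x y a} ∪ Set.range x) :=
        rk_mono (Set.Subset.trans Set.subset_union_right (subset_cl _))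
      rw [hd] at h2
      refine lt_of_lt_of_le ?_ h2
      exact_mod_cast (by omega : 1 < d + 2)
    have h3 := xc_transfer hcut hI 1 (by rw [Set.encard_singleton]; rfl) {a}
      (by rw [Set.image_singleton]) hj
    rw [Set.image_singleton] at h3
    have h4 : rk ({evm x' y' a} : Set K) ≤ rk (∅ : Set K) :=
      rk_mono (Set.singleton_subset_iff.2 hcon)
    rw [show rk (∅ : Set K) = 0 from Matroid.eRk_empty _] at h4
    have h5 := h3.trans h4
    simp at h5
  refine ⟨K, hK1, hK2, x', y', ⟨hy', ?_, ?_, ?_⟩, hcut, ?_, ?_⟩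
  · intro m hm c hcon
    refine hone (Sum.inl m) ?_ ?_
    · intro h1
      obtain ⟨c', hc'⟩ := cl_empty h1
      exact h.af m hm c' hc'
    · show li m x' ∈ _
      rw [hcon]
      exact cl_const c _
  · intro m hm c hcon
    refine hone (Sum.inr m) ?_ ?_
    · intro h1
      obtain ⟨c', hc'⟩ := cl_empty h1
      exact h.mf m hm c' hc'
    · show mo m y' ∈ _
      rw [hcon]
      exact cl_const c _
  · intro k M hk hkn
    set q := (M.map (Int.cast : ℤ → ℚ)).rank with hq
    have hb := rk_mono_bound h.nz (Set.range x) M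
    rw [hN, ← hq] at hb
    have hle : rk (Set.range x ∪ Set.range (fun i => mo (M i) y)) ≤ rk (Set.range x ∪ Set.range y) := by
      refine rk_mono (Set.union_subset (Set.Subset.trans Set.subset_union_left (subset_cl _)) ?_)
      rintro a ⟨i, rfl⟩
      exact mo_mem (M i) fun j => subset_cl _ (Or.inr ⟨j, rfl⟩)
    have hfin : rk (Set.range x ∪ Set.range (fun i => mo (M i) y)) ≠ ⊤ := by
      intro h1
      rw [h1, hN] at hle
      exact ENat.natCast_ne_top _ (top_le_iff.1 hle)
    obtain ⟨r, hr⟩ := ENat.ne_top_iff_exists.1 hfin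
    have hlt : (q : ℕ∞) < rk (Set.range x ∪ Set.range (fun i => mo (M i) y)) := by
      rw [← hr] at hb ⊢
      have h1 : d + 2 + e + q ≤ r + n := by exact_mod_cast hb
      have h2 : q < r := by omega
      exact_mod_cast h2
    obtain ⟨I, hIT, hI, hIq, hj⟩ := xc_choose
      (Set.subset_union_right : Set.range (fun i => mo (M i) y) ⊆
        Set.range (fun i => li (M i) x) ∪ Set.range (fun i => mo (M i) y))
      (h.rot k M hk hkn) hlt (by rw [hd]; exact_mod_cast Nat.succ_pos _) hfin
    rw [← xc_mat] at hIT ⊢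
    exact xc_transfer hcut hI q hIq _ hIT hj
  · apply le_antisymm
    · rw [hd] at hr1
      obtain ⟨r, hr, h3⟩ := xc_fin hr1
      rw [hr]
      exact_mod_cast (by omega : r ≤ d + 1)
    · have h1 : ((d + 1 : ℕ) : ℕ∞) ≤ rk (Set.range x) := by
        rw [hd]
        exact_mod_cast (by omega : d + 1 ≤ d + 2)
      obtain ⟨I, hIx, hI, hIe⟩ := (Matroid.le_eRk_iff).1 h1
      have hj : ∃ j, x j ∉ cl I := by
        apply xc_not
        rw [xc_rk_indep hI, hIe]
        have h2 : rk (Set.range x) ≤ rk (I ∪ Set.range x) :=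
          rk_mono (Set.Subset.trans Set.subset_union_right (subset_cl _))
        rw [hd] at h2
        refine lt_of_lt_of_le ?_ h2
        exact_mod_cast (by omega : d + 1 < d + 2)
      have h3 := xc_transfer hcut hI (d + 1) hIe (Set.range fun j => Sum.inl (Pi.single j 1))
        (by rw [xc_single]; exact hIx) hj
      rwa [xc_single] at h3
  · apply le_antisymm
    · rw [hN] at hr2
      obtain ⟨r, hr, h3⟩ := xc_fin hr2
      rw [hr]
      exact_mod_cast (by omega : r ≤ d + 1 + e)
    · set M := AlgebraicIndependent.matroid ℂ F with hM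
      obtain ⟨B₀, hB₀⟩ := M.exists_isBasis (Set.range x)
      obtain ⟨B, hB, hBB⟩ := hB₀.indep.subset_isBasis_of_subset
        (hB₀.subset.trans Set.subset_union_left : B₀ ⊆ Set.range x ∪ Set.range y)
      have hrB : B.encard = ((d + 2 + e : ℕ) : ℕ∞) := by
        rw [← hN]
        exact hB.encard_eq_eRk
      have hr0 : B₀.encard = ((d + 2 : ℕ) : ℕ∞) := by
        rw [← hd]
        exact hB₀.encard_eq_eRk
      obtain ⟨b, hb⟩ : B₀.Nonempty := by
        rw [← Set.encard_pos, hr0]
        exact_mod_cast Nat.succ_pos _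
      obtain ⟨j, hj⟩ := hB₀.subset hb
      have hI : M.Indep (B \ {b}) := hB.indep.subset Set.sdiff_subset
      have hIe : (B \ {b}).encard = ((d + 1 + e : ℕ) : ℕ∞) := by
        have h1 := Set.encard_sdiff_singleton_add_one (hBB hb)
        rw [hrB] at h1
        have h2 : (B \ {b}).encard ≠ ⊤ := by
          intro h3
          rw [h3] at h1
          exact ENat.natCast_ne_top _ (by rw [← h1]; simp)
        obtain ⟨r, hr⟩ := ENat.ne_top_iff_exists.1 h2
        rw [← hr] at h1 ⊢
        have h3 : r + 1 = d + 2 + e := by exact_mod_cast h1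
        exact_mod_cast (by omega : r = d + 1 + e)
      have hjn : ∃ j, x j ∉ cl (B \ {b}) := by
        refine ⟨j, ?_⟩
        rw [hj, cl_eq]
        exact hB.indep.notMem_closure_sdiff_of_mem (hBB hb)
      have h3 := xc_transfer hcut hI (d + 1 + e) hIe _
        (by rw [xc_all]; exact Set.sdiff_subset.trans hB.subset) hjn
      rwa [xc_all] at h3

end XA
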