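import Pool.Agent.Lib.MP_228259_lc.A.DRK
import Pool.Agent.Lib.MP_228259_lc.A.DRS
import Pool.Agent.Lib.MP_228259_lc.A.DRI
import Pool.Agent.Lib.MP_228259_lc.A.DRG
import Pool.Agent.Lib.MP_228259_lc.A.RKD

/-!
XS: specialisation of a generic linear form in the `x j` only.

PROOF. Copy the proof of `dim_step` (DR4.lean; its private lemmas too, with new names) with these changes.
* `evm x y` is `dr4ev x y`. `u := x : Fin n → F` in the generic linear combination:
  `𝒮` = the sets `range (fun i => evm x y (D i))`, for all `k` and `D : Fin k → _` such that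
  `∃ j, x j ∉ cl (range ..)` (countable: `Σ k, Fin k → (Fin n → ℤ) ⊕ (Fin n → ℤ)` is countable).
  `exists_generic x 𝒮` gives `ξ`, `g = ∑ i : Fin n, algebraMap ℂ F ξ ^ (i : ℕ) * x i ∉ cl S` for `S ∈ 𝒮`, in particular
  `g ∉ cl ∅` (`hx`, `k = 0`).
* `X = range x ∪ range y` has finite rank `r + 1 ≥ 1` (`g ∈ cl X`, `g ∉ cl ∅`); basis `(b, g)` as before
  (`dr4_basis`), `u = (x, y, y⁻¹)`, `spc`, `exists_target r`.
* for each `D` with `evm ∘ D` independent and `∃ j, x j ∉ cl (range (evm ∘ D))`: `Fin.snoc (evm ∘ D) g` is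
  independent and `spec_indep` gives a finite exceptional set.
* for each `k, D, a` with `evm x y a ∈ cl (range (evm ∘ D))`: choose a polynomial
  `Q = ∑ Q_i T ^ i` over `MvPolynomial (Fin k) ℂ` with `aeval (evm ∘ D) Q_i ≠ 0` for one `i = d`
  and `∑ aeval (evm ∘ D) Q_i * (evm a) ^ i = 0` (see `dri_poly` in DRI.lean). `spec_ne` for the polynomial
  `aeval (fun i => dr4pol r n (D i)) Q_d` gives a finite exceptional set; for the other `c`
  the specialised equation `∑ aeval (evm' ∘ D) Q_i * (evm' a) ^ i = 0` (it is a polynomial relation between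
  the members of the big family, so it survives) has a non-zero coefficient, so
  `evm x' y' a ∈ cl (range (evm' ∘ D))` (`cl_root`).
* `c` outside of the countable union of the exceptional sets.
* the two inequalities: `rk_drop` with the polynomial `∑ C (ξ ^ i) * X i` for `u = x` (`IsSpec x x'` by
  `IsSpec.comp`), and `∑ C (ξ ^ i) * X (inl i)` for `Sum.elim x y` (`Set.Sum.elim_range`);
  `∑ ξ ^ i x' i = c` because `X (inl last) - ∑ ξ ^ i (X of x i)` is a relation of the big family.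
-/

set_option autoImplicit false

namespace XA

open MvPolynomial

/-- the linear form or the monomial with the exponents `m` -/
def evm {F : Type*} [Field F] {n : ℕ} (x y : Fin n → F) : (Fin n → ℤ) ⊕ (Fin n → ℤ) → F :=
  Sum.elim (fun m => li m x) (fun m => mo m y)

/-- `(x', y')` is a generic section of `(x, y)`: relations survive, algebraic dependence between linear
forms in `x` and monomials in `y` survives, independent families survive unless `x` is algebraic over
them -/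
structure Cut {F K : Type*} [Field F] [Algebra ℂ F] [Field K] [Algebra ℂ K] {n : ℕ}
    (x y : Fin n → F) (x' y' : Fin n → K) : Prop where
  spec : IsSpec (Sum.elim x y) (Sum.elim x' y')
  dep : ∀ (k : ℕ) (D : Fin k → (Fin n → ℤ) ⊕ (Fin n → ℤ)) (a : (Fin n → ℤ) ⊕ (Fin n → ℤ)),
    evm x y a ∈ cl (Set.range fun i => evm x y (D i)) →
      evm x' y' a ∈ cl (Set.range fun i => evm x' y' (D i))
  ind : ∀ (k : ℕ) (D : Fin k → (Fin n → ℤ) ⊕ (Fin n → ℤ)),
    AlgebraicIndependent ℂ (fun i => evm x y (D i)) →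
      (∃ j, x j ∉ cl (Set.range fun i => evm x y (D i))) →
        AlgebraicIndependent ℂ (fun i => evm x' y' (D i))

/-- the polynomial which represents it -/
private noncomputable def xsPol (r n : ℕ) :
    (Fin n → ℤ) ⊕ (Fin n → ℤ) → MvPolynomial (Fin (r + 1) ⊕ Fin (n + n + n)) ℂ :=
  Sum.elim
    (fun m => ∑ j, C (m j : ℂ) * X (Sum.inr (Fin.castAdd n (Fin.castAdd n j))))
    (fun m => ∏ j, (X (Sum.inr (Fin.castAdd n (Fin.natAdd n j))) ^ (m j).toNat *
      X (Sum.inr (Fin.natAdd (n + n) j)) ^ (-m j).toNat))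

private theorem xs_pol {F : Type*} [Field F] [Algebra ℂ F] {r n : ℕ} (x y : Fin n → F)
    (hy : ∀ j, y j ≠ 0) (V : Fin (r + 1) ⊕ Fin (n + n + n) → F)
    (h1 : ∀ j, V (Sum.inr (Fin.castAdd n (Fin.castAdd n j))) = x j)
    (h2 : ∀ j, V (Sum.inr (Fin.castAdd n (Fin.natAdd n j))) = y j)
    (h3 : ∀ j, V (Sum.inr (Fin.natAdd (n + n) j)) = (y j)⁻¹) (d : (Fin n → ℤ) ⊕ (Fin n → ℤ)) :
    aeval V (xsPol r n d) = evm x y d := by
  rcases d with m | m
  · show aeval V (∑ j, C (m j : ℂ) * X (Sum.inr (Fin.castAdd n (Fin.castAdd n j)))) = li m x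
    unfold li
    rw [map_sum]
    refine Finset.sum_congr rfl fun j _ => ?_
    rw [map_mul, aeval_X, h1, ← MvPolynomial.algebraMap_eq, AlgHom.commutes, map_intCast]
  · show aeval V (∏ j, (X (Sum.inr (Fin.castAdd n (Fin.natAdd n j))) ^ (m j).toNat *
      X (Sum.inr (Fin.natAdd (n + n) j)) ^ (-m j).toNat)) = mo m y
    unfold mo
    rw [map_prod]
    refine Finset.prod_congr rfl fun j _ => ?_
    rw [map_mul, map_pow, map_pow, aeval_X, aeval_X, h2, h3, inv_pow, ← zpow_natCast,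
      ← zpow_natCast, ← zpow_neg, ← zpow_add₀ (hy j)]
    congr 1
    omega

private theorem xs_one {F : Type*} [Field F] [Algebra ℂ F] (a : F) :
    AlgebraicIndependent ℂ (fun _ : Fin 1 => a) ↔ a ∉ cl (∅ : Set F) := by
  have hr : Set.range (fun _ : Fin 1 => a) = insert a ∅ := by
    ext z
    simp [eq_comm]
  have h0 : rk (∅ : Set F) = 0 := by
    unfold rk
    exact Matroid.eRk_empty _
  rw [← rk_eq_iff, hr, Fintype.card_fin]
  constructor
  · intro h1 h2
    rw [rk_insert_mem h2, h0] at h1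
    norm_num at h1
  · intro h1
    rw [rk_insert_not h1, h0]
    norm_num

/-- a finite set is the range of an injective family -/
private theorem xs_enum {α : Type*} (I : Set α) (q : ℕ) (hI : I.encard = q) :
    ∃ e : Fin q → α, Function.Injective e ∧ Set.range e = I := by
  have hfin : I.Finite := Set.finite_of_encard_eq_coe hI
  have hc : hfin.toFinset.card = q := by
    rw [hfin.encard_eq_coe_toFinset_card] at hI
    exact_mod_cast hI
  let e := (hfin.toFinset.equivFinOfCardEq hc).symm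
  refine ⟨fun i => (e i : α), fun i j hij => e.injective (Subtype.ext hij), ?_⟩
  ext z
  constructor
  · rintro ⟨i, rfl⟩
    exact hfin.mem_toFinset.1 (e i).2
  · intro hz
    refine ⟨e.symm ⟨z, hfin.mem_toFinset.2 hz⟩, ?_⟩
    simp

private theorem xs_ind {F : Type*} [Field F] [Algebra ℂ F] {ι : Type*} {e : ι → F}
    (he : Function.Injective e) (h : (AlgebraicIndependent.matroid ℂ F).Indep (Set.range e)) :
    AlgebraicIndependent ℂ e :=
  (algebraicIndependent_subtype_range he).1 (AlgebraicIndependent.matroid_indep_iff.1 h)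

/-- a transcendence basis which contains `g` -/
private theorem xs_basis {F : Type*} [Field F] [Algebra ℂ F] {X : Set F} {r : ℕ} {g : F}
    (hX : rk X = (r : ℕ∞) + 1) (hgX : g ∈ cl X) (hg0 : g ∉ cl (∅ : Set F)) :
    ∃ b : Fin r → F, AlgebraicIndependent ℂ (Fin.snoc b g : Fin (r + 1) → F) ∧
      ∀ a ∈ X, a ∈ cl (Set.range (Fin.snoc b g : Fin (r + 1) → F)) := by
  have hgi : (AlgebraicIndependent.matroid ℂ F).Indep {g} := by
    have h1 : AlgebraicIndependent ℂ (fun _ : Fin 1 => g) := (xs_one g).2 hg0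
    have h2 := AlgebraicIndependent.matroid_indep_iff.2
      ((algebraicIndependent_subtype_range h1.injective).2 h1)
    have h3 : Set.range (fun _ : Fin 1 => g) = {g} := by
      ext z
      simp [eq_comm]
    rw [h3] at h2
    exact h2
  obtain ⟨B, hB, hgB⟩ := hgi.subset_isBasis_of_subset
    (show {g} ⊆ insert g X from Set.singleton_subset_iff.2 (Set.mem_insert _ _))
    (by rw [AlgebraicIndependent.matroid_e]; exact Set.subset_univ _)
  have hgB' : g ∈ B := hgB rfl
  have hBc : B.encard = (r : ℕ∞) + 1 := by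
    rw [hB.encard_eq_eRk]
    show rk (insert g X) = _
    rw [rk_insert_mem hgX, hX]
  have hBd : (B \ {g}).encard = r := by
    have h1 := Set.encard_sdiff_singleton_add_one hgB'
    rw [hBc] at h1
    exact ENat.add_left_injective_of_ne_top (n := 1) (by norm_num) h1
  obtain ⟨b, hb1, hb2⟩ := xs_enum _ _ hBd
  obtain ⟨w, hw⟩ : ∃ w : Fin (r + 1) → F, w = Fin.snoc b g := ⟨_, rfl⟩
  have hwl : w (Fin.last r) = g := by rw [hw, Fin.snoc_last]
  have hwc : ∀ i : Fin r, w i.castSucc = b i := by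
    intro i
    rw [hw, Fin.snoc_castSucc]
  have hbg : ∀ i, b i ≠ g := by
    intro i h
    have h1 : b i ∈ B \ {g} := by
      rw [← hb2]
      exact ⟨i, rfl⟩
    exact h1.2 h
  have hinj : Function.Injective w := by
    intro i
    refine Fin.lastCases ?_ (fun i' => ?_) i
    · intro j
      refine Fin.lastCases (fun _ => rfl) (fun j' h => ?_) j
      rw [hwl, hwc] at h
      exact absurd h.symm (hbg j')
    · intro j
      refine Fin.lastCases (fun h => ?_) (fun j' h => ?_) j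
      · rw [hwl, hwc] at h
        exact absurd h (hbg i')
      · rw [hwc, hwc] at h
        rw [hb1 h]
  have hran : Set.range w = B := by
    ext z
    constructor
    · rintro ⟨i, rfl⟩
      refine Fin.lastCases ?_ (fun i' => ?_) i
      · rw [hwl]
        exact hgB'
      · rw [hwc]
        have h1 : b i' ∈ B \ {g} := by
          rw [← hb2]
          exact ⟨i', rfl⟩
        exact h1.1
    · intro hz
      by_cases h : z = g
      · exact ⟨Fin.last r, by rw [hwl, h]⟩
      · have h1 : z ∈ Set.range b := by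
          rw [hb2]
          exact ⟨hz, h⟩
        obtain ⟨i, rfl⟩ := h1
        exact ⟨i.castSucc, hwc i⟩
  refine ⟨b, ?_, fun a ha => ?_⟩
  · rw [← hw]
    refine xs_ind hinj ?_
    rw [hran]
    exact hB.indep
  · rw [← hw, hran, cl_eq]
    exact hB.subset_closure (Set.mem_insert_of_mem _ ha)

private theorem xs_mem {F : Type*} [Field F] [Algebra ℂ F] {ι : Type*} (t : ι → F) {T : Set F}
    (ht : ∀ i, t i ∈ cl T) (p : MvPolynomial ι ℂ) : aeval t p ∈ cl T := by
  obtain ⟨K, hK⟩ := cl_field T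
  have hmem : ∀ a : F, a ∈ K ↔ a ∈ cl T := fun a => by rw [← hK]; rfl
  rw [← hmem]
  induction p using MvPolynomial.induction_on with
  | C a =>
    rw [← MvPolynomial.algebraMap_eq, AlgHom.commutes]
    exact K.algebraMap_mem a
  | add p q hp hq =>
    rw [map_add]
    exact add_mem hp hq
  | mul_X p i hp =>
    rw [map_mul, aeval_X]
    exact mul_mem hp ((hmem _).2 (ht i))

/-- the elements of `cl (range t)` are the roots of polynomials over `MvPolynomial ι ℂ` -/
private theorem xs_poly {F : Type*} [Field F] [Algebra ℂ F] {ι : Type*} (t : ι → F) {a : F}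
    (ha : a ∈ cl (Set.range t)) : ∃ Q : Polynomial (MvPolynomial ι ℂ),
      (∃ d, aeval t (Q.coeff d) ≠ 0) ∧
      (Q.map ((aeval t : MvPolynomial ι ℂ →ₐ[ℂ] F) : MvPolynomial ι ℂ →+* F)).eval a = 0 := by
  obtain ⟨q, hq0, hq⟩ := ha
  have h1 : q.map (algebraMap (Algebra.adjoin ℂ (Set.range t)) F) ∈
      Polynomial.lifts ((aeval t : MvPolynomial ι ℂ →ₐ[ℂ] F) : MvPolynomial ι ℂ →+* F) := by
    rw [Polynomial.lifts_iff_coeff_lifts]
    intro n
    rw [Polynomial.coeff_map]
    have h2 : ((q.coeff n : Algebra.adjoin ℂ (Set.range t)) : F) ∈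
        (aeval t : MvPolynomial ι ℂ →ₐ[ℂ] F).range := by
      rw [← Algebra.adjoin_range_eq_range_aeval]
      exact (q.coeff n).2
    obtain ⟨f, hf⟩ := h2
    exact ⟨f, hf⟩
  obtain ⟨Q, hQ⟩ := (Polynomial.mem_lifts _).1 h1
  refine ⟨Q, ?_, ?_⟩
  · by_contra hne
    push Not at hne
    apply hq0
    have h3 : q.map (algebraMap (Algebra.adjoin ℂ (Set.range t)) F) = 0 := by
      rw [← hQ]
      ext n
      rw [Polynomial.coeff_map, Polynomial.coeff_zero]
      exact hne n
    have h4 : Function.Injective (algebraMap (Algebra.adjoin ℂ (Set.range t)) F) :=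
      Subtype.val_injective
    exact (Polynomial.map_eq_zero_iff h4).1 h3
  · rw [hQ, Polynomial.eval_map, ← Polynomial.aeval_def]
    exact hq

theorem x_step {F : Type*} [Field F] [Algebra ℂ F] {n : ℕ} {x y : Fin n → F}
    (hy : ∀ j, y j ≠ 0) (hx : ∃ j, x j ∉ cl (∅ : Set F)) :
    ∃ (K : Type) (_ : Field K) (_ : Algebra ℂ K) (x' y' : Fin n → K), (∀ j, y' j ≠ 0) ∧
      Cut x y x' y' ∧ rk (Set.range x') + 1 ≤ rk (Set.range x) ∧
      rk (Set.range x' ∪ Set.range y') + 1 ≤ rk (Set.range x ∪ Set.range y) := by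
  classical
  obtain ⟨X, hXd⟩ : ∃ X, X = Set.range x ∪ Set.range y := ⟨_, rfl⟩
  have hXr : X = Set.range (Sum.elim x y) := by rw [hXd, Set.Sum.elim_range]
  have hXfin : rk X ≤ ((n + n : ℕ) : ℕ∞) := by
    rw [hXr]
    refine (rk_range_le _).trans ?_
    rw [Fintype.card_sum, Fintype.card_fin]
  obtain ⟨R, hR⟩ := ENat.ne_top_iff_exists.1 (ne_top_of_le_ne_top (ENat.natCast_ne_top _) hXfin)
  -- the generic linear combination
  obtain ⟨𝒮, h𝒮⟩ : ∃ 𝒮 : Set (Set F), 𝒮 = (fun D : (Σ k : ℕ, Fin k → (Fin n → ℤ) ⊕ (Fin n → ℤ)) =>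
      Set.range (fun i => evm x y (D.2 i))) ''
        {D | ∃ j, x j ∉ cl (Set.range (fun i => evm x y (D.2 i)))} := ⟨_, rfl⟩
  have hcount : 𝒮.Countable := by
    rw [h𝒮]
    exact (Set.to_countable _).image _
  have hex : ∀ S ∈ 𝒮, ∃ i, x i ∉ cl S := by
    intro S hS
    rw [h𝒮] at hS
    obtain ⟨D, hD, rfl⟩ := hS
    exact hD
  obtain ⟨ξ, hξ⟩ := exists_generic x 𝒮 hcount hex
  obtain ⟨g, hg⟩ : ∃ g, g = ∑ i : Fin n, algebraMap ℂ F ξ ^ (i : ℕ) * x i := ⟨_, rfl⟩
  rw [← hg] at hξ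
  have hgX : g ∈ cl X := by
    obtain ⟨K₀, hK₀⟩ := cl_field X
    have hmem : ∀ a : F, a ∈ K₀ ↔ a ∈ cl X := fun a => by rw [← hK₀]; rfl
    rw [← hmem, hg]
    refine sum_mem fun i _ => mul_mem (pow_mem (K₀.algebraMap_mem ξ) _)
      ((hmem _).2 (subset_cl _ ?_))
    rw [hXd]
    exact Or.inl ⟨i, rfl⟩
  have hr0 : Set.range (fun i : Fin 0 => evm x y ((fun i => i.elim0 : Fin 0 → (Fin n → ℤ) ⊕
      (Fin n → ℤ)) i)) = ∅ := by
    ext z
    simp
  have hg0 : g ∉ cl (∅ : Set F) := by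
    refine hξ ∅ ?_
    rw [h𝒮]
    refine ⟨⟨0, fun i => i.elim0⟩, ?_, hr0⟩
    obtain ⟨j, hj⟩ := hx
    refine ⟨j, ?_⟩
    rw [hr0]
    exact hj
  -- the rank
  obtain ⟨r, rfl⟩ : ∃ r, R = r + 1 := by
    refine ⟨R - 1, ?_⟩
    rcases Nat.eq_zero_or_pos R with h0 | h0
    · exfalso
      have h1 : rk (insert g X) = 0 := by
        rw [rk_insert_mem hgX, ← hR, h0]
        norm_num
      have h2 : rk ({g} : Set F) ≤ rk (insert g X) := by
        refine rk_mono ?_
        rintro a ha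
        rw [Set.mem_singleton_iff] at ha
        rw [ha]
        exact subset_cl _ (Set.mem_insert _ _)
      have h3 : AlgebraicIndependent ℂ (fun _ : Fin 1 => g) := (xs_one g).2 hg0
      have h4 := (rk_eq_iff _).2 h3
      have h5 : Set.range (fun _ : Fin 1 => g) = {g} := by
        ext z
        simp [eq_comm]
      rw [h5, Fintype.card_fin] at h4
      rw [h4, h1] at h2
      norm_num at h2
    · omega
  have hrk : rk X = (r : ℕ∞) + 1 := by
    rw [← hR]
    norm_cast
  obtain ⟨b, hbg, hbX⟩ := xs_basis hrk hgX hg0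
  -- the family to be specialised
  obtain ⟨U, hU⟩ : ∃ U : Fin (n + n + n) → F, U = Fin.append (Fin.append x y) (fun j => (y j)⁻¹) :=
    ⟨_, rfl⟩
  have hU1 : ∀ j, U (Fin.castAdd n (Fin.castAdd n j)) = x j := by
    intro j
    rw [hU, Fin.append_left, Fin.append_left]
  have hU2 : ∀ j, U (Fin.castAdd n (Fin.natAdd n j)) = y j := by
    intro j
    rw [hU, Fin.append_left, Fin.append_right]
  have hU3 : ∀ j, U (Fin.natAdd (n + n) j) = (y j)⁻¹ := by
    intro j
    rw [hU, Fin.append_right]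
  have hUcl : ∀ i, U i ∈ cl (Set.range (Fin.snoc b g : Fin (r + 1) → F)) := by
    intro i
    refine Fin.addCases (fun j => ?_) (fun j => ?_) i
    · refine Fin.addCases (fun l => ?_) (fun l => ?_) j
      · rw [hU1]
        refine hbX _ ?_
        rw [hXd]
        exact Or.inl ⟨l, rfl⟩
      · rw [hU2]
        refine hbX _ ?_
        rw [hXd]
        exact Or.inr ⟨l, rfl⟩
    · rw [hU3]
      obtain ⟨K₀, hK₀⟩ := cl_field (Set.range (Fin.snoc b g : Fin (r + 1) → F))
      have hmem : ∀ a : F, a ∈ K₀ ↔ a ∈ cl (Set.range (Fin.snoc b g : Fin (r + 1) → F)) :=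
        fun a => by rw [← hK₀]; rfl
      rw [← hmem]
      refine inv_mem ((hmem _).2 (hbX _ ?_))
      rw [hXd]
      exact Or.inr ⟨j, rfl⟩
  obtain ⟨W, hW⟩ : ∃ W : Fin (r + 1) ⊕ Fin (n + n + n) → F,
      W = Sum.elim (Fin.snoc b g : Fin (r + 1) → F) U := ⟨_, rfl⟩
  have hWr : ∀ i, W (Sum.inr i) = U i := by
    intro i
    rw [hW, Sum.elim_inr]
  have hWl : W (Sum.inl (Fin.last r)) = g := by
    rw [hW, Sum.elim_inl, Fin.snoc_last]
  have hWp : ∀ d, aeval W (xsPol r n d) = evm x y d :=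
    xs_pol x y hy W (fun j => by rw [hWr, hU1]) (fun j => by rw [hWr, hU2])
      (fun j => by rw [hWr, hU3])
  obtain ⟨K, iF, iA, β, iC, hβ, hβcl⟩ := exists_target r
  obtain ⟨uc, E, hE, hspc⟩ := spc (K := K) hbg hβ hUcl
  -- the independent families
  have hind : ∀ D : (Σ k : ℕ, Fin k → (Fin n → ℤ) ⊕ (Fin n → ℤ)),
      (∃ j, x j ∉ cl (Set.range (fun i => evm x y (D.2 i)))) →
      AlgebraicIndependent ℂ (fun i => evm x y (D.2 i)) → ∃ E' : Set ℂ, E'.Finite ∧ ∀ c ∉ E',
        ∀ v : Fin (n + n + n) → K, IsSpec W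
          (Sum.elim (Fin.snoc β (algebraMap ℂ K c) : Fin (r + 1) → K) v) →
        AlgebraicIndependent ℂ (fun i => aeval
          (Sum.elim (Fin.snoc β (algebraMap ℂ K c) : Fin (r + 1) → K) v) (xsPol r n (D.2 i))) := by
    rintro ⟨k, D⟩ hk hD
    have hk' : ∃ j, x j ∉ cl (Set.range (fun i : Fin k => evm x y (D i))) := hk
    have hDi : AlgebraicIndependent ℂ (fun i : Fin k => evm x y (D i)) := hD
    have hgS : g ∉ cl (Set.range (fun i : Fin k => evm x y (D i))) := by
      refine hξ _ ?_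
      rw [h𝒮]
      exact ⟨⟨k, D⟩, hk', rfl⟩
    have hran : Set.range (Fin.snoc (fun i : Fin k => evm x y (D i)) g : Fin (k + 1) → F) =
        insert g (Set.range (fun i : Fin k => evm x y (D i))) := by
      ext z
      constructor
      · rintro ⟨i, rfl⟩
        refine Fin.lastCases ?_ (fun i' => ?_) i
        · rw [Fin.snoc_last]
          exact Set.mem_insert _ _
        · rw [Fin.snoc_castSucc]
          exact Set.mem_insert_of_mem _ ⟨i', rfl⟩
      · rintro (rfl | ⟨i, rfl⟩)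
        · exact ⟨Fin.last k, Fin.snoc_last _ _⟩
        · exact ⟨i.castSucc, Fin.snoc_castSucc _ _ _⟩
    have hS : AlgebraicIndependent ℂ (Fin.snoc (fun i : Fin k => aeval
        (Sum.elim (Fin.snoc b g : Fin (r + 1) → F) U) (xsPol r n (D i))) g : Fin (k + 1) → F) := by
      have h1 : (fun i : Fin k => aeval
          (Sum.elim (Fin.snoc b g : Fin (r + 1) → F) U) (xsPol r n (D i))) =
          (fun i : Fin k => evm x y (D i)) := by
        funext i
        rw [← hW, hWp]
      rw [h1, ← rk_eq_iff, hran, rk_insert_not hgS, (rk_eq_iff _).2 hDi]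
      simp
    obtain ⟨E', hE', h'⟩ := spec_indep hbg hβ hUcl (fun i : Fin k => xsPol r n (D i)) hS
    refine ⟨E', hE', fun c hc v hv => ?_⟩
    rw [hW] at hv
    exact h' c hc v hv
  choose! ED hED1 hED2 using hind
  -- the dependences
  have hdep : ∀ D : (Σ k : ℕ, (Fin k → (Fin n → ℤ) ⊕ (Fin n → ℤ)) × ((Fin n → ℤ) ⊕ (Fin n → ℤ))),
      evm x y D.2.2 ∈ cl (Set.range (fun i => evm x y (D.2.1 i))) → ∃ E' : Set ℂ, E'.Finite ∧
        ∀ c ∉ E', ∀ v : Fin (n + n + n) → K, IsSpec W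
          (Sum.elim (Fin.snoc β (algebraMap ℂ K c) : Fin (r + 1) → K) v) →
        aeval (Sum.elim (Fin.snoc β (algebraMap ℂ K c) : Fin (r + 1) → K) v)
            (xsPol r n D.2.2) ∈
          cl (Set.range (fun i => aeval
            (Sum.elim (Fin.snoc β (algebraMap ℂ K c) : Fin (r + 1) → K) v)
              (xsPol r n (D.2.1 i)))) := by
    rintro ⟨k, D, a⟩ hD
    have hD' : evm x y a ∈ cl (Set.range (fun i : Fin k => evm x y (D i))) := hD
    obtain ⟨Q, ⟨d, hd⟩, hQ⟩ := xs_poly (fun i : Fin k => evm x y (D i)) hD'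
    obtain ⟨σ, hσ⟩ : ∃ σ : MvPolynomial (Fin k) ℂ →ₐ[ℂ]
        MvPolynomial (Fin (r + 1) ⊕ Fin (n + n + n)) ℂ, σ = aeval (fun i => xsPol r n (D i)) :=
      ⟨_, rfl⟩
    have hσW : ∀ p, aeval W (σ p) = aeval (fun i : Fin k => evm x y (D i)) p := by
      intro p
      have h1 : (aeval W).comp σ = (aeval (fun i : Fin k => evm x y (D i)) : _ →ₐ[ℂ] F) := by
        apply MvPolynomial.algHom_ext
        intro j
        rw [AlgHom.comp_apply, hσ, aeval_X, aeval_X, hWp]
      rw [← h1]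
      rfl
    obtain ⟨E', hE', h'⟩ := spec_ne (b := b) (g := g) hβ hUcl (σ (Q.coeff d))
      (by rw [← hW, hσW]; exact hd)
    refine ⟨E', hE', fun c hc v hv => ?_⟩
    obtain ⟨V, hV⟩ : ∃ V : Fin (r + 1) ⊕ Fin (n + n + n) → K,
        V = Sum.elim (Fin.snoc β (algebraMap ℂ K c) : Fin (r + 1) → K) v := ⟨_, rfl⟩
    have hne := h' c hc v (by rw [← hW]; exact hv)
    rw [← hV] at hv hne
    show aeval (Sum.elim (Fin.snoc β (algebraMap ℂ K c) : Fin (r + 1) → K) v) (xsPol r n a) ∈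
      cl (Set.range (fun i : Fin k => aeval
        (Sum.elim (Fin.snoc β (algebraMap ℂ K c) : Fin (r + 1) → K) v) (xsPol r n (D i))))
    rw [← hV]
    obtain ⟨t', ht'⟩ : ∃ t' : Fin k → K, t' = fun i => aeval V (xsPol r n (D i)) := ⟨_, rfl⟩
    rw [← ht']
    have hσV : ∀ p, aeval V (σ p) = aeval t' p := by
      intro p
      have h1 : (aeval V).comp σ = (aeval t' : _ →ₐ[ℂ] K) := by
        apply MvPolynomial.algHom_ext
        intro j
        rw [AlgHom.comp_apply, hσ, aeval_X, aeval_X, ht']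
      rw [← h1]
      rfl
    refine cl_root (Set.range t')
      (Q.map ((aeval t' : MvPolynomial (Fin k) ℂ →ₐ[ℂ] K) : MvPolynomial (Fin k) ℂ →+* K)) ?_ ?_
      (aeval V (xsPol r n a)) ?_
    · intro h0
      have h1 := congrArg (fun q => q.coeff d) h0
      simp only [Polynomial.coeff_map, Polynomial.coeff_zero] at h1
      apply hne
      rw [hσV]
      exact h1
    · intro m
      rw [Polynomial.coeff_map]
      exact xs_mem t' (T := Set.range t') (fun j => subset_cl _ ⟨j, rfl⟩) _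
    · obtain ⟨f, hf⟩ : ∃ f : MvPolynomial (Fin (r + 1) ⊕ Fin (n + n + n)) ℂ,
          f = Q.eval₂ (σ : MvPolynomial (Fin k) ℂ →+*
            MvPolynomial (Fin (r + 1) ⊕ Fin (n + n + n)) ℂ) (xsPol r n a) := ⟨_, rfl⟩
      have f1 : aeval W f = (Q.map ((aeval (fun i : Fin k => evm x y (D i)) :
          MvPolynomial (Fin k) ℂ →ₐ[ℂ] F) : MvPolynomial (Fin k) ℂ →+* F)).eval (evm x y a) := by
        rw [hf, Polynomial.eval_map]
        have e1 := Polynomial.hom_eval₂ Q (σ : MvPolynomial (Fin k) ℂ →+*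
            MvPolynomial (Fin (r + 1) ⊕ Fin (n + n + n)) ℂ)
          ((aeval W : MvPolynomial (Fin (r + 1) ⊕ Fin (n + n + n)) ℂ →ₐ[ℂ] F) :
            MvPolynomial (Fin (r + 1) ⊕ Fin (n + n + n)) ℂ →+* F) (xsPol r n a)
        have e2 : ((aeval W : MvPolynomial (Fin (r + 1) ⊕ Fin (n + n + n)) ℂ →ₐ[ℂ] F) :
            MvPolynomial (Fin (r + 1) ⊕ Fin (n + n + n)) ℂ →+* F).comp
            (σ : MvPolynomial (Fin k) ℂ →+* MvPolynomial (Fin (r + 1) ⊕ Fin (n + n + n)) ℂ) =
            ((aeval (fun i : Fin k => evm x y (D i)) : MvPolynomial (Fin k) ℂ →ₐ[ℂ] F) :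
              MvPolynomial (Fin k) ℂ →+* F) := by
          apply RingHom.ext
          intro p
          exact hσW p
        have e3 : ((aeval W : MvPolynomial (Fin (r + 1) ⊕ Fin (n + n + n)) ℂ →ₐ[ℂ] F) :
            MvPolynomial (Fin (r + 1) ⊕ Fin (n + n + n)) ℂ →+* F) (xsPol r n a) = evm x y a := by
          show aeval W (xsPol r n a) = evm x y a
          exact hWp a
        rw [e2, e3] at e1
        exact e1
      have f2 : aeval V f = (Q.map ((aeval t' : MvPolynomial (Fin k) ℂ →ₐ[ℂ] K) :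
          MvPolynomial (Fin k) ℂ →+* K)).eval (aeval V (xsPol r n a)) := by
        rw [hf, Polynomial.eval_map]
        have e1 := Polynomial.hom_eval₂ Q (σ : MvPolynomial (Fin k) ℂ →+*
            MvPolynomial (Fin (r + 1) ⊕ Fin (n + n + n)) ℂ)
          ((aeval V : MvPolynomial (Fin (r + 1) ⊕ Fin (n + n + n)) ℂ →ₐ[ℂ] K) :
            MvPolynomial (Fin (r + 1) ⊕ Fin (n + n + n)) ℂ →+* K) (xsPol r n a)
        have e2 : ((aeval V : MvPolynomial (Fin (r + 1) ⊕ Fin (n + n + n)) ℂ →ₐ[ℂ] K) :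
            MvPolynomial (Fin (r + 1) ⊕ Fin (n + n + n)) ℂ →+* K).comp
            (σ : MvPolynomial (Fin k) ℂ →+* MvPolynomial (Fin (r + 1) ⊕ Fin (n + n + n)) ℂ) =
            ((aeval t' : MvPolynomial (Fin k) ℂ →ₐ[ℂ] K) : MvPolynomial (Fin k) ℂ →+* K) := by
          apply RingHom.ext
          intro p
          exact hσV p
        rw [e2] at e1
        exact e1
      rw [← f2]
      apply hv
      rw [f1]
      exact hQ
  choose! EQ hEQ1 hEQ2 using hdep
  have hbad : (E ∪ ((⋃ D ∈ {D : (Σ k : ℕ, Fin k → (Fin n → ℤ) ⊕ (Fin n → ℤ)) |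
      (∃ j, x j ∉ cl (Set.range (fun i => evm x y (D.2 i)))) ∧
      AlgebraicIndependent ℂ (fun i => evm x y (D.2 i))}, ED D) ∪
      ⋃ D ∈ {D : (Σ k : ℕ, (Fin k → (Fin n → ℤ) ⊕ (Fin n → ℤ)) × ((Fin n → ℤ) ⊕ (Fin n → ℤ))) |
        evm x y D.2.2 ∈ cl (Set.range (fun i => evm x y (D.2.1 i)))}, EQ D)).Countable := by
    refine hE.countable.union (Set.Countable.union ?_ ?_)
    · refine Set.Countable.biUnion (Set.to_countable _) fun D hD => ?_
      exact (hED1 D hD.1 hD.2).countable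
    · refine Set.Countable.biUnion (Set.to_countable _) fun D hD => ?_
      exact (hEQ1 D hD).countable
  obtain ⟨c, hc⟩ : ∃ c, c ∉ (E ∪ ((⋃ D ∈ {D : (Σ k : ℕ, Fin k → (Fin n → ℤ) ⊕ (Fin n → ℤ)) |
      (∃ j, x j ∉ cl (Set.range (fun i => evm x y (D.2 i)))) ∧
      AlgebraicIndependent ℂ (fun i => evm x y (D.2 i))}, ED D) ∪
      ⋃ D ∈ {D : (Σ k : ℕ, (Fin k → (Fin n → ℤ) ⊕ (Fin n → ℤ)) × ((Fin n → ℤ) ⊕ (Fin n → ℤ))) |
        evm x y D.2.2 ∈ cl (Set.range (fun i => evm x y (D.2.1 i)))}, EQ D)) := by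
    by_contra hcon
    push Not at hcon
    have h1 : (Set.univ : Set ℂ).Countable := hbad.mono fun z _ => hcon z
    exact not_countable_complex h1
  have hcE : c ∉ E := fun h' => hc (Or.inl h')
  have hcD : ∀ D : (Σ k : ℕ, Fin k → (Fin n → ℤ) ⊕ (Fin n → ℤ)),
      (∃ j, x j ∉ cl (Set.range (fun i => evm x y (D.2 i)))) →
      AlgebraicIndependent ℂ (fun i => evm x y (D.2 i)) → c ∉ ED D := by
    intro D h1 h2 h3
    exact hc (Or.inr (Or.inl (Set.mem_biUnion (show D ∈ {D : (Σ k : ℕ, Fin k → (Fin n → ℤ) ⊕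
      (Fin n → ℤ)) | (∃ j, x j ∉ cl (Set.range (fun i => evm x y (D.2 i)))) ∧
        AlgebraicIndependent ℂ (fun i => evm x y (D.2 i))} from ⟨h1, h2⟩) h3)))
  have hcQ : ∀ D : (Σ k : ℕ, (Fin k → (Fin n → ℤ) ⊕ (Fin n → ℤ)) × ((Fin n → ℤ) ⊕ (Fin n → ℤ))),
      evm x y D.2.2 ∈ cl (Set.range (fun i => evm x y (D.2.1 i))) → c ∉ EQ D := by
    intro D h1 h3
    exact hc (Or.inr (Or.inr (Set.mem_biUnion (show D ∈ {D : (Σ k : ℕ, (Fin k → (Fin n → ℤ) ⊕
      (Fin n → ℤ)) × ((Fin n → ℤ) ⊕ (Fin n → ℤ))) |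
        evm x y D.2.2 ∈ cl (Set.range (fun i => evm x y (D.2.1 i)))} from h1) h3)))
  have hsp := hspc c hcE
  obtain ⟨V, hV⟩ : ∃ V : Fin (r + 1) ⊕ Fin (n + n + n) → K,
      V = Sum.elim (Fin.snoc β (algebraMap ℂ K c) : Fin (r + 1) → K) (uc c) := ⟨_, rfl⟩
  rw [← hV, ← hW] at hsp
  have hVr : ∀ i, V (Sum.inr i) = uc c i := by
    intro i
    rw [hV, Sum.elim_inr]
  have hVl : V (Sum.inl (Fin.last r)) = algebraMap ℂ K c := by
    rw [hV, Sum.elim_inl, Fin.snoc_last]
  obtain ⟨x', hx'⟩ : ∃ x' : Fin n → K, ∀ j, x' j = uc c (Fin.castAdd n (Fin.castAdd n j)) :=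
    ⟨fun j => uc c (Fin.castAdd n (Fin.castAdd n j)), fun _ => rfl⟩
  obtain ⟨y', hy'⟩ : ∃ y' : Fin n → K, ∀ j, y' j = uc c (Fin.castAdd n (Fin.natAdd n j)) :=
    ⟨fun j => uc c (Fin.castAdd n (Fin.natAdd n j)), fun _ => rfl⟩
  have hyy : ∀ j, y' j * uc c (Fin.natAdd (n + n) j) = 1 := by
    intro j
    have h1 : aeval W (MvPolynomial.X (Sum.inr (Fin.castAdd n (Fin.natAdd n j))) *
        MvPolynomial.X (Sum.inr (Fin.natAdd (n + n) j)) - 1 :
        MvPolynomial (Fin (r + 1) ⊕ Fin (n + n + n)) ℂ) = 0 := by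
      rw [map_sub, map_mul, aeval_X, aeval_X, map_one, hWr, hWr, hU2, hU3,
        mul_inv_cancel₀ (hy j), sub_self]
    have h2 := hsp _ h1
    rw [map_sub, map_mul, aeval_X, aeval_X, map_one, hVr, hVr, ← hy'] at h2
    exact sub_eq_zero.1 h2
  have hy0 : ∀ j, y' j ≠ 0 := by
    intro j h0
    have h1 := hyy j
    rw [h0, zero_mul] at h1
    exact zero_ne_one h1
  have hVp : ∀ d, aeval V (xsPol r n d) = evm x' y' d :=
    xs_pol x' y' hy0 V (fun j => by rw [hVr, hx']) (fun j => by rw [hVr, hy'])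
      (fun j => by rw [hVr]; exact eq_inv_of_mul_eq_one_right (hyy j))
  have hspec : IsSpec (Sum.elim x y) (Sum.elim x' y') := by
    intro f hf
    obtain ⟨ρ, hρ⟩ : ∃ ρ : Fin n ⊕ Fin n → Fin (r + 1) ⊕ Fin (n + n + n), ρ = Sum.elim
        (fun j => Sum.inr (Fin.castAdd n (Fin.castAdd n j)))
        (fun j => Sum.inr (Fin.castAdd n (Fin.natAdd n j))) := ⟨_, rfl⟩
    have h1 : W ∘ ρ = Sum.elim x y := by
      funext j
      rw [Function.comp_apply, hρ]
      rcases j with j | j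
      · rw [Sum.elim_inl, Sum.elim_inl, hWr, hU1]
      · rw [Sum.elim_inr, Sum.elim_inr, hWr, hU2]
    have h2 : V ∘ ρ = Sum.elim x' y' := by
      funext j
      rw [Function.comp_apply, hρ]
      rcases j with j | j
      · rw [Sum.elim_inl, Sum.elim_inl, hVr, hx']
      · rw [Sum.elim_inr, Sum.elim_inr, hVr, hy']
    have h3 : aeval W (rename ρ f) = 0 := by
      rw [aeval_rename, h1]
      exact hf
    have h4 := hsp _ h3
    rw [aeval_rename, h2] at h4
    exact h4
  have hspx : IsSpec x x' := by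
    intro f hf
    have h1 : (Sum.elim x y) ∘ Sum.inl = x := rfl
    have h2 : (Sum.elim x' y') ∘ Sum.inl = x' := rfl
    have h3 : aeval (Sum.elim x y) (rename Sum.inl f) = 0 := by
      rw [aeval_rename, h1]
      exact hf
    have h4 := hspec _ h3
    rw [aeval_rename, h2] at h4
    exact h4
  -- the generic form becomes the constant `c`
  have hgc : ∑ i : Fin n, algebraMap ℂ K ξ ^ (i : ℕ) * x' i = algebraMap ℂ K c := by
    have h1 : aeval W ((∑ i : Fin n, C (ξ ^ (i : ℕ)) *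
        MvPolynomial.X (Sum.inr (Fin.castAdd n (Fin.castAdd n i)))) -
        MvPolynomial.X (Sum.inl (Fin.last r)) :
        MvPolynomial (Fin (r + 1) ⊕ Fin (n + n + n)) ℂ) = 0 := by
      rw [map_sub, aeval_X, hWl, map_sum, hg, sub_eq_zero]
      refine Finset.sum_congr rfl fun i _ => ?_
      rw [map_mul, aeval_X, aeval_C, map_pow, hWr, hU1]
    have h2 := hsp _ h1
    rw [map_sub, aeval_X, hVl, map_sum, sub_eq_zero] at h2
    rw [← h2]
    refine Finset.sum_congr rfl fun i _ => ?_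
    rw [map_mul, aeval_X, aeval_C, map_pow, hVr, hx']
  refine ⟨K, iF, iA, x', y', hy0, ⟨hspec, ?_, ?_⟩, ?_, ?_⟩
  · -- dependence
    intro k D a hD
    have h1 := hEQ2 ⟨k, D, a⟩ hD c (hcQ ⟨k, D, a⟩ hD) (uc c) (by rw [← hV]; exact hsp)
    rw [← hV] at h1
    have h2 : (fun i : Fin k => aeval V (xsPol r n (D i))) = (fun i => evm x' y' (D i)) := by
      funext i
      rw [hVp]
    have h3 : aeval V (xsPol r n a) ∈ cl (Set.range (fun i : Fin k => aeval V (xsPol r n (D i)))) :=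
      h1
    rw [h2, hVp] at h3
    exact h3
  · -- independence
    intro k D hD hk
    have h1 := hED2 ⟨k, D⟩ hk hD c (hcD ⟨k, D⟩ hk hD) (uc c) (by rw [← hV]; exact hsp)
    rw [← hV] at h1
    have h2 : (fun i : Fin k => aeval V (xsPol r n (D i))) = (fun i => evm x' y' (D i)) := by
      funext i
      rw [hVp]
    rw [← h2]
    exact h1
  · -- the rank of `x'`
    have h1 : aeval x (∑ i : Fin n, C (ξ ^ (i : ℕ)) * MvPolynomial.X i : MvPolynomial (Fin n) ℂ) = g := by
      rw [map_sum, hg]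
      refine Finset.sum_congr rfl fun i _ => ?_
      rw [map_mul, aeval_X, aeval_C, map_pow]
    have h2 : aeval x' (∑ i : Fin n, C (ξ ^ (i : ℕ)) * MvPolynomial.X i : MvPolynomial (Fin n) ℂ) =
        algebraMap ℂ K c := by
      rw [map_sum, ← hgc]
      refine Finset.sum_congr rfl fun i _ => ?_
      rw [map_mul, aeval_X, aeval_C, map_pow]
    exact rk_drop hspx _ (by rw [h1]; exact hg0) h2
  · -- the rank of `(x', y')`
    have h1 : aeval (Sum.elim x y) (∑ i : Fin n, C (ξ ^ (i : ℕ)) * MvPolynomial.X (Sum.inl i) :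
        MvPolynomial (Fin n ⊕ Fin n) ℂ) = g := by
      rw [map_sum, hg]
      refine Finset.sum_congr rfl fun i _ => ?_
      rw [map_mul, aeval_X, aeval_C, map_pow, Sum.elim_inl]
    have h2 : aeval (Sum.elim x' y') (∑ i : Fin n, C (ξ ^ (i : ℕ)) * MvPolynomial.X (Sum.inl i) :
        MvPolynomial (Fin n ⊕ Fin n) ℂ) = algebraMap ℂ K c := by
      rw [map_sum, ← hgc]
      refine Finset.sum_congr rfl fun i _ => ?_
      rw [map_mul, aeval_X, aeval_C, map_pow, Sum.elim_inl]
    have h3 := rk_drop hspec _ (by rw [h1]; exact hg0) h2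
    rw [Set.Sum.elim_range, Set.Sum.elim_range] at h3
    exact h3

end XA
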